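import Pool.Agent.Work.MP_d3fa71_gt.StmtsC

/-! Bundle of small proof modules (one section per former module). -/

section

open Polynomial

namespace AJG

/-! ### Laurent polynomials inside rational functions -/

section
variable {k : Type} [Field k]

theorem Elim_lau_poly (P : Polynomial k) : IsLau (algebraMap (Polynomial k) (RatFunc k) P) :=
  ⟨0, P, by rw [pow_zero, mul_one]⟩

theorem Elim_lau_C (c : k) : IsLau (RatFunc.C c) := by
  have h := Elim_lau_poly (Polynomial.C c)
  rwa [RatFunc.algebraMap_C] at h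

theorem Elim_lau_add {f g : RatFunc k} (hf : IsLau f) (hg : IsLau g) : IsLau (f + g) := by
  obtain ⟨N, P, hP⟩ := hf
  obtain ⟨M, Q, hQ⟩ := hg
  refine ⟨N + M, P * Polynomial.X ^ M + Q * Polynomial.X ^ N, ?_⟩
  rw [map_add, map_mul, map_mul, map_pow, map_pow, RatFunc.algebraMap_X, ← hP, ← hQ]
  ring

theorem Elim_lau_mul {f g : RatFunc k} (hf : IsLau f) (hg : IsLau g) : IsLau (f * g) := by
  obtain ⟨N, P, hP⟩ := hf
  obtain ⟨M, Q, hQ⟩ := hg
  refine ⟨N + M, P * Q, ?_⟩
  rw [map_mul, ← hP, ← hQ]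
  ring

theorem Elim_lau_neg {f : RatFunc k} (hf : IsLau f) : IsLau (-f) := by
  obtain ⟨N, P, hP⟩ := hf
  refine ⟨N, -P, ?_⟩
  rw [map_neg, ← hP]
  ring

theorem Elim_lau_sub {f g : RatFunc k} (hf : IsLau f) (hg : IsLau g) : IsLau (f - g) := by
  rw [sub_eq_add_neg]
  exact Elim_lau_add hf (Elim_lau_neg hg)

theorem Elim_lau_one : IsLau (1 : RatFunc k) := by
  have h := Elim_lau_poly (1 : Polynomial k)
  rwa [map_one] at h

theorem Elim_lau_zero : IsLau (0 : RatFunc k) := by
  have h := Elim_lau_poly (0 : Polynomial k)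
  rwa [map_zero] at h

theorem Elim_lau_pow {f : RatFunc k} (hf : IsLau f) (n : ℕ) : IsLau (f ^ n) := by
  induction n with
  | zero => rw [pow_zero]; exact Elim_lau_one
  | succ n ih => rw [pow_succ]; exact Elim_lau_mul ih hf

theorem Elim_lau_sum {ι : Type} (s : Finset ι) (f : ι → RatFunc k)
    (h : ∀ i ∈ s, IsLau (f i)) : IsLau (∑ i ∈ s, f i) := by
  classical
  induction s using Finset.induction_on with
  | empty => rw [Finset.sum_empty]; exact Elim_lau_zero
  | insert i s hi ih =>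
    rw [Finset.sum_insert hi]
    exact Elim_lau_add (h i (Finset.mem_insert_self i s))
      (ih fun j hj => h j (Finset.mem_insert_of_mem hj))

theorem Elim_lau_X (e : ℤ) : IsLau ((RatFunc.X : RatFunc k) ^ e) := by
  refine ⟨(-e).toNat, Polynomial.X ^ e.toNat, ?_⟩
  rw [map_pow, RatFunc.algebraMap_X, ← zpow_natCast, ← zpow_natCast, ← zpow_add₀ RatFunc.X_ne_zero]
  congr 1
  omega

end

/-! ### Evaluation at a point -/

section
variable {k K : Type} [Field k] [Field K] [Algebra k K]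

/-- `f` is regular at `ξ` with value `a` -/
def Elim_Ev (ξ : K) (f : RatFunc k) (a : K) : Prop :=
  ∃ P Q : Polynomial k, Polynomial.aeval ξ Q ≠ 0 ∧
    f * algebraMap (Polynomial k) (RatFunc k) Q = algebraMap (Polynomial k) (RatFunc k) P ∧
    a * Polynomial.aeval ξ Q = Polynomial.aeval ξ P

theorem Elim_ev_poly (ξ : K) (P : Polynomial k) :
    Elim_Ev ξ (algebraMap (Polynomial k) (RatFunc k) P) (Polynomial.aeval ξ P) :=
  ⟨P, 1, by simp, by simp, by simp⟩

theorem Elim_ev_C (ξ : K) (c : k) : Elim_Ev ξ (RatFunc.C c) (algebraMap k K c) := by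
  have h := Elim_ev_poly ξ (Polynomial.C c)
  rwa [RatFunc.algebraMap_C, Polynomial.aeval_C] at h

theorem Elim_ev_X (ξ : K) : Elim_Ev ξ (RatFunc.X : RatFunc k) ξ := by
  have h := Elim_ev_poly (k := k) ξ Polynomial.X
  rwa [RatFunc.algebraMap_X, Polynomial.aeval_X] at h

theorem Elim_ev_zero (ξ : K) : Elim_Ev ξ (0 : RatFunc k) 0 := by
  have h := Elim_ev_poly (k := k) ξ 0
  rwa [map_zero, map_zero] at h

theorem Elim_ev_one (ξ : K) : Elim_Ev ξ (1 : RatFunc k) 1 := by
  have h := Elim_ev_poly (k := k) ξ 1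
  rwa [map_one, map_one] at h

theorem Elim_ev_add {ξ : K} {f g : RatFunc k} {a b : K} (hf : Elim_Ev ξ f a)
    (hg : Elim_Ev ξ g b) : Elim_Ev ξ (f + g) (a + b) := by
  obtain ⟨P, Q, h1, h2, h3⟩ := hf
  obtain ⟨P', Q', h1', h2', h3'⟩ := hg
  refine ⟨P * Q' + P' * Q, Q * Q', ?_, ?_, ?_⟩
  · rw [map_mul]; exact mul_ne_zero h1 h1'
  · rw [map_add, map_mul, map_mul, map_mul, ← h2, ← h2']; ring
  · rw [map_add, map_mul, map_mul, map_mul, ← h3, ← h3']; ring

theorem Elim_ev_mul {ξ : K} {f g : RatFunc k} {a b : K} (hf : Elim_Ev ξ f a)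
    (hg : Elim_Ev ξ g b) : Elim_Ev ξ (f * g) (a * b) := by
  obtain ⟨P, Q, h1, h2, h3⟩ := hf
  obtain ⟨P', Q', h1', h2', h3'⟩ := hg
  refine ⟨P * P', Q * Q', ?_, ?_, ?_⟩
  · rw [map_mul]; exact mul_ne_zero h1 h1'
  · rw [map_mul, map_mul, ← h2, ← h2']; ring
  · rw [map_mul, map_mul, ← h3, ← h3']; ring

theorem Elim_ev_neg {ξ : K} {f : RatFunc k} {a : K} (hf : Elim_Ev ξ f a) :
    Elim_Ev ξ (-f) (-a) := by
  obtain ⟨P, Q, h1, h2, h3⟩ := hf
  refine ⟨-P, Q, h1, ?_, ?_⟩
  · rw [map_neg, ← h2]; ring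
  · rw [map_neg, ← h3]; ring

theorem Elim_ev_sub {ξ : K} {f g : RatFunc k} {a b : K} (hf : Elim_Ev ξ f a)
    (hg : Elim_Ev ξ g b) : Elim_Ev ξ (f - g) (a - b) := by
  rw [sub_eq_add_neg, sub_eq_add_neg]
  exact Elim_ev_add hf (Elim_ev_neg hg)

theorem Elim_ev_pow {ξ : K} {f : RatFunc k} {a : K} (hf : Elim_Ev ξ f a) (n : ℕ) :
    Elim_Ev ξ (f ^ n) (a ^ n) := by
  induction n with
  | zero => rw [pow_zero, pow_zero]; exact Elim_ev_one ξ
  | succ n ih => rw [pow_succ, pow_succ]; exact Elim_ev_mul ih hf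

theorem Elim_ev_sum {ξ : K} {ι : Type} (s : Finset ι) (f : ι → RatFunc k) (a : ι → K)
    (h : ∀ i ∈ s, Elim_Ev ξ (f i) (a i)) : Elim_Ev ξ (∑ i ∈ s, f i) (∑ i ∈ s, a i) := by
  classical
  induction s using Finset.induction_on with
  | empty => rw [Finset.sum_empty, Finset.sum_empty]; exact Elim_ev_zero ξ
  | insert i s hi ih =>
    rw [Finset.sum_insert hi, Finset.sum_insert hi]
    exact Elim_ev_add (h i (Finset.mem_insert_self i s))
      (ih fun j hj => h j (Finset.mem_insert_of_mem hj))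

theorem Elim_ev_inv {ξ : K} {f : RatFunc k} {a : K} (hf : Elim_Ev ξ f a) (ha : a ≠ 0) :
    Elim_Ev ξ f⁻¹ a⁻¹ := by
  obtain ⟨P, Q, h1, h2, h3⟩ := hf
  have hP : Polynomial.aeval ξ P ≠ 0 := by rw [← h3]; exact mul_ne_zero ha h1
  have hf0 : f ≠ 0 := by
    intro h0
    rw [h0, zero_mul] at h2
    apply hP
    have h4 : P = 0 := RatFunc.algebraMap_injective k (by rw [← h2, map_zero])
    rw [h4, map_zero]
  refine ⟨Q, P, hP, ?_, ?_⟩
  · rw [← h2]; field_simp
  · rw [← h3]; field_simp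

theorem Elim_ev_zpow {ξ : K} {f : RatFunc k} {a : K} (hf : Elim_Ev ξ f a) (ha : a ≠ 0) (n : ℤ) :
    Elim_Ev ξ (f ^ n) (a ^ n) := by
  obtain ⟨m, hm | hm⟩ := Int.eq_nat_or_neg n
  · rw [hm, zpow_natCast, zpow_natCast]
    exact Elim_ev_pow hf m
  · rw [hm, zpow_neg, zpow_neg, zpow_natCast, zpow_natCast]
    exact Elim_ev_inv (Elim_ev_pow hf m) (pow_ne_zero m ha)

theorem Elim_ev_unique {ξ : K} {f : RatFunc k} {a b : K} (hf : Elim_Ev ξ f a)
    (hg : Elim_Ev ξ f b) : a = b := by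
  obtain ⟨P, Q, h1, h2, h3⟩ := hf
  obtain ⟨P', Q', h1', h2', h3'⟩ := hg
  have h4 : P * Q' = P' * Q := by
    apply RatFunc.algebraMap_injective k
    rw [map_mul, map_mul, ← h2, ← h2']
    ring
  have h5 := congrArg (Polynomial.aeval ξ) h4
  rw [map_mul, map_mul, ← h3, ← h3'] at h5
  have h6 : (a - b) * (Polynomial.aeval ξ Q * Polynomial.aeval ξ Q') = 0 := by
    linear_combination h5
  rcases mul_eq_zero.1 h6 with h7 | h7
  · exact sub_eq_zero.1 h7
  · exact absurd h7 (mul_ne_zero h1 h1')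

theorem Elim_ev_lau {ξ : K} (hξ : ξ ≠ 0) {f : RatFunc k} (hf : IsLau f) :
    ∃ a, Elim_Ev ξ f a := by
  obtain ⟨N, P, hP⟩ := hf
  refine ⟨Polynomial.aeval ξ P / ξ ^ N, P, Polynomial.X ^ N, ?_, ?_, ?_⟩
  · rw [map_pow, Polynomial.aeval_X]; exact pow_ne_zero N hξ
  · rw [map_pow, RatFunc.algebraMap_X]; exact hP
  · rw [map_pow, Polynomial.aeval_X]
    field_simp

end

/-! ### The parameter `t` -/

theorem Elim_t_pow {a b : ℕ} (h : t ^ a = t ^ b) : a = b := by
  unfold t at h
  have h1 : (Polynomial.X : Polynomial ℚ) ^ a = Polynomial.X ^ b := by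
    apply RatFunc.algebraMap_injective ℚ
    rw [map_pow, map_pow, RatFunc.algebraMap_X]
    exact h
  have h2 := congrArg Polynomial.natDegree h1
  rwa [Polynomial.natDegree_X_pow, Polynomial.natDegree_X_pow] at h2

theorem Elim_q_pow (n : ℕ) (hn : 0 < n) : (t ^ 2) ^ n ≠ 1 := by
  intro h
  rw [← pow_mul] at h
  have h1 : t ^ (2 * n) = t ^ 0 := by rw [h, pow_zero]
  have := Elim_t_pow h1
  omega

theorem Elim_br (S c : ℕ) : brK S c =
    RatFunc.C (t ^ (2 * (c : ℤ))) * RatFunc.X ^ (S : ℤ) -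
      RatFunc.C (t ^ (-(2 * (c : ℤ)))) * RatFunc.X ^ (-(S : ℤ)) := by
  unfold brK tK xK
  rw [map_zpow₀, map_zpow₀]

/-- the polynomial of a bracket -/
noncomputable def Elim_q (S c : ℕ) : Polynomial FF :=
  Polynomial.X ^ (2 * S) - Polynomial.C (t ^ (-(4 * (c : ℤ))))

theorem Elim_q_br (S c : ℕ) : algebraMap (Polynomial FF) (RatFunc FF) (Elim_q S c) =
    RatFunc.C (t ^ (-(2 * (c : ℤ)))) * RatFunc.X ^ (S : ℤ) * brK S c := by
  rw [Elim_br]
  unfold Elim_q
  rw [map_sub, map_pow, RatFunc.algebraMap_X, RatFunc.algebraMap_C]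
  have hX : (RatFunc.X : RatFunc FF) ≠ 0 := RatFunc.X_ne_zero
  have h1 : RatFunc.C (t ^ (-(2 * (c : ℤ)))) * RatFunc.C (t ^ (2 * (c : ℤ))) = (1 : KK) := by
    rw [← map_mul, ← zpow_add₀ t_ne]
    simp
  have h2 : RatFunc.C (t ^ (-(2 * (c : ℤ)))) * RatFunc.C (t ^ (-(2 * (c : ℤ)))) =
      (RatFunc.C (t ^ (-(4 * (c : ℤ)))) : KK) := by
    rw [← map_mul, ← zpow_add₀ t_ne]
    congr 2
    ring
  have h3 : (RatFunc.X : RatFunc FF) ^ (S : ℤ) * RatFunc.X ^ (-(S : ℤ)) = 1 := by
    rw [← zpow_add₀ hX]; simp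
  have h4 : (RatFunc.X : RatFunc FF) ^ (S : ℤ) * RatFunc.X ^ (S : ℤ) = RatFunc.X ^ (2 * S) := by
    rw [zpow_natCast]; ring
  linear_combination (-(RatFunc.X : RatFunc FF) ^ (2 * S)) * h1 + h2 +
    (-RatFunc.C (t ^ (-(2 * (c : ℤ)))) * RatFunc.C (t ^ (2 * (c : ℤ)))) * h4 +
    RatFunc.C (t ^ (-(2 * (c : ℤ)))) * RatFunc.C (t ^ (-(2 * (c : ℤ)))) * h3

theorem Elim_br_lau (S c : ℕ) : IsLau (brK S c) := by
  rw [Elim_br]
  exact Elim_lau_sub (Elim_lau_mul (Elim_lau_C _) (Elim_lau_X _))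
    (Elim_lau_mul (Elim_lau_C _) (Elim_lau_X _))

theorem Elim_q_ne (S c : ℕ) (hS : 0 < S) : Elim_q S c ≠ 0 := by
  unfold Elim_q
  exact Polynomial.X_pow_sub_C_ne_zero (by omega) _

theorem Elim_term_lau (S c m p : ℕ) (hpm : p ≤ m) :
    IsLau (algebraMap (Polynomial FF) (RatFunc FF) (Elim_q S c ^ m) *
      (brK S c * ((brK S c)⁻¹) ^ p)) := by
  by_cases h0 : brK S c = 0
  · rw [h0, zero_mul, mul_zero]
    exact Elim_lau_zero
  · have h1 : algebraMap (Polynomial FF) (RatFunc FF) (Elim_q S c ^ m) *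
      (brK S c * ((brK S c)⁻¹) ^ p) =
        (RatFunc.C (t ^ (-(2 * (c : ℤ)))) * RatFunc.X ^ (S : ℤ)) ^ m * brK S c ^ (m + 1 - p) := by
      rw [map_pow, Elim_q_br, mul_pow]
      have h2 : brK S c ^ m * (brK S c * ((brK S c)⁻¹) ^ p) = brK S c ^ (m + 1 - p) := by
        rw [← mul_assoc, ← pow_succ, inv_pow]
        have h3 : brK S c ^ (m + 1) = brK S c ^ (m + 1 - p) * brK S c ^ p := by
          rw [← pow_add]
          congr 1
          omega
        rw [h3, mul_assoc, mul_inv_cancel₀ (pow_ne_zero p h0), mul_one]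
      rw [mul_assoc, h2]
    rw [h1]
    exact Elim_lau_mul (Elim_lau_pow (Elim_lau_mul (Elim_lau_C _) (Elim_lau_X _)) _)
      (Elim_lau_pow (Elim_br_lau S c) _)

theorem Elim_br_ne (S c : ℕ) (hS : 0 < S) : brK S c ≠ 0 := by
  intro h0
  have h := Elim_q_br S c
  rw [h0, mul_zero] at h
  apply Elim_q_ne S c hS
  apply RatFunc.algebraMap_injective FF
  rw [h, map_zero]

theorem Elim_sK_poly (P : Polynomial FF) : sK (algebraMap (Polynomial FF) (RatFunc FF) P) =
    algebraMap (Polynomial FF) (RatFunc FF)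
      (Polynomial.eval₂RingHom Polynomial.C (Polynomial.C (t ^ 2) * Polynomial.X) P) := by
  have h : algebraMap (Polynomial FF) (RatFunc FF) P =
      algebraMap (Polynomial FF) (RatFunc FF) P / algebraMap (Polynomial FF) (RatFunc FF) 1 := by
    rw [map_one, div_one]
  unfold sK sq
  rw [h, RatFunc.coe_mapRingHom_eq_coe_map, RatFunc.map_apply_div, map_one, map_one, div_one]

theorem Elim_sK_X : sK RatFunc.X = RatFunc.C (t ^ 2) * RatFunc.X := by
  rw [← RatFunc.algebraMap_X, Elim_sK_poly]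
  show algebraMap _ _ (Polynomial.eval₂ Polynomial.C (Polynomial.C (t ^ 2) * Polynomial.X)
    Polynomial.X) = _
  rw [Polynomial.eval₂_X, map_mul, RatFunc.algebraMap_C]

/-- the value of a bracket -/
theorem Elim_br_ev {K : Type} [Field K] [Algebra FF K] (ξ : K) (hξ : ξ ≠ 0) (S c c₀ : ℕ)
    (h : ξ ^ (2 * S) = algebraMap FF K (t ^ (-(4 * (c₀ : ℤ))))) :
    ∃ a, Elim_Ev ξ (brK S c) a ∧ (c = c₀ → a = 0) ∧ (c ≠ c₀ → a ≠ 0) := by
  rw [Elim_br]
  refine ⟨_, Elim_ev_sub (Elim_ev_mul (Elim_ev_C ξ _) (Elim_ev_zpow (Elim_ev_X ξ) hξ _))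
    (Elim_ev_mul (Elim_ev_C ξ _) (Elim_ev_zpow (Elim_ev_X ξ) hξ _)), ?_⟩
  set τ : K := algebraMap FF K t with hτ
  have hτ0 : τ ≠ 0 := by
    rw [hτ, Ne, map_eq_zero]; exact t_ne
  rw [map_zpow₀] at h
  rw [map_zpow₀, map_zpow₀, ← hτ]
  rw [← hτ] at h
  have key : (τ ^ (2 * (c : ℤ)) * ξ ^ (S : ℤ) - τ ^ (-(2 * (c : ℤ))) * ξ ^ (-(S : ℤ))) *
      (τ ^ (2 * (c : ℤ) + 4 * (c₀ : ℤ)) * ξ ^ (S : ℤ)) = τ ^ (4 * c) - τ ^ (4 * c₀) := by
    have h1 : τ ^ (2 * (c : ℤ)) * ξ ^ (S : ℤ) * (τ ^ (2 * (c : ℤ) + 4 * (c₀ : ℤ)) * ξ ^ (S : ℤ)) =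
        τ ^ (4 * c) := by
      have h2 : ξ ^ (S : ℤ) * ξ ^ (S : ℤ) = τ ^ (-(4 * (c₀ : ℤ))) := by
        rw [← h, zpow_natCast]; ring
      calc _ = τ ^ (2 * (c : ℤ)) * τ ^ (2 * (c : ℤ) + 4 * (c₀ : ℤ)) *
            (ξ ^ (S : ℤ) * ξ ^ (S : ℤ)) := by ring
        _ = τ ^ (4 * (c : ℤ)) := by
            rw [h2, ← zpow_add₀ hτ0, ← zpow_add₀ hτ0]
            congr 1
            ring
        _ = τ ^ (4 * c) := by
            rw [← zpow_natCast]
            push_cast
            rfl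
    have h3 : τ ^ (-(2 * (c : ℤ))) * ξ ^ (-(S : ℤ)) *
        (τ ^ (2 * (c : ℤ) + 4 * (c₀ : ℤ)) * ξ ^ (S : ℤ)) = τ ^ (4 * c₀) := by
      have h2 : ξ ^ (-(S : ℤ)) * ξ ^ (S : ℤ) = 1 := by
        rw [← zpow_add₀ hξ]; simp
      calc _ = τ ^ (-(2 * (c : ℤ))) * τ ^ (2 * (c : ℤ) + 4 * (c₀ : ℤ)) *
            (ξ ^ (-(S : ℤ)) * ξ ^ (S : ℤ)) := by ring
        _ = τ ^ (4 * (c₀ : ℤ)) := by
            rw [h2, mul_one, ← zpow_add₀ hτ0]
            congr 1
            ring
        _ = τ ^ (4 * c₀) := by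
            rw [← zpow_natCast]
            push_cast
            rfl
    rw [sub_mul, h1, h3]
  constructor
  · intro hc
    rw [hc, sub_self] at key
    rw [hc]
    rcases mul_eq_zero.1 key with h4 | h4
    · exact h4
    · exact absurd h4 (mul_ne_zero (zpow_ne_zero _ hτ0) (zpow_ne_zero _ hξ))
  · intro hc h4
    apply hc
    rw [h4, zero_mul] at key
    have h5 : τ ^ (4 * c) = τ ^ (4 * c₀) := (sub_eq_zero.1 key.symm)
    rw [hτ, ← map_pow, ← map_pow] at h5
    have h6 := Elim_t_pow ((algebraMap FF K).injective h5)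
    omega

theorem Elim_gen (h1 : S_Pole) (S₁ : ℕ) (hS₁ : 0 < S₁) {ι : Type} (Z : Finset ι) (cc : ι → ℕ)
    (hinj : ∀ z ∈ Z, ∀ z' ∈ Z, cc z = cc z' → z = z')
    (hsep : ∀ z ∈ Z, ∀ z' ∈ Z, ∀ n : ℕ, 0 < n → cc z ≠ cc z' + n * S₁)
    (Pm : ℕ) (a : ℕ → ι → FF) (e : ι → ℤ) (u : FF) (hu : u ≠ 0) (E : ℤ) (b f : KK)
    (hf : IsLau f)
    (h : (∑ p ∈ Finset.Icc 1 Pm, ∑ z ∈ Z, RatFunc.C (a p z) * RatFunc.X ^ (e z) *
      (brK S₁ (cc z) * ((brK S₁ (cc z))⁻¹) ^ p)) + f =
      RatFunc.C u * RatFunc.X ^ E * sK b - b) :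
    (∀ p, 2 ≤ p → p ≤ Pm → ∀ z ∈ Z, a p z = 0) ∧ IsLau b := by
  classical
  -- step 1
  have hb : IsLau b := by
    refine h1 FF (t ^ 2) t_sq_ne Elim_q_pow u hu E b (∏ z ∈ Z, Elim_q S₁ (cc z) ^ Pm) ?_ ?_ ?_
    · rw [Finset.prod_ne_zero_iff]
      intro z _
      exact pow_ne_zero _ (Elim_q_ne S₁ (cc z) hS₁)
    · intro ξ n hξ hn hr hr'
      rw [map_prod, Finset.prod_eq_zero_iff] at hr hr'
      obtain ⟨z, hz, h2⟩ := hr
      obtain ⟨z', hz', h3⟩ := hr'
      rw [map_pow] at h2 h3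
      have h2' := eq_zero_of_pow_eq_zero h2
      have h3' := eq_zero_of_pow_eq_zero h3
      unfold Elim_q at h2' h3'
      rw [map_sub, map_pow, Polynomial.aeval_X, Polynomial.aeval_C, sub_eq_zero] at h2' h3'
      set τ : AlgebraicClosure FF := algebraMap FF (AlgebraicClosure FF) t with hτ
      have hτ0 : τ ≠ 0 := by
        rw [hτ, Ne, map_eq_zero]; exact t_ne
      rw [map_zpow₀, ← hτ] at h2' h3'
      rw [map_pow, ← hτ, mul_pow, h2'] at h3'
      have h4 : τ ^ (4 * (n * S₁ + cc z')) = τ ^ (4 * cc z) := by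
        have h5 := congrArg (fun y => y * (τ ^ (4 * (cc z : ℤ)) * τ ^ (4 * (cc z' : ℤ)))) h3'
        have h6 : ((τ ^ 2) ^ n) ^ (2 * S₁) * τ ^ (-(4 * (cc z : ℤ))) *
            (τ ^ (4 * (cc z : ℤ)) * τ ^ (4 * (cc z' : ℤ))) = τ ^ (4 * (n * S₁ + cc z')) := by
          rw [← pow_mul, ← pow_mul, ← zpow_natCast, ← zpow_natCast, ← zpow_add₀ hτ0,
            ← zpow_add₀ hτ0, ← zpow_add₀ hτ0]
          congr 1
          push_cast
          ring
        have h7 : τ ^ (-(4 * (cc z' : ℤ))) *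
            (τ ^ (4 * (cc z : ℤ)) * τ ^ (4 * (cc z' : ℤ))) = τ ^ (4 * cc z) := by
          rw [← zpow_natCast, ← zpow_add₀ hτ0, ← zpow_add₀ hτ0]
          congr 1
          push_cast
          ring
        rw [h6, h7] at h5
        exact h5
      rw [hτ, ← map_pow, ← map_pow] at h4
      have h8 := Elim_t_pow ((algebraMap FF (AlgebraicClosure FF)).injective h4)
      exact hsep z hz z' hz' n hn (by omega)
    · have h2 : RatFunc.C u * RatFunc.X ^ E * sq (t ^ 2) t_sq_ne b - b =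
          RatFunc.C u * RatFunc.X ^ E * sK b - b := rfl
      rw [h2, ← h, mul_add, Finset.mul_sum]
      refine Elim_lau_add (Elim_lau_sum _ _ fun p hp => ?_) (Elim_lau_mul (Elim_lau_poly _) hf)
      rw [Finset.mem_Icc] at hp
      rw [Finset.mul_sum]
      refine Elim_lau_sum _ _ fun z hz => ?_
      rw [← Finset.mul_prod_erase Z _ hz, map_mul]
      have h3 := Elim_lau_mul (Elim_lau_mul (Elim_lau_poly (∏ z ∈ Z.erase z, Elim_q S₁ (cc z) ^ Pm))
        (Elim_lau_mul (Elim_lau_C (a p z)) (Elim_lau_X (e z))))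
        (Elim_term_lau S₁ (cc z) Pm p hp.2)
      convert h3 using 1
      ring
  refine ⟨?_, hb⟩
  -- step 2
  have hsq : IsLau (sK b) := by
    obtain ⟨N, P, hP⟩ := hb
    refine ⟨N, Polynomial.C ((t ^ 2)⁻¹ ^ N) *
      Polynomial.eval₂RingHom Polynomial.C (Polynomial.C (t ^ 2) * Polynomial.X) P, ?_⟩
    have h2 := congrArg sK hP
    rw [map_mul, map_pow, Elim_sK_poly, Elim_sK_X] at h2
    rw [map_mul, ← h2, RatFunc.algebraMap_C, mul_pow, ← map_pow, map_pow _ _ N, map_pow _ _ N]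
    have h3 : RatFunc.C (t ^ 2)⁻¹ ^ N * RatFunc.C (t ^ 2) ^ N = (1 : KK) := by
      rw [← mul_pow, ← map_mul, inv_mul_cancel₀ t_sq_ne, map_one, one_pow]
    linear_combination (-(sK b * RatFunc.X ^ N)) * h3
  have hG : IsLau (∑ p ∈ Finset.Icc 1 Pm, ∑ z ∈ Z, RatFunc.C (a p z) * RatFunc.X ^ (e z) *
      (brK S₁ (cc z) * ((brK S₁ (cc z))⁻¹) ^ p)) := by
    rw [eq_sub_of_add_eq h]
    exact Elim_lau_sub (Elim_lau_sub (Elim_lau_mul (Elim_lau_mul (Elim_lau_C _) (Elim_lau_X _))
      hsq) hb) hf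
  have main : ∀ n p : ℕ, 2 ≤ p → p ≤ Pm → Pm - p = n → ∀ z ∈ Z, a p z = 0 := by
    intro n
    induction n using Nat.strong_induction_on with
    | _ n ih =>
    intro p hp2 hpm hpn z₀ hz₀
    obtain ⟨ξ, hξ⟩ := IsAlgClosed.exists_pow_nat_eq
      (algebraMap FF (AlgebraicClosure FF) (t ^ (-(4 * (cc z₀ : ℤ)))))
      (show 0 < 2 * S₁ by omega)
    have hξ0 : ξ ≠ 0 := by
      intro h0
      rw [h0, zero_pow (by omega)] at hξ
      have h2 := hξ.symm
      rw [map_eq_zero] at h2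
      exact zpow_ne_zero _ t_ne h2
    have hv := fun c : ℕ => Elim_br_ev ξ hξ0 S₁ c (cc z₀) hξ
    choose v hv1 hv2 hv3 using hv
    have hterm : ∀ p' ∈ Finset.Icc 1 Pm, ∀ z ∈ Z, Elim_Ev ξ
        (brK S₁ (cc z₀) ^ (p - 1) * (RatFunc.C (a p' z) * RatFunc.X ^ (e z) *
          (brK S₁ (cc z) * ((brK S₁ (cc z))⁻¹) ^ p')))
        (if p' = p ∧ z = z₀ then algebraMap FF (AlgebraicClosure FF) (a p z₀) * ξ ^ e z₀
          else 0) := by
      intro p' hp' z hz
      rw [Finset.mem_Icc] at hp'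
      rcases lt_or_ge p p' with h2 | h2
      · have h3 : a p' z = 0 := ih (Pm - p') (by omega) p' (by omega) hp'.2 rfl z hz
        rw [if_neg (by omega), h3, map_zero, zero_mul, zero_mul, mul_zero]
        exact Elim_ev_zero ξ
      · by_cases h4 : z = z₀
        · subst h4
          have h5 : brK S₁ (cc z) ^ (p - 1) * (RatFunc.C (a p' z) * RatFunc.X ^ (e z) *
              (brK S₁ (cc z) * ((brK S₁ (cc z))⁻¹) ^ p')) =
              RatFunc.C (a p' z) * RatFunc.X ^ (e z) * brK S₁ (cc z) ^ (p - p') := by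
            have h6 : brK S₁ (cc z) ^ (p - 1) * brK S₁ (cc z) =
                brK S₁ (cc z) ^ (p - p') * brK S₁ (cc z) ^ p' := by
              rw [← pow_succ, ← pow_add]
              congr 1
              omega
            have h7 : brK S₁ (cc z) ^ p' * ((brK S₁ (cc z))⁻¹) ^ p' = 1 := by
              rw [← mul_pow, mul_inv_cancel₀ (Elim_br_ne S₁ (cc z) hS₁), one_pow]
            linear_combination (RatFunc.C (a p' z) * RatFunc.X ^ (e z) *
              ((brK S₁ (cc z))⁻¹) ^ p') * h6 + (RatFunc.C (a p' z) * RatFunc.X ^ (e z) *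
              brK S₁ (cc z) ^ (p - p')) * h7
          rw [h5]
          have h8 := Elim_ev_mul (Elim_ev_mul (Elim_ev_C ξ (a p' z))
            (Elim_ev_zpow (Elim_ev_X ξ) hξ0 (e z))) (Elim_ev_pow (hv1 (cc z)) (p - p'))
          by_cases h9 : p' = p
          · rw [if_pos ⟨h9, rfl⟩]
            subst h9
            simp only [Nat.sub_self, pow_zero, mul_one] at h8 ⊢
            exact h8
          · rw [if_neg (fun h => h9 h.1)]
            rw [hv2 (cc z) rfl, zero_pow (by omega), mul_zero] at h8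
            exact h8
        · rw [if_neg (fun h => h4 h.2)]
          have h5 : v (cc z) ≠ 0 := hv3 (cc z) (fun h => h4 (hinj z hz z₀ hz₀ h))
          have h8 := Elim_ev_mul (Elim_ev_pow (hv1 (cc z₀)) (p - 1))
            (Elim_ev_mul (Elim_ev_mul (Elim_ev_C ξ (a p' z))
            (Elim_ev_zpow (Elim_ev_X ξ) hξ0 (e z))) (Elim_ev_mul (hv1 (cc z))
              (Elim_ev_pow (Elim_ev_inv (hv1 (cc z)) h5) p')))
          rw [hv2 (cc z₀) rfl, zero_pow (by omega), zero_mul] at h8
          exact h8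
    have hsum := Elim_ev_sum (ξ := ξ) (Finset.Icc 1 Pm) _ _ fun p' hp' =>
      Elim_ev_sum (ξ := ξ) Z _ _ fun z hz => hterm p' hp' z hz
    obtain ⟨g, hg⟩ := Elim_ev_lau hξ0 hG
    have h2 := Elim_ev_mul (Elim_ev_pow (hv1 (cc z₀)) (p - 1)) hg
    rw [hv2 (cc z₀) rfl, zero_pow (by omega), zero_mul, Finset.mul_sum] at h2
    simp only [Finset.mul_sum] at h2
    have h3 := Elim_ev_unique hsum h2
    have h4 : (∑ p' ∈ Finset.Icc 1 Pm, ∑ z ∈ Z,
        if p' = p ∧ z = z₀ then algebraMap FF (AlgebraicClosure FF) (a p z₀) * ξ ^ e z₀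
          else 0) = algebraMap FF (AlgebraicClosure FF) (a p z₀) * ξ ^ e z₀ := by
      rw [Finset.sum_eq_single_of_mem p (Finset.mem_Icc.2 ⟨by omega, hpm⟩)
        (fun p' _ hp' => Finset.sum_eq_zero fun z _ => if_neg fun h => hp' h.1),
        Finset.sum_eq_single_of_mem z₀ hz₀ (fun z _ hz => if_neg fun h => hz h.2),
        if_pos ⟨rfl, rfl⟩]
    rw [h4] at h3
    rcases mul_eq_zero.1 h3 with h5 | h5
    · rwa [map_eq_zero] at h5
    · exact absurd h5 (zpow_ne_zero _ hξ0)
  exact fun p hp2 hpm z hz => main _ p hp2 hpm rfl z hz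

/-! ### Positions -/

/-- the coefficient -/
noncomputable def Elim_a (ϱ : ℤ) (s : ℕ) (c : ℕ → ℕ → FF) (p : ℕ) (z : (ℕ × ℕ) × Bool) : FF :=
  if z.2 then c p z.1.1 * t ^ (ϱ * s * ((z.1.1 + 1 + 2 * z.1.2 : ℕ) : ℤ) ^ 2 +
      2 * ϱ * ((z.1.1 + 1 + 2 * z.1.2 : ℕ) : ℤ))
  else -(c p z.1.1 * t ^ (ϱ * s * ((z.1.1 + 1 + 2 * z.1.2 : ℕ) : ℤ) ^ 2 -
      2 * ϱ * ((z.1.1 + 1 + 2 * z.1.2 : ℕ) : ℤ)))

def Elim_e (ϱ : ℤ) (s S : ℕ) (z : (ℕ × ℕ) × Bool) : ℤ :=
  if z.2 then ϱ * S * (s * ((z.1.1 + 1 + 2 * z.1.2 : ℕ) : ℤ) + 1)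
  else ϱ * S * (s * ((z.1.1 + 1 + 2 * z.1.2 : ℕ) : ℤ) - 1)

def Elim_c (s : ℕ) (z : (ℕ × ℕ) × Bool) : ℕ :=
  if z.2 then s * (z.1.1 + 1 + 2 * z.1.2) + 1 else s * (z.1.1 + 1 + 2 * z.1.2) - 1

def Elim_Z (s S : ℕ) : Finset ((ℕ × ℕ) × Bool) :=
  ((Finset.range 2 ×ˢ Finset.range (S / 2)) ×ˢ Finset.univ).filter fun z => s = 2 → z.1.1 = 0

theorem Elim_memZ {s S : ℕ} {z : (ℕ × ℕ) × Bool} (hz : z ∈ Elim_Z s S) :
    z.1.1 < 2 ∧ z.1.2 < S / 2 ∧ (s = 2 → z.1.1 = 0) := by
  unfold Elim_Z at hz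
  rw [Finset.mem_filter, Finset.mem_product, Finset.mem_product, Finset.mem_range,
    Finset.mem_range] at hz
  exact ⟨hz.1.1.1, hz.1.1.2, hz.2⟩

theorem Elim_sum (ϱ : ℤ) (s S : ℕ) (c : ℕ → ℕ → FF) (hc : s = 2 → ∀ p, c p 1 = 0) (p : ℕ) :
    ∑ i ∈ Finset.range 2, RatFunc.C (c p i) * gK ϱ s S i p =
      ∑ z ∈ Elim_Z s S, RatFunc.C (Elim_a ϱ s c p z) * RatFunc.X ^ (Elim_e ϱ s S z) *
        (brK (s * S) (Elim_c s z) * ((brK (s * S) (Elim_c s z))⁻¹) ^ p) := by
  unfold Elim_Z
  rw [Finset.sum_filter_of_ne, Finset.sum_product, Finset.sum_product]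
  · refine Finset.sum_congr rfl fun i _ => ?_
    unfold gK
    rw [Finset.mul_sum]
    refine Finset.sum_congr rfl fun k _ => ?_
    rw [Fintype.sum_bool]
    simp only [Elim_a, Elim_e, Elim_c, if_true, Bool.false_eq_true, if_false]
    unfold tK xK
    rw [map_neg, map_mul, map_mul, map_zpow₀, map_zpow₀]
    ring
  · intro z hz hne hs
    rw [Finset.mem_product, Finset.mem_product, Finset.mem_range] at hz
    by_contra h0
    apply hne
    have h1 : z.1.1 = 1 := by omega
    have h2 : Elim_a ϱ s c p z = 0 := by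
      unfold Elim_a
      rw [h1, hc hs p, zero_mul, zero_mul, neg_zero, ite_self]
    rw [h2, map_zero, zero_mul, zero_mul]

theorem Elim_inj {s S : ℕ} (hs : 2 ≤ s) {z z' : (ℕ × ℕ) × Bool} (hz : z ∈ Elim_Z s S)
    (hz' : z' ∈ Elim_Z s S) (h : Elim_c s z = Elim_c s z') : z = z' := by
  obtain ⟨h1, h2, h3⟩ := Elim_memZ hz
  obtain ⟨h1', h2', h3'⟩ := Elim_memZ hz'
  obtain ⟨⟨i, k⟩, ε⟩ := z
  obtain ⟨⟨i', k'⟩, ε'⟩ := z'
  simp only at h1 h2 h3 h1' h2' h3'
  have hpos : 0 < s * (i + 1 + 2 * k) := Nat.mul_pos (by omega) (by omega)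
  have hpos' : 0 < s * (i' + 1 + 2 * k') := Nat.mul_pos (by omega) (by omega)
  have same : s * (i + 1 + 2 * k) = s * (i' + 1 + 2 * k') → i = i' ∧ k = k' := by
    intro h4
    have h5 := Nat.eq_of_mul_eq_mul_left (by omega) h4
    omega
  have diff : ∀ v v' : ℕ, s * v + 2 = s * v' → s = 2 ∧ v' = v + 1 := by
    intro v v' h4
    have h5 : s * (v' - v) = 2 := by rw [Nat.mul_sub]; omega
    have h6 : s ∣ 2 := ⟨v' - v, h5.symm⟩
    have h7 : s ≤ 2 := Nat.le_of_dvd (by omega) h6
    have h8 : s = 2 := by omega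
    subst h8
    omega
  unfold Elim_c at h
  cases ε <;> cases ε'
  · simp only [Bool.false_eq_true, if_false] at h
    obtain ⟨h4, h5⟩ := same (by omega)
    rw [h4, h5]
  · simp only [Bool.false_eq_true, if_false, if_true] at h
    obtain ⟨h4, h5⟩ := diff (i' + 1 + 2 * k') (i + 1 + 2 * k) (by omega)
    have := h3 h4
    have := h3' h4
    omega
  · simp only [Bool.false_eq_true, if_false, if_true] at h
    obtain ⟨h4, h5⟩ := diff (i + 1 + 2 * k) (i' + 1 + 2 * k') (by omega)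
    have := h3 h4
    have := h3' h4
    omega
  · simp only [if_true] at h
    obtain ⟨h4, h5⟩ := same (by omega)
    rw [h4, h5]

theorem Elim_sep {s S : ℕ} (hs : 2 ≤ s) (hS : Even S) {z z' : (ℕ × ℕ) × Bool}
    (hz : z ∈ Elim_Z s S) (hz' : z' ∈ Elim_Z s S) (n : ℕ) (hn : 0 < n) :
    Elim_c s z ≠ Elim_c s z' + n * (s * S) := by
  intro h
  obtain ⟨h1, h2, h3⟩ := Elim_memZ hz
  obtain ⟨h1', h2', h3'⟩ := Elim_memZ hz'
  obtain ⟨⟨i, k⟩, ε⟩ := z
  obtain ⟨⟨i', k'⟩, ε'⟩ := z'
  simp only at h1 h2 h3 h1' h2' h3'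
  have hpos' : 0 < s * (i' + 1 + 2 * k') := Nat.mul_pos (by omega) (by omega)
  have hA : Elim_c s ((i, k), ε) ≤ s * (i + 1 + 2 * k) + 1 := by
    unfold Elim_c
    split_ifs <;> simp only <;> omega
  have hB : s * (i' + 1 + 2 * k') ≤ Elim_c s ((i', k'), ε') + 1 := by
    unfold Elim_c
    split_ifs <;> simp only <;> omega
  have hC : s * S ≤ n * (s * S) := Nat.le_mul_of_pos_left _ hn
  have hD : s * (i' + 1 + 2 * k') + s * S ≤ s * (i + 1 + 2 * k) + 2 := by omega
  obtain ⟨m, hm⟩ := hS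
  have hle : i + 1 + 2 * k ≤ S := by omega
  obtain ⟨d, hd⟩ := Nat.exists_eq_add_of_le hle
  have hSd : s * S = s * (i + 1 + 2 * k) + s * d := by rw [hd, Nat.mul_add]
  have hE : s * (i' + 1 + 2 * k') + s * d ≤ 2 := by omega
  have hF : s * 1 ≤ s * (i' + 1 + 2 * k') := Nat.mul_le_mul_left s (by omega)
  have hs2 : s = 2 := by omega
  have h4 := h3 hs2
  have h5 := h3' hs2
  have hd1 : 1 ≤ d := by omega
  have hG : s * 1 ≤ s * d := Nat.mul_le_mul_left s hd1
  omega

theorem Elim_proof (h1 : S_Pole) : S_Elim := by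
  intro ϱ s S _ hs hS hS2 Pm c hc b f hf h
  have hE : (tK ^ (ϱ * s * (S : ℤ) ^ 2) : KK) = RatFunc.C (t ^ (ϱ * s * (S : ℤ) ^ 2)) := by
    unfold tK
    rw [map_zpow₀]
  rw [hE] at h
  have h2 := Elim_gen h1 (s * S) (Nat.mul_pos (by omega) hS) (Elim_Z s S) (Elim_c s)
    (fun z hz z' hz' => Elim_inj hs hz hz') (fun z hz z' hz' n hn => Elim_sep hs hS2 hz hz' n hn)
    Pm (Elim_a ϱ s c) (Elim_e ϱ s S) (t ^ (ϱ * s * (S : ℤ) ^ 2)) (zpow_ne_zero _ t_ne)
    (ϱ * s * (S : ℤ) ^ 2) b f hf (by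
      rw [← Finset.sum_congr rfl fun p _ => Elim_sum ϱ s S c hc p]
      exact h)
  refine ⟨fun p hp hpm i hi => ?_, h2.2⟩
  by_cases h3 : s = 2 ∧ i = 1
  · rw [h3.2]
    exact hc h3.1 p
  · have hz : ((i, 0), true) ∈ Elim_Z s S := by
      unfold Elim_Z
      rw [Finset.mem_filter, Finset.mem_product, Finset.mem_product, Finset.mem_range,
        Finset.mem_range]
      obtain ⟨m, hm⟩ := hS2
      refine ⟨⟨⟨hi, ?_⟩, Finset.mem_univ _⟩, fun h4 => ?_⟩
      · show 0 < S / 2
        omega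
      · show i = 0
        omega
    have h4 := h2.1 p hp hpm _ hz
    unfold Elim_a at h4
    rw [if_pos rfl] at h4
    rcases mul_eq_zero.1 h4 with h5 | h5
    · exact h5
    · exact absurd h5 (zpow_ne_zero _ t_ne)

end AJG

end

section

/-! MP_d3fa71_gt, item Shift: data properties of the next level. -/

open Polynomial

namespace AJG

section
variable {R : Type} [CommRing R]

/-- monomials in the data -/
def Shift_m (D : Dat R) (a b c : ℤ) : Rˣ := D.t ^ a * D.h ^ b * D.x ^ c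

/-- the action of `σ` on the data -/
structure Shift_P (D : Dat R) (σ : R →+* R) : Prop where
  ht : σ (D.t : R) = (D.t : R)
  hx : σ (D.x : R) = (D.t : R) ^ 2 * (D.x : R)
  hh : σ (D.h : R) = (D.t : R) * (D.x : R) * (D.h : R)

theorem Shift_mon {D : Dat R} {σ : R →+* R} (h : Shift_P D σ) (a b c : ℤ) :
    σ ((Shift_m D a b c : Rˣ) : R) = ((Shift_m D (a + b + 2 * c) b (c + b) : Rˣ) : R) := by
  have e1 : Units.map σ.toMonoidHom D.t = D.t := Units.ext h.ht
  have e2 : Units.map σ.toMonoidHom D.x = D.t ^ 2 * D.x := Units.ext (by simpa using h.hx)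
  have e3 : Units.map σ.toMonoidHom D.h = D.t * D.x * D.h := Units.ext (by simpa using h.hh)
  have e5 : (D.t ^ 2) ^ c = D.t ^ (2 * c) := by
    rw [← zpow_natCast, ← zpow_mul]; norm_num
  have e4 : Units.map σ.toMonoidHom (Shift_m D a b c) = Shift_m D (a + b + 2 * c) b (c + b) := by
    unfold Shift_m
    rw [map_mul, map_mul, map_zpow, map_zpow, map_zpow, e1, e2, e3, mul_zpow, mul_zpow, mul_zpow,
      e5, zpow_add, zpow_add, zpow_add]
    generalize D.t ^ a = p1
    generalize D.t ^ b = p2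
    generalize D.x ^ b = p3
    generalize D.h ^ b = p4
    generalize D.t ^ (2 * c) = p5
    generalize D.x ^ c = p6
    ac_rfl
  exact congrArg Units.val e4

theorem Shift_map {R' : Type} [CommRing R'] (D : Dat R) (φ : R →+* R') (a b c : ℤ) :
    φ ((Shift_m D a b c : Rˣ) : R) = ((Shift_m (D.map φ) a b c : R'ˣ) : R') := by
  have e : Units.map φ.toMonoidHom (Shift_m D a b c) = Shift_m (D.map φ) a b c := by
    unfold Shift_m
    rw [map_mul, map_mul, map_zpow, map_zpow, map_zpow]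
    rfl
  exact congrArg Units.val e

theorem Shift_br (D : Dat R) (S c : ℕ) : D.br S c =
    ((Shift_m D (2 * (c : ℤ)) 0 S : Rˣ) : R) - ((Shift_m D (-(2 * (c : ℤ))) 0 (-(S : ℤ)) : Rˣ) : R) := by
  simp only [Dat.br, Shift_m, zpow_zero, mul_one]

theorem Shift_sbr {D : Dat R} {σ : R →+* R} (h : Shift_P D σ) (S c : ℕ) :
    σ (D.br S c) = D.br S (c + S) := by
  have e1 : 2 * (c : ℤ) + 0 + 2 * S = 2 * ((c + S : ℕ) : ℤ) := by push_cast; ring
  have e2 : -(2 * (c : ℤ)) + 0 + 2 * (-(S : ℤ)) = -(2 * ((c + S : ℕ) : ℤ)) := by push_cast; ring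
  rw [Shift_br, Shift_br, map_sub, Shift_mon h, Shift_mon h, e1, e2, add_zero, add_zero]

theorem Shift_sib {D : Dat R} {σ : R →+* R} (h : Shift_P D σ) (hok : D.Ok) (S c : ℕ) (hS : 0 < S) :
    σ (D.ib S c) = D.ib S (c + S) := by
  have h1 : D.br S (c + S) * σ (D.ib S c) = 1 := by
    rw [← Shift_sbr h, ← map_mul, hok S c hS, map_one]
  have h2 := hok S (c + S) hS
  calc σ (D.ib S c) = (D.br S (c + S) * D.ib S (c + S)) * σ (D.ib S c) := by rw [h2, one_mul]
    _ = (D.br S (c + S) * σ (D.ib S c)) * D.ib S (c + S) := by ring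
    _ = D.ib S (c + S) := by rw [h1, one_mul]

variable {L : Lv}

theorem Shift_fp_eq (D : Dat R) (J : L.K → ℕ → ℕ → R) (ϱ : ℤ) (s S : ℕ) (κ : L.K) (v : ℕ) :
    fp D J ϱ s S κ v = ((Shift_m D (ϱ * s * (v : ℤ) ^ 2 + 2 * ϱ * v) (ϱ * s * (S : ℤ) ^ 2)
      (ϱ * S * (s * v + 1)) : Rˣ) : R) * J κ (s * S) (s * v + 1) := rfl

theorem Shift_fm_eq (D : Dat R) (J : L.K → ℕ → ℕ → R) (ϱ : ℤ) (s S : ℕ) (κ : L.K) (v : ℕ) :
    fm D J ϱ s S κ v = ((Shift_m D (ϱ * s * (v : ℤ) ^ 2 - 2 * ϱ * v) (ϱ * s * (S : ℤ) ^ 2)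
      (ϱ * S * (s * v - 1)) : Rˣ) : R) * J κ (s * S) (s * v - 1) := rfl

theorem Shift_fp {D : Dat R} {σ : R →+* R} (h : Shift_P D σ) (J : L.K → ℕ → ℕ → R)
    (hJ : ∀ (κ : L.K) (S c : ℕ), 0 < S → Even S → σ (J κ S c) = J κ S (c + S))
    (ϱ : ℤ) (s S : ℕ) (hs : 0 < s) (hS : 0 < S) (hS2 : Even S) (κ : L.K) (v : ℕ) :
    σ (fp D J ϱ s S κ v) = fp D J ϱ s S κ (v + S) := by
  rw [Shift_fp_eq, Shift_fp_eq, map_mul, Shift_mon h, hJ κ (s * S) _ (Nat.mul_pos hs hS)
    (hS2.mul_left s)]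
  have e1 : s * v + 1 + s * S = s * (v + S) + 1 := by ring
  rw [e1]
  push_cast
  congr 2
  congr 1 <;> ring

theorem Shift_fm {D : Dat R} {σ : R →+* R} (h : Shift_P D σ) (J : L.K → ℕ → ℕ → R)
    (hJ : ∀ (κ : L.K) (S c : ℕ), 0 < S → Even S → σ (J κ S c) = J κ S (c + S))
    (ϱ : ℤ) (s S : ℕ) (hs : 0 < s) (hS : 0 < S) (hS2 : Even S) (κ : L.K) (v : ℕ) (hv : 0 < v) :
    σ (fm D J ϱ s S κ v) = fm D J ϱ s S κ (v + S) := by
  rw [Shift_fm_eq, Shift_fm_eq, map_mul, Shift_mon h, hJ κ (s * S) _ (Nat.mul_pos hs hS)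
    (hS2.mul_left s)]
  have e1 : s * v - 1 + s * S = s * (v + S) - 1 := by
    have h1 : 0 < s * v := Nat.mul_pos hs hv
    have h2 : s * (v + S) = s * v + s * S := by ring
    omega
  rw [e1]
  push_cast
  congr 2
  congr 1 <;> ring

theorem Shift_map_fp {R' : Type} [CommRing R'] (D : Dat R) (φ : R →+* R') (J : L.K → ℕ → ℕ → R)
    (ϱ : ℤ) (s S : ℕ) (κ : L.K) (v : ℕ) :
    φ (fp D J ϱ s S κ v) = fp (D.map φ) (fun κ S c => φ (J κ S c)) ϱ s S κ v := by
  rw [Shift_fp_eq, Shift_fp_eq, map_mul, Shift_map]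

theorem Shift_map_fm {R' : Type} [CommRing R'] (D : Dat R) (φ : R →+* R') (J : L.K → ℕ → ℕ → R)
    (ϱ : ℤ) (s S : ℕ) (κ : L.K) (v : ℕ) :
    φ (fm D J ϱ s S κ v) = fm (D.map φ) (fun κ S c => φ (J κ S c)) ϱ s S κ v := by
  rw [Shift_fm_eq, Shift_fm_eq, map_mul, Shift_map]

/-- for `s = 2` the two kinds of terms coincide -/
theorem Shift_fm_two (D : Dat R) (J : L.K → ℕ → ℕ → R) (ϱ : ℤ) (S : ℕ) (κ : L.K) (v : ℕ) :
    fm D J ϱ 2 S κ (v + 1) = fp D J ϱ 2 S κ v := by
  rw [Shift_fm_eq, Shift_fp_eq]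
  have e1 : 2 * (v + 1) - 1 = 2 * v + 1 := by omega
  rw [e1]
  push_cast
  congr 2
  congr 1 <;> ring

theorem Shift_alt (F : ℕ → R) (m : ℕ) : ∑ k ∈ Finset.range m, (F (2 * k + 1) - F (2 * k)) =
    - ∑ k ∈ Finset.range (2 * m), (-1) ^ k * F k := by
  induction m with
  | zero => simp
  | succ m ih =>
    rw [Finset.sum_range_succ, ih, show 2 * (m + 1) = 2 * m + 1 + 1 by ring, Finset.sum_range_succ,
      Finset.sum_range_succ, pow_succ, pow_mul]
    simp only [neg_one_sq, one_pow]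
    ring

/-- the prefactor of a prime -/
theorem Shift_pre {D : Dat R} {σ : R →+* R} (h : Shift_P D σ) (a : ℤ) (S c : ℕ) :
    σ ((D.h ^ (-(a * (S : ℤ) ^ 2)) * D.x ^ (-(a * S * c)) * D.t ^ (-(a * (c : ℤ) ^ 2)) : Rˣ) : R) =
      ((D.h ^ (-(a * (S : ℤ) ^ 2)) * D.x ^ (-(a * S * ((c + S : ℕ) : ℤ))) *
        D.t ^ (-(a * ((c + S : ℕ) : ℤ) ^ 2)) : Rˣ) : R) := by
  have e : ∀ c : ℕ, D.h ^ (-(a * (S : ℤ) ^ 2)) * D.x ^ (-(a * S * c)) * D.t ^ (-(a * (c : ℤ) ^ 2)) =
      Shift_m D (-(a * (c : ℤ) ^ 2)) (-(a * (S : ℤ) ^ 2)) (-(a * S * c)) := by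
    intro c
    unfold Shift_m
    ac_rfl
  rw [e, e, Shift_mon h]
  push_cast
  congr 2 <;> ring

/-- the shift of the value of a prime -/
theorem Shift_JP {D : Dat R} {σ : R →+* R} (h : Shift_P D σ) (J : L.K → ℕ → ℕ → R)
    (hJ : ∀ (κ : L.K) (S c : ℕ), 0 < S → Even S → σ (J κ S c) = J κ S (c + S))
    (b : ℕ → ℕ → R) (P : PT L)
    (hb : ∀ S i, 0 < S → Even S → i < 2 → (P.s = 2 → i = 0) → σ (b S i) = b S i +
      ((D.t ^ (P.r * P.s) : Rˣ) : R) * ∑ k ∈ Finset.range (S / 2),
        (fp D J P.r P.s S P.κ (i + 1 + 2 * k) - fm D J P.r P.s S P.κ (i + 1 + 2 * k)))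
    (S c : ℕ) (hS : 0 < S) (hS2 : Even S) :
    σ (JP D J b P S c) = JP D J b P S (c + S) := by
  have hs : 0 < P.s := lt_of_lt_of_le (by norm_num) P.hs
  obtain ⟨S', hS'⟩ := hS2.two_dvd
  have hT : σ ((D.t ^ (P.r * P.s) : Rˣ) : R) = ((D.t ^ (P.r * P.s) : Rˣ) : R) := by
    have := Shift_mon h (P.r * P.s) 0 0
    simpa [Shift_m] using this
  unfold JP
  rw [map_mul, Shift_pre h]
  congr 1
  split_ifs with h2
  · rw [map_mul, map_pow, map_neg, map_one, map_sub, hb S 0 hS hS2 (by norm_num) (fun _ => rfl),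
      map_mul, hT, map_sum, pow_add, hS2.neg_one_pow, mul_one]
    congr 1
    have h3 : ∀ k ∈ Finset.range (S / 2), fp D J P.r P.s S P.κ (0 + 1 + 2 * k) -
        fm D J P.r P.s S P.κ (0 + 1 + 2 * k) =
        fp D J P.r P.s S P.κ (2 * k + 1) - fp D J P.r P.s S P.κ (2 * k) := by
      intro k _
      rw [show 0 + 1 + 2 * k = 2 * k + 1 by ring, h2, Shift_fm_two]
    rw [Finset.sum_congr rfl h3, Shift_alt (fun v => fp D J P.r P.s S P.κ v),
      show 2 * (S / 2) = S by omega, add_comm c S, Finset.sum_range_add]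
    have h4 : ∀ k ∈ Finset.range c, σ ((-1) ^ k * fp D J P.r P.s S P.κ k) =
        (-1) ^ (S + k) * fp D J P.r P.s S P.κ (S + k) := by
      intro k _
      rw [map_mul, Shift_fp h J hJ P.r P.s S hs hS hS2, map_pow, map_neg, map_one, pow_add,
        hS2.neg_one_pow, one_mul, add_comm S k]
    rw [Finset.sum_congr rfl h4]
    ring
  · have e1 : (c + S) % 2 = c % 2 := by omega
    have e2 : (c + S) / 2 = S / 2 + c / 2 := by omega
    rw [e1, e2, map_add, hb S (c % 2) hS hS2 (Nat.mod_lt _ (by norm_num)) (fun h => absurd h h2),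
      map_mul, hT, map_sum, Finset.sum_range_add, mul_add, add_assoc]
    congr 2
    congr 1
    refine Finset.sum_congr rfl fun k _ => ?_
    rw [map_sub, Shift_fp h J hJ P.r P.s S hs hS hS2, Shift_fm h J hJ P.r P.s S hs hS hS2 _ _
      (by omega)]
    have e3 : c % 2 + 1 + 2 * k + S = c % 2 + 1 + 2 * (S / 2 + k) := by omega
    rw [e3]

end

theorem Shift_proof : S_Shift := by
  intro L A _ _ D σ J hc
  have hP : Shift_P D σ := by
    refine ⟨?_, hc.sx, hc.sh⟩
    rw [hc.ht]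
    exact hc.const.1 t
  have hsC : ∀ a : A, sext σ (gvar D J) (MvPolynomial.C a) = MvPolynomial.C (σ a) := by
    intro a
    simp [sext]
  have hsX : ∀ w : Var L, sext σ (gvar D J) (MvPolynomial.X w) =
      MvPolynomial.X w + MvPolynomial.C (gvar D J w) := by
    intro w
    simp [sext]
  have hok : (nextD (L := L) D).Ok := by
    intro S c hS
    have h1 := congrArg (MvPolynomial.C (σ := Var L)) (hc.ok S c hS)
    rw [map_mul, map_one] at h1
    have h2 : (nextD (L := L) D).br S c = MvPolynomial.C (D.br S c) := by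
      rw [Shift_br, Shift_br, map_sub, Shift_map, Shift_map]
      rfl
    rw [h2]
    exact h1
  have hP' : Shift_P (nextD (L := L) D) (sext σ (gvar D J)) := by
    refine ⟨?_, ?_, ?_⟩
    · show sext σ (gvar D J) (MvPolynomial.C (D.t : A)) = MvPolynomial.C (D.t : A)
      rw [hsC, hP.ht]
    · show sext σ (gvar D J) (MvPolynomial.C (D.x : A)) =
        (MvPolynomial.C (D.t : A)) ^ 2 * MvPolynomial.C (D.x : A)
      rw [hsC, hP.hx, map_mul, map_pow]
    · show sext σ (gvar D J) (MvPolynomial.C (D.h : A)) =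
        MvPolynomial.C (D.t : A) * MvPolynomial.C (D.x : A) * MvPolynomial.C (D.h : A)
      rw [hsC, hP.hh, map_mul, map_mul]
  refine ⟨hok, ?_, hP'.hx, hP'.hh, ?_⟩
  · show MvPolynomial.C (D.t : A) = algebraMap FF (MvPolynomial (Var L) A) t
    rw [hc.ht]
    rfl
  · intro κ S c hS hS2
    have hJ' : ∀ (κ : L.K) (S c : ℕ), 0 < S → Even S → sext σ (gvar D J)
        ((fun κ S c => (MvPolynomial.C (J κ S c) : MvPolynomial (Var L) A)) κ S c) =
        (fun κ S c => (MvPolynomial.C (J κ S c) : MvPolynomial (Var L) A)) κ S (c + S) := by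
      intro κ S c h1 h2
      show sext σ (gvar D J) (MvPolynomial.C (J κ S c)) = MvPolynomial.C (J κ S (c + S))
      rw [hsC, hc.sJ κ S c h1 h2]
    have hb : ∀ P : PT L, ∀ S i, 0 < S → Even S → i < 2 → (P.s = 2 → i = 0) →
        sext σ (gvar D J) (bvar L A P S i) = bvar L A P S i +
        (((nextD (L := L) D).t ^ (P.r * P.s) : (MvPolynomial (Var L) A)ˣ) : MvPolynomial (Var L) A) *
        ∑ k ∈ Finset.range (S / 2),
        (fp (nextD (L := L) D) (fun κ S c => MvPolynomial.C (J κ S c)) P.r P.s S P.κ (i + 1 + 2 * k) -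
          fm (nextD (L := L) D) (fun κ S c => MvPolynomial.C (J κ S c)) P.r P.s S P.κ
            (i + 1 + 2 * k)) := by
      intro P S i h1 h2 h3 h4
      have e1 : bvar L A P S i = MvPolynomial.X ⟨P, S, i, h1, h2, h3, h4⟩ := by
        unfold bvar
        rw [dif_pos ⟨h1, h2, h3, h4⟩]
      rw [e1, hsX]
      congr 1
      unfold gvar gv
      rw [map_mul, map_sum]
      congr 1
      · have := Shift_map D (MvPolynomial.C (σ := Var L)) (P.r * P.s) 0 0
        simp only [Shift_m, zpow_zero, mul_one] at this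
        exact this
      · refine Finset.sum_congr rfl fun k _ => ?_
        simp only [pow_zero, mul_one]
        rw [map_sub, Shift_map_fp, Shift_map_fm]
        rfl
    show sext σ (gvar D J) (MvPolynomial.C (J κ.1 S c) * (κ.2.map fun P =>
        JP (nextD (L := L) D) (fun κ S c => MvPolynomial.C (J κ S c)) (bvar L A P) P S c *
          (nextD (L := L) D).ib S c).prod) =
      MvPolynomial.C (J κ.1 S (c + S)) * (κ.2.map fun P =>
        JP (nextD (L := L) D) (fun κ S c => MvPolynomial.C (J κ S c)) (bvar L A P) P S (c + S) *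
          (nextD (L := L) D).ib S (c + S)).prod
    rw [map_mul, hsC, hc.sJ _ _ _ hS hS2, map_multiset_prod, Multiset.map_map]
    congr 2
    refine Multiset.map_congr rfl fun P _ => ?_
    show sext σ (gvar D J) (JP (nextD (L := L) D) (fun κ S c => MvPolynomial.C (J κ S c))
      (bvar L A P) P S c * (nextD (L := L) D).ib S c) = _
    rw [map_mul, Shift_JP hP' _ hJ' _ P (hb P) S c hS hS2, Shift_sib hP' hok S c hS]

end AJG

end

section

/-!
# MP_d3fa71_gt, item SimpleExt: the polynomial extension is `σ`-simple with the same constants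
-/

open Polynomial

namespace AJG

section SimpleExtFacts

variable {A : Type} [CommRing A] {W : Type}

/-- the image of a monomial `X^n` -/
noncomputable def SimpleExt_P (g : W → A) (n : W →₀ ℕ) : MvPolynomial W A :=
  n.prod fun w k => (MvPolynomial.X w + MvPolynomial.C (g w)) ^ k

theorem SimpleExt_P_add (g : W → A) (n : W →₀ ℕ) (u : W) :
    SimpleExt_P g (n + Finsupp.single u 1) =
      SimpleExt_P g n * (MvPolynomial.X u + MvPolynomial.C (g u)) := by
  classical
  unfold SimpleExt_P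
  rw [Finsupp.prod_add_index']
  · rw [Finsupp.prod_single_index, pow_one]
    exact pow_zero _
  · intro a
    exact pow_zero _
  · intro a b₁ b₂
    exact pow_add _ _ _

theorem SimpleExt_exists_add {n : W →₀ ℕ} (hn : n ≠ 0) :
    ∃ (u : W) (n' : W →₀ ℕ), n = n' + Finsupp.single u 1 ∧ u ∈ n.support := by
  classical
  obtain ⟨u, hu⟩ := Finsupp.support_nonempty_iff.2 hn
  refine ⟨u, n - Finsupp.single u 1, ?_, hu⟩
  rw [tsub_add_cancel_of_le]
  rw [Finsupp.single_le_iff]
  exact Nat.one_le_iff_ne_zero.2 (Finsupp.mem_support_iff.1 hu)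

theorem SimpleExt_coeff_P [DecidableEq (W →₀ ℕ)] (g : W → A) (S : Finset W) :
    ∀ (k : ℕ) (n : W →₀ ℕ), Finsupp.degree n = k → n.support ⊆ S → ∀ m : W →₀ ℕ,
      Finsupp.degree n ≤ Finsupp.degree m + 1 →
      MvPolynomial.coeff m (SimpleExt_P g n) = (if n = m then 1 else 0) +
        ∑ w ∈ S, (if n = m + Finsupp.single w 1 then ((m w : A) + 1) * g w else 0) := by
  classical
  intro k
  induction k with
  | zero =>
    intro n hn _ m _
    have hn0 : n = 0 := (Finsupp.degree_eq_zero_iff n).1 hn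
    subst hn0
    have h1 : SimpleExt_P g 0 = 1 := by
      unfold SimpleExt_P
      exact Finsupp.prod_zero_index
    rw [h1, MvPolynomial.coeff_one]
    have h2 : ∀ w ∈ S, (if (0 : W →₀ ℕ) = m + Finsupp.single w 1 then ((m w : A) + 1) * g w else 0) = 0 := by
      intro w _
      rw [if_neg]
      intro h
      have := congrArg Finsupp.degree h
      rw [map_zero, map_add, Finsupp.degree_single] at this
      omega
    rw [Finset.sum_eq_zero h2, add_zero]
    by_cases h3 : (0 : W →₀ ℕ) = m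
    · rw [if_pos h3, if_pos h3]
    · rw [if_neg h3, if_neg h3]
  | succ k ih =>
    intro n hn hS m hm
    have hn0 : n ≠ 0 := by
      rintro rfl
      simp at hn
    obtain ⟨u, n', rfl, hu⟩ := SimpleExt_exists_add hn0
    have huS : u ∈ S := hS hu
    have hdeg : Finsupp.degree n' = k := by
      rw [map_add, Finsupp.degree_single] at hn
      omega
    have hsub : n'.support ⊆ S := by
      intro w hw
      apply hS
      rw [Finsupp.mem_support_iff] at hw ⊢
      rw [Finsupp.add_apply]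
      omega
    rw [map_add, Finsupp.degree_single] at hm
    rw [SimpleExt_P_add, mul_add, MvPolynomial.coeff_add, MvPolynomial.coeff_mul_X',
      mul_comm, MvPolynomial.coeff_C_mul]
    have hsecond : MvPolynomial.coeff m (SimpleExt_P g n') = if n' = m then 1 else 0 := by
      rw [ih n' hdeg hsub m (by omega)]
      have h2 : ∀ w ∈ S, (if n' = m + Finsupp.single w 1 then ((m w : A) + 1) * g w else 0) = 0 := by
        intro w _
        rw [if_neg]
        intro h
        have := congrArg Finsupp.degree h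
        rw [map_add, Finsupp.degree_single] at this
        omega
      rw [Finset.sum_eq_zero h2, add_zero]
    rw [hsecond]
    by_cases hum : u ∈ m.support
    · rw [if_pos hum]
      have hmu : 1 ≤ m u := Nat.one_le_iff_ne_zero.2 (Finsupp.mem_support_iff.1 hum)
      have hle : Finsupp.single u 1 ≤ m := Finsupp.single_le_iff.2 hmu
      obtain ⟨m', rfl⟩ : ∃ m', m = m' + Finsupp.single u 1 := ⟨m - Finsupp.single u 1,
        (tsub_add_cancel_of_le hle).symm⟩
      rw [add_tsub_cancel_right]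
      rw [ih n' hdeg hsub m' (by
        rw [map_add, Finsupp.degree_single] at hm
        omega)]
      have e1 : (n' + Finsupp.single u 1 = m' + Finsupp.single u 1) ↔ n' = m' :=
        add_left_inj _
      have e2 : ∀ w, (n' + Finsupp.single u 1 = m' + Finsupp.single u 1 + Finsupp.single w 1) ↔
          n' = m' + Finsupp.single w 1 := by
        intro w
        rw [add_right_comm]
        exact add_left_inj _
      simp only [e1, e2]
      rw [add_assoc]
      congr 1
      -- compare the two sums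
      have e3 : ∑ w ∈ S, (if n' = m' + Finsupp.single w 1 then
          ((m' + Finsupp.single u 1 : W →₀ ℕ) w : A) * g w + g w else 0) =
          ∑ w ∈ S, (if n' = m' + Finsupp.single w 1 then ((m' w : A) + 1) * g w else 0) +
            ∑ w ∈ S, (if w = u then (if n' = m' + Finsupp.single w 1 then g w else 0) else 0) := by
        rw [← Finset.sum_add_distrib]
        refine Finset.sum_congr rfl fun w _ => ?_
        by_cases hwu : w = u
        · subst hwu
          rw [if_pos rfl, Finsupp.add_apply, Finsupp.single_eq_same]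
          split_ifs
          · push_cast
            ring
          · ring
        · rw [if_neg hwu, Finsupp.add_apply, Finsupp.single_eq_of_ne hwu]
          split_ifs
          · push_cast
            ring
          · ring
      have e4 : ∀ w, ((m' + Finsupp.single u 1 : W →₀ ℕ) w : A) * g w + g w =
          (((m' + Finsupp.single u 1 : W →₀ ℕ) w : A) + 1) * g w := by
        intro w
        ring
      simp only [← e4]
      rw [e3, Finset.sum_ite_eq' S u, if_pos huS]
      congr 1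
      split_ifs
      · ring
      · ring
    · rw [if_neg hum, zero_add]
      have hmu : m u = 0 := by
        by_contra h
        exact hum (Finsupp.mem_support_iff.2 h)
      have h1 : ¬ (n' + Finsupp.single u 1 = m) := by
        intro h
        have := DFunLike.congr_fun h u
        rw [Finsupp.add_apply, Finsupp.single_eq_same, hmu] at this
        omega
      rw [if_neg h1, zero_add]
      have h2 : ∀ w ∈ S, (if n' + Finsupp.single u 1 = m + Finsupp.single w 1 then
          ((m w : A) + 1) * g w else 0) = if w = u then (if n' = m then g u else 0) else 0 := by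
        intro w _
        by_cases hwu : w = u
        · subst hwu
          rw [if_pos rfl]
          have e1 : (n' + Finsupp.single w 1 = m + Finsupp.single w 1) ↔ n' = m := add_left_inj _
          simp only [e1]
          split_ifs
          · rw [hmu]
            push_cast
            ring
          · rfl
        · rw [if_neg hwu, if_neg]
          intro h
          have := DFunLike.congr_fun h u
          rw [Finsupp.add_apply, Finsupp.single_eq_same, Finsupp.add_apply, hmu,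
            Finsupp.single_eq_of_ne (Ne.symm hwu)] at this
          omega
      rw [Finset.sum_congr rfl h2, Finset.sum_ite_eq' S u, if_pos huS]
      split_ifs
      · ring
      · ring

variable (σ : A →+* A) (g : W → A)

theorem SimpleExt_C (a : A) : sext σ g (MvPolynomial.C a) = MvPolynomial.C (σ a) := by
  unfold sext
  simp

theorem SimpleExt_monomial (n : W →₀ ℕ) (a : A) :
    sext σ g (MvPolynomial.monomial n a) = MvPolynomial.C (σ a) * SimpleExt_P g n := by
  unfold sext SimpleExt_P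
  simp [MvPolynomial.eval₂_monomial]

theorem SimpleExt_apply (f : MvPolynomial W A) :
    sext σ g f = ∑ n ∈ f.support, MvPolynomial.C (σ (MvPolynomial.coeff n f)) * SimpleExt_P g n := by
  conv_lhs => rw [MvPolynomial.as_sum f]
  rw [map_sum]
  exact Finset.sum_congr rfl fun n _ => SimpleExt_monomial σ g n _

theorem SimpleExt_deg {f : MvPolynomial W A} {n : W →₀ ℕ} (hn : n ∈ f.support) :
    Finsupp.degree n ≤ f.totalDegree := MvPolynomial.le_totalDegree hn

/-- (3) -/
theorem SimpleExt_coeff [DecidableEq (W →₀ ℕ)] (f : MvPolynomial W A) (m : W →₀ ℕ)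
    (hm : f.totalDegree ≤ Finsupp.degree m + 1) (S : Finset W) (hS : ∀ n ∈ f.support, n.support ⊆ S) :
    MvPolynomial.coeff m (sext σ g f) = σ (MvPolynomial.coeff m f) +
      ∑ w ∈ S, ((m w : A) + 1) * σ (MvPolynomial.coeff (m + Finsupp.single w 1) f) * g w := by
  classical
  rw [SimpleExt_apply, MvPolynomial.coeff_sum]
  have h1 : ∀ n ∈ f.support, MvPolynomial.coeff m (MvPolynomial.C (σ (MvPolynomial.coeff n f)) *
      SimpleExt_P g n) = (if n = m then σ (MvPolynomial.coeff n f) else 0) +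
        ∑ w ∈ S, (if n = m + Finsupp.single w 1 then
          ((m w : A) + 1) * σ (MvPolynomial.coeff n f) * g w else 0) := by
    intro n hn
    rw [MvPolynomial.coeff_C_mul, SimpleExt_coeff_P g S _ n rfl (hS n hn) m
      ((SimpleExt_deg hn).trans hm), mul_add, Finset.mul_sum]
    congr 1
    · split_ifs
      · rw [mul_one]
      · rw [mul_zero]
    · refine Finset.sum_congr rfl fun w _ => ?_
      split_ifs
      · ring
      · rw [mul_zero]
  rw [Finset.sum_congr rfl h1, Finset.sum_add_distrib]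
  congr 1
  · rw [Finset.sum_ite_eq' f.support m]
    split_ifs with h
    · rfl
    · rw [MvPolynomial.notMem_support_iff.1 h, map_zero]
  · rw [Finset.sum_comm]
    refine Finset.sum_congr rfl fun w _ => ?_
    rw [Finset.sum_ite_eq' f.support]
    split_ifs with h
    · rfl
    · rw [MvPolynomial.notMem_support_iff.1 h, map_zero, mul_zero, zero_mul]

/-- (2) -/
theorem SimpleExt_coeff_top (f : MvPolynomial W A) (m : W →₀ ℕ)
    (hm : f.totalDegree ≤ Finsupp.degree m) :
    MvPolynomial.coeff m (sext σ g f) = σ (MvPolynomial.coeff m f) := by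
  classical
  rw [SimpleExt_coeff σ g f m (by omega) (f.support.biUnion Finsupp.support)
    (fun n hn => Finset.subset_biUnion_of_mem Finsupp.support hn)]
  rw [Finset.sum_eq_zero, add_zero]
  intro w _
  have h : MvPolynomial.coeff (m + Finsupp.single w 1) f = 0 := by
    by_contra h
    have := SimpleExt_deg (MvPolynomial.mem_support_iff.2 h)
    rw [map_add, Finsupp.degree_single] at this
    omega
  rw [h, map_zero, mul_zero, zero_mul]

/-- (1) -/
theorem SimpleExt_totalDegree (f : MvPolynomial W A) :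
    (sext σ g f).totalDegree ≤ f.totalDegree := by
  by_contra hlt
  push Not at hlt
  have hne : (sext σ g f).support.Nonempty := by
    rw [MvPolynomial.support_nonempty]
    intro h
    rw [h, MvPolynomial.totalDegree_zero] at hlt
    omega
  obtain ⟨n, hn, hnd⟩ : ∃ n ∈ (sext σ g f).support, Finsupp.degree n = (sext σ g f).totalDegree := by
    obtain ⟨n, hn, h⟩ := Finset.exists_mem_eq_sup _ hne (fun s : W →₀ ℕ => s.sum fun _ e => e)
    exact ⟨n, hn, h.symm⟩
  have h1 := SimpleExt_coeff_top σ g f n (by omega)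
  have h2 : MvPolynomial.coeff n f = 0 := by
    by_contra h
    have := SimpleExt_deg (MvPolynomial.mem_support_iff.2 h)
    omega
  rw [h2, map_zero] at h1
  exact MvPolynomial.mem_support_iff.1 hn h1

theorem SimpleExt_exists_top {f : MvPolynomial W A} (hf : f ≠ 0) :
    ∃ n ∈ f.support, Finsupp.degree n = f.totalDegree := by
  obtain ⟨n, hn, h⟩ := Finset.exists_mem_eq_sup _ (MvPolynomial.support_nonempty.2 hf)
    (fun s : W →₀ ℕ => s.sum fun _ e => e)
  exact ⟨n, hn, h.symm⟩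

end SimpleExtFacts

/-- the constants of the extension -/
theorem SimpleExt_const {A : Type} [CommRing A] [Algebra FF A] {σ : A →+* A} {W : Type}
    {g : W → A} (hc : SConst σ) (hi : IndepMod σ g) {f : MvPolynomial W A}
    (hf : sext σ g f = f) : ∃ c : FF, algebraMap FF (MvPolynomial W A) c = f := by
  classical
  rcases Nat.eq_zero_or_pos f.totalDegree with hD | hD
  · have h1 : f = MvPolynomial.C (MvPolynomial.coeff 0 f) := MvPolynomial.totalDegree_eq_zero_iff_eq_C.1 hD
    have h2 : σ (MvPolynomial.coeff 0 f) = MvPolynomial.coeff 0 f := by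
      have := SimpleExt_coeff_top σ g f 0 (by omega)
      rw [hf] at this
      exact this.symm
    obtain ⟨c, hc⟩ := hc.2 _ h2
    refine ⟨c, ?_⟩
    rw [h1, ← hc]
    rfl
  · exfalso
    have hf0 : f ≠ 0 := by
      rintro rfl
      simp at hD
    obtain ⟨n, hn, hnd⟩ := SimpleExt_exists_top hf0
    -- top coefficients are constants
    have htop : ∀ n' : W →₀ ℕ, ∃ c : FF, Finsupp.degree n' = f.totalDegree →
        algebraMap FF A c = MvPolynomial.coeff n' f ∧ (MvPolynomial.coeff n' f = 0 → c = 0) := by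
      intro n'
      by_cases h : Finsupp.degree n' = f.totalDegree
      · have h1 := SimpleExt_coeff_top σ g f n' (by omega)
        rw [hf] at h1
        obtain ⟨c, hc'⟩ := hc.2 _ h1.symm
        by_cases h0 : MvPolynomial.coeff n' f = 0
        · refine ⟨0, fun _ => ⟨?_, fun _ => rfl⟩⟩
          rw [h0, map_zero]
        · exact ⟨c, fun _ => ⟨hc', fun h => absurd h h0⟩⟩
      · exact ⟨0, fun h' => absurd h' h⟩
    choose cc hcc using htop
    have hn0 : n ≠ 0 := by
      rintro rfl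
      simp at hnd
      omega
    obtain ⟨u, m, rfl, hu⟩ := SimpleExt_exists_add hn0
    rw [map_add, Finsupp.degree_single] at hnd
    set S : Finset W := f.support.biUnion Finsupp.support with hSdef
    have h3 := SimpleExt_coeff σ g f m (by omega) S
      (fun n hn => Finset.subset_biUnion_of_mem Finsupp.support hn)
    rw [hf] at h3
    have hdeg : ∀ w, Finsupp.degree (m + Finsupp.single w 1) = f.totalDegree := by
      intro w
      rw [map_add, Finsupp.degree_single]
      exact hnd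
    -- the coefficients of the relation
    set c : W →₀ FF := Finsupp.onFinset S (fun w => ((m w : FF) + 1) * cc (m + Finsupp.single w 1)) (by
      intro w hw
      have h4 : MvPolynomial.coeff (m + Finsupp.single w 1) f ≠ 0 := by
        intro h
        rw [(hcc _ (hdeg w)).2 h, mul_zero] at hw
        exact hw rfl
      rw [hSdef, Finset.mem_biUnion]
      refine ⟨_, MvPolynomial.mem_support_iff.2 h4, ?_⟩
      rw [Finsupp.mem_support_iff, Finsupp.add_apply, Finsupp.single_eq_same]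
      omega) with hcdef
    have hrel : (c.sum fun v a => a • g v) = σ (-(MvPolynomial.coeff m f)) -
        (-(MvPolynomial.coeff m f)) := by
      rw [hcdef, Finsupp.onFinset_sum]
      swap
      · intro a
        exact zero_smul _ _
      have h5 : ∀ w ∈ S, (((m w : FF) + 1) * cc (m + Finsupp.single w 1)) • g w =
          ((m w : A) + 1) * σ (MvPolynomial.coeff (m + Finsupp.single w 1) f) * g w := by
        intro w _
        rw [Algebra.smul_def, map_mul, map_add, map_natCast, map_one, (hcc _ (hdeg w)).1]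
        have h6 := SimpleExt_coeff_top σ g f (m + Finsupp.single w 1) (hdeg w).ge
        rw [hf] at h6
        rw [← h6]
      rw [Finset.sum_congr rfl h5, map_neg]
      linear_combination -h3
    have hc0 := hi c _ hrel
    have h8 : c u = 0 := by rw [hc0]; rfl
    rw [hcdef, Finsupp.onFinset_apply] at h8
    have h9 : ((m u : FF) + 1) ≠ 0 := by
      exact_mod_cast Nat.succ_ne_zero (m u)
    have h10 : cc (m + Finsupp.single u 1) = 0 := by
      rcases mul_eq_zero.1 h8 with h | h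
      · exact absurd h h9
      · exact h
    have h11 := (hcc _ (hdeg u)).1
    rw [h10, map_zero] at h11
    exact MvPolynomial.mem_support_iff.1 hn h11.symm

/-- coefficient ideal at the monomial `m₀` -/
noncomputable def SimpleExt_ideal {A : Type} [CommRing A] {W : Type} (I : Ideal (MvPolynomial W A))
    (D : ℕ) (T : Set (W →₀ ℕ)) (m₀ : W →₀ ℕ) : Ideal A where
  carrier := {a | ∃ h ∈ I, h.totalDegree ≤ D ∧
    (∀ n, Finsupp.degree n = D → MvPolynomial.coeff n h ≠ 0 → n ∈ T) ∧ MvPolynomial.coeff m₀ h = a}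
  add_mem' := by
    rintro a b ⟨h, hI, hd, hT, rfl⟩ ⟨h', hI', hd', hT', rfl⟩
    refine ⟨h + h', I.add_mem hI hI', (MvPolynomial.totalDegree_add _ _).trans (max_le hd hd'),
      ?_, MvPolynomial.coeff_add _ _ _⟩
    intro n hn hne
    by_contra hnT
    apply hne
    rw [MvPolynomial.coeff_add]
    have h1 : MvPolynomial.coeff n h = 0 := by
      by_contra h0
      exact hnT (hT n hn h0)
    have h2 : MvPolynomial.coeff n h' = 0 := by
      by_contra h0
      exact hnT (hT' n hn h0)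
    rw [h1, h2, add_zero]
  zero_mem' := ⟨0, I.zero_mem, by simp, by
    intro n _ h
    exact absurd (MvPolynomial.coeff_zero n) h, MvPolynomial.coeff_zero _⟩
  smul_mem' := by
    rintro c a ⟨h, hI, hd, hT, rfl⟩
    refine ⟨MvPolynomial.C c * h, I.mul_mem_left _ hI, ?_, ?_, ?_⟩
    · refine (MvPolynomial.totalDegree_mul _ _).trans ?_
      rw [MvPolynomial.totalDegree_C, zero_add]
      exact hd
    · intro n hn hne
      rw [MvPolynomial.coeff_C_mul] at hne
      exact hT n hn (right_ne_zero_of_mul hne)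
    · rw [MvPolynomial.coeff_C_mul, smul_eq_mul]

theorem SimpleExt_proof : S_SimpleExt := by
  classical
  intro A _ _ σ W g hs hc hi
  have hnt : Nontrivial A := hs.1
  refine ⟨⟨inferInstance, ?_⟩, ?_, fun f hf => SimpleExt_const hc hi hf⟩
  swap
  · intro c
    have h1 : algebraMap FF (MvPolynomial W A) c = MvPolynomial.C (algebraMap FF A c) := rfl
    rw [h1, SimpleExt_C, hc.1]
  intro I hI
  by_cases hbot : I = ⊥
  · exact Or.inl hbot
  right
  -- the number of top monomials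
  let top : MvPolynomial W A → Finset (W →₀ ℕ) := fun h =>
    h.support.filter fun n => Finsupp.degree n = h.totalDegree
  have hmem_top : ∀ h n, n ∈ top h ↔ MvPolynomial.coeff n h ≠ 0 ∧ Finsupp.degree n = h.totalDegree := by
    intro h n
    simp only [top, Finset.mem_filter, MvPolynomial.mem_support_iff]
  let S₀ : Set (MvPolynomial W A) := {h | h ∈ I ∧ h ≠ 0}
  have hS₀ : S₀.Nonempty := by
    obtain ⟨x, hx, hx0⟩ := Submodule.exists_mem_ne_zero_of_ne_bot hbot
    exact ⟨x, hx, hx0⟩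
  set f₀ := Function.argminOn (fun h : MvPolynomial W A => h.totalDegree) S₀ hS₀ with hf₀
  have hf₀S : f₀ ∈ S₀ := Function.argminOn_mem _ _ _
  have hf₀min : ∀ h ∈ S₀, f₀.totalDegree ≤ h.totalDegree := fun h hh =>
    Function.argminOn_le (fun h : MvPolynomial W A => h.totalDegree) S₀ hh
  set D := f₀.totalDegree with hD
  let S₁ : Set (MvPolynomial W A) := {h | h ∈ S₀ ∧ h.totalDegree = D}
  have hS₁ : S₁.Nonempty := ⟨f₀, hf₀S, rfl⟩
  set f := Function.argminOn (fun h : MvPolynomial W A => (top h).card) S₁ hS₁ with hf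
  have hfS : f ∈ S₁ := Function.argminOn_mem _ _ _
  have hfmin : ∀ h ∈ S₁, (top f).card ≤ (top h).card := fun h hh =>
    Function.argminOn_le (fun h : MvPolynomial W A => (top h).card) S₁ hh
  obtain ⟨⟨hfI, hf0⟩, hfD⟩ := hfS
  obtain ⟨m₀, hm₀, hm₀d⟩ := SimpleExt_exists_top hf0
  rw [hfD] at hm₀d
  -- the coefficient ideal
  set T : Set (W →₀ ℕ) := {n | n ∈ top f} with hT
  have hm₀T : m₀ ∈ T := (hmem_top f m₀).2 ⟨MvPolynomial.mem_support_iff.1 hm₀, by rw [hfD]; exact hm₀d⟩
  have hideal : SimpleExt_ideal I D T m₀ = ⊤ := by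
    have h1 := hs.2 (SimpleExt_ideal I D T m₀) (by
      rintro a ⟨h, hI', hd, hTh, rfl⟩
      refine ⟨sext σ g h, hI h hI', (SimpleExt_totalDegree σ g h).trans hd, ?_, ?_⟩
      · intro n hn hne
        rw [SimpleExt_coeff_top σ g h n (by rw [hn]; exact hd)] at hne
        apply hTh n hn
        intro h0
        rw [h0, map_zero] at hne
        exact hne rfl
      · exact SimpleExt_coeff_top σ g h m₀ (by rw [hm₀d]; exact hd))
    rcases h1 with h1 | h1
    · exfalso
      have h2 : MvPolynomial.coeff m₀ f ∈ SimpleExt_ideal I D T m₀ :=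
        ⟨f, hfI, hfD.le, fun n hn hne => (hmem_top f n).2 ⟨hne, by rw [hfD]; exact hn⟩, rfl⟩
      rw [h1] at h2
      exact MvPolynomial.mem_support_iff.1 hm₀ h2
    · exact h1
  obtain ⟨h, hhI, hhd, hhT, hh1⟩ : (1 : A) ∈ SimpleExt_ideal I D T m₀ := by
    rw [hideal]
    exact Submodule.mem_top
  -- `σ' h = h`
  have hfix : sext σ g h = h := by
    by_contra hne
    set k := sext σ g h - h with hk
    have hk0 : k ≠ 0 := sub_ne_zero.2 hne
    have hkI : k ∈ I := I.sub_mem (hI h hhI) hhI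
    have hkd : k.totalDegree ≤ D := by
      rw [hk]
      exact (MvPolynomial.totalDegree_sub _ _).trans
        (max_le ((SimpleExt_totalDegree σ g h).trans hhd) hhd)
    have hkD : k.totalDegree = D := le_antisymm hkd (hf₀min k ⟨hkI, hk0⟩)
    have hcard := hfmin k ⟨⟨hkI, hk0⟩, hkD⟩
    have hsub : top k ⊆ (top f).erase m₀ := by
      intro n hn
      obtain ⟨hn1, hn2⟩ := (hmem_top k n).1 hn
      rw [hkD] at hn2
      have hcoeff : MvPolynomial.coeff n k = σ (MvPolynomial.coeff n h) - MvPolynomial.coeff n h := by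
        rw [hk, MvPolynomial.coeff_sub, SimpleExt_coeff_top σ g h n (by rw [hn2]; exact hhd)]
      rw [Finset.mem_erase]
      constructor
      · rintro rfl
        apply hn1
        rw [hcoeff, hh1, map_one, sub_self]
      · apply hhT n hn2
        intro h0
        apply hn1
        rw [hcoeff, h0, map_zero, sub_self]
    have h3 := Finset.card_le_card hsub
    rw [Finset.card_erase_of_mem hm₀T] at h3
    have h4 : 0 < (top f).card := Finset.card_pos.2 ⟨m₀, hm₀T⟩
    omega
  obtain ⟨c, hcc⟩ := SimpleExt_const hc hi hfix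
  have hc0 : c ≠ 0 := by
    rintro rfl
    rw [map_zero] at hcc
    rw [← hcc, MvPolynomial.coeff_zero] at hh1
    exact zero_ne_one hh1
  apply Ideal.eq_top_of_isUnit_mem I hhI
  rw [← hcc]
  exact (IsUnit.mk0 c hc0).map _

end AJG

end

section

open Polynomial

namespace AJG

section
variable {A W : Type} [CommRing A]

theorem TopCoeff_grp {G : Type} [CommGroup G] (t h x : G) (a b c a' b' c' d A₁ B₁ C₁ : ℤ)
    (ha : a + a' = d + A₁) (hb : b + b' = B₁) (hc : c + c' = C₁) :
    t ^ a * h ^ b * x ^ c * (h ^ b' * x ^ c' * t ^ a') = t ^ d * (t ^ A₁ * h ^ B₁ * x ^ C₁) := by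
  have h1 : t ^ a * h ^ b * x ^ c * (h ^ b' * x ^ c' * t ^ a') =
      t ^ (a + a') * h ^ (b + b') * x ^ (c + c') := by
    rw [zpow_add, zpow_add, zpow_add]
    simp only [mul_assoc, mul_left_comm, mul_comm]
  rw [h1, ha, hb, hc, zpow_add]
  simp only [mul_assoc]

/-- degree at most `d`, and the only coefficient in degree `d` is `a` at `m` -/
def TopCoeff_P (p : MvPolynomial W A) (m : W →₀ ℕ) (d : ℕ) (a : A) : Prop :=
  p.totalDegree ≤ d ∧ ∀ n : W →₀ ℕ, Finsupp.degree n = d →
    (n = m → MvPolynomial.coeff n p = a) ∧ (n ≠ m → MvPolynomial.coeff n p = 0)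

theorem TopCoeff_zero (m : W →₀ ℕ) (d : ℕ) : TopCoeff_P (0 : MvPolynomial W A) m d 0 :=
  ⟨by simp, fun n _ => ⟨fun _ => by simp, fun _ => by simp⟩⟩

theorem TopCoeff_Cmul {p : MvPolynomial W A} {m : W →₀ ℕ} {d : ℕ} {a : A}
    (h : TopCoeff_P p m d a) (c : A) : TopCoeff_P (MvPolynomial.C c * p) m d (c * a) := by
  refine ⟨?_, fun n hn => ⟨fun hm => ?_, fun hm => ?_⟩⟩
  · refine le_trans (MvPolynomial.totalDegree_mul _ _) ?_
    rw [MvPolynomial.totalDegree_C, zero_add]
    exact h.1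
  · rw [MvPolynomial.coeff_C_mul, (h.2 n hn).1 hm]
  · rw [MvPolynomial.coeff_C_mul, (h.2 n hn).2 hm, mul_zero]

theorem TopCoeff_add {p q : MvPolynomial W A} {m : W →₀ ℕ} {d : ℕ} {a b : A}
    (h : TopCoeff_P p m d a) (h' : TopCoeff_P q m d b) : TopCoeff_P (p + q) m d (a + b) := by
  refine ⟨?_, fun n hn => ⟨fun hm => ?_, fun hm => ?_⟩⟩
  · exact le_trans (MvPolynomial.totalDegree_add _ _) (max_le h.1 h'.1)
  · rw [MvPolynomial.coeff_add, (h.2 n hn).1 hm, (h'.2 n hn).1 hm]
  · rw [MvPolynomial.coeff_add, (h.2 n hn).2 hm, (h'.2 n hn).2 hm, add_zero]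

theorem TopCoeff_sub {p q : MvPolynomial W A} {m : W →₀ ℕ} {d : ℕ} {a b : A}
    (h : TopCoeff_P p m d a) (h' : TopCoeff_P q m d b) : TopCoeff_P (p - q) m d (a - b) := by
  refine ⟨?_, fun n hn => ⟨fun hm => ?_, fun hm => ?_⟩⟩
  · exact le_trans (MvPolynomial.totalDegree_sub _ _) (max_le h.1 h'.1)
  · rw [MvPolynomial.coeff_sub, (h.2 n hn).1 hm, (h'.2 n hn).1 hm]
  · rw [MvPolynomial.coeff_sub, (h.2 n hn).2 hm, (h'.2 n hn).2 hm, sub_zero]

theorem TopCoeff_sum {ι : Type} (s : Finset ι) {p : ι → MvPolynomial W A} {m : W →₀ ℕ} {d : ℕ}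
    {a : ι → A} (h : ∀ k ∈ s, TopCoeff_P (p k) m d (a k)) :
    TopCoeff_P (∑ k ∈ s, p k) m d (∑ k ∈ s, a k) := by
  classical
  induction s using Finset.induction_on with
  | empty => simpa using TopCoeff_zero m d
  | insert k s hk ih =>
    rw [Finset.sum_insert hk, Finset.sum_insert hk]
    exact TopCoeff_add (h k (Finset.mem_insert_self k s))
      (ih fun j hj => h j (Finset.mem_insert_of_mem hj))

theorem TopCoeff_one : TopCoeff_P (1 : MvPolynomial W A) 0 0 1 := by
  refine ⟨by simp, fun n hn => ⟨fun hm => ?_, fun hm => ?_⟩⟩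
  · rw [hm]; simp
  · exfalso
    apply hm
    exact (Finsupp.degree_eq_zero_iff n).1 hn

theorem TopCoeff_step {p : MvPolynomial W A} {m : W →₀ ℕ} {d : ℕ} {a : A}
    (h : TopCoeff_P p m d a) (w : W) (c b : A) :
    TopCoeff_P (MvPolynomial.C c * (MvPolynomial.X w + MvPolynomial.C b) * p)
      (Finsupp.single w 1 + m) (d + 1) (c * a) := by
  classical
  have h1 : TopCoeff_P ((MvPolynomial.X w + MvPolynomial.C b) * p)
      (Finsupp.single w 1 + m) (d + 1) a := by
    have hlow : ∀ n : W →₀ ℕ, Finsupp.degree n = d + 1 → MvPolynomial.coeff n p = 0 := by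
      intro n hn
      apply MvPolynomial.coeff_eq_zero_of_totalDegree_lt
      have h2 : ∑ i ∈ n.support, n i = Finsupp.degree n := rfl
      rw [h2, hn]
      exact Nat.lt_succ_of_le h.1
    refine ⟨?_, fun n hn => ?_⟩
    · refine le_trans (MvPolynomial.totalDegree_mul _ _) ?_
      rw [add_comm d 1]
      refine add_le_add ?_ h.1
      refine le_trans (MvPolynomial.totalDegree_add _ _) (max_le ?_ ?_)
      · rcases subsingleton_or_nontrivial A with hA | hA
        · rw [Subsingleton.elim (MvPolynomial.X w : MvPolynomial W A) 0,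
            MvPolynomial.totalDegree_zero]
          exact Nat.zero_le 1
        · rw [MvPolynomial.totalDegree_X]
      · rw [MvPolynomial.totalDegree_C]; exact Nat.zero_le 1
    · have h3 : MvPolynomial.coeff n ((MvPolynomial.X w + MvPolynomial.C b) * p) =
          if w ∈ n.support then MvPolynomial.coeff (n - Finsupp.single w 1) p else 0 := by
        rw [add_mul, MvPolynomial.coeff_add, MvPolynomial.coeff_C_mul, hlow n hn, mul_zero,
          add_zero, mul_comm, MvPolynomial.coeff_mul_X']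
      rw [h3]
      constructor
      · intro hm
        have hw : w ∈ n.support := by
          rw [hm, Finsupp.mem_support_iff, Finsupp.add_apply, Finsupp.single_eq_same]
          omega
        rw [if_pos hw, hm, add_tsub_cancel_left]
        refine (h.2 m ?_).1 rfl
        have h4 := congrArg Finsupp.degree hm
        rw [hn, map_add, Finsupp.degree_single] at h4
        omega
      · intro hm
        split_ifs with hw
        · have h5 : Finsupp.single w 1 + (n - Finsupp.single w 1) = n := by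
            apply add_tsub_cancel_of_le
            rw [Finsupp.single_le_iff]
            rw [Finsupp.mem_support_iff] at hw
            omega
          refine (h.2 _ ?_).2 ?_
          · have h4 := congrArg Finsupp.degree h5
            rw [hn, map_add, Finsupp.degree_single] at h4
            omega
          · intro h6
            apply hm
            rw [← h5, h6]
        · rfl
  have h2 := TopCoeff_Cmul h1 c
  rwa [← mul_assoc] at h2

theorem TopCoeff_prod {Q : Type} [DecidableEq W] (M : Multiset Q) (a b : Q → A) (w : Q → W)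
    (f : Q → MvPolynomial W A)
    (hf : ∀ P, f P = MvPolynomial.C (a P) * (MvPolynomial.X (w P) + MvPolynomial.C (b P))) :
    TopCoeff_P (M.map f).prod (Multiset.toFinsupp (M.map w)) (Multiset.card M)
      (M.map a).prod := by
  induction M using Multiset.induction_on with
  | empty => simpa using TopCoeff_one
  | cons P M ih =>
    rw [Multiset.map_cons, Multiset.map_cons, Multiset.map_cons, Multiset.prod_cons,
      Multiset.prod_cons, Multiset.card_cons, hf P, ← Multiset.singleton_add (w P),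
      map_add, Multiset.toFinsupp_singleton]
    exact TopCoeff_step ih (w P) (a P) (b P)

end

section
variable {L : Lv} {A : Type} [CommRing A]

theorem TopCoeff_zt (D : Dat A) (a b c : ℤ) :
    (((nextD (L := L) D).t ^ a * (nextD (L := L) D).h ^ b * (nextD (L := L) D).x ^ c :
      (MvPolynomial (Var L) A)ˣ) : MvPolynomial (Var L) A) =
      MvPolynomial.C ((D.t ^ a * D.h ^ b * D.x ^ c : Aˣ) : A) := by
  have h : ((nextD (L := L) D).t ^ a * (nextD (L := L) D).h ^ b * (nextD (L := L) D).x ^ c) =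
      Units.map (MvPolynomial.C : A →+* MvPolynomial (Var L) A).toMonoidHom
        (D.t ^ a * D.h ^ b * D.x ^ c) := by
    rw [map_mul, map_mul, map_zpow, map_zpow, map_zpow]
    rfl
  rw [h]
  rfl

theorem TopCoeff_zt' (D : Dat A) (a b c : ℤ) :
    (((nextD (L := L) D).h ^ a * (nextD (L := L) D).x ^ b * (nextD (L := L) D).t ^ c :
      (MvPolynomial (Var L) A)ˣ) : MvPolynomial (Var L) A) =
      MvPolynomial.C ((D.h ^ a * D.x ^ b * D.t ^ c : Aˣ) : A) := by
  have h : ((nextD (L := L) D).h ^ a * (nextD (L := L) D).x ^ b * (nextD (L := L) D).t ^ c) =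
      Units.map (MvPolynomial.C : A →+* MvPolynomial (Var L) A).toMonoidHom
        (D.h ^ a * D.x ^ b * D.t ^ c) := by
    rw [map_mul, map_mul, map_zpow, map_zpow, map_zpow]
    rfl
  rw [h]
  rfl

theorem TopCoeff_zt1 (D : Dat A) (a : ℤ) :
    (((nextD (L := L) D).t ^ a : (MvPolynomial (Var L) A)ˣ) : MvPolynomial (Var L) A) =
      MvPolynomial.C ((D.t ^ a : Aˣ) : A) := by
  have h : ((nextD (L := L) D).t ^ a) =
      Units.map (MvPolynomial.C : A →+* MvPolynomial (Var L) A).toMonoidHom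
        (D.t ^ a) := by
    rw [map_zpow]
    rfl
  rw [h]
  rfl

theorem TopCoeff_fp (D : Dat A) (J : L.K → ℕ → ℕ → A) (ϱ : ℤ) (s S : ℕ) (κ : L.K) (v : ℕ) :
    fp (L := L) (nextD (L := L) D) (fun κ S c => MvPolynomial.C (J κ S c)) ϱ s S κ v =
      MvPolynomial.C (fp D J ϱ s S κ v) := by
  unfold fp
  rw [TopCoeff_zt, MvPolynomial.C_mul]

theorem TopCoeff_fm (D : Dat A) (J : L.K → ℕ → ℕ → A) (ϱ : ℤ) (s S : ℕ) (κ : L.K) (v : ℕ) :
    fm (L := L) (nextD (L := L) D) (fun κ S c => MvPolynomial.C (J κ S c)) ϱ s S κ v =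
      MvPolynomial.C (fm D J ϱ s S κ v) := by
  unfold fm
  rw [TopCoeff_zt, MvPolynomial.C_mul]

/-- the factor of a prime -/
theorem TopCoeff_JP (D : Dat A) (J : L.K → ℕ → ℕ → A) (P : PT L) (S c e : ℕ) (hS : 0 < S)
    (hS2 : Even S) (he : e < 2) (hc : c % 2 = e) : ∃ b : A,
    JP (nextD (L := L) D) (fun κ S c => MvPolynomial.C (J κ S c)) (bvar L A P) P S c *
        (nextD (L := L) D).ib S c =
      MvPolynomial.C ((if P.s = 2 then (-1 : A) ^ e else 1) *
        ((D.h ^ (-(P.r * P.s * (S : ℤ) ^ 2)) * D.x ^ (-(P.r * P.s * (S : ℤ) * (c : ℤ))) *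
          D.t ^ (-(P.r * P.s * (c : ℤ) ^ 2)) : Aˣ) : A) * D.ib S c) *
      (MvPolynomial.X (⟨P, S, if P.s = 2 then 0 else e, hS, hS2, by split_ifs; all_goals omega, by
        intro h2; simp [h2]⟩ : Var L) + MvPolynomial.C b) := by
  have hib : (nextD (L := L) D).ib S c = MvPolynomial.C (D.ib S c) := rfl
  have hpow : (-1 : MvPolynomial (Var L) A) ^ c = MvPolynomial.C ((-1 : A) ^ e) := by
    rw [map_pow, map_neg, map_one, ← hc]
    rw [neg_one_pow_eq_pow_mod_two]
  by_cases h2 : P.s = 2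
  · refine ⟨-(((D.t ^ (P.r * P.s) : Aˣ) : A) *
      ∑ k ∈ Finset.range c, (-1) ^ k * fp D J P.r P.s S P.κ k), ?_⟩
    have hb : bvar L A P S 0 = MvPolynomial.X (⟨P, S, if P.s = 2 then 0 else e, hS, hS2,
        by split_ifs; all_goals omega, by intro h2; simp [h2]⟩ : Var L) := by
      unfold bvar
      rw [dif_pos ⟨hS, hS2, by omega, fun _ => rfl⟩]
      congr 1
      simp [h2]
    unfold JP
    rw [if_pos h2, if_pos h2, hb, hpow, hib, TopCoeff_zt', TopCoeff_zt1]
    simp only [TopCoeff_fp, map_mul, map_sum, map_pow, map_neg, map_one]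
    ring
  · refine ⟨((D.t ^ (P.r * P.s) : Aˣ) : A) *
      ∑ k ∈ Finset.range (c / 2),
        (fp D J P.r P.s S P.κ (c % 2 + 1 + 2 * k) - fm D J P.r P.s S P.κ (c % 2 + 1 + 2 * k)),
        ?_⟩
    have hb : bvar L A P S (c % 2) = MvPolynomial.X (⟨P, S, if P.s = 2 then 0 else e, hS, hS2,
        by split_ifs; all_goals omega, by intro h2; simp [h2]⟩ : Var L) := by
      unfold bvar
      rw [dif_pos ⟨hS, hS2, by omega, fun h => absurd h h2⟩]
      congr 1
      simp [h2, hc]
    unfold JP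
    rw [if_neg h2, if_neg h2, hb, hib, TopCoeff_zt', TopCoeff_zt1]
    simp only [TopCoeff_fp, TopCoeff_fm, map_mul, map_sum, map_sub, map_one]
    ring

theorem TopCoeff_lead (D : Dat A) (M : Multiset (PT L)) (S c e : ℕ) :
    (M.map fun P => (if P.s = 2 then (-1 : A) ^ e else 1) *
        ((D.h ^ (-(P.r * P.s * (S : ℤ) ^ 2)) * D.x ^ (-(P.r * P.s * (S : ℤ) * (c : ℤ))) *
          D.t ^ (-(P.r * P.s * (c : ℤ) ^ 2)) : Aˣ) : A) * D.ib S c).prod =
      (sgM M e : A) * ((D.h ^ (-(AA M * (S : ℤ) ^ 2)) * D.x ^ (-(AA M * (S : ℤ) * (c : ℤ))) *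
          D.t ^ (-(AA M * (c : ℤ) ^ 2)) : Aˣ) : A) * D.ib S c ^ Multiset.card M := by
  induction M using Multiset.induction_on with
  | empty => simp [AA, sgM]
  | cons P M ih =>
    have h1 : AA (P ::ₘ M) = P.r * P.s + AA M := by simp [AA]
    have h2 : (sgM (P ::ₘ M) e : A) = (if P.s = 2 then (-1 : A) ^ e else 1) * (sgM M e : A) := by
      unfold sgM
      rw [Multiset.map_cons, Multiset.prod_cons]
      split_ifs <;> push_cast <;> ring
    have h3 : ((D.h ^ (-(AA (P ::ₘ M) * (S : ℤ) ^ 2)) * D.x ^ (-(AA (P ::ₘ M) * S * c)) *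
          D.t ^ (-(AA (P ::ₘ M) * (c : ℤ) ^ 2)) : Aˣ) : A) =
        ((D.h ^ (-(P.r * P.s * (S : ℤ) ^ 2)) * D.x ^ (-(P.r * P.s * (S : ℤ) * (c : ℤ))) *
          D.t ^ (-(P.r * P.s * (c : ℤ) ^ 2)) : Aˣ) : A) *
        ((D.h ^ (-(AA M * (S : ℤ) ^ 2)) * D.x ^ (-(AA M * (S : ℤ) * (c : ℤ))) *
          D.t ^ (-(AA M * (c : ℤ) ^ 2)) : Aˣ) : A) := by
      rw [← Units.val_mul]
      congr 1
      rw [h1]
      have e1 : (-((P.r * P.s + AA M) * (S : ℤ) ^ 2)) =
        (-(P.r * P.s * (S : ℤ) ^ 2)) + (-(AA M * (S : ℤ) ^ 2)) := by ring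
      have e2 : (-((P.r * P.s + AA M) * S * c)) =
        (-(P.r * P.s * S * c)) + (-(AA M * S * c)) := by ring
      have e3 : (-((P.r * P.s + AA M) * (c : ℤ) ^ 2)) =
        (-(P.r * P.s * (c : ℤ) ^ 2)) + (-(AA M * (c : ℤ) ^ 2)) := by ring
      rw [e1, e2, e3, zpow_add, zpow_add, zpow_add]
      simp only [mul_assoc, mul_left_comm, mul_comm]
    rw [Multiset.map_cons, Multiset.prod_cons, ih, Multiset.card_cons, h2, h3]
    ring

end

theorem TopCoeff_extJ {L : Lv} {A : Type} [CommRing A] (D : Dat A) (J : L.K → ℕ → ℕ → A)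
    (κ : L.K) (M : Multiset (PT L)) (S c e : ℕ) (h : 0 < S ∧ Even S) (he : e < 2)
    (hc : c % 2 = e) :
    TopCoeff_P (extJ D J (κ, M) S c) (mono M S e h he) (Multiset.card M)
      (J κ S c * ((sgM M e : A) * ((D.h ^ (-(AA M * (S : ℤ) ^ 2)) * D.x ^ (-(AA M * (S : ℤ) * (c : ℤ))) *
          D.t ^ (-(AA M * (c : ℤ) ^ 2)) : Aˣ) : A) * D.ib S c ^ Multiset.card M)) := by
  classical
  rw [← TopCoeff_lead]
  have h1 : ∀ P : PT L, ∃ b : A,
    JP (nextD (L := L) D) (fun κ S c => MvPolynomial.C (J κ S c)) (bvar L A P) P S c *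
        (nextD (L := L) D).ib S c =
      MvPolynomial.C ((if P.s = 2 then (-1 : A) ^ e else 1) *
        ((D.h ^ (-(P.r * P.s * (S : ℤ) ^ 2)) * D.x ^ (-(P.r * P.s * (S : ℤ) * (c : ℤ))) *
          D.t ^ (-(P.r * P.s * (c : ℤ) ^ 2)) : Aˣ) : A) * D.ib S c) *
      (MvPolynomial.X (⟨P, S, if P.s = 2 then 0 else e, h.1, h.2, by split_ifs; all_goals omega, by
        intro h2; simp [h2]⟩ : Var L) + MvPolynomial.C b) := fun P =>
    TopCoeff_JP D J P S c e h.1 h.2 he hc
  choose b hb using h1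
  have h2 := TopCoeff_prod M _ b _ _ hb
  have h3 := TopCoeff_Cmul h2 (J κ S c)
  unfold extJ nextJ mono
  convert h3 using 1

theorem TopCoeff_par (s i v c : ℕ) (hv : v % 2 = (i + 1) % 2)
    (hc : c % 2 = (s * v + 1) % 2) : c % 2 = par s i := by
  unfold par
  rw [hc, Nat.add_mod, Nat.mul_mod, hv, ← Nat.mul_mod, ← Nat.add_mod]

theorem TopCoeff_proof : S_TopCoeff := by
  intro L A _ D J ϱ s S i p κ M hs hS hS2 hi h he
  have key : TopCoeff_P
      (gv (L := L.next) (nextD (L := L) D) (extJ D J) ϱ s S i p (κ, M))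
      (mono M (s * S) (par s i) h he) (Multiset.card M)
      ((sgM M (par s i) : A) * ((D.t ^ (-AA M) : Aˣ) : A) *
          gv D J (ϱ - s * AA M) s S i (p + Multiset.card M) κ) := by
    unfold gv
    rw [Finset.mul_sum]
    apply TopCoeff_sum
    intro k _
    rw [mul_sub]
    apply TopCoeff_sub
    · -- plus
      set v : ℕ := i + 1 + 2 * k with hv
      have hc : (s * v + 1) % 2 = par s i := TopCoeff_par s i v _ (by omega) rfl
      have h1 := TopCoeff_Cmul (TopCoeff_extJ D J κ M (s * S) (s * v + 1) (par s i) h he hc)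
        (((D.t ^ (ϱ * s * (v : ℤ) ^ 2 + 2 * ϱ * v) * D.h ^ (ϱ * s * (S : ℤ) ^ 2) *
          D.x ^ (ϱ * S * (s * v + 1)) : Aˣ) : A) * D.ib (s * S) (s * v + 1) ^ p)
      have hU : ((D.t ^ (ϱ * s * (v : ℤ) ^ 2 + 2 * ϱ * v) * D.h ^ (ϱ * s * (S : ℤ) ^ 2) *
          D.x ^ (ϱ * S * (s * v + 1)) : Aˣ) : A) *
          ((D.h ^ (-(AA M * ((s * S : ℕ) : ℤ) ^ 2)) *
            D.x ^ (-(AA M * ((s * S : ℕ) : ℤ) * ((s * v + 1 : ℕ) : ℤ))) *
          D.t ^ (-(AA M * ((s * v + 1 : ℕ) : ℤ) ^ 2)) : Aˣ) : A) =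
          ((D.t ^ (-AA M) : Aˣ) : A) *
          ((D.t ^ ((ϱ - s * AA M) * s * (v : ℤ) ^ 2 + 2 * (ϱ - s * AA M) * v) *
            D.h ^ ((ϱ - s * AA M) * s * (S : ℤ) ^ 2) *
            D.x ^ ((ϱ - s * AA M) * S * (s * v + 1)) : Aˣ) : A) := by
        rw [← Units.val_mul, ← Units.val_mul]
        congr 1
        apply TopCoeff_grp
        · push_cast; ring
        · push_cast; ring
        · push_cast; ring
      convert h1 using 1
      · unfold fp
        rw [TopCoeff_zt, MvPolynomial.C_mul, MvPolynomial.C_pow]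
        show _ * extJ D J (κ, M) (s * S) (s * v + 1) * MvPolynomial.C (D.ib (s * S) (s * v + 1)) ^ p = _
        ring
      · unfold fp
        rw [pow_add]
        linear_combination (-(sgM M (par s i) : A) * J κ (s * S) (s * v + 1) *
          D.ib (s * S) (s * v + 1) ^ p * D.ib (s * S) (s * v + 1) ^ Multiset.card M) * hU
    · -- minus
      set v : ℕ := i + 1 + 2 * k with hv
      have hsv : 1 ≤ s * v := Nat.mul_pos (by omega) (by omega)
      have hc : (s * v - 1) % 2 = par s i := TopCoeff_par s i v _ (by omega) (by omega)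
      have h1 := TopCoeff_Cmul (TopCoeff_extJ D J κ M (s * S) (s * v - 1) (par s i) h he hc)
        (((D.t ^ (ϱ * s * (v : ℤ) ^ 2 - 2 * ϱ * v) * D.h ^ (ϱ * s * (S : ℤ) ^ 2) *
          D.x ^ (ϱ * S * (s * v - 1)) : Aˣ) : A) * D.ib (s * S) (s * v - 1) ^ p)
      have hcast : ((s * v - 1 : ℕ) : ℤ) = (s : ℤ) * v - 1 := by
        rw [Nat.cast_sub hsv]; push_cast; ring
      have hU : ((D.t ^ (ϱ * s * (v : ℤ) ^ 2 - 2 * ϱ * v) * D.h ^ (ϱ * s * (S : ℤ) ^ 2) *
          D.x ^ (ϱ * S * (s * v - 1)) : Aˣ) : A) *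
          ((D.h ^ (-(AA M * ((s * S : ℕ) : ℤ) ^ 2)) *
            D.x ^ (-(AA M * ((s * S : ℕ) : ℤ) * ((s * v - 1 : ℕ) : ℤ))) *
          D.t ^ (-(AA M * ((s * v - 1 : ℕ) : ℤ) ^ 2)) : Aˣ) : A) =
          ((D.t ^ (-AA M) : Aˣ) : A) *
          ((D.t ^ ((ϱ - s * AA M) * s * (v : ℤ) ^ 2 - 2 * (ϱ - s * AA M) * v) *
            D.h ^ ((ϱ - s * AA M) * s * (S : ℤ) ^ 2) *
            D.x ^ ((ϱ - s * AA M) * S * (s * v - 1)) : Aˣ) : A) := by
        rw [← Units.val_mul, ← Units.val_mul, hcast]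
        congr 1
        apply TopCoeff_grp
        · ring
        · push_cast; ring
        · push_cast; ring
      convert h1 using 1
      · unfold fm
        rw [TopCoeff_zt, MvPolynomial.C_mul, MvPolynomial.C_pow]
        show _ * extJ D J (κ, M) (s * S) (s * v - 1) * MvPolynomial.C (D.ib (s * S) (s * v - 1)) ^ p = _
        ring
      · unfold fm
        rw [pow_add]
        linear_combination (-(sgM M (par s i) : A) * J κ (s * S) (s * v - 1) *
          D.ib (s * S) (s * v - 1) ^ p * D.ib (s * S) (s * v - 1) ^ Multiset.card M) * hU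
  exact ⟨key.1, fun n hn => ⟨(key.2 n hn).1, (key.2 n hn).2⟩⟩

end AJG

end

section

/-!
# MP_d3fa71_gt: item TorComb, triangularity of the torus knot classes
-/

open Polynomial

namespace AJG

/-- the sum of the indicators over all scales -/
theorem TorComb_K (ρ : ℤ) (hρ : ρ ≠ 0) (S i : ℕ) (hS : 0 < S) (hS2 : Even S) (c : ℤ) :
    ∑ k ∈ Finset.range (S / 2), ind (ρ * (S : ℤ) ^ 2)
      ((S : ℤ) * (ρ * ((i + 1 + 2 * k : ℕ) : ℤ) + c)) =
    if 2 * ρ ∣ ρ * ((i : ℤ) + 1) + c then 1 else 0 := by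
  obtain ⟨h, rfl⟩ := hS2
  have hh : 0 < h := by omega
  have hhz : (0 : ℤ) < h := by exact_mod_cast hh
  have hS' : (h + h) / 2 = h := by omega
  have hSz : (((h + h : ℕ) : ℤ)) = 2 * h := by push_cast; ring
  have key : ∀ X : ℤ, (ρ * (((h + h : ℕ) : ℤ)) ^ 2 ∣ ((h + h : ℕ) : ℤ) * X ↔ 2 * ρ * h ∣ X) := by
    intro X
    rw [hSz]
    have e1 : ρ * (2 * (h : ℤ)) ^ 2 = (2 * h) * (2 * ρ * h) := by ring
    rw [e1]
    exact mul_dvd_mul_iff_left (by positivity)
  rw [hS']
  split_ifs with hd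
  · obtain ⟨j, hj⟩ := hd
    have hk : ∀ k : ℕ, ind (ρ * (((h + h : ℕ) : ℤ)) ^ 2)
        (((h + h : ℕ) : ℤ) * (ρ * ((i + 1 + 2 * k : ℕ) : ℤ) + c)) =
        if (h : ℤ) ∣ j + k then 1 else 0 := by
      intro k
      unfold ind
      have e2 : ρ * ((i + 1 + 2 * k : ℕ) : ℤ) + c = 2 * ρ * (j + k) := by
        push_cast
        linear_combination hj
      have e3 : (2 * ρ * (h : ℤ) ∣ 2 * ρ * (j + k)) ↔ (h : ℤ) ∣ j + k :=
        mul_dvd_mul_iff_left (mul_ne_zero two_ne_zero hρ)
      refine if_congr ?_ rfl rfl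
      rw [key, e2]
      exact e3
    simp only [hk]
    have hm0 : 0 ≤ (-j) % (h : ℤ) := Int.emod_nonneg _ hhz.ne'
    have hm1 : (-j) % (h : ℤ) < h := Int.emod_lt_of_pos _ hhz
    obtain ⟨k0, hk0⟩ := Int.eq_ofNat_of_zero_le hm0
    have hk0' : k0 < h := by
      rw [hk0] at hm1
      exact_mod_cast hm1
    have hd0 : (h : ℤ) ∣ j + k0 := by
      have e4 := Int.emod_add_mul_ediv (-j) h
      rw [hk0] at e4
      exact ⟨-((-j) / h), by linarith⟩
    rw [Finset.sum_eq_single_of_mem k0 (Finset.mem_range.2 hk0'), if_pos hd0]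
    intro k hk hne
    rw [if_neg]
    intro hdk
    have h1 : (h : ℤ) ∣ (k : ℤ) - k0 := by
      have := dvd_sub hdk hd0
      have e5 : j + (k : ℤ) - (j + k0) = k - k0 := by ring
      rwa [e5] at this
    have h2 : |(k : ℤ) - k0| < h := by
      rw [abs_lt]
      have := Finset.mem_range.1 hk
      constructor <;> omega
    have h3 := Int.eq_zero_of_abs_lt_dvd h1 h2
    exact hne (by omega)
  · refine Finset.sum_eq_zero fun k _ => ?_
    unfold ind
    rw [if_neg]
    rw [key]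
    intro hdk
    apply hd
    have h1 : 2 * ρ ∣ ρ * ((i + 1 + 2 * k : ℕ) : ℤ) + c := (Dvd.intro _ rfl).trans hdk
    have h2 : ρ * ((i : ℤ) + 1) + c = (ρ * ((i + 1 + 2 * k : ℕ) : ℤ) + c) - 2 * ρ * k := by
      push_cast
      ring
    rw [h2]
    exact dvd_sub h1 (Dvd.intro _ rfl)

/-- the counting function on multiples of `S` -/
theorem TorComb_NT (r : ℤ) (s S i : ℕ) (hr : r ≠ 0) (hs : 0 < s) (hS : 0 < S) (hS2 : Even S)
    (a : ℤ) : NT (r * s * (S : ℤ) ^ 2) r s S i (S * a) =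
      (if 2 * (r * s) ∣ r * s * ((i : ℤ) + 1) + (r + s - a) then 1 else 0) -
      (if 2 * (r * s) ∣ r * s * ((i : ℤ) + 1) + (r - s - a) then 1 else 0) -
      (if 2 * (r * s) ∣ r * s * ((i : ℤ) + 1) + (-r + s - a) then 1 else 0) +
      (if 2 * (r * s) ∣ r * s * ((i : ℤ) + 1) + (-r - s - a) then 1 else 0) := by
  have hρ : r * (s : ℤ) ≠ 0 := mul_ne_zero hr (by exact_mod_cast hs.ne')
  rw [← TorComb_K (r * s) hρ S i hS hS2, ← TorComb_K (r * s) hρ S i hS hS2,
    ← TorComb_K (r * s) hρ S i hS hS2, ← TorComb_K (r * s) hρ S i hS hS2]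
  unfold NT
  rw [Finset.sum_add_distrib, Finset.sum_sub_distrib, Finset.sum_sub_distrib]
  congr 1
  · congr 1
    · congr 1
      · exact Finset.sum_congr rfl fun k _ => by congr 1; ring
      · exact Finset.sum_congr rfl fun k _ => by congr 1; ring
    · exact Finset.sum_congr rfl fun k _ => by congr 1; ring
  · exact Finset.sum_congr rfl fun k _ => by congr 1; ring

/-- the form of the points where the counting function does not vanish -/
theorem TorComb_form (r : ℤ) (s S i : ℕ) (hS2 : Even S) (y : ℤ)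
    (h : NT (r * s * (S : ℤ) ^ 2) r s S i y ≠ 0) :
    ∃ v α β : ℤ, (α = 1 ∨ α = -1) ∧ (β = 1 ∨ β = -1) ∧ (2 : ℤ) ∣ v - (i + 1) ∧
      y = S * (r * s * v + α * r + β * s) := by
  obtain ⟨k, -, hk⟩ := Finset.exists_ne_zero_of_sum_ne_zero h
  have hSd : (2 : ℤ) ∣ (S : ℤ) := by
    obtain ⟨m, hm⟩ := hS2
    exact ⟨m, by rw [hm]; push_cast; ring⟩
  -- conclusion from one divisibility
  have key : ∀ α β : ℤ, (α = 1 ∨ α = -1) → (β = 1 ∨ β = -1) →
      r * s * (S : ℤ) ^ 2 ∣ r * S * (s * ((i + 1 + 2 * k : ℕ) : ℤ) + α) + β * (s * S) - y →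
      ∃ v α β : ℤ, (α = 1 ∨ α = -1) ∧ (β = 1 ∨ β = -1) ∧ (2 : ℤ) ∣ v - (i + 1) ∧
      y = S * (r * s * v + α * r + β * s) := by
    rintro α β hα hβ ⟨t, ht⟩
    refine ⟨((i + 1 + 2 * k : ℕ) : ℤ) - S * t, α, β, hα, hβ, ?_, ?_⟩
    · have e1 : ((i + 1 + 2 * k : ℕ) : ℤ) - S * t - (i + 1) = 2 * k - S * t := by
        push_cast
        ring
      rw [e1]
      exact dvd_sub (Dvd.intro _ rfl) (hSd.mul_right t)
    · linear_combination -ht
  by_contra hcon
  apply hk
  have z : ∀ α β : ℤ, (α = 1 ∨ α = -1) → (β = 1 ∨ β = -1) →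
      ind (r * s * (S : ℤ) ^ 2)
        (r * S * (s * ((i + 1 + 2 * k : ℕ) : ℤ) + α) + β * (s * S) - y) = 0 := by
    intro α β hα hβ
    unfold ind
    rw [if_neg]
    intro hd
    exact hcon (key α β hα hβ hd)
  have z1 := z 1 1 (Or.inl rfl) (Or.inl rfl)
  have z2 := z 1 (-1) (Or.inl rfl) (Or.inr rfl)
  have z3 := z (-1) 1 (Or.inr rfl) (Or.inl rfl)
  have z4 := z (-1) (-1) (Or.inr rfl) (Or.inr rfl)
  have e1 : r * S * (s * ((i + 1 + 2 * k : ℕ) : ℤ) + 1) + s * S - y =
      r * S * (s * ((i + 1 + 2 * k : ℕ) : ℤ) + 1) + 1 * (s * S) - y := by ring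
  have e2 : r * S * (s * ((i + 1 + 2 * k : ℕ) : ℤ) + 1) - s * S - y =
      r * S * (s * ((i + 1 + 2 * k : ℕ) : ℤ) + 1) + -1 * (s * S) - y := by ring
  have e3 : r * S * (s * ((i + 1 + 2 * k : ℕ) : ℤ) - 1) + s * S - y =
      r * S * (s * ((i + 1 + 2 * k : ℕ) : ℤ) + -1) + 1 * (s * S) - y := by ring
  have e4 : r * S * (s * ((i + 1 + 2 * k : ℕ) : ℤ) - 1) - s * S - y =
      r * S * (s * ((i + 1 + 2 * k : ℕ) : ℤ) + -1) + -1 * (s * S) - y := by ring
  rw [e1, e2, e3, e4, z1, z2, z3, z4]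
  norm_num

/-- the same with the absolute value of `r` -/
theorem TorComb_form' (r : ℤ) (s S i : ℕ) (hS2 : Even S) (y : ℤ)
    (h : NT (r * s * (S : ℤ) ^ 2) r s S i y ≠ 0) :
    ∃ v α β : ℤ, (α = 1 ∨ α = -1) ∧ (β = 1 ∨ β = -1) ∧ (2 : ℤ) ∣ v - (i + 1) ∧
      y = S * (|r| * s * v + α * |r| + β * s) := by
  obtain ⟨v, α, β, hα, hβ, hv, hy⟩ := TorComb_form r s S i hS2 y h
  rcases abs_choice r with hr | hr
  · exact ⟨v, α, β, hα, hβ, hv, by rw [hr]; exact hy⟩
  · refine ⟨-v, -α, β, ?_, hβ, ?_, ?_⟩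
    · rcases hα with h | h
      · right; rw [h]
      · left; rw [h]; norm_num
    · have e : -v - ((i : ℤ) + 1) = -(v - (i + 1)) - 2 * (i + 1) := by ring
      rw [e]
      exact dvd_sub (dvd_neg.2 hv) (Dvd.intro _ rfl)
    · rw [hr, hy]
      ring

/-- different scales are disjoint -/
theorem TorComb_scale (S S' : ℕ) (hS : 0 < S) (hS' : 0 < S') (a a' R R' : ℤ)
    (h1 : (S : ℤ) * a = S' * a') (h2 : R * (S : ℤ) ^ 2 = R' * (S' : ℤ) ^ 2)
    (hc : IsCoprime a R) (hc' : IsCoprime a' R') : S = S' := by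
  obtain ⟨g, m, n, hg, hmn, rfl, rfl⟩ := Nat.exists_coprime' (m := S) (n := S')
    (Nat.gcd_pos_of_pos_left _ hS)
  have hgz : (g : ℤ) ≠ 0 := by exact_mod_cast hg.ne'
  have hmnz : IsCoprime (m : ℤ) (n : ℤ) := Nat.isCoprime_iff_coprime.2 hmn
  have e1 : (m : ℤ) * a = n * a' := by
    apply mul_left_cancel₀ hgz
    push_cast at h1
    linear_combination h1
  have e2 : R * (m : ℤ) ^ 2 = R' * (n : ℤ) ^ 2 := by
    apply mul_left_cancel₀ (pow_ne_zero 2 hgz)
    push_cast at h2
    linear_combination h2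
  have hn : n = 1 := by
    have d1 : (n : ℤ) ∣ a := hmnz.symm.dvd_of_dvd_mul_left ⟨a', e1⟩
    have d2 : (n : ℤ) ∣ R := by
      refine (hmnz.symm.pow_right (n := 2)).dvd_of_dvd_mul_right ⟨R' * n, ?_⟩
      rw [e2]
      ring
    have d3 : IsUnit (n : ℤ) := hc.isUnit_of_dvd' d1 d2
    rcases Int.isUnit_iff.1 d3 with h | h
    · exact_mod_cast h
    · omega
  have hm : m = 1 := by
    have d1 : (m : ℤ) ∣ a' := hmnz.dvd_of_dvd_mul_left ⟨a, e1.symm⟩
    have d2 : (m : ℤ) ∣ R' := by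
      refine (hmnz.pow_right (n := 2)).dvd_of_dvd_mul_right ⟨R * m, ?_⟩
      rw [← e2]
      ring
    have d3 : IsUnit (m : ℤ) := hc'.isUnit_of_dvd' d1 d2
    rcases Int.isUnit_iff.1 d3 with h | h
    · exact_mod_cast h
    · omega
  rw [hn, hm]

/-- coprimality -/
theorem TorComb_cop {P s : ℤ} (h : IsCoprime P s) (v : ℤ) {α β : ℤ} (hα : α = 1 ∨ α = -1)
    (hβ : β = 1 ∨ β = -1) : IsCoprime (P * s * v + α * P + β * s) (P * s) := by
  have hα2 : α * α = 1 := by rcases hα with h | h <;> rw [h] <;> norm_num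
  have hβ2 : β * β = 1 := by rcases hβ with h | h <;> rw [h] <;> norm_num
  have h1 : IsCoprime (P * s * v + α * P + β * s) P := by
    obtain ⟨u, w, huw⟩ := h
    refine ⟨w * β, u - w * β * (s * v + α), ?_⟩
    linear_combination huw + w * s * hβ2
  have h2 : IsCoprime (P * s * v + α * P + β * s) s := by
    obtain ⟨u, w, huw⟩ := h
    refine ⟨u * α, w - u * α * (P * v + β), ?_⟩
    linear_combination huw + u * P * hα2
  exact h1.mul_right h2

/-- `P + s < P s` -/
theorem TorComb_lt {P s : ℤ} (hs : 2 ≤ s) (hP : s < P) : P + s < P * s := by nlinarith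

/-- comparison, same kind -/
theorem TorComb_same {P s P' s' u α β : ℤ} (hs : 2 ≤ s) (hP : s < P) (hs' : 2 ≤ s')
    (hP' : s' < P') (hR : P * s = P' * s') (hα : α = 1 ∨ α = -1) (hβ : β = 1 ∨ β = -1)
    (h : P - s = 2 * (P' * s') * u + α * P' + β * s') : P - s = P' - s' ∨ P - s = P' + s' := by
  have h1 := TorComb_lt hs hP
  have h2 := TorComb_lt hs' hP'
  have hab : |α * P' + β * s'| ≤ P' + s' := by
    rw [abs_le]
    rcases hα with rfl | rfl <;> rcases hβ with rfl | rfl <;> constructor <;> linarith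
  have hu : u = 0 := by
    by_contra hu
    have h3 : |2 * (P' * s') * u| < 2 * (P' * s') := by
      have e : 2 * (P' * s') * u = (P - s) - (α * P' + β * s') := by linarith
      rw [e]
      have := abs_le.1 hab
      rw [abs_lt]
      constructor <;> linarith
    have h4 := Int.eq_zero_of_abs_lt_dvd (Dvd.intro _ rfl) h3
    have h5 : 2 * (P' * s') ≠ 0 := by
      have : 0 < P' * s' := by linarith
      positivity
    exact hu ((mul_eq_zero.1 h4).resolve_left h5)
  rw [hu, mul_zero, zero_add] at h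
  rcases hα with rfl | rfl <;> rcases hβ with rfl | rfl
  · right; linarith
  · left; linarith
  · exfalso; linarith
  · exfalso; linarith

theorem TorComb_eq {P s P' s' : ℤ} (hs : 2 ≤ s) (hP' : s' < P') (hs' : 2 ≤ s')
    (hR : P * s = P' * s') (h : P - s = P' - s') : P = P' ∧ s = s' := by
  have h1 : (s - s') * (P' + s) = 0 := by
    have : P = P' - s' + s := by linarith
    rw [this] at hR
    linear_combination hR
  have h2 : s = s' := by
    rcases mul_eq_zero.1 h1 with h | h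
    · linarith
    · exfalso; linarith
  exact ⟨by linarith, h2⟩

/-- comparison, different kinds -/
theorem TorComb_diff {P s P' s' u α β : ℤ} (hs : 2 ≤ s) (hP : s < P) (hs' : 3 ≤ s')
    (hP' : s' < P') (hR : P * s = P' * s') (hα : α = 1 ∨ α = -1) (hβ : β = 1 ∨ β = -1)
    (h : P - s = P' * s' * (2 * u + 1) + α * P' + β * s') : False := by
  have hab : |α * P' + β * s'| ≤ P' + s' := by
    rw [abs_le]
    rcases hα with rfl | rfl <;> rcases hβ with rfl | rfl <;> constructor <;> linarith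
  have h1 : 2 * (P - s) ≤ P' * s' - 4 := by
    rw [← hR]
    nlinarith
  have h2 : 3 * (P' + s') ≤ P' * s' + 9 := by nlinarith
  have h3 : 12 ≤ P' * s' := by nlinarith
  have hb := abs_le.1 hab
  have e : P' * s' * (2 * u + 1) = (P - s) - (α * P' + β * s') := by linarith
  have h4 : P' * s' * (2 * u + 1) < P' * s' := by linarith
  have h5 : -(P' * s') < P' * s' * (2 * u + 1) := by linarith
  have hp : 0 < P' * s' := by linarith
  have h6 : 2 * u + 1 < 1 := by
    by_contra hc
    push Not at hc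
    nlinarith
  have h7 : -1 < 2 * u + 1 := by
    by_contra hc
    push Not at hc
    nlinarith
  omega

/-- the value at the own point, in terms of `P = |r|` -/
theorem TorComb_own (r : ℤ) (s i : ℕ) (a : ℤ) :
    (if 2 * (r * s) ∣ r * s * ((i : ℤ) + 1) + (r + s - a) then (1 : ℤ) else 0) -
      (if 2 * (r * s) ∣ r * s * ((i : ℤ) + 1) + (r - s - a) then 1 else 0) -
      (if 2 * (r * s) ∣ r * s * ((i : ℤ) + 1) + (-r + s - a) then 1 else 0) +
      (if 2 * (r * s) ∣ r * s * ((i : ℤ) + 1) + (-r - s - a) then 1 else 0) =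
    (if 0 ≤ r then 1 else -1) * (
      (if 2 * (|r| * s) ∣ |r| * s * ((i : ℤ) + 1) + (|r| + s - a) then (1 : ℤ) else 0) -
      (if 2 * (|r| * s) ∣ |r| * s * ((i : ℤ) + 1) + (|r| - s - a) then 1 else 0) -
      (if 2 * (|r| * s) ∣ |r| * s * ((i : ℤ) + 1) + (-|r| + s - a) then 1 else 0) +
      (if 2 * (|r| * s) ∣ |r| * s * ((i : ℤ) + 1) + (-|r| - s - a) then 1 else 0)) := by
  by_cases hr : 0 ≤ r
  · rw [abs_of_nonneg hr, if_pos hr, one_mul]
  · rw [if_neg hr, abs_of_neg (not_le.1 hr)]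
    have key : ∀ c : ℤ, (2 * (-r * (s : ℤ)) ∣ -r * s * ((i : ℤ) + 1) + c) ↔
        (2 * (r * (s : ℤ)) ∣ r * s * ((i : ℤ) + 1) + c) := by
      intro c
      have e1 : 2 * (-r * (s : ℤ)) = -(2 * (r * s)) := by ring
      rw [e1, neg_dvd]
      have e2 : -r * (s : ℤ) * ((i : ℤ) + 1) + c =
          (r * s * ((i : ℤ) + 1) + c) - 2 * (r * s) * ((i : ℤ) + 1) := by ring
      rw [e2]
      constructor
      · intro h
        have := dvd_add h (Dvd.intro ((i : ℤ) + 1) rfl : 2 * (r * (s : ℤ)) ∣ 2 * (r * s) * (i + 1))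
        rwa [sub_add_cancel] at this
      · intro h
        exact dvd_sub h (Dvd.intro _ rfl)
    simp only [key]
    have f1 : (-r + (s : ℤ) - a) = (-r + s - a) := rfl
    have f2 : -(-r) + (s : ℤ) - a = r + s - a := by ring
    have f3 : -(-r) - (s : ℤ) - a = r - s - a := by ring
    rw [f2, f3]
    ring

theorem TorComb_nd {M x : ℤ} (h0 : x ≠ 0) (h : |x| < M) : ¬ M ∣ x := fun hd =>
  h0 (Int.eq_zero_of_abs_lt_dvd hd h)

theorem TorComb_proof : S_TorComb := by
  intro w
  have hs : (2 : ℤ) ≤ w.s := by exact_mod_cast w.hs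
  have hP := w.hr
  have hr0 : w.r ≠ 0 := by
    intro h0
    rw [h0, abs_zero] at hP
    linarith
  have hlt := TorComb_lt hs hP
  have hcoP : IsCoprime |w.r| (w.s : ℤ) := by
    rcases abs_choice w.r with h | h
    · rw [h]; exact w.hco
    · rw [h]; exact w.hco.neg_left
  constructor
  · -- the own value
    unfold Tor.E Tor.y
    split_ifs with hk
    · rw [TorComb_NT w.r w.s w.S w.i hr0 (by have := w.hs; omega) w.hS w.hS2, TorComb_own]
      refine mul_ne_zero (by split_ifs <;> norm_num) ?_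
      rcases hk with hi | h2
      · -- `i = 1`
        have e : ∀ c : ℤ, (2 * (|w.r| * (w.s : ℤ)) ∣ |w.r| * w.s * ((w.i : ℤ) + 1) + c) ↔
            (2 * (|w.r| * (w.s : ℤ)) ∣ c) := by
          intro c
          have : |w.r| * (w.s : ℤ) * ((w.i : ℤ) + 1) = 2 * (|w.r| * (w.s : ℤ)) := by
            rw [hi]; push_cast; ring
          rw [this]
          exact dvd_add_right (dvd_refl _)
        simp only [e]
        rw [if_neg, if_pos, if_neg, if_neg]
        · norm_num
        · refine TorComb_nd (by intro h; linarith) ?_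
          rw [abs_lt]
          constructor <;> linarith
        · refine TorComb_nd (by intro h; linarith) ?_
          rw [abs_lt]
          constructor <;> linarith
        · have : |w.r| - (w.s : ℤ) - (|w.r| - w.s) = 0 := by ring
          rw [this]
          exact dvd_zero _
        · refine TorComb_nd (by intro h; linarith) ?_
          rw [abs_lt]
          constructor <;> linarith
      · -- `s = 2`
        have hi0 := w.h2 h2
        have hsz : (w.s : ℤ) = 2 := by exact_mod_cast h2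
        rw [hi0, hsz]
        rw [hsz] at hP
        rw [if_neg, if_neg, if_neg, if_pos]
        · norm_num
        · have : |w.r| * 2 * (((0 : ℕ) : ℤ) + 1) + (-|w.r| - 2 - (|w.r| - 2)) = 0 := by
            push_cast; ring
          rw [this]
          exact dvd_zero _
        · refine TorComb_nd (by intro h; push_cast at h; linarith) ?_
          rw [abs_lt]
          push_cast
          constructor <;> linarith
        · refine TorComb_nd (by intro h; push_cast at h; linarith) ?_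
          rw [abs_lt]
          push_cast
          constructor <;> linarith
        · refine TorComb_nd (by intro h; push_cast at h; linarith) ?_
          rw [abs_lt]
          push_cast
          constructor <;> linarith
    · rw [TorComb_NT w.r w.s w.S w.i hr0 (by have := w.hs; omega) w.hS w.hS2, TorComb_own]
      refine mul_ne_zero (by split_ifs <;> norm_num) ?_
      push Not at hk
      have hi0 : w.i = 0 := by
        have := w.hi
        omega
      rw [hi0]
      rw [if_neg, if_pos, if_neg, if_neg]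
      · norm_num
      · refine TorComb_nd (by intro h; push_cast at h; linarith) ?_
        rw [abs_lt]
        push_cast
        constructor <;> linarith
      · refine TorComb_nd (by intro h; push_cast at h; linarith) ?_
        rw [abs_lt]
        push_cast
        constructor <;> linarith
      · have : |w.r| * (w.s : ℤ) * (((0 : ℕ) : ℤ) + 1) + (|w.r| - w.s - (|w.r| * w.s + |w.r| - w.s))
            = 0 := by push_cast; ring
        rw [this]
        exact dvd_zero _
      · refine TorComb_nd (by intro h; push_cast at h; linarith) ?_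
        rw [abs_lt]
        push_cast
        constructor <;> linarith
  · intro w' hE hNT hne
    have hs' : (2 : ℤ) ≤ w'.s := by exact_mod_cast w'.hs
    have hP' := w'.hr
    have hlt' := TorComb_lt hs' hP'
    have hcoP' : IsCoprime |w'.r| (w'.s : ℤ) := by
      rcases abs_choice w'.r with h | h
      · rw [h]; exact w'.hco
      · rw [h]; exact w'.hco.neg_left
    rw [← hE] at hNT
    obtain ⟨v', α, β, hα, hβ, hv', hy⟩ := TorComb_form' w'.r w'.s w'.S w'.i w'.hS2 w.y hNT
    -- the own point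
    have hya : ∃ v : ℤ, w.y = w.S * (|w.r| * w.s * v + 1 * |w.r| + (-1) * w.s) ∧
        ((w.i = 1 ∨ w.s = 2) → v = 0) ∧ (¬ (w.i = 1 ∨ w.s = 2) → v = 1) := by
      unfold Tor.y
      split_ifs with hk
      · exact ⟨0, by ring, fun _ => rfl, fun h => absurd hk h⟩
      · exact ⟨1, by ring, fun h => absurd h hk, fun _ => rfl⟩
    obtain ⟨v, hyv, hv0, hv1⟩ := hya
    have habs : |w.r| * (w.s : ℤ) * (w.S : ℤ) ^ 2 = |w'.r| * w'.s * (w'.S : ℤ) ^ 2 := by
      have h1 := congrArg abs hE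
      unfold Tor.E at h1
      rw [abs_mul, abs_mul, abs_mul, abs_mul, Nat.abs_cast, Nat.abs_cast, abs_pow, abs_pow,
        Nat.abs_cast, Nat.abs_cast] at h1
      exact h1.symm
    have hSS : w.S = w'.S := TorComb_scale w.S w'.S w.hS w'.hS _ _ _ _ (hyv.symm.trans hy) habs
      (TorComb_cop hcoP v (Or.inl rfl) (Or.inr rfl)) (TorComb_cop hcoP' v' hα hβ)
    have hSz : (w.S : ℤ) ≠ 0 := by exact_mod_cast w.hS.ne'
    have hR : |w.r| * (w.s : ℤ) = |w'.r| * w'.s := by
      rw [← hSS] at habs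
      exact mul_right_cancel₀ (pow_ne_zero 2 hSz) habs
    have ha : |w.r| * w.s * v + 1 * |w.r| + (-1) * w.s = |w'.r| * w'.s * v' + α * |w'.r| +
        β * w'.s := by
      have := hyv.symm.trans hy
      rw [← hSS] at this
      exact mul_left_cancel₀ hSz this
    have hSpos : (1 : ℤ) ≤ (w.S : ℤ) ^ 2 := by
      have : (1 : ℤ) ≤ w.S := by exact_mod_cast w.hS
      nlinarith
    have hEabs : |w.E| = |w.r| * w.s * (w.S : ℤ) ^ 2 := by
      unfold Tor.E
      rw [abs_mul, abs_mul, Nat.abs_cast, abs_pow, Nat.abs_cast]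
    -- equality of the parameters
    have heq : |w.r| = |w'.r| → (w.s : ℤ) = w'.s → w.i = w'.i → w' = w := by
      intro h1 h2 h3
      have h4 : w.s = w'.s := by exact_mod_cast h2
      have h5 : w.r = w'.r := by
        unfold Tor.E at hE
        rw [← hSS, ← h4] at hE
        have h6 := mul_right_cancel₀ (pow_ne_zero 2 hSz) hE
        have h7 : (w.s : ℤ) ≠ 0 := by linarith
        exact (mul_right_cancel₀ h7 h6).symm
      cases w
      cases w'
      simp only at h3 h4 h5 hSS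
      subst h3 h4 h5 hSS
      rfl
    -- the parity of `v'`
    have hkind' : (w'.i = 1 ∨ w'.s = 2) → ∃ u α' β' : ℤ, (α' = 1 ∨ α' = -1) ∧
        (β' = 1 ∨ β' = -1) ∧ |w'.r| * w'.s * v' + α * |w'.r| + β * w'.s =
          2 * (|w'.r| * w'.s) * u + α' * |w'.r| + β' * w'.s := by
      rintro (hi | h2)
      · obtain ⟨q, hq⟩ := hv'
        refine ⟨q + 1, α, β, hα, hβ, ?_⟩
        have : v' = 2 * (q + 1) := by
          rw [hi] at hq
          push_cast at hq
          linarith
        rw [this]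
        ring
      · have hi0 := w'.h2 h2
        obtain ⟨q, hq⟩ := hv'
        rw [hi0] at hq
        push_cast at hq
        have h2z : (w'.s : ℤ) = 2 := by exact_mod_cast h2
        have hv'' : v' = 2 * q + 1 := by linarith
        rw [h2z, hv'']
        rcases hα with rfl | rfl
        · exact ⟨q + 1, -1, β, Or.inr rfl, hβ, by ring⟩
        · exact ⟨q, 1, β, Or.inl rfl, hβ, by ring⟩
    by_cases hk : w.i = 1 ∨ w.s = 2
    · have hv := hv0 hk
      rw [hv, mul_zero, zero_add] at ha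
      by_cases hk' : w'.i = 1 ∨ w'.s = 2
      · obtain ⟨u, α', β', hα', hβ', hu⟩ := hkind' hk'
        rw [hu] at ha
        have hcmp := TorComb_same (u := u) hs hP hs' hP' hR hα' hβ' (by linarith)
        unfold Tor.rk
        rw [if_pos hk', if_pos hk]
        rcases hcmp with h | h
        · exfalso
          obtain ⟨h1, h2⟩ := TorComb_eq hs hP' hs' hR h
          apply hne
          apply heq h1 h2
          have h3 : w.s = w'.s := by exact_mod_cast h2
          have := w.h2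
          have := w'.h2
          omega
        · linarith
      · exfalso
        have hs3 : (3 : ℤ) ≤ w'.s := by
          have := w'.hs
          push Not at hk'
          have : 3 ≤ w'.s := by omega
          exact_mod_cast this
        have hi0 : w'.i = 0 := by
          have := w'.hi
          omega
        obtain ⟨q, hq⟩ := hv'
        rw [hi0] at hq
        push_cast at hq
        have hv'' : v' = 2 * q + 1 := by linarith
        rw [hv''] at ha
        exact TorComb_diff (u := q) hs hP hs3 hP' hR hα hβ (by linarith)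
    · have hv := hv1 hk
      rw [hv] at ha
      by_cases hk' : w'.i = 1 ∨ w'.s = 2
      · unfold Tor.rk
        rw [if_pos hk', if_neg hk, hEabs, hR]
        have hp : 0 < |w'.r| * (w'.s : ℤ) := by linarith
        nlinarith
      · have hi0' : w'.i = 0 := by
          have := w'.hi
          omega
        have hi0 : w.i = 0 := by
          have := w.hi
          omega
        obtain ⟨q, hq⟩ := hv'
        rw [hi0'] at hq
        push_cast at hq
        have hv'' : v' = 2 * q + 1 := by linarith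
        rw [hv''] at ha
        have hcmp := TorComb_same (u := q) hs hP hs' hP' hR hα hβ (by
          rw [hR] at ha
          linarith)
        unfold Tor.rk
        rw [if_neg hk', if_neg hk, hE]
        rcases hcmp with h | h
        · exfalso
          obtain ⟨h1, h2⟩ := TorComb_eq hs hP' hs' hR h
          exact hne (heq h1 h2 (hi0.trans hi0'.symm))
        · linarith

end AJG

end
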