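import Mathlib
import Pool.Agent.Work.MP_d3fa71_gt.StmtsC
import Pool.Agent.Work.MP_d3fa71_gt.StmtsB

/-! Bundle of small proof modules (one section per former module). -/

section

/-! MP_d3fa71_gt, item BaseConst: the constants of the base level. -/

open Polynomial

namespace AJG

theorem BaseConst_sq {k : Type} [Field k] (q : k) (hq : q ≠ 0) (p : Polynomial k) :
    sq q hq (algebraMap (Polynomial k) (RatFunc k) p) =
      algebraMap (Polynomial k) (RatFunc k) (p.comp (C q * X)) := by
  unfold sq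
  rw [RatFunc.coe_mapRingHom_eq_coe_map]
  have h := RatFunc.map_apply_div (Polynomial.eval₂RingHom Polynomial.C (C q * X)) (by
    intro p hp
    rw [Submonoid.mem_comap]
    refine mem_nonZeroDivisors_of_ne_zero ?_
    have hp0 : p ≠ 0 := nonZeroDivisors.ne_zero hp
    intro h
    apply hp0
    have h1 : p.comp (Polynomial.C q * Polynomial.X) = 0 := h
    have h2 := congrArg (fun r => Polynomial.comp r (Polynomial.C q⁻¹ * Polynomial.X)) h1
    simp only [Polynomial.comp_assoc, Polynomial.mul_comp, Polynomial.C_comp, Polynomial.X_comp,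
      Polynomial.zero_comp] at h2
    rw [← mul_assoc, ← Polynomial.C_mul, mul_inv_cancel₀ hq, Polynomial.C_1, one_mul,
      Polynomial.comp_X] at h2
    exact h2) p 1
  simp only [map_one, div_one] at h
  exact h

theorem BaseConst_natDegree {k : Type} [Field k] (q : k) (hq : q ≠ 0) (p : Polynomial k) :
    (p.comp (C q * X)).natDegree = p.natDegree := by
  rw [natDegree_comp, natDegree_C_mul_X _ hq, mul_one]

theorem BaseConst_comp_ne {k : Type} [Field k] (q : k) (hq : q ≠ 0) {p : Polynomial k}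
    (hp : p ≠ 0) : p.comp (C q * X) ≠ 0 := by
  intro h
  rw [comp_eq_zero_iff] at h
  rcases h with h | ⟨-, h⟩
  · exact hp h
  · have := congrArg natDegree h
    rw [natDegree_C_mul_X _ hq, natDegree_C] at this
    exact one_ne_zero this

theorem BaseConst_intDegree {k : Type} [Field k] (q : k) (hq : q ≠ 0) (f : RatFunc k)
    (hf : f ≠ 0) : (sq q hq f).intDegree = f.intDegree := by
  have hn : f.num ≠ 0 := RatFunc.num_ne_zero hf
  have hd : f.denom ≠ 0 := RatFunc.denom_ne_zero f
  have inj := RatFunc.algebraMap_injective k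
  have h1 : sq q hq f = algebraMap (Polynomial k) (RatFunc k) (f.num.comp (C q * X)) /
      algebraMap (Polynomial k) (RatFunc k) (f.denom.comp (C q * X)) := by
    conv_lhs => rw [← RatFunc.num_div_denom f]
    rw [map_div₀, BaseConst_sq, BaseConst_sq]
  have h2 : algebraMap (Polynomial k) (RatFunc k) (f.num.comp (C q * X)) ≠ 0 := by
    rw [Ne, map_eq_zero_iff _ inj]
    exact BaseConst_comp_ne q hq hn
  have h3 : algebraMap (Polynomial k) (RatFunc k) (f.denom.comp (C q * X)) ≠ 0 := by
    rw [Ne, map_eq_zero_iff _ inj]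
    exact BaseConst_comp_ne q hq hd
  rw [h1, RatFunc.intDegree_div h2 h3, RatFunc.intDegree_polynomial, RatFunc.intDegree_polynomial,
    BaseConst_natDegree q hq, BaseConst_natDegree q hq]
  rfl

/-- fixed rational functions are constant if `q` is not a root of unity -/
theorem BaseConst_fixed {k : Type} [Field k] (q : k) (hq : q ≠ 0)
    (hinj : Function.Injective (fun n : ℕ => q ^ n)) (f : RatFunc k) (hf : sq q hq f = f) :
    ∃ c : k, f = RatFunc.C c := by
  have hd : f.denom ≠ 0 := RatFunc.denom_ne_zero f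
  have inj := RatFunc.algebraMap_injective k
  have hd' : algebraMap (Polynomial k) (RatFunc k) f.denom ≠ 0 := by
    rw [Ne, map_eq_zero_iff _ inj]; exact hd
  have h3 : algebraMap (Polynomial k) (RatFunc k) (f.denom.comp (C q * X)) ≠ 0 := by
    rw [Ne, map_eq_zero_iff _ inj]
    exact BaseConst_comp_ne q hq hd
  have h1 : algebraMap (Polynomial k) (RatFunc k) (f.num.comp (C q * X)) /
      algebraMap (Polynomial k) (RatFunc k) (f.denom.comp (C q * X)) =
      algebraMap (Polynomial k) (RatFunc k) f.num / algebraMap (Polynomial k) (RatFunc k) f.denom := by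
    rw [RatFunc.num_div_denom f]
    conv_rhs => rw [← hf, ← RatFunc.num_div_denom f]
    rw [map_div₀, BaseConst_sq, BaseConst_sq]
  rw [div_eq_div_iff h3 hd', ← map_mul, ← map_mul] at h1
  have h2 : f.num.comp (C q * X) * f.denom = f.num * f.denom.comp (C q * X) := inj h1
  have hval : ∀ n : ℕ, f.num.eval (q ^ (n + 1)) * f.denom.eval (q ^ n) =
      f.num.eval (q ^ n) * f.denom.eval (q ^ (n + 1)) := by
    intro n
    have h4 := congrArg (Polynomial.eval (q ^ n)) h2
    rw [eval_mul, eval_mul, eval_comp, eval_comp, eval_mul, eval_C, eval_X, ← pow_succ'] at h4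
    exact h4
  have hfin : {n : ℕ | f.denom.IsRoot (q ^ n)}.Finite := by
    have h1 : {x | f.denom.IsRoot x}.Finite := Polynomial.finite_setOfPred_isRoot hd
    exact h1.preimage hinj.injOn
  obtain ⟨B, hB⟩ := hfin.bddAbove
  have hne : ∀ n, B + 1 ≤ n → f.denom.eval (q ^ n) ≠ 0 := by
    intro n hn h0
    have := hB (show n ∈ {n : ℕ | f.denom.IsRoot (q ^ n)} from h0)
    omega
  obtain ⟨c, hc⟩ : ∃ c : k, c = f.num.eval (q ^ (B + 1)) / f.denom.eval (q ^ (B + 1)) := ⟨_, rfl⟩
  have hall : ∀ n, B + 1 ≤ n → f.num.eval (q ^ n) = c * f.denom.eval (q ^ n) := by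
    intro n hn
    induction n, hn using Nat.le_induction with
    | base => rw [hc, div_mul_cancel₀ _ (hne _ le_rfl)]
    | succ n hn ih =>
      have h5 := hval n
      rw [ih] at h5
      have h6 := hne n hn
      apply mul_right_cancel₀ h6
      rw [h5]
      ring
  have hpoly : f.num - C c * f.denom = 0 := by
    by_contra hne0
    have h1 : {x | (f.num - C c * f.denom).IsRoot x}.Finite :=
      Polynomial.finite_setOfPred_isRoot hne0
    have h7 : {n : ℕ | (f.num - C c * f.denom).IsRoot (q ^ n)}.Finite := h1.preimage hinj.injOn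
    obtain ⟨B', hB'⟩ := h7.bddAbove
    have h8 : (B + B' + 1) ∈ {n : ℕ | (f.num - C c * f.denom).IsRoot (q ^ n)} := by
      show (f.num - C c * f.denom).eval (q ^ (B + B' + 1)) = 0
      rw [eval_sub, eval_mul, eval_C, hall _ (by omega), sub_self]
    have := hB' h8
    omega
  refine ⟨c, ?_⟩
  rw [← RatFunc.num_div_denom f, sub_eq_zero.1 hpoly, map_mul, RatFunc.algebraMap_C,
    mul_div_assoc, div_self, mul_one]
  rw [Ne, map_eq_zero_iff _ inj]
  exact hd

theorem BaseConst_pow_inj : Function.Injective (fun n : ℕ => ((t ^ 2) ^ n : FF)) := by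
  intro n m hnm
  have h1 : algebraMap ℚ[X] (RatFunc ℚ) (X ^ (2 * n)) = algebraMap ℚ[X] (RatFunc ℚ) (X ^ (2 * m)) := by
    rw [map_pow, map_pow, RatFunc.algebraMap_X, pow_mul, pow_mul]
    exact hnm
  have h2 := congrArg natDegree (RatFunc.algebraMap_injective ℚ h1)
  rw [natDegree_X_pow, natDegree_X_pow] at h2
  omega

theorem BaseConst_coeff (a : A0) (j : ℤ) :
    (s0 a).coeff j = sK (a.coeff j) * (tK ^ j * xK ^ j) := by
  induction a using LaurentPolynomial.induction_on' with
  | add p q hp hq =>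
    rw [map_add, AddMonoidAlgebra.coeff_add, AddMonoidAlgebra.coeff_add, Finsupp.add_apply,
      Finsupp.add_apply, hp, hq, map_add, add_mul]
  | C_mul_T n a =>
    have h1 : s0 (LaurentPolynomial.C a * LaurentPolynomial.T n) =
        LaurentPolynomial.C (sK a * (tK ^ n * xK ^ n)) * LaurentPolynomial.T n := by
      unfold s0
      rw [LaurentPolynomial.eval₂_C_mul_T]
      have h2 : (((D0.t * D0.x * D0.h) ^ n : A0ˣ) : A0) =
          LaurentPolynomial.C (tK ^ n * xK ^ n) * LaurentPolynomial.T n := by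
        have e1 : D0.t ^ n = Units.map (LaurentPolynomial.C (R := KK)).toMonoidHom
            ((Units.mk0 tK tK_ne) ^ n) := by
          rw [map_zpow]; rfl
        have e2 : D0.x ^ n = Units.map (LaurentPolynomial.C (R := KK)).toMonoidHom
            ((Units.mk0 xK xK_ne) ^ n) := by
          rw [map_zpow]; rfl
        have e3 : ((D0.h ^ n : A0ˣ) : A0) = LaurentPolynomial.T n := by
          have e4 : ∀ m : ℕ, ((D0.h ^ m : A0ˣ) : A0) = LaurentPolynomial.T m := by
            intro m
            rw [Units.val_pow_eq_pow_val]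
            show (LaurentPolynomial.T 1 : A0) ^ m = _
            rw [LaurentPolynomial.T_pow, mul_one]
          have e5 : ∀ m : ℕ, ((D0.h⁻¹ ^ m : A0ˣ) : A0) = LaurentPolynomial.T (-m) := by
            intro m
            rw [Units.val_pow_eq_pow_val]
            show (LaurentPolynomial.T (-1) : A0) ^ m = _
            rw [LaurentPolynomial.T_pow]
            congr 1
            ring
          obtain ⟨m, rfl | rfl⟩ := n.eq_nat_or_neg
          · rw [zpow_natCast]; exact e4 m
          · rw [zpow_neg, zpow_natCast, ← inv_pow]; exact e5 m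
        rw [mul_zpow, mul_zpow, Units.val_mul, Units.val_mul, e1, e2, e3, map_mul]
        congr 2
        · show LaurentPolynomial.C (((Units.mk0 tK tK_ne) ^ n : KKˣ) : KK) = _
          rw [Units.val_zpow_eq_zpow_val]; rfl
        · show LaurentPolynomial.C (((Units.mk0 xK xK_ne) ^ n : KKˣ) : KK) = _
          rw [Units.val_zpow_eq_zpow_val]; rfl
      rw [h2, ← mul_assoc, map_mul (LaurentPolynomial.C (R := KK)) (sK a)]
      rfl
    rw [h1, ← LaurentPolynomial.single_eq_C_mul_T, ← LaurentPolynomial.single_eq_C_mul_T,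
      AddMonoidAlgebra.coeff_single, AddMonoidAlgebra.coeff_single]
    by_cases hj : j = n
    · subst hj
      rw [Finsupp.single_eq_same, Finsupp.single_eq_same]
    · rw [Finsupp.single_eq_of_ne hj, Finsupp.single_eq_of_ne hj, map_zero, zero_mul]

theorem BaseConst_proof : S_BaseConst := by
  intro a ha
  have hco : ∀ j, sK (a.coeff j) * (tK ^ j * xK ^ j) = a.coeff j := by
    intro j
    rw [← BaseConst_coeff, ha]
  have hz : ∀ j, j ≠ 0 → a.coeff j = 0 := by
    intro j hj
    by_contra hne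
    have h1 := hco j
    have hs : sK (a.coeff j) ≠ 0 := by
      intro h
      rw [h, zero_mul] at h1
      exact hne h1.symm
    have ht : tK ^ j ≠ 0 := zpow_ne_zero _ tK_ne
    have hx : xK ^ j ≠ 0 := zpow_ne_zero _ xK_ne
    have h2 := congrArg RatFunc.intDegree h1
    have hd : ∀ (u : KK), u ≠ 0 → ∀ n : ℤ, (u ^ n).intDegree = n * u.intDegree := by
      intro u hu n
      have h5 : ∀ m : ℕ, (u ^ m).intDegree = m * u.intDegree := by
        intro m
        induction m with
        | zero => simp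
        | succ m ih =>
          rw [pow_succ, RatFunc.intDegree_mul (pow_ne_zero _ hu) hu, ih]
          push_cast
          ring
      obtain ⟨m, rfl | rfl⟩ := n.eq_nat_or_neg
      · rw [zpow_natCast]; exact h5 m
      · rw [zpow_neg, zpow_natCast, RatFunc.intDegree_inv, h5]; ring
    rw [RatFunc.intDegree_mul hs (mul_ne_zero ht hx), RatFunc.intDegree_mul ht hx, hd tK tK_ne,
      hd xK xK_ne] at h2
    have h3 : (sK (a.coeff j)).intDegree = (a.coeff j).intDegree :=
      BaseConst_intDegree _ _ _ hne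
    have h4 : tK.intDegree = 0 := RatFunc.intDegree_C _
    have h5 : xK.intDegree = 1 := RatFunc.intDegree_X
    rw [h3, h4, h5] at h2
    apply hj
    linarith
  have h0 : sK (a.coeff 0) = a.coeff 0 := by
    have := hco 0
    rwa [zpow_zero, zpow_zero, mul_one, mul_one] at this
  obtain ⟨c, hc⟩ := BaseConst_fixed (t ^ 2) t_sq_ne BaseConst_pow_inj (a.coeff 0) h0
  refine ⟨c, ?_⟩
  rw [LaurentPolynomial.algebraMap_apply, RatFunc.algebraMap_eq_C, ← hc]
  ext j
  rw [LaurentPolynomial.C_apply]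
  split_ifs with hj
  · rw [hj]
  · rw [hz j hj]

end AJG

end

section

/-!
# MP_d3fa71_gt: the base data
-/

open Polynomial

namespace AJG

theorem BaseData_sq_alg {k : Type} [Field k] (q : k) (hq : q ≠ 0) (p : Polynomial k) :
    sq q hq (algebraMap (Polynomial k) (RatFunc k) p) =
      algebraMap (Polynomial k) (RatFunc k) (p.eval₂ Polynomial.C (Polynomial.C q * Polynomial.X)) := by
  unfold sq
  rw [RatFunc.coe_mapRingHom_eq_coe_map]
  have h := RatFunc.map_apply_div (eval₂RingHom Polynomial.C (Polynomial.C q * Polynomial.X)) 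
    (by
      intro p hp
      rw [Submonoid.mem_comap]
      refine mem_nonZeroDivisors_of_ne_zero ?_
      have hp0 : p ≠ 0 := nonZeroDivisors.ne_zero hp
      intro h
      apply hp0
      have h1 : p.comp (Polynomial.C q * Polynomial.X) = 0 := h
      have h2 := congrArg (fun r => Polynomial.comp r (Polynomial.C q⁻¹ * Polynomial.X)) h1
      simp only [Polynomial.comp_assoc, Polynomial.mul_comp, Polynomial.C_comp, Polynomial.X_comp,
        Polynomial.zero_comp] at h2
      rw [← mul_assoc, ← Polynomial.C_mul, mul_inv_cancel₀ hq, Polynomial.C_1, one_mul,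
        Polynomial.comp_X] at h2
      exact h2) p (1 : Polynomial k)
  have e1 : (eval₂RingHom Polynomial.C (Polynomial.C q * Polynomial.X)) (1 : Polynomial k) = 1 :=
    map_one (eval₂RingHom Polynomial.C (Polynomial.C q * Polynomial.X))
  rw [e1] at h
  simp only [map_one (algebraMap (Polynomial k) (RatFunc k)), div_one] at h
  exact h

theorem BaseData_sK_C (c : FF) : sK (RatFunc.C c) = RatFunc.C c := by
  unfold sK
  rw [← RatFunc.algebraMap_C, BaseData_sq_alg, Polynomial.eval₂_C]

theorem BaseData_sK_t : sK tK = tK := BaseData_sK_C t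

theorem BaseData_sK_X : sK xK = tK ^ 2 * xK := by
  unfold sK xK tK
  rw [← RatFunc.algebraMap_X, BaseData_sq_alg, Polynomial.eval₂_X, map_mul, RatFunc.algebraMap_C,
    map_pow]

/-- The bracket is not zero. -/
theorem BaseData_br_ne (S c : ℕ) (hS : 0 < S) :
    tK ^ (2 * (c : ℤ)) * xK ^ (S : ℤ) - tK ^ (-(2 * (c : ℤ))) * xK ^ (-(S : ℤ)) ≠ 0 := by
  intro h
  have hx := xK_ne
  have ht := tK_ne
  have h1 : tK ^ (4 * c) * xK ^ (2 * S) = 1 := by
    have e1 : tK ^ (2 * (c : ℤ)) * xK ^ (S : ℤ) = tK ^ (-(2 * (c : ℤ))) * xK ^ (-(S : ℤ)) :=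
      sub_eq_zero.1 h
    have e2 : (tK ^ (2 * (c : ℤ)) * xK ^ (S : ℤ)) * (tK ^ (2 * (c : ℤ)) * xK ^ (S : ℤ)) = 1 := by
      calc (tK ^ (2 * (c : ℤ)) * xK ^ (S : ℤ)) * (tK ^ (2 * (c : ℤ)) * xK ^ (S : ℤ))
          = (tK ^ (-(2 * (c : ℤ))) * xK ^ (-(S : ℤ))) * (tK ^ (2 * (c : ℤ)) * xK ^ (S : ℤ)) := by
            rw [← e1]
        _ = (tK ^ (-(2 * (c : ℤ))) * tK ^ (2 * (c : ℤ))) * (xK ^ (-(S : ℤ)) * xK ^ (S : ℤ)) := by
            ring
        _ = 1 := by
            rw [← zpow_add₀ ht, ← zpow_add₀ hx, neg_add_cancel, neg_add_cancel, zpow_zero,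
              zpow_zero, one_mul]
    have e3 : (tK ^ (2 * (c : ℤ)) * xK ^ (S : ℤ)) * (tK ^ (2 * (c : ℤ)) * xK ^ (S : ℤ)) =
        (tK ^ (2 * (c : ℤ)) * tK ^ (2 * (c : ℤ))) * (xK ^ (S : ℤ) * xK ^ (S : ℤ)) := by ring
    rw [e3, ← zpow_add₀ ht, ← zpow_add₀ hx] at e2
    have e4 : (2 * (c : ℤ)) + 2 * (c : ℤ) = ((4 * c : ℕ) : ℤ) := by push_cast; ring
    have e5 : (S : ℤ) + (S : ℤ) = ((2 * S : ℕ) : ℤ) := by push_cast; ring
    rw [e4, e5, zpow_natCast, zpow_natCast] at e2
    exact e2
  unfold tK xK at h1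
  have h2 : algebraMap (Polynomial FF) (RatFunc FF)
      (Polynomial.C (t ^ (4 * c)) * Polynomial.X ^ (2 * S)) =
      algebraMap (Polynomial FF) (RatFunc FF) 1 := by
    rw [map_mul, RatFunc.algebraMap_C, map_pow (algebraMap (Polynomial FF) (RatFunc FF)),
      RatFunc.algebraMap_X, map_one (algebraMap (Polynomial FF) (RatFunc FF)), map_pow RatFunc.C]
    exact h1
  have h3 := RatFunc.algebraMap_injective FF h2
  have h4 := congrArg (fun p => Polynomial.coeff p 0) h3
  simp only [Polynomial.coeff_one_zero] at h4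
  rw [Polynomial.mul_coeff_zero, Polynomial.coeff_X_pow, if_neg (by omega), mul_zero] at h4
  exact zero_ne_one h4

theorem BaseData_t_coe : ((D0.t : A0ˣ) : A0) = LaurentPolynomial.C tK := rfl

theorem BaseData_x_coe : ((D0.x : A0ˣ) : A0) = LaurentPolynomial.C xK := rfl

theorem BaseData_t_zpow (n : ℤ) : (((D0.t) ^ n : A0ˣ) : A0) = LaurentPolynomial.C (tK ^ n) := by
  unfold D0
  rw [← map_zpow]
  change LaurentPolynomial.C (((Units.mk0 tK tK_ne) ^ n : KKˣ) : KK) = _
  rw [Units.val_zpow_eq_zpow_val, Units.val_mk0]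

theorem BaseData_x_zpow (n : ℤ) : (((D0.x) ^ n : A0ˣ) : A0) = LaurentPolynomial.C (xK ^ n) := by
  unfold D0
  rw [← map_zpow]
  change LaurentPolynomial.C (((Units.mk0 xK xK_ne) ^ n : KKˣ) : KK) = _
  rw [Units.val_zpow_eq_zpow_val, Units.val_mk0]

theorem BaseData_br (S c : ℕ) : D0.br S c = LaurentPolynomial.C
    (tK ^ (2 * (c : ℤ)) * xK ^ (S : ℤ) - tK ^ (-(2 * (c : ℤ))) * xK ^ (-(S : ℤ))) := by
  unfold Dat.br
  rw [Units.val_mul, Units.val_mul, BaseData_t_zpow, BaseData_x_zpow, BaseData_t_zpow,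
    BaseData_x_zpow, map_sub, map_mul, map_mul]

theorem BaseData_s0_C (a : KK) : s0 (LaurentPolynomial.C a) = LaurentPolynomial.C (sK a) := by
  unfold s0
  rw [LaurentPolynomial.eval₂_C]
  rfl

theorem BaseData_proof : S_BaseData := by
  refine ⟨?_, ?_, ?_, ?_, ?_, ?_⟩
  · intro S c hS
    rw [BaseData_br]
    have e : D0.ib S c = LaurentPolynomial.C
      ((tK ^ (2 * (c : ℤ)) * xK ^ (S : ℤ) - tK ^ (-(2 * (c : ℤ))) * xK ^ (-(S : ℤ)))⁻¹) := by
      change (if S = 0 then (0 : A0) else _) = _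
      rw [if_neg (by omega)]
    rw [e, ← map_mul, mul_inv_cancel₀ (BaseData_br_ne S c hS), map_one]
  · rw [BaseData_t_coe]
    rfl
  · rw [BaseData_x_coe, BaseData_t_coe, BaseData_s0_C, BaseData_sK_X, map_mul, map_pow]
  · have e : ((D0.h : A0ˣ) : A0) = LaurentPolynomial.T 1 := rfl
    rw [e]
    unfold s0
    rw [LaurentPolynomial.eval₂_T, zpow_one, Units.val_mul, Units.val_mul, e]
  · intro κ S c hS hE
    unfold J0
    rw [BaseData_br, BaseData_br, BaseData_s0_C]
    congr 1
    rw [map_sub, map_mul, map_mul, map_zpow₀, map_zpow₀, map_zpow₀, map_zpow₀, BaseData_sK_t,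
      BaseData_sK_X]
    have ht := tK_ne
    have e1 : (tK ^ 2 * xK) ^ (S : ℤ) = tK ^ (2 * (S : ℤ)) * xK ^ (S : ℤ) := by
      rw [mul_zpow]
      congr 1
      rw [← zpow_natCast, ← zpow_mul]
      norm_num
    have e2 : (tK ^ 2 * xK) ^ (-(S : ℤ)) = tK ^ (-(2 * (S : ℤ))) * xK ^ (-(S : ℤ)) := by
      rw [mul_zpow]
      congr 1
      rw [← zpow_natCast, ← zpow_mul]
      norm_num
    rw [e1, e2, ← mul_assoc, ← mul_assoc, ← zpow_add₀ ht, ← zpow_add₀ ht]
    have e3 : 2 * (c : ℤ) + 2 * (S : ℤ) = 2 * ((c + S : ℕ) : ℤ) := by push_cast; ring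
    have e4 : -(2 * (c : ℤ)) + -(2 * (S : ℤ)) = -(2 * ((c + S : ℕ) : ℤ)) := by push_cast; ring
    rw [e3, e4]
  · intro c
    have e : algebraMap FF A0 c = LaurentPolynomial.C (RatFunc.C c) := rfl
    rw [e, BaseData_s0_C, BaseData_sK_C]

end AJG

end

section

open Polynomial

namespace AJG

/-! ### Laurent polynomials inside `KK` -/

/-- the embedding `T ↦ X` -/
noncomputable def BaseE_iota : LaurentPolynomial FF →+* KK :=
  LaurentPolynomial.eval₂ (RatFunc.C : FF →+* KK) (Units.mk0 xK xK_ne)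

theorem BaseE_iota_CT (a : FF) (n : ℤ) :
    BaseE_iota (LaurentPolynomial.C a * LaurentPolynomial.T n) = RatFunc.C a * xK ^ n := by
  unfold BaseE_iota
  rw [LaurentPolynomial.eval₂_C_mul_T]
  rw [Units.val_zpow_eq_zpow_val]
  rfl

theorem BaseE_iota_C (a : FF) : BaseE_iota (LaurentPolynomial.C a) = RatFunc.C a := by
  unfold BaseE_iota
  rw [LaurentPolynomial.eval₂_C]

theorem BaseE_iota_T (n : ℤ) : BaseE_iota (LaurentPolynomial.T n) = xK ^ n := by
  unfold BaseE_iota
  rw [LaurentPolynomial.eval₂_T, Units.val_zpow_eq_zpow_val]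
  rfl

theorem BaseE_iota_toL (p : FF[X]) :
    BaseE_iota (Polynomial.toLaurent p) = algebraMap FF[X] KK p := by
  have h : BaseE_iota.comp (Polynomial.toLaurent (R := FF)) = algebraMap FF[X] KK := by
    apply Polynomial.ringHom_ext
    · intro a
      rw [RingHom.comp_apply, Polynomial.toLaurent_C, BaseE_iota_C]
      rfl
    · rw [RingHom.comp_apply, Polynomial.toLaurent_X, BaseE_iota_T, zpow_one]
      exact RatFunc.algebraMap_X.symm
  rw [← h]
  rfl

theorem BaseE_iota_inj : Function.Injective BaseE_iota := by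
  rw [injective_iff_map_eq_zero]
  intro f hf
  obtain ⟨n, p, hp⟩ := LaurentPolynomial.exists_T_pow f
  have h1 : algebraMap FF[X] KK p = 0 := by
    rw [← BaseE_iota_toL, hp, map_mul, hf, zero_mul]
  have h2 : p = 0 := (map_eq_zero_iff _ (IsFractionRing.injective FF[X] KK)).1 h1
  rw [h2, map_zero] at hp
  have h3 := (LaurentPolynomial.isUnit_T (R := FF) n).mul_left_eq_zero.1 hp.symm
  exact h3

theorem BaseE_isLau (f : LaurentPolynomial FF) : IsLau (BaseE_iota f) := by
  obtain ⟨n, p, hp⟩ := LaurentPolynomial.exists_T_pow f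
  refine ⟨n, p, ?_⟩
  rw [← BaseE_iota_toL, hp, map_mul, BaseE_iota_T, zpow_natCast]
  rfl

theorem BaseE_ofLau {f : KK} (h : IsLau f) : ∃ g : LaurentPolynomial FF, BaseE_iota g = f := by
  obtain ⟨N, P, hP⟩ := h
  refine ⟨Polynomial.toLaurent P * LaurentPolynomial.T (-(N : ℤ)), ?_⟩
  rw [map_mul, BaseE_iota_toL, BaseE_iota_T, ← hP, zpow_neg, zpow_natCast, mul_assoc]
  have hx : (RatFunc.X : KK) ^ N ≠ 0 := pow_ne_zero _ RatFunc.X_ne_zero
  show f * (RatFunc.X ^ N * (RatFunc.X ^ N)⁻¹) = f
  rw [mul_inv_cancel₀ hx, mul_one]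

/-! ### `σ` on Laurent polynomials -/

theorem BaseE_sL_add (f g : LaurentPolynomial FF) : sL (f + g) = sL f + sL g := by
  unfold sL
  rw [AddMonoidAlgebra.coeff_add]
  apply Finsupp.sum_add_index'
  · intro x
    simp
  · intro x a b
    rw [mul_add, map_add, add_mul]

theorem BaseE_sL_CT (a : FF) (n : ℤ) :
    sL (LaurentPolynomial.C a * LaurentPolynomial.T n) =
      LaurentPolynomial.C (t ^ (2 * n) * a) * LaurentPolynomial.T n := by
  unfold sL
  rw [← LaurentPolynomial.single_eq_C_mul_T, AddMonoidAlgebra.coeff_single]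
  rw [Finsupp.sum_single_index]
  simp

theorem BaseE_sK_alg (p : FF[X]) :
    sK (algebraMap FF[X] KK p) = algebraMap FF[X] KK
      (Polynomial.eval₂RingHom Polynomial.C (Polynomial.C (t ^ 2) * Polynomial.X) p) := by
  have e : algebraMap FF[X] KK p = algebraMap FF[X] KK p / algebraMap FF[X] KK 1 := by
    rw [map_one, div_one]
  unfold sK sq
  rw [RatFunc.coe_mapRingHom_eq_coe_map, e, RatFunc.map_apply_div, map_one, map_one, div_one]

theorem BaseE_sK_C (a : FF) : sK (RatFunc.C a) = RatFunc.C a := by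
  have h := BaseE_sK_alg (Polynomial.C a)
  rw [Polynomial.coe_eval₂RingHom, Polynomial.eval₂_C] at h
  exact h

theorem BaseE_sK_X : sK xK = RatFunc.C (t ^ 2) * xK := by
  have h := BaseE_sK_alg Polynomial.X
  rw [Polynomial.coe_eval₂RingHom, Polynomial.eval₂_X, map_mul, RatFunc.algebraMap_X] at h
  exact h

theorem BaseE_sK_iota (b : LaurentPolynomial FF) : sK (BaseE_iota b) = BaseE_iota (sL b) := by
  induction b using LaurentPolynomial.induction_on' with
  | add f g hf hg => rw [map_add, map_add, hf, hg, BaseE_sL_add, map_add]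
  | C_mul_T n a =>
    rw [BaseE_sL_CT, BaseE_iota_CT, BaseE_iota_CT, map_mul, BaseE_sK_C, map_zpow₀, BaseE_sK_X,
      mul_zpow, map_mul, map_pow, zpow_mul, map_zpow₀, map_zpow₀]
    norm_cast
    ring

/-! ### The increments as Laurent polynomials -/

theorem BaseE_tK_zpow (n : ℤ) : tK ^ n = RatFunc.C (t ^ n) := by
  unfold tK
  rw [map_zpow₀]

theorem BaseE_brK (S c : ℕ) : brK S c = BaseE_iota (brL S c) := by
  unfold brK brL
  rw [map_sub, BaseE_iota_CT, BaseE_iota_CT, BaseE_tK_zpow, BaseE_tK_zpow]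

theorem BaseE_brK_ne (S c : ℕ) (hS : 0 < S) : brK S c ≠ 0 := by
  rw [BaseE_brK]
  intro h
  have h1 : brL S c = 0 := BaseE_iota_inj (by rw [h, map_zero])
  have h2 : (brL S c).coeff (S : ℤ) = 0 := by rw [h1]; rfl
  unfold brL at h2
  rw [← LaurentPolynomial.single_eq_C_mul_T, ← LaurentPolynomial.single_eq_C_mul_T,
    AddMonoidAlgebra.coeff_sub, Finsupp.sub_apply, AddMonoidAlgebra.coeff_single,
    AddMonoidAlgebra.coeff_single, Finsupp.single_eq_same, Finsupp.single_eq_of_ne (by omega),
    sub_zero] at h2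
  exact zpow_ne_zero _ t_ne h2

theorem BaseE_gK_one (ϱ : ℤ) (s S i : ℕ) (hs : 2 ≤ s) (hS : 0 < S) :
    gK ϱ s S i 1 = BaseE_iota (gLV ϱ s S i) := by
  unfold gK gLV
  rw [map_sum]
  apply Finset.sum_congr rfl
  intro k _
  have hsS : 0 < s * S := by positivity
  rw [pow_one, pow_one, mul_assoc (_ * _) (brK _ _) (brK _ _)⁻¹,
    mul_inv_cancel₀ (BaseE_brK_ne _ _ hsS), mul_assoc (_ * _) (brK _ _) (brK _ _)⁻¹,
    mul_inv_cancel₀ (BaseE_brK_ne _ _ hsS), mul_one, mul_one, map_sub, BaseE_iota_CT,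
    BaseE_iota_CT, BaseE_tK_zpow, BaseE_tK_zpow]

theorem BaseE_gK_zero (r : ℤ) (s S i : ℕ) (hs : 2 ≤ s) :
    gK r s S i 0 = BaseE_iota (gLT r s S i) := by
  unfold gK gLT
  rw [map_sum]
  apply Finset.sum_congr rfl
  intro k _
  rw [pow_zero, pow_zero, mul_one, mul_one, BaseE_brK, BaseE_brK, map_sub]
  simp only [map_mul, BaseE_iota_C, BaseE_iota_T, BaseE_tK_zpow]
  have h1 : 1 ≤ s * (i + 1 + 2 * k) := by nlinarith
  have e1 : ((s * (i + 1 + 2 * k) + 1 : ℕ) : ℤ) = s * ((i + 1 + 2 * k : ℕ) : ℤ) + 1 := by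
    push_cast
    ring
  have e2 : ((s * (i + 1 + 2 * k) - 1 : ℕ) : ℤ) = s * ((i + 1 + 2 * k : ℕ) : ℤ) - 1 := by
    rw [Nat.cast_sub h1]
    push_cast
    ring
  rw [e1, e2]

/-! ### The class functional -/

/-- the weights of the class functional -/
noncomputable def BaseE_w (E y x : ℤ) : FF :=
  if E ∣ x - y then t ^ (-((x - y) / E * (x + y))) else 0

theorem BaseE_Lam_eq (E y : ℤ) (f : LaurentPolynomial FF) :
    Lam E y f = Finsupp.linearCombination FF (BaseE_w E y) f.coeff := by
  unfold Lam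
  rw [Finsupp.linearCombination_apply]
  apply Finsupp.sum_congr
  intro x _
  unfold BaseE_w
  split_ifs with h
  · rw [smul_eq_mul, mul_comm]
  · rw [smul_zero]

theorem BaseE_Lam_add (E y : ℤ) (f g : LaurentPolynomial FF) :
    Lam E y (f + g) = Lam E y f + Lam E y g := by
  rw [BaseE_Lam_eq, BaseE_Lam_eq, BaseE_Lam_eq, AddMonoidAlgebra.coeff_add, map_add]

theorem BaseE_Lam_sub (E y : ℤ) (f g : LaurentPolynomial FF) :
    Lam E y (f - g) = Lam E y f - Lam E y g := by
  rw [BaseE_Lam_eq, BaseE_Lam_eq, BaseE_Lam_eq, AddMonoidAlgebra.coeff_sub, map_sub]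

theorem BaseE_Lam_C (E y : ℤ) (a : FF) (f : LaurentPolynomial FF) :
    Lam E y (LaurentPolynomial.C a * f) = a * Lam E y f := by
  rw [BaseE_Lam_eq, BaseE_Lam_eq, ← LaurentPolynomial.smul_eq_C_mul, AddMonoidAlgebra.coeff_smul,
    map_smul, smul_eq_mul]

theorem BaseE_Lam_sum (E y : ℤ) {ι : Type} (s : Finset ι) (f : ι → LaurentPolynomial FF) :
    Lam E y (∑ i ∈ s, f i) = ∑ i ∈ s, Lam E y (f i) := by
  rw [BaseE_Lam_eq, AddMonoidAlgebra.coeff_sum, map_sum]
  apply Finset.sum_congr rfl
  intro i _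
  rw [BaseE_Lam_eq]

/-! ### Indices -/

theorem BaseE_uniq {E ϱ ϱ' : ℤ} {S₁ s s' S S' : ℕ} (hco : IsCoprime ϱ (s : ℤ))
    (hco' : IsCoprime ϱ' (s' : ℤ)) (hs : 2 ≤ s) (hS : 0 < S) (hS' : 0 < S')
    (h1 : s * S = S₁) (h2 : s' * S' = S₁) (hE : ϱ * s * (S : ℤ) ^ 2 = E)
    (hE' : ϱ' * s' * (S' : ℤ) ^ 2 = E) : ϱ = ϱ' ∧ s = s' ∧ S = S' := by
  have hSz : (S : ℤ) ≠ 0 := by exact_mod_cast hS.ne'
  have hSz' : (S' : ℤ) ≠ 0 := by exact_mod_cast hS'.ne'
  have hsz : (s : ℤ) ≠ 0 := by
    have : s ≠ 0 := by omega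
    exact_mod_cast this
  have h3 : (s : ℤ) * S = s' * S' := by exact_mod_cast h1.trans h2.symm
  have h4 : ϱ * S = ϱ' * S' := by
    have h5 : (ϱ * S) * (s * S) = (ϱ' * S') * (s * S) := by
      calc (ϱ * S) * (s * S) = ϱ * s * (S : ℤ) ^ 2 := by ring
        _ = ϱ' * s' * (S' : ℤ) ^ 2 := hE.trans hE'.symm
        _ = (ϱ' * S') * (s' * S') := by ring
        _ = (ϱ' * S') * (s * S) := by rw [h3]
    exact mul_right_cancel₀ (mul_ne_zero hsz hSz) h5
  have h6 : ϱ * s' = ϱ' * s := by
    have h7 : (ϱ * s') * (S * S') = (ϱ' * s) * (S * S' : ℤ) := by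
      calc (ϱ * s') * ((S : ℤ) * S') = (ϱ * S) * (s' * S') := by ring
        _ = (ϱ' * S') * (s * S) := by rw [h4, h3]
        _ = (ϱ' * s) * (S * S' : ℤ) := by ring
    exact mul_right_cancel₀ (mul_ne_zero hSz hSz') h7
  have h8 : (s : ℤ) ∣ s' := by
    have : (s : ℤ) ∣ ϱ * s' := ⟨ϱ', by rw [h6]; ring⟩
    exact hco.symm.dvd_of_dvd_mul_left this
  have h9 : (s' : ℤ) ∣ s := by
    have : (s' : ℤ) ∣ ϱ' * s := ⟨ϱ, by rw [← h6]; ring⟩
    exact hco'.symm.dvd_of_dvd_mul_left this
  have h10 : s = s' := Nat.dvd_antisymm (Int.natCast_dvd_natCast.1 h8) (Int.natCast_dvd_natCast.1 h9)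
  subst h10
  refine ⟨mul_right_cancel₀ hsz h6, rfl, ?_⟩
  have h11 : (S : ℤ) = S' := mul_left_cancel₀ hsz h3
  exact_mod_cast h11

theorem BaseE_virExt {S₁ : ℕ} (v v' : Vir (lv 0) S₁) (h1 : v.ϱ = v'.ϱ) (h2 : v.s = v'.s)
    (h3 : v.S = v'.S) (h4 : v.i = v'.i) (h5 : v.p = v'.p) : v = v' := by
  obtain ⟨ϱ, s, S, i, p, κ, _, _, _, _, _, _, _, _⟩ := v
  obtain ⟨ϱ', s', S', i', p', κ', _, _, _, _, _, _, _, _⟩ := v'
  simp only at h1 h2 h3 h4 h5
  subst h1 h2 h3 h4 h5
  have hκ : κ = κ' := Subsingleton.elim (α := Unit) κ κ'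
  subst hκ
  rfl

theorem BaseE_varExt (v v' : Var (lv 0)) (h1 : v.P.r = v'.P.r) (h2 : v.P.s = v'.P.s)
    (h3 : v.S = v'.S) (h4 : v.i = v'.i) : v = v' := by
  obtain ⟨⟨r, s, κ, _, _, _, _⟩, S, i, _, _, _, _⟩ := v
  obtain ⟨⟨r', s', κ', _, _, _, _⟩, S', i', _, _, _, _⟩ := v'
  simp only at h1 h2 h3 h4
  subst h1 h2 h3 h4
  have hκ : κ = κ' := Subsingleton.elim (α := Unit) κ κ'
  subst hκ
  rfl

/-- the torus knot parameters of a variable over the base level -/
def BaseE_tor (w : Var (lv 0)) : Tor where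
  r := w.P.r
  s := w.P.s
  S := w.S
  i := w.i
  hs := w.P.hs
  hco := w.P.hco
  hr := w.P.hb trivial
  hS := w.hS
  hS2 := w.hS2
  hi := w.hi
  h2 := w.h2

theorem BaseE_tor_inj {w w' : Var (lv 0)} (h : BaseE_tor w = BaseE_tor w') : w = w' := by
  apply BaseE_varExt
  · exact congrArg Tor.r h
  · exact congrArg Tor.s h
  · exact congrArg Tor.S h
  · exact congrArg Tor.i h

theorem BaseE_swap {V : Type} (J : Finset V) (pp ii : V → ℕ) (a : V → FF) (G : ℕ → ℕ → KK)
    (Pm : ℕ) (h : ∀ v ∈ J, 1 ≤ pp v ∧ pp v ≤ Pm ∧ ii v < 2) :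
    ∑ p ∈ Finset.Icc 1 Pm, ∑ i ∈ Finset.range 2,
      RatFunc.C (∑ v ∈ J, if pp v = p ∧ ii v = i then a v else 0) * G i p =
    ∑ v ∈ J, RatFunc.C (a v) * G (ii v) (pp v) := by
  have h1 : ∀ p ∈ Finset.Icc 1 Pm, ∑ i ∈ Finset.range 2,
      RatFunc.C (∑ v ∈ J, if pp v = p ∧ ii v = i then a v else 0) * G i p =
      ∑ v ∈ J, ∑ i ∈ Finset.range 2,
        RatFunc.C (if pp v = p ∧ ii v = i then a v else 0) * G i p := by
    intro p _
    rw [Finset.sum_comm]
    apply Finset.sum_congr rfl
    intro i _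
    rw [map_sum, Finset.sum_mul]
  rw [Finset.sum_congr rfl h1, Finset.sum_comm]
  apply Finset.sum_congr rfl
  intro v hv
  obtain ⟨ha, hb, hc⟩ := h v hv
  rw [Finset.sum_eq_single (pp v)]
  · rw [Finset.sum_eq_single (ii v)]
    · rw [if_pos ⟨rfl, rfl⟩]
    · intro i _ hi
      rw [if_neg (fun hh => hi hh.2.symm), map_zero, zero_mul]
    · intro hh
      exact absurd (Finset.mem_range.2 hc) hh
  · intro p _ hp
    apply Finset.sum_eq_zero
    intro i _
    rw [if_neg (fun hh => hp hh.1.symm), map_zero, zero_mul]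
  · intro hh
    exact absurd (Finset.mem_Icc.2 ⟨ha, hb⟩) hh

theorem BaseE_proof (h1 : S_Elim) (h2 : S_LamInv) (h3 : S_LamVir) (h4 : S_LamTor) (h5 : S_NVComb)
    (h6 : S_NTEven) (h7 : S_TorComb) : S_BaseE := by
  intro E S₁ hE0 c hE b hsum
  by_contra hc0
  set JV := c.support.toLeft with hJV
  set JT := c.support.toRight with hJT
  have hmV : ∀ v, v ∈ JV ↔ c (.inl v) ≠ 0 := by
    intro v
    rw [hJV, Finset.mem_toLeft, Finsupp.mem_support_iff]
  have hmT : ∀ w, w ∈ JT ↔ c (.inr w) ≠ 0 := by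
    intro w
    rw [hJT, Finset.mem_toRight, Finsupp.mem_support_iff]
  have hEV : ∀ v ∈ JV, v.ϱ * v.s * (v.S : ℤ) ^ 2 = E := fun v hv => hE (.inl v) ((hmV v).1 hv)
  have hET : ∀ w ∈ JT, w.P.r * w.P.s * (w.S : ℤ) ^ 2 = E := fun w hw =>
    hE (.inr w) ((hmT w).1 hw)
  have hϱV : ∀ v ∈ JV, v.ϱ ≠ 0 := by
    intro v hv h0
    have := hEV v hv
    rw [h0] at this
    exact hE0 (by rw [← this]; ring)
  have hrT : ∀ w ∈ JT, w.P.r ≠ 0 := by
    intro w hw h0
    have := hET w hw
    rw [h0] at this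
    exact hE0 (by rw [← this]; ring)
  have hsum2 : ∑ v ∈ JV, RatFunc.C (c (.inl v)) * gK v.ϱ v.s v.S v.i v.p +
      ∑ w ∈ JT, RatFunc.C (c (.inr w)) * gK w.P.r w.P.s w.S w.i 0 =
        tK ^ E * xK ^ E * sK b - b := by
    rw [← hsum, Finsupp.sum]
    conv_rhs => rw [← Finset.toLeft_disjSum_toRight (u := c.support), Finset.sum_disjSum]
  -- the torus part is a Laurent polynomial
  set fT : LaurentPolynomial FF := ∑ w ∈ JT,
    LaurentPolynomial.C (c (.inr w)) * gLT w.P.r w.P.s w.S w.i with hfT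
  have hfT' : ∑ w ∈ JT, RatFunc.C (c (.inr w)) * gK w.P.r w.P.s w.S w.i 0 = BaseE_iota fT := by
    rw [hfT, map_sum]
    apply Finset.sum_congr rfl
    intro w _
    rw [map_mul, BaseE_iota_C, BaseE_gK_zero _ _ _ _ w.P.hs]
  -- common parameters
  obtain ⟨ϱ, s, S, hϱ, hs, hS, hS2, hEE, hall⟩ : ∃ (ϱ : ℤ) (s S : ℕ), ϱ ≠ 0 ∧ 2 ≤ s ∧ 0 < S ∧
      Even S ∧ ϱ * s * (S : ℤ) ^ 2 = E ∧ ∀ v ∈ JV, v.ϱ = ϱ ∧ v.s = s ∧ v.S = S := by
    by_cases hJ : JV.Nonempty
    · obtain ⟨v0, hv0⟩ := hJ
      refine ⟨v0.ϱ, v0.s, v0.S, hϱV v0 hv0, v0.hs, v0.hS, v0.hS2, hEV v0 hv0, ?_⟩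
      intro v hv
      exact BaseE_uniq v.hco v0.hco v.hs v.hS v0.hS v.hS1 v0.hS1 (hEV v hv) (hEV v0 hv0)
    · have hJe : JV = ∅ := Finset.not_nonempty_iff_eq_empty.1 hJ
      have hne : c.support.Nonempty := by
        rw [Finset.nonempty_iff_ne_empty]
        intro hh
        exact hc0 (Finsupp.support_eq_empty.1 hh)
      obtain ⟨x, hx⟩ := hne
      rcases x with v | w
      · exfalso
        have : v ∈ JV := Finset.mem_toLeft.2 hx
        rw [hJe] at this
        exact absurd this (Finset.notMem_empty v)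
      · have hw : w ∈ JT := Finset.mem_toRight.2 hx
        refine ⟨w.P.r, w.P.s, w.S, hrT w hw, w.P.hs, w.hS, w.hS2, hET w hw, ?_⟩
        intro v hv
        rw [hJe] at hv
        exact absurd hv (Finset.notMem_empty v)
  have hext : ∀ v ∈ JV, ∀ v' ∈ JV, v'.p = v.p → v'.i = v.i → v' = v := by
    intro v hv v' hv' hp hi
    obtain ⟨a1, a2, a3⟩ := hall v hv
    obtain ⟨b1, b2, b3⟩ := hall v' hv'
    exact BaseE_virExt v' v (b1.trans a1.symm) (b2.trans a2.symm) (b3.trans a3.symm) hi hp
  -- elimination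
  have helim := h1 ϱ s S hϱ hs hS hS2 (JV.sup fun v => v.p)
    (fun p i => ∑ v ∈ JV, if v.p = p ∧ v.i = i then c (.inl v) else 0) (by
      intro hs2 p
      apply Finset.sum_eq_zero
      intro v hv
      rw [if_neg]
      rintro ⟨-, hi⟩
      have := v.h2 ((hall v hv).2.1.trans hs2)
      omega) b (BaseE_iota fT) (BaseE_isLau fT) (by
      rw [BaseE_swap JV (fun v => v.p) (fun v => v.i) (fun v => c (.inl v))
        (fun i p => gK ϱ s S i p) _ (fun v hv => ⟨v.hp, Finset.le_sup (f := fun v => v.p) hv, v.hi⟩),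
        hEE, ← hsum2, hfT']
      congr 1
      apply Finset.sum_congr rfl
      intro v hv
      obtain ⟨a1, a2, a3⟩ := hall v hv
      rw [a1, a2, a3])
  obtain ⟨hel, hbL⟩ := helim
  have hp1 : ∀ v ∈ JV, v.p = 1 := by
    intro v hv
    by_contra hp
    have hp2 : 2 ≤ v.p := by
      have := v.hp
      omega
    have h8 := hel v.p hp2 (Finset.le_sup (f := fun v => v.p) hv) v.i v.hi
    rw [Finset.sum_eq_single v] at h8
    · rw [if_pos ⟨rfl, rfl⟩] at h8
      exact (hmV v).1 hv h8
    · intro v' hv' hne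
      rw [if_neg]
      rintro ⟨ha, hb⟩
      exact hne (hext v hv v' hv' ha hb)
    · intro hh
      exact absurd hv hh
  obtain ⟨b', hb'⟩ := BaseE_ofLau hbL
  have hL : ∑ v ∈ JV, LaurentPolynomial.C (c (.inl v)) * gLV v.ϱ v.s v.S v.i + fT =
      LaurentPolynomial.C (t ^ E) * LaurentPolynomial.T E * sL b' - b' := by
    apply BaseE_iota_inj
    rw [map_add, map_sub, map_mul, BaseE_iota_CT, ← BaseE_sK_iota, hb', ← BaseE_tK_zpow, ← hsum2,
      hfT', map_sum]
    congr 1
    apply Finset.sum_congr rfl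
    intro v hv
    rw [map_mul, BaseE_iota_C, hp1 v hv, BaseE_gK_one _ _ _ _ v.hs v.hS]
  -- class functional
  set VV : ℤ → FF := fun y => ∑ v ∈ JV, c (.inl v) * ((NV E v.ϱ v.s v.S v.i y : FF) *
    t ^ ((y ^ 2 - v.ϱ ^ 2 * (v.S : ℤ) ^ 2) / E)) with hVV
  set WW : ℤ → FF := fun y => ∑ w ∈ JT, c (.inr w) * ((NT E w.P.r w.P.s w.S w.i y : FF) *
    t ^ ((y ^ 2 - (w.P.r ^ 2 + (w.P.s : ℤ) ^ 2) * (w.S : ℤ) ^ 2) / E)) with hWW
  have hVW : ∀ y, VV y + WW y = 0 := by
    intro y
    have h8 := congrArg (Lam E y) hL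
    rw [BaseE_Lam_add, BaseE_Lam_sub, h2 E y hE0, sub_self, hfT, BaseE_Lam_sum, BaseE_Lam_sum] at h8
    rw [← h8, hVV, hWW]
    congr 1
    · apply Finset.sum_congr rfl
      intro v hv
      have h9 := h3 v.ϱ v.s v.S v.i y (hϱV v hv) v.hs v.hS
      rw [hEV v hv] at h9
      rw [BaseE_Lam_C, h9]
    · apply Finset.sum_congr rfl
      intro w hw
      have h9 := h4 w.P.r w.P.s w.S w.i y (hrT w hw) w.P.hs w.hS
      rw [hET w hw] at h9
      rw [BaseE_Lam_C, h9]
  have hVodd : ∀ y, VV (-y) = -VV y := by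
    intro y
    rw [hVV]
    simp only
    rw [← Finset.sum_neg_distrib]
    apply Finset.sum_congr rfl
    intro v hv
    have h9 := (h5 v.ϱ v.s v.S v.i (hϱV v hv) v.hs v.hS v.hS2 v.hi).1 y
    rw [hEV v hv] at h9
    rw [h9, neg_sq]
    push_cast
    ring
  have hWev : ∀ y, WW (-y) = WW y := by
    intro y
    rw [hWW]
    simp only
    apply Finset.sum_congr rfl
    intro w hw
    have h9 := h6 w.P.r w.P.s w.S w.i y (hrT w hw) w.P.hs w.hS w.hS2 w.hi
    rw [hET w hw] at h9
    rw [h9, neg_sq]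
  have hW0 : ∀ y, WW y = 0 := by
    intro y
    have a1 := hVW y
    have a2 := hVW (-y)
    rw [hVodd, hWev] at a2
    have a3 : (2 : FF) * WW y = 0 := by
      calc (2 : FF) * WW y = (VV y + WW y) + (-VV y + WW y) := by ring
        _ = 0 := by rw [a1, a2, add_zero]
    exact (mul_eq_zero.1 a3).resolve_left two_ne_zero
  have hV0 : ∀ y, VV y = 0 := by
    intro y
    have a1 := hVW y
    rw [hW0, add_zero] at a1
    exact a1
  -- no virtual indices
  have hJVe : JV = ∅ := by
    rw [Finset.eq_empty_iff_forall_notMem]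
    intro v hv
    obtain ⟨-, y0, hy1, hy2⟩ := h5 v.ϱ v.s v.S v.i (hϱV v hv) v.hs v.hS v.hS2 v.hi
    rw [hEV v hv] at hy1 hy2
    have h8 := hV0 y0
    rw [hVV] at h8
    simp only at h8
    rw [Finset.sum_eq_single v] at h8
    · rcases mul_eq_zero.1 h8 with h9 | h9
      · exact (hmV v).1 hv h9
      · rcases mul_eq_zero.1 h9 with h10 | h10
        · exact hy1 (by exact_mod_cast h10)
        · exact zpow_ne_zero _ t_ne h10
    · intro v' hv' hne
      obtain ⟨a1, a2, a3⟩ := hall v hv
      obtain ⟨b1, b2, b3⟩ := hall v' hv'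
      have hi : v'.i ≠ v.i := fun hh => hne (hext v hv v' hv' ((hp1 v' hv').trans (hp1 v hv).symm) hh)
      have hi2 : v'.i = 1 - v.i := by
        have := v.hi
        have := v'.hi
        omega
      have hs2 : v.s ≠ 2 := by
        intro hh
        have c1 := v.h2 hh
        have c2 := v'.h2 ((b2.trans a2.symm).trans hh)
        omega
      have h9 := hy2 hs2
      rw [b1.trans a1.symm, b2.trans a2.symm, b3.trans a3.symm, hi2, h9]
      push_cast
      ring
    · intro hh
      exact absurd hv hh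
  -- no torus indices
  have hJTe : JT = ∅ := by
    by_contra hJT'
    obtain ⟨w, hw, hmin⟩ := Finset.exists_min_image JT (fun w => (BaseE_tor w).rk)
      (Finset.nonempty_iff_ne_empty.2 hJT')
    obtain ⟨hy1, hy2⟩ := h7 (BaseE_tor w)
    have eE : (BaseE_tor w).E = E := hET w hw
    rw [eE] at hy1 hy2
    have h8 := hW0 (BaseE_tor w).y
    rw [hWW] at h8
    simp only at h8
    rw [Finset.sum_eq_single w] at h8
    · rcases mul_eq_zero.1 h8 with h9 | h9
      · exact (hmT w).1 hw h9
      · rcases mul_eq_zero.1 h9 with h10 | h10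
        · exact hy1 (by exact_mod_cast h10)
        · exact zpow_ne_zero _ t_ne h10
    · intro w' hw' hne
      have h9 : NT E w'.P.r w'.P.s w'.S w'.i (BaseE_tor w).y = 0 := by
        by_contra h10
        have h11 := hy2 (BaseE_tor w') (hET w' hw') h10 (fun hh => hne (BaseE_tor_inj hh))
        exact absurd (hmin w' hw') (not_le.2 h11)
      rw [h9]
      push_cast
      ring
    · intro hh
      exact absurd hw hh
  apply hc0
  rw [← Finsupp.support_eq_empty, ← Finset.toLeft_disjSum_toRight (u := c.support)]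
  rw [← hJV, ← hJT, hJVe, hJTe]
  rfl

end AJG

end

section

/-!
# MP_d3fa71_gt: independence on the base level
-/

set_option autoImplicit false

open Polynomial

namespace AJG

theorem BaseInd_zpow_t (n : ℤ) : ((D0.t ^ n : A0ˣ) : A0) = LaurentPolynomial.C (tK ^ n) := by
  have h : D0.t ^ n = Units.map (LaurentPolynomial.C (R := KK)).toMonoidHom
      ((Units.mk0 tK tK_ne) ^ n) := by
    rw [map_zpow]
    rfl
  rw [h, Units.coe_map, Units.val_zpow_eq_zpow_val]
  rfl

theorem BaseInd_zpow_x (n : ℤ) : ((D0.x ^ n : A0ˣ) : A0) = LaurentPolynomial.C (xK ^ n) := by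
  have h : D0.x ^ n = Units.map (LaurentPolynomial.C (R := KK)).toMonoidHom
      ((Units.mk0 xK xK_ne) ^ n) := by
    rw [map_zpow]
    rfl
  rw [h, Units.coe_map, Units.val_zpow_eq_zpow_val]
  rfl

theorem BaseInd_zpow_h (n : ℤ) : ((D0.h ^ n : A0ˣ) : A0) = LaurentPolynomial.T n := by
  have h1 : (D0.h : A0) = LaurentPolynomial.T 1 := rfl
  have h2 : ((D0.h⁻¹ : A0ˣ) : A0) = LaurentPolynomial.T (-1) := rfl
  cases n with
  | ofNat k =>
    rw [Int.ofNat_eq_natCast, zpow_natCast, Units.val_pow_eq_pow_val, h1, LaurentPolynomial.T_pow,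
      mul_one]
  | negSucc k =>
    rw [zpow_negSucc, ← inv_pow, Units.val_pow_eq_pow_val, h2, LaurentPolynomial.T_pow]
    congr 1
    rw [Int.negSucc_eq]
    push_cast
    ring

theorem BaseInd_s0 (a : KK) (n : ℤ) : s0 (LaurentPolynomial.C a * LaurentPolynomial.T n) =
    LaurentPolynomial.C (tK ^ n * xK ^ n * sK a) * LaurentPolynomial.T n := by
  unfold s0
  rw [LaurentPolynomial.eval₂_C_mul_T, mul_zpow, mul_zpow, Units.val_mul, Units.val_mul,
    BaseInd_zpow_t, BaseInd_zpow_x, BaseInd_zpow_h, RingHom.comp_apply, map_mul, map_mul]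
  ring

theorem BaseInd_coeff_CT (a : KK) (n E : ℤ) :
    (LaurentPolynomial.C a * LaurentPolynomial.T n : A0).coeff E = if n = E then a else 0 := by
  rw [← LaurentPolynomial.single_eq_C_mul_T, AddMonoidAlgebra.coeff_single, Finsupp.single_apply]

theorem BaseInd_s0_coeff (b : A0) (E : ℤ) :
    (s0 b).coeff E = tK ^ E * xK ^ E * sK (b.coeff E) := by
  induction b using LaurentPolynomial.induction_on' with
  | add p q hp hq =>
    rw [map_add, AddMonoidAlgebra.coeff_add, AddMonoidAlgebra.coeff_add, Finsupp.add_apply,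
      Finsupp.add_apply, hp, hq, map_add]
    ring
  | C_mul_T n a =>
    rw [BaseInd_s0, BaseInd_coeff_CT, BaseInd_coeff_CT]
    split_ifs with h
    · rw [h]
    · rw [map_zero, mul_zero]

theorem BaseInd_r_ne {r : ℤ} {s : ℕ} (hs : 2 ≤ s) (hco : IsCoprime r (s : ℤ)) : r ≠ 0 := by
  intro h
  rw [h, isCoprime_zero_left, Int.isUnit_iff] at hco
  omega

theorem BaseInd_smul (a : FF) (x : A0) (E : ℤ) : (a • x).coeff E = RatFunc.C a * x.coeff E := by
  rw [Algebra.smul_def, LaurentPolynomial.algebraMap_apply]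
  have h : algebraMap FF KK a = RatFunc.C a := by
    rw [RatFunc.algebraMap_eq_C]
  rw [h, ← LaurentPolynomial.smul_eq_C_mul, AddMonoidAlgebra.coeff_smul_apply, smul_eq_mul]

/-- the degree in `h` of an increment -/
def BaseInd_E {S₁ : ℕ} : Vir (lv 0) S₁ ⊕ Var (lv 0) → ℤ := fun v =>
  match v with
  | .inl v => v.ϱ * v.s * (v.S : ℤ) ^ 2
  | .inr w => w.P.r * w.P.s * (w.S : ℤ) ^ 2

/-- the coefficient of an increment -/
noncomputable def BaseInd_G {S₁ : ℕ} : Vir (lv 0) S₁ ⊕ Var (lv 0) → KK := fun v =>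
  match v with
  | .inl v => gK v.ϱ v.s v.S v.i v.p
  | .inr w => gK w.P.r w.P.s w.S w.i 0

theorem BaseInd_E_ne {S₁ : ℕ} (v : Vir (lv 0) S₁ ⊕ Var (lv 0)) : BaseInd_E v ≠ 0 := by
  rcases v with v | w
  · show v.ϱ * v.s * (v.S : ℤ) ^ 2 ≠ 0
    have h1 := BaseInd_r_ne v.hs v.hco
    have h2 : (v.s : ℤ) ≠ 0 := by
      have := v.hs
      omega
    have h3 : (v.S : ℤ) ≠ 0 := by
      have := v.hS
      omega
    exact mul_ne_zero (mul_ne_zero h1 h2) (pow_ne_zero 2 h3)
  · show w.P.r * w.P.s * (w.S : ℤ) ^ 2 ≠ 0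
    have h1 := BaseInd_r_ne w.P.hs w.P.hco
    have h2 : (w.P.s : ℤ) ≠ 0 := by
      have := w.P.hs
      omega
    have h3 : (w.S : ℤ) ≠ 0 := by
      have := w.hS
      omega
    exact mul_ne_zero (mul_ne_zero h1 h2) (pow_ne_zero 2 h3)

theorem BaseInd_gfam (h1 : S_gK) {S₁ : ℕ} (v : Vir (lv 0) S₁ ⊕ Var (lv 0)) :
    gfam D0 J0 S₁ v = LaurentPolynomial.C (BaseInd_G v) * LaurentPolynomial.T (BaseInd_E v) := by
  rcases v with v | w
  · have h := h1 v.ϱ v.s v.S v.i v.p v.κ (by have := v.hs; omega) v.hS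
    rw [mul_comm] at h
    exact h
  · have h := h1 w.P.r w.P.s w.S w.i 0 w.P.κ (by have := w.P.hs; omega) w.hS
    rw [mul_comm] at h
    exact h

theorem BaseInd_proof (h1 : S_gK) (h2 : S_BaseE) : S_BaseInd := by
  classical
  intro S₁ c b hc
  have key : ∀ E : ℤ, E ≠ 0 → c.filter (fun v => BaseInd_E v = E) = 0 := by
    intro E hE
    apply h2 E S₁ hE (c.filter (fun v => BaseInd_E v = E)) ?_ (b.coeff E) ?_
    · intro v hv
      by_contra hne
      apply hv
      apply Finsupp.filter_apply_neg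
      intro h3
      apply hne
      rcases v with v | w
      · exact h3
      · exact h3
    · have h3 : ((c.sum fun v a => a • gfam D0 J0 S₁ v) : A0).coeff E = (s0 b - b).coeff E := by
        rw [hc]
      rw [AddMonoidAlgebra.coeff_sub, Finsupp.sub_apply, BaseInd_s0_coeff] at h3
      rw [← h3]
      have h4 : ((c.sum fun v a => a • gfam D0 J0 S₁ v) : A0).coeff E =
          ∑ v ∈ c.support, RatFunc.C (c v) * (if BaseInd_E v = E then BaseInd_G v else 0) := by
        unfold Finsupp.sum
        rw [AddMonoidAlgebra.coeff_sum, Finsupp.finsetSum_apply]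
        apply Finset.sum_congr rfl
        intro v _
        rw [BaseInd_smul, BaseInd_gfam h1, BaseInd_coeff_CT]
      rw [h4]
      have h5 : ((c.filter (fun v => BaseInd_E v = E)).sum fun v a =>
          RatFunc.C a * BaseInd_G v) =
          ∑ v ∈ c.support, RatFunc.C (c v) * (if BaseInd_E v = E then BaseInd_G v else 0) := by
        unfold Finsupp.sum
        rw [Finsupp.support_filter, Finset.sum_filter]
        apply Finset.sum_congr rfl
        intro v _
        split_ifs with h6
        · have h7 := Finsupp.filter_apply_pos (fun v => BaseInd_E v = E) c h6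
          show RatFunc.C ((c.filter (fun v => BaseInd_E v = E)) v) * BaseInd_G v = _
          rw [h7]
        · rw [mul_zero]
      rw [← h5]
      unfold Finsupp.sum
      apply Finset.sum_congr rfl
      intro v _
      rcases v with v | w
      · rfl
      · rfl
  ext v
  have h3 := key (BaseInd_E v) (BaseInd_E_ne v)
  have h4 := DFunLike.congr_fun h3 v
  have h5 := Finsupp.filter_apply_pos (fun w => BaseInd_E w = BaseInd_E v) c (rfl : BaseInd_E v = BaseInd_E v)
  rw [h5] at h4
  exact h4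

end AJG

end

section

/-!
# MP_d3fa71_gt: the base ring is `σ`-simple
-/

open Polynomial

namespace AJG

theorem BaseSimple_ne (p : Polynomial FF) (hp : p ≠ 0) :
    p.comp (Polynomial.C (t ^ 2) * Polynomial.X) ≠ 0 := by
  intro h1
  have h2 := congrArg (fun r => Polynomial.coeff r p.natDegree) h1
  simp only [Polynomial.comp_C_mul_X_coeff, Polynomial.coeff_zero] at h2
  rcases mul_eq_zero.1 h2 with h2 | h2
  · exact hp (Polynomial.leadingCoeff_eq_zero.1 h2)
  · exact pow_ne_zero _ t_sq_ne h2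

theorem BaseSimple_alg (p : Polynomial FF) :
    sK (algebraMap (Polynomial FF) KK p) =
      algebraMap (Polynomial FF) KK (p.comp (Polynomial.C (t ^ 2) * Polynomial.X)) := by
  have h := RatFunc.map_apply_div (R := FF) (K := FF)
    (Polynomial.eval₂RingHom Polynomial.C (Polynomial.C (t ^ 2) * Polynomial.X)) (by
      intro p hp
      rw [Submonoid.mem_comap]
      refine mem_nonZeroDivisors_of_ne_zero ?_
      have hp0 : p ≠ 0 := nonZeroDivisors.ne_zero hp
      intro h
      apply hp0
      have h1 : p.comp (Polynomial.C (t ^ 2) * Polynomial.X) = 0 := h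
      by_contra hn
      exact BaseSimple_ne p hn h1) p 1
  rw [map_one, map_one, map_one, div_one, div_one] at h
  exact h

theorem BaseSimple_nd (p : Polynomial FF) :
    (p.comp (Polynomial.C (t ^ 2) * Polynomial.X)).natDegree = p.natDegree := by
  rw [Polynomial.natDegree_comp, Polynomial.natDegree_C_mul t_sq_ne, Polynomial.natDegree_X,
    mul_one]

theorem BaseSimple_deg (f : KK) : (sK f).intDegree = f.intDegree := by
  rcases eq_or_ne f 0 with rfl | hf
  · rw [map_zero]
  have h : sK f = algebraMap (Polynomial FF) KK (f.num.comp (Polynomial.C (t ^ 2) * Polynomial.X)) /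
      algebraMap (Polynomial FF) KK (f.denom.comp (Polynomial.C (t ^ 2) * Polynomial.X)) := by
    conv_lhs => rw [← RatFunc.num_div_denom f]
    rw [map_div₀, BaseSimple_alg, BaseSimple_alg]
  have hn : f.num ≠ 0 := RatFunc.num_ne_zero hf
  rw [h, RatFunc.intDegree_div, RatFunc.intDegree_polynomial, RatFunc.intDegree_polynomial,
    BaseSimple_nd, BaseSimple_nd]
  · rfl
  · exact (map_ne_zero_iff _ (RatFunc.algebraMap_injective FF)).2 (BaseSimple_ne _ hn)
  · exact (map_ne_zero_iff _ (RatFunc.algebraMap_injective FF)).2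
      (BaseSimple_ne _ (RatFunc.denom_ne_zero f))

theorem BaseSimple_T (n : ℤ) :
    ((((D0.t * D0.x * D0.h) ^ n : A0ˣ) : A0)) =
      LaurentPolynomial.C (tK ^ n * xK ^ n) * LaurentPolynomial.T n := by
  rw [mul_zpow, mul_zpow, Units.val_mul, Units.val_mul]
  congr 1
  · rw [map_mul]
    congr 1
    · have : D0.t ^ n = Units.map (LaurentPolynomial.C (R := KK)).toMonoidHom
          ((Units.mk0 tK tK_ne) ^ n) := by
        rw [map_zpow]; rfl
      rw [this, Units.coe_map, Units.val_zpow_eq_zpow_val]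
      rfl
    · have : D0.x ^ n = Units.map (LaurentPolynomial.C (R := KK)).toMonoidHom
          ((Units.mk0 xK xK_ne) ^ n) := by
        rw [map_zpow]; rfl
      rw [this, Units.coe_map, Units.val_zpow_eq_zpow_val]
      rfl
  · induction n using Int.induction_on with
    | zero => simp
    | succ n ih =>
      rw [zpow_add, Units.val_mul, ih, LaurentPolynomial.T_add, zpow_one]; rfl
    | pred n ih =>
      rw [zpow_sub, Units.val_mul, ih, LaurentPolynomial.T_sub, zpow_one]; rfl

theorem BaseSimple_coeff (f : A0) (j : ℤ) :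
    (s0 f).coeff j = sK (f.coeff j) * (tK ^ j * xK ^ j) := by
  induction f using LaurentPolynomial.induction_on' with
  | add p q hp hq =>
    rw [map_add, AddMonoidAlgebra.coeff_add, AddMonoidAlgebra.coeff_add, Finsupp.add_apply,
      Finsupp.add_apply, hp, hq, map_add, add_mul]
  | C_mul_T n a =>
    have h1 : s0 (LaurentPolynomial.C a * LaurentPolynomial.T n) =
        LaurentPolynomial.C (sK a * (tK ^ n * xK ^ n)) * LaurentPolynomial.T n := by
      rw [s0, LaurentPolynomial.eval₂_C_mul_T, BaseSimple_T, ← mul_assoc, RingHom.comp_apply,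
        ← map_mul LaurentPolynomial.C]
    rw [h1, ← LaurentPolynomial.single_eq_C_mul_T, ← LaurentPolynomial.single_eq_C_mul_T]
    rw [AddMonoidAlgebra.coeff_single, AddMonoidAlgebra.coeff_single, Finsupp.single_apply,
      Finsupp.single_apply]
    split_ifs with h
    · rw [h]
    · rw [map_zero, zero_mul]

theorem BaseSimple_proof : S_BaseSimple := by
  refine ⟨inferInstance, ?_⟩
  intro I hI
  by_cases hb : I = ⊥
  · exact Or.inl hb
  refine Or.inr ?_
  obtain ⟨f0, hf0, hf0n⟩ := Submodule.exists_mem_ne_zero_of_ne_bot hb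
  classical
  -- minimal support
  have hex : ∃ n : ℕ, ∃ f : A0, f ∈ I ∧ f ≠ 0 ∧ f.coeff.support.card = n :=
    ⟨_, f0, hf0, hf0n, rfl⟩
  obtain ⟨f, hf, hfn, hfc⟩ := Nat.find_spec hex
  have hmin : ∀ g : A0, g ∈ I → g.coeff.support.card < f.coeff.support.card → g = 0 := by
    intro g hg hc
    by_contra hg0
    rw [hfc] at hc
    exact Nat.find_min hex hc ⟨g, hg, hg0, rfl⟩
  have hs : f.coeff.support.Nonempty := by
    rw [Finset.nonempty_iff_ne_empty, Ne, Finsupp.support_eq_empty]
    intro h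
    apply hfn
    apply LaurentPolynomial.ext
    intro a
    rw [h]
    rfl
  obtain ⟨n, hn⟩ := hs
  have ha : f.coeff n ≠ 0 := Finsupp.mem_support_iff.1 hn
  set g : A0 := f * AddMonoidAlgebra.single (-n) (f.coeff n)⁻¹ with hg
  have hgI : g ∈ I := Ideal.mul_mem_right _ _ hf
  have hgc : ∀ j, g.coeff j = f.coeff (j + n) * (f.coeff n)⁻¹ := by
    intro j
    rw [hg]
    have := AddMonoidAlgebra.coeff_mul_single_apply f (f.coeff n)⁻¹ (-n) j
    rw [this]
    congr 2
    simp
  have hg0 : g.coeff 0 = 1 := by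
    rw [hgc, zero_add, mul_inv_cancel₀ ha]
  have hcard : g.coeff.support.card = f.coeff.support.card := by
    have : g.coeff.support = f.coeff.support.image (fun i => i - n) := by
      ext j
      rw [Finsupp.mem_support_iff, hgc, Finset.mem_image]
      constructor
      · intro h
        refine ⟨j + n, ?_, by ring⟩
        rw [Finsupp.mem_support_iff]
        intro h0
        rw [h0, zero_mul] at h
        exact h rfl
      · rintro ⟨i, hi, rfl⟩
        rw [sub_add_cancel]
        exact mul_ne_zero (Finsupp.mem_support_iff.1 hi) (inv_ne_zero ha)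
    rw [this, Finset.card_image_of_injective]
    intro a b hab
    simpa using hab
  have hcoe : ∀ j, (s0 g - g).coeff j = sK (g.coeff j) * (tK ^ j * xK ^ j) - g.coeff j := by
    intro j
    rw [AddMonoidAlgebra.coeff_sub, Finsupp.sub_apply, BaseSimple_coeff]
  have hz : s0 g - g = 0 := by
    apply hmin _ (Ideal.sub_mem _ (hI g hgI) hgI)
    rw [← hcard]
    apply Finset.card_lt_card
    rw [Finset.ssubset_iff_of_subset]
    · refine ⟨0, ?_, ?_⟩
      · rw [Finsupp.mem_support_iff, hg0]; exact one_ne_zero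
      · rw [Finsupp.notMem_support_iff, hcoe, hg0, map_one, zpow_zero, zpow_zero, mul_one,
          mul_one, sub_self]
    · intro j hj
      rw [Finsupp.mem_support_iff] at hj ⊢
      intro h
      apply hj
      rw [hcoe, h, map_zero, zero_mul, sub_zero]
  have hg1 : g = 1 := by
    apply LaurentPolynomial.ext
    intro j
    rcases eq_or_ne j 0 with rfl | hj
    · rw [hg0, AddMonoidAlgebra.one_def, AddMonoidAlgebra.coeff_single, Finsupp.single_eq_same]
    · have h1 := hcoe j
      rw [hz] at h1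
      have h1' : g.coeff j = sK (g.coeff j) * (tK ^ j * xK ^ j) := by
        have h2 : (0 : KK) = sK (g.coeff j) * (tK ^ j * xK ^ j) - g.coeff j := h1
        exact (sub_eq_zero.1 h2.symm).symm
      have h3 : g.coeff j = 0 := by
        by_contra hne
        have hd := congrArg RatFunc.intDegree h1'
        have hsn : sK (g.coeff j) ≠ 0 := (map_ne_zero_iff _ sK.injective).2 hne
        have htn : tK ^ j ≠ 0 := zpow_ne_zero _ tK_ne
        have hxn : xK ^ j ≠ 0 := zpow_ne_zero _ xK_ne
        have hxd : (xK ^ j).intDegree = j := by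
          have hnat : ∀ m : ℕ, (xK ^ m).intDegree = m := by
            intro m
            induction m with
            | zero => rw [pow_zero, RatFunc.intDegree_one]; rfl
            | succ m ih =>
              rw [pow_succ, RatFunc.intDegree_mul (pow_ne_zero _ xK_ne) xK_ne, ih, xK,
                RatFunc.intDegree_X]
              push_cast
              ring
          obtain ⟨m, rfl | rfl⟩ := Int.eq_nat_or_neg j
          · rw [zpow_natCast, hnat]
          · rw [zpow_neg, zpow_natCast, RatFunc.intDegree_inv, hnat]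
        have htd : (tK ^ j).intDegree = 0 := by
          rw [tK, ← map_zpow₀, RatFunc.intDegree_C]
        rw [RatFunc.intDegree_mul hsn (mul_ne_zero htn hxn), RatFunc.intDegree_mul htn hxn,
          BaseSimple_deg, hxd, htd] at hd
        omega
      rw [h3, AddMonoidAlgebra.one_def, AddMonoidAlgebra.coeff_single,
        Finsupp.single_eq_of_ne hj]
  rw [Ideal.eq_top_iff_one, ← hg1]
  exact hgI

end AJG

end

section

/-! Item CoreBase: the base of the tower. -/

set_option autoImplicit false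

namespace AJG

theorem CoreBase_proof (h1 : S_BaseData) (h2 : S_BaseSimple) (h3 : S_BaseConst)
    (h4 : S_BaseInd) : S_CoreBase := by
  obtain ⟨ok, ht, sx, sh, sJ, hc⟩ := h1
  exact { ok := ok, ht := ht, sx := sx, sh := sh, sJ := sJ, simple := h2, const := ⟨hc, h3⟩,
          ind := h4 }

end AJG

end

section

/-!
# MP_d3fa71_gt: independence on the next level (item IndNext)
-/

open Polynomial

namespace AJG

/-- Independence is inherited along injections and rescaling. -/
theorem IndNext_inherit {A : Type} [CommRing A] [Algebra FF A] (σ : A →+* A) {V V' : Type}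
    (g : V → A) (g' : V' → A) (φ : V' → V) (hφ : Function.Injective φ) (u : V' → FF)
    (hu : ∀ v, u v ≠ 0) (hg : ∀ v, g' v = u v • g (φ v)) (h : IndepMod σ g) :
    IndepMod σ g' := by
  classical
  intro c b hc
  have h0 := h (c.sum fun v a => Finsupp.single (φ v) (a * u v)) b (by
    rw [← hc, Finsupp.sum_sum_index]
    · refine Finsupp.sum_congr fun v _ => ?_
      rw [Finsupp.sum_single_index (by simp), hg, mul_smul]
    · intro v
      simp
    · intro v a a'
      rw [add_smul])
  ext v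
  have h1 := DFunLike.congr_fun h0 (φ v)
  rw [Finsupp.sum_apply] at h1
  simp only [Finsupp.single_apply, hφ.eq_iff] at h1
  rw [Finsupp.sum, Finset.sum_eq_single v] at h1
  · rw [if_pos rfl, Finsupp.coe_zero, Pi.zero_apply] at h1
    exact (mul_eq_zero.mp h1).resolve_right (hu v)
  · intro w _ hw
    rw [if_neg hw]
  · intro hv
    rw [if_pos rfl, Finsupp.notMem_support_iff.mp hv, zero_mul]

theorem IndNext_degree {L : Lv} (M : Multiset (PT L)) (S₁ e : ℕ) (h : 0 < S₁ ∧ Even S₁)
    (he : e < 2) : Finsupp.degree (mono M S₁ e h he) = Multiset.card M := by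
  classical
  unfold mono
  have h1 := Multiset.toFinsupp_sum_eq (M.map fun P =>
    (⟨P, S₁, if P.s = 2 then 0 else e, h.1, h.2, by split_ifs <;> omega, by
      intro h2; simp [h2]⟩ : Var L))
  rw [Multiset.card_map] at h1
  rw [← h1]
  rfl

theorem IndNext_inj {L : Lv} (M M' : Multiset (PT L)) (S₁ S₁' e e' : ℕ)
    (h : 0 < S₁ ∧ Even S₁) (h' : 0 < S₁' ∧ Even S₁')
    (he : e < 2) (he' : e' < 2) (hm : mono M S₁ e h he = mono M' S₁' e' h' he') : M = M' := by
  classical
  unfold mono at hm
  have h1 := Multiset.toFinsupp.injective hm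
  have h2 := congrArg (Multiset.map (fun w : Var L => w.P)) h1
  rw [Multiset.map_map, Multiset.map_map] at h2
  simpa using h2

theorem IndNext_scale {L : Lv} (M : Multiset (PT L)) (S₁ e : ℕ)
    (h : 0 < S₁ ∧ Even S₁) (he : e < 2) (w : Var L) (hw : mono M S₁ e h he w ≠ 0) :
    w.S = S₁ := by
  classical
  unfold mono at hw
  rw [Multiset.toFinsupp_apply, Multiset.count_ne_zero, Multiset.mem_map] at hw
  obtain ⟨P, _, hP⟩ := hw
  rw [← hP]

theorem IndNext_unit {A : Type} [CommRing A] [Algebra FF A] (D : Dat A)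
    (ht : (D.t : A) = algebraMap FF A t) (n : ℤ) :
    ((D.t ^ n : Aˣ) : A) = algebraMap FF A (t ^ n) := by
  have h1 : D.t = Units.map (algebraMap FF A).toMonoidHom (Units.mk0 t t_ne) := by
    ext
    rw [ht]
    rfl
  rw [h1, ← map_zpow]
  change algebraMap FF A (((Units.mk0 t t_ne) ^ n : FFˣ) : FF) = _
  rw [Units.val_zpow_eq_zpow_val]
  rfl

theorem IndNext_sgM {L : Lv} (M : Multiset (PT L)) (e : ℕ) : ((sgM M e : ℤ) : FF) ≠ 0 := by
  unfold sgM
  rw [Ne, Int.cast_eq_zero, Multiset.prod_eq_zero_iff, Multiset.mem_map]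
  rintro ⟨P, _, hP⟩
  split_ifs at hP
  · exact pow_ne_zero e (by norm_num) hP
  · exact one_ne_zero hP

/-- The parameters of an index. -/
structure IndNext_Par (L : Lv) (S₁ : ℕ) where
  ϱ : ℤ
  s : ℕ
  S : ℕ
  i : ℕ
  p : ℕ
  κ : L.K
  M : Multiset (PT L)
  hs : 2 ≤ s
  hco : IsCoprime ϱ (s : ℤ)
  hS : 0 < S
  hS2 : Even S
  hi : i < 2
  h2 : s = 2 → i = 0
  hp : 1 ≤ p + Multiset.card M
  h0 : M = 0 → s * S = S₁

theorem IndNext_Par.hsc {L : Lv} {S₁ : ℕ} (q : IndNext_Par L S₁) :
    0 < q.s * q.S ∧ Even (q.s * q.S) :=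
  ⟨Nat.mul_pos (by have := q.hs; omega) q.hS, q.hS2.mul_left _⟩

theorem IndNext_Par.hpar {L : Lv} {S₁ : ℕ} (q : IndNext_Par L S₁) : par q.s q.i < 2 :=
  Nat.mod_lt _ (by norm_num)

/-- The parameters of an index. -/
def IndNext_par {L : Lv} {S₁ : ℕ} : Vir L.next S₁ ⊕ Var L.next → IndNext_Par L S₁
  | .inl v => ⟨v.ϱ, v.s, v.S, v.i, v.p, v.κ.1, v.κ.2, v.hs, v.hco, v.hS, v.hS2, v.hi, v.h2,
      le_trans v.hp (Nat.le_add_right _ _), fun _ => v.hS1⟩
  | .inr w => ⟨w.P.r, w.P.s, w.S, w.i, 0, w.P.κ.1, w.P.κ.2, w.P.hs, w.P.hco, w.hS, w.hS2, w.hi,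
      w.h2, by
        have h : w.P.κ.2 ≠ 0 := w.P.hnew
        rw [zero_add]
        exact Multiset.card_pos.mpr h, fun h => absurd h w.P.hnew⟩

theorem IndNext_par_inj {L : Lv} {S₁ : ℕ} (v v' : Vir L.next S₁ ⊕ Var L.next)
    (h1 : (IndNext_par v).ϱ = (IndNext_par v').ϱ) (h2 : (IndNext_par v).s = (IndNext_par v').s)
    (h3 : (IndNext_par v).S = (IndNext_par v').S) (h4 : (IndNext_par v).i = (IndNext_par v').i)
    (h5 : (IndNext_par v).p = (IndNext_par v').p) (h6 : (IndNext_par v).κ = (IndNext_par v').κ)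
    (h7 : (IndNext_par v).M = (IndNext_par v').M) : v = v' := by
  rcases v with v | w <;> rcases v' with v' | w'
  · obtain ⟨a1, a2, a3, a4, a5, a6, _, _, _, _, _, _, _, _⟩ := v
    obtain ⟨b1, b2, b3, b4, b5, b6, _, _, _, _, _, _, _, _⟩ := v'
    have h6' : a6 = b6 := Prod.ext h6 h7
    change a1 = b1 at h1
    change a2 = b2 at h2
    change a3 = b3 at h3
    change a4 = b4 at h4
    change a5 = b5 at h5
    subst h1 h2 h3 h4 h5 h6'
    rfl
  · have h : v.p = 0 := h5
    have := v.hp
    omega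
  · have h : 0 = v'.p := h5
    have := v'.hp
    omega
  · obtain ⟨⟨a1, a2, a6, _, _, _, _⟩, a3, a4, _, _, _, _⟩ := w
    obtain ⟨⟨b1, b2, b6, _, _, _, _⟩, b3, b4, _, _, _, _⟩ := w'
    have h6' : a6 = b6 := Prod.ext h6 h7
    change a1 = b1 at h1
    change a2 = b2 at h2
    change a3 = b3 at h3
    change a4 = b4 at h4
    subst h1 h2 h3 h4 h6'
    rfl

theorem IndNext_proof (h1 : S_IndStep) (h2 : S_TopCoeff) : S_IndNext := by
  intro L A _ _ D σ J hC S₁
  classical
  refine h1 A σ (Var L) (gvar D J) hC.const (Vir L.next S₁ ⊕ Var L.next) _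
    (fun v => mono (IndNext_par v).M ((IndNext_par v).s * (IndNext_par v).S)
      (par (IndNext_par v).s (IndNext_par v).i) (IndNext_par v).hsc (IndNext_par v).hpar)
    (fun v => (sgM (IndNext_par v).M (par (IndNext_par v).s (IndNext_par v).i) : FF) *
      t ^ (-AA (IndNext_par v).M))
    (fun v => gv D J ((IndNext_par v).ϱ - (IndNext_par v).s * AA (IndNext_par v).M)
      (IndNext_par v).s (IndNext_par v).S (IndNext_par v).i
      ((IndNext_par v).p + Multiset.card (IndNext_par v).M) (IndNext_par v).κ) ?_ ?_ ?_ ?_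
  · intro v
    exact mul_ne_zero (IndNext_sgM _ _) (zpow_ne_zero _ t_ne)
  · intro v
    rw [IndNext_degree]
    have h := (h2 L A D J (IndNext_par v).ϱ (IndNext_par v).s (IndNext_par v).S
      (IndNext_par v).i (IndNext_par v).p (IndNext_par v).κ (IndNext_par v).M
      (IndNext_par v).hs (IndNext_par v).hS (IndNext_par v).hS2 (IndNext_par v).hi
      (IndNext_par v).hsc (IndNext_par v).hpar).1
    rcases v with v | w
    · exact h
    · exact h
  · intro v n hn
    rw [IndNext_degree] at hn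
    have h := (h2 L A D J (IndNext_par v).ϱ (IndNext_par v).s (IndNext_par v).S
      (IndNext_par v).i (IndNext_par v).p (IndNext_par v).κ (IndNext_par v).M
      (IndNext_par v).hs (IndNext_par v).hS (IndNext_par v).hS2 (IndNext_par v).hi
      (IndNext_par v).hsc (IndNext_par v).hpar).2 n hn
    have hf : gfam (L := L.next) (nextD (L := L) D) (extJ D J) S₁ v =
        gv (L := L.next) (nextD (L := L) D) (extJ D J) (IndNext_par v).ϱ (IndNext_par v).s
          (IndNext_par v).S (IndNext_par v).i (IndNext_par v).p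
          ((IndNext_par v).κ, (IndNext_par v).M) := by
      rcases v with v | w <;> rfl
    rw [hf]
    split_ifs with hc
    · rw [h.1 hc, Algebra.smul_def, map_mul, IndNext_unit D hC.ht, map_intCast]
    · exact h.2 hc
  · intro a
    -- the common scale
    obtain ⟨S', hS'⟩ : ∃ S' : ℕ, ∀ v : Vir L.next S₁ ⊕ Var L.next,
        mono (IndNext_par v).M ((IndNext_par v).s * (IndNext_par v).S)
          (par (IndNext_par v).s (IndNext_par v).i) (IndNext_par v).hsc
            (IndNext_par v).hpar = a → (IndNext_par v).s * (IndNext_par v).S = S' := by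
      by_cases ha : ∃ w : Var L, a w ≠ 0
      · obtain ⟨w, hw⟩ := ha
        refine ⟨w.S, fun v hv => ?_⟩
        rw [← hv] at hw
        exact (IndNext_scale _ _ _ _ _ w hw).symm
      · refine ⟨S₁, fun v hv => (IndNext_par v).h0 ?_⟩
        have ha0 : a = 0 := by
          ext w
          by_contra hw
          exact ha ⟨w, hw⟩
        rw [ha0] at hv
        have h3 := congrArg Finsupp.degree hv
        rw [IndNext_degree, map_zero] at h3
        exact Multiset.card_eq_zero.mp h3
    refine IndNext_inherit σ (gfam D J S') _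
      (Sum.map (fun v => (⟨(IndNext_par v.1).ϱ - (IndNext_par v.1).s * AA (IndNext_par v.1).M,
        (IndNext_par v.1).s, (IndNext_par v.1).S, (IndNext_par v.1).i,
        (IndNext_par v.1).p + Multiset.card (IndNext_par v.1).M, (IndNext_par v.1).κ,
        (IndNext_par v.1).hs, ?_, hS' v.1 v.2, (IndNext_par v.1).hS, (IndNext_par v.1).hS2,
        (IndNext_par v.1).hi, (IndNext_par v.1).h2, (IndNext_par v.1).hp⟩ : Vir L S')) id)
      ?_ (Sum.elim (fun _ => 1) (fun w => t ^ (w.P.r * (w.P.s : ℤ)))) ?_ ?_ (hC.ind S')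
    · have h3 := (IndNext_par v.1).hco.add_mul_left_left (-AA (IndNext_par v.1).M)
      rwa [mul_neg, ← sub_eq_add_neg] at h3
    · refine Function.Injective.sumMap ?_ Function.injective_id
      intro v v' hv
      have hM : (IndNext_par v.1).M = (IndNext_par v'.1).M :=
        IndNext_inj _ _ _ _ _ _ _ _ _ _ (v.2.trans v'.2.symm)
      have e2 : (IndNext_par v.1).s = (IndNext_par v'.1).s := congrArg Vir.s hv
      have e1 : (IndNext_par v.1).ϱ - (IndNext_par v.1).s * AA (IndNext_par v.1).M =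
        (IndNext_par v'.1).ϱ - (IndNext_par v'.1).s * AA (IndNext_par v'.1).M :=
        congrArg Vir.ϱ hv
      have e3 : (IndNext_par v.1).S = (IndNext_par v'.1).S := congrArg Vir.S hv
      have e4 : (IndNext_par v.1).i = (IndNext_par v'.1).i := congrArg Vir.i hv
      have e5 : (IndNext_par v.1).p + Multiset.card (IndNext_par v.1).M =
        (IndNext_par v'.1).p + Multiset.card (IndNext_par v'.1).M := congrArg Vir.p hv
      have e6 : (IndNext_par v.1).κ = (IndNext_par v'.1).κ := congrArg Vir.κ hv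
      rw [hM] at e5
      rw [hM, e2] at e1
      exact Subtype.ext (IndNext_par_inj _ _ (by linarith) e2 e3 e4 (by omega) e6 hM)
    · rintro (v | w)
      · exact one_ne_zero
      · exact zpow_ne_zero _ t_ne
    · rintro (v | w)
      · change _ = (1 : FF) • _
        rw [one_smul]
        rfl
      · change gvar D J w = t ^ (w.P.r * (w.P.s : ℤ)) • gfam D J S' (Sum.inr w)
        rw [Algebra.smul_def, ← IndNext_unit D hC.ht]
        rfl

end AJG

end

section

/-!
# MP_d3fa71_gt, item IndStep (helper75): independence modulo `σ - 1` from the top coefficients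
-/

open MvPolynomial

namespace AJG

section IndStep

variable {A : Type} [CommRing A] {W : Type}

/-- all monomials of `f` have degree at most `k` -/
def IndStep_Sm (k : ℤ) (f : MvPolynomial W A) : Prop :=
  ∀ n : W →₀ ℕ, coeff n f ≠ 0 → ((Finsupp.degree n : ℕ) : ℤ) ≤ k

theorem IndStep_Sm_mono {k l : ℤ} (h : k ≤ l) {f : MvPolynomial W A} (hf : IndStep_Sm k f) :
    IndStep_Sm l f := fun n hn => (hf n hn).trans h

theorem IndStep_Sm_zero (k : ℤ) : IndStep_Sm k (0 : MvPolynomial W A) := fun n hn =>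
  absurd (coeff_zero n) hn

theorem IndStep_Sm_add {k : ℤ} {f g : MvPolynomial W A} (hf : IndStep_Sm k f)
    (hg : IndStep_Sm k g) : IndStep_Sm k (f + g) := by
  intro n hn
  rw [coeff_add] at hn
  by_cases h : coeff n f = 0
  · rw [h, zero_add] at hn
    exact hg n hn
  · exact hf n h

theorem IndStep_Sm_sum {k : ℤ} {ι : Type} (s : Finset ι) (f : ι → MvPolynomial W A)
    (hf : ∀ i ∈ s, IndStep_Sm k (f i)) : IndStep_Sm k (∑ i ∈ s, f i) := by
  classical
  induction s using Finset.induction_on with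
  | empty => simpa using IndStep_Sm_zero k
  | insert a s ha ih =>
    rw [Finset.sum_insert ha]
    exact IndStep_Sm_add (hf a (Finset.mem_insert_self a s))
      (ih fun i hi => hf i (Finset.mem_insert_of_mem hi))

theorem IndStep_Sm_mul {k l : ℤ} {f g : MvPolynomial W A} (hf : IndStep_Sm k f)
    (hg : IndStep_Sm l g) : IndStep_Sm (k + l) (f * g) := by
  classical
  intro n hn
  rw [coeff_mul] at hn
  obtain ⟨x, hx, hne⟩ := Finset.exists_ne_zero_of_sum_ne_zero hn
  rw [Finset.HasAntidiagonal.mem_antidiagonal] at hx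
  have h1 := hf x.1 fun h => hne (by rw [h, zero_mul])
  have h2 := hg x.2 fun h => hne (by rw [h, mul_zero])
  rw [← hx, map_add]
  push_cast
  linarith

theorem IndStep_Sm_C (a : A) : IndStep_Sm 0 (C a : MvPolynomial W A) := by
  classical
  intro n hn
  rw [coeff_C] at hn
  have : 0 = n := by
    by_contra h
    exact hn (if_neg h)
  rw [← this]
  simp

theorem IndStep_Sm_X (w : W) : IndStep_Sm 1 (X w : MvPolynomial W A) := by
  classical
  intro n hn
  rw [coeff_X] at hn
  have : Finsupp.single w 1 = n := by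
    by_contra h
    exact hn (if_neg h)
  rw [← this]
  simp

/-- the derivation `Σ g_w ∂_w` -/
noncomputable def IndStep_D (g : W → A) : Derivation A (MvPolynomial W A) (MvPolynomial W A) :=
  mkDerivation A (fun w => C (g w))

/-- the shift `X_w ↦ X_w + g_w` -/
noncomputable def IndStep_T (g : W → A) : MvPolynomial W A →ₐ[A] MvPolynomial W A :=
  aeval (fun w => X w + C (g w))

def IndStep_Good (g : W → A) (k : ℤ) (f : MvPolynomial W A) : Prop :=
  IndStep_Sm k f ∧ IndStep_Sm (k - 1) (IndStep_D g f) ∧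
    IndStep_Sm (k - 2) (IndStep_T g f - f - IndStep_D g f)

theorem IndStep_Good_mono {g : W → A} {k l : ℤ} (h : k ≤ l) {f : MvPolynomial W A}
    (hf : IndStep_Good g k f) : IndStep_Good g l f :=
  ⟨IndStep_Sm_mono h hf.1, IndStep_Sm_mono (by linarith) hf.2.1,
    IndStep_Sm_mono (by linarith) hf.2.2⟩

theorem IndStep_Good_zero (g : W → A) (k : ℤ) : IndStep_Good g k (0 : MvPolynomial W A) := by
  refine ⟨IndStep_Sm_zero k, ?_, ?_⟩
  · rw [map_zero]; exact IndStep_Sm_zero _
  · rw [map_zero, map_zero, sub_zero, sub_zero]; exact IndStep_Sm_zero _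

theorem IndStep_Good_add {g : W → A} {k : ℤ} {f f' : MvPolynomial W A}
    (hf : IndStep_Good g k f) (hf' : IndStep_Good g k f') : IndStep_Good g k (f + f') := by
  refine ⟨IndStep_Sm_add hf.1 hf'.1, ?_, ?_⟩
  · rw [map_add]; exact IndStep_Sm_add hf.2.1 hf'.2.1
  · have : IndStep_T g (f + f') - (f + f') - IndStep_D g (f + f') =
        (IndStep_T g f - f - IndStep_D g f) + (IndStep_T g f' - f' - IndStep_D g f') := by
      rw [map_add, map_add]; ring
    rw [this]
    exact IndStep_Sm_add hf.2.2 hf'.2.2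

theorem IndStep_Good_mul {g : W → A} {k l : ℤ} {f f' : MvPolynomial W A}
    (hf : IndStep_Good g k f) (hf' : IndStep_Good g l f') : IndStep_Good g (k + l) (f * f') := by
  obtain ⟨a1, a2, a3⟩ := hf
  obtain ⟨b1, b2, b3⟩ := hf'
  refine ⟨IndStep_Sm_mul a1 b1, ?_, ?_⟩
  · rw [Derivation.leibniz, smul_eq_mul, smul_eq_mul]
    exact IndStep_Sm_add (IndStep_Sm_mono (by linarith) (IndStep_Sm_mul a1 b2))
      (IndStep_Sm_mono (by linarith) (IndStep_Sm_mul b1 a2))
  · have : IndStep_T g (f * f') - f * f' - IndStep_D g (f * f') =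
        (IndStep_T g f - f - IndStep_D g f) *
            (f' + IndStep_D g f' + (IndStep_T g f' - f' - IndStep_D g f')) +
          (f * (IndStep_T g f' - f' - IndStep_D g f') + IndStep_D g f * IndStep_D g f') +
          IndStep_D g f * (IndStep_T g f' - f' - IndStep_D g f') := by
      rw [Derivation.leibniz, smul_eq_mul, smul_eq_mul, map_mul]; ring
    rw [this]
    refine IndStep_Sm_add (IndStep_Sm_add ?_ (IndStep_Sm_add ?_ ?_)) ?_
    · refine IndStep_Sm_mono (by linarith) (IndStep_Sm_mul a3 (l := l) ?_)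
      exact IndStep_Sm_add (IndStep_Sm_add b1 (IndStep_Sm_mono (by linarith) b2))
        (IndStep_Sm_mono (by linarith) b3)
    · exact IndStep_Sm_mono (by linarith) (IndStep_Sm_mul a1 b3)
    · exact IndStep_Sm_mono (by linarith) (IndStep_Sm_mul a2 b2)
    · exact IndStep_Sm_mono (by linarith) (IndStep_Sm_mul a2 b3)

theorem IndStep_Good_C (g : W → A) (a : A) : IndStep_Good g 0 (C a : MvPolynomial W A) := by
  have h1 : IndStep_D g (C a) = 0 := by
    have := (IndStep_D g).map_algebraMap a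
    rwa [algebraMap_eq] at this
  have h2 : IndStep_T g (C a) = C a := by unfold IndStep_T; rw [aeval_C, algebraMap_eq]
  refine ⟨IndStep_Sm_C a, ?_, ?_⟩
  · rw [h1]; exact IndStep_Sm_zero _
  · rw [h1, h2, sub_self, sub_zero]; exact IndStep_Sm_zero _

theorem IndStep_Good_X (g : W → A) (w : W) : IndStep_Good g 1 (X w : MvPolynomial W A) := by
  have h1 : IndStep_D g (X w) = C (g w) := by unfold IndStep_D; rw [mkDerivation_X]
  have h2 : IndStep_T g (X w) = X w + C (g w) := by unfold IndStep_T; rw [aeval_X]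
  refine ⟨IndStep_Sm_X w, ?_, ?_⟩
  · rw [h1]; exact IndStep_Sm_mono (by norm_num) (IndStep_Sm_C _)
  · rw [h1, h2, add_sub_cancel_left, sub_self]; exact IndStep_Sm_zero _

theorem IndStep_Good_mon (g : W → A) (n : W →₀ ℕ) :
    IndStep_Good g ((Finsupp.degree n : ℕ) : ℤ) (monomial n (1 : A)) := by
  induction n using Finsupp.induction_linear with
  | zero =>
    have := IndStep_Good_C g (1 : A)
    simpa using this
  | add n n' hn hn' =>
    have := IndStep_Good_mul hn hn'
    rw [monomial_mul, one_mul] at this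
    rw [map_add]
    push_cast
    exact this
  | single w k =>
    induction k with
    | zero =>
      have := IndStep_Good_C g (1 : A)
      simpa using this
    | succ k ih =>
      have h := IndStep_Good_mul ih (IndStep_Good_X g w)
      have e : (monomial (Finsupp.single w k) (1 : A)) * X w =
          monomial (Finsupp.single w (k + 1)) (1 : A) := by
        rw [X, monomial_mul, one_mul, ← Finsupp.single_add]
      rw [e] at h
      simpa using h

theorem IndStep_Good_of (g : W → A) {k : ℤ} {f : MvPolynomial W A} (hf : IndStep_Sm k f) :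
    IndStep_Good g k f := by
  classical
  have key : ∀ s : Finset (W →₀ ℕ), s ⊆ f.support →
      IndStep_Good g k (∑ n ∈ s, monomial n (coeff n f)) := by
    intro s
    induction s using Finset.induction_on with
    | empty => intro _; simpa using IndStep_Good_zero g k
    | insert a s ha ih =>
      intro hs
      rw [Finset.sum_insert ha]
      refine IndStep_Good_add ?_ (ih fun i hi => hs (Finset.mem_insert_of_mem hi))
      have h1 := mem_support_iff.1 (hs (Finset.mem_insert_self a s))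
      have h2 := IndStep_Good_mul (IndStep_Good_C g (coeff a f)) (IndStep_Good_mon g a)
      rw [C_mul_monomial, mul_one, zero_add] at h2
      exact IndStep_Good_mono (hf a h1) h2
  have := key f.support subset_rfl
  rwa [← f.as_sum] at this

theorem IndStep_sext_eq (σ : A →+* A) (g : W → A) (b : MvPolynomial W A) :
    sext σ g b = IndStep_T g (map σ b) := by
  have : sext σ g = (IndStep_T g).toRingHom.comp (map σ) := by
    refine ringHom_ext ?_ ?_
    · intro r
      simp [sext, IndStep_T, algebraMap_eq]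
    · intro w
      simp [sext, IndStep_T]
  rw [this]
  rfl

theorem IndStep_Sm_map (σ : A →+* A) {k : ℤ} {b : MvPolynomial W A} (hb : IndStep_Sm k b) :
    IndStep_Sm k (map σ b) := by
  intro n hn
  rw [coeff_map] at hn
  exact hb n fun h => hn (by rw [h, map_zero])

/-- FACT (2) -/
theorem IndStep_fact2 (σ : A →+* A) (g : W → A) {k : ℤ} {b : MvPolynomial W A}
    (hb : IndStep_Sm k b) (n : W →₀ ℕ) (hn : k ≤ ((Finsupp.degree n : ℕ) : ℤ)) :
    coeff n (sext σ g b) = σ (coeff n b) := by
  obtain ⟨-, h2, h3⟩ := IndStep_Good_of g (IndStep_Sm_map σ hb)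
  have e2 : coeff n (IndStep_D g (map σ b)) = 0 := by
    by_contra h
    have := h2 n h
    linarith
  have e3 : coeff n (IndStep_T g (map σ b) - map σ b - IndStep_D g (map σ b)) = 0 := by
    by_contra h
    have := h3 n h
    linarith
  rw [coeff_sub, coeff_sub, e2, sub_zero, sub_eq_zero] at e3
  rw [IndStep_sext_eq, e3, coeff_map]

theorem IndStep_Dsum (s : Finset W) (d : W → Derivation A (MvPolynomial W A) (MvPolynomial W A))
    (f : MvPolynomial W A) : (∑ w ∈ s, d w) f = ∑ w ∈ s, d w f := by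
  classical
  induction s using Finset.induction_on with
  | empty => simp
  | insert a s ha ih => rw [Finset.sum_insert ha, Finset.sum_insert ha, Derivation.add_apply, ih]

theorem IndStep_D_coeff (g : W → A) (f : MvPolynomial W A) (s : Finset W) (hs : f.vars ⊆ s)
    (m : W →₀ ℕ) : coeff m (IndStep_D g f) =
      ∑ w ∈ s, coeff (m + Finsupp.single w 1) f * (m w + 1) * g w := by
  classical
  have h : IndStep_D g f = (∑ w ∈ s, (C (g w) : MvPolynomial W A) • pderiv w) f := by
    refine derivation_eq_of_forall_mem_vars fun v hv => ?_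
    unfold IndStep_D
    rw [mkDerivation_X, IndStep_Dsum, Finset.sum_eq_single v]
    · simp
    · intro w _ hwv
      rw [Derivation.smul_apply, pderiv_X_of_ne hwv.symm, smul_zero]
    · intro h
      exact absurd (hs hv) h
  rw [h, IndStep_Dsum, coeff_sum]
  refine Finset.sum_congr rfl fun w _ => ?_
  rw [Derivation.smul_apply, smul_eq_mul, coeff_C_mul, coeff_pderiv]
  ring

/-- FACT (3) -/
theorem IndStep_fact3 (σ : A →+* A) (g : W → A) {b : MvPolynomial W A} (m : W →₀ ℕ)
    (hb : IndStep_Sm (((Finsupp.degree m : ℕ) : ℤ) + 1) b) :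
    coeff m (sext σ g b) = σ (coeff m b) +
      ∑ w ∈ b.vars, σ (coeff (m + Finsupp.single w 1) b) * (m w + 1) * g w := by
  obtain ⟨-, h2, h3⟩ := IndStep_Good_of g (IndStep_Sm_map σ hb)
  have e3 : coeff m (IndStep_T g (map σ b) - map σ b - IndStep_D g (map σ b)) = 0 := by
    by_contra h
    have := h3 m h
    linarith
  rw [coeff_sub, coeff_sub, sub_sub, sub_eq_zero] at e3
  rw [IndStep_sext_eq, e3, coeff_map, IndStep_D_coeff g _ b.vars (vars_map b σ)]
  simp only [coeff_map]

/-- the coefficients as elements of the base field -/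
theorem IndStep_key [Algebra FF A] (σ : A →+* A) (g : W → A) (hσ : SConst σ)
    {b : MvPolynomial W A} (m : W →₀ ℕ)
    (hb : IndStep_Sm (((Finsupp.degree m : ℕ) : ℤ) + 1) b)
    (hF : ∀ n : W →₀ ℕ, Finsupp.degree n = Finsupp.degree m + 1 → σ (coeff n b) = coeff n b) :
    ∃ c : W →₀ FF, coeff m (sext σ g b) = σ (coeff m b) + (c.sum fun w a => a • g w) ∧
      ∀ w, algebraMap FF A (c w) = coeff (m + Finsupp.single w 1) b * (m w + 1) := by
  classical
  have hdeg : ∀ w, Finsupp.degree (m + Finsupp.single w 1) = Finsupp.degree m + 1 := by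
    intro w; simp
  have hex : ∀ w, ∃ c : FF, algebraMap FF A c = coeff (m + Finsupp.single w 1) b :=
    fun w => hσ.2 _ (hF _ (hdeg w))
  choose e he using hex
  have hsub : ∀ w, (if coeff (m + Finsupp.single w 1) b = 0 then 0 else e w * (m w + 1)) ≠ 0 →
      w ∈ b.vars := by
    intro w hw
    rw [mem_vars_iff_mem_support]
    refine ⟨m + Finsupp.single w 1, ?_, ?_⟩
    · rw [mem_support_iff]
      intro h
      exact hw (if_pos h)
    · simp
  refine ⟨Finsupp.onFinset b.vars (fun w => if coeff (m + Finsupp.single w 1) b = 0 then 0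
    else e w * (m w + 1)) hsub, ?_, ?_⟩
  · rw [IndStep_fact3 σ g m hb, Finsupp.onFinset_sum hsub (g := fun w a => a • g w)
      (fun w => zero_smul _ _)]
    congr 1
    refine Finset.sum_congr rfl fun w _ => ?_
    split_ifs with h
    · rw [h, map_zero, zero_mul, zero_mul, zero_smul]
    · rw [Algebra.smul_def, map_mul, he, hF _ (hdeg w), map_add, map_natCast, map_one]
  · intro w
    rw [Finsupp.onFinset_apply]
    split_ifs with h
    · rw [h, map_zero, zero_mul]
    · rw [map_mul, he, map_add, map_natCast, map_one]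

theorem IndStep_char [Algebra FF A] (k : ℕ) {a : A} (h : a * (k + 1) = 0) : a = 0 := by
  have h1 : ((k : FF) + 1) ≠ 0 := Nat.cast_add_one_ne_zero k
  have h2 : ((k : A) + 1) = algebraMap FF A ((k : FF) + 1) := by
    rw [map_add, map_natCast, map_one]
  have h3 : a * ((k : A) + 1) * algebraMap FF A ((k : FF) + 1)⁻¹ = a := by
    rw [h2, mul_assoc, ← map_mul, mul_inv_cancel₀ h1, map_one, mul_one]
  rw [← h3, h, zero_mul]

theorem IndStep_sumElim [Algebra FF A] (σ : A →+* A) {V : Type} (p : V → A) (g : W → A)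
    (h : IndepMod σ (Sum.elim p g)) (c1 : V →₀ FF) (c2 : W →₀ FF) (b : A)
    (hb : (c1.sum fun v a => a • p v) + (c2.sum fun w a => a • g w) = σ b - b) :
    c1 = 0 ∧ c2 = 0 := by
  have h1 := h (c1.sumElim c2) b (by
    rw [Finsupp.sum_sumElim]
    exact hb)
  constructor
  · ext v
    have := DFunLike.congr_fun h1 (Sum.inl v)
    simpa using this
  · ext v
    have := DFunLike.congr_fun h1 (Sum.inr v)
    simpa using this

theorem IndStep_exists_single (n : W →₀ ℕ) (k : ℕ) (hn : Finsupp.degree n = k + 1) :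
    ∃ (m : W →₀ ℕ) (w : W), n = m + Finsupp.single w 1 ∧ Finsupp.degree m = k := by
  classical
  have hne : n ≠ 0 := by
    rintro rfl
    simp at hn
  obtain ⟨w, hw⟩ := Finsupp.ne_iff.1 hne
  have hle : Finsupp.single w 1 ≤ n := by
    rw [Finsupp.single_le_iff]
    exact Nat.one_le_iff_ne_zero.2 hw
  refine ⟨n - Finsupp.single w 1, w, (tsub_add_cancel_of_le hle).symm, ?_⟩
  have h1 := congrArg Finsupp.degree (tsub_add_cancel_of_le hle)
  rw [map_add] at h1
  simp at h1
  omega

end IndStep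

theorem IndStep_proof : S_IndStep := by
  classical
  intro A _ _ σ W _ g hσ V f m u g' hu hdeg hcoef hind c b hcb
  by_contra hc
  have hsupp : c.support.Nonempty := Finsupp.support_nonempty_iff.2 hc
  obtain ⟨v₀, hv₀, hmax⟩ := Finset.exists_max_image c.support
    (fun v => Finsupp.degree (m v)) hsupp
  set N : ℕ := Finsupp.degree (m v₀) with hN
  set L : MvPolynomial W A := c.sum fun v a => a • f v with hL
  have hfSm : ∀ v, IndStep_Sm ((Finsupp.degree (m v) : ℕ) : ℤ) (f v) := by
    intro v n hn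
    have h1 := le_totalDegree (mem_support_iff.2 hn)
    have h2 := h1.trans (hdeg v)
    have h3 : (n.sum fun _ e => e) = Finsupp.degree n := rfl
    rw [h3] at h2
    exact_mod_cast h2
  have hLcoeff : ∀ n : W →₀ ℕ, coeff n L = ∑ v ∈ c.support, c v • coeff n (f v) := by
    intro n
    rw [hL, Finsupp.sum, coeff_sum]
    exact Finset.sum_congr rfl fun v _ => coeff_smul _ _ _
  have hLzero : ∀ n : W →₀ ℕ, N < Finsupp.degree n → coeff n L = 0 := by
    intro n hn
    rw [hLcoeff]
    refine Finset.sum_eq_zero fun v hv => ?_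
    have : coeff n (f v) = 0 := by
      by_contra h
      have h1 := hfSm v n h
      have h2 := hmax v hv
      have h3 : Finsupp.degree n ≤ Finsupp.degree (m v) := by exact_mod_cast h1
      omega
    rw [this, smul_zero]
  -- the coefficients of degree > N + something
  have hinv : ∀ k : ℕ, N < k → IndStep_Sm (k : ℤ) b → ∀ n : W →₀ ℕ, Finsupp.degree n = k →
      σ (coeff n b) = coeff n b := by
    intro k hk hb n hn
    have h1 := hLzero n (by omega)
    rw [hcb, coeff_sub, IndStep_fact2 σ g hb n (by rw [hn]), sub_eq_zero] at h1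
    exact h1
  have hstep : ∀ k : ℕ, N + 1 ≤ k → IndStep_Sm ((k : ℤ) + 1) b → IndStep_Sm (k : ℤ) b := by
    intro k hk hb n hn
    by_contra hlt
    have h1 := hb n hn
    have h2 : Finsupp.degree n = k + 1 := by
      have : (k : ℤ) < ((Finsupp.degree n : ℕ) : ℤ) := not_le.1 hlt
      omega
    obtain ⟨m', w, hmw, hm'⟩ := IndStep_exists_single n k h2
    have hb' : IndStep_Sm (((Finsupp.degree m' : ℕ) : ℤ) + 1) b := by rw [hm']; exact hb
    obtain ⟨c', hc', hcw⟩ := IndStep_key σ g hσ m' hb' (fun n' hn' => hinv (k + 1) (by omega)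
      (by push_cast; exact hb) n' (by rw [hn', hm']))
    have h3 := hLzero m' (by omega)
    rw [hcb, coeff_sub, hc'] at h3
    have h4 := IndStep_sumElim σ _ g (hind 0) 0 c' (-(coeff m' b)) (by
      rw [Finsupp.sum_zero_index, zero_add, map_neg]
      linear_combination h3)
    have h5 := hcw w
    rw [h4.2, Finsupp.zero_apply, map_zero] at h5
    have h6 := IndStep_char (m' w) h5.symm
    rw [← hmw] at h6
    exact hn h6
  have hSmb : IndStep_Sm ((N : ℤ) + 1) b := by
    have h0 : IndStep_Sm ((N + 1 + b.totalDegree : ℕ) : ℤ) b := by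
      intro n hn
      have h1 := le_totalDegree (mem_support_iff.2 hn)
      have h3 : (n.sum fun _ e => e) = Finsupp.degree n := rfl
      rw [h3] at h1
      exact_mod_cast (by omega : Finsupp.degree n ≤ N + 1 + b.totalDegree)
    have h1 : ∀ j : ℕ, IndStep_Sm ((N + 1 + j : ℕ) : ℤ) b → IndStep_Sm ((N : ℤ) + 1) b := by
      intro j
      induction j with
      | zero => intro h; simpa using h
      | succ j ih =>
        intro h
        refine ih (hstep (N + 1 + j) (by omega) ?_)
        have e : ((N + 1 + j : ℕ) : ℤ) + 1 = ((N + 1 + (j + 1) : ℕ) : ℤ) := by push_cast; ring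
        rw [e]
        exact h
    exact h1 _ h0
  set a : W →₀ ℕ := m v₀ with ha
  have hSmb' : IndStep_Sm (((Finsupp.degree a : ℕ) : ℤ) + 1) b := hSmb
  obtain ⟨c', hc', -⟩ := IndStep_key σ g hσ a hSmb' (fun n' hn' => hinv (N + 1) (by omega)
    (by push_cast; exact hSmb) n' hn')
  -- coefficient at a
  have hLa : coeff a L = ∑ v ∈ c.support, if m v = a then (c v * u v) • g' v else 0 := by
    rw [hLcoeff]
    refine Finset.sum_congr rfl fun v hv => ?_
    by_cases hva : m v = a
    · rw [if_pos hva, hcoef v a (by rw [hva]), if_pos hva.symm, smul_smul]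
    · rw [if_neg hva]
      by_cases hd : Finsupp.degree (m v) = N
      · rw [hcoef v a (by rw [hd]), if_neg (fun h => hva h.symm), smul_zero]
      · have h2 := hmax v hv
        have : coeff a (f v) = 0 := by
          by_contra h
          have h1 : Finsupp.degree a ≤ Finsupp.degree (m v) := by exact_mod_cast hfSm v a h
          have h3 : Finsupp.degree (m v) ≤ N := h2
          exact hd (le_antisymm h3 h1)
        rw [this, smul_zero]
  -- finitely supported function on the fibre
  let c1 : {v : V // m v = a} →₀ FF :=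
    Finsupp.comapDomain (fun v : {v : V // m v = a} => v.1) (c.mapRange id rfl)
      Subtype.val_injective.injOn
  let c2 : {v : V // m v = a} →₀ FF :=
    c1.zipWith (fun x y => x * y) (mul_zero _) (Finsupp.onFinset c1.support
      (fun v => if v ∈ c1.support then u v.1 else 0) (fun v hv => by
        by_contra h
        exact hv (if_neg h)))
  have hc2 : ∀ v, c2 v = c v.1 * u v.1 := by
    intro v
    have h1 : c1 v = c v.1 := rfl
    show c1 v * (if v ∈ c1.support then u v.1 else 0) = _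
    split_ifs with h
    · rw [h1]
    · rw [Finsupp.mem_support_iff, not_not] at h
      rw [mul_zero, ← h1, h, zero_mul]
  have hsum : (c2.sum fun v x => x • g' v.1) =
      ∑ v ∈ c.support, if m v = a then (c v * u v) • g' v else 0 := by
    rw [← Finset.sum_filter]
    have h1 : (c.support.filter fun v => m v = a) =
        (c1.support.map (Function.Embedding.subtype _)) := by
      ext v
      simp only [Finset.mem_filter, Finset.mem_map, Function.Embedding.coe_subtype,
        Finsupp.mem_support_iff, Subtype.exists, exists_and_right, exists_eq_right]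
      constructor
      · rintro ⟨h1, h2⟩; exact ⟨h2, h1⟩
      · rintro ⟨h1, h2⟩; exact ⟨h2, h1⟩
    rw [h1, Finset.sum_map]
    rw [Finsupp.sum_of_support_subset c2 (s := c1.support)]
    · exact Finset.sum_congr rfl fun v _ => by rw [hc2]; rfl
    · intro v hv
      rw [Finsupp.mem_support_iff] at hv ⊢
      intro h
      apply hv
      have h2 : c1 v = c v.1 := rfl
      rw [hc2, ← h2, h, zero_mul]
    · intro v _; exact zero_smul _ _
  have h3 : coeff a L = coeff a (sext σ g b) - coeff a b := by rw [hcb, coeff_sub]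
  rw [hLa, ← hsum, hc'] at h3
  have h4 := IndStep_sumElim σ (fun v : {v : V // m v = a} => g' v.1) g (hind a) c2 (-c')
    (coeff a b) (by
      have e : ((-c').sum fun w x => x • g w) = -(c'.sum fun w x => x • g w) := by
        rw [Finsupp.sum_neg_index (h := fun w x => x • g w) (fun w => zero_smul _ _)]
        simp only [neg_smul]
        rw [Finsupp.sum, Finsupp.sum, Finset.sum_neg_distrib]
      rw [e]
      linear_combination h3)
  have h5 := DFunLike.congr_fun h4.1 ⟨v₀, rfl⟩
  rw [hc2, Finsupp.zero_apply] at h5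
  rcases mul_eq_zero.1 h5 with h6 | h6
  · exact (Finsupp.mem_support_iff.1 hv₀) h6
  · exact hu v₀ h6

end AJG

end

section

/-! Item LamInv: invariance of the class functional `Λ_y`. -/

set_option autoImplicit false

open LaurentPolynomial in
theorem AJG.LamInv_coeff {R : Type} [Semiring R] (a : R) (x : ℤ) :
    (LaurentPolynomial.C a * LaurentPolynomial.T x : LaurentPolynomial R).coeff =
      Finsupp.single x a := by
  rw [← LaurentPolynomial.single_eq_C_mul_T, AddMonoidAlgebra.coeff_single]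

namespace AJG

theorem LamInv_sL_add (p q : LaurentPolynomial FF) : sL (p + q) = sL p + sL q := by
  unfold sL
  rw [AddMonoidAlgebra.coeff_add]
  refine Finsupp.sum_add_index' (fun x => ?_) fun x a b => ?_
  · simp
  · rw [mul_add, map_add, add_mul]

theorem LamInv_Lam_add (E y : ℤ) (p q : LaurentPolynomial FF) :
    Lam E y (p + q) = Lam E y p + Lam E y q := by
  unfold Lam
  rw [AddMonoidAlgebra.coeff_add]
  refine Finsupp.sum_add_index' (fun x => ?_) fun x a b => ?_
  · simp
  · split_ifs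
    · rw [mul_add]
    · rw [add_zero]

theorem LamInv_sL_mon (x : ℤ) (a : FF) :
    sL (LaurentPolynomial.C a * LaurentPolynomial.T x) =
      LaurentPolynomial.C (t ^ (2 * x) * a) * LaurentPolynomial.T x := by
  unfold sL
  rw [LamInv_coeff, Finsupp.sum_single_index]
  simp

theorem LamInv_Lam_mon (E y x : ℤ) (a : FF) :
    Lam E y (LaurentPolynomial.C a * LaurentPolynomial.T x) =
      if E ∣ x - y then t ^ (-((x - y) / E * (x + y))) * a else 0 := by
  unfold Lam
  rw [LamInv_coeff, Finsupp.sum_single_index]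
  simp

theorem LamInv_proof : S_LamInv := by
  intro E y hE b
  induction b using LaurentPolynomial.induction_on' with
  | add p q hp hq => rw [LamInv_sL_add, mul_add, LamInv_Lam_add, LamInv_Lam_add, hp, hq]
  | C_mul_T x a =>
    rw [LamInv_sL_mon]
    have h1 : LaurentPolynomial.C (t ^ E) * LaurentPolynomial.T E *
        (LaurentPolynomial.C (t ^ (2 * x) * a) * LaurentPolynomial.T x) =
        LaurentPolynomial.C (t ^ E * (t ^ (2 * x) * a)) * LaurentPolynomial.T (x + E) := by
      rw [LaurentPolynomial.T_add, map_mul LaurentPolynomial.C (t ^ E)]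
      ring
    rw [h1, LamInv_Lam_mon, LamInv_Lam_mon]
    by_cases h : E ∣ x - y
    · obtain ⟨k, hk⟩ := h
      have h2 : E ∣ x + E - y := ⟨k + 1, by linear_combination hk⟩
      rw [if_pos h2, if_pos ⟨k, hk⟩]
      have h3 : (x + E - y) / E = k + 1 := by
        have : x + E - y = E * (k + 1) := by linear_combination hk
        rw [this, Int.mul_ediv_cancel_left _ hE]
      have h4 : (x - y) / E = k := by rw [hk, Int.mul_ediv_cancel_left _ hE]
      rw [h3, h4, ← mul_assoc, ← mul_assoc, ← zpow_add₀ t_ne, ← zpow_add₀ t_ne]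
      congr 2
      linear_combination hk
    · have h2 : ¬ E ∣ x + E - y := by
        intro h2
        apply h
        have : x - y = x + E - y - E := by ring
        rw [this]
        exact dvd_sub h2 (dvd_refl E)
      rw [if_neg h, if_neg h2]

end AJG

end

section

/-!
# MP_d3fa71_gt: item LamTor, residue classes of the torus knot increment
-/

open Polynomial

namespace AJG

lemma LamTor_add (E y : ℤ) (f g : LaurentPolynomial FF) :
    Lam E y (f + g) = Lam E y f + Lam E y g := by
  unfold Lam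
  rw [AddMonoidAlgebra.coeff_add]
  refine Finsupp.sum_add_index' ?_ ?_
  · intro x
    simp
  · intro x a b
    split_ifs
    · rw [mul_add]
    · rw [add_zero]

lemma LamTor_zero (E y : ℤ) : Lam E y 0 = 0 := by
  have h := LamTor_add E y 0 0
  rw [add_zero] at h
  exact left_eq_add.1 h

lemma LamTor_neg (E y : ℤ) (f : LaurentPolynomial FF) : Lam E y (-f) = -Lam E y f := by
  have h := LamTor_add E y f (-f)
  rw [add_neg_cancel, LamTor_zero] at h
  exact (neg_eq_of_add_eq_zero_right h.symm).symm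

lemma LamTor_sub (E y : ℤ) (f g : LaurentPolynomial FF) :
    Lam E y (f - g) = Lam E y f - Lam E y g := by
  rw [sub_eq_add_neg, LamTor_add, LamTor_neg, ← sub_eq_add_neg]

lemma LamTor_sum (E y : ℤ) {ι : Type} (s : Finset ι) (f : ι → LaurentPolynomial FF) :
    Lam E y (∑ k ∈ s, f k) = ∑ k ∈ s, Lam E y (f k) := by
  classical
  induction s using Finset.induction_on with
  | empty => simp [LamTor_zero]
  | insert a s ha ih => rw [Finset.sum_insert ha, Finset.sum_insert ha, LamTor_add, ih]

lemma LamTor_CT (E y x : ℤ) (a : FF) :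
    Lam E y (LaurentPolynomial.C a * LaurentPolynomial.T x) =
      if E ∣ x - y then t ^ (-((x - y) / E * (x + y))) * a else 0 := by
  unfold Lam
  rw [← LaurentPolynomial.single_eq_C_mul_T, AddMonoidAlgebra.coeff_single]
  refine Finsupp.sum_single_index ?_
  simp

/-- one term -/
lemma LamTor_term (E y x a w : ℤ) (hE : E ≠ 0) (h : E * a = x ^ 2 - w) :
    Lam E y (LaurentPolynomial.C (t ^ a) * LaurentPolynomial.T x) =
      ((ind E (x - y) : ℤ) : FF) * t ^ ((y ^ 2 - w) / E) := by
  rw [LamTor_CT, ind]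
  split_ifs with hd
  · obtain ⟨d, hd⟩ := hd
    rw [hd, Int.mul_ediv_cancel_left _ hE, ← zpow_add₀ t_ne]
    have e : y ^ 2 - w = E * (-(d * (x + y)) + a) := by
      have : x = y + E * d := by linarith
      rw [mul_add, h]
      rw [this]
      ring
    rw [e, Int.mul_ediv_cancel_left _ hE]
    simp
  · simp

lemma LamTor_expand (b c X Y : ℤ) :
    LaurentPolynomial.C (t ^ b) * LaurentPolynomial.T X *
      (LaurentPolynomial.C (t ^ c) * LaurentPolynomial.T Y) =
    (LaurentPolynomial.C (t ^ (b + c)) * LaurentPolynomial.T (X + Y) : LaurentPolynomial FF) := by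
  rw [zpow_add₀ t_ne, map_mul, LaurentPolynomial.T_add]
  ring

theorem LamTor_proof : S_LamTor := by
  intro r s S i y hr hs hS
  have hs0 : (s : ℤ) ≠ 0 := by exact_mod_cast (by omega : s ≠ 0)
  have hS0 : (S : ℤ) ≠ 0 := by exact_mod_cast hS.ne'
  have hE : r * s * (S : ℤ) ^ 2 ≠ 0 := mul_ne_zero (mul_ne_zero hr hs0) (pow_ne_zero 2 hS0)
  rw [gLT, NT, LamTor_sum, Int.cast_sum, Finset.sum_mul]
  refine Finset.sum_congr rfl fun k _ => ?_
  generalize ((i + 1 + 2 * k : ℕ) : ℤ) = v
  rw [LamTor_sub, brL, brL, mul_sub, mul_sub, LamTor_sub, LamTor_sub, LamTor_expand,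
    LamTor_expand, LamTor_expand, LamTor_expand]
  push_cast
  rw [LamTor_term _ y _ _ ((r ^ 2 + (s : ℤ) ^ 2) * (S : ℤ) ^ 2) hE (by ring),
    LamTor_term _ y _ _ ((r ^ 2 + (s : ℤ) ^ 2) * (S : ℤ) ^ 2) hE (by ring),
    LamTor_term _ y _ _ ((r ^ 2 + (s : ℤ) ^ 2) * (S : ℤ) ^ 2) hE (by ring),
    LamTor_term _ y _ _ ((r ^ 2 + (s : ℤ) ^ 2) * (S : ℤ) ^ 2) hE (by ring)]
  simp only [← sub_eq_add_neg]
  ring

end AJG

end

section

/-!
# MP_d3fa71_gt: item NTEven, the counting function of the torus knots is even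
-/

open Polynomial

namespace AJG

lemma NTEven_neg (E z : ℤ) : ind E (-z) = ind E z := by
  unfold ind
  simp only [dvd_neg]

lemma NTEven_add (E z : ℤ) : ind E (z + E) = ind E z := by
  unfold ind
  simp only [dvd_add_self_right]

lemma NTEven_sum (m : ℕ) (g : ℤ → ℤ) (hg : ∀ v, g (v + 2 * m) = g v) (i : ℕ) (hi : i < 2) :
    ∑ k ∈ Finset.range m, g (-((i + 1 + 2 * k : ℕ) : ℤ)) =
      ∑ k ∈ Finset.range m, g ((i + 1 + 2 * k : ℕ) : ℤ) := by
  interval_cases i
  · rw [← Finset.sum_range_reflect (fun k => g ((0 + 1 + 2 * k : ℕ) : ℤ)) m]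
    refine Finset.sum_congr rfl fun k hk => ?_
    have hk' := Finset.mem_range.mp hk
    have e : ((0 + 1 + 2 * (m - 1 - k) : ℕ) : ℤ) = -((0 + 1 + 2 * k : ℕ) : ℤ) + 2 * m := by
      omega
    rw [e, hg]
  · have h1 : ∑ k ∈ Finset.range m, g ((2 * k : ℕ) : ℤ) =
        ∑ k ∈ Finset.range m, g ((1 + 1 + 2 * k : ℕ) : ℤ) := by
      have h2 := Finset.sum_range_succ' (fun k => g ((2 * k : ℕ) : ℤ)) m
      have h3 := Finset.sum_range_succ (fun k => g ((2 * k : ℕ) : ℤ)) m
      have h4 : g ((2 * m : ℕ) : ℤ) = g ((2 * 0 : ℕ) : ℤ) := by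
        have := hg 0
        simpa using this
      have h5 : ∑ k ∈ Finset.range m, g ((2 * (k + 1) : ℕ) : ℤ) =
          ∑ k ∈ Finset.range m, g ((1 + 1 + 2 * k : ℕ) : ℤ) := by
        refine Finset.sum_congr rfl fun k _ => ?_
        congr 1
        push_cast
        ring
      rw [h5] at h2
      rw [h4] at h3
      linarith
    rw [← h1, ← Finset.sum_range_reflect (fun k => g ((2 * k : ℕ) : ℤ)) m]
    refine Finset.sum_congr rfl fun k hk => ?_
    have hk' := Finset.mem_range.mp hk
    have e : ((2 * (m - 1 - k) : ℕ) : ℤ) = -((1 + 1 + 2 * k : ℕ) : ℤ) + 2 * m := by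
      omega
    rw [e, hg]

theorem NTEven_proof : S_NTEven := by
  intro r s S i y hr hs hS hSe hi
  obtain ⟨m, hm⟩ := hSe
  have hS2 : S / 2 = m := by omega
  set E : ℤ := r * s * (S : ℤ) ^ 2 with hE
  set g : ℤ → ℤ := fun v =>
    ind E (r * S * (s * v + 1) + s * S - y) -
      ind E (r * S * (s * v + 1) - s * S - y) -
      ind E (r * S * (s * v - 1) + s * S - y) +
      ind E (r * S * (s * v - 1) - s * S - y) with hg
  have hper : ∀ v, g (v + 2 * m) = g v := by
    intro v
    have hSm : (2 * m : ℤ) = S := by rw [hm]; push_cast; ring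
    rw [hSm]
    simp only [hg]
    have e1 : r * S * (s * (v + S) + 1) + s * S - y =
        (r * S * (s * v + 1) + s * S - y) + E := by rw [hE]; ring
    have e2 : r * S * (s * (v + S) + 1) - s * S - y =
        (r * S * (s * v + 1) - s * S - y) + E := by rw [hE]; ring
    have e3 : r * S * (s * (v + S) - 1) + s * S - y =
        (r * S * (s * v - 1) + s * S - y) + E := by rw [hE]; ring
    have e4 : r * S * (s * (v + S) - 1) - s * S - y =
        (r * S * (s * v - 1) - s * S - y) + E := by rw [hE]; ring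
    rw [e1, e2, e3, e4, NTEven_add, NTEven_add, NTEven_add, NTEven_add]
  have hR : NT E r s S i y = ∑ k ∈ Finset.range m, g ((i + 1 + 2 * k : ℕ) : ℤ) := by
    rw [NT, hS2]
  have hL : NT E r s S i (-y) = ∑ k ∈ Finset.range m, g (-((i + 1 + 2 * k : ℕ) : ℤ)) := by
    rw [NT, hS2]
    refine Finset.sum_congr rfl fun k _ => ?_
    generalize ((i + 1 + 2 * k : ℕ) : ℤ) = v
    simp only [hg]
    have e1 : r * S * (s * v + 1) + s * S - -y = -(r * S * (s * -v - 1) - s * S - y) := by ring
    have e2 : r * S * (s * v + 1) - s * S - -y = -(r * S * (s * -v - 1) + s * S - y) := by ring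
    have e3 : r * S * (s * v - 1) + s * S - -y = -(r * S * (s * -v + 1) - s * S - y) := by ring
    have e4 : r * S * (s * v - 1) - s * S - -y = -(r * S * (s * -v + 1) + s * S - y) := by ring
    rw [e1, e2, e3, e4, NTEven_neg, NTEven_neg, NTEven_neg, NTEven_neg]
    ring
  rw [hL, hR]
  exact NTEven_sum m g hper i hi

end AJG

end

section

/-! MP_d3fa71_gt, item NVComb: parity and separation of the virtual classes. -/

open Polynomial

namespace AJG

theorem NVComb_ind {E z z' : ℤ} (h : E ∣ z ↔ E ∣ z') : ind E z = ind E z' := by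
  unfold ind
  simp only [h]

/-- sums over one parity class of residues -/
def NVComb_A (n i : ℕ) (F : ℤ → ℤ) : ℤ :=
  ∑ k ∈ Finset.range n, F ((i + 1 + 2 * k : ℕ) : ℤ)

theorem NVComb_neg (n i : ℕ) (hi : i < 2) (F : ℤ → ℤ) (hF : ∀ v, F (v + 2 * n) = F v) :
    NVComb_A n i (fun v => F (-v)) = NVComb_A n i F := by
  have h1 : NVComb_A n i F = ∑ k ∈ Finset.range n, F (-((1 - i + 2 * k : ℕ) : ℤ)) := by
    unfold NVComb_A
    rw [← Finset.sum_range_reflect]
    refine Finset.sum_congr rfl fun k hk => ?_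
    have hk' := Finset.mem_range.1 hk
    rw [← hF (-((1 - i + 2 * k : ℕ) : ℤ))]
    congr 1
    have h2 : (i + 1 + 2 * (n - 1 - k)) + (1 - i + 2 * k) = 2 * n := by omega
    have h3 : ((i + 1 + 2 * (n - 1 - k) : ℕ) : ℤ) + ((1 - i + 2 * k : ℕ) : ℤ) = 2 * n := by
      exact_mod_cast h2
    linarith
  rw [h1]
  unfold NVComb_A
  rcases (by omega : i = 0 ∨ i = 1) with rfl | rfl
  · refine Finset.sum_congr rfl fun k _ => ?_
    rfl
  · have h4 : F (-((1 + 1 + 2 * (n - 1) : ℕ) : ℤ)) = F (-((1 - 1 + 2 * 0 : ℕ) : ℤ)) ∨ n = 0 := by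
      rcases Nat.eq_zero_or_pos n with h | h
      · exact Or.inr h
      · left
        rw [← hF (-((1 + 1 + 2 * (n - 1) : ℕ) : ℤ))]
        congr 1
        have : 1 + 1 + 2 * (n - 1) = 2 * n := by omega
        rw [this]
        push_cast
        ring
    rcases h4 with h4 | rfl
    · rcases n with _ | m
      · simp
      · rw [Finset.sum_range_succ, Finset.sum_range_succ']
        have h5 : m + 1 - 1 = m := rfl
        rw [h5] at h4
        dsimp only
        rw [h4]
        congr 1
        refine Finset.sum_congr rfl fun k _ => ?_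
        congr 2
        push_cast
        omega
    · simp

theorem NVComb_proof : S_NVComb := by
  intro ϱ s S i hϱ hs hS hS2 hi
  obtain ⟨n, hn⟩ := hS2.two_dvd
  have hSn : S / 2 = n := by omega
  have hSz : (S : ℤ) = 2 * n := by exact_mod_cast hn
  have hS0 : (S : ℤ) ≠ 0 := by exact_mod_cast hS.ne'
  have hs0 : (s : ℤ) ≠ 0 := by
    have : s ≠ 0 := by omega
    exact_mod_cast this
  obtain ⟨E, hE⟩ : ∃ E : ℤ, E = ϱ * s * (S : ℤ) ^ 2 := ⟨_, rfl⟩
  rw [← hE]
  have hNV : ∀ i y, NV E ϱ s S i y =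
      NVComb_A n i (fun v => ind E (ϱ * S * (s * v + 1) - y)) -
        NVComb_A n i (fun v => ind E (ϱ * S * (s * v - 1) - y)) := by
    intro i y
    unfold NV NVComb_A
    rw [hSn, Finset.sum_sub_distrib]
  have hper : ∀ c y v : ℤ, ind E (ϱ * S * (s * (v + 2 * n) + c) - y) =
      ind E (ϱ * S * (s * v + c) - y) := by
    intro c y v
    apply NVComb_ind
    have : ϱ * S * (s * (v + 2 * n) + c) - y = (ϱ * S * (s * v + c) - y) + E := by
      rw [← hSz, hE]; ring
    rw [this]
    exact dvd_add_left (dvd_refl E)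
  constructor
  · intro y
    rw [hNV, hNV]
    have h1 : NVComb_A n i (fun v => ind E (ϱ * S * (s * v + 1) - -y)) =
        NVComb_A n i (fun v => ind E (ϱ * S * (s * v - 1) - y)) := by
      rw [← NVComb_neg n i hi (fun v => ind E (ϱ * S * (s * v - 1) - y)) (fun v => hper (-1) y v)]
      unfold NVComb_A
      refine Finset.sum_congr rfl fun k _ => ?_
      apply NVComb_ind
      rw [← dvd_neg]
      have : -(ϱ * S * (s * ((i + 1 + 2 * k : ℕ) : ℤ) + 1) - -y) =
        ϱ * S * (s * (-((i + 1 + 2 * k : ℕ) : ℤ)) - 1) - y := by ring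
      rw [this]
    have h2 : NVComb_A n i (fun v => ind E (ϱ * S * (s * v - 1) - -y)) =
        NVComb_A n i (fun v => ind E (ϱ * S * (s * v + 1) - y)) := by
      rw [← NVComb_neg n i hi (fun v => ind E (ϱ * S * (s * v + 1) - y)) (fun v => hper 1 y v)]
      unfold NVComb_A
      refine Finset.sum_congr rfl fun k _ => ?_
      apply NVComb_ind
      rw [← dvd_neg]
      have : -(ϱ * S * (s * ((i + 1 + 2 * k : ℕ) : ℤ) - 1) - -y) =
        ϱ * S * (s * (-((i + 1 + 2 * k : ℕ) : ℤ)) + 1) - y := by ring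
      rw [this]
    rw [h1, h2]
    ring
  · have hplus : ∀ w : ℤ, E ∣ ϱ * S * s * w ↔ (S : ℤ) ∣ w := by
      intro w
      have : E = (ϱ * S * s) * S := by rw [hE]; ring
      rw [this]
      exact mul_dvd_mul_iff_left (mul_ne_zero (mul_ne_zero hϱ hS0) hs0)
    have hminus : ∀ w : ℤ, E ∣ ϱ * S * (s * w - 2) → s = 2 ∧ (S : ℤ) ∣ w - 1 := by
      intro w hw
      have e1 : E = (ϱ * S) * (s * S) := by rw [hE]; ring
      rw [e1, mul_dvd_mul_iff_left (mul_ne_zero hϱ hS0)] at hw
      have h3 : (s : ℤ) ∣ 2 := by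
        have h4 : (s : ℤ) ∣ s * w - 2 := dvd_trans (dvd_mul_right _ _) hw
        have h5 : (s : ℤ) ∣ s * w := dvd_mul_right _ _
        have := dvd_sub h5 h4
        rwa [sub_sub_cancel] at this
      have h6 : s = 2 := by
        have h7 : s ∣ 2 := by exact_mod_cast h3
        have := Nat.le_of_dvd (by norm_num) h7
        omega
      refine ⟨h6, ?_⟩
      rw [h6] at hw
      have h8 : ((2 : ℕ) : ℤ) * w - 2 = ((2 : ℕ) : ℤ) * (w - 1) := by push_cast; ring
      rw [h8] at hw
      exact (mul_dvd_mul_iff_left (by norm_num)).1 hw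
    have hodd : ∀ w : ℤ, (S : ℤ) ∣ 2 * w + 1 → False := by
      intro w hw
      have : (2 : ℤ) ∣ 2 * w + 1 := dvd_trans ⟨n, hSz⟩ hw
      omega
    refine ⟨ϱ * S * (s * (i + 1) + 1), ?_, ?_⟩
    · have h1 : NV E ϱ s S i (ϱ * S * (s * (i + 1) + 1)) = 1 := by
        unfold NV
        rw [hSn]
        have h2 : ∀ k ∈ Finset.range n,
            (ind E (ϱ * S * (s * ((i + 1 + 2 * k : ℕ) : ℤ) + 1) - ϱ * S * (s * (i + 1) + 1)) -
              ind E (ϱ * S * (s * ((i + 1 + 2 * k : ℕ) : ℤ) - 1) - ϱ * S * (s * (i + 1) + 1))) =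
            if k = 0 then 1 else 0 := by
          intro k hk
          have hk' := Finset.mem_range.1 hk
          have e1 : ϱ * S * (s * ((i + 1 + 2 * k : ℕ) : ℤ) + 1) - ϱ * S * (s * (i + 1) + 1) =
              ϱ * S * s * (2 * k) := by push_cast; ring
          have e2 : ϱ * S * (s * ((i + 1 + 2 * k : ℕ) : ℤ) - 1) - ϱ * S * (s * (i + 1) + 1) =
              ϱ * S * (s * (2 * k) - 2) := by push_cast; ring
          rw [e1, e2]
          have e3 : ind E (ϱ * S * (s * (2 * k) - 2)) = 0 := by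
            unfold ind
            rw [if_neg]
            intro h
            obtain ⟨-, h5⟩ := hminus _ h
            apply hodd ((k : ℤ) - 1)
            have : 2 * ((k : ℤ) - 1) + 1 = 2 * k - 1 := by ring
            rw [this]
            exact h5
          rw [e3, sub_zero]
          unfold ind
          simp only [hplus]
          by_cases hk0 : k = 0
          · simp [hk0]
          · rw [if_neg, if_neg hk0]
            intro h
            have h6 : S ∣ 2 * k := by exact_mod_cast h
            have := Nat.le_of_dvd (by omega) h6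
            omega
        rw [Finset.sum_congr rfl h2, Finset.sum_ite_eq' (Finset.range n) 0 (fun _ => (1 : ℤ)),
          if_pos (Finset.mem_range.2 (by omega))]
      rw [h1]
      exact one_ne_zero
    · intro hs2
      unfold NV
      apply Finset.sum_eq_zero
      intro k _
      have e1 : ϱ * S * (s * ((1 - i + 1 + 2 * k : ℕ) : ℤ) + 1) - ϱ * S * (s * (i + 1) + 1) =
          ϱ * S * s * (((1 - i + 1 + 2 * k : ℕ) : ℤ) - (i + 1)) := by ring
      have e2 : ϱ * S * (s * ((1 - i + 1 + 2 * k : ℕ) : ℤ) - 1) - ϱ * S * (s * (i + 1) + 1) =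
          ϱ * S * (s * (((1 - i + 1 + 2 * k : ℕ) : ℤ) - (i + 1)) - 2) := by ring
      rw [e1, e2]
      have e3 : ind E (ϱ * S * (s * (((1 - i + 1 + 2 * k : ℕ) : ℤ) - (i + 1)) - 2)) = 0 := by
        unfold ind
        rw [if_neg]
        intro h
        exact hs2 (hminus _ h).1
      have e4 : ind E (ϱ * S * s * (((1 - i + 1 + 2 * k : ℕ) : ℤ) - (i + 1))) = 0 := by
        unfold ind
        rw [if_neg]
        intro h
        rw [hplus] at h
        rcases (by omega : i = 0 ∨ i = 1) with rfl | rfl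
        · apply hodd (k : ℤ)
          have : (2 * (k : ℤ) + 1) = ((1 - 0 + 1 + 2 * k : ℕ) : ℤ) - ((0 : ℕ) + 1) := by
            push_cast
            ring
          rw [this]
          exact h
        · apply hodd ((k : ℤ) - 1)
          have : (2 * ((k : ℤ) - 1) + 1) = ((1 - 1 + 1 + 2 * k : ℕ) : ℤ) - ((1 : ℕ) + 1) := by
            push_cast
            ring
          rw [this]
          exact h
      rw [e3, e4, sub_zero]

end AJG

end

section

open Polynomial

namespace AJG

theorem Pole_sq_apply {k : Type} [Field k] (q : k) (hq : q ≠ 0) (p : Polynomial k) :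
    sq q hq (algebraMap (Polynomial k) (RatFunc k) p) =
      algebraMap (Polynomial k) (RatFunc k) (p.comp (C q * X)) := by
  have h : algebraMap (Polynomial k) (RatFunc k) p =
      algebraMap (Polynomial k) (RatFunc k) p / algebraMap (Polynomial k) (RatFunc k) 1 := by
    rw [map_one, div_one]
  rw [h]
  unfold sq
  rw [RatFunc.coe_mapRingHom_eq_coe_map, RatFunc.map_apply_div, map_one, map_one, div_one]
  rfl

/-- a nonzero polynomial vanishing at `g 0` has a last zero in a run, for injective `g` -/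
theorem Pole_run {K : Type} [Field K] (D : Polynomial K) (hD : D ≠ 0) (g : ℕ → K)
    (hg : Function.Injective g) (h0 : D.eval (g 0) = 0) :
    ∃ n, D.eval (g n) = 0 ∧ D.eval (g (n + 1)) ≠ 0 := by
  by_contra hcon
  push Not at hcon
  have hall : ∀ n, D.eval (g n) = 0 := by
    intro n
    induction n with
    | zero => exact h0
    | succ n ih => exact hcon n ih
  apply hD
  apply Polynomial.eq_zero_of_infinite_isRoot
  exact (Set.infinite_range_of_injective hg).mono (by
    rintro _ ⟨n, rfl⟩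
    exact hall n)

theorem Pole_inj {K : Type} [Field K] (q x : K) (hx : x ≠ 0) (hq : q ≠ 0)
    (hq1 : ∀ n : ℕ, 0 < n → q ^ n ≠ 1) : Function.Injective (fun n : ℕ => q ^ n * x) := by
  intro a b hab
  have h1 : q ^ a = q ^ b := mul_right_cancel₀ hx hab
  by_contra hne
  rcases Nat.lt_or_gt_of_ne hne with h | h
  · apply hq1 (b - a) (by omega)
    have : q ^ a * q ^ (b - a) = q ^ a * 1 := by rw [← pow_add, mul_one, h1]; congr 1; omega
    exact mul_left_cancel₀ (pow_ne_zero _ hq) this
  · apply hq1 (a - b) (by omega)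
    have : q ^ b * q ^ (a - b) = q ^ b * 1 := by rw [← pow_add, mul_one, ← h1]; congr 1; omega
    exact mul_left_cancel₀ (pow_ne_zero _ hq) this

theorem Pole_proof : S_Pole := by
  intro k _ q hq hq1 u hu E b Q hQ hroot hL
  obtain ⟨A, P, hP⟩ := hL
  set N := b.num with hN
  set D := b.denom with hDdef
  have hD : D ≠ 0 := b.denom_ne_zero
  have ι : ∀ p : Polynomial k, algebraMap (Polynomial k) (RatFunc k) p =
      algebraMap (Polynomial k) (RatFunc k) p := fun _ => rfl
  have hDR : algebraMap (Polynomial k) (RatFunc k) D ≠ 0 := RatFunc.algebraMap_ne_zero hD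
  have hb : b * algebraMap (Polynomial k) (RatFunc k) D =
      algebraMap (Polynomial k) (RatFunc k) N := by
    conv_lhs => rw [← RatFunc.num_div_denom b]
    rw [div_mul_cancel₀ _ hDR]
  have hcop : IsCoprime N D := RatFunc.isCoprime_num_denom b
  have hsb : sq q hq b * algebraMap (Polynomial k) (RatFunc k) (D.comp (C q * X)) =
      algebraMap (Polynomial k) (RatFunc k) (N.comp (C q * X)) := by
    rw [← Pole_sq_apply q hq, ← Pole_sq_apply q hq, ← map_mul, hb]
  -- integral exponents
  obtain ⟨e1, e2, hE⟩ : ∃ e1 e2 : ℕ, E = e1 - e2 := ⟨E.toNat, (-E).toNat, by omega⟩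
  have hX0 : (RatFunc.X : RatFunc k) ≠ 0 := RatFunc.X_ne_zero
  have hXE : (RatFunc.X : RatFunc k) ^ E * RatFunc.X ^ e2 = RatFunc.X ^ e1 := by
    rw [hE, zpow_sub₀ hX0, zpow_natCast, zpow_natCast,
      div_mul_cancel₀ _ (pow_ne_zero _ hX0)]
  -- the polynomial identity
  have key : Q * (C u * X ^ e1 * N.comp (C q * X) * D - X ^ e2 * N * D.comp (C q * X)) * X ^ A =
      P * X ^ e2 * D * D.comp (C q * X) := by
    apply IsFractionRing.injective (Polynomial k) (RatFunc k)
    simp only [map_mul, map_sub, map_pow, RatFunc.algebraMap_X, RatFunc.algebraMap_C]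
    rw [← hsb, ← hb, ← hXE, ← hP]
    ring
  -- evaluation
  let K' := AlgebraicClosure k
  set q' : K' := algebraMap k K' q with hq'
  have hq'0 : q' ≠ 0 := by
    rw [hq', Ne, map_eq_zero]
    exact hq
  have hq'1 : ∀ n : ℕ, 0 < n → q' ^ n ≠ 1 := by
    intro n hn h
    apply hq1 n hn
    apply (algebraMap k K').injective
    rw [map_pow, map_one]
    exact h
  have hevc : ∀ (p : Polynomial k) (x : K'), aeval x (p.comp (C q * X)) = aeval (q' * x) p := by
    intro p x
    rw [aeval_comp, map_mul, aeval_C, aeval_X]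
  have hev : ∀ x : K', aeval x Q * (algebraMap k K' u * x ^ e1 * aeval (q' * x) N * aeval x D -
      x ^ e2 * aeval x N * aeval (q' * x) D) * x ^ A =
      aeval x P * x ^ e2 * aeval x D * aeval (q' * x) D := by
    intro x
    have h := congrArg (aeval x) key
    simpa only [map_mul, map_sub, map_pow, aeval_C, aeval_X, hevc] using h
  have hcop' : ∀ x : K', aeval x D = 0 → aeval x N ≠ 0 := by
    intro x hx hx'
    obtain ⟨a, c, hac⟩ := hcop
    have h := congrArg (aeval x) hac
    rw [map_add, map_mul, map_mul, hx, hx', mul_zero, mul_zero, add_zero, map_one] at h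
    exact zero_ne_one h
  have hu' : algebraMap k K' u ≠ 0 := by
    rw [Ne, map_eq_zero]
    exact hu
  have c1 : ∀ x : K', x ≠ 0 → aeval x D = 0 → aeval (q' * x) D ≠ 0 → aeval x Q = 0 := by
    intro x hx h1 h2
    have h := hev x
    rw [h1] at h
    have h3 : aeval x Q * (x ^ e2 * aeval x N * aeval (q' * x) D * x ^ A) = 0 := by
      linear_combination -h
    rcases mul_eq_zero.mp h3 with h4 | h4
    · exact h4
    · exact absurd h4 (mul_ne_zero (mul_ne_zero (mul_ne_zero (pow_ne_zero _ hx) (hcop' x h1)) h2)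
        (pow_ne_zero _ hx))
  have c2 : ∀ x : K', x ≠ 0 → aeval x D ≠ 0 → aeval (q' * x) D = 0 → aeval x Q = 0 := by
    intro x hx h1 h2
    have h := hev x
    rw [h2] at h
    have h3 : aeval x Q * (algebraMap k K' u * x ^ e1 * aeval (q' * x) N * aeval x D * x ^ A) = 0 := by
      linear_combination h
    rcases mul_eq_zero.mp h3 with h4 | h4
    · exact h4
    · exact absurd h4 (mul_ne_zero (mul_ne_zero (mul_ne_zero (mul_ne_zero hu' (pow_ne_zero _ hx))
        (hcop' _ h2)) h1) (pow_ne_zero _ hx))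
  -- no nonzero roots
  have hDm : D.map (algebraMap k K') ≠ 0 := by
    rw [Ne, Polynomial.map_eq_zero]
    exact hD
  have haev : ∀ x : K', (D.map (algebraMap k K')).eval x = aeval x D := by
    intro x
    rw [Polynomial.eval_map_algebraMap]
  have nor : ∀ x : K', aeval x D = 0 → x = 0 := by
    intro x hx
    by_contra hx0
    obtain ⟨n, hn1, hn2⟩ := Pole_run (D.map (algebraMap k K')) hDm (fun n => q' ^ n * x)
      (Pole_inj q' x hx0 hq'0 hq'1) (by rw [haev, pow_zero, one_mul]; exact hx)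
    have hqi : ∀ n : ℕ, 0 < n → q'⁻¹ ^ n ≠ 1 := by
      intro n hn h
      apply hq'1 n hn
      rw [inv_pow, inv_eq_one] at h
      exact h
    obtain ⟨m, hm1, hm2⟩ := Pole_run (D.map (algebraMap k K')) hDm (fun n => q'⁻¹ ^ n * x)
      (Pole_inj q'⁻¹ x hx0 (inv_ne_zero hq'0) hqi) (by rw [haev, pow_zero, one_mul]; exact hx)
    rw [haev] at hn1 hn2 hm1 hm2
    have r1 : aeval (q' ^ n * x) Q = 0 := by
      apply c1 _ (mul_ne_zero (pow_ne_zero _ hq'0) hx0) hn1
      have : q' * (q' ^ n * x) = q' ^ (n + 1) * x := by ring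
      rw [this]
      exact hn2
    have r2 : aeval (q'⁻¹ ^ (m + 1) * x) Q = 0 := by
      apply c2 _ (mul_ne_zero (pow_ne_zero _ (inv_ne_zero hq'0)) hx0) hm2
      have : q' * (q'⁻¹ ^ (m + 1) * x) = q'⁻¹ ^ m * x := by
        have hqq : q' * q'⁻¹ = 1 := mul_inv_cancel₀ hq'0
        calc q' * (q'⁻¹ ^ (m + 1) * x) = (q' * q'⁻¹) * (q'⁻¹ ^ m * x) := by rw [pow_succ]; ring
          _ = _ := by rw [hqq, one_mul]
      rw [this]
      exact hm1
    apply hroot (q'⁻¹ ^ (m + 1) * x) (n + m + 1)
      (mul_ne_zero (pow_ne_zero _ (inv_ne_zero hq'0)) hx0) (by omega) r2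
    have : algebraMap k K' q ^ (n + m + 1) * (q'⁻¹ ^ (m + 1) * x) = q' ^ n * x := by
      have hqq : q' ^ (m + 1) * q'⁻¹ ^ (m + 1) = 1 := by
        rw [← mul_pow, mul_inv_cancel₀ hq'0, one_pow]
      calc algebraMap k K' q ^ (n + m + 1) * (q'⁻¹ ^ (m + 1) * x)
          = q' ^ n * x * (q' ^ (m + 1) * q'⁻¹ ^ (m + 1)) := by
            rw [← hq', show n + m + 1 = n + (m + 1) by omega, pow_add]; ring
        _ = _ := by rw [hqq, mul_one]
    rw [this]
    exact r1
  -- conclusion
  obtain ⟨D', hD', hnd⟩ := Polynomial.exists_eq_pow_rootMultiplicity_mul_and_not_dvd D hD 0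
  set m := rootMultiplicity 0 D with hm
  have hD'0 : D' ≠ 0 := by
    rintro rfl
    exact hnd (dvd_zero _)
  have hdeg : D'.degree = 0 := by
    by_contra hdeg
    obtain ⟨x, hx⟩ := IsAlgClosed.exists_aeval_eq_zero K' D' hdeg
    have hx2 : aeval x D = 0 := by
      rw [hD', map_mul, hx, mul_zero]
    have hx3 := nor x hx2
    rw [hx3] at hx
    apply hnd
    rw [Polynomial.dvd_iff_isRoot, IsRoot.def]
    have h4 : aeval (algebraMap k K' 0) D' = 0 := by rw [map_zero]; exact hx
    rw [aeval_algebraMap_apply] at h4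
    have h5 := (map_eq_zero (algebraMap k K')).mp h4
    simpa using h5
  obtain ⟨c, hc⟩ : ∃ c : k, D' = C c := ⟨_, Polynomial.eq_C_of_degree_eq_zero hdeg⟩
  have hc0 : c ≠ 0 := by
    rintro rfl
    exact hD'0 (by rw [hc, map_zero])
  refine ⟨m, C c⁻¹ * N, ?_⟩
  have h6 : algebraMap (Polynomial k) (RatFunc k) D = RatFunc.X ^ m * RatFunc.C c := by
    rw [hD', hc, map_mul, map_pow, map_zero, sub_zero, RatFunc.algebraMap_X, RatFunc.algebraMap_C]
  rw [map_mul, ← hb, h6, RatFunc.algebraMap_C, map_inv₀]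
  have h7 : (RatFunc.C c : RatFunc k) ≠ 0 := by
    rw [Ne, map_eq_zero]
    exact hc0
  field_simp

end AJG

end

section

/-!
# MP_d3fa71_gt: item gK, the increments of the unknot
-/

open Polynomial

namespace AJG

lemma gK_t (a : ℤ) : ((D0.t ^ a : A0ˣ) : A0) = LaurentPolynomial.C (tK ^ a) := by
  have h : D0.t ^ a =
      Units.map (LaurentPolynomial.C (R := KK)).toMonoidHom ((Units.mk0 tK tK_ne) ^ a) := by
    rw [map_zpow]
    rfl
  rw [h, Units.coe_map, Units.val_zpow_eq_zpow_val, Units.val_mk0]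
  rfl

lemma gK_x (a : ℤ) : ((D0.x ^ a : A0ˣ) : A0) = LaurentPolynomial.C (xK ^ a) := by
  have h : D0.x ^ a =
      Units.map (LaurentPolynomial.C (R := KK)).toMonoidHom ((Units.mk0 xK xK_ne) ^ a) := by
    rw [map_zpow]
    rfl
  rw [h, Units.coe_map, Units.val_zpow_eq_zpow_val, Units.val_mk0]
  rfl

lemma gK_h (b : ℤ) : ((D0.h ^ b : A0ˣ) : A0) = LaurentPolynomial.T b := by
  induction b using Int.induction_on with
  | zero => simp
  | succ n ih =>
    rw [zpow_add_one, Units.val_mul, ih, LaurentPolynomial.T_add]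
    rfl
  | pred n ih =>
    rw [zpow_sub_one, Units.val_mul, ih, sub_eq_add_neg, LaurentPolynomial.T_add]
    rfl

lemma gK_br (S c : ℕ) : D0.br S c = LaurentPolynomial.C (brK S c) := by
  unfold Dat.br brK
  rw [Units.val_mul, Units.val_mul, gK_t, gK_t, gK_x, gK_x, map_sub, map_mul, map_mul]

lemma gK_ib {S : ℕ} (hS : S ≠ 0) (c : ℕ) : D0.ib S c = LaurentPolynomial.C ((brK S c)⁻¹) := by
  show (if S = 0 then 0 else LaurentPolynomial.C _) = _
  rw [if_neg hS]
  rfl

theorem gK_proof : S_gK := by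
  intro r s S i p κ hs hS
  have hsS : s * S ≠ 0 := (Nat.mul_pos hs hS).ne'
  rw [gv, gK, map_sum, Finset.mul_sum]
  refine Finset.sum_congr rfl fun k _ => ?_
  rw [fp, fm, gK_ib hsS, gK_ib hsS]
  simp only [J0, gK_br, Units.val_mul, gK_t, gK_x, gK_h, map_sub, map_mul, map_pow]
  ring

end AJG

end

section

/-!
# MP_d3fa71_gt, item AR: an annihilating operator with known reduction modulo `π`
-/

open Polynomial

namespace AJG

section

variable {O V : Type} [CommRing O] [AddCommGroup V] [Module O V]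

/-- the linear map `q ↦ ∑ q_j E^j x` -/
noncomputable def AR_ev (E : V →+ V) (x : V) : Polynomial O →ₗ[O] V :=
  Polynomial.lsum fun j => LinearMap.toSpanSingleton O V ((⇑E)^[j] x)

theorem AR_ev_apply (E : V →+ V) (x : V) (q : Polynomial O) :
    AR_ev E x q = q.sum fun j a => a • (⇑E)^[j] x := rfl

theorem AR_opp (E : V →+ V) (x : V) (q : Polynomial O) : opp E q x = AR_ev E x q := by
  rw [AR_ev_apply, Polynomial.sum_over_range]
  · rfl
  · intro n
    exact zero_smul _ _

theorem AR_ev_monomial (E : V →+ V) (x : V) (j : ℕ) (a : O) :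
    AR_ev E x (monomial j a) = a • (⇑E)^[j] x := by
  rw [AR_ev_apply, Polynomial.sum_monomial_index]
  exact zero_smul _ _

theorem AR_ev_one (E : V →+ V) (x : V) : AR_ev E x (1 : Polynomial O) = x := by
  rw [← Polynomial.monomial_zero_one, AR_ev_monomial, one_smul]
  rfl

/-- twisted multiplication by the variable -/
theorem AR_ev_twist (E : V →+ V) (σ : O →+* O) (hE : ∀ (a : O) (v : V), E (a • v) = σ a • E v)
    (x : V) (q : Polynomial O) : AR_ev E x (X * q.map σ) = E (AR_ev E x q) := by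
  induction q using Polynomial.induction_on' with
  | add p q hp hq => rw [Polynomial.map_add, mul_add, map_add, hp, hq, map_add, map_add]
  | monomial n a =>
    rw [Polynomial.map_monomial, Polynomial.X_mul_monomial, AR_ev_monomial, AR_ev_monomial, hE,
      Function.iterate_succ_apply']

/-- the polynomial of the operator `∏ (E - z) q` -/
noncomputable def AR_tw (σ : O →+* O) (l : List O) (q : Polynomial O) : Polynomial O :=
  l.foldr (fun z u => X * u.map σ - C z * u) q

theorem AR_ev_tw (E : V →+ V) (σ : O →+* O) (hE : ∀ (a : O) (v : V), E (a • v) = σ a • E v)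
    (x : V) (l : List O) (q : Polynomial O) : AR_ev E x (AR_tw σ l q) = opl E l (AR_ev E x q) := by
  induction l with
  | nil => rfl
  | cons z l ih =>
    show AR_ev E x (X * (AR_tw σ l q).map σ - C z * AR_tw σ l q) =
      E (opl E l (AR_ev E x q)) - z • opl E l (AR_ev E x q)
    rw [map_sub, AR_ev_twist E σ hE, ih, ← Polynomial.smul_eq_C_mul, map_smul, ih]

theorem AR_tw_mod (σ : O →+* O) (π : O) (hσ : ∀ a, π ∣ σ a - a) (l : List O) (q : Polynomial O) :
    (AR_tw σ l q).map (Ideal.Quotient.mk (Ideal.span {π})) =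
      ((l.map fun z => (X - C z : Polynomial O)).prod).map (Ideal.Quotient.mk (Ideal.span {π})) *
        q.map (Ideal.Quotient.mk (Ideal.span {π})) := by
  have hm : (Ideal.Quotient.mk (Ideal.span {π})).comp σ = Ideal.Quotient.mk (Ideal.span {π}) := by
    ext a
    rw [RingHom.comp_apply, Ideal.Quotient.eq, Ideal.mem_span_singleton]
    exact hσ a
  induction l with
  | nil => simp [AR_tw]
  | cons z l ih =>
    show (X * (AR_tw σ l q).map σ - C z * AR_tw σ l q).map (Ideal.Quotient.mk (Ideal.span {π})) = _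
    rw [Polynomial.map_sub, Polynomial.map_mul, Polynomial.map_map, hm, Polynomial.map_mul, ih,
      List.map_cons, List.prod_cons, Polynomial.map_mul, Polynomial.map_sub, Polynomial.map_X]
    ring

theorem AR_opl_smul (E : V →+ V) (σ : O →+* O) (hE : ∀ (a : O) (v : V), E (a • v) = σ a • E v)
    (π : O) (hπ : σ π = π) (l : List O) (k : ℕ) (u : V) : opl E l (π ^ k • u) = π ^ k • opl E l u := by
  induction l with
  | nil => rfl
  | cons z l ih =>
    show E (opl E l (π ^ k • u)) - z • opl E l (π ^ k • u) =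
      π ^ k • (E (opl E l u) - z • opl E l u)
    rw [ih, hE, map_pow, hπ, smul_sub, smul_comm z]

theorem AR_iter (E : V →+ V) (σ : O →+* O) (hE : ∀ (a : O) (v : V), E (a • v) = σ a • E v)
    (π : O) (hπ : σ π = π) (W : Submodule O V) (l : List O) (hl : Good π E W l) (x : V) (hx : x ∈ W)
    (k : ℕ) : ∃ u ∈ W, (opl E l)^[k] x = π ^ k • u := by
  induction k with
  | zero => exact ⟨x, hx, by simp⟩
  | succ k ih =>
    obtain ⟨u, hu, h⟩ := ih
    obtain ⟨u', hu', h'⟩ := hl u hu
    refine ⟨u', hu', ?_⟩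
    rw [Function.iterate_succ_apply', h, AR_opl_smul E σ hE π hπ, h', smul_smul, pow_succ]

theorem AR_ev_iter (E : V →+ V) (σ : O →+* O) (hE : ∀ (a : O) (v : V), E (a • v) = σ a • E v)
    (x : V) (l : List O) (k : ℕ) : AR_ev E x ((AR_tw σ l)^[k] 1) = (opl E l)^[k] x := by
  induction k with
  | zero => exact AR_ev_one E x
  | succ k ih =>
    rw [Function.iterate_succ_apply', Function.iterate_succ_apply', AR_ev_tw E σ hE, ih]

theorem AR_iter_mod (σ : O →+* O) (π : O) (hσ : ∀ a, π ∣ σ a - a) (l : List O) (k : ℕ) :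
    ((AR_tw σ l)^[k] 1).map (Ideal.Quotient.mk (Ideal.span {π})) =
      (((l.map fun z => (X - C z : Polynomial O)).prod) ^ k).map
        (Ideal.Quotient.mk (Ideal.span {π})) := by
  induction k with
  | zero => simp
  | succ k ih =>
    rw [Function.iterate_succ_apply', AR_tw_mod σ π hσ, ih, pow_succ', Polynomial.map_mul]

/-- the elementary form of the Artin-Rees lemma -/
theorem AR_artin [IsNoetherianRing O] (π : O) (W N : Submodule O V) (hW : W.FG) :
    ∃ k : ℕ, ∀ w ∈ W, π ^ (k + 1) • w ∈ N → π ^ k • w ∈ N := by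
  have hN : IsNoetherian O W := isNoetherian_of_fg_of_noetherian W hW
  let f : ℕ →o Submodule O W :=
    { toFun := fun j => N.comap (π ^ j • W.subtype)
      monotone' := by
        refine monotone_nat_of_le_succ fun j w hw => ?_
        rw [Submodule.mem_comap] at hw ⊢
        have h1 : (π ^ (j + 1) • W.subtype) w = π • (π ^ j • W.subtype) w := by
          simp only [LinearMap.smul_apply, smul_smul, pow_succ']
        rw [h1]
        exact N.smul_mem _ hw }
  obtain ⟨k, hk⟩ := monotone_stabilizes_iff_noetherian.2 hN f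
  refine ⟨k, fun w hw h => ?_⟩
  have h1 : (⟨w, hw⟩ : W) ∈ f (k + 1) := h
  rw [← hk (k + 1) (Nat.le_succ k)] at h1
  exact h1

end

theorem AR_proof : S_AR := by
  intro O _ _ π σ hσ hπ V _ _ E hE W hW _ l hl x hx
  obtain ⟨k, hk⟩ := AR_artin π W (LinearMap.range (AR_ev E x : Polynomial O →ₗ[O] V)) hW
  obtain ⟨u, hu, hu'⟩ := AR_iter E σ hE π hπ W l hl x hx (k + 1)
  have h1 : AR_ev E x ((AR_tw σ l)^[k + 1] 1) = π ^ (k + 1) • u := by
    rw [AR_ev_iter E σ hE, hu']
  obtain ⟨T, hT⟩ := hk u hu ⟨_, h1⟩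
  refine ⟨k + 1, (AR_tw σ l)^[k + 1] 1 - C π * T, ?_, ?_⟩
  · rw [AR_opp, map_sub, h1, ← Polynomial.smul_eq_C_mul, map_smul, hT, smul_smul, ← pow_succ',
      sub_self]
  · intro j
    rw [← Ideal.mem_span_singleton, ← Ideal.Quotient.eq_zero_iff_mem, ← Polynomial.coeff_map,
      Polynomial.map_sub, Polynomial.map_sub, AR_iter_mod σ π hσ, Polynomial.map_mul,
      Polynomial.map_C]
    have h2 : Ideal.Quotient.mk (Ideal.span {π}) π = 0 :=
      Ideal.Quotient.eq_zero_iff_mem.2 (Ideal.mem_span_singleton_self π)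
    rw [h2]
    simp

end AJG

end
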