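import Mathlib
import Pool.Agent.Work.MP_d3fa71_gt.StmtsG
import Pool.Agent.Work.MP_d3fa71_gt.Bd.B03
import Pool.Agent.Work.MP_d3fa71_gt.StmtsC
import Pool.Agent.Work.MP_d3fa71_gt.StmtsB

/-! Bundle of small proof modules (one section per former module). -/

section

/-!
# MP_d3fa71_gt: independence of the characters
-/

namespace AJG

/-- the characters as monoid homomorphisms -/
noncomputable def CharInd_chi (z : ZZ) : (Multiplicative ℝ × ℤˣ) →* ℝ where
  toFun g := (if z.1 = 1 then 1 else ((g.2 : ℤ) : ℝ)) * (Real.exp g.1.toAdd) ^ z.2.toAdd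
  map_one' := by simp
  map_mul' g g' := by
    simp only [Prod.fst_mul, Prod.snd_mul, toAdd_mul, Real.exp_add, mul_zpow, Units.val_mul,
      Int.cast_mul]
    split_ifs <;> ring

lemma CharInd_inj : Function.Injective CharInd_chi := by
  intro z z' h
  have h1 := DFunLike.congr_fun h (Multiplicative.ofAdd (1 : ℝ), 1)
  have h2 := DFunLike.congr_fun h (Multiplicative.ofAdd (0 : ℝ), -1)
  simp only [CharInd_chi, MonoidHom.coe_mk, OneHom.coe_mk, toAdd_ofAdd, Units.val_one,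
    Int.cast_one, ite_self, one_mul, Real.exp_zero, one_zpow, mul_one, Units.val_neg,
    Int.cast_neg] at h1 h2
  have h3 : z.2.toAdd = z'.2.toAdd := by
    refine zpow_right_injective₀ (Real.exp_pos 1) ?_ h1
    have := Real.add_one_lt_exp (one_ne_zero (α := ℝ))
    intro h4
    rw [h4] at this
    norm_num at this
  have h4 : z.1 = z'.1 := by
    rcases Int.units_eq_one_or z.1 with h5 | h5 <;> rcases Int.units_eq_one_or z'.1 with h6 | h6
    · rw [h5, h6]
    · rw [h5, h6] at h2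
      norm_num at h2
    · rw [h5, h6] at h2
      norm_num at h2
    · rw [h5, h6]
  exact Prod.ext h4 (Multiplicative.toAdd.injective h3)

theorem CharInd_proof (h1 : S_Supp) : S_CharInd := by
  intro τ hτ ℓ κ n a h z hz
  have hs := (h1 τ hτ ℓ κ 2 (by norm_num)).2
  set F := (cfl τ ℓ κ 2).coeff with hF
  set A : ZZ → ℝ := fun z => ∑ j ∈ Finset.range n,
    a j * (((z.1 : ℤ) : ℝ) * τ ^ (2 * z.2.toAdd)) ^ j with hA
  have hli := (linearIndependent_monoidHom (Multiplicative ℝ × ℤˣ) ℝ).comp _ CharInd_inj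
  rw [linearIndependent_iff'] at hli
  have key := hli F.support (fun z => F z * ((z.1 : ℤ) : ℝ) * A z) (by
    funext g
    obtain ⟨u, η⟩ := g
    simp only [Finset.sum_apply, Pi.smul_apply, Function.comp_apply, smul_eq_mul, Pi.zero_apply]
    have h2 := h (Real.exp u.toAdd) η (Real.exp_pos _)
    rw [← h2]
    simp only [JR, Finsupp.sum, Finset.mul_sum]
    rw [Finset.sum_comm]
    refine Finset.sum_congr rfl fun z _ => ?_
    simp only [hA, Finset.mul_sum, Finset.sum_mul]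
    refine Finset.sum_congr rfl fun j _ => ?_
    simp only [CharInd_chi, MonoidHom.coe_mk, OneHom.coe_mk, th]
    norm_num
    rw [mul_comm (2 : ℤ) (Multiplicative.toAdd z.2), ← hF]
    split_ifs <;> ring)
  have hz' : F z ≠ 0 := (hs z).2 hz
  have h3 := key z (Finsupp.mem_support_iff.2 hz')
  rcases mul_eq_zero.1 h3 with h4 | h4
  · rcases mul_eq_zero.1 h4 with h5 | h5
    · exact absurd h5 hz'
    · exfalso
      have : ((z.1 : ℤ) : ℝ) ≠ 0 := by
        exact_mod_cast z.1.ne_zero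
      exact this h5
  · exact h4

end AJG

end

section

/-!
# MP_d3fa71_gt: the step of the tower (item CoreNext)
-/

set_option autoImplicit false

open Polynomial

namespace AJG

theorem CoreNext_ind {L : Lv} {A : Type} [CommRing A] [Algebra FF A] {D : Dat A} {σ : A →+* A}
    {J : L.K → ℕ → ℕ → A} (hC : Core L A D σ J) : IndepMod σ (gvar D J) := by
  refine IndNext_inherit σ (gfam D J 0) (gvar D J) Sum.inr Sum.inr_injective
    (fun w => t ^ (w.P.r * (w.P.s : ℤ))) (fun w => zpow_ne_zero _ t_ne) (fun w => ?_) (hC.ind 0)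
  show ((D.t ^ (w.P.r * w.P.s) : Aˣ) : A) * gv D J w.P.r w.P.s w.S w.i 0 w.P.κ =
    t ^ (w.P.r * (w.P.s : ℤ)) • gv D J w.P.r w.P.s w.S w.i 0 w.P.κ
  rw [Algebra.smul_def, ← IndNext_unit D hC.ht]

theorem CoreNext_proof (h1 : S_SimpleExt) (h2 : S_Shift) (h3 : S_IndNext) : S_CoreNext := by
  intro L A _ _ D σ J hC
  obtain ⟨s1, s2, s3, s4, s5⟩ := h2 L A D σ J hC
  obtain ⟨s6, s7⟩ := h1 A σ (Var L) (gvar D J) hC.simple hC.const (CoreNext_ind hC)
  exact ⟨s1, s2, s3, s4, s5, s6, s7, fun S₁ => h3 L A D σ J hC S₁⟩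

end AJG

end

section

/-!
# MP_d3fa71_gt: item Embed: graph knots as elements of the levels
-/

open Polynomial

namespace AJG

/-- `(ℓ, κ)` represents `K`. -/
def Embed_Good (K : GK) (ℓ : ℕ) (κ : (lv ℓ).K) : Prop :=
  (∀ n : ℕ, 1 ≤ n → Jh ℓ κ n = brF n * K.J n) ∧
    ∀ z : ℤˣ × ℤ, z ∈ K.Lab ↔ (z.1, Multiplicative.ofAdd z.2) ∈ labl ℓ κ

theorem Embed_Jh_succ (ℓ : ℕ) (κ : (lv ℓ).K) (M : Multiset (PT (lv ℓ))) (n : ℕ) :
    Jh (ℓ + 1) (κ, M) n =
      Jh ℓ κ n * (M.map fun P => JhatP (Jh ℓ P.κ) P.r P.s n / brF n).prod := rfl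

open scoped Pointwise in
theorem Embed_labl_succ (ℓ : ℕ) (κ : (lv ℓ).K) (M : Multiset (PT (lv ℓ))) :
    labl (ℓ + 1) (κ, M) = labl ℓ κ * (M.map fun P => labP (labl ℓ) P).prod := rfl

theorem Embed_Jh_zero_right (ℓ : ℕ) (κ : (lv ℓ).K) (n : ℕ) : Jh (ℓ + 1) (κ, 0) n = Jh ℓ κ n := by
  rw [Embed_Jh_succ, Multiset.map_zero, Multiset.prod_zero, mul_one]

open scoped Pointwise in
theorem Embed_labl_zero_right (ℓ : ℕ) (κ : (lv ℓ).K) : labl (ℓ + 1) (κ, 0) = labl ℓ κ := by
  rw [Embed_labl_succ, Multiset.map_zero, Multiset.prod_zero, mul_one]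

theorem Embed_raise_iff (K : GK) (ℓ : ℕ) (κ : (lv ℓ).K) :
    Embed_Good K (ℓ + 1) (κ, 0) ↔ Embed_Good K ℓ κ := by
  unfold Embed_Good
  rw [Embed_labl_zero_right]
  simp only [Embed_Jh_zero_right]

theorem Embed_raise (K : GK) (ℓ : ℕ) (κ : (lv ℓ).K) (h : Embed_Good K ℓ κ) (ℓ' : ℕ)
    (hℓ : ℓ ≤ ℓ') : ∃ κ' : (lv ℓ').K, Embed_Good K ℓ' κ' := by
  induction ℓ', hℓ using Nat.le_induction with
  | base => exact ⟨κ, h⟩
  | succ m _ ih =>
    obtain ⟨κ', h'⟩ := ih
    exact ⟨(κ', 0), (Embed_raise_iff K m κ').2 h'⟩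

theorem Embed_lower (K : GK) : ∀ (ℓ : ℕ) (κ : (lv ℓ).K), Embed_Good K ℓ κ →
    ∃ (ℓ' : ℕ) (κ' : (lv ℓ').K), Embed_Good K ℓ' κ' ∧ (lv ℓ').new κ' := by
  intro ℓ
  induction ℓ with
  | zero => intro κ h; exact ⟨0, κ, h, trivial⟩
  | succ m ih =>
    rintro ⟨κ, M⟩ h
    by_cases hM : M = 0
    · subst hM
      exact ih κ ((Embed_raise_iff K m κ).1 h)
    · exact ⟨m + 1, (κ, M), h, hM⟩

theorem Embed_Jh_add (ℓ : ℕ) : ∀ (κ₁ κ₂ : (lv ℓ).K) (n : ℕ), 
    Jh ℓ (κ₁ + κ₂) n * brF n = Jh ℓ κ₁ n * Jh ℓ κ₂ n := by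
  induction ℓ with
  | zero => intro κ₁ κ₂ n; rfl
  | succ m ih =>
    rintro ⟨κ₁, M₁⟩ ⟨κ₂, M₂⟩ n
    change Jh (m + 1) (κ₁ + κ₂, M₁ + M₂) n * brF n = _
    rw [Embed_Jh_succ, Embed_Jh_succ, Embed_Jh_succ, Multiset.map_add, Multiset.prod_add]
    linear_combination ((M₁.map fun P => JhatP (Jh m P.κ) P.r P.s n / brF n).prod *
      (M₂.map fun P => JhatP (Jh m P.κ) P.r P.s n / brF n).prod) * ih κ₁ κ₂ n

open scoped Pointwise in
theorem Embed_labl_add (ℓ : ℕ) : ∀ (κ₁ κ₂ : (lv ℓ).K),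
    labl ℓ (κ₁ + κ₂) = labl ℓ κ₁ * labl ℓ κ₂ := by
  induction ℓ with
  | zero =>
    intro κ₁ κ₂
    show ({1} : Finset ZZ) = {1} * {1}
    rw [Finset.singleton_mul_singleton, mul_one]
  | succ m ih =>
    rintro ⟨κ₁, M₁⟩ ⟨κ₂, M₂⟩
    change labl (m + 1) (κ₁ + κ₂, M₁ + M₂) = _
    rw [Embed_labl_succ, Embed_labl_succ, Embed_labl_succ, Multiset.map_add,
      Multiset.prod_add, ih]
    exact mul_mul_mul_comm _ _ _ _

theorem Embed_Jh_zero (ℓ : ℕ) (n : ℕ) : Jh ℓ 0 n = brF n := by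
  induction ℓ with
  | zero => rfl
  | succ m ih =>
    have h : (0 : (lv (m + 1)).K) = (0, 0) := rfl
    rw [h, Embed_Jh_zero_right, ih]

theorem Embed_labl_zero (ℓ : ℕ) : labl ℓ 0 = {1} := by
  induction ℓ with
  | zero => rfl
  | succ m ih =>
    have h : (0 : (lv (m + 1)).K) = (0, 0) := rfl
    rw [h, Embed_labl_zero_right, ih]

/-! ### Knots with trivial labels -/

theorem Embed_one_mem : ∀ K : GK, ((1, 0) : ℤˣ × ℤ) ∈ K.Lab
  | .unknot => by simp [GK.Lab]
  | .cable r s K => by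
    have h := Embed_one_mem K
    unfold GK.Lab
    refine Finset.mem_union_right _ (Finset.mem_image.2 ⟨_, h, ?_⟩)
    simp
  | .sum K L => by
    have h1 := Embed_one_mem K
    have h2 := Embed_one_mem L
    unfold GK.Lab
    refine Finset.mem_image₂.2 ⟨_, h1, _, h2, ?_⟩
    simp

theorem Embed_triv : ∀ K : GK, (∀ z ∈ K.Lab, z = (1, 0)) → K.Triv
  | .unknot => fun _ => trivial
  | .cable r s K => by
    intro h
    have h1 : ((-1, -(r * s)) : ℤˣ × ℤ) ∈ (GK.cable r s K).Lab := by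
      unfold GK.Lab
      refine Finset.mem_union_left _ ?_
      split_ifs <;> simp
    have h2 : (-1 : ℤˣ) = 1 := congrArg Prod.fst (h _ h1)
    exact absurd h2 (by decide)
  | .sum K L => by
    intro h
    refine ⟨Embed_triv K fun z hz => ?_, Embed_triv L fun z hz => ?_⟩
    · have h1 : ((z.1 * 1, z.2 + 0) : ℤˣ × ℤ) ∈ (GK.sum K L).Lab := by
        unfold GK.Lab
        exact Finset.mem_image₂.2 ⟨z, hz, (1, 0), Embed_one_mem L, rfl⟩
      have h2 := h _ h1
      rw [mul_one, add_zero] at h2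
      exact h2
    · have h1 : ((1 * z.1, 0 + z.2) : ℤˣ × ℤ) ∈ (GK.sum K L).Lab := by
        unfold GK.Lab
        exact Finset.mem_image₂.2 ⟨(1, 0), Embed_one_mem K, z, hz, rfl⟩
      have h2 := h _ h1
      rw [one_mul, zero_add] at h2
      exact h2

/-! ### The cabling formula -/

theorem Embed_t_pow_ne (n : ℕ) (hn : 0 < n) : t ^ n ≠ 1 := by
  intro h
  have h1 : (algebraMap ℚ[X] (RatFunc ℚ)) (X ^ n) = algebraMap ℚ[X] (RatFunc ℚ) 1 := by
    rw [map_pow, RatFunc.algebraMap_X, map_one]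
    exact h
  have h2 := RatFunc.algebraMap_injective ℚ h1
  have h3 := congrArg Polynomial.natDegree h2
  rw [Polynomial.natDegree_X_pow, Polynomial.natDegree_one] at h3
  omega

theorem Embed_brF_ne (n : ℕ) (hn : 1 ≤ n) : brF n ≠ 0 := by
  intro h
  unfold brF at h
  have h1 : t ^ (2 * (n : ℤ)) = t ^ (-(2 * (n : ℤ))) := sub_eq_zero.1 h
  have h2 : t ^ (2 * (n : ℤ)) * t ^ (2 * (n : ℤ)) = 1 := by
    nth_rewrite 1 [h1]
    rw [← zpow_add₀ t_ne, neg_add_cancel, zpow_zero]
  rw [← zpow_add₀ t_ne] at h2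
  have h3 : t ^ (4 * n) = 1 := by
    rw [← h2, ← zpow_natCast]
    congr 1
    push_cast
    ring
  exact Embed_t_pow_ne (4 * n) (by omega) h3

theorem Embed_brF_neg (n : ℤ) : brF (-n) = -brF n := by
  unfold brF
  rw [mul_neg, neg_neg]
  ring

theorem Embed_sign_brF (x : ℤ) (hx : x ≠ 0) :
    ((x.sign : ℤ) : FF) * brF (x.natAbs : ℤ) = brF x := by
  rcases lt_or_gt_of_ne hx with h | h
  · rw [Int.sign_eq_neg_one_of_neg h]
    have h1 : (x.natAbs : ℤ) = -x := Int.ofNat_natAbs_of_nonpos h.le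
    rw [h1, Embed_brF_neg]
    push_cast
    ring
  · rw [Int.sign_eq_one_of_pos h]
    have h1 : (x.natAbs : ℤ) = x := Int.natAbs_of_nonneg h.le
    rw [h1, Int.cast_one, one_mul]

theorem Embed_ne_zero (s : ℕ) (hs : 2 ≤ s) (j : ℤ) : (s : ℤ) * j + 1 ≠ 0 := by
  intro h
  have h1 : (s : ℤ) ∣ 1 := ⟨-j, by linarith⟩
  have h2 := Int.le_of_dvd one_pos h1
  omega

theorem Embed_JhatP (f : ℕ → FF) (K : GK) (r : ℤ) (s : ℕ) (hs : 2 ≤ s)
    (hf : ∀ n : ℕ, 1 ≤ n → f n = brF n * K.J n) (n : ℕ) (hn : 1 ≤ n) :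
    JhatP f r s n = brF n * (GK.cable r s K).J n := by
  have hne := Embed_brF_ne n hn
  have hJ : (GK.cable r s K).J n = t ^ (r * s * (1 - (n : ℤ) ^ 2)) / brF n *
        ∑ k ∈ Finset.range n,
          t ^ (r * s * (2 * (k : ℤ) - n + 1) ^ 2 + 2 * r * (2 * (k : ℤ) - n + 1)) *
          brF (s * (2 * (k : ℤ) - n + 1) + 1) *
          GK.J K (s * (2 * (k : ℤ) - n + 1) + 1).natAbs := rfl
  rw [hJ]
  unfold JhatP
  have h1 : ∀ A B : FF, brF n * (A / brF n * B) = A * B := by
    intro A B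
    field_simp
  rw [h1]
  congr 1
  refine Finset.sum_congr rfl fun k _ => ?_
  have h2 := Embed_ne_zero s hs (2 * (k : ℤ) - n + 1)
  rw [← Embed_sign_brF _ h2, hf _ (Int.natAbs_pos.2 h2)]
  ring

/-! ### Cables -/

open scoped Pointwise in
theorem Embed_cable (r : ℤ) (s : ℕ) (K : GK) (hs : 2 ≤ s) (ℓ : ℕ) (P : PT (lv ℓ)) (hr : P.r = r)
    (hPs : P.s = s) (h : Embed_Good K ℓ P.κ) :
    Embed_Good (GK.cable r s K) (ℓ + 1) (0, {P}) := by
  subst hr
  subst hPs
  refine ⟨fun n hn => ?_, fun z => ?_⟩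
  · have hne := Embed_brF_ne n hn
    rw [Embed_Jh_succ, Multiset.map_singleton, Multiset.prod_singleton, Embed_Jh_zero,
      mul_div_cancel₀ _ hne]
    exact Embed_JhatP (Jh ℓ P.κ) K P.r P.s P.hs h.1 n hn
  · have hlab : labl (ℓ + 1) (0, {P}) = labP (labl ℓ) P := by
      have h0 : labl ℓ 0 = 1 := Embed_labl_zero ℓ
      rw [Embed_labl_succ, Multiset.map_singleton, Multiset.prod_singleton, h0, one_mul]
    rw [hlab]
    unfold labP GK.Lab
    rw [Finset.mem_union, Finset.mem_union, Finset.mem_image, Finset.mem_image]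
    refine or_congr ?_ ?_
    · obtain ⟨z1, z2⟩ := z
      split_ifs
      · simp only [Finset.mem_singleton, Prod.mk.injEq, EmbeddingLike.apply_eq_iff_eq]
      · simp only [Finset.mem_singleton, Finset.mem_insert, Prod.mk.injEq,
          EmbeddingLike.apply_eq_iff_eq]
    · constructor
      · rintro ⟨w, hw, rfl⟩
        refine ⟨_, (h.2 w).1 hw, ?_⟩
        refine Prod.ext rfl ?_
        show Multiplicative.ofAdd w.2 ^ (P.s ^ 2) = Multiplicative.ofAdd (w.2 * (P.s : ℤ) ^ 2)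
        rw [← ofAdd_nsmul]
        congr 1
        rw [nsmul_eq_mul]
        push_cast
        ring
      · rintro ⟨w, hw, he⟩
        refine ⟨(w.1, w.2.toAdd), (h.2 _).2 hw, ?_⟩
        have h0 : w.1 ^ P.s = z.1 := congrArg Prod.fst he
        refine Prod.ext h0 ?_
        have h1 := congrArg Prod.snd he
        have h2 := congrArg Multiplicative.toAdd h1
        show w.2.toAdd * (P.s : ℤ) ^ 2 = z.2
        have h3 : Multiplicative.toAdd (w.2 ^ (P.s ^ 2)) = z.2 := h2
        rw [toAdd_pow, nsmul_eq_mul] at h3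
        rw [← h3]
        push_cast
        ring

open scoped Pointwise in
theorem Embed_sum (K L : GK) (ℓ : ℕ) (κ₁ κ₂ : (lv ℓ).K) (h₁ : Embed_Good K ℓ κ₁)
    (h₂ : Embed_Good L ℓ κ₂) : Embed_Good (GK.sum K L) ℓ (κ₁ + κ₂) := by
  refine ⟨fun n hn => ?_, fun z => ?_⟩
  · have hne := Embed_brF_ne n hn
    have h := Embed_Jh_add ℓ κ₁ κ₂ n
    rw [h₁.1 n hn, h₂.1 n hn] at h
    have h3 : (Jh ℓ (κ₁ + κ₂) n) * brF n = (brF n * (GK.sum K L).J n) * brF n := by
      rw [h]
      show _ = (brF n * (K.J n * L.J n)) * brF n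
      ring
    exact mul_right_cancel₀ hne h3
  · rw [Embed_labl_add]
    unfold GK.Lab
    rw [Finset.mem_image₂, Finset.mem_mul]
    constructor
    · rintro ⟨a, ha, b, hb, rfl⟩
      exact ⟨_, (h₁.2 a).1 ha, _, (h₂.2 b).1 hb, rfl⟩
    · rintro ⟨a, ha, b, hb, he⟩
      refine ⟨(a.1, a.2.toAdd), (h₁.2 _).2 ha, (b.1, b.2.toAdd), (h₂.2 _).2 hb, ?_⟩
      refine Prod.ext (congrArg Prod.fst he) ?_
      exact congrArg Multiplicative.toAdd (congrArg Prod.snd he)

theorem Embed_proof : S_Embed := by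
  intro K
  induction K with
  | unknot =>
    intro _
    refine ⟨0, (), fun n _ => ?_, fun z => ?_⟩
    · show brF n = brF n * 1
      rw [mul_one]
    · show z ∈ ({(1, 0)} : Finset (ℤˣ × ℤ)) ↔ (z.1, Multiplicative.ofAdd z.2) ∈ ({1} : Finset ZZ)
      rw [Finset.mem_singleton, Finset.mem_singleton]
      constructor
      · rintro rfl
        rfl
      · intro h
        exact Prod.ext (congrArg Prod.fst h) (congrArg Multiplicative.toAdd (congrArg Prod.snd h))
  | cable r s K ih =>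
    intro hv
    obtain ⟨hK, hs, hco, htr⟩ := hv
    obtain ⟨ℓ₀, κ₀, h₀⟩ := ih hK
    obtain ⟨ℓ, κ, h, hnew⟩ := Embed_lower K ℓ₀ κ₀ h₀
    have hb : (lv ℓ).base → (s : ℤ) < |r| := by
      intro hbase
      apply htr
      cases ℓ with
      | zero =>
        apply Embed_triv
        intro z hz
        have h1 : (z.1, Multiplicative.ofAdd z.2) ∈ ({1} : Finset ZZ) := (h.2 z).1 hz
        rw [Finset.mem_singleton] at h1
        exact Prod.ext (congrArg Prod.fst h1)
          (congrArg Multiplicative.toAdd (congrArg Prod.snd h1))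
      | succ m => exact hbase.elim
    refine ⟨ℓ + 1, ((0 : (lv ℓ).K), ({⟨r, s, κ, hs, hco, hnew, hb⟩} : Multiset (PT (lv ℓ)))), ?_⟩
    exact Embed_cable r s K hs ℓ ⟨r, s, κ, hs, hco, hnew, hb⟩ rfl rfl h
  | sum K L ihK ihL =>
    rintro ⟨hK, hL⟩
    obtain ⟨ℓ₁, κ₁, h₁⟩ := ihK hK
    obtain ⟨ℓ₂, κ₂, h₂⟩ := ihL hL
    obtain ⟨κ₁', h₁'⟩ := Embed_raise K ℓ₁ κ₁ h₁ (max ℓ₁ ℓ₂) (le_max_left _ _)
    obtain ⟨κ₂', h₂'⟩ := Embed_raise L ℓ₂ κ₂ h₂ (max ℓ₁ ℓ₂) (le_max_right _ _)
    exact ⟨max ℓ₁ ℓ₂, κ₁' + κ₂', Embed_sum K L _ κ₁' κ₂' h₁' h₂'⟩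

end AJG

end

section

/-!
# MP_d3fa71_gt: the realisation of the base level in germs
-/

open Polynomial

namespace AJG

theorem GBase_unitG_pow (f : ℕ → FF) (hf : ∀ n, f n ≠ 0) (k : ℕ) :
    unitG f hf ^ k = unitG (fun n => f n ^ k) fun n => pow_ne_zero _ (hf n) := by
  induction k with
  | zero =>
    rw [pow_zero]
    apply Units.ext
    change (1 : GG) = gm fun n => f n ^ 0
    simp only [pow_zero]
    rfl
  | succ k ih =>
    rw [pow_succ, ih]
    apply Units.ext
    change gm (fun n => f n ^ k) * gm f = gm fun n => f n ^ (k + 1)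
    simp only [pow_succ]
    rfl

theorem GBase_unitG_inv (f : ℕ → FF) (hf : ∀ n, f n ≠ 0) :
    (unitG f hf)⁻¹ = unitG (fun n => (f n)⁻¹) fun n => inv_ne_zero (hf n) :=
  Units.ext rfl

theorem GBase_unitG_zpow (f : ℕ → FF) (hf : ∀ n, f n ≠ 0) (k : ℤ) :
    unitG f hf ^ k = unitG (fun n => f n ^ k) fun n => zpow_ne_zero _ (hf n) := by
  cases k with
  | ofNat k =>
    rw [Int.ofNat_eq_natCast, zpow_natCast, GBase_unitG_pow]
    apply Units.ext
    change gm (fun n => f n ^ k) = gm (fun n => f n ^ (k : ℤ))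
    simp only [zpow_natCast]
  | negSucc k =>
    rw [zpow_negSucc, GBase_unitG_pow, GBase_unitG_inv]
    apply Units.ext
    change gm (fun n => (f n ^ (k + 1))⁻¹) = gm (fun n => f n ^ (Int.negSucc k))
    simp only [zpow_negSucc]

/-- brackets on germs -/
theorem GBase_br (S c : ℕ) : DG.br S c = gm fun n => brF ((S * n + c : ℕ) : ℤ) := by
  unfold Dat.br
  have e1 : ∀ a b : ℤ, ((DG.t ^ a * DG.x ^ b : GGˣ) : GG) =
      gm fun n => t ^ a * (t ^ (2 * n)) ^ b := by
    intro a b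
    change ((unitG (fun _ => t) (fun _ => t_ne) ^ a *
      unitG (fun n => t ^ (2 * n)) (fun _ => pow_ne_zero _ t_ne) ^ b : GGˣ) : GG) = _
    rw [GBase_unitG_zpow, GBase_unitG_zpow]
    rfl
  rw [e1, e1]
  change gm ((fun n : ℕ => t ^ (2 * (c : ℤ)) * (t ^ (2 * n)) ^ (S : ℤ)) -
    fun n => t ^ (-(2 * (c : ℤ))) * (t ^ (2 * n)) ^ (-(S : ℤ))) = _
  congr 1
  funext n
  simp only [Pi.sub_apply, brF]
  have h1 : (t ^ (2 * n) : FF) = t ^ ((2 * n : ℕ) : ℤ) := (zpow_natCast _ _).symm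
  rw [h1, ← zpow_mul, ← zpow_mul, ← zpow_add₀ t_ne, ← zpow_add₀ t_ne]
  congr 2
  · push_cast; ring
  · push_cast; ring

/-- the constants -/
noncomputable def GBase_c : FF →+* GG where
  toFun c := gm fun _ => c
  map_one' := rfl
  map_mul' _ _ := rfl
  map_zero' := rfl
  map_add' _ _ := rfl

/-- the values of polynomials -/
noncomputable def GBase_poly : Polynomial FF →+* GG :=
  Polynomial.eval₂RingHom GBase_c (DG.x : GG)

/-- the values of polynomials as germs -/
noncomputable def GBase_ev : Polynomial FF →+* GG where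
  toFun P := gm fun n => P.eval (t ^ (2 * n))
  map_one' := by simp only [eval_one]; rfl
  map_mul' _ _ := by simp only [eval_mul]; rfl
  map_zero' := by simp only [eval_zero]; rfl
  map_add' _ _ := by simp only [eval_add]; rfl

theorem GBase_poly_eq : GBase_poly = GBase_ev := by
  apply Polynomial.ringHom_ext
  · intro a
    simp only [GBase_poly, coe_eval₂RingHom, eval₂_C]
    change gm (fun _ => a) = gm (fun n => (C a).eval (t ^ (2 * n)))
    simp only [eval_C]
  · simp only [GBase_poly, coe_eval₂RingHom, eval₂_X]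
    change gm (fun n => t ^ (2 * n)) = gm (fun n => (X : Polynomial FF).eval (t ^ (2 * n)))
    simp only [eval_X]

theorem GBase_t_inj : Function.Injective fun n : ℕ => (t ^ (2 * n) : FF) := by
  intro a b h
  have h1 : algebraMap (Polynomial ℚ) FF (X ^ (2 * a)) =
      algebraMap (Polynomial ℚ) FF (X ^ (2 * b)) := by
    rw [map_pow, map_pow, RatFunc.algebraMap_X]
    exact h
  have h2 := RatFunc.algebraMap_injective ℚ h1
  have h3 := congrArg Polynomial.natDegree h2
  rw [natDegree_X_pow, natDegree_X_pow] at h3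
  omega

theorem GBase_unit (P : Polynomial FF) (hP : P ≠ 0) : IsUnit (GBase_poly P) := by
  classical
  rw [GBase_poly_eq]
  have hfin : {n : ℕ | P.eval (t ^ (2 * n)) = 0}.Finite := by
    have h1 : ((fun n : ℕ => (t ^ (2 * n) : FF)) ⁻¹' (P.roots.toFinset : Set FF)).Finite :=
      (Finset.finite_toSet _).preimage GBase_t_inj.injOn
    refine h1.subset fun n hn => ?_
    simp only [Set.mem_preimage, Finset.mem_coe, Multiset.mem_toFinset]
    exact (mem_roots hP).2 hn
  have hev : ∀ᶠ n : ℕ in Filter.atTop, P.eval (t ^ (2 * n)) ≠ 0 := by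
    rw [← Nat.cofinite_eq_atTop]
    exact hfin.compl_mem_cofinite
  have h2 : gm (fun n => P.eval (t ^ (2 * n))) * gm (fun n => (P.eval (t ^ (2 * n)))⁻¹) = 1 := by
    refine Filter.Germ.coe_eq.2 ?_
    filter_upwards [hev] with n hn
    exact mul_inv_cancel₀ hn
  exact IsUnit.of_mul_eq_one _ h2

/-- the values of rational functions -/
noncomputable def GBase_K : KK →+* GG :=
  IsLocalization.lift (M := nonZeroDivisors (Polynomial FF)) (S := KK) (g := GBase_poly)
    fun y => GBase_unit y (nonZeroDivisors.ne_zero y.2)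

theorem GBase_K_alg (P : Polynomial FF) : GBase_K (algebraMap (Polynomial FF) KK P) = GBase_poly P :=
  IsLocalization.lift_eq _ _

theorem GBase_K_C (c : FF) : GBase_K (RatFunc.C c) = gm fun _ => c := by
  rw [← RatFunc.algebraMap_C, GBase_K_alg]
  simp only [GBase_poly, coe_eval₂RingHom, eval₂_C]
  rfl

theorem GBase_K_X : GBase_K RatFunc.X = DG.x := by
  rw [← RatFunc.algebraMap_X, GBase_K_alg]
  simp only [GBase_poly, coe_eval₂RingHom, eval₂_X]

/-- the realisation -/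
noncomputable def GBase_Psi : A0 →+* GG := LaurentPolynomial.eval₂ GBase_K DG.h

theorem GBase_br_map {R R' : Type} [CommRing R] [CommRing R'] (φ : R →+* R') (D : Dat R)
    (S c : ℕ) : φ (D.br S c) = (D.map φ).br S c := by
  unfold Dat.br Dat.map
  rw [map_sub]
  have e : ∀ u : Rˣ, φ u = (Units.map φ.toMonoidHom u : R'ˣ) := fun u => rfl
  rw [e, e]
  simp only [map_mul, map_zpow]

theorem GBase_map_alg (φ : Polynomial FF →+* Polynomial FF)
    (hφ : nonZeroDivisors (Polynomial FF) ≤ (nonZeroDivisors (Polynomial FF)).comap φ)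
    (P : Polynomial FF) : RatFunc.mapRingHom φ hφ (algebraMap (Polynomial FF) KK P) =
      algebraMap (Polynomial FF) KK (φ P) := by
  rw [RatFunc.coe_mapRingHom_eq_coe_map]
  have h := RatFunc.map_apply_div φ hφ P 1
  simpa using h

theorem GBase_sK_alg (P : Polynomial FF) : sK (algebraMap (Polynomial FF) KK P) =
    algebraMap (Polynomial FF) KK (Polynomial.eval₂ Polynomial.C
      (Polynomial.C (t ^ 2) * Polynomial.X) P) :=
  GBase_map_alg _ _ P

theorem GBase_comm_K (hE : ∀ f : ℕ → FF, EG (gm f) = gm fun n => f (n + 1))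
    (hEx : EG DG.x = (DG.t : GG) ^ 2 * DG.x) :
    GBase_K.comp sK = (EG.comp GBase_K : KK →+* GG) := by
  apply IsLocalization.ringHom_ext (nonZeroDivisors (Polynomial FF))
  apply Polynomial.ringHom_ext
  · intro a
    simp only [RingHom.comp_apply]
    rw [GBase_sK_alg, Polynomial.eval₂_C, GBase_K_alg]
    simp only [GBase_poly, coe_eval₂RingHom, eval₂_C]
    exact (hE fun _ => a).symm
  · simp only [RingHom.comp_apply]
    rw [GBase_sK_alg, Polynomial.eval₂_X, GBase_K_alg, GBase_K_alg]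
    simp only [GBase_poly, coe_eval₂RingHom, eval₂_X, eval₂_mul, eval₂_C]
    rw [hEx]
    rfl

theorem GBase_comm (hE : ∀ f : ℕ → FF, EG (gm f) = gm fun n => f (n + 1))
    (hEx : EG DG.x = (DG.t : GG) ^ 2 * DG.x) (hEh : EG DG.h = (DG.t : GG) * DG.x * DG.h)
    (hD : D0.map GBase_Psi = DG) (a : A0) : GBase_Psi (s0 a) = EG (GBase_Psi a) := by
  have hC : ∀ k : KK, GBase_Psi (s0 (LaurentPolynomial.C k)) =
      EG (GBase_Psi (LaurentPolynomial.C k)) := by
    intro k
    unfold s0 GBase_Psi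
    rw [LaurentPolynomial.eval₂_C, LaurentPolynomial.eval₂_C, RingHom.comp_apply,
      LaurentPolynomial.eval₂_C]
    exact congrArg (fun φ : KK →+* GG => φ k) (GBase_comm_K hE hEx)
  have hT : GBase_Psi (s0 (LaurentPolynomial.T 1)) = EG (GBase_Psi (LaurentPolynomial.T 1)) := by
    have e1 : s0 (LaurentPolynomial.T 1) = D0.t * D0.x * D0.h := by
      unfold s0
      rw [LaurentPolynomial.eval₂_T, zpow_one]
      simp
    have e2 : GBase_Psi D0.t = DG.t := congrArg (fun D : Dat GG => (D.t : GG)) hD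
    have e3 : GBase_Psi D0.x = DG.x := congrArg (fun D : Dat GG => (D.x : GG)) hD
    have e4 : GBase_Psi D0.h = DG.h := congrArg (fun D : Dat GG => (D.h : GG)) hD
    have e5 : GBase_Psi (LaurentPolynomial.T 1) = DG.h := e4
    rw [e1, e5, hEh, map_mul, map_mul, e2, e3, e4]
  have h : GBase_Psi.comp s0 = EG.comp GBase_Psi := by
    apply IsLocalization.ringHom_ext (Submonoid.powers (X : Polynomial KK))
    apply Polynomial.ringHom_ext
    · intro k
      simp only [RingHom.comp_apply, LaurentPolynomial.algebraMap_eq_toLaurent,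
        Polynomial.toLaurent_C]
      exact hC k
    · simp only [RingHom.comp_apply, LaurentPolynomial.algebraMap_eq_toLaurent,
        Polynomial.toLaurent_X]
      exact hT
  exact congrArg (fun φ : A0 →+* GG => φ a) h

theorem GBase_brK (S c : ℕ) : GBase_K (brK S c) = DG.br S c := by
  unfold brK Dat.br
  have ht : Units.map GBase_K.toMonoidHom (Units.mk0 tK tK_ne) = DG.t := by
    apply Units.ext
    exact GBase_K_C t
  have hx : Units.map GBase_K.toMonoidHom (Units.mk0 xK xK_ne) = DG.x := by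
    apply Units.ext
    exact GBase_K_X
  have e1 : ∀ a b : ℤ, GBase_K (tK ^ a * xK ^ b) = ((DG.t ^ a * DG.x ^ b : GGˣ) : GG) := by
    intro a b
    rw [← ht, ← hx, ← map_zpow, ← map_zpow, ← map_mul]
    have e2 : tK ^ a * xK ^ b = (((Units.mk0 tK tK_ne) ^ a * (Units.mk0 xK xK_ne) ^ b : KKˣ) : KK) := by
      rw [Units.val_mul, Units.val_zpow_eq_zpow_val, Units.val_zpow_eq_zpow_val]
      rfl
    rw [e2]
    rfl
  rw [map_sub, e1, e1]

theorem GBase_data (hok : DG.Ok) : D0.map GBase_Psi = DG := by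
  have hKC : ∀ k : KK, GBase_Psi (LaurentPolynomial.C k) = GBase_K k := by
    intro k
    unfold GBase_Psi
    rw [LaurentPolynomial.eval₂_C]
  have ht : (D0.map GBase_Psi).t = DG.t := by
    apply Units.ext
    change GBase_Psi (LaurentPolynomial.C tK) = DG.t
    rw [hKC]
    exact GBase_K_C t
  have hx : (D0.map GBase_Psi).x = DG.x := by
    apply Units.ext
    change GBase_Psi (LaurentPolynomial.C xK) = DG.x
    rw [hKC]
    exact GBase_K_X
  have hh : (D0.map GBase_Psi).h = DG.h := by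
    apply Units.ext
    change GBase_Psi (LaurentPolynomial.T 1) = DG.h
    unfold GBase_Psi
    rw [LaurentPolynomial.eval₂_T, zpow_one]
  have hib : (D0.map GBase_Psi).ib = DG.ib := by
    funext S c
    change GBase_Psi (if S = 0 then 0 else LaurentPolynomial.C ((brK S c)⁻¹)) = DG.ib S c
    by_cases hS : S = 0
    · rw [if_pos hS, map_zero]
      subst hS
      rfl
    · rw [if_neg hS, hKC]
      have h1 := hok S c (Nat.pos_of_ne_zero hS)
      rw [← GBase_brK] at h1
      have hne : brK S c ≠ 0 := by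
        intro h
        rw [h, map_zero, zero_mul] at h1
        exact zero_ne_one h1
      calc GBase_K (brK S c)⁻¹ = GBase_K (brK S c)⁻¹ * (GBase_K (brK S c) * DG.ib S c) := by
            rw [h1, mul_one]
        _ = GBase_K ((brK S c)⁻¹ * brK S c) * DG.ib S c := by rw [map_mul, mul_assoc]
        _ = DG.ib S c := by rw [inv_mul_cancel₀ hne, map_one, one_mul]
  cases h : D0.map GBase_Psi with
  | mk t' x' h' ib' =>
    rw [h] at ht hx hh hib
    simp only at ht hx hh hib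
    rw [ht, hx, hh, hib]

theorem GBase_proof (h1 : S_GermData) : S_GBase := by
  obtain ⟨hok, hE, hEx, hEh, -⟩ := h1
  have hdata : D0.map GBase_Psi = DG := GBase_data hok
  refine ⟨GBase_Psi, ?_, fun a => GBase_comm hE hEx hEh hdata a, hdata, ?_⟩
  · intro c
    rw [LaurentPolynomial.algebraMap_apply]
    unfold GBase_Psi
    rw [LaurentPolynomial.eval₂_C, RatFunc.algebraMap_eq_C, GBase_K_C]
  · intro κ S c _ _
    change GBase_Psi (D0.br S c) = gm fun n => brF ((S * n + c : ℕ) : ℤ)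
    rw [GBase_br_map, hdata, GBase_br]

end AJG

end

section

/-!
# MP_d3fa71_gt, item GNext: the realisation in germs of the next level
-/

open Polynomial

namespace AJG

theorem GNext_map_map {R R' R'' : Type} [CommRing R] [CommRing R'] [CommRing R''] (D : Dat R)
    (φ : R →+* R') (ψ : R' →+* R'') : (D.map φ).map ψ = D.map (ψ.comp φ) := rfl

theorem GNext_unit_zpow (f : ℕ → FF) (hf : ∀ n, f n ≠ 0) (z : ℤ) :
    ((unitG f hf ^ z : GGˣ) : GG) = gm fun n => f n ^ z := by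
  cases z with
  | ofNat k =>
    rw [Int.ofNat_eq_natCast, zpow_natCast, Units.val_pow_eq_pow_val]
    show gm f ^ k = _
    have h : gm f ^ k = gm (f ^ k) := rfl
    rw [h]
    congr 1
  | negSucc k =>
    rw [zpow_negSucc, ← inv_pow, Units.val_pow_eq_pow_val]
    show gm (fun n => (f n)⁻¹) ^ (k + 1) = _
    have h : gm (fun n => (f n)⁻¹) ^ (k + 1) = gm ((fun n => (f n)⁻¹) ^ (k + 1)) := rfl
    rw [h]
    congr 1
    funext n
    rw [zpow_negSucc, ← inv_pow]
    rfl

theorem GNext_gm_mul (f g : ℕ → FF) : gm f * gm g = gm fun n => f n * g n := rfl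

theorem GNext_gm_add (f g : ℕ → FF) : gm f + gm g = gm fun n => f n + g n := rfl

theorem GNext_gm_sub (f g : ℕ → FF) : gm f - gm g = gm fun n => f n - g n := rfl

theorem GNext_gm_sum (q : ℕ) (f : ℕ → ℕ → FF) :
    ∑ k ∈ Finset.range q, gm (f k) = gm fun n => ∑ k ∈ Finset.range q, f k n := by
  induction q with
  | zero => rfl
  | succ q ih =>
    rw [Finset.sum_range_succ, ih, GNext_gm_add]
    congr 1
    funext n
    rw [Finset.sum_range_succ]

/-- the monomial in `t`, `h`, `x` on germs -/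
theorem GNext_mon (a b c : ℤ) : ((DG.t ^ a * DG.h ^ b * DG.x ^ c : GGˣ) : GG) =
    gm fun n => t ^ (a + (n : ℤ) ^ 2 * b + 2 * (n : ℤ) * c) := by
  rw [Units.val_mul, Units.val_mul]
  unfold DG
  simp only
  rw [GNext_unit_zpow, GNext_unit_zpow, GNext_unit_zpow, GNext_gm_mul, GNext_gm_mul]
  congr 1
  funext n
  rw [zpow_add₀ t_ne, zpow_add₀ t_ne]
  congr 1
  · congr 1
    rw [zpow_mul]
    congr 1
  · rw [zpow_mul]
    congr 1

section

variable {L : Lv} {Jl : L.K → ℕ → FF} {A : Type} [CommRing A] [Algebra FF A] {D : Dat A}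
  {σ : A →+* A} {J : L.K → ℕ → ℕ → A} {Ψ : A →+* GG}

theorem GNext_unit (hG : GReal L Jl A D σ J Ψ) (a b c : ℤ) :
    Ψ ((D.t ^ a * D.h ^ b * D.x ^ c : Aˣ) : A) =
      gm fun n => t ^ (a + (n : ℤ) ^ 2 * b + 2 * (n : ℤ) * c) := by
  rw [← GNext_mon, ← hG.data]
  show _ = (((Units.map Ψ.toMonoidHom D.t) ^ a * (Units.map Ψ.toMonoidHom D.h) ^ b *
    (Units.map Ψ.toMonoidHom D.x) ^ c : GGˣ) : GG)
  rw [← map_zpow, ← map_zpow, ← map_zpow, ← map_mul, ← map_mul]
  rfl

theorem GNext_fp (hG : GReal L Jl A D σ J Ψ) (r : ℤ) (s S : ℕ) (κ : L.K) (v : ℕ)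
    (hs : 0 < s) (hS : 0 < S) (hS2 : Even S) :
    Ψ (fp D J r s S κ v) = gm fun n => t ^ (r * s * ((S * n + v : ℕ) : ℤ) ^ 2 +
      2 * r * ((S * n + v : ℕ) : ℤ)) * Jl κ (s * (S * n + v) + 1) := by
  unfold fp
  rw [map_mul, GNext_unit hG, hG.val κ (s * S) (s * v + 1) (by positivity) (hS2.mul_left s)]
  unfold JG
  rw [GNext_gm_mul]
  congr 1
  funext n
  congr 1
  · congr 1
    push_cast
    ring
  · congr 1
    ring

theorem GNext_fm (hG : GReal L Jl A D σ J Ψ) (r : ℤ) (s S : ℕ) (κ : L.K) (v : ℕ)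
    (hs : 0 < s) (hS : 0 < S) (hS2 : Even S) (hv : 0 < v) :
    Ψ (fm D J r s S κ v) = gm fun n => t ^ (r * s * ((S * n + v : ℕ) : ℤ) ^ 2 -
      2 * r * ((S * n + v : ℕ) : ℤ)) * Jl κ (s * (S * n + v) - 1) := by
  unfold fm
  rw [map_mul, GNext_unit hG, hG.val κ (s * S) (s * v - 1) (by positivity) (hS2.mul_left s)]
  unfold JG
  rw [GNext_gm_mul]
  congr 1
  funext n
  congr 1
  · congr 1
    push_cast
    ring
  · congr 1
    have h1 : 0 < s * v := Nat.mul_pos hs hv
    have h2 : s * (S * n + v) = s * S * n + s * v := by ring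
    omega

end

/-- one step of the recurrence for `γ(m) = t^{r s m²} Ĵ(m)` -/
theorem GNext_step (h1 : S_RecTwo) (f : ℕ → FF) (r : ℤ) (s : ℕ) (hs : 2 ≤ s) (m : ℕ) :
    t ^ (r * s * ((m + 2 : ℕ) : ℤ) ^ 2) * JhatP f r s (m + 2) -
      t ^ (r * s * (m : ℤ) ^ 2) * JhatP f r s m =
    t ^ (r * s) * (t ^ (r * s * ((m + 1 : ℕ) : ℤ) ^ 2 + 2 * r * ((m + 1 : ℕ) : ℤ)) *
        f (s * (m + 1) + 1) -
      t ^ (r * s * ((m + 1 : ℕ) : ℤ) ^ 2 - 2 * r * ((m + 1 : ℕ) : ℤ)) * f (s * (m + 1) - 1)) := by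
  rw [h1 f r s hs m]
  have e1 : t ^ (r * s * ((m + 2 : ℕ) : ℤ) ^ 2) * t ^ (-(4 * r * s * ((m : ℤ) + 1))) =
      t ^ (r * s * (m : ℤ) ^ 2) := by
    rw [← zpow_add₀ t_ne]
    congr 1
    push_cast
    ring
  have e2 : t ^ (r * s * ((m + 2 : ℕ) : ℤ) ^ 2) * t ^ (-(2 * r * s * ((m : ℤ) + 1))) *
      t ^ (2 * r * ((m : ℤ) + 1)) =
      t ^ (r * s) * t ^ (r * s * ((m + 1 : ℕ) : ℤ) ^ 2 + 2 * r * ((m + 1 : ℕ) : ℤ)) := by
    rw [← zpow_add₀ t_ne, ← zpow_add₀ t_ne, ← zpow_add₀ t_ne]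
    congr 1
    push_cast
    ring
  have e3 : t ^ (r * s * ((m + 2 : ℕ) : ℤ) ^ 2) * t ^ (-(2 * r * s * ((m : ℤ) + 1))) *
      t ^ (-(2 * r * ((m : ℤ) + 1))) =
      t ^ (r * s) * t ^ (r * s * ((m + 1 : ℕ) : ℤ) ^ 2 - 2 * r * ((m + 1 : ℕ) : ℤ)) := by
    rw [← zpow_add₀ t_ne, ← zpow_add₀ t_ne, ← zpow_add₀ t_ne]
    congr 1
    push_cast
    ring
  linear_combination JhatP f r s m * e1 + f (s * (m + 1) + 1) * e2 - f (s * (m + 1) - 1) * e3

theorem GNext_tele (h1 : S_RecTwo) (f : ℕ → FF) (r : ℤ) (s : ℕ) (hs : 2 ≤ s) (m q : ℕ) :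
    t ^ (r * s * ((m + 2 * q : ℕ) : ℤ) ^ 2) * JhatP f r s (m + 2 * q) =
      t ^ (r * s * (m : ℤ) ^ 2) * JhatP f r s m +
    t ^ (r * s) * ∑ k ∈ Finset.range q,
      (t ^ (r * s * ((m + 1 + 2 * k : ℕ) : ℤ) ^ 2 + 2 * r * ((m + 1 + 2 * k : ℕ) : ℤ)) *
        f (s * (m + 1 + 2 * k) + 1) -
      t ^ (r * s * ((m + 1 + 2 * k : ℕ) : ℤ) ^ 2 - 2 * r * ((m + 1 + 2 * k : ℕ) : ℤ)) *
        f (s * (m + 1 + 2 * k) - 1)) := by
  induction q with
  | zero => simp
  | succ q ih =>
    rw [Finset.sum_range_succ]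
    have h2 := GNext_step h1 f r s hs (m + 2 * q)
    have e1 : m + 2 * q + 2 = m + 2 * (q + 1) := by ring
    have e2 : m + 2 * q + 1 = m + 1 + 2 * q := by ring
    rw [e1, e2] at h2
    linear_combination ih + h2

theorem GNext_proof (h1 : S_RecTwo) (h2 : S_GermNext) (h3 : S_NextNat) (h4 : S_GermData) :
    S_GNext := by
  intro L Jl A _ _ D σ J Ψ hC hG
  set bg : PT L → ℕ → ℕ → GG := fun P S i => gm fun n =>
    t ^ (P.r * P.s * ((S * n + i : ℕ) : ℤ) ^ 2) * JhatP (Jl P.κ) P.r P.s (S * n + i) with hbg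
  set Ψ' : MvPolynomial (Var L) A →+* GG :=
    MvPolynomial.eval₂Hom Ψ (fun w => bg w.P w.S w.i) with hΨ'
  have hΨC : ∀ a : A, Ψ' (MvPolynomial.C a) = Ψ a := fun a => MvPolynomial.eval₂Hom_C _ _ a
  have hΨX : ∀ w : Var L, Ψ' (MvPolynomial.X w) = bg w.P w.S w.i :=
    fun w => MvPolynomial.eval₂Hom_X' _ _ w
  have hdata : (nextD (L := L) D).map Ψ' = DG := by
    unfold nextD
    rw [GNext_map_map]
    have : Ψ'.comp (MvPolynomial.C : A →+* MvPolynomial (Var L) A) = Ψ :=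
      RingHom.ext fun a => hΨC a
    rw [this]
    exact hG.data
  refine ⟨Ψ', ?_, ?_, hdata, ?_⟩
  · intro c
    rw [MvPolynomial.algebraMap_apply, hΨC]
    exact hG.sc c
  · -- commutation
    have hgv : ∀ w : Var L, Ψ' (MvPolynomial.X w) + Ψ (gvar D J w) = EG (bg w.P w.S w.i) := by
      intro w
      obtain ⟨q, hq⟩ := w.hS2
      have hs := w.P.hs
      have hgw : Ψ (gvar D J w) = gm fun n => t ^ (w.P.r * w.P.s) *
          ∑ k ∈ Finset.range q,
          (t ^ (w.P.r * w.P.s * ((w.S * n + (w.i + 1 + 2 * k) : ℕ) : ℤ) ^ 2 +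
              2 * w.P.r * ((w.S * n + (w.i + 1 + 2 * k) : ℕ) : ℤ)) *
            Jl w.P.κ (w.P.s * (w.S * n + (w.i + 1 + 2 * k)) + 1) -
          t ^ (w.P.r * w.P.s * ((w.S * n + (w.i + 1 + 2 * k) : ℕ) : ℤ) ^ 2 -
              2 * w.P.r * ((w.S * n + (w.i + 1 + 2 * k) : ℕ) : ℤ)) *
            Jl w.P.κ (w.P.s * (w.S * n + (w.i + 1 + 2 * k)) - 1)) := by
        unfold gvar gv
        rw [map_mul, map_sum]
        have hq2 : w.S / 2 = q := by omega
        rw [hq2]
        have hun : Ψ ((D.t ^ (w.P.r * (w.P.s : ℤ)) : Aˣ) : A) =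
            gm fun _ => t ^ (w.P.r * (w.P.s : ℤ)) := by
          have := GNext_unit hG (w.P.r * (w.P.s : ℤ)) 0 0
          rw [zpow_zero, zpow_zero, mul_one, mul_one] at this
          rw [this]
          congr 1
          funext n
          congr 1
          ring
        rw [hun]
        have hsum : ∀ k ∈ Finset.range q,
            Ψ (fp D J w.P.r w.P.s w.S w.P.κ (w.i + 1 + 2 * k) *
                D.ib (w.P.s * w.S) (w.P.s * (w.i + 1 + 2 * k) + 1) ^ 0 -
              fm D J w.P.r w.P.s w.S w.P.κ (w.i + 1 + 2 * k) *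
                D.ib (w.P.s * w.S) (w.P.s * (w.i + 1 + 2 * k) - 1) ^ 0) =
            gm fun n => (t ^ (w.P.r * w.P.s * ((w.S * n + (w.i + 1 + 2 * k) : ℕ) : ℤ) ^ 2 +
              2 * w.P.r * ((w.S * n + (w.i + 1 + 2 * k) : ℕ) : ℤ)) *
            Jl w.P.κ (w.P.s * (w.S * n + (w.i + 1 + 2 * k)) + 1) -
          t ^ (w.P.r * w.P.s * ((w.S * n + (w.i + 1 + 2 * k) : ℕ) : ℤ) ^ 2 -
              2 * w.P.r * ((w.S * n + (w.i + 1 + 2 * k) : ℕ) : ℤ)) *
            Jl w.P.κ (w.P.s * (w.S * n + (w.i + 1 + 2 * k)) - 1)) := by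
          intro k _
          rw [pow_zero, pow_zero, mul_one, mul_one, map_sub,
            GNext_fp hG _ _ _ _ _ (by omega) w.hS w.hS2,
            GNext_fm hG _ _ _ _ _ (by omega) w.hS w.hS2 (by omega), GNext_gm_sub]
        rw [Finset.sum_congr rfl hsum, GNext_gm_sum, GNext_gm_mul]
      rw [hΨX, hgw, hbg, h4.2.1]
      simp only
      rw [GNext_gm_add]
      congr 1
      funext n
      have ht := GNext_tele h1 (Jl w.P.κ) w.P.r w.P.s hs (w.S * n + w.i) q
      have e1 : w.S * n + w.i + 2 * q = w.S * (n + 1) + w.i := by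
        have : w.S * (n + 1) = w.S * n + w.S := by ring
        omega
      rw [e1] at ht
      rw [ht]
      congr 1
      congr 1
      refine Finset.sum_congr rfl fun k _ => ?_
      have e2 : w.S * n + w.i + 1 + 2 * k = w.S * n + (w.i + 1 + 2 * k) := by ring
      rw [e2]
    have hcomp : Ψ'.comp (sext σ (gvar D J)) = EG.comp Ψ' := by
      refine MvPolynomial.ringHom_ext ?_ ?_
      · intro a
        rw [RingHom.comp_apply, RingHom.comp_apply, hΨC]
        have : sext σ (gvar D J) (MvPolynomial.C a) = MvPolynomial.C (σ a) := by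
          unfold sext
          rw [MvPolynomial.eval₂Hom_C]
          rfl
        rw [this, hΨC]
        exact hG.comm a
      · intro w
        rw [RingHom.comp_apply, RingHom.comp_apply, hΨX]
        have : sext σ (gvar D J) (MvPolynomial.X w) =
            MvPolynomial.X w + MvPolynomial.C (gvar D J w) := by
          unfold sext
          rw [MvPolynomial.eval₂Hom_X']
        rw [this, map_add, hΨC]
        exact hgv w
    intro a
    exact RingHom.congr_fun hcomp a
  · intro κ S c hS hS2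
    have hnat := h3 (MvPolynomial (Var L) A) GG Ψ' (nextD (L := L) D) L
      (fun κ S c => MvPolynomial.C (J κ S c)) (JG Jl) (bvar L A) bg
      (fun κ S c hS hS2 => by
        rw [hΨC]
        exact hG.val κ S c hS hS2)
      (fun P S i hS hS2 hi h2 => by
        unfold bvar
        rw [dif_pos ⟨hS, hS2, hi, h2⟩, hΨX]) κ S c hS hS2
    rw [hdata] at hnat
    exact hnat.trans (h2 L Jl κ S c hS hS2)

end AJG

end

section

/-!
# MP_d3fa71_gt: item GermData
-/

open Polynomial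

namespace AJG

theorem GermData_t_pow_ne_one {k : ℕ} (hk : 0 < k) : t ^ k ≠ 1 := by
  intro h
  have h1 : (algebraMap ℚ[X] (RatFunc ℚ)) (X ^ k) = algebraMap ℚ[X] (RatFunc ℚ) 1 := by
    rw [map_pow, map_one, RatFunc.algebraMap_X]
    exact h
  have h2 := RatFunc.algebraMap_injective ℚ h1
  have h3 := congrArg Polynomial.natDegree h2
  rw [Polynomial.natDegree_X_pow, Polynomial.natDegree_one] at h3
  omega

theorem GermData_brF_ne {m : ℕ} (hm : 0 < m) : brF (m : ℤ) ≠ 0 := by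
  unfold brF
  intro h
  have h1 : t ^ (2 * (m : ℤ)) = t ^ (-(2 * (m : ℤ))) := sub_eq_zero.mp h
  have h2 : t ^ (4 * m) = 1 := by
    have : t ^ (2 * (m : ℤ)) * t ^ (2 * (m : ℤ)) = 1 := by
      nth_rewrite 2 [h1]
      rw [← zpow_add₀ t_ne, add_neg_cancel, zpow_zero]
    rw [← zpow_add₀ t_ne] at this
    rw [← zpow_natCast, ← this]
    congr 1
    push_cast; ring
  exact GermData_t_pow_ne_one (by omega) h2

theorem GermData_unitG_mul (f g : ℕ → FF) (hf : ∀ n, f n ≠ 0) (hg : ∀ n, g n ≠ 0) :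
    unitG f hf * unitG g hg = unitG (fun n => f n * g n) (fun n => mul_ne_zero (hf n) (hg n)) :=
  Units.ext rfl

theorem GermData_unitG_inv (f : ℕ → FF) (hf : ∀ n, f n ≠ 0) :
    (unitG f hf)⁻¹ = unitG (fun n => (f n)⁻¹) (fun n => inv_ne_zero (hf n)) :=
  Units.ext rfl

theorem GermData_unitG_pow (f : ℕ → FF) (hf : ∀ n, f n ≠ 0) (k : ℕ) :
    unitG f hf ^ k = unitG (fun n => f n ^ k) (fun n => pow_ne_zero k (hf n)) := by
  induction k with
  | zero =>
    rw [pow_zero]
    apply Units.ext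
    show (1 : GG) = gm _
    simp only [pow_zero]
    rfl
  | succ k ih =>
    rw [pow_succ, ih, GermData_unitG_mul]
    apply Units.ext
    show gm _ = gm _
    simp only [pow_succ]

theorem GermData_unitG_zpow (f : ℕ → FF) (hf : ∀ n, f n ≠ 0) (k : ℤ) :
    unitG f hf ^ k = unitG (fun n => f n ^ k) (fun n => zpow_ne_zero k (hf n)) := by
  cases k with
  | ofNat m =>
    rw [Int.ofNat_eq_natCast, zpow_natCast, GermData_unitG_pow]
    apply Units.ext
    show gm _ = gm _
    simp only [zpow_natCast]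
  | negSucc m =>
    rw [zpow_negSucc, GermData_unitG_pow, GermData_unitG_inv]
    apply Units.ext
    show gm _ = gm _
    simp only [zpow_negSucc]

theorem GermData_br (S c : ℕ) : DG.br S c = gm fun n => brF ((S * n + c : ℕ) : ℤ) := by
  unfold Dat.br DG
  simp only [GermData_unitG_zpow, GermData_unitG_mul]
  show gm _ - gm _ = gm _
  refine Filter.Germ.coe_eq.2 (Filter.Eventually.of_forall fun n => ?_)
  show _ - _ = _
  unfold brF
  have e1 : ((t ^ (2 * n) : FF)) = t ^ (2 * (n : ℤ)) := by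
    rw [← zpow_natCast]; push_cast; rfl
  simp only [e1, ← zpow_mul, ← zpow_add₀ t_ne]
  congr 1
  · congr 1; push_cast; ring
  · congr 1; push_cast; ring

theorem GermData_proof : S_GermData := by
  refine ⟨?_, fun f => rfl, ?_, ?_, ?_⟩
  · intro S c hS
    rw [GermData_br]
    show gm _ * (if S = 0 then 0 else gm _) = 1
    rw [if_neg (by omega)]
    refine Filter.Germ.coe_eq.2 ?_
    filter_upwards [Filter.eventually_ge_atTop 1] with n hn
    have hpos : 0 < S * n + c := by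
      have := Nat.mul_pos hS (show 0 < n by omega)
      omega
    exact mul_inv_cancel₀ (GermData_brF_ne hpos)
  · show gm _ = gm _ ^ 2 * gm _
    refine Filter.Germ.coe_eq.2 (Filter.Eventually.of_forall fun n => ?_)
    show t ^ (2 * (n + 1)) = t ^ 2 * t ^ (2 * n)
    ring
  · show gm _ = gm _ * gm _ * gm _
    refine Filter.Germ.coe_eq.2 (Filter.Eventually.of_forall fun n => ?_)
    show t ^ ((n + 1) ^ 2) = t * t ^ (2 * n) * t ^ (n ^ 2)
    ring
  · intro a b h
    induction a using Filter.Germ.inductionOn with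
    | _ f =>
    induction b using Filter.Germ.inductionOn with
    | _ g =>
    have h1 : gm (fun n => f (n + 1)) = gm (fun n => g (n + 1)) := h
    have h2 := Filter.Germ.coe_eq.1 h1
    obtain ⟨N, hN⟩ := Filter.eventually_atTop.1 h2
    refine Filter.Germ.coe_eq.2 (Filter.eventually_atTop.2 ⟨N + 1, fun n hn => ?_⟩)
    have h3 : f (n - 1 + 1) = g (n - 1 + 1) := hN (n - 1) (by omega)
    rwa [Nat.sub_add_cancel (by omega : 1 ≤ n)] at h3

end AJG

end

section

/-! Item GermNext: the values of the next level on germs. -/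

set_option autoImplicit false

namespace AJG

theorem GermNext_val (f : ℕ → FF) (hf : ∀ n, f n ≠ 0) (k : ℤ) :
    (((unitG f hf) ^ k : GGˣ) : GG) = gm fun n => f n ^ k := by
  have hnat : ∀ (g : ℕ → FF) (m : ℕ), (gm g) ^ m = gm fun n => g n ^ m := fun g m => rfl
  cases k with
  | ofNat m =>
    rw [Int.ofNat_eq_natCast, zpow_natCast, Units.val_pow_eq_pow_val]
    show (gm f) ^ m = _
    rw [hnat]
    simp only [zpow_natCast]
  | negSucc m =>
    rw [zpow_negSucc, ← inv_pow, Units.val_pow_eq_pow_val]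
    show (gm fun n => (f n)⁻¹) ^ (m + 1) = _
    rw [hnat]
    congr 1
    funext n
    rw [zpow_negSucc, inv_pow]

theorem GermNext_t (k : ℤ) : ((DG.t ^ k : GGˣ) : GG) = gm fun _ => t ^ k :=
  GermNext_val (fun _ => t) (fun _ => t_ne) k

theorem GermNext_x (k : ℤ) : ((DG.x ^ k : GGˣ) : GG) = gm fun n => t ^ (2 * (n : ℤ) * k) := by
  have h := GermNext_val (fun n => t ^ (2 * n)) (fun _ => pow_ne_zero _ t_ne) k
  refine h.trans ?_
  congr 1
  funext n
  rw [zpow_mul]
  norm_cast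

theorem GermNext_h (k : ℤ) : ((DG.h ^ k : GGˣ) : GG) = gm fun n => t ^ ((n : ℤ) ^ 2 * k) := by
  have h := GermNext_val (fun n => t ^ (n ^ 2)) (fun _ => pow_ne_zero _ t_ne) k
  refine h.trans ?_
  congr 1
  funext n
  rw [zpow_mul]
  norm_cast

theorem GermNext_tx (a b : ℤ) : ((DG.t ^ a * DG.x ^ b : GGˣ) : GG) =
    gm fun n => t ^ (a + 2 * (n : ℤ) * b) := by
  rw [Units.val_mul, GermNext_t, GermNext_x]
  show (gm fun n => t ^ a * t ^ (2 * (n : ℤ) * b)) = _
  congr 1
  funext n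
  rw [zpow_add₀ t_ne]

theorem GermNext_thx (a d b : ℤ) : ((DG.t ^ a * DG.h ^ d * DG.x ^ b : GGˣ) : GG) =
    gm fun n => t ^ (a + (n : ℤ) ^ 2 * d + 2 * (n : ℤ) * b) := by
  rw [Units.val_mul, Units.val_mul, GermNext_t, GermNext_x, GermNext_h]
  show (gm fun n => t ^ a * t ^ ((n : ℤ) ^ 2 * d) * t ^ (2 * (n : ℤ) * b)) = _
  congr 1
  funext n
  rw [zpow_add₀ t_ne, zpow_add₀ t_ne]

theorem GermNext_prime (h1 : S_RecTwo) (h2 : S_RecOne) (h3 : S_RecChar) (L : Lv)
    (J : L.K → ℕ → FF) (P : PT L) (S c : ℕ) (hS : 0 < S) (hS2 : Even S) :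
    JP DG (JG J) (fun S i => gm fun n => t ^ (P.r * P.s * ((S * n + i : ℕ) : ℤ) ^ 2) *
      JhatP (J P.κ) P.r P.s (S * n + i)) P S c =
    gm fun n => JhatP (J P.κ) P.r P.s (S * n + c) := by
  refine h3 GG DG L (JG J) P S (fun c => gm fun n => JhatP (J P.κ) P.r P.s (S * n + c)) _ hS hS2
    ?_ ?_ ?_ c
  · intro _ c
    rw [GermNext_tx, GermNext_tx, GermNext_tx]
    show gm _ = gm fun n => _ * _ + _ * J P.κ (P.s * S * n + (P.s * (c + 1) + 1)) -
      _ * J P.κ (P.s * S * n + (P.s * (c + 1) - 1))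
    congr 1
    funext n
    have hs := P.hs
    have e1 : P.s * S * n + (P.s * (c + 1) + 1) = P.s * (S * n + c + 1) + 1 := by ring
    have e2 : P.s * S * n + (P.s * (c + 1) - 1) = P.s * (S * n + c + 1) - 1 := by
      have h0 : 1 ≤ P.s * (c + 1) := Nat.mul_pos (by omega) (Nat.succ_pos c)
      have h4 : P.s * (S * n + c + 1) = P.s * S * n + P.s * (c + 1) := by ring
      rw [h4, Nat.add_sub_assoc h0]
    rw [e1, e2]
    have h := h1 (J P.κ) P.r P.s hs (S * n + c)
    have E1 : -(4 * P.r * P.s * ((S * n + c : ℕ) + 1 : ℤ)) =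
        -(4 * P.r * P.s * (c + 1)) + 2 * (n : ℤ) * -(2 * P.r * P.s * S) := by push_cast; ring
    have E2 : -(2 * P.r * P.s * ((S * n + c : ℕ) + 1 : ℤ)) + 2 * P.r * ((S * n + c : ℕ) + 1 : ℤ) =
        -(2 * P.r * P.s * (c + 1)) + 2 * P.r * (c + 1) +
          2 * (n : ℤ) * (-(P.r * P.s * S) + P.r * S) := by push_cast; ring
    have E3 : -(2 * P.r * P.s * ((S * n + c : ℕ) + 1 : ℤ)) + -(2 * P.r * ((S * n + c : ℕ) + 1 : ℤ)) =
        -(2 * P.r * P.s * (c + 1)) - 2 * P.r * (c + 1) +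
          2 * (n : ℤ) * (-(P.r * P.s * S) - P.r * S) := by push_cast; ring
    rw [show S * n + (c + 2) = S * n + c + 2 by ring, h, ← E1, ← E2, ← E3, zpow_add₀ t_ne,
      zpow_add₀ t_ne]
    ring
  · intro h22 c
    rw [GermNext_tx, GermNext_tx]
    show gm _ = gm fun n => -_ * _ + _ * J P.κ (2 * S * n + (2 * c + 1))
    congr 1
    funext n
    rw [h22]
    have e1 : 2 * S * n + (2 * c + 1) = 2 * (S * n + c) + 1 := by ring
    have h := h2 (J P.κ) P.r (S * n + c)
    have E1 : -(2 * P.r * (2 * ((S * n + c : ℕ) : ℤ) + 1)) =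
        -(2 * P.r * (2 * c + 1)) + 2 * (n : ℤ) * -(2 * P.r * S) := by push_cast; ring
    have E2 : -(2 * P.r * ((S * n + c : ℕ) : ℤ)) =
        -(2 * P.r * c) + 2 * (n : ℤ) * -(P.r * S) := by push_cast; ring
    rw [e1, show S * n + (c + 1) = S * n + c + 1 by ring, h, ← E1, ← E2]
  · intro i _
    rw [GermNext_thx]
    show gm _ = gm fun n => _ * _
    congr 1
    funext n
    congr 2
    push_cast
    ring

theorem GermNext_prod {ι : Type} (M : Multiset ι) (F : ι → ℕ → FF) :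
    (M.map fun P => gm (F P)).prod = gm fun n => (M.map fun P => F P n).prod := by
  induction M using Multiset.induction with
  | empty => simp only [Multiset.map_zero, Multiset.prod_zero]; rfl
  | cons a M ih =>
    simp only [Multiset.map_cons, Multiset.prod_cons]
    rw [ih]
    rfl

theorem GermNext_proof (h1 : S_RecTwo) (h2 : S_RecOne) (h3 : S_RecChar) : S_GermNext := by
  intro L J κ S c hS hS2
  unfold nextJ
  have hib : DG.ib S c = gm fun n => (brF ((S * n + c : ℕ) : ℤ))⁻¹ := by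
    show (if S = 0 then 0 else gm fun n => (brF ((S * n + c : ℕ) : ℤ))⁻¹) = _
    rw [if_neg hS.ne']
  have hP : (fun P : PT L => JP DG (JG J) ((fun (P : PT L) (S i : ℕ) =>
      gm fun n => t ^ (P.r * P.s * ((S * n + i : ℕ) : ℤ) ^ 2) *
        JhatP (J P.κ) P.r P.s (S * n + i)) P) P S c * DG.ib S c) = fun P : PT L =>
      gm fun n => JhatP (J P.κ) P.r P.s (S * n + c) / brF ((S * n + c : ℕ) : ℤ) := by
    funext P
    rw [hib]
    have := GermNext_prime h1 h2 h3 L J P S c hS hS2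
    rw [show JP DG (JG J) ((fun (P : PT L) (S i : ℕ) =>
      gm fun n => t ^ (P.r * P.s * ((S * n + i : ℕ) : ℤ) ^ 2) *
        JhatP (J P.κ) P.r P.s (S * n + i)) P) P S c = _ from this]
    show (gm fun n => _ * _) = _
    congr 1
    funext n
    rw [div_eq_mul_inv]
  have h5 : (κ.2.map fun P : PT L => JP DG (JG J) ((fun (P : PT L) (S i : ℕ) =>
      gm fun n => t ^ (P.r * P.s * ((S * n + i : ℕ) : ℤ) ^ 2) *
        JhatP (J P.κ) P.r P.s (S * n + i)) P) P S c * DG.ib S c).prod =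
      gm fun n => (κ.2.map fun P : PT L =>
        JhatP (J P.κ) P.r P.s (S * n + c) / brF ((S * n + c : ℕ) : ℤ)).prod := by
    rw [hP]
    exact GermNext_prod κ.2 (fun (P : PT L) n =>
      JhatP (J P.κ) P.r P.s (S * n + c) / brF ((S * n + c : ℕ) : ℤ))
  refine (congrArg (fun z => JG J κ.1 S c * z) h5).trans ?_
  rfl

end AJG

end

section

/-! # MP_d3fa71_gt: item LB -/

open Polynomial

namespace AJG

theorem LB_ext {R S : Type} [CommRing R] [CommRing S] (f g : LaurentPolynomial R →+* S)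
    (hC : ∀ a, f (LaurentPolynomial.C a) = g (LaurentPolynomial.C a))
    (hT : f (LaurentPolynomial.T 1) = g (LaurentPolynomial.T 1)) : f = g := by
  have hn : ∀ n : ℕ, f (LaurentPolynomial.T n) = g (LaurentPolynomial.T n) := by
    intro n
    have h : (LaurentPolynomial.T (n : ℤ) : LaurentPolynomial R) = LaurentPolynomial.T 1 ^ n := by
      rw [LaurentPolynomial.T_pow]; simp
    rw [h, map_pow, map_pow, hT]
  have hneg : ∀ n : ℕ, f (LaurentPolynomial.T (-(n : ℤ))) = g (LaurentPolynomial.T (-(n : ℤ))) := by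
    intro n
    have h1 : (LaurentPolynomial.T (n : ℤ) : LaurentPolynomial R) * LaurentPolynomial.T (-(n : ℤ)) = 1 := by
      rw [← LaurentPolynomial.T_add]; simp
    have h2 := congrArg f h1
    have h3 := congrArg g h1
    rw [map_mul, map_one] at h2 h3
    calc f (LaurentPolynomial.T (-(n : ℤ)))
        = f (LaurentPolynomial.T (-(n : ℤ))) *
          (g (LaurentPolynomial.T (n : ℤ)) * g (LaurentPolynomial.T (-(n : ℤ)))) := by rw [h3, mul_one]
      _ = (f (LaurentPolynomial.T (n : ℤ)) * f (LaurentPolynomial.T (-(n : ℤ)))) *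
          g (LaurentPolynomial.T (-(n : ℤ))) := by rw [← hn n]; ring
      _ = g (LaurentPolynomial.T (-(n : ℤ))) := by rw [h2, one_mul]
  have hz : ∀ n : ℤ, f (LaurentPolynomial.T n) = g (LaurentPolynomial.T n) := by
    intro n
    obtain ⟨m, rfl | rfl⟩ := n.eq_nat_or_neg
    · exact hn m
    · exact hneg m
  refine RingHom.ext fun p => ?_
  induction p using LaurentPolynomial.induction_on' with
  | add p q hp hq => rw [map_add, map_add, hp, hq]
  | C_mul_T n a => rw [map_mul, map_mul, hC, hz]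

/-- `q ↦ t ^ 4`, `Q ↦ x ^ 4` -/
noncomputable def LB_evR {R : Type} [CommRing R] (D : Dat R) : R2 →+* R :=
  LaurentPolynomial.eval₂ (LaurentPolynomial.eval₂ (Int.castRingHom R) (D.t ^ 4)) (D.x ^ 4)

theorem LB_nat {R S : Type} [CommRing R] [CommRing S] (D : Dat R) (φ : R →+* S) (a : R2) :
    φ (LB_evR D a) = LB_evR (D.map φ) a := by
  have h : φ.comp (LB_evR D) = LB_evR (D.map φ) := by
    refine LB_ext _ _ (fun b => ?_) ?_
    · simp only [RingHom.comp_apply, LB_evR, LaurentPolynomial.eval₂_C]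
      have h2 : φ.comp (LaurentPolynomial.eval₂ (Int.castRingHom R) (D.t ^ 4)) =
          LaurentPolynomial.eval₂ (Int.castRingHom S) ((D.map φ).t ^ 4) := by
        refine LB_ext _ _ (fun b => ?_) ?_
        · simp
        · simp only [RingHom.comp_apply, LaurentPolynomial.eval₂_T, zpow_one, Dat.map,
            Units.val_pow_eq_pow_val, map_pow]
          rfl
      exact congrArg (fun f => f b) h2
    · simp only [RingHom.comp_apply, LB_evR, LaurentPolynomial.eval₂_T, zpow_one, Dat.map,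
            Units.val_pow_eq_pow_val, map_pow]
      rfl
  exact congrArg (fun f => f a) h

/-- evaluation in germs -/
noncomputable def LB_G : R2 →+* GG :=
  (Filter.Germ.coeRingHom (R := FF) (Filter.atTop : Filter ℕ)).comp
    (RingHom.pi (fun n : ℕ => ev (2 * n)))

theorem LB_G_apply (a : R2) : LB_G a = gm fun n => ev (2 * n) a := rfl

theorem LB_evG (a : R2) : LB_evR DG a = gm fun n => ev (2 * n) a := by
  rw [← LB_G_apply]
  have h : LB_evR DG = LB_G := by
    refine LB_ext _ _ (fun b => ?_) ?_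
    · simp only [LB_evR, LaurentPolynomial.eval₂_C]
      have h2 : LaurentPolynomial.eval₂ (Int.castRingHom GG) (DG.t ^ 4) =
          LB_G.comp (LaurentPolynomial.C (R := LaurentPolynomial ℤ)) := by
        refine LB_ext _ _ (fun b => ?_) ?_
        · simp
        · rw [LaurentPolynomial.eval₂_T, zpow_one, RingHom.comp_apply, LB_G_apply]
          simp only [ev, evq, LaurentPolynomial.eval₂_C, LaurentPolynomial.eval₂_T, zpow_one,
            Units.val_mk0]
          rfl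
      exact congrArg (fun f => f b) h2
    · rw [LB_evR, LaurentPolynomial.eval₂_T, zpow_one, LB_G_apply]
      simp only [ev, LaurentPolynomial.eval₂_T, zpow_one, Units.val_mk0]
      show ((DG.x ^ 4 : GGˣ) : GG) = _
      have h3 : ((DG.x ^ 4 : GGˣ) : GG) = gm (fun n => (t ^ (2 * n)) ^ 4) := rfl
      rw [h3]
      congr 1
      funext n
      rw [← pow_mul]
      congr 1
      ring
  rw [h]

theorem LB_brF_ne (n : ℕ) (hn : 1 ≤ n) : brF (n : ℤ) ≠ 0 := by
  unfold brF
  intro h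
  have h1 : t ^ (2 * (n : ℤ)) = t ^ (-(2 * (n : ℤ))) := sub_eq_zero.1 h
  have h2 : t ^ (4 * n) = 1 := by
    have h3 : t ^ (2 * (n : ℤ)) * t ^ (2 * (n : ℤ)) = t ^ (-(2 * (n : ℤ))) * t ^ (2 * (n : ℤ)) := by
      rw [h1]
    rw [← zpow_add₀ t_ne, ← zpow_add₀ t_ne] at h3
    have e1 : (2 * (n : ℤ) + 2 * (n : ℤ)) = ((4 * n : ℕ) : ℤ) := by push_cast; ring
    have e2 : (-(2 * (n : ℤ)) + 2 * (n : ℤ)) = 0 := by ring
    rw [e1, e2, zpow_natCast, zpow_zero] at h3
    exact h3
  have h4 : (Polynomial.X ^ (4 * n) : ℚ[X]) = 1 := by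
    have h5 : algebraMap ℚ[X] (RatFunc ℚ) (Polynomial.X ^ (4 * n)) = algebraMap ℚ[X] (RatFunc ℚ) 1 := by
      rw [map_pow, RatFunc.algebraMap_X, map_one]; exact h2
    exact RatFunc.algebraMap_injective ℚ h5
  have h6 := congrArg Polynomial.natDegree h4
  rw [Polynomial.natDegree_X_pow, Polynomial.natDegree_one] at h6
  omega

/-- `M ↦ τ ^ 2` -/
noncomputable def LB_th (τ : ℝ) (hτ : τ ≠ 0) : LaurentPolynomial ℤ →+* ℝ :=
  LaurentPolynomial.eval₂ (Int.castRingHom ℝ) (Units.mk0 τ hτ ^ 2)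

theorem LB_th_inj (τ : ℝ) (hτ : τ ≠ 0) (ht : Transcendental ℚ τ) :
    Function.Injective (LB_th τ hτ) := by
  rw [injective_iff_map_eq_zero]
  intro p hp
  obtain ⟨n, f, hf⟩ := p.exists_T_pow
  have h1 : LB_th τ hτ (Polynomial.toLaurent f) = 0 := by rw [hf, map_mul, hp, zero_mul]
  rw [LB_th, LaurentPolynomial.eval₂_toLaurent] at h1
  have h2 : Polynomial.aeval (τ ^ 2) f = 0 := by
    rw [Polynomial.aeval_def]
    simpa using h1
  have h3 : Transcendental ℤ (τ ^ 2) := by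
    have h4 : Transcendental ℤ τ := fun h =>
      ht (IsAlgebraic.extendScalars (R := ℤ) (S := ℚ) (RingHom.injective_int (algebraMap ℤ ℚ)) h)
    exact h4.pow two_pos
  have h5 : f = 0 := by
    by_contra h6
    exact h3 ⟨f, h6, h2⟩
  rw [h5, map_zero] at hf
  have h7 : p * (LaurentPolynomial.T (n : ℤ) * LaurentPolynomial.T (-(n : ℤ))) = 0 := by
    rw [← mul_assoc, ← hf, zero_mul]
  rw [← LaurentPolynomial.T_add] at h7
  simpa using h7

theorem LB_th_sp (τ : ℝ) (hτ : 1 < τ) (a : R2) :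
    LB_th τ (by positivity) (sp a) = LB_evR (DR τ hτ) a := by
  have hτ0 : τ ≠ 0 := by positivity
  have h : (LB_th τ hτ0).comp sp = LB_evR (DR τ hτ) := by
    refine LB_ext _ _ (fun b => ?_) ?_
    · simp only [RingHom.comp_apply, sp, LB_evR, LaurentPolynomial.eval₂_C]
      have h2 : (LB_th τ hτ0).comp (LaurentPolynomial.eval₂ (Int.castRingHom (LaurentPolynomial ℤ)) 1) =
          LaurentPolynomial.eval₂ (Int.castRingHom ℝ) ((DR τ hτ).t ^ 4) := by
        refine LB_ext _ _ (fun b => ?_) ?_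
        · simp
        · simp [LB_th, DR]
      exact congrArg (fun f => f b) h2
    · simp only [RingHom.comp_apply, sp, LB_evR, LaurentPolynomial.eval₂_T, zpow_one]
      show LB_th τ hτ0 (LaurentPolynomial.T 2) = _
      rw [LB_th, LaurentPolynomial.eval₂_T]
      simp only [DR, Units.val_pow_eq_pow_val, Units.val_mk0]
      norm_cast
      rw [← pow_mul]
      simp
  exact congrArg (fun f => f a) h

theorem LB_tau : ∃ τ : ℝ, 1 < τ ∧ Transcendental ℚ τ := by
  by_contra h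
  push Not at h
  have h1 : Set.Ioi (1 : ℝ) ⊆ {x : ℝ | IsAlgebraic ℚ x} := by
    intro x hx
    have := h x hx
    simpa [Transcendental] using this
  have h2 : (Set.Ioi (1 : ℝ)).Countable := (Algebraic.countable ℚ ℝ).mono h1
  have h3 := Cardinal.mk_Ioi_real 1
  have h4 : Cardinal.mk (Set.Ioi (1 : ℝ)) ≤ Cardinal.aleph0 := Cardinal.le_aleph0_iff_set_countable.2 h2
  rw [h3] at h4
  exact absurd h4 (not_le.2 Cardinal.aleph0_lt_continuum)

theorem LB_proof (h1 : S_Tower) (h2 : S_Embed) (h3 : S_CharInd) (_h4 : S_GermData) : S_LB := by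
  intro K hK α hα z hz
  obtain ⟨ℓ, κ, hJ, hlab⟩ := h2 K hK
  obtain ⟨A, _, _, D, σ, J, core, ⟨Ψ, hΨ⟩, O, _, DO, JO, j, hj, hDO, hJO, hphi⟩ := h1 ℓ
  -- the relation in germs
  have hG : ∑ i ∈ Finset.range (α.natDegree + 1),
      LB_evR DG (α.coeff i) * JG (Jh ℓ) κ 2 i * DG.ib 2 i = 0 := by
    obtain ⟨n₀, hn₀⟩ := hα
    have e1 : ∀ i : ℕ, LB_evR DG (α.coeff i) * JG (Jh ℓ) κ 2 i * DG.ib 2 i =
        gm (fun n => ev (2 * n) (α.coeff i) * Jh ℓ κ (2 * n + i) *
          (brF ((2 * n + i : ℕ) : ℤ))⁻¹) := by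
      intro i
      rw [LB_evG]
      rfl
    simp only [e1]
    have e2 : (∑ i ∈ Finset.range (α.natDegree + 1),
        gm (fun n => ev (2 * n) (α.coeff i) * Jh ℓ κ (2 * n + i) *
          (brF ((2 * n + i : ℕ) : ℤ))⁻¹)) =
        gm (fun n => ∑ i ∈ Finset.range (α.natDegree + 1), ev (2 * n) (α.coeff i) *
          Jh ℓ κ (2 * n + i) * (brF ((2 * n + i : ℕ) : ℤ))⁻¹) := by
      have h := map_sum (Filter.Germ.coeRingHom (R := FF) (Filter.atTop : Filter ℕ))
        (fun i : ℕ => fun n : ℕ => ev (2 * n) (α.coeff i) * Jh ℓ κ (2 * n + i) *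
          (brF ((2 * n + i : ℕ) : ℤ))⁻¹) (Finset.range (α.natDegree + 1))
      refine Eq.trans h.symm ?_
      show gm _ = gm _
      congr 1
      funext n
      simp
    rw [e2]
    refine Filter.Germ.coe_eq.2 ?_
    filter_upwards [Filter.eventually_ge_atTop (n₀ + 1)] with n hn
    have h5 := hn₀ (2 * n) (by omega)
    show _ = (0 : FF)
    rw [← h5]
    refine Finset.sum_congr rfl fun i _ => ?_
    rw [hJ (2 * n + i) (by omega), mul_assoc]
    congr 1
    have := LB_brF_ne (2 * n + i) (by omega)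
    field_simp
  -- the relation in A
  have hA : ∑ i ∈ Finset.range (α.natDegree + 1), LB_evR D (α.coeff i) * J κ 2 i * D.ib 2 i = 0 := by
    have hinj : Function.Injective Ψ := by
      rw [RingHom.injective_iff_ker_eq_bot]
      refine (core.simple.2 (RingHom.ker Ψ) ?_).resolve_right ?_
      · intro a ha
        rw [RingHom.mem_ker] at ha ⊢
        rw [hΨ.comm, ha, map_zero]
      · intro htop
        have : (1 : A) ∈ RingHom.ker Ψ := by rw [htop]; trivial
        rw [RingHom.mem_ker, map_one] at this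
        exact one_ne_zero this
    apply hinj
    rw [map_sum, map_zero, ← hG]
    refine Finset.sum_congr rfl fun i _ => ?_
    rw [map_mul, map_mul, LB_nat, hΨ.data, hΨ.val κ 2 i two_pos even_two]
    congr 1
    have := congrArg (fun E : Dat GG => E.ib 2 i) hΨ.data
    exact this
  -- the relation in O
  have hO : ∑ i ∈ Finset.range (α.natDegree + 1), LB_evR DO (α.coeff i) * JO κ 2 i * DO.ib 2 i = 0 := by
    apply hj
    rw [map_sum, map_zero, ← hA]
    refine Finset.sum_congr rfl fun i _ => ?_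
    rw [map_mul, map_mul, LB_nat, hDO, hJO κ 2 i two_pos even_two]
    congr 1
    exact congrArg (fun E : Dat A => E.ib 2 i) hDO
  -- a transcendental number
  obtain ⟨τ, hτ, htr⟩ := LB_tau
  have hτ0 : τ ≠ 0 := by positivity
  have hz' : (z.1, Multiplicative.ofAdd z.2) ∈ labl ℓ κ := (hlab z).1 hz
  have hchar := h3 τ hτ ℓ κ (α.natDegree + 1) (fun i => LB_evR (DR τ hτ) (α.coeff i)) (by
    intro h₀ η hh
    obtain ⟨φ, hφ, hφJ⟩ := hphi τ h₀ hτ η hh htr
    have h5 := congrArg φ hO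
    rw [map_sum, map_zero] at h5
    have hc : (τ ^ 2 - (τ ^ 2)⁻¹)⁻¹ ≠ 0 := by
      refine inv_ne_zero (sub_ne_zero.2 ?_)
      have h6 : 1 < τ ^ 2 := one_lt_pow₀ hτ (by norm_num)
      have h7 : (τ ^ 2)⁻¹ < 1 := inv_lt_one_of_one_lt₀ h6
      exact (h7.trans h6).ne'
    have h8 : (∑ i ∈ Finset.range (α.natDegree + 1),
        LB_evR (DR τ hτ) (α.coeff i) * JR τ h₀ η (cfl τ ℓ) κ 2 i) * (τ ^ 2 - (τ ^ 2)⁻¹)⁻¹ = 0 := by
      rw [Finset.sum_mul, ← h5]
      refine Finset.sum_congr rfl fun i _ => ?_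
      rw [map_mul, map_mul, LB_nat, hφ, hφJ κ 2 i two_pos even_two]
      congr 1
      exact (congrArg (fun E : Dat ℝ => E.ib 2 i) hφ).symm
    exact (mul_eq_zero.1 h8).resolve_right hc) _ hz'
  -- conclusion
  apply LB_th_inj τ hτ0 htr
  rw [map_zero, Polynomial.eval_map, Polynomial.eval₂_eq_sum_range, map_sum, ← hchar]
  refine Finset.sum_congr rfl fun i _ => ?_
  rw [map_mul, map_pow]
  have h9 : LB_th τ hτ0 (lab z) = ((z.1 : ℤ) : ℝ) * τ ^ (2 * z.2) := by
    rw [lab, map_mul, LB_th, LaurentPolynomial.eval₂_C, LaurentPolynomial.eval₂_T]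
    congr 1
    simp only [Units.val_zpow_eq_zpow_val, Units.val_pow_eq_pow_val, Units.val_mk0]
    rw [zpow_mul]
    norm_cast
  have h10 : LB_th τ hτ0 (sp (α.coeff i)) = LB_evR (DR τ hτ) (α.coeff i) := LB_th_sp τ hτ _
  rw [h9, h10]
  rfl

end AJG

end

section

/-!
# MP_d3fa71_gt: item LamVir, residue classes of the virtual increment
-/

open Polynomial

namespace AJG

theorem LamVir_proof : S_LamVir := by
  intro r s S i y hr hs hS
  have hs0 : (s : ℤ) ≠ 0 := by exact_mod_cast (by omega : s ≠ 0)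
  have hS0 : (S : ℤ) ≠ 0 := by exact_mod_cast hS.ne'
  have hE : r * s * (S : ℤ) ^ 2 ≠ 0 := mul_ne_zero (mul_ne_zero hr hs0) (pow_ne_zero 2 hS0)
  rw [gLV, NV, LamTor_sum, Int.cast_sum, Finset.sum_mul]
  refine Finset.sum_congr rfl fun k _ => ?_
  generalize ((i + 1 + 2 * k : ℕ) : ℤ) = v
  rw [LamTor_sub, LamTor_term _ y _ _ (r ^ 2 * (S : ℤ) ^ 2) hE (by ring),
    LamTor_term _ y _ _ (r ^ 2 * (S : ℤ) ^ 2) hE (by ring)]
  push_cast
  ring

end AJG

end

section

/-!
# MP_d3fa71_gt: naturality of `nextJ`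
-/

namespace AJG

theorem NextNat_fp {R R' : Type} [CommRing R] [CommRing R'] (φ : R →+* R') (D : Dat R)
    {L : Lv} (J : L.K → ℕ → ℕ → R) (J' : L.K → ℕ → ℕ → R')
    (hJ : ∀ κ S c, 0 < S → Even S → φ (J κ S c) = J' κ S c) (ϱ : ℤ) (s S : ℕ) (κ : L.K) (v : ℕ)
    (hs : 0 < s) (hS : 0 < S) (hS2 : Even S) :
    φ (fp D J ϱ s S κ v) = fp (D.map φ) J' ϱ s S κ v := by
  have hu : ∀ u : Rˣ, φ (u : R) = ((Units.map φ.toMonoidHom u : R'ˣ) : R') := fun u => rfl
  rw [fp, map_mul, hJ _ _ _ (Nat.mul_pos hs hS) (hS2.mul_left s), hu, map_mul, map_mul, map_zpow,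
    map_zpow, map_zpow]
  rfl

theorem NextNat_fm {R R' : Type} [CommRing R] [CommRing R'] (φ : R →+* R') (D : Dat R)
    {L : Lv} (J : L.K → ℕ → ℕ → R) (J' : L.K → ℕ → ℕ → R')
    (hJ : ∀ κ S c, 0 < S → Even S → φ (J κ S c) = J' κ S c) (ϱ : ℤ) (s S : ℕ) (κ : L.K) (v : ℕ)
    (hs : 0 < s) (hS : 0 < S) (hS2 : Even S) :
    φ (fm D J ϱ s S κ v) = fm (D.map φ) J' ϱ s S κ v := by
  have hu : ∀ u : Rˣ, φ (u : R) = ((Units.map φ.toMonoidHom u : R'ˣ) : R') := fun u => rfl
  rw [fm, map_mul, hJ _ _ _ (Nat.mul_pos hs hS) (hS2.mul_left s), hu, map_mul, map_mul, map_zpow,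
    map_zpow, map_zpow]
  rfl

theorem NextNat_JP {R R' : Type} [CommRing R] [CommRing R'] (φ : R →+* R') (D : Dat R)
    {L : Lv} (J : L.K → ℕ → ℕ → R) (J' : L.K → ℕ → ℕ → R')
    (hJ : ∀ κ S c, 0 < S → Even S → φ (J κ S c) = J' κ S c) (P : PT L) (b : ℕ → ℕ → R)
    (b' : ℕ → ℕ → R') (S c : ℕ) (hS : 0 < S) (hS2 : Even S)
    (hb : ∀ i, i < 2 → (P.s = 2 → i = 0) → φ (b S i) = b' S i) :
    φ (JP D J b P S c) = JP (D.map φ) J' b' P S c := by
  have hu : ∀ u : Rˣ, φ (u : R) = ((Units.map φ.toMonoidHom u : R'ˣ) : R') := fun u => rfl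
  have hs : 0 < P.s := lt_of_lt_of_le (by norm_num) P.hs
  have hfp := fun v => NextNat_fp φ D J J' hJ P.r P.s S P.κ v hs hS hS2
  have hfm := fun v => NextNat_fm φ D J J' hJ P.r P.s S P.κ v hs hS hS2
  have e1 : φ ((D.h ^ (-(P.r * P.s * (S : ℤ) ^ 2)) * D.x ^ (-(P.r * P.s * S * c)) *
      D.t ^ (-(P.r * P.s * (c : ℤ) ^ 2)) : Rˣ) : R) =
      (((D.map φ).h ^ (-(P.r * P.s * (S : ℤ) ^ 2)) * (D.map φ).x ^ (-(P.r * P.s * S * c)) *
      (D.map φ).t ^ (-(P.r * P.s * (c : ℤ) ^ 2)) : R'ˣ) : R') := by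
    rw [hu, map_mul, map_mul, map_zpow, map_zpow, map_zpow]
    rfl
  have e2 : φ ((D.t ^ (P.r * P.s) : Rˣ) : R) = (((D.map φ).t ^ (P.r * P.s) : R'ˣ) : R') := by
    rw [hu, map_zpow]
    rfl
  rw [JP, JP, map_mul, e1]
  congr 1
  by_cases h2 : P.s = 2
  · rw [if_pos h2, if_pos h2, map_mul, map_sub, map_mul, e2, map_sum, map_pow, map_neg, map_one,
      hb 0 (by norm_num) fun _ => rfl]
    congr 3
    refine Finset.sum_congr rfl fun k _ => ?_
    rw [map_mul, map_pow, map_neg, map_one, hfp]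
  · rw [if_neg h2, if_neg h2, map_add, map_mul, e2, map_sum,
      hb (c % 2) (Nat.mod_lt _ (by norm_num)) fun h => absurd h h2]
    congr 2
    refine Finset.sum_congr rfl fun k _ => ?_
    rw [map_sub, hfp, hfm]

theorem NextNat_proof : S_NextNat := by
  intro R R' _ _ φ D L J J' b b' hJ hb κ S c hS hS2
  rw [nextJ, nextJ, map_mul, hJ _ _ _ hS hS2, map_multiset_prod, Multiset.map_map]
  congr 2
  refine Multiset.map_congr rfl fun P _ => ?_
  rw [Function.comp_apply, map_mul,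
    NextNat_JP φ D J J' hJ P (b P) (b' P) S c hS hS2 fun i hi h2 => hb P S i hS hS2 hi h2]
  rfl

end AJG

end

section

/-!
# MP_d3fa71_gt: item OBase, the values at `t = 1` on the base level
-/

open Polynomial

namespace AJG

/-- specialisation `t = 1` of `ℚ[t][X]` -/
noncomputable def OBase_e1 : ℚ[X][X] →+* ℚ[X] :=
  Polynomial.mapRingHom (Polynomial.evalRingHom 1)

/-- the polynomials which do not vanish at `t = 1` -/
noncomputable def OBase_M : Submonoid ℚ[X][X] := (nonZeroDivisors ℚ[X]).comap OBase_e1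

theorem OBase_mem {f : ℚ[X][X]} : f ∈ OBase_M ↔ OBase_e1 f ≠ 0 := by
  rw [OBase_M, Submonoid.mem_comap, mem_nonZeroDivisors_iff_ne_zero]

theorem OBase_e1_C : OBase_e1 (C X) = 1 := by
  simp [OBase_e1]

theorem OBase_e1_X : OBase_e1 X = X := by
  simp [OBase_e1]

theorem OBase_C_mem : (C X : ℚ[X][X]) ∈ OBase_M := by
  rw [OBase_mem, OBase_e1_C]
  exact one_ne_zero

theorem OBase_X_mem : (X : ℚ[X][X]) ∈ OBase_M := by
  rw [OBase_mem, OBase_e1_X]
  exact X_ne_zero

theorem OBase_br_mem (S c : ℕ) (hS : 0 < S) :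
    ((C X : ℚ[X][X]) ^ (4 * c) * X ^ (2 * S) - 1) ∈ OBase_M := by
  rw [OBase_mem]
  have h : OBase_e1 ((C X : ℚ[X][X]) ^ (4 * c) * X ^ (2 * S) - 1) = X ^ (2 * S) - C 1 := by
    rw [map_sub, map_mul, map_pow, map_pow, OBase_e1_C, OBase_e1_X, one_pow, one_mul, map_one,
      map_one]
  rw [h]
  exact X_pow_sub_C_ne_zero (by omega) 1

/-- the local ring -/
def OBaseO : Type := Localization OBase_M

noncomputable instance OBase_inst1 : CommRing OBaseO :=
  inferInstanceAs (CommRing (Localization OBase_M))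

noncomputable instance OBase_inst2 : Algebra ℚ[X][X] OBaseO :=
  inferInstanceAs (Algebra ℚ[X][X] (Localization OBase_M))

instance OBase_inst3 : IsLocalization OBase_M OBaseO :=
  inferInstanceAs (IsLocalization OBase_M (Localization OBase_M))

theorem OBase_M_le : OBase_M ≤ nonZeroDivisors ℚ[X][X] := by
  intro f hf
  rw [mem_nonZeroDivisors_iff_ne_zero]
  rintro rfl
  rw [OBase_mem] at hf
  exact hf (map_zero _)

/-- the units of the local ring -/
noncomputable def OBase_u (f : ℚ[X][X]) (hf : f ∈ OBase_M) : OBaseOˣ :=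
  (IsLocalization.map_units OBaseO (⟨f, hf⟩ : OBase_M)).unit

theorem OBase_u_val (f : ℚ[X][X]) (hf : f ∈ OBase_M) :
    ((OBase_u f hf : OBaseOˣ) : OBaseO) = algebraMap ℚ[X][X] OBaseO f := rfl

noncomputable def OBase_t : OBaseOˣ := OBase_u (C X) OBase_C_mem

noncomputable def OBase_x : OBaseOˣ := OBase_u X OBase_X_mem

/-- the brackets in the local ring -/
noncomputable def OBase_br (S c : ℕ) : OBaseO :=
  ((OBase_t ^ (2 * (c : ℤ)) * OBase_x ^ (S : ℤ) : OBaseOˣ) : OBaseO) -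
    ((OBase_t ^ (-(2 * (c : ℤ))) * OBase_x ^ (-(S : ℤ)) : OBaseOˣ) : OBaseO)

theorem OBase_br_unit (S c : ℕ) (hS : 0 < S) : IsUnit (OBase_br S c) := by
  have h1 : OBase_br S c = ((OBase_t ^ (-(2 * (c : ℤ))) * OBase_x ^ (-(S : ℤ)) : OBaseOˣ) : OBaseO) *
      ((OBase_u _ (OBase_br_mem S c hS) : OBaseOˣ) : OBaseO) := by
    rw [OBase_u_val, map_sub, map_mul, map_pow, map_pow, map_one, ← OBase_u_val _ OBase_C_mem,
      ← OBase_u_val _ OBase_X_mem]
    show _ = _ * ((OBase_t : OBaseO) ^ (4 * c) * (OBase_x : OBaseO) ^ (2 * S) - 1)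
    rw [mul_sub, mul_one]
    unfold OBase_br
    congr 1
    rw [← Units.val_pow_eq_pow_val, ← Units.val_pow_eq_pow_val, ← Units.val_mul, ← Units.val_mul]
    congr 1
    rw [mul_mul_mul_comm, ← zpow_natCast, ← zpow_natCast, ← zpow_add, ← zpow_add]
    congr 2
    · push_cast; ring
    · push_cast; ring
  rw [h1, ← Units.val_mul]
  exact Units.isUnit _

theorem OBase_zp {R F : Type} [CommRing R] [Field F] (φ : R →+* F) (u : Rˣ) (n : ℤ) :
    φ ((u ^ n : Rˣ) : R) = (φ (u : R)) ^ n := by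
  have h : φ ((u ^ n : Rˣ) : R) = ((Units.map φ.toMonoidHom (u ^ n) : Fˣ) : F) := rfl
  rw [h, map_zpow, Units.val_zpow_eq_zpow_val]
  rfl

theorem OBase_map_br {F : Type} [Field F] (φ : OBaseO →+* F) (a b : F)
    (ha : φ (OBase_t : OBaseO) = a) (hb : φ (OBase_x : OBaseO) = b) (S c : ℕ) :
    φ (OBase_br S c) = a ^ (2 * (c : ℤ)) * b ^ (S : ℤ) - a ^ (-(2 * (c : ℤ))) * b ^ (-(S : ℤ)) := by
  unfold OBase_br
  rw [map_sub, Units.val_mul, Units.val_mul, map_mul, map_mul, OBase_zp, OBase_zp, OBase_zp,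
    OBase_zp, ha, hb]

theorem OBase_map_inv {R F : Type} [CommRing R] [Field F] (φ : R →+* F) (a : R) (ha : IsUnit a) :
    φ (Ring.inverse a) = (φ a)⁻¹ := by
  apply eq_inv_of_mul_eq_one_right
  rw [← map_mul, Ring.mul_inverse_cancel a ha, map_one]

/-- Dat equality -/
theorem OBase_ext {R : Type} [CommRing R] {D D' : Dat R} (h1 : (D.t : R) = D'.t)
    (h2 : (D.x : R) = D'.x) (h3 : (D.h : R) = D'.h) (h4 : ∀ S c, D.ib S c = D'.ib S c) :
    D = D' := by
  obtain ⟨a, b, c, d⟩ := D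
  obtain ⟨a', b', c', d'⟩ := D'
  have e1 : a = a' := Units.ext h1
  have e2 : b = b' := Units.ext h2
  have e3 : c = c' := Units.ext h3
  have e4 : d = d' := funext fun S => funext fun n => h4 S n
  rw [e1, e2, e3, e4]

/-- the data on the ring of Laurent polynomials over the local ring -/
noncomputable def OBase_D : Dat (LaurentPolynomial OBaseO) where
  t := Units.map (LaurentPolynomial.C (R := OBaseO)).toMonoidHom OBase_t
  x := Units.map (LaurentPolynomial.C (R := OBaseO)).toMonoidHom OBase_x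
  h := ⟨LaurentPolynomial.T 1, LaurentPolynomial.T (-1),
    by rw [← LaurentPolynomial.T_add]; norm_num, by rw [← LaurentPolynomial.T_add]; norm_num⟩
  ib := fun S c => if S = 0 then 0 else LaurentPolynomial.C (Ring.inverse (OBase_br S c))

/-- brackets and homomorphisms -/
theorem OBase_br_map {R R' : Type} [CommRing R] [CommRing R'] (D : Dat R) (φ : R →+* R')
    (S c : ℕ) : φ (D.br S c) = (D.map φ).br S c := by
  unfold Dat.br Dat.map
  rw [map_sub, ← map_zpow, ← map_zpow, ← map_zpow, ← map_zpow, ← map_mul, ← map_mul]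
  rfl

/-- the embedding into `KK`: on `ℚ[t][X]` -/
noncomputable def OBase_g : ℚ[X][X] →+* KK :=
  (algebraMap (Polynomial FF) KK).comp (Polynomial.mapRingHom (algebraMap ℚ[X] FF))

theorem OBase_g_inj : Function.Injective OBase_g := by
  intro a b hab
  have h1 : algebraMap (Polynomial FF) KK (Polynomial.map (algebraMap ℚ[X] FF) a) =
      algebraMap (Polynomial FF) KK (Polynomial.map (algebraMap ℚ[X] FF) b) := hab
  have h2 := IsFractionRing.injective (Polynomial FF) KK h1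
  exact Polynomial.map_injective _ (IsFractionRing.injective ℚ[X] FF) h2

theorem OBase_g_t : OBase_g (C X) = tK := by
  unfold OBase_g tK t
  rw [RingHom.comp_apply, Polynomial.coe_mapRingHom, Polynomial.map_C, RatFunc.algebraMap_X,
    RatFunc.algebraMap_C]

theorem OBase_g_x : OBase_g X = xK := by
  unfold OBase_g xK
  rw [RingHom.comp_apply, Polynomial.coe_mapRingHom, Polynomial.map_X, RatFunc.algebraMap_X]

theorem OBase_g_unit (y : OBase_M) : IsUnit (OBase_g y) := by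
  rw [isUnit_iff_ne_zero]
  intro h
  have h1 : (y : ℚ[X][X]) = 0 := OBase_g_inj (by rw [h, map_zero])
  have h2 := y.2
  rw [h1, OBase_mem] at h2
  exact h2 (map_zero _)

/-- the embedding into `KK` -/
noncomputable def OBase_j' : OBaseO →+* KK := IsLocalization.lift OBase_g_unit

theorem OBase_j'_eq (f : ℚ[X][X]) : OBase_j' (algebraMap ℚ[X][X] OBaseO f) = OBase_g f :=
  IsLocalization.lift_eq _ _

theorem OBase_j'_inj : Function.Injective OBase_j' := by
  unfold OBase_j'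
  rw [IsLocalization.lift_injective_iff]
  intro x y
  constructor
  · intro h
    exact congrArg OBase_g (IsLocalization.injective OBaseO OBase_M_le h)
  · intro h
    exact congrArg _ (OBase_g_inj h)

/-- `T 1` as a unit -/
noncomputable def OBase_T (R : Type) [CommRing R] : (LaurentPolynomial R)ˣ :=
  ⟨LaurentPolynomial.T 1, LaurentPolynomial.T (-1),
    by rw [← LaurentPolynomial.T_add]; norm_num, by rw [← LaurentPolynomial.T_add]; norm_num⟩

/-- the embedding into `A0` -/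
noncomputable def OBase_j : LaurentPolynomial OBaseO →+* A0 :=
  LaurentPolynomial.eval₂ ((LaurentPolynomial.C (R := KK)).comp OBase_j') (OBase_T KK)

theorem OBase_j_poly (p : Polynomial OBaseO) :
    OBase_j (Polynomial.toLaurent p) = Polynomial.toLaurent (p.map OBase_j') := by
  unfold OBase_j
  rw [LaurentPolynomial.eval₂_toLaurent]
  have h1 : p.map OBase_j' = Polynomial.eval₂ (Polynomial.C.comp OBase_j') Polynomial.X p := rfl
  rw [h1, Polynomial.hom_eval₂]
  have h2 : (Polynomial.toLaurent (R := KK)).comp (Polynomial.C.comp OBase_j') =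
      (LaurentPolynomial.C (R := KK)).comp OBase_j' := by
    ext a : 1
    simp [Polynomial.toLaurent_C]
  rw [h2, Polynomial.toLaurent_X]
  rfl

theorem OBase_j_inj : Function.Injective OBase_j := by
  rw [injective_iff_map_eq_zero]
  intro f hf
  obtain ⟨n, p, hp⟩ := LaurentPolynomial.exists_T_pow f
  have h1 : OBase_j (Polynomial.toLaurent p) = 0 := by
    rw [hp, map_mul, hf, zero_mul]
  rw [OBase_j_poly, Polynomial.toLaurent_eq_zero] at h1
  have h2 : p = 0 := Polynomial.map_injective _ OBase_j'_inj (by rw [h1, Polynomial.map_zero])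
  rw [h2, map_zero] at hp
  have h3 : IsUnit (LaurentPolynomial.T (n : ℤ) : LaurentPolynomial OBaseO) :=
    LaurentPolynomial.isUnit_T _
  exact (h3.mul_left_eq_zero).1 hp.symm

theorem OBase_j_D : OBase_D.map OBase_j = D0 := by
  apply OBase_ext
  · show OBase_j (LaurentPolynomial.C (OBase_t : OBaseO)) = LaurentPolynomial.C tK
    unfold OBase_j
    rw [LaurentPolynomial.eval₂_C, RingHom.comp_apply]
    congr 1
    exact (OBase_j'_eq _).trans OBase_g_t
  · show OBase_j (LaurentPolynomial.C (OBase_x : OBaseO)) = LaurentPolynomial.C xK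
    unfold OBase_j
    rw [LaurentPolynomial.eval₂_C, RingHom.comp_apply]
    congr 1
    exact (OBase_j'_eq _).trans OBase_g_x
  · show OBase_j (LaurentPolynomial.T 1) = LaurentPolynomial.T 1
    unfold OBase_j
    rw [LaurentPolynomial.eval₂_T, zpow_one]
    rfl
  · intro S c
    show OBase_j (if S = 0 then 0 else LaurentPolynomial.C (Ring.inverse (OBase_br S c))) =
      (if S = 0 then 0 else LaurentPolynomial.C
        ((tK ^ (2 * (c : ℤ)) * xK ^ (S : ℤ) - tK ^ (-(2 * (c : ℤ))) * xK ^ (-(S : ℤ)))⁻¹))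
    split_ifs with h
    · rw [map_zero]
    · unfold OBase_j
      rw [LaurentPolynomial.eval₂_C, RingHom.comp_apply,
        OBase_map_inv OBase_j' _ (OBase_br_unit S c (Nat.pos_of_ne_zero h)),
        OBase_map_br OBase_j' tK xK ((OBase_j'_eq _).trans OBase_g_t)
          ((OBase_j'_eq _).trans OBase_g_x)]

/-! ### Real values -/

/-- evaluation at `t = 1`, `X = τ` -/
noncomputable def OBase_r (τ : ℝ) : ℚ[X][X] →+* ℝ :=
  ((Polynomial.aeval (R := ℚ) τ : ℚ[X] →ₐ[ℚ] ℝ) : ℚ[X] →+* ℝ).comp OBase_e1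

theorem OBase_r_unit (τ : ℝ) (hτ : Transcendental ℚ τ) (y : OBase_M) :
    IsUnit (OBase_r τ y) := by
  rw [isUnit_iff_ne_zero]
  intro h
  have h1 : Polynomial.aeval τ (OBase_e1 y) = 0 := h
  have h2 : OBase_e1 y = 0 := by
    by_contra hne
    exact hτ ⟨_, hne, h1⟩
  exact OBase_mem.1 y.2 h2

/-- the value at `t = 1`, `X = τ` -/
noncomputable def OBase_phi' (τ : ℝ) (hτ : Transcendental ℚ τ) : OBaseO →+* ℝ :=
  IsLocalization.lift (OBase_r_unit τ hτ)

theorem OBase_phi'_t (τ : ℝ) (hτ : Transcendental ℚ τ) :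
    OBase_phi' τ hτ (OBase_t : OBaseO) = 1 := by
  have h1 : OBase_phi' τ hτ (OBase_t : OBaseO) = OBase_r τ (C X) := IsLocalization.lift_eq _ _
  rw [h1, OBase_r, RingHom.comp_apply, OBase_e1_C, map_one]

theorem OBase_phi'_x (τ : ℝ) (hτ : Transcendental ℚ τ) :
    OBase_phi' τ hτ (OBase_x : OBaseO) = τ := by
  have h1 : OBase_phi' τ hτ (OBase_x : OBaseO) = OBase_r τ X := IsLocalization.lift_eq _ _
  rw [h1, OBase_r, RingHom.comp_apply, OBase_e1_X]
  exact Polynomial.aeval_X τ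

noncomputable def OBase_phi (τ : ℝ) (hτ : Transcendental ℚ τ) : LaurentPolynomial OBaseO →+* ℝ :=
  LaurentPolynomial.eval₂ (OBase_phi' τ hτ) 1

theorem OBase_phi_D (τ : ℝ) (hτ : 1 < τ) (htr : Transcendental ℚ τ) :
    OBase_D.map (OBase_phi τ htr) = DR τ hτ := by
  apply OBase_ext
  · show OBase_phi τ htr (LaurentPolynomial.C (OBase_t : OBaseO)) = 1
    unfold OBase_phi
    rw [LaurentPolynomial.eval₂_C, OBase_phi'_t]
  · show OBase_phi τ htr (LaurentPolynomial.C (OBase_x : OBaseO)) = τ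
    unfold OBase_phi
    rw [LaurentPolynomial.eval₂_C, OBase_phi'_x]
  · show OBase_phi τ htr (LaurentPolynomial.T 1) = 1
    unfold OBase_phi
    rw [LaurentPolynomial.eval₂_T, one_zpow, Units.val_one]
  · intro S c
    show OBase_phi τ htr (if S = 0 then 0 else
      LaurentPolynomial.C (Ring.inverse (OBase_br S c))) = (τ ^ S - (τ ^ S)⁻¹)⁻¹
    split_ifs with h
    · rw [map_zero, h]
      norm_num
    · unfold OBase_phi
      rw [LaurentPolynomial.eval₂_C,
        OBase_map_inv _ _ (OBase_br_unit S c (Nat.pos_of_ne_zero h)),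
        OBase_map_br _ 1 τ (OBase_phi'_t τ htr) (OBase_phi'_x τ htr)]
      rw [one_zpow, one_zpow, one_mul, one_mul, zpow_neg, zpow_natCast]

theorem OBase_DR_br (τ : ℝ) (hτ : 1 < τ) (S c : ℕ) :
    (DR τ hτ).br S c = τ ^ S - (τ ^ S)⁻¹ := by
  unfold Dat.br DR
  rw [one_zpow, one_zpow, one_mul, one_mul, Units.val_zpow_eq_zpow_val,
    Units.val_zpow_eq_zpow_val, Units.val_mk0, zpow_neg, zpow_natCast]

theorem OBase_proof : S_OBase := by
  refine ⟨LaurentPolynomial OBaseO, inferInstance, OBase_D, fun _ S c => OBase_D.br S c, OBase_j,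
    OBase_j_inj, OBase_j_D, ?_, ?_⟩
  · intro κ S c _ _
    rw [OBase_br_map, OBase_j_D]
    rfl
  · intro τ h₀ hτ η hh₀ htr
    refine ⟨OBase_phi τ htr, OBase_phi_D τ hτ htr, ?_⟩
    intro κ S c _ _
    rw [OBase_br_map, OBase_phi_D τ hτ htr, OBase_DR_br]
    unfold JR
    show _ = Finsupp.sum (MonoidAlgebra.single (1 : ZZ) (τ ^ S - (τ ^ S)⁻¹)).coeff _
    have h1 : (MonoidAlgebra.single (1 : ZZ) (τ ^ S - (τ ^ S)⁻¹)).coeff =
        Finsupp.single (1 : ZZ) (τ ^ S - (τ ^ S)⁻¹) := rfl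
    rw [h1, Finsupp.sum_single_index (by rw [zero_mul])]
    unfold th
    simp

end AJG

end

section

/-!
# MP_d3fa71_gt: realisation at `t = 1` of the next level
-/

open Polynomial

namespace AJG

theorem ONext_mm {R R' R'' : Type} [CommRing R] [CommRing R'] [CommRing R''] (D : Dat R)
    (φ : R →+* R') (ψ : R' →+* R'') : (D.map φ).map ψ = D.map (ψ.comp φ) := rfl

theorem ONext_bvar {L : Lv} {O A : Type} [CommRing O] [CommRing A] (f : MvPolynomial (Var L) O →+* A)
    (b : PT L → ℕ → ℕ → A) (hf : ∀ w : Var L, f (MvPolynomial.X w) = b w.P w.S w.i)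
    (P : PT L) (S i : ℕ) (hS : 0 < S) (hS2 : Even S) (hi : i < 2) (h2 : P.s = 2 → i = 0) :
    f (bvar L O P S i) = b P S i := by
  have h : 0 < S ∧ Even S ∧ i < 2 ∧ (P.s = 2 → i = 0) := ⟨hS, hS2, hi, h2⟩
  rw [bvar, dif_pos h, hf]

theorem ONext_bvarA {L : Lv} {A : Type} [CommRing A] (w : Var L) :
    bvar L A w.P w.S w.i = MvPolynomial.X w := by
  have h : 0 < w.S ∧ Even w.S ∧ w.i < 2 ∧ (w.P.s = 2 → w.i = 0) := ⟨w.hS, w.hS2, w.hi, w.h2⟩
  rw [bvar, dif_pos h]

theorem ONext_proof (h1 : S_NextNat) (h2 : S_RealNext) : S_ONext := by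
  intro L cf A _ D J hO
  obtain ⟨O, iO, DO, JO, j, hj, hD, hJ, hφ⟩ := hO
  have hDj : (nextD (L := L) DO).map (MvPolynomial.map (σ := Var L) j) = nextD (L := L) D := by
    rw [nextD, nextD, ONext_mm, ← hD, ONext_mm]
    congr 1
    ext o
    simp
  refine ⟨MvPolynomial (Var L) O, inferInstance, nextD (L := L) DO, extJ DO JO,
    MvPolynomial.map j, MvPolynomial.map_injective j hj, hDj, ?_, ?_⟩
  · intro κ S c hS hS2
    have h3 := h1 (MvPolynomial (Var L) O) (MvPolynomial (Var L) A) (MvPolynomial.map j)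
      (nextD (L := L) DO) L (fun κ S c => MvPolynomial.C (JO κ S c))
      (fun κ S c => MvPolynomial.C (J κ S c)) (bvar L O) (bvar L A)
      (by
        intro κ S c hS hS2
        rw [MvPolynomial.map_C, hJ κ S c hS hS2])
      (by
        intro P S i hS hS2 hi hi2
        refine ONext_bvar _ (bvar L A) ?_ P S i hS hS2 hi hi2
        intro w
        rw [MvPolynomial.map_X, ONext_bvarA])
      κ S c hS hS2
    rw [hDj] at h3
    exact h3
  · intro τ h₀ hτ η hh₀ htr
    obtain ⟨φ, hφD, hφJ⟩ := hφ τ h₀ hτ η hh₀ htr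
    let b : PT L → ℕ → ℕ → ℝ := fun P S i =>
      τ ^ (P.r * P.s * S * i) * JR τ h₀ η (fun P S => cfP τ (cf τ) P S) P S i
    let φ2 : MvPolynomial (Var L) O →+* ℝ := MvPolynomial.eval₂Hom φ fun w => b w.P w.S w.i
    have hC : φ2.comp (MvPolynomial.C) = φ := by
      ext o
      simp [φ2]
    have hD2 : (nextD (L := L) DO).map φ2 = DR τ hτ := by
      rw [nextD, ONext_mm, hC, hφD]
    refine ⟨φ2, hD2, ?_⟩
    intro κ S c hS hS2
    have h3 := h1 (MvPolynomial (Var L) O) ℝ φ2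
      (nextD (L := L) DO) L (fun κ S c => MvPolynomial.C (JO κ S c))
      (JR τ h₀ η (cf τ)) (bvar L O) b
      (by
        intro κ S c hS hS2
        rw [← hφJ κ S c hS hS2, ← hC]
        rfl)
      (by
        intro P S i hS hS2 hi hi2
        refine ONext_bvar _ b ?_ P S i hS hS2 hi hi2
        intro w
        simp only [φ2, MvPolynomial.coe_eval₂Hom, MvPolynomial.eval₂_X])
      κ S c hS hS2
    rw [hD2] at h3
    exact h3.trans (h2 τ h₀ hτ η hh₀ L (cf τ) κ S c hS hS2)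

end AJG

end

section

/-!
# MP_d3fa71_gt, item RealNext: the values of the next level at `t = 1`
-/

open Polynomial

namespace AJG

theorem RealNext_eta (η : ℤˣ) (k : ℕ) : (((η : ℤ) : ℝ) ^ k) * (((η : ℤ) : ℝ) ^ k) = 1 := by
  rw [← mul_pow]
  rcases Int.units_eq_one_or η with h | h <;> subst h <;> norm_num

theorem RealNext_ite (a a' : ℤˣ) (X : ℝ) (hX : X * X = 1) :
    (if a * a' = 1 then (1 : ℝ) else X) = (if a = 1 then 1 else X) * (if a' = 1 then 1 else X) := by
  have hn : (-1 : ℤˣ) ≠ 1 := by decide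
  rcases Int.units_eq_one_or a with h | h <;> rcases Int.units_eq_one_or a' with h' | h' <;>
    subst h <;> subst h' <;> simp [hn, hX]

/-- the character as a homomorphism -/
noncomputable def RealNext_ch (τ h₀ : ℝ) (hτ : 1 < τ) (hh : 0 < h₀) (η : ℤˣ) (S c : ℕ) : ZZ →* ℝ where
  toFun := th τ h₀ η S c
  map_one' := by simp [th]
  map_mul' := by
    rintro ⟨a, b⟩ ⟨a', b'⟩
    have hτ0 : τ ≠ 0 := by positivity
    have h := RealNext_ite a a' (((η : ℤ) : ℝ) ^ (S / 2)) (RealNext_eta η (S / 2))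
    simp only [th, Prod.mk_mul_mk, toAdd_mul, Units.val_mul, Int.cast_mul]
    rw [h, add_mul, add_mul, zpow_add₀ hh.ne', zpow_add₀ hτ0, mul_pow, mul_pow, mul_pow, mul_pow,
      mul_pow]
    ring

theorem RealNext_JR (τ h₀ : ℝ) (hτ : 1 < τ) (hh : 0 < h₀) (η : ℤˣ) {K : Type}
    (cf : K → ℕ → MonoidAlgebra ℝ ZZ) (κ : K) (S c : ℕ) :
    JR τ h₀ η cf κ S c = MonoidAlgebra.lift ℝ ℝ ZZ (RealNext_ch τ h₀ hτ hh η S c) (cf κ S) := by
  rw [MonoidAlgebra.lift_apply']
  rfl

/-- the value of a character on the push forward of a label -/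
theorem RealNext_push (τ h₀ : ℝ) (η : ℤˣ) (S c s : ℕ) (hE : Even S) (z : ZZ) :
    th τ h₀ η S c (z.1 ^ s, z.2 ^ (s ^ 2)) =
      ((z.1 : ℤ) : ℝ) ^ s * ((if z.1 = 1 then (1 : ℝ) else ((η : ℤ) : ℝ) ^ (s * S / 2)) *
        h₀ ^ (z.2.toAdd * ((s * S / 2 : ℕ) : ℤ) ^ 2)) *
        (((z.1 : ℤ) : ℝ) ^ s * τ ^ (z.2.toAdd * (s : ℤ) ^ 2 * S)) ^ c := by
  obtain ⟨a, b⟩ := z
  obtain ⟨S2, rfl⟩ := hE
  have e1 : (S2 + S2) / 2 = S2 := by omega
  have e2 : s * (S2 + S2) / 2 = s * S2 := by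
    have : s * (S2 + S2) = 2 * (s * S2) := by ring
    rw [this]; omega
  have hn : (-1 : ℤˣ) ≠ 1 := by decide
  have hpow : (if a ^ s = 1 then (1 : ℝ) else ((η : ℤ) : ℝ) ^ S2) =
      if a = 1 then (1 : ℝ) else ((η : ℤ) : ℝ) ^ (s * S2) := by
    rcases Int.units_eq_one_or a with h | h
    · subst h; simp
    · subst h
      rw [if_neg hn]
      rcases Nat.even_or_odd s with hs | hs
      · rw [hs.neg_one_pow, if_pos rfl]
        obtain ⟨s', rfl⟩ := hs
        have : (s' + s') * S2 = s' * S2 + s' * S2 := by ring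
        rw [this, pow_add, RealNext_eta]
      · rw [hs.neg_one_pow, if_neg hn]
        obtain ⟨s', rfl⟩ := hs
        have : (2 * s' + 1) * S2 = s' * S2 + s' * S2 + S2 := by ring
        rw [this, pow_add, pow_add, RealNext_eta, one_mul]
  simp only [th, e1, e2, toAdd_pow]
  rw [hpow]
  have e3 : (s ^ 2) • Multiplicative.toAdd b * ((S2 : ℕ) : ℤ) ^ 2 =
      Multiplicative.toAdd b * ((s * S2 : ℕ) : ℤ) ^ 2 := by
    rw [nsmul_eq_mul]; push_cast; ring
  have e4 : (s ^ 2) • Multiplicative.toAdd b * ((S2 + S2 : ℕ) : ℤ) =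
      Multiplicative.toAdd b * (s : ℤ) ^ 2 * ((S2 + S2 : ℕ) : ℤ) := by
    rw [nsmul_eq_mul]; push_cast; ring
  rw [e3, e4, Units.val_pow_eq_pow_val, Int.cast_pow]
  ring

/-- the weight -/
noncomputable def RealNext_w (τ : ℝ) (r : ℤ) (s S : ℕ) (l : ℤ) : ℝ :=
  (τ ^ (S * (r + l * s)) - τ ^ (-(S * (r + l * s)))) /
    (τ ^ (S * (r + l * s) * s) - τ ^ (-(S * (r + l * s) * s)))

theorem RealNext_den {τ : ℝ} (hτ : 1 < τ) {k : ℤ} (hk : k ≠ 0) : τ ^ k - τ ^ (-k) ≠ 0 := by
  intro h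
  have h1 : τ ^ k = τ ^ (-k) := sub_eq_zero.1 h
  have h2 := zpow_right_injective₀ (by positivity) hτ.ne' h1
  omega

/-- the termwise identity, two step, algebra -/
theorem RealNext_alg2 {e X a w u v ui vi U V Ui Vi Ee ρ : ℝ} (he : e ^ 2 = 1) (hE : Ee ^ 2 = 1)
    (hU : U * Ui = 1) (hV : V * Vi = 1) (hD : U * V - Ui * Vi ≠ 0)
    (hw : w = (u * v - ui * vi) / (U * V - Ui * Vi)) :
    a * w * (Ee * X * (ρ * (Ee * V) ^ 2)) =
      Ui ^ 2 * (a * w * (Ee * X * ρ)) +
      Ui * u * (a * (e * X * (ρ * (Ee * V) * (e * v)))) -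
      Ui * ui * (a * (e * X * (ρ * (Ee * V) * (e * vi)))) := by
  have hK : w * (V ^ 2 - Ui ^ 2) = (u * v - ui * vi) * V * Ui := by
    have h1 : V ^ 2 - Ui ^ 2 = V * Ui * (U * V - Ui * Vi) := by
      linear_combination (-(V ^ 2)) * hU + Ui ^ 2 * hV
    rw [h1, hw]
    field_simp
  linear_combination (a * X * Ee * ρ) * hK + (a * w * Ee * X * ρ * V ^ 2) * hE -
    (a * X * ρ * Ee * V * Ui * (u * v - ui * vi)) * he

/-- the termwise identity, two step -/
theorem RealNext_two {τ : ℝ} (hτ : 1 < τ) (r l : ℤ) (s S c : ℕ) (hs : 2 ≤ s)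
    (hk : (S : ℤ) * (r + l * s) * s ≠ 0)
    (e X a : ℝ) (he : e ^ 2 = 1) :
    a * RealNext_w τ r s S l * (e ^ s * X * (e ^ s * τ ^ (l * (s : ℤ) ^ 2 * S)) ^ (c + 2)) =
      τ ^ (-(2 * r * s * S)) *
        (a * RealNext_w τ r s S l * (e ^ s * X * (e ^ s * τ ^ (l * (s : ℤ) ^ 2 * S)) ^ c)) +
      τ ^ (-(r * s * S) + r * S) * (a * (e * X * (e * τ ^ (l * (s * S : ℕ))) ^ (s * (c + 1) + 1))) -
      τ ^ (-(r * s * S) - r * S) *
        (a * (e * X * (e * τ ^ (l * (s * S : ℕ))) ^ (s * (c + 1) - 1))) := by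
  have hτ0 : τ ≠ 0 := by positivity
  have hD := RealNext_den hτ hk
  have hEe : (e ^ s) ^ 2 = 1 := by rw [← pow_mul, mul_comm, pow_mul, he, one_pow]
  have hζ : (e * τ ^ (l * (s * S : ℕ))) ^ s = e ^ s * τ ^ (l * (s : ℤ) ^ 2 * S) := by
    rw [mul_pow, ← zpow_natCast (τ ^ (l * (s * S : ℕ))) s, ← zpow_mul]
    congr 2
    push_cast; ring
  have hvv : τ ^ (l * (s * S : ℕ)) * τ ^ (-(l * (s * S : ℕ))) = 1 := by
    rw [← zpow_add₀ hτ0, add_neg_cancel, zpow_zero]
  have h1 : (e * τ ^ (l * (s * S : ℕ))) ^ (s * (c + 1) + 1) =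
      (e ^ s * τ ^ (l * (s : ℤ) ^ 2 * S)) ^ c * (e ^ s * τ ^ (l * (s : ℤ) ^ 2 * S)) *
        (e * τ ^ (l * (s * S : ℕ))) := by
    rw [pow_succ, pow_mul, hζ, pow_succ]
  have h2 : (e * τ ^ (l * (s * S : ℕ))) ^ (s * (c + 1) - 1) =
      (e ^ s * τ ^ (l * (s : ℤ) ^ 2 * S)) ^ c * (e ^ s * τ ^ (l * (s : ℤ) ^ 2 * S)) *
        (e * τ ^ (-(l * (s * S : ℕ)))) := by
    have h3 : 1 ≤ s * (c + 1) := Nat.one_le_iff_ne_zero.2 (by positivity)
    have h4 : (e * τ ^ (l * (s * S : ℕ))) ^ (s * (c + 1)) =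
        (e * τ ^ (l * (s * S : ℕ))) ^ (s * (c + 1) - 1) * (e * τ ^ (l * (s * S : ℕ))) := by
      rw [← pow_succ]; congr 1; omega
    have h5 : (e * τ ^ (l * (s * S : ℕ))) * (e * τ ^ (-(l * (s * S : ℕ)))) = 1 := by
      linear_combination (τ ^ (l * (s * S : ℕ)) * τ ^ (-(l * (s * S : ℕ)))) * he + hvv
    rw [← pow_succ, ← hζ, ← pow_mul, h4, mul_assoc, h5, mul_one]
  rw [h1, h2, pow_add (e ^ s * τ ^ (l * (s : ℤ) ^ 2 * S)) c 2]
  have z1 : τ ^ (-(2 * r * s * S)) = (τ ^ (-(r * s * S))) ^ 2 := by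
    rw [← zpow_natCast, ← zpow_mul]; congr 1; push_cast; ring
  have z2 : τ ^ (-(r * s * S) + r * S) = τ ^ (-(r * s * S)) * τ ^ (r * S) := zpow_add₀ hτ0 _ _
  have z3 : τ ^ (-(r * s * S) - r * S) = τ ^ (-(r * s * S)) * τ ^ (-(r * S)) := by
    rw [sub_eq_add_neg, zpow_add₀ hτ0]
  rw [z1, z2, z3]
  have w1 : τ ^ (S * (r + l * s)) = τ ^ (r * S) * τ ^ (l * (s * S : ℕ)) := by
    rw [← zpow_add₀ hτ0]; congr 1; push_cast; ring
  have w2 : τ ^ (-(S * (r + l * s))) = τ ^ (-(r * S)) * τ ^ (-(l * (s * S : ℕ))) := by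
    rw [← zpow_add₀ hτ0]; congr 1; push_cast; ring
  have w3 : τ ^ (S * (r + l * s) * s) = τ ^ (r * s * S) * τ ^ (l * (s : ℤ) ^ 2 * S) := by
    rw [← zpow_add₀ hτ0]; congr 1; ring
  have w4 : τ ^ (-(S * (r + l * s) * s)) = τ ^ (-(r * s * S)) * τ ^ (-(l * (s : ℤ) ^ 2 * S)) := by
    rw [← zpow_add₀ hτ0]; congr 1; ring
  rw [w3, w4] at hD
  refine RealNext_alg2 (U := τ ^ (r * s * S)) (Vi := τ ^ (-(l * (s : ℤ) ^ 2 * S))) he hEe ?_ ?_ hD ?_
  · rw [← zpow_add₀ hτ0, add_neg_cancel, zpow_zero]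
  · rw [← zpow_add₀ hτ0, add_neg_cancel, zpow_zero]
  · rw [RealNext_w, w1, w2, w3, w4]

/-- the termwise identity, one step, algebra -/
theorem RealNext_alg1 {e X a w u v ui vi ρ : ℝ} (he : e ^ 2 = 1)
    (hu : u * ui = 1) (hv : v * vi = 1) (hD : u ^ 2 * v ^ 2 - ui ^ 2 * vi ^ 2 ≠ 0)
    (hw : w = (u * v - ui * vi) / (u ^ 2 * v ^ 2 - ui ^ 2 * vi ^ 2)) :
    a * w * (e ^ 2 * X * (ρ * (e ^ 2 * v ^ 2))) =
      -ui ^ 2 * (a * w * (e ^ 2 * X * ρ)) + ui * (a * (e * X * (ρ * (e * v)))) := by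
  have hf : u ^ 2 * v ^ 2 - ui ^ 2 * vi ^ 2 = (u * v - ui * vi) * (u * v + ui * vi) := by ring
  have hK : w * (v ^ 2 + ui ^ 2) = ui * v := by
    have h1 : v ^ 2 + ui ^ 2 = ui * v * (u * v + ui * vi) := by
      linear_combination (-(v ^ 2)) * hu - ui ^ 2 * hv
    rw [hf] at hw hD
    have hD2 : u * v + ui * vi ≠ 0 := right_ne_zero_of_mul hD
    have hD1 : u * v - ui * vi ≠ 0 := left_ne_zero_of_mul hD
    rw [h1, hw]
    field_simp
  rw [he]
  linear_combination (a * X * ρ) * hK - (a * X * ρ * ui * v) * he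

/-- the termwise identity, one step -/
theorem RealNext_one {τ : ℝ} (hτ : 1 < τ) (r l : ℤ) (s S c : ℕ) (hs : s = 2)
    (hk : (S : ℤ) * (r + l * s) * s ≠ 0)
    (e X a : ℝ) (he : e ^ 2 = 1) :
    a * RealNext_w τ r s S l * (e ^ s * X * (e ^ s * τ ^ (l * (s : ℤ) ^ 2 * S)) ^ (c + 1)) =
      -τ ^ (-(2 * r * S)) *
        (a * RealNext_w τ r s S l * (e ^ s * X * (e ^ s * τ ^ (l * (s : ℤ) ^ 2 * S)) ^ c)) +
      τ ^ (-(r * S)) * (a * (e * X * (e * τ ^ (l * (s * S : ℕ))) ^ (2 * c + 1))) := by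
  subst hs
  have hτ0 : τ ≠ 0 := by positivity
  have hD := RealNext_den hτ hk
  have hζ : τ ^ (l * ((2 : ℕ) : ℤ) ^ 2 * S) = (τ ^ (l * (2 * S : ℕ))) ^ 2 := by
    rw [← zpow_natCast, ← zpow_mul]
    congr 1
    push_cast; ring
  have hvv : τ ^ (l * (2 * S : ℕ)) * τ ^ (-(l * (2 * S : ℕ))) = 1 := by
    rw [← zpow_add₀ hτ0, add_neg_cancel, zpow_zero]
  have huu : τ ^ (r * S) * τ ^ (-(r * S)) = 1 := by
    rw [← zpow_add₀ hτ0, add_neg_cancel, zpow_zero]
  have h1 : (e * τ ^ (l * (2 * S : ℕ))) ^ (2 * c + 1) =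
      (e ^ 2 * (τ ^ (l * (2 * S : ℕ))) ^ 2) ^ c * (e * τ ^ (l * (2 * S : ℕ))) := by
    rw [pow_succ, pow_mul, mul_pow]
  have z1 : τ ^ (-(2 * r * S)) = (τ ^ (-(r * S))) ^ 2 := by
    rw [← zpow_natCast, ← zpow_mul]; congr 1; push_cast; ring
  have w1 : τ ^ (S * (r + l * ((2 : ℕ) : ℤ))) = τ ^ (r * S) * τ ^ (l * (2 * S : ℕ)) := by
    rw [← zpow_add₀ hτ0]; congr 1; push_cast; ring
  have w2 : τ ^ (-(S * (r + l * ((2 : ℕ) : ℤ)))) = τ ^ (-(r * S)) * τ ^ (-(l * (2 * S : ℕ))) := by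
    rw [← zpow_add₀ hτ0]; congr 1; push_cast; ring
  have w3 : τ ^ (S * (r + l * ((2 : ℕ) : ℤ)) * ((2 : ℕ) : ℤ)) =
      (τ ^ (r * S)) ^ 2 * (τ ^ (l * (2 * S : ℕ))) ^ 2 := by
    rw [← mul_pow, ← w1, ← zpow_natCast (τ ^ (S * (r + l * ((2 : ℕ) : ℤ)))) 2, ← zpow_mul]
  have w4 : τ ^ (-(S * (r + l * ((2 : ℕ) : ℤ)) * ((2 : ℕ) : ℤ))) =
      (τ ^ (-(r * S))) ^ 2 * (τ ^ (-(l * (2 * S : ℕ)))) ^ 2 := by
    rw [← mul_pow, ← w2, ← zpow_natCast (τ ^ (-(S * (r + l * ((2 : ℕ) : ℤ))))) 2, ← zpow_mul]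
    congr 1
    ring
  rw [w3, w4] at hD
  rw [h1, hζ, pow_succ (e ^ 2 * (τ ^ (l * (2 * S : ℕ))) ^ 2) c, z1]
  refine RealNext_alg1 (vi := τ ^ (-(l * (2 * S : ℕ)))) he huu hvv hD ?_
  rw [RealNext_w, w1, w2, w3, w4]

theorem RealNext_Y (τ h₀ : ℝ) (hτ : 1 < τ) (hh : 0 < h₀) (η : ℤˣ) {L : Lv}
    (cf : L.K → ℕ → MonoidAlgebra ℝ ZZ) (P : PT L) (S c : ℕ) :
    JR τ h₀ η (fun P S => cfP τ cf P S) P S c =
      (if P.s = 2 then th τ h₀ η S c (-1, Multiplicative.ofAdd (-(P.r * P.s)))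
        else th τ h₀ η S c (1, Multiplicative.ofAdd (-(P.r * P.s))) +
          th τ h₀ η S c (-1, Multiplicative.ofAdd (-(P.r * P.s)))) +
      (cf P.κ (P.s * S)).coeff.sum fun z a =>
        a * RealNext_w τ P.r P.s S z.2.toAdd * th τ h₀ η S c (z.1 ^ P.s, z.2 ^ (P.s ^ 2)) := by
  rw [RealNext_JR τ h₀ hτ hh]
  rw [cfP, map_add, map_finsuppSum]
  congr 1
  · split_ifs with h
    · rw [MonoidAlgebra.lift_single, one_smul]; rfl
    · rw [map_add, MonoidAlgebra.lift_single, MonoidAlgebra.lift_single, one_smul, one_smul]; rfl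
  · refine Finsupp.sum_congr fun z _ => ?_
    rw [MonoidAlgebra.lift_single, smul_eq_mul]
    rfl

/-- the special labels -/
theorem RealNext_spec2 (τ h₀ : ℝ) (hτ : 1 < τ) (η : ℤˣ) (S c : ℕ) (r : ℤ) (s : ℕ) (e : ℤˣ) :
    th τ h₀ η S (c + 2) (e, Multiplicative.ofAdd (-(r * s))) =
      τ ^ (-(2 * r * s * S)) * th τ h₀ η S c (e, Multiplicative.ofAdd (-(r * s))) := by
  have hτ0 : τ ≠ 0 := by positivity
  have he : (((e : ℤ) : ℝ)) ^ 2 = 1 := by
    have := RealNext_eta e 1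
    rw [pow_one] at this
    rw [pow_two, this]
  have h1 : (((e : ℤ) : ℝ) * τ ^ (-(r * s) * (S : ℤ))) ^ 2 = τ ^ (-(2 * r * s * S)) := by
    rw [mul_pow, he, one_mul, ← zpow_natCast, ← zpow_mul]
    congr 1; push_cast; ring
  simp only [th, toAdd_ofAdd]
  rw [pow_add, h1]
  ring

theorem RealNext_spec1 (τ h₀ : ℝ) (η : ℤˣ) (S c : ℕ) (r : ℤ) (s : ℕ) (hs : s = 2) :
    th τ h₀ η S (c + 1) (-1, Multiplicative.ofAdd (-(r * s))) =
      -τ ^ (-(2 * r * S)) * th τ h₀ η S c (-1, Multiplicative.ofAdd (-(r * s))) := by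
  subst hs
  have h1 : -(r * ((2 : ℕ) : ℤ)) * (S : ℤ) = -(2 * r * S) := by push_cast; ring
  simp only [th, toAdd_ofAdd]
  rw [pow_succ, h1]
  push_cast
  ring

theorem RealNext_th (τ h₀ : ℝ) (η : ℤˣ) (T m : ℕ) (z : ZZ) :
    th τ h₀ η T m z = ((z.1 : ℤ) : ℝ) * ((if z.1 = 1 then (1 : ℝ) else ((η : ℤ) : ℝ) ^ (T / 2)) *
      h₀ ^ (z.2.toAdd * ((T / 2 : ℕ) : ℤ) ^ 2)) * (((z.1 : ℤ) : ℝ) * τ ^ (z.2.toAdd * (T : ℕ))) ^ m := by
  rw [th, mul_assoc ((z.1 : ℤ) : ℝ)]

theorem RealNext_prime (h1 : S_RecChar) (τ h₀ : ℝ) (hτ : 1 < τ) (hh : 0 < h₀) (η : ℤˣ) {L : Lv}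
    (cf : L.K → ℕ → MonoidAlgebra ℝ ZZ) (P : PT L) (S c : ℕ) (hS : 0 < S) (hE : Even S) :
    JP (DR τ hτ) (JR τ h₀ η cf)
      (fun S i => τ ^ (P.r * P.s * S * i) * JR τ h₀ η (fun P S => cfP τ cf P S) P S i) P S c =
    JR τ h₀ η (fun P S => cfP τ cf P S) P S c := by
  have hτ0 : τ ≠ 0 := by positivity
  have hk : ∀ l : ℤ, (S : ℤ) * (P.r + l * P.s) * P.s ≠ 0 := by
    intro l
    have hs := P.hs
    refine mul_ne_zero (mul_ne_zero (by exact_mod_cast hS.ne') ?_) (by positivity)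
    intro h0
    have hd : (P.s : ℤ) ∣ P.r := ⟨-l, by linarith⟩
    have hu : IsUnit (P.s : ℤ) := P.hco.isUnit_of_dvd' hd dvd_rfl
    rw [Int.isUnit_iff] at hu
    omega
  have he2 : ∀ e : ℤˣ, (((e : ℤ) : ℝ)) ^ 2 = 1 := by
    intro e
    have := RealNext_eta e 1
    rw [pow_one] at this
    rw [pow_two, this]
  refine h1 ℝ (DR τ hτ) L (JR τ h₀ η cf) P S
    (fun c => JR τ h₀ η (fun P S => cfP τ cf P S) P S c) _ hS hE ?_ ?_ ?_ c
  · intro hs2 c
    have hsum : ((cf P.κ (P.s * S)).coeff.sum fun z a =>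
        a * RealNext_w τ P.r P.s S z.2.toAdd * th τ h₀ η S (c + 2) (z.1 ^ P.s, z.2 ^ (P.s ^ 2))) =
        τ ^ (-(2 * P.r * P.s * S)) * ((cf P.κ (P.s * S)).coeff.sum fun z a =>
        a * RealNext_w τ P.r P.s S z.2.toAdd * th τ h₀ η S c (z.1 ^ P.s, z.2 ^ (P.s ^ 2))) +
        τ ^ (-(P.r * P.s * S) + P.r * S) * JR τ h₀ η cf P.κ (P.s * S) (P.s * (c + 1) + 1) -
        τ ^ (-(P.r * P.s * S) - P.r * S) * JR τ h₀ η cf P.κ (P.s * S) (P.s * (c + 1) - 1) := by
      simp only [JR, Finsupp.sum, Finset.mul_sum]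
      rw [← Finset.sum_add_distrib, ← Finset.sum_sub_distrib]
      refine Finset.sum_congr rfl fun z _ => ?_
      rw [RealNext_push τ h₀ η S _ _ hE, RealNext_push τ h₀ η S _ _ hE, RealNext_th, RealNext_th]
      exact RealNext_two hτ P.r z.2.toAdd P.s S c P.hs (hk _) _ _ _ (he2 z.1)
    simp only [RealNext_Y τ h₀ hτ hh, if_neg hs2, RealNext_spec2 τ h₀ hτ]
    rw [hsum]
    simp only [DR, one_zpow, one_mul, Units.val_zpow_eq_zpow_val, Units.val_mk0]
    ring
  · intro hs2 c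
    have hsum : ((cf P.κ (P.s * S)).coeff.sum fun z a =>
        a * RealNext_w τ P.r P.s S z.2.toAdd * th τ h₀ η S (c + 1) (z.1 ^ P.s, z.2 ^ (P.s ^ 2))) =
        -τ ^ (-(2 * P.r * S)) * ((cf P.κ (P.s * S)).coeff.sum fun z a =>
        a * RealNext_w τ P.r P.s S z.2.toAdd * th τ h₀ η S c (z.1 ^ P.s, z.2 ^ (P.s ^ 2))) +
        τ ^ (-(P.r * S)) * JR τ h₀ η cf P.κ (P.s * S) (2 * c + 1) := by
      simp only [JR, Finsupp.sum, Finset.mul_sum]
      rw [← Finset.sum_add_distrib]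
      refine Finset.sum_congr rfl fun z _ => ?_
      rw [RealNext_push τ h₀ η S _ _ hE, RealNext_push τ h₀ η S _ _ hE, RealNext_th]
      exact RealNext_one hτ P.r z.2.toAdd P.s S c hs2 (hk _) _ _ _ (he2 z.1)
    have hSs : 2 * S = P.s * S := by rw [hs2]
    rw [hSs]
    simp only [RealNext_Y τ h₀ hτ hh, if_pos hs2, RealNext_spec1 τ h₀ η S c P.r P.s hs2]
    rw [hsum]
    simp only [DR, one_zpow, one_mul, Units.val_zpow_eq_zpow_val, Units.val_mk0]
    ring
  · intro i hi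
    simp [DR]

theorem RealNext_proof (h1 : S_RecChar) : S_RealNext := by
  intro τ h₀ hτ η hh L cf κ S c hS hE
  rw [RealNext_JR τ h₀ hτ hh, nextcf, map_mul, map_multiset_prod, Multiset.map_map]
  unfold nextJ
  refine congrArg₂ (· * ·) (RealNext_JR τ h₀ hτ hh η cf κ.1 S c) (congrArg Multiset.prod ?_)
  refine Multiset.map_congr rfl fun P _ => ?_
  rw [RealNext_prime h1 τ h₀ hτ hh η cf P S c hS hE, RealNext_JR τ h₀ hτ hh]
  simp only [Function.comp_apply]
  rw [map_mul, MonoidAlgebra.lift_single, map_one, smul_eq_mul, mul_one, mul_comm]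
  rfl

end AJG

end

section

/-! Item RecChar: the values of a prime are characterised by the recurrences. -/

set_option autoImplicit false

namespace AJG

/-- the monomials in `t`, `h`, `x` -/
def RecChar_u {R : Type} [CommRing R] (D : Dat R) (a b c : ℤ) : R :=
  ((D.t ^ a * D.h ^ b * D.x ^ c : Rˣ) : R)

section
variable {R : Type} [CommRing R] (D : Dat R)

theorem RecChar_mul (a b c a' b' c' : ℤ) :
    RecChar_u D a b c * RecChar_u D a' b' c' = RecChar_u D (a + a') (b + b') (c + c') := by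
  unfold RecChar_u
  rw [← Units.val_mul, zpow_add, zpow_add, zpow_add, mul_mul_mul_comm (D.t ^ a * D.h ^ b),
    mul_mul_mul_comm (D.t ^ a)]

theorem RecChar_zero : RecChar_u D 0 0 0 = 1 := by
  unfold RecChar_u
  simp

theorem RecChar_tx (a c : ℤ) : ((D.t ^ a * D.x ^ c : Rˣ) : R) = RecChar_u D a 0 c := by
  unfold RecChar_u
  simp

theorem RecChar_t (a : ℤ) : ((D.t ^ a : Rˣ) : R) = RecChar_u D a 0 0 := by
  unfold RecChar_u
  simp

theorem RecChar_thx (a b c : ℤ) : ((D.t ^ a * D.h ^ b * D.x ^ c : Rˣ) : R) = RecChar_u D a b c :=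
  rfl

theorem RecChar_hxt (a b c : ℤ) : ((D.h ^ b * D.x ^ c * D.t ^ a : Rˣ) : R) = RecChar_u D a b c := by
  unfold RecChar_u
  rw [mul_comm (D.h ^ b * D.x ^ c), ← mul_assoc]

theorem RecChar_congr {a b c a' b' c' : ℤ} (h1 : a = a') (h2 : b = b') (h3 : c = c') :
    RecChar_u D a b c = RecChar_u D a' b' c' := by rw [h1, h2, h3]

end

theorem RecChar_proof : S_RecChar := by
  intro R _ D L J P S Y b hS hS2 h2 h1 hb c
  have hb0 := hb 0 (by norm_num)
  have hb1 := hb 1 (by norm_num)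
  rw [RecChar_thx] at hb0 hb1
  by_cases hs : P.s = 2
  · have h1' := h1 hs
    have hsz : (P.s : ℤ) = 2 := by exact_mod_cast hs
    induction c with
    | zero =>
      unfold JP
      rw [if_pos hs, RecChar_hxt, Finset.range_zero, Finset.sum_empty, mul_zero, sub_zero, pow_zero,
        one_mul, hb0, ← mul_assoc, RecChar_mul]
      have : RecChar_u D (-(P.r * P.s * ((0 : ℕ) : ℤ) ^ 2) + P.r * P.s * ((0 : ℕ) : ℤ) ^ 2)
          (-(P.r * P.s * (S : ℤ) ^ 2) + P.r * P.s * (S : ℤ) ^ 2)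
          (-(P.r * P.s * S * ((0 : ℕ) : ℤ)) + P.r * P.s * S * ((0 : ℕ) : ℤ)) = 1 := by
        rw [← RecChar_zero D]
        apply RecChar_congr <;> push_cast <;> ring
      rw [this, one_mul]
    | succ c ih =>
      have hY := h1' c
      rw [RecChar_tx, RecChar_tx] at hY
      unfold JP at ih ⊢
      rw [if_pos hs, RecChar_hxt, RecChar_t] at ih ⊢
      rw [Finset.sum_range_succ]
      have hfp : fp D J P.r P.s S P.κ c = RecChar_u D (P.r * P.s * (c : ℤ) ^ 2 + 2 * P.r * c)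
          (P.r * P.s * (S : ℤ) ^ 2) (P.r * S * (P.s * c + 1)) * J P.κ (2 * S) (2 * c + 1) := by
        unfold fp
        rw [RecChar_thx]
        simp only [hs]
      rw [hfp, hY]
      have E1 : RecChar_u D (-(P.r * P.s * ((c + 1 : ℕ) : ℤ) ^ 2)) (-(P.r * P.s * (S : ℤ) ^ 2))
          (-(P.r * P.s * S * ((c + 1 : ℕ) : ℤ))) =
          RecChar_u D (-(2 * P.r * (2 * c + 1))) 0 (-(2 * P.r * S)) *
            RecChar_u D (-(P.r * P.s * (c : ℤ) ^ 2)) (-(P.r * P.s * (S : ℤ) ^ 2))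
              (-(P.r * P.s * S * (c : ℤ))) := by
        rw [RecChar_mul]
        apply RecChar_congr <;> push_cast <;> rw [hsz] <;> ring
      have E2 : RecChar_u D (-(P.r * P.s * ((c + 1 : ℕ) : ℤ) ^ 2)) (-(P.r * P.s * (S : ℤ) ^ 2))
          (-(P.r * P.s * S * ((c + 1 : ℕ) : ℤ))) * RecChar_u D (P.r * P.s) 0 0 *
          RecChar_u D (P.r * P.s * (c : ℤ) ^ 2 + 2 * P.r * c) (P.r * P.s * (S : ℤ) ^ 2)
            (P.r * S * (P.s * c + 1)) = RecChar_u D (-(2 * P.r * c)) 0 (-(P.r * S)) := by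
        rw [RecChar_mul, RecChar_mul]
        apply RecChar_congr <;> push_cast <;> rw [hsz] <;> ring
      have E3 : ((-1 : R) ^ c) * (-1) ^ c = 1 := by
        rw [← mul_pow]
        simp
      generalize RecChar_u D (-(P.r * P.s * ((c + 1 : ℕ) : ℤ) ^ 2)) (-(P.r * P.s * (S : ℤ) ^ 2))
          (-(P.r * P.s * S * ((c + 1 : ℕ) : ℤ))) = u1 at E1 E2 ⊢
      generalize RecChar_u D (-(P.r * P.s * (c : ℤ) ^ 2)) (-(P.r * P.s * (S : ℤ) ^ 2))
              (-(P.r * P.s * S * (c : ℤ))) = u2 at E1 E2 ih ⊢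
      generalize RecChar_u D (-(2 * P.r * (2 * c + 1))) 0 (-(2 * P.r * S)) = u3 at E1 ⊢
      generalize RecChar_u D (P.r * P.s) 0 0 = u4 at E2 ih ⊢
      generalize RecChar_u D (P.r * P.s * (c : ℤ) ^ 2 + 2 * P.r * c) (P.r * P.s * (S : ℤ) ^ 2)
            (P.r * S * (P.s * c + 1)) = u5 at E2 ⊢
      generalize RecChar_u D (-(2 * P.r * c)) 0 (-(P.r * S)) = u6 at E2 ⊢
      generalize ∑ k ∈ Finset.range c, (-1) ^ k * fp D J P.r P.s S P.κ k = s1 at ih ⊢
      generalize J P.κ (2 * S) (2 * c + 1) = j1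
      rw [pow_succ]
      generalize ((-1 : R) ^ c) = e at E3 ih ⊢
      linear_combination (-(e * (b S 0 - u4 * s1))) * E1 + j1 * E2 - u3 * ih +
        u1 * u4 * u5 * j1 * E3
  · have h2' := h2 hs
    induction c using Nat.strong_induction_on with
    | _ c ih =>
    match c, ih with
    | 0, _ =>
      unfold JP
      rw [if_neg hs, RecChar_hxt]
      show RecChar_u D _ _ _ * (b S 0 + _ * ∑ k ∈ Finset.range 0, _) = _
      rw [Finset.range_zero, Finset.sum_empty, mul_zero, add_zero, hb0, ← mul_assoc, RecChar_mul]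
      have : RecChar_u D (-(P.r * P.s * ((0 : ℕ) : ℤ) ^ 2) + P.r * P.s * ((0 : ℕ) : ℤ) ^ 2)
          (-(P.r * P.s * (S : ℤ) ^ 2) + P.r * P.s * (S : ℤ) ^ 2)
          (-(P.r * P.s * S * ((0 : ℕ) : ℤ)) + P.r * P.s * S * ((0 : ℕ) : ℤ)) = 1 := by
        rw [← RecChar_zero D]
        apply RecChar_congr <;> push_cast <;> ring
      rw [this, one_mul]
    | 1, _ =>
      unfold JP
      rw [if_neg hs, RecChar_hxt]
      show RecChar_u D _ _ _ * (b S 1 + _ * ∑ k ∈ Finset.range 0, _) = _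
      rw [Finset.range_zero, Finset.sum_empty, mul_zero, add_zero, hb1, ← mul_assoc, RecChar_mul]
      have : RecChar_u D (-(P.r * P.s * ((1 : ℕ) : ℤ) ^ 2) + P.r * P.s * ((1 : ℕ) : ℤ) ^ 2)
          (-(P.r * P.s * (S : ℤ) ^ 2) + P.r * P.s * (S : ℤ) ^ 2)
          (-(P.r * P.s * S * ((1 : ℕ) : ℤ)) + P.r * P.s * S * ((1 : ℕ) : ℤ)) = 1 := by
        rw [← RecChar_zero D]
        apply RecChar_congr <;> push_cast <;> ring
      rw [this, one_mul]
    | c + 2, ih =>
      have ih' := ih c (by omega)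
      have hY := h2' c
      rw [RecChar_tx, RecChar_tx, RecChar_tx] at hY
      unfold JP at ih' ⊢
      rw [if_neg hs, RecChar_hxt, RecChar_t] at ih' ⊢
      have hm : (c + 2) % 2 = c % 2 := by omega
      have hd : (c + 2) / 2 = c / 2 + 1 := by omega
      have hv : c % 2 + 1 + 2 * (c / 2) = c + 1 := by omega
      rw [hm, hd, Finset.sum_range_succ, hv]
      have hfp : fp D J P.r P.s S P.κ (c + 1) =
          RecChar_u D (P.r * P.s * ((c + 1 : ℕ) : ℤ) ^ 2 + 2 * P.r * ((c + 1 : ℕ) : ℤ))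
          (P.r * P.s * (S : ℤ) ^ 2) (P.r * S * (P.s * ((c + 1 : ℕ) : ℤ) + 1)) *
          J P.κ (P.s * S) (P.s * (c + 1) + 1) := rfl
      have hfm : fm D J P.r P.s S P.κ (c + 1) =
          RecChar_u D (P.r * P.s * ((c + 1 : ℕ) : ℤ) ^ 2 - 2 * P.r * ((c + 1 : ℕ) : ℤ))
          (P.r * P.s * (S : ℤ) ^ 2) (P.r * S * (P.s * ((c + 1 : ℕ) : ℤ) - 1)) *
          J P.κ (P.s * S) (P.s * (c + 1) - 1) := rfl
      rw [hfp, hfm, hY]
      have E1 : RecChar_u D (-(P.r * P.s * ((c + 2 : ℕ) : ℤ) ^ 2)) (-(P.r * P.s * (S : ℤ) ^ 2))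
          (-(P.r * P.s * S * ((c + 2 : ℕ) : ℤ))) =
          RecChar_u D (-(4 * P.r * P.s * (c + 1))) 0 (-(2 * P.r * P.s * S)) *
            RecChar_u D (-(P.r * P.s * (c : ℤ) ^ 2)) (-(P.r * P.s * (S : ℤ) ^ 2))
              (-(P.r * P.s * S * (c : ℤ))) := by
        rw [RecChar_mul]
        apply RecChar_congr <;> push_cast <;> ring
      have E2 : RecChar_u D (-(P.r * P.s * ((c + 2 : ℕ) : ℤ) ^ 2)) (-(P.r * P.s * (S : ℤ) ^ 2))
          (-(P.r * P.s * S * ((c + 2 : ℕ) : ℤ))) * RecChar_u D (P.r * P.s) 0 0 *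
          RecChar_u D (P.r * P.s * ((c + 1 : ℕ) : ℤ) ^ 2 + 2 * P.r * ((c + 1 : ℕ) : ℤ))
          (P.r * P.s * (S : ℤ) ^ 2) (P.r * S * (P.s * ((c + 1 : ℕ) : ℤ) + 1)) =
          RecChar_u D (-(2 * P.r * P.s * (c + 1)) + 2 * P.r * (c + 1)) 0
            (-(P.r * P.s * S) + P.r * S) := by
        rw [RecChar_mul, RecChar_mul]
        apply RecChar_congr <;> push_cast <;> ring
      have E3 : RecChar_u D (-(P.r * P.s * ((c + 2 : ℕ) : ℤ) ^ 2)) (-(P.r * P.s * (S : ℤ) ^ 2))
          (-(P.r * P.s * S * ((c + 2 : ℕ) : ℤ))) * RecChar_u D (P.r * P.s) 0 0 *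
          RecChar_u D (P.r * P.s * ((c + 1 : ℕ) : ℤ) ^ 2 - 2 * P.r * ((c + 1 : ℕ) : ℤ))
          (P.r * P.s * (S : ℤ) ^ 2) (P.r * S * (P.s * ((c + 1 : ℕ) : ℤ) - 1)) =
          RecChar_u D (-(2 * P.r * P.s * (c + 1)) - 2 * P.r * (c + 1)) 0
            (-(P.r * P.s * S) - P.r * S) := by
        rw [RecChar_mul, RecChar_mul]
        apply RecChar_congr <;> push_cast <;> ring
      generalize RecChar_u D (-(P.r * P.s * ((c + 2 : ℕ) : ℤ) ^ 2)) (-(P.r * P.s * (S : ℤ) ^ 2))
          (-(P.r * P.s * S * ((c + 2 : ℕ) : ℤ))) = u1 at E1 E2 E3 ⊢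
      generalize RecChar_u D (-(P.r * P.s * (c : ℤ) ^ 2)) (-(P.r * P.s * (S : ℤ) ^ 2))
              (-(P.r * P.s * S * (c : ℤ))) = u2 at E1 ih' ⊢
      generalize RecChar_u D (-(4 * P.r * P.s * (c + 1))) 0 (-(2 * P.r * P.s * S)) = u3 at E1 ⊢
      generalize RecChar_u D (P.r * P.s) 0 0 = u4 at E2 E3 ih' ⊢
      generalize RecChar_u D (P.r * P.s * ((c + 1 : ℕ) : ℤ) ^ 2 + 2 * P.r * ((c + 1 : ℕ) : ℤ))
          (P.r * P.s * (S : ℤ) ^ 2) (P.r * S * (P.s * ((c + 1 : ℕ) : ℤ) + 1)) = u5 at E2 ⊢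
      generalize RecChar_u D (P.r * P.s * ((c + 1 : ℕ) : ℤ) ^ 2 - 2 * P.r * ((c + 1 : ℕ) : ℤ))
          (P.r * P.s * (S : ℤ) ^ 2) (P.r * S * (P.s * ((c + 1 : ℕ) : ℤ) - 1)) = u6 at E3 ⊢
      generalize RecChar_u D (-(2 * P.r * P.s * (c + 1)) + 2 * P.r * (c + 1)) 0
            (-(P.r * P.s * S) + P.r * S) = u7 at E2 ⊢
      generalize RecChar_u D (-(2 * P.r * P.s * (c + 1)) - 2 * P.r * (c + 1)) 0
            (-(P.r * P.s * S) - P.r * S) = u8 at E3 ⊢
      generalize ∑ k ∈ Finset.range (c / 2), (fp D J P.r P.s S P.κ (c % 2 + 1 + 2 * k) -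
        fm D J P.r P.s S P.κ (c % 2 + 1 + 2 * k)) = s1 at ih' ⊢
      generalize J P.κ (P.s * S) (P.s * (c + 1) + 1) = j1
      generalize J P.κ (P.s * S) (P.s * (c + 1) - 1) = j2
      linear_combination (b S (c % 2) + u4 * s1) * E1 + j1 * E2 - j2 * E3 + u3 * ih'

end AJG

end

section

/-!
# MP_d3fa71_gt, item RecOne: the one step recurrence for `s = 2`
-/

namespace AJG

/-- The summand of `JhatP f r 2`. -/
noncomputable def RecOne_e (f : ℕ → FF) (r j : ℤ) : FF :=
  t ^ (2 * r * j ^ 2 + 2 * r * j) * (((2 * j + 1).sign : ℤ) : FF) * f (2 * j + 1).natAbs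

lemma RecOne_odd (f : ℕ → FF) (r j : ℤ) : RecOne_e f r (-1 - j) = -RecOne_e f r j := by
  unfold RecOne_e
  have h1 : 2 * r * (-1 - j) ^ 2 + 2 * r * (-1 - j) = 2 * r * j ^ 2 + 2 * r * j := by ring
  have h2 : 2 * (-1 - j) + 1 = -(2 * j + 1) := by ring
  rw [h1, h2, Int.sign_neg, Int.natAbs_neg]
  push_cast
  ring

lemma RecOne_eq (f : ℕ → FF) (r : ℤ) (n : ℕ) :
    JhatP f r 2 n = t ^ (2 * r * (1 - (n : ℤ) ^ 2)) *
      ∑ k ∈ Finset.range n, RecOne_e f r (2 * (k : ℤ) - n + 1) := by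
  unfold JhatP RecOne_e
  have h0 : r * ((2 : ℕ) : ℤ) * (1 - (n : ℤ) ^ 2) = 2 * r * (1 - (n : ℤ) ^ 2) := by
    push_cast
    ring
  rw [h0]
  refine congrArg _ (Finset.sum_congr rfl fun k _ => ?_)
  have h1 : r * ((2 : ℕ) : ℤ) * (2 * (k : ℤ) - n + 1) ^ 2 + 2 * r * (2 * (k : ℤ) - n + 1) =
      2 * r * (2 * (k : ℤ) - n + 1) ^ 2 + 2 * r * (2 * (k : ℤ) - n + 1) := by
    push_cast
    ring
  rw [h1]
  norm_num

lemma RecOne_top (f : ℕ → FF) (r : ℤ) (m : ℕ) :
    RecOne_e f r (m : ℤ) = t ^ (2 * r * (m : ℤ) ^ 2 + 2 * r * m) * f (2 * m + 1) := by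
  unfold RecOne_e
  have h1 : (2 * (m : ℤ) + 1).sign = 1 := Int.sign_eq_one_of_pos (by positivity)
  have h2 : (2 * (m : ℤ) + 1).natAbs = 2 * m + 1 := by omega
  rw [h1, h2]
  push_cast
  ring

lemma RecOne_sum (f : ℕ → FF) (r : ℤ) (m : ℕ) :
    ∑ k ∈ Finset.range (m + 1), RecOne_e f r (2 * (k : ℤ) - ((m + 1 : ℕ) : ℤ) + 1) =
      -(∑ k ∈ Finset.range m, RecOne_e f r (2 * (k : ℤ) - m + 1)) + RecOne_e f r (m : ℤ) := by
  rw [Finset.sum_range_succ]
  have h0 : 2 * (m : ℤ) - ((m + 1 : ℕ) : ℤ) + 1 = m := by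
    push_cast
    ring
  rw [h0]
  refine congrArg (fun x => x + RecOne_e f r (m : ℤ)) ?_
  rw [← Finset.sum_range_reflect, ← Finset.sum_neg_distrib]
  refine Finset.sum_congr rfl fun k hk => ?_
  have hk' : k < m := Finset.mem_range.1 hk
  rw [← RecOne_odd]
  refine congrArg _ ?_
  have h1 : ((m - 1 - k : ℕ) : ℤ) = m - 1 - k := by omega
  rw [h1]
  push_cast
  ring

theorem RecOne_proof : S_RecOne := by
  intro f r m
  rw [RecOne_eq, RecOne_eq, RecOne_sum, RecOne_top, mul_add, mul_neg]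
  have h1 : (t : FF) ^ (2 * r * (1 - ((m + 1 : ℕ) : ℤ) ^ 2)) =
      t ^ (-(2 * r * (2 * (m : ℤ) + 1))) * t ^ (2 * r * (1 - (m : ℤ) ^ 2)) := by
    rw [← zpow_add₀ t_ne]
    refine congrArg _ ?_
    push_cast
    ring
  have h2 : (t : FF) ^ (2 * r * (1 - ((m + 1 : ℕ) : ℤ) ^ 2)) *
      (t ^ (2 * r * (m : ℤ) ^ 2 + 2 * r * m) * f (2 * m + 1)) =
      t ^ (-(2 * r * (m : ℤ))) * f (2 * m + 1) := by
    rw [← mul_assoc, ← zpow_add₀ t_ne]
    refine congrArg (fun x => t ^ x * f (2 * m + 1)) ?_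
    push_cast
    ring
  rw [h2, h1]
  ring

end AJG

end

section

/-!
# MP_d3fa71_gt, item RecTwo: the two step recurrence of the cabling formula
-/

open Polynomial

namespace AJG

/-- the summand of the cabling formula -/
noncomputable def RecTwo_g (f : ℕ → FF) (r : ℤ) (s : ℕ) (j : ℤ) : FF :=
  t ^ (r * s * j ^ 2 + 2 * r * j) * (((s * j + 1).sign : ℤ) : FF) * f (s * j + 1).natAbs

theorem RecTwo_JhatP (f : ℕ → FF) (r : ℤ) (s n : ℕ) : JhatP f r s n =
    t ^ (r * s * (1 - (n : ℤ) ^ 2)) * ∑ k ∈ Finset.range n, RecTwo_g f r s (2 * (k : ℤ) - n + 1) :=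
  rfl

theorem RecTwo_pos (f : ℕ → FF) (r : ℤ) (s m : ℕ) : RecTwo_g f r s ((m : ℤ) + 1) =
    t ^ (r * s * ((m : ℤ) + 1) ^ 2 + 2 * r * (m + 1)) * f (s * (m + 1) + 1) := by
  have h1 : (s : ℤ) * ((m : ℤ) + 1) + 1 = ((s * (m + 1) + 1 : ℕ) : ℤ) := by push_cast; ring
  have h2 : ((s : ℤ) * ((m : ℤ) + 1) + 1).sign = 1 := by
    apply Int.sign_eq_one_of_pos
    rw [h1]
    exact_mod_cast Nat.succ_pos _
  rw [RecTwo_g, h2, h1, Int.natAbs_natCast]
  push_cast
  ring

theorem RecTwo_neg (f : ℕ → FF) (r : ℤ) (s m : ℕ) (hs : 2 ≤ s) :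
    RecTwo_g f r s (-((m : ℤ) + 1)) =
    -(t ^ (r * s * ((m : ℤ) + 1) ^ 2 - 2 * r * (m + 1)) * f (s * (m + 1) - 1)) := by
  have h0 : 2 ≤ s * (m + 1) := by nlinarith
  have h1 : (s : ℤ) * (-((m : ℤ) + 1)) + 1 = -((s * (m + 1) - 1 : ℕ) : ℤ) := by
    rw [Nat.cast_sub (by omega)]
    push_cast
    ring
  have h2 : ((s : ℤ) * (-((m : ℤ) + 1)) + 1).sign = -1 := by
    apply Int.sign_eq_neg_one_of_neg
    rw [h1]
    have : 0 < s * (m + 1) - 1 := by omega
    have : (0 : ℤ) < ((s * (m + 1) - 1 : ℕ) : ℤ) := by exact_mod_cast this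
    linarith
  rw [RecTwo_g, h2, h1, Int.natAbs_neg, Int.natAbs_natCast]
  have h3 : r * s * (-((m : ℤ) + 1)) ^ 2 + 2 * r * (-((m : ℤ) + 1)) =
      r * s * ((m : ℤ) + 1) ^ 2 - 2 * r * (m + 1) := by ring
  rw [h3]
  push_cast
  ring

theorem RecTwo_proof : S_RecTwo := by
  intro f r s hs m
  rw [RecTwo_JhatP, RecTwo_JhatP, Finset.sum_range_succ, Finset.sum_range_succ']
  have hmid : ∀ k : ℕ, RecTwo_g f r s (2 * ((k + 1 : ℕ) : ℤ) - ((m + 2 : ℕ) : ℤ) + 1) =
      RecTwo_g f r s (2 * (k : ℤ) - m + 1) := by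
    intro k
    congr 1
    push_cast
    ring
  have hlast : (2 * ((m + 1 : ℕ) : ℤ) - ((m + 2 : ℕ) : ℤ) + 1) = (m : ℤ) + 1 := by
    push_cast
    ring
  have hfirst : (2 * ((0 : ℕ) : ℤ) - ((m + 2 : ℕ) : ℤ) + 1) = -((m : ℤ) + 1) := by
    push_cast
    ring
  rw [hlast, hfirst, RecTwo_pos, RecTwo_neg f r s m hs, Finset.sum_congr rfl fun k _ => hmid k]
  have e1 : t ^ (r * s * (1 - ((m + 2 : ℕ) : ℤ) ^ 2)) =
      t ^ (-(4 * r * s * ((m : ℤ) + 1))) * t ^ (r * s * (1 - (m : ℤ) ^ 2)) := by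
    rw [← zpow_add₀ t_ne]
    congr 1
    push_cast
    ring
  have e2 : t ^ (r * s * (1 - ((m + 2 : ℕ) : ℤ) ^ 2)) *
      t ^ (r * s * ((m : ℤ) + 1) ^ 2 + 2 * r * (m + 1)) =
      t ^ (-(2 * r * s * ((m : ℤ) + 1))) * t ^ (2 * r * ((m : ℤ) + 1)) := by
    rw [← zpow_add₀ t_ne, ← zpow_add₀ t_ne]
    congr 1
    push_cast
    ring
  have e3 : t ^ (r * s * (1 - ((m + 2 : ℕ) : ℤ) ^ 2)) *
      t ^ (r * s * ((m : ℤ) + 1) ^ 2 - 2 * r * (m + 1)) =
      t ^ (-(2 * r * s * ((m : ℤ) + 1))) * t ^ (-(2 * r * ((m : ℤ) + 1))) := by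
    rw [← zpow_add₀ t_ne, ← zpow_add₀ t_ne]
    congr 1
    push_cast
    ring
  linear_combination (∑ k ∈ Finset.range m, RecTwo_g f r s (2 * (k : ℤ) - m + 1)) * e1 + f (s * (m + 1) + 1) * e2 - f (s * (m + 1) - 1) * e3

end AJG

end

section

/-!
# MP_d3fa71_gt: positivity and support of the label coefficients
-/

namespace AJG

open scoped Pointwise

/-- nonnegative coefficients with support `T` -/
def Supp_Good (f : MonoidAlgebra ℝ ZZ) (T : Finset ZZ) : Prop :=
  (∀ z, 0 ≤ f.coeff z) ∧ ∀ z, f.coeff z ≠ 0 ↔ z ∈ T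

theorem Supp_pos {f : MonoidAlgebra ℝ ZZ} {T : Finset ZZ} (h : Supp_Good f T) (z : ZZ) :
    0 < f.coeff z ↔ z ∈ T := by
  rw [← h.2 z]
  exact ⟨fun h1 => h1.ne', fun h1 => lt_of_le_of_ne (h.1 z) h1.symm⟩

theorem Supp_mk {f : MonoidAlgebra ℝ ZZ} {T : Finset ZZ} (h0 : ∀ z, 0 ≤ f.coeff z)
    (h1 : ∀ z, 0 < f.coeff z ↔ z ∈ T) : Supp_Good f T :=
  ⟨h0, fun z => by
    rw [← h1 z]
    exact ⟨fun h2 => lt_of_le_of_ne (h0 z) h2.symm, fun h2 => h2.ne'⟩⟩

theorem Supp_single (a : ZZ) {r : ℝ} (hr : 0 < r) : Supp_Good (MonoidAlgebra.single a r) {a} := by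
  have h : ∀ z, (MonoidAlgebra.single a r : MonoidAlgebra ℝ ZZ).coeff z = if a = z then r else 0 := by
    intro z
    rw [MonoidAlgebra.coeff_single, Finsupp.single_apply]
  constructor
  · intro z
    rw [h]
    split_ifs
    · exact hr.le
    · exact le_rfl
  · intro z
    rw [h, Finset.mem_singleton]
    split_ifs with h1
    · exact ⟨fun _ => h1.symm, fun _ => hr.ne'⟩
    · exact ⟨fun h2 => absurd rfl h2, fun h2 => absurd h2.symm h1⟩

theorem Supp_add {f g : MonoidAlgebra ℝ ZZ} {T U : Finset ZZ} (hf : Supp_Good f T)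
    (hg : Supp_Good g U) : Supp_Good (f + g) (T ∪ U) := by
  refine Supp_mk ?_ ?_
  · intro z
    rw [MonoidAlgebra.coeff_add, Finsupp.add_apply]
    exact add_nonneg (hf.1 z) (hg.1 z)
  · intro z
    rw [MonoidAlgebra.coeff_add, Finsupp.add_apply, Finset.mem_union, ← Supp_pos hf, ← Supp_pos hg]
    have h1 := hf.1 z
    have h2 := hg.1 z
    constructor
    · intro h
      by_contra h3
      push Not at h3
      linarith [h3.1, h3.2]
    · rintro (h | h) <;> linarith

theorem Supp_zero : Supp_Good 0 ∅ := by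
  constructor
  · intro z
    simp
  · intro z
    simp

theorem Supp_finsum {ι : Type*} [DecidableEq ι] (s : Finset ι) (f : ι → MonoidAlgebra ℝ ZZ)
    (T : ι → Finset ZZ) (h : ∀ i ∈ s, Supp_Good (f i) (T i)) :
    Supp_Good (∑ i ∈ s, f i) (s.biUnion T) := by
  induction s using Finset.induction_on with
  | empty => simpa using Supp_zero
  | insert a s ha ih =>
    rw [Finset.sum_insert ha, Finset.biUnion_insert]
    exact Supp_add (h a (Finset.mem_insert_self a s))
      (ih fun i hi => h i (Finset.mem_insert_of_mem hi))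

theorem Supp_supp {f : MonoidAlgebra ℝ ZZ} {T : Finset ZZ} (h : Supp_Good f T) :
    f.coeff.support = T := by
  ext z
  rw [Finsupp.mem_support_iff, h.2 z]

theorem Supp_push {f : MonoidAlgebra ℝ ZZ} {T : Finset ZZ} (h : Supp_Good f T) (φ : ZZ → ZZ)
    (w : ZZ → ℝ) (hw : ∀ z, 0 < w z) :
    Supp_Good (f.coeff.sum fun z a => MonoidAlgebra.single (φ z) (a * w z)) (T.image φ) := by
  have h1 := Supp_finsum T (fun z => MonoidAlgebra.single (φ z) (f.coeff z * w z))
    (fun z => {φ z}) (fun z hz => Supp_single (φ z) (mul_pos ((Supp_pos h z).2 hz) (hw z)))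
  have h2 : (T.biUnion fun z => {φ z}) = T.image φ := by
    ext z
    simp [eq_comm]
  rw [h2] at h1
  rw [Finsupp.sum, Supp_supp h]
  exact h1

theorem Supp_eq_sum {f : MonoidAlgebra ℝ ZZ} {T : Finset ZZ} (h : Supp_Good f T) :
    f = ∑ z ∈ T, MonoidAlgebra.single z (f.coeff z) := by
  apply MonoidAlgebra.coeff_injective
  rw [MonoidAlgebra.coeff_sum]
  simp only [MonoidAlgebra.coeff_single]
  rw [← Supp_supp h]
  exact (Finsupp.sum_single f.coeff).symm

theorem Supp_mul {f g : MonoidAlgebra ℝ ZZ} {T U : Finset ZZ} (hf : Supp_Good f T)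
    (hg : Supp_Good g U) : Supp_Good (f * g) (T * U) := by
  have h1 : f * g = ∑ z ∈ T, ∑ y ∈ U, MonoidAlgebra.single (z * y) (f.coeff z * g.coeff y) := by
    conv_lhs => rw [Supp_eq_sum hf, Supp_eq_sum hg]
    rw [Finset.sum_mul_sum]
    simp only [MonoidAlgebra.single_mul_single]
  have h2 := Supp_finsum T
    (fun z => ∑ y ∈ U, MonoidAlgebra.single (z * y) (f.coeff z * g.coeff y))
    (fun z => U.biUnion fun y => {z * y}) (fun z hz => Supp_finsum U _ _ fun y hy =>
      Supp_single (z * y) (mul_pos ((Supp_pos hf z).2 hz) ((Supp_pos hg y).2 hy)))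
  rw [h1]
  have h3 : (T.biUnion fun z => U.biUnion fun y => {z * y}) = T * U := by
    ext z
    simp only [Finset.mem_biUnion, Finset.mem_singleton, Finset.mem_mul]
    constructor
    · rintro ⟨a, ha, b, hb, h⟩
      exact ⟨a, ha, b, hb, h.symm⟩
    · rintro ⟨a, ha, b, hb, h⟩
      exact ⟨a, ha, b, hb, h.symm⟩
  rw [h3] at h2
  exact h2

theorem Supp_one : Supp_Good 1 1 := by
  have h := Supp_single (1 : ZZ) (one_pos (α := ℝ))
  rwa [← MonoidAlgebra.one_def] at h

theorem Supp_scale {f : MonoidAlgebra ℝ ZZ} {T : Finset ZZ} (h : Supp_Good f T) {r : ℝ}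
    (hr : 0 < r) : Supp_Good (MonoidAlgebra.single 1 r * f) T := by
  have h1 := Supp_mul (Supp_single (1 : ZZ) hr) h
  have h2 : ({1} : Finset ZZ) * T = T := by
    rw [Finset.singleton_one, one_mul]
  rwa [h2] at h1

theorem Supp_prod {ι : Type*} (M : Multiset ι) (f : ι → MonoidAlgebra ℝ ZZ)
    (T : ι → Finset ZZ) (h : ∀ i, Supp_Good (f i) (T i)) :
    Supp_Good (M.map f).prod (M.map T).prod := by
  induction M using Multiset.induction_on with
  | empty => simpa using Supp_one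
  | cons a M ih =>
    rw [Multiset.map_cons, Multiset.prod_cons, Multiset.map_cons, Multiset.prod_cons]
    exact Supp_mul (h a) ih

theorem Supp_br {τ : ℝ} (hτ : 1 < τ) (m : ℤ) (hm : 0 < m) : 0 < τ ^ m - τ ^ (-m) := by
  have h1 : 1 < τ ^ m := one_lt_zpow₀ hτ hm
  have h2 : τ ^ (-m) < 1 := by
    rw [zpow_neg]
    exact inv_lt_one_of_one_lt₀ h1
  linarith

theorem Supp_wt {τ : ℝ} (hτ : 1 < τ) (m : ℤ) (hm : m ≠ 0) (s : ℕ) (hs : 0 < s) :
    0 < (τ ^ m - τ ^ (-m)) / (τ ^ (m * s) - τ ^ (-(m * s))) := by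
  have hs' : (0 : ℤ) < s := by exact_mod_cast hs
  rcases lt_or_gt_of_ne hm with h | h
  · have h1 := Supp_br hτ (-m) (by omega)
    have h2 := Supp_br hτ (-(m * s)) (by nlinarith)
    rw [neg_neg] at h1 h2
    have h3 : (τ ^ m - τ ^ (-m)) / (τ ^ (m * s) - τ ^ (-(m * s))) =
        (τ ^ (-m) - τ ^ m) / (τ ^ (-(m * s)) - τ ^ (m * s)) := by
      rw [← neg_div_neg_eq, neg_sub, neg_sub]
    rw [h3]
    exact div_pos h1 h2
  · exact div_pos (Supp_br hτ m h) (Supp_br hτ (m * s) (by positivity))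

theorem Supp_ne {L : Lv} (P : PT L) (l : ℤ) : P.r + l * P.s ≠ 0 := by
  intro h
  obtain ⟨a, b, hab⟩ := P.hco
  have h1 : (P.s : ℤ) * (b - a * l) = 1 := by
    have : P.r = -(l * P.s) := by linarith
    rw [this] at hab
    linarith
  have h2 := P.hs
  have h3 := Int.eq_one_or_neg_one_of_mul_eq_one h1
  omega

theorem Supp_cfP {L : Lv} {τ : ℝ} (hτ : 1 < τ) (cf : L.K → ℕ → MonoidAlgebra ℝ ZZ)
    (lab : L.K → Finset ZZ) (h : ∀ κ S, 0 < S → Supp_Good (cf κ S) (lab κ)) (P : PT L) (S : ℕ)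
    (hS : 0 < S) : Supp_Good (cfP τ cf P S) (labP lab P) := by
  unfold cfP labP
  refine Supp_add ?_ ?_
  · split_ifs with h2
    · exact Supp_single _ one_pos
    · exact Supp_add (Supp_single _ one_pos) (Supp_single _ one_pos)
  · refine Supp_push (h P.κ (P.s * S) (Nat.mul_pos (by have := P.hs; omega) hS)) _ _ ?_
    intro z
    refine Supp_wt hτ _ (mul_ne_zero (by exact_mod_cast hS.ne') (Supp_ne P _)) P.s ?_
    have := P.hs
    omega

theorem Supp_brp {τ : ℝ} (hτ : 1 < τ) (S : ℕ) (hS : 0 < S) : 0 < τ ^ S - (τ ^ S)⁻¹ := by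
  have h1 : 1 < τ ^ S := one_lt_pow₀ hτ hS.ne'
  have h2 : (τ ^ S)⁻¹ < 1 := inv_lt_one_of_one_lt₀ h1
  linarith

theorem Supp_good {τ : ℝ} (hτ : 1 < τ) : ∀ (ℓ : ℕ) (κ : (lv ℓ).K) (S : ℕ), 0 < S →
    Supp_Good (cfl τ ℓ κ S) (labl ℓ κ)
  | 0, κ, S, hS => Supp_single 1 (Supp_brp hτ S hS)
  | ℓ + 1, κ, S, hS => by
    change Supp_Good (nextcf (L := lv ℓ) τ (cfl τ ℓ) κ S) (nextlab (L := lv ℓ) (labl ℓ) κ)
    unfold nextcf nextlab
    refine Supp_mul (Supp_good hτ ℓ κ.1 S hS) (Supp_prod _ _ _ fun P => ?_)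
    exact Supp_scale (Supp_cfP hτ _ _ (Supp_good hτ ℓ) P S hS) (inv_pos.2 (Supp_brp hτ S hS))

theorem Supp_proof : S_Supp := fun _ hτ ℓ κ S hS => Supp_good hτ ℓ κ S hS

end AJG

end

section

/-! Item Tower: induction over the levels. -/

set_option autoImplicit false

namespace AJG

theorem Tower_proof (h1 : S_CoreBase) (h2 : S_CoreNext) (h3 : S_GBase) (h4 : S_GNext)
    (h5 : S_OBase) (h6 : S_ONext) : S_Tower := by
  intro ℓ
  induction ℓ with
  | zero => exact ⟨A0, inferInstance, inferInstance, D0, s0, J0, h1, h3, h5⟩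
  | succ ℓ ih =>
    obtain ⟨A, iA, iAlg, D, σ, J, hc, ⟨Ψ, hΨ⟩, hO⟩ := ih
    refine ⟨MvPolynomial (Var (lv ℓ)) A, inferInstance, inferInstance, nextD (L := lv ℓ) D,
      sext σ (gvar D J), extJ D J, h2 (lv ℓ) A D σ J hc, h4 (lv ℓ) (Jh ℓ) A D σ J Ψ hc hΨ,
      h6 (lv ℓ) (fun τ => cfl τ ℓ) A D J hO⟩

end AJG

end

section

/-!
# MP_d3fa71_gt: descent from `ℚ(t, M)` to `ℚ(q, Q)`
-/

open Polynomial

namespace AJG

/-! ### Clearing denominators -/

/-- every element of the target has a multiple in the image -/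
def Desc_Clr {R S : Type} [CommRing R] [CommRing S] (φ : R →+* S) : Prop :=
  ∀ s : S, ∃ N : ℕ, N ≠ 0 ∧ ∃ r, φ r = (N : S) * s

theorem Desc_clr_rat : Desc_Clr (Int.castRingHom ℚ) := by
  intro s
  refine ⟨s.den, s.den_nz, s.num, ?_⟩
  rw [mul_comm]
  exact (Rat.mul_den_eq_num s).symm

theorem Desc_clr_map {R S : Type} [CommRing R] [CommRing S] {φ : R →+* S} (h : Desc_Clr φ) :
    Desc_Clr (mapRingHom φ) := by
  intro s
  induction s using Polynomial.induction_on' with
  | add p q hp hq =>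
    obtain ⟨N, hN, r, hr⟩ := hp
    obtain ⟨N', hN', r', hr'⟩ := hq
    refine ⟨N * N', mul_ne_zero hN hN', (N' : R[X]) * r + (N : R[X]) * r', ?_⟩
    rw [map_add, map_mul, map_mul, map_natCast, map_natCast, hr, hr']
    push_cast
    ring
  | monomial n a =>
    obtain ⟨N, hN, r, hr⟩ := h a
    refine ⟨N, hN, monomial n r, ?_⟩
    rw [coe_mapRingHom, map_monomial, hr]
    rw [← C_eq_natCast, C_mul_monomial]

/-! ### Decomposition modulo `m` -/

/-- the coefficients with index `≡ k` modulo `m` -/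
noncomputable def Desc_dec {R : Type} [CommRing R] (m k : ℕ) (p : R[X]) : R[X] :=
  ∑ i ∈ Finset.range (p.natDegree + 1), monomial i (p.coeff (m * i + k))

theorem Desc_coeff_dec {R : Type} [CommRing R] {m : ℕ} (hm : 0 < m) (k : ℕ) (p : R[X]) (i : ℕ) :
    (Desc_dec m k p).coeff i = p.coeff (m * i + k) := by
  unfold Desc_dec
  rw [finsetSum_coeff]
  simp only [coeff_monomial]
  rw [Finset.sum_ite_eq' (Finset.range (p.natDegree + 1)) i]
  split_ifs with h
  · rfl
  · rw [Finset.mem_range] at h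
    push Not at h
    rw [coeff_eq_zero_of_natDegree_lt]
    nlinarith

theorem Desc_decomp {R : Type} [CommRing R] {m : ℕ} (hm : 0 < m) (p : R[X]) :
    p = ∑ k ∈ Finset.range m, X ^ k * expand R m (Desc_dec m k p) := by
  ext n
  rw [finsetSum_coeff]
  rw [Finset.sum_eq_single (n % m)]
  · rw [coeff_X_pow_mul', if_pos (Nat.mod_le _ _), coeff_expand hm, if_pos (Nat.dvd_sub_mod n),
      Desc_coeff_dec hm]
    congr 1
    have h1 := Nat.div_add_mod n m
    have h2 : (n - n % m) / m = n / m := by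
      have : n - n % m = m * (n / m) := by omega
      rw [this, Nat.mul_div_cancel_left _ hm]
    rw [h2, h1]
  · intro k hk hne
    rw [coeff_X_pow_mul']
    split_ifs with h
    · rw [coeff_expand hm, if_neg]
      intro hd
      apply hne
      rw [Finset.mem_range] at hk
      have h3 := (Nat.modEq_iff_dvd' h).mpr hd
      have h4 : k % m = n % m := h3
      rw [Nat.mod_eq_of_lt hk] at h4
      exact h4
    · rfl
  · intro h
    exact absurd (Finset.mem_range.mpr (Nat.mod_lt _ hm)) h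

theorem Desc_eval {R S : Type} [CommRing R] [CommRing S] (φ : R →+* S) (x : S) {m : ℕ}
    (hm : 0 < m) (p : R[X]) :
    eval₂ φ x p = ∑ k ∈ Finset.range m, x ^ k * eval₂ φ (x ^ m) (Desc_dec m k p) := by
  conv_lhs => rw [Desc_decomp hm p]
  rw [eval₂_finsetSum]
  refine Finset.sum_congr rfl fun k _ => ?_
  rw [eval₂_mul, eval₂_X_pow, eval₂_eq_eval_map (f := φ) (x := x), map_expand, expand_eval,
    eval₂_eq_eval_map]

/-! ### The field `ℚ(t)` over `ℚ(t⁴)` -/

theorem Desc_q4_alg (P : ℚ[X]) : q4 (algebraMap ℚ[X] FF P) = algebraMap ℚ[X] FF (expand ℚ 4 P) := by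
  unfold q4
  have h := RatFunc.map_apply_div_ne_zero (R := ℚ) (F := ℚ[X] →+* ℚ[X])
    ((Polynomial.expand ℚ 4 : ℚ[X] →ₐ[ℚ] ℚ[X]) : ℚ[X] →+* ℚ[X]) (by
    intro p hp
    rw [Submonoid.mem_comap]
    refine mem_nonZeroDivisors_of_ne_zero ?_
    have hp0 : p ≠ 0 := nonZeroDivisors.ne_zero hp
    exact (Polynomial.expand_ne_zero (by norm_num)).2 hp0) P 1 one_ne_zero
  simp only [map_one, div_one] at h
  exact h

theorem Desc_q4_t : q4 t = t ^ 4 := by
  have h := Desc_q4_alg X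
  rw [expand_X, RatFunc.algebraMap_X, map_pow, RatFunc.algebraMap_X] at h
  exact h

/-- `1, t, t², t³` are linearly independent over the image of `q4` -/
theorem Desc_indep (g : ℕ → FF) (h : ∑ k ∈ Finset.range 4, t ^ k * q4 (g k) = 0) :
    ∀ k < 4, g k = 0 := by
  obtain ⟨⟨D, hD⟩, hb⟩ := IsLocalization.exist_integer_multiples (nonZeroDivisors ℚ[X])
    (Finset.range 4) g
  have hD0 : D ≠ 0 := nonZeroDivisors.ne_zero hD
  have hb' : ∀ k, ∃ P : ℚ[X], k ∈ Finset.range 4 → algebraMap ℚ[X] FF P = algebraMap ℚ[X] FF D * g k := by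
    intro k
    by_cases hk : k ∈ Finset.range 4
    · obtain ⟨P, hP⟩ := hb k hk
      refine ⟨P, fun _ => ?_⟩
      rw [hP, ← Algebra.smul_def]
    · exact ⟨0, fun h => absurd h hk⟩
  choose P hP using hb'
  have h1 : ∑ k ∈ Finset.range 4, (X : ℚ[X]) ^ k * expand ℚ 4 (P k) = 0 := by
    apply RatFunc.algebraMap_injective ℚ
    rw [map_sum, map_zero]
    have h2 : ∑ k ∈ Finset.range 4, algebraMap ℚ[X] FF ((X : ℚ[X]) ^ k * expand ℚ 4 (P k)) =
        q4 (algebraMap ℚ[X] FF D) * ∑ k ∈ Finset.range 4, t ^ k * q4 (g k) := by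
      rw [Finset.mul_sum]
      refine Finset.sum_congr rfl fun k hk => ?_
      rw [map_mul, map_pow, RatFunc.algebraMap_X, ← Desc_q4_alg, hP k hk, map_mul]
      unfold t
      ring
    rw [h2, h, mul_zero]
  intro k hk
  have h3 : P k = 0 := by
    ext i
    have h4 := congrArg (fun p => p.coeff (4 * i + k)) h1
    simp only [finsetSum_coeff, coeff_zero] at h4
    rw [Finset.sum_eq_single k] at h4
    · rw [coeff_X_pow_mul', if_pos (by omega), coeff_expand (by norm_num),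
        if_pos ⟨i, by omega⟩] at h4
      have h5 : (4 * i + k - k) / 4 = i := by omega
      rw [h5] at h4
      rw [h4, coeff_zero]
    · intro k' hk' hne
      rw [Finset.mem_range] at hk'
      rw [coeff_X_pow_mul']
      split_ifs with h6
      · rw [coeff_expand (by norm_num), if_neg]
        rintro ⟨c, hc⟩
        omega
      · rfl
    · intro h6
      exact absurd (Finset.mem_range.mpr hk) h6
  have h7 := hP k (Finset.mem_range.mpr hk)
  rw [h3, map_zero] at h7
  rcases mul_eq_zero.mp h7.symm with h8 | h8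
  · exact absurd ((map_eq_zero_iff _ (RatFunc.algebraMap_injective ℚ)).mp h8) hD0
  · exact h8

/-! ### The components of a coefficient -/

/-- evaluation `t ↦ t`, `M ↦ x` -/
noncomputable def Desc_phi : ℚ[X] →+* FF := eval₂RingHom (algebraMap ℚ FF) t

/-- the component `(k, l)` of an element of `ℚ[t][M]`: coefficients of `t^{4 i + k} M^{2 i' + l}` -/
noncomputable def Desc_cmp (k l : ℕ) (p : Pl) : Pl :=
  ∑ i ∈ Finset.range (p.natDegree + 1), monomial i (Desc_dec 4 k (p.coeff (2 * i + l)))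

theorem Desc_coeff_cmp (k l : ℕ) (p : Pl) (i : ℕ) :
    (Desc_cmp k l p).coeff i = Desc_dec 4 k (p.coeff (2 * i + l)) := by
  unfold Desc_cmp
  rw [finsetSum_coeff]
  simp only [coeff_monomial]
  rw [Finset.sum_ite_eq' (Finset.range (p.natDegree + 1)) i]
  split_ifs with h
  · rfl
  · rw [Finset.mem_range] at h
    push Not at h
    have h1 : p.coeff (2 * i + l) = 0 := by
      rw [coeff_eq_zero_of_natDegree_lt]
      omega
    rw [h1]
    ext j
    rw [Desc_coeff_dec (by norm_num), coeff_zero, coeff_zero]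

theorem Desc_evPl (n : ℕ) (η : ℤˣ) (p : Pl) :
    evPl n η p = ∑ l ∈ Finset.range 2, (((η : ℤ) : FF) * t ^ (2 * n)) ^ l *
      ∑ k ∈ Finset.range 4, t ^ k * q4 (eval₂ Desc_phi (t ^ n) (Desc_cmp k l p)) := by
  unfold evPl
  rw [coe_eval₂RingHom, Desc_eval _ _ (m := 2) (by norm_num)]
  refine Finset.sum_congr rfl fun l _ => ?_
  congr 1
  have h1 : (((η : ℤ) : FF) * t ^ (2 * n)) ^ 2 = t ^ (4 * n) := by
    rw [mul_pow]
    have : (((η : ℤ) : FF)) ^ 2 = 1 := by
      rcases Int.units_eq_one_or η with rfl | rfl <;> simp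
    rw [this, one_mul, ← pow_mul]
    congr 1
    ring
  rw [h1]
  have h2 : ∀ c : ℚ[X], eval₂ (algebraMap ℚ FF) t c =
      ∑ k ∈ Finset.range 4, t ^ k * q4 (Desc_phi (Desc_dec 4 k c)) := by
    intro c
    rw [Desc_eval _ _ (m := 4) (by norm_num)]
    refine Finset.sum_congr rfl fun k _ => ?_
    congr 1
    unfold Desc_phi
    rw [coe_eval₂RingHom, hom_eval₂, Desc_q4_t]
    congr 1
    ext q
    simp
  have h3 : (Desc_dec 2 l p).natDegree < p.natDegree + 1 := by
    rw [Nat.lt_succ_iff, natDegree_le_iff_coeff_eq_zero]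
    intro N hN
    rw [Desc_coeff_dec (by norm_num), coeff_eq_zero_of_natDegree_lt]
    omega
  have h4 : ∀ k, (Desc_cmp k l p).natDegree < p.natDegree + 1 := by
    intro k
    rw [Nat.lt_succ_iff, natDegree_le_iff_coeff_eq_zero]
    intro N hN
    rw [Desc_coeff_cmp, coeff_eq_zero_of_natDegree_lt (by omega)]
    ext j
    rw [Desc_coeff_dec (by norm_num), coeff_zero, coeff_zero]
  rw [eval₂_eq_sum_range' _ h3]
  have h5 : ∀ k, q4 (eval₂ Desc_phi (t ^ n) (Desc_cmp k l p)) =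
      ∑ i ∈ Finset.range (p.natDegree + 1),
        q4 (Desc_phi (Desc_dec 4 k (p.coeff (2 * i + l)))) * (t ^ (4 * n)) ^ i := by
    intro k
    rw [eval₂_eq_sum_range' _ (h4 k), map_sum]
    refine Finset.sum_congr rfl fun i _ => ?_
    rw [map_mul, map_pow, map_pow, Desc_q4_t, Desc_coeff_cmp, ← pow_mul t 4 n]
  simp only [h5, Finset.mul_sum]
  rw [Finset.sum_comm]
  refine Finset.sum_congr rfl fun i _ => ?_
  rw [Desc_coeff_dec (by norm_num), coe_eval₂RingHom, h2, Finset.sum_mul]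
  refine Finset.sum_congr rfl fun k _ => ?_
  ring

/-- a non-zero element has a non-zero component -/
theorem Desc_cmp_ne {p : Pl} (hp : p ≠ 0) : ∃ k < 4, ∃ l < 2, Desc_cmp k l p ≠ 0 := by
  by_contra hc
  push Not at hc
  apply hp
  ext j i
  have h1 := hc (i % 4) (Nat.mod_lt _ (by norm_num)) (j % 2) (Nat.mod_lt _ (by norm_num))
  have h2 := congrArg (fun q : Pl => (q.coeff (j / 2)).coeff (i / 4)) h1
  simp only [Desc_coeff_cmp, coeff_zero] at h2
  rw [Desc_coeff_dec (by norm_num)] at h2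
  rw [Nat.div_add_mod, Nat.div_add_mod] at h2
  rw [h2, coeff_zero, coeff_zero]

/-! ### Vanishing of the components -/

theorem Desc_vanish (f' : ℕ → FF) (β : Polynomial Pl) (n : ℕ)
    (h : ∀ η : ℤˣ, ∑ j ∈ Finset.range (β.natDegree + 1), evPl n η (β.coeff j) * q4 (f' (n + j)) = 0) :
    ∀ k < 4, ∀ l < 2, ∑ j ∈ Finset.range (β.natDegree + 1),
      eval₂ Desc_phi (t ^ n) (Desc_cmp k l (β.coeff j)) * f' (n + j) = 0 := by
  -- the components
  set V : ℕ → ℕ → FF := fun k l => ∑ j ∈ Finset.range (β.natDegree + 1),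
      eval₂ Desc_phi (t ^ n) (Desc_cmp k l (β.coeff j)) * f' (n + j) with hV
  have h1 : ∀ η : ℤˣ, ∑ l ∈ Finset.range 2, (((η : ℤ) : FF) * t ^ (2 * n)) ^ l *
      ∑ k ∈ Finset.range 4, t ^ k * q4 (V k l) = 0 := by
    intro η
    have e1 : ∑ j ∈ Finset.range (β.natDegree + 1), evPl n η (β.coeff j) * q4 (f' (n + j)) =
        ∑ j ∈ Finset.range (β.natDegree + 1), ∑ l ∈ Finset.range 2, ∑ k ∈ Finset.range 4,
          (((η : ℤ) : FF) * t ^ (2 * n)) ^ l * (t ^ k *
            (q4 (eval₂ Desc_phi (t ^ n) (Desc_cmp k l (β.coeff j))) * q4 (f' (n + j)))) := by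
      refine Finset.sum_congr rfl fun j _ => ?_
      rw [Desc_evPl, Finset.sum_mul]
      refine Finset.sum_congr rfl fun l _ => ?_
      rw [Finset.mul_sum, Finset.sum_mul]
      refine Finset.sum_congr rfl fun k _ => ?_
      ring
    rw [← h η, e1, Finset.sum_comm]
    refine Finset.sum_congr rfl fun l _ => ?_
    rw [Finset.sum_comm, Finset.mul_sum]
    refine Finset.sum_congr rfl fun k _ => ?_
    rw [hV, map_sum, Finset.mul_sum, Finset.mul_sum]
    refine Finset.sum_congr rfl fun j _ => ?_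
    rw [map_mul]
  have ht : (t : FF) ≠ 0 := RatFunc.X_ne_zero
  have h2 := h1 1
  have h3 := h1 (-1)
  rw [Finset.sum_range_succ, Finset.sum_range_succ, Finset.sum_range_zero] at h2 h3
  simp only [Units.val_one, Units.val_neg, Int.cast_one, Int.cast_neg, pow_zero, pow_one, one_mul,
    zero_add, neg_mul] at h2 h3
  set U0 := ∑ k ∈ Finset.range 4, t ^ k * q4 (V k 0) with hU0
  set U1 := ∑ k ∈ Finset.range 4, t ^ k * q4 (V k 1) with hU1
  have h4 : U0 = 0 := by
    have : (2 : FF) * U0 = 0 := by linear_combination h2 + h3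
    rcases mul_eq_zero.mp this with h5 | h5
    · exact absurd h5 two_ne_zero
    · exact h5
  have h5 : U1 = 0 := by
    rw [h4, zero_add] at h2
    rcases mul_eq_zero.mp h2 with h6 | h6
    · exact absurd h6 (pow_ne_zero _ ht)
    · exact h6
  intro k hk l hl
  have h6 := Desc_indep (fun k => V k 0) (by rw [← hU0]; exact h4) k hk
  have h7 := Desc_indep (fun k => V k 1) (by rw [← hU1]; exact h5) k hk
  interval_cases l
  · exact h6
  · exact h7

/-! ### Passage to `ℤ[q^{±1}, Q^{±1}]` -/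

/-- `ℤ[q][Q] → ℤ[q^{±1}, Q^{±1}]` -/
noncomputable def Desc_toR2 : ℤ[X][X] →+* R2 :=
  (Polynomial.toLaurent (R := LaurentPolynomial ℤ)).comp (mapRingHom (Polynomial.toLaurent (R := ℤ)))

theorem Desc_toR2_inj : Function.Injective Desc_toR2 := by
  unfold Desc_toR2
  rw [RingHom.coe_comp]
  exact Polynomial.toLaurent_injective.comp (Polynomial.map_injective _ Polynomial.toLaurent_injective)

theorem Desc_ev_toR2 (n : ℕ) (b : ℤ[X][X]) :
    ev n (Desc_toR2 b) = q4 (eval₂ Desc_phi (t ^ n) (mapRingHom (mapRingHom (Int.castRingHom ℚ)) b)) := by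
  have h : (ev n).comp Desc_toR2 = (q4.comp (eval₂RingHom Desc_phi (t ^ n))).comp
      (mapRingHom (mapRingHom (Int.castRingHom ℚ))) := by
    refine Polynomial.ringHom_ext' ?_ ?_
    · refine Polynomial.ringHom_ext' ?_ ?_
      · exact RingHom.ext_int _ _
      · simp only [RingHom.comp_apply, Desc_toR2, coe_mapRingHom, map_C, map_X, toLaurent_C,
          toLaurent_X, coe_eval₂RingHom, eval₂_C, ev, evq, Desc_phi, eval₂_X,
          LaurentPolynomial.eval₂_C, LaurentPolynomial.eval₂_T, Desc_q4_t]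
        simp
    · simp only [RingHom.comp_apply, Desc_toR2, coe_mapRingHom, map_X, toLaurent_X,
        coe_eval₂RingHom, ev, eval₂_X, LaurentPolynomial.eval₂_T, map_pow, Desc_q4_t]
      simp [pow_mul]
  exact congrArg (fun φ : ℤ[X][X] →+* FF => φ b) h

/-- the factor `Q - q ^ i` -/
noncomputable def Desc_fac (i : ℕ) : R2 :=
  LaurentPolynomial.T 1 - LaurentPolynomial.C (LaurentPolynomial.T (i : ℤ))

theorem Desc_ev_fac (n i : ℕ) : ev n (Desc_fac i) = t ^ (4 * n) - t ^ (4 * i) := by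
  unfold Desc_fac ev evq
  rw [map_sub, LaurentPolynomial.eval₂_T, LaurentPolynomial.eval₂_C, LaurentPolynomial.eval₂_T]
  simp [pow_mul]

theorem Desc_t_pow {a b : ℕ} (h : (t : FF) ^ a = t ^ b) : a = b := by
  unfold t at h
  rw [← RatFunc.algebraMap_X, ← map_pow, ← map_pow] at h
  have h1 := congrArg Polynomial.natDegree (RatFunc.algebraMap_injective ℚ h)
  simpa using h1

theorem Desc_fac_ne (i : ℕ) : Desc_fac i ≠ 0 := by
  intro h
  have h1 := Desc_ev_fac (i + 1) i
  rw [h, map_zero] at h1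
  have h2 := Desc_t_pow (sub_eq_zero.mp h1.symm)
  omega

theorem Desc_proof : S_Desc := by
  intro f hf β hβ ⟨n0, hn0⟩
  choose f' hf' using hf
  have hβj : ∃ j, β.coeff j ≠ 0 := by
    by_contra hc
    push Not at hc
    exact hβ (by ext1 j; rw [hc j, coeff_zero])
  obtain ⟨j0, hj0⟩ := hβj
  obtain ⟨k, hk, l, hl, hne⟩ := Desc_cmp_ne hj0
  have hcmp0 : Desc_cmp k l 0 = 0 := by
    ext i j
    rw [Desc_coeff_cmp, coeff_zero, Desc_coeff_dec (by norm_num)]
    simp
  set A : Polynomial Pl := ∑ j ∈ Finset.range (β.natDegree + 1),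
    monomial j (Desc_cmp k l (β.coeff j)) with hA'
  have hA : ∀ j, A.coeff j = Desc_cmp k l (β.coeff j) := by
    intro j
    rw [hA', finsetSum_coeff]
    simp only [coeff_monomial]
    rw [Finset.sum_ite_eq' (Finset.range (β.natDegree + 1)) j]
    split_ifs with h
    · rfl
    · rw [Finset.mem_range] at h
      push Not at h
      rw [coeff_eq_zero_of_natDegree_lt (by omega), hcmp0]
  have hA0 : A ≠ 0 := by
    intro h
    apply hne
    rw [← hA, h, coeff_zero]
  obtain ⟨N, hN, B, hB⟩ := Desc_clr_map (Desc_clr_map (Desc_clr_map Desc_clr_rat)) A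
  have hBj : ∀ j, mapRingHom (mapRingHom (Int.castRingHom ℚ)) (B.coeff j) =
      (N : Pl) * Desc_cmp k l (β.coeff j) := by
    intro j
    have h1 := congrArg (fun q : Polynomial Pl => q.coeff j) hB
    have e : ((N : ℕ) : Polynomial Pl) = C ((N : ℕ) : Pl) := (C_eq_natCast _).symm
    rw [e] at h1
    simp only [coe_mapRingHom, coeff_map, coeff_C_mul, hA] at h1
    rw [← h1]
    rfl
  have hinj : Function.Injective (mapRingHom (mapRingHom (Int.castRingHom ℚ))) :=
    Polynomial.map_injective _ (Polynomial.map_injective _ (RingHom.injective_int _))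
  have hBdeg : B.natDegree ≤ β.natDegree := by
    rw [natDegree_le_iff_coeff_eq_zero]
    intro j hj
    apply hinj
    rw [hBj, coeff_eq_zero_of_natDegree_lt hj, hcmp0, mul_zero, map_zero]
  have hB0 : B ≠ 0 := by
    intro h
    have h1 := hBj j0
    rw [h, coeff_zero, map_zero] at h1
    rcases mul_eq_zero.mp h1.symm with h2 | h2
    · exact hN (by exact_mod_cast h2)
    · exact hne h2
  set c : R2 := ∏ i ∈ Finset.range n0, Desc_fac i with hc
  have hc0 : c ≠ 0 := Finset.prod_ne_zero_iff.mpr fun i _ => Desc_fac_ne i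
  have hBm : B.map Desc_toR2 ≠ 0 := (Polynomial.map_ne_zero_iff Desc_toR2_inj).mpr hB0
  refine ⟨C c * B.map Desc_toR2, mul_ne_zero (C_ne_zero.mpr hc0) hBm, ?_, ?_⟩
  · exact (natDegree_C_mul_le _ _).trans (natDegree_map_le.trans hBdeg)
  · intro n _
    have hdeg : (C c * B.map Desc_toR2).natDegree ≤ β.natDegree :=
      (natDegree_C_mul_le _ _).trans (natDegree_map_le.trans hBdeg)
    have h1 : ∑ j ∈ Finset.range ((C c * B.map Desc_toR2).natDegree + 1),
        ev n ((C c * B.map Desc_toR2).coeff j) * f (n + j) =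
        ∑ j ∈ Finset.range (β.natDegree + 1),
          ev n ((C c * B.map Desc_toR2).coeff j) * f (n + j) := by
      refine Finset.sum_subset (fun x hx => ?_) fun j _ hj => ?_
      · rw [Finset.mem_range] at hx ⊢; omega
      · rw [Finset.mem_range] at hj
        push Not at hj
        rw [coeff_eq_zero_of_natDegree_lt (by omega), map_zero, zero_mul]
    rw [h1]
    have h2 : ∑ j ∈ Finset.range (β.natDegree + 1),
        ev n ((C c * B.map Desc_toR2).coeff j) * f (n + j) =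
        ev n c * ((N : FF) * q4 (∑ j ∈ Finset.range (β.natDegree + 1),
          eval₂ Desc_phi (t ^ n) (Desc_cmp k l (β.coeff j)) * f' (n + j))) := by
      rw [map_sum, Finset.mul_sum, Finset.mul_sum]
      refine Finset.sum_congr rfl fun j _ => ?_
      rw [coeff_C_mul, coeff_map, map_mul, Desc_ev_toR2, hBj, ← hf', eval₂_mul, map_mul, map_mul]
      rw [← C_eq_natCast, eval₂_C, map_natCast, map_natCast]
      ring
    rw [h2]
    by_cases hn : n0 ≤ n
    · rw [Desc_vanish f' β n (fun η => by simp only [hf']; exact hn0 n hn η) k hk l hl]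
      simp
    · push Not at hn
      have h3 : ev n c = 0 := by
        rw [hc, map_prod]
        refine Finset.prod_eq_zero (Finset.mem_range.mpr hn) ?_
        rw [Desc_ev_fac, sub_self]
      rw [h3, zero_mul]

end AJG

end

section

/-!
# MP_d3fa71_gt, item EX: existence of the non-commutative A-polynomial
-/

open Polynomial

namespace AJG

theorem EX_prod_ne_zero (l : List (ℤˣ × ℤ)) :
    (l.map fun z => (X - C (mapQ (lab z)) : Polynomial (LaurentPolynomial ℚ))).prod ≠ 0 := by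
  apply List.prod_ne_zero
  intro h
  rw [List.mem_map] at h
  obtain ⟨z, -, hz⟩ := h
  exact Polynomial.X_sub_C_ne_zero _ hz

theorem EX_proof (h1 : S_KillPl) (h2 : S_Desc) (h3 : S_NCAEx) (h4 : S_Jq) : S_EX := by
  intro K hK
  obtain ⟨β, l, c, hkill, hc, -, hmap⟩ := h1 K hK
  have hβ : β ≠ 0 := by
    rintro rfl
    rw [Polynomial.map_zero] at hmap
    have hcc : (C c : Polynomial (LaurentPolynomial ℚ)) ≠ 0 := by
      rw [Ne, Polynomial.C_eq_zero]
      exact hc
    exact mul_ne_zero hcc (EX_prod_ne_zero l) hmap.symm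
  obtain ⟨γ, hγ, -, hkg⟩ := h2 K.J (h4 K hK) β hβ hkill
  exact h3 K.J γ hγ hkg

end AJG

end

section

/-!
# MP_d3fa71_gt, item GaussPl: Gauss lemma for the non-commutative A-polynomial
-/

open Polynomial

namespace AJG

/-! ### germs -/

theorem GaussPl_iter (f : ℕ → FF) (j : ℕ) :
    (⇑(RingHom.prodMap EG EG).toAddMonoidHom)^[j] ((gm f, gm f) : GG × GG) =
      (gm fun n => f (n + j), gm fun n => f (n + j)) := by
  induction j generalizing f with
  | zero => rfl
  | succ j ih =>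
    rw [Function.iterate_succ_apply]
    have h1 : (RingHom.prodMap EG EG).toAddMonoidHom ((gm f, gm f) : GG × GG) =
      (gm fun n => f (n + 1), gm fun n => f (n + 1)) := rfl
    rw [h1, ih]
    have h2 : (fun n => f (n + j + 1)) = fun n => f (n + (j + 1)) := rfl
    rw [h2]

theorem GaussPl_gm_sum (s : Finset ℕ) (F : ℕ → ℕ → FF) :
    ∑ j ∈ s, gm (F j) = gm fun n => ∑ j ∈ s, F j n := by
  have h := map_sum (Filter.Germ.coeRingHom (Filter.atTop : Filter ℕ) : (ℕ → FF) →+* GG) F s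
  have h2 : (∑ j ∈ s, F j) = fun n => ∑ j ∈ s, F j n := by
    funext n
    exact Finset.sum_apply n s F
  rw [h2] at h
  exact h.symm

theorem GaussPl_gm_zero (F : ℕ → FF) : gm F = 0 ↔ ∀ᶠ n in Filter.atTop, F n = 0 := by
  have h : (0 : GG) = ((fun _ => 0 : ℕ → FF) : GG) := rfl
  rw [h]
  exact Filter.Germ.coe_eq

section
variable {O : Type} [CommRing O] [Module O (GG × GG)]

theorem GaussPl_opp (ι : Pl →+* O) (hι : Function.Injective ι) (ψ : ℤˣ → O →+* GG)
    (hsm : ∀ (a : O) (v : GG × GG), a • v = (ψ 1 a * v.1, ψ (-1) a * v.2))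
    (hψ : ∀ η p, ψ η (ι p) = gm fun n => evPl n η p) (f : ℕ → FF) (β : Polynomial Pl) :
    opp (RingHom.prodMap EG EG).toAddMonoidHom (β.map ι) ((gm f, gm f) : GG × GG) = 0 ↔
      KillsPl β f := by
  have h1 : opp (RingHom.prodMap EG EG).toAddMonoidHom (β.map ι) ((gm f, gm f) : GG × GG) =
      (gm (fun n => ∑ j ∈ Finset.range (β.natDegree + 1), evPl n 1 (β.coeff j) * f (n + j)),
       gm (fun n => ∑ j ∈ Finset.range (β.natDegree + 1), evPl n (-1) (β.coeff j) * f (n + j))) := by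
    unfold opp
    rw [Polynomial.natDegree_map_eq_of_injective hι, ← GaussPl_gm_sum, ← GaussPl_gm_sum]
    have h2 : ∀ j ∈ Finset.range (β.natDegree + 1), (β.map ι).coeff j •
        (⇑(RingHom.prodMap EG EG).toAddMonoidHom)^[j] ((gm f, gm f) : GG × GG) =
        ((gm fun n => evPl n 1 (β.coeff j) * f (n + j), gm fun n => evPl n (-1) (β.coeff j) * f (n + j)) :
          GG × GG) := by
      intro j _
      rw [GaussPl_iter, Polynomial.coeff_map, hsm, hψ, hψ]
      rfl
    rw [Finset.sum_congr rfl h2]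
    apply Prod.ext
    · rw [Prod.fst_sum]
    · rw [Prod.snd_sum]
  rw [h1, Prod.mk_eq_zero, GaussPl_gm_zero, GaussPl_gm_zero, ← Filter.eventually_and,
    Filter.eventually_atTop]
  unfold KillsPl
  constructor
  · rintro ⟨n₀, h⟩
    refine ⟨n₀, fun n hn η => ?_⟩
    rcases Int.units_eq_one_or η with rfl | rfl
    · exact (h n hn).1
    · exact (h n hn).2
  · rintro ⟨n₀, h⟩
    exact ⟨n₀, fun n hn => ⟨h n hn 1, h n hn (-1)⟩⟩

end

theorem GaussPl_opp_C {O V : Type} [CommRing O] [IsDomain O] [AddCommGroup V] [Module O V]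
    (E : V →+ V) (a : O) (ha : a ≠ 0) (q : Polynomial O) (x : V) :
    opp E (C a * q) x = a • opp E q x := by
  unfold opp
  rw [Polynomial.natDegree_C_mul ha, Finset.smul_sum]
  refine Finset.sum_congr rfl fun j _ => ?_
  rw [Polynomial.coeff_C_mul, mul_smul]

/-! ### clearing denominators -/

theorem GaussPl_clear {A B : Type} [CommRing A] [CommRing B] [IsDomain B] (ι : A →+* B)
    (P : A → Prop) (hPm : ∀ a b, P a → P b → P (a * b))
    (h : ∀ b : B, ∃ p s : A, ι s * b = ι p ∧ P s) (q : Polynomial B) :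
    ∃ (s : A) (q' : Polynomial A), P s ∧ q'.map ι = C (ι s) * q := by
  induction q using Polynomial.induction_on' with
  | add q₁ q₂ h1 h2 =>
    obtain ⟨s₁, q₁', hs₁, e₁⟩ := h1
    obtain ⟨s₂, q₂', hs₂, e₂⟩ := h2
    refine ⟨s₁ * s₂, C s₂ * q₁' + C s₁ * q₂', hPm _ _ hs₁ hs₂, ?_⟩
    rw [Polynomial.map_add, Polynomial.map_mul, Polynomial.map_mul, Polynomial.map_C,
      Polynomial.map_C, e₁, e₂, map_mul, map_mul]
    ring
  | monomial n a =>
    obtain ⟨p, s, hs, hP⟩ := h a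
    refine ⟨s, monomial n p, hP, ?_⟩
    rw [Polynomial.map_monomial, Polynomial.C_mul_monomial, hs]

/-! ### rational coefficients -/

theorem GaussPl_mapQ_toL (p : ℤ[X]) :
    mapQ (Polynomial.toLaurent p) = Polynomial.toLaurent (p.map (Int.castRingHom ℚ)) := by
  have h : (mapQ.comp (Polynomial.toLaurent (R := ℤ)) : ℤ[X] →+* LaurentPolynomial ℚ) =
      (Polynomial.toLaurent (R := ℚ)).comp (Polynomial.mapRingHom (Int.castRingHom ℚ)) := by
    apply Polynomial.ringHom_ext'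
    · exact RingHom.ext_int _ _
    · show mapQ (Polynomial.toLaurent X) = Polynomial.toLaurent ((X : ℤ[X]).map (Int.castRingHom ℚ))
      rw [Polynomial.map_X, Polynomial.toLaurent_X, Polynomial.toLaurent_X]
      show LaurentPolynomial.eval₂ _ _ _ = _
      rw [LaurentPolynomial.eval₂_T, zpow_one]
  exact congrArg (fun g : ℤ[X] →+* LaurentPolynomial ℚ => g p) h

theorem GaussPl_mapQ_inj : Function.Injective mapQ := by
  rw [injective_iff_map_eq_zero]
  intro a ha
  obtain ⟨n, p, hp⟩ := LaurentPolynomial.exists_T_pow a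
  have h1 : mapQ (Polynomial.toLaurent p) = 0 := by rw [hp, map_mul, ha, zero_mul]
  rw [GaussPl_mapQ_toL, Polynomial.toLaurent_eq_zero] at h1
  have h2 : p = 0 := by
    apply Polynomial.map_injective (Int.castRingHom ℚ) Int.cast_injective
    rw [h1, Polynomial.map_zero]
  rw [h2, map_zero] at hp
  have h3 := LaurentPolynomial.isUnit_T (R := ℤ) (n : ℤ)
  exact (h3.mul_left_eq_zero).1 hp.symm

theorem GaussPl_proof (h1 : S_OO) (h2 : S_Gauss) (h3 : S_Desc) (h4 : S_R2Pl) (h5 : S_NCAEv)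
    (h6 : S_SpNe) : S_GaussPl := by
  intro f hf α hα β hβ
  obtain ⟨O, _, _, _, π, σ, tt, MM, red, ι, ψ, hσ, hπ, hfac, hσa, hσπ, _, _, _, _, hred, _, _,
    hι, _, _, hden, hredι, hψι, hψσ⟩ := h1
  let _ : Algebra O (GG × GG) := RingHom.toAlgebra (RingHom.prod (ψ 1) (ψ (-1)))
  have hsm : ∀ (a : O) (v : GG × GG), a • v = (ψ 1 a * v.1, ψ (-1) a * v.2) := fun a v => rfl
  set E : GG × GG →+ GG × GG := (RingHom.prodMap EG EG).toAddMonoidHom with hE
  set x : GG × GG := (gm f, gm f) with hx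
  have hEs : ∀ (a : O) (v : GG × GG), E (a • v) = σ a • E v := by
    intro a v
    rw [hsm, hsm, hψσ, hψσ]
    show (EG (ψ 1 a * v.1), EG (ψ (-1) a * v.2)) = (EG (ψ 1 a) * EG v.1, EG (ψ (-1) a) * EG v.2)
    rw [map_mul, map_mul]
  obtain ⟨N, α', hdeg, hev, hmap⟩ := h4 α
  -- `α'` kills `f`
  have hkα : KillsPl α' f := by
    obtain ⟨n₀, hn₀⟩ := h5 f α hα
    refine ⟨n₀, fun n hn η => ?_⟩
    rw [hdeg]
    have h7 : ∀ j ∈ Finset.range (α.natDegree + 1), evPl n η (α'.coeff j) * f (n + j) =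
        (t * (((η : ℤ) : FF) * t ^ (2 * n))) ^ (4 * N) * (ev n (α.coeff j) * f (n + j)) := by
      intro j _
      rw [hev, mul_assoc]
    rw [Finset.sum_congr rfl h7, ← Finset.mul_sum, hn₀ n hn, mul_zero]
  have hk1 : opp E (α'.map ι) x = 0 := (GaussPl_opp ι hι ψ hsm hψι f α').2 hkα
  -- a coefficient which is not divisible by `π`
  have hnd : ∃ j, ¬ π ∣ (α'.map ι).coeff j := by
    have h7 := h6 α hα.prim
    have h8 : ∃ j, sp (α.coeff j) ≠ 0 := by
      by_contra hcon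
      push Not at hcon
      apply h7
      ext j
      rw [Polynomial.coeff_map, hcon j, Polynomial.coeff_zero]
    obtain ⟨j, hj⟩ := h8
    refine ⟨j, fun hdvd => ?_⟩
    rw [Polynomial.coeff_map, ← hred, hredι] at hdvd
    have h9 : Polynomial.map (Polynomial.evalRingHom (1 : ℚ)) (α'.coeff j) = 0 := by
      apply IsFractionRing.injective ℚ[X] (RatFunc ℚ)
      rw [hdvd, map_zero]
    have h10 := hmap j
    rw [h9, map_zero] at h10
    have h11 := LaurentPolynomial.isUnit_T (R := ℚ) (4 * N)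
    have h12 : mapQ (sp (α.coeff j)) = 0 := (h11.mul_right_eq_zero).1 h10.symm
    exact hj (GaussPl_mapQ_inj (by rw [h12, map_zero]))
  -- minimality
  have hmin : ∀ δ : Polynomial O, δ ≠ 0 → opp E δ x = 0 → (α'.map ι).natDegree ≤ δ.natDegree := by
    intro δ hδ hδk
    obtain ⟨s, δ', hs, hδ'⟩ := GaussPl_clear ι (fun s => red (ι s) ≠ 0)
      (fun a b ha hb => by rw [map_mul, map_mul]; exact mul_ne_zero ha hb) hden δ
    have hs0 : ι s ≠ 0 := by
      intro h0
      apply hs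
      rw [h0, map_zero]
    have hδ'0 : δ' ≠ 0 := by
      intro h0
      rw [h0, Polynomial.map_zero] at hδ'
      exact (mul_ne_zero (Polynomial.C_ne_zero.2 hs0) hδ) hδ'.symm
    have hkδ : KillsPl δ' f := by
      rw [← GaussPl_opp ι hι ψ hsm hψι f δ', hδ', GaussPl_opp_C _ _ hs0]
      rw [← hE, ← hx, hδk, smul_zero]
    obtain ⟨γ, hγ, hγd, hγk⟩ := h3 f hf δ' hδ'0 hkδ
    have h7 := hα.min γ hγ hγk
    have h8 : δ'.natDegree = δ.natDegree := by
      rw [← Polynomial.natDegree_map_eq_of_injective hι δ', hδ', Polynomial.natDegree_C_mul hs0]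
    rw [Polynomial.natDegree_map_eq_of_injective hι, hdeg]
    omega
  have hkβ : opp E (β.map ι) x = 0 := (GaussPl_opp ι hι ψ hsm hψι f β).2 hβ
  obtain ⟨c, g, hc, hcg⟩ := h2 O π σ hσ hπ hfac hσa hσπ (GG × GG) E hEs x (α'.map ι) (β.map ι)
    hk1 hnd hmin hkβ
  -- reduction
  have hredmap : ∀ p : Polynomial Pl, (p.map ι).map red =
      (p.map (Polynomial.mapRingHom (Polynomial.evalRingHom (1 : ℚ)))).map
        (algebraMap ℚ[X] (RatFunc ℚ)) := by
    intro p
    ext j
    rw [Polynomial.coeff_map, Polynomial.coeff_map, Polynomial.coeff_map, Polynomial.coeff_map,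
      hredι]
    rfl
  have hid : C (red c) * (β.map ι).map red = g.map red * (α'.map ι).map red := by
    have h7 : (C c * β.map ι - g * α'.map ι).map red = 0 := by
      ext j
      rw [Polynomial.coeff_map, Polynomial.coeff_zero, hred]
      exact hcg j
    rw [Polynomial.map_sub, Polynomial.map_mul, Polynomial.map_mul, Polynomial.map_C] at h7
    exact sub_eq_zero.1 h7
  rw [hredmap, hredmap] at hid
  set am : ℚ[X] →+* RatFunc ℚ := algebraMap ℚ[X] (RatFunc ℚ) with ham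
  have hami : Function.Injective am := IsFractionRing.injective ℚ[X] (RatFunc ℚ)
  have hdenR : ∀ b : RatFunc ℚ, ∃ p s : ℚ[X], am s * b = am p ∧ s ≠ 0 := by
    intro b
    refine ⟨b.num, b.denom, ?_, b.denom_ne_zero⟩
    have h7 := RatFunc.num_div_denom b
    have h8 : am b.denom ≠ 0 := fun h0 => b.denom_ne_zero (hami (by rw [h0, map_zero]))
    rw [mul_comm]
    exact ((div_eq_iff h8).1 h7).symm
  obtain ⟨d, g', hd, hg'⟩ := GaussPl_clear am (fun s => s ≠ 0)
    (fun a b ha hb => mul_ne_zero ha hb) hdenR (g.map red)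
  obtain ⟨c', d', hcd, hd'⟩ := hdenR (red c)
  have hrc : red c ≠ 0 := fun h0 => hc ((hred c).1 h0)
  have hc' : c' ≠ 0 := by
    intro h0
    rw [h0, map_zero] at hcd
    have h8 : am d' ≠ 0 := fun h0 => hd' (hami (by rw [h0, map_zero]))
    exact (mul_ne_zero h8 hrc) hcd
  set e1 : Pl →+* ℚ[X] := Polynomial.mapRingHom (Polynomial.evalRingHom (1 : ℚ)) with he1
  have hfin : C (c' * d) * β.map e1 = C d' * g' * α'.map e1 := by
    apply Polynomial.map_injective am hami
    rw [Polynomial.map_mul, Polynomial.map_mul, Polynomial.map_mul, Polynomial.map_C,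
      Polynomial.map_C, hg', map_mul, ← hcd, map_mul, map_mul]
    calc C (am d') * C (red c) * C (am d) * (β.map e1).map am
        = C (am d') * C (am d) * (C (red c) * (β.map e1).map am) := by ring
      _ = C (am d') * C (am d) * (g.map red * (α'.map e1).map am) := by rw [hid]
      _ = C (am d') * (C (am d) * g.map red) * (α'.map e1).map am := by ring
  refine ⟨Polynomial.toLaurent (c' * d), ?_, ?_⟩
  · rw [Polynomial.toLaurent_ne_zero]
    exact mul_ne_zero hc' hd
  · have h7 := congrArg (Polynomial.map (Polynomial.toLaurent (R := ℚ))) hfin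
    rw [Polynomial.map_mul, Polynomial.map_mul, Polynomial.map_C] at h7
    have h8 : (β.map e1).map (Polynomial.toLaurent (R := ℚ)) = β.map redP := by
      rw [Polynomial.map_map]
      rfl
    have h9 : (α'.map e1).map (Polynomial.toLaurent (R := ℚ)) =
        C (LaurentPolynomial.T (4 * N)) * α.map (mapQ.comp sp) := by
      ext1 j
      rw [Polynomial.coeff_map, Polynomial.coeff_map, Polynomial.coeff_C_mul, Polynomial.coeff_map]
      exact hmap j
    rw [h8, h9] at h7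
    rw [h7]
    exact ⟨(C d' * g').map (Polynomial.toLaurent (R := ℚ)) * C (LaurentPolynomial.T (4 * N)),
      by ring⟩

end AJG

end

section

/-!
# MP_d3fa71_gt: the coloured Jones function of a graph knot takes values in `ℚ(t⁴)`
-/

open Polynomial

namespace AJG

theorem Jq_q4_t : q4 t = t ^ 4 := by
  have h : q4 (algebraMap ℚ[X] (RatFunc ℚ) (X : ℚ[X])) =
      algebraMap ℚ[X] (RatFunc ℚ) (Polynomial.expand ℚ 4 X) := by
    unfold q4
    rw [RatFunc.coe_mapRingHom_eq_coe_map, RatFunc.map_apply]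
    simp
  rw [Polynomial.expand_X, map_pow, RatFunc.algebraMap_X] at h
  exact h

theorem Jq_mem (m : ℤ) (hm : (4 : ℤ) ∣ m) : t ^ m ∈ q4.fieldRange := by
  obtain ⟨k, rfl⟩ := hm
  have h4 : t ^ (4 : ℤ) ∈ q4.fieldRange := ⟨t, by rw [Jq_q4_t]; norm_cast⟩
  rw [zpow_mul]
  exact zpow_mem h4 k

theorem Jq_even (r : ℤ) (s : ℕ) (h : IsCoprime r (s : ℤ)) : (2 : ℤ) ∣ (r - 1) * (s + 1) := by
  rcases Int.even_or_odd (s : ℤ) with hs | hs
  · rcases Int.even_or_odd r with hr | hr
    · exfalso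
      have h2 : IsUnit (2 : ℤ) := h.isUnit_of_dvd' hr.two_dvd hs.two_dvd
      exact absurd h2 (by decide)
    · exact Dvd.dvd.mul_right (by obtain ⟨a, rfl⟩ := hr; exact ⟨a, by ring⟩) _
  · exact Dvd.dvd.mul_left (by obtain ⟨a, ha⟩ := hs; exact ⟨a + 1, by rw [ha]; ring⟩) _

theorem Jq_dvd (r : ℤ) (s : ℕ) (h : IsCoprime r (s : ℤ)) (n k : ℤ) :
    (4 : ℤ) ∣ r * s * (1 - n ^ 2) + (r * s * (2 * k - n + 1) ^ 2 + 2 * r * (2 * k - n + 1)) +
      (-(2 * (s * (2 * k - n + 1) + 1))) + 2 * n := by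
  obtain ⟨c, hc⟩ := Jq_even r s h
  refine ⟨r * s * (k ^ 2 - k * (n - 1)) + (r - s) * k - (n - 1) * c, ?_⟩
  have : r * s * (1 - n ^ 2) + (r * s * (2 * k - n + 1) ^ 2 + 2 * r * (2 * k - n + 1)) +
      (-(2 * (s * (2 * k - n + 1) + 1))) + 2 * n =
      4 * (r * s * (k ^ 2 - k * (n - 1)) + (r - s) * k) - 2 * (n - 1) * ((r - 1) * (s + 1)) := by
    ring
  rw [this, hc]
  ring

theorem Jq_br (a : ℤ) : t ^ (2 * a) - t ^ (-(2 * a)) = t ^ (-(2 * a)) * (t ^ (4 * a) - 1) := by
  have ht : t ≠ 0 := RatFunc.X_ne_zero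
  rw [mul_sub, mul_one, ← zpow_add₀ ht]
  congr 2
  ring

theorem Jq_term (A B a n : ℤ) :
    t ^ A / (t ^ (2 * n) - t ^ (-(2 * n))) * (t ^ B * (t ^ (2 * a) - t ^ (-(2 * a)))) =
      t ^ (A + B + (-(2 * a)) + 2 * n) * ((t ^ (4 * a) - 1) / (t ^ (4 * n) - 1)) := by
  have ht : t ≠ 0 := RatFunc.X_ne_zero
  rw [Jq_br a, Jq_br n, zpow_add₀ ht, zpow_add₀ ht, zpow_add₀ ht, zpow_neg t (2 * n)]
  rw [div_eq_mul_inv, div_eq_mul_inv, mul_inv, inv_inv]
  ring

theorem Jq_proof : S_Jq := by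
  intro K
  induction K with
  | unknot =>
    intro _ n
    simp only [GK.J]
    exact one_mem _
  | sum K L hK hL =>
    intro hv n
    simp only [GK.J]
    exact mul_mem (hK hv.1 n) (hL hv.2 n)
  | cable r s K hK =>
    intro hv n
    obtain ⟨hvK, -, hrs, -⟩ := hv
    rw [GK.J, Finset.mul_sum]
    refine sum_mem fun k _ => ?_
    rw [← mul_assoc, Jq_term]
    refine mul_mem (mul_mem (Jq_mem _ (Jq_dvd r s hrs n k)) (div_mem ?_ ?_)) (hK hvK _)
    · exact sub_mem (Jq_mem _ (dvd_mul_right _ _)) (one_mem _)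
    · exact sub_mem (Jq_mem _ (dvd_mul_right _ _)) (one_mem _)

end AJG

end

section

/-!
# MP_d3fa71_gt, item KillPl: a killing operator whose roots at `t = 1` are labels
-/

open Polynomial

namespace AJG

/-! ### Germs -/

theorem KillPl_gm_mul (f g : ℕ → FF) : gm f * gm g = gm (fun n => f n * g n) := rfl
theorem KillPl_gm_add (f g : ℕ → FF) : gm f + gm g = gm (fun n => f n + g n) := rfl
theorem KillPl_gm_sub (f g : ℕ → FF) : gm f - gm g = gm (fun n => f n - g n) := rfl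
theorem KillPl_gm_neg (f : ℕ → FF) : -gm f = gm (fun n => -f n) := rfl
theorem KillPl_gm_one : (1 : GG) = gm (fun _ => 1) := rfl

theorem KillPl_gm_zpow (f : ℕ → FF) (hf : ∀ n, f n ≠ 0) (u : GGˣ) (hu : (u : GG) = gm f) (a : ℤ) :
    ((u ^ a : GGˣ) : GG) = gm (fun n => f n ^ a) := by
  have hinv : ((u⁻¹ : GGˣ) : GG) = gm (fun n => (f n)⁻¹) := by
    have h1 : (u : GG) * gm (fun n => (f n)⁻¹) = 1 := by
      rw [hu, KillPl_gm_mul, KillPl_gm_one]
      congr 1
      funext n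
      exact mul_inv_cancel₀ (hf n)
    calc ((u⁻¹ : GGˣ) : GG) = ((u⁻¹ : GGˣ) : GG) * ((u : GG) * gm (fun n => (f n)⁻¹)) := by
          rw [h1, mul_one]
      _ = gm (fun n => (f n)⁻¹) := by rw [← mul_assoc, Units.inv_mul, one_mul]
  induction a using Int.induction_on with
  | zero =>
    simp only [zpow_zero, Units.val_one]
    rfl
  | succ i ih =>
    rw [zpow_add_one, Units.val_mul, ih, hu, KillPl_gm_mul]
    exact congrArg gm (funext fun n => (zpow_add_one₀ (hf n) _).symm)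
  | pred i ih =>
    rw [zpow_sub_one, Units.val_mul, ih, hinv, KillPl_gm_mul]
    exact congrArg gm (funext fun n => (zpow_sub_one₀ (hf n) _).symm)

theorem KillPl_eta (η : ℤˣ) (n : ℕ) : (((η : ℤ) : FF) * t ^ (2 * n)) ≠ 0 := by
  refine mul_ne_zero ?_ (pow_ne_zero _ t_ne)
  rcases Int.units_eq_one_or η with h | h <;> rw [h] <;> norm_num

theorem KillPl_psi {O : Type} [CommRing O] (tt MM : Oˣ) (ψ : O →+* GG) (η : ℤˣ)
    (ht : ψ (tt : O) = gm fun _ => t) (hM : ψ (MM : O) = gm fun n => ((η : ℤ) : FF) * t ^ (2 * n))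
    (a b : ℤ) : ψ ((tt ^ a * MM ^ b : Oˣ) : O) =
      gm fun n => t ^ a * (((η : ℤ) : FF) * t ^ (2 * n)) ^ b := by
  have h1 : ψ ((tt ^ a : Oˣ) : O) = gm fun _ => t ^ a := by
    have := KillPl_gm_zpow (fun _ => t) (fun _ => t_ne) (Units.map ψ.toMonoidHom tt) ht a
    rw [← map_zpow] at this
    exact this
  have h2 : ψ ((MM ^ b : Oˣ) : O) = gm fun n => (((η : ℤ) : FF) * t ^ (2 * n)) ^ b := by
    have := KillPl_gm_zpow (fun n => ((η : ℤ) : FF) * t ^ (2 * n)) (KillPl_eta η)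
      (Units.map ψ.toMonoidHom MM) hM b
    rw [← map_zpow] at this
    exact this
  rw [Units.val_mul, map_mul, h1, h2, KillPl_gm_mul]

theorem KillPl_even (η : ℤˣ) (n : ℕ) (b : ℤ) (hb : Even b) :
    (((η : ℤ) : FF) * t ^ (2 * n)) ^ b = t ^ (2 * (n : ℤ) * b) := by
  have h1 : (((η : ℤ) : FF)) ^ b = 1 := by
    rcases Int.units_eq_one_or η with h | h
    · rw [h]
      simp
    · rw [h]
      simp only [Units.val_neg, Units.val_one, Int.cast_neg, Int.cast_one]
      exact hb.neg_one_zpow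
  rw [mul_zpow, h1, one_mul, ← zpow_natCast, ← zpow_mul]
  push_cast
  rfl

theorem KillPl_psi_even {O : Type} [CommRing O] (tt MM : Oˣ) (ψ : O →+* GG) (η : ℤˣ)
    (ht : ψ (tt : O) = gm fun _ => t) (hM : ψ (MM : O) = gm fun n => ((η : ℤ) : FF) * t ^ (2 * n))
    (a b : ℤ) (hb : Even b) : ψ ((tt ^ a * MM ^ b : Oˣ) : O) =
      gm fun n => t ^ (a + 2 * (n : ℤ) * b) := by
  rw [KillPl_psi tt MM ψ η ht hM a b]
  congr 1
  funext n
  rw [KillPl_even η n b hb, zpow_add₀ t_ne]

/-! ### The sequences -/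

/-- `(1 - t^{-4m}) J_K(m)`. -/
noncomputable def KillPl_J (K : GK) (m : ℕ) : FF := (1 - t ^ (-(4 * (m : ℤ)))) * K.J m

theorem KillPl_br_ne (n : ℕ) (hn : 1 ≤ n) : brF (n : ℤ) ≠ 0 := by
  intro h
  have h1 : t ^ (2 * (n : ℤ)) = t ^ (-(2 * (n : ℤ))) := sub_eq_zero.1 h
  have h2 : t ^ (4 * n) = 1 := by
    have h3 : t ^ (2 * (n : ℤ)) * t ^ (2 * (n : ℤ)) = 1 := by
      nth_rewrite 1 [h1]
      rw [← zpow_add₀ t_ne, neg_add_cancel, zpow_zero]
    rw [← zpow_add₀ t_ne] at h3
    rw [← zpow_natCast, ← h3]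
    congr 1
    push_cast
    ring
  have h4 : algebraMap ℚ[X] (RatFunc ℚ) (X ^ (4 * n)) = algebraMap ℚ[X] (RatFunc ℚ) 1 := by
    rw [map_pow, map_one, RatFunc.algebraMap_X]
    exact h2
  have h5 := RatFunc.algebraMap_injective ℚ h4
  have h6 := congrArg Polynomial.natDegree h5
  rw [Polynomial.natDegree_X_pow, Polynomial.natDegree_one] at h6
  omega

theorem KillPl_br_sign (x : ℤ) : brF x = ((x.sign : ℤ) : FF) * brF (x.natAbs : ℤ) := by
  rcases lt_trichotomy x 0 with h | h | h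
  · have h1 : (x.natAbs : ℤ) = -x := by omega
    rw [Int.sign_eq_neg_one_of_neg h, h1]
    unfold brF
    rw [mul_neg, neg_neg]
    push_cast
    ring
  · subst h
    simp [brF]
  · have h1 : (x.natAbs : ℤ) = x := by omega
    rw [Int.sign_eq_one_of_pos h, h1]
    push_cast
    ring

theorem KillPl_J_cable (r : ℤ) (s : ℕ) (K : GK) (n : ℕ) :
    (GK.cable r s K).J n = t ^ (r * s * (1 - (n : ℤ) ^ 2)) / brF (n : ℤ) *
      ∑ k ∈ Finset.range n,
        t ^ (r * s * (2 * (k : ℤ) - n + 1) ^ 2 + 2 * r * (2 * (k : ℤ) - n + 1)) *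
          brF (s * (2 * (k : ℤ) - n + 1) + 1) *
          GK.J K (s * (2 * (k : ℤ) - n + 1) + 1).natAbs := by
  rw [GK.J]
  rfl

theorem KillPl_hat (r : ℤ) (s : ℕ) (K : GK) (m : ℕ) :
    brF (m : ℤ) * (GK.cable r s K).J m = JhatP (fun m => brF (m : ℤ) * K.J m) r s m := by
  rcases Nat.eq_zero_or_pos m with h | h
  · subst h
    simp [brF, JhatP]
  · have hne := KillPl_br_ne m h
    rw [KillPl_J_cable, ← mul_assoc, mul_div_cancel₀ _ hne]
    unfold JhatP
    congr 1
    refine Finset.sum_congr rfl fun k _ => ?_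
    rw [KillPl_br_sign (s * (2 * (k : ℤ) - m + 1) + 1)]
    simp only [mul_assoc]

theorem KillPl_J_eq (K : GK) (m : ℕ) :
    KillPl_J K m = t ^ (-(2 * (m : ℤ))) * (brF (m : ℤ) * K.J m) := by
  unfold KillPl_J brF
  have e : t ^ (-(2 * (m : ℤ))) * t ^ (2 * (m : ℤ)) = 1 := by
    rw [← zpow_add₀ t_ne, neg_add_cancel, zpow_zero]
  have e2 : t ^ (-(2 * (m : ℤ))) * t ^ (-(2 * (m : ℤ))) = t ^ (-(4 * (m : ℤ))) := by
    rw [← zpow_add₀ t_ne]
    congr 1
    ring
  linear_combination (-K.J m) * e + K.J m * e2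

theorem KillPl_rec2 (h4 : S_RecTwo) (r : ℤ) (s : ℕ) (K : GK) (hs : 2 ≤ s) (m : ℕ) :
    KillPl_J (.cable r s K) (m + 2) =
      t ^ (-(4 * r * s * (m + 1)) - 4) * KillPl_J (.cable r s K) m +
      t ^ (-(2 * (r - 1) * (s - 1) * (m + 1))) * KillPl_J K (s * (m + 1) + 1) -
      t ^ (-(2 * ((r - 1) * (s + 1) + 2) * (m + 1)) - 4) * KillPl_J K (s * (m + 1) - 1) := by
  obtain ⟨w, hw⟩ : ∃ w, s * (m + 1) = w + 1 := by
    have : 0 < s * (m + 1) := by positivity
    exact ⟨s * (m + 1) - 1, by omega⟩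
  have hwZ : (s : ℤ) * (m + 1) = w + 1 := by exact_mod_cast hw
  rw [KillPl_J_eq, KillPl_hat, KillPl_J_eq (.cable r s K) m, KillPl_hat,
    h4 (fun m => brF (m : ℤ) * K.J m) r s hs m, KillPl_J_eq, KillPl_J_eq]
  simp only [hw, Nat.add_sub_cancel]
  generalize JhatP (fun m => brF (m : ℤ) * K.J m) r s m = A
  generalize brF ((w + 1 + 1 : ℕ) : ℤ) * K.J (w + 1 + 1) = B
  generalize brF (w : ℤ) * K.J w = D
  have e1 : t ^ (-(2 * ((m + 2 : ℕ) : ℤ))) * t ^ (-(4 * r * s * (m + 1))) =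
      t ^ (-(4 * r * s * (m + 1)) - 4) * t ^ (-(2 * (m : ℤ))) := by
    rw [← zpow_add₀ t_ne, ← zpow_add₀ t_ne]
    congr 1
    push_cast
    ring
  have e2 : t ^ (-(2 * ((m + 2 : ℕ) : ℤ))) * (t ^ (-(2 * r * s * (m + 1))) * t ^ (2 * r * (m + 1))) =
      t ^ (-(2 * (r - 1) * (s - 1) * (m + 1))) * t ^ (-(2 * ((w + 1 + 1 : ℕ) : ℤ))) := by
    rw [← zpow_add₀ t_ne, ← zpow_add₀ t_ne, ← zpow_add₀ t_ne]
    congr 1
    push_cast
    linear_combination (-2 : ℤ) * hwZ
  have e3 : t ^ (-(2 * ((m + 2 : ℕ) : ℤ))) * (t ^ (-(2 * r * s * (m + 1))) * t ^ (-(2 * r * (m + 1)))) =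
      t ^ (-(2 * ((r - 1) * (s + 1) + 2) * (m + 1)) - 4) * t ^ (-(2 * (w : ℤ))) := by
    rw [← zpow_add₀ t_ne, ← zpow_add₀ t_ne, ← zpow_add₀ t_ne]
    congr 1
    push_cast
    linear_combination (-2 : ℤ) * hwZ
  linear_combination A * e1 + B * e2 - D * e3

theorem KillPl_rec1 (h5 : S_RecOne) (r : ℤ) (K : GK) (m : ℕ) :
    KillPl_J (.cable r 2 K) (m + 1) =
      -t ^ (-(2 * (2 * m + 1) * r) - 2) * KillPl_J (.cable r 2 K) m +
      t ^ (-(2 * (r - 1) * m)) * KillPl_J K (2 * m + 1) := by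
  rw [KillPl_J_eq, KillPl_hat, KillPl_J_eq (.cable r 2 K) m, KillPl_hat,
    h5 (fun m => brF (m : ℤ) * K.J m) r m, KillPl_J_eq]
  generalize JhatP (fun m => brF (m : ℤ) * K.J m) r 2 m = A
  generalize brF ((2 * m + 1 : ℕ) : ℤ) * K.J (2 * m + 1) = B
  have e1 : t ^ (-(2 * ((m + 1 : ℕ) : ℤ))) * t ^ (-(2 * r * (2 * m + 1))) =
      t ^ (-(2 * (2 * m + 1) * r) - 2) * t ^ (-(2 * (m : ℤ))) := by
    rw [← zpow_add₀ t_ne, ← zpow_add₀ t_ne]
    congr 1
    push_cast
    ring
  have e2 : t ^ (-(2 * ((m + 1 : ℕ) : ℤ))) * t ^ (-(2 * r * m)) =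
      t ^ (-(2 * (r - 1) * m)) * t ^ (-(2 * ((2 * m + 1 : ℕ) : ℤ))) := by
    rw [← zpow_add₀ t_ne, ← zpow_add₀ t_ne]
    congr 1
    push_cast
    ring
  linear_combination -A * e1 + B * e2

/-! ### Polynomials and denominators -/

theorem KillPl_denom {O : Type} [CommRing O] (red : O →+* RatFunc ℚ) (ι : Pl →+* O)
    (h : ∀ a : O, ∃ p s : Pl, ι s * a = ι p ∧ red (ι s) ≠ 0) (q : Polynomial O) :
    ∃ (s : Pl) (β : Polynomial Pl), red (ι s) ≠ 0 ∧ β.map ι = C (ι s) * q := by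
  induction q using Polynomial.induction_on' with
  | add p q hp hq =>
    obtain ⟨s, β, hs, hβ⟩ := hp
    obtain ⟨s', β', hs', hβ'⟩ := hq
    refine ⟨s * s', C s' * β + C s * β', ?_, ?_⟩
    · rw [map_mul, map_mul]
      exact mul_ne_zero hs hs'
    · rw [Polynomial.map_add, Polynomial.map_mul, Polynomial.map_mul, hβ, hβ', Polynomial.map_C,
        Polynomial.map_C, map_mul, C_mul]
      ring
  | monomial n a =>
    obtain ⟨p, s, h1, h2⟩ := h a
    refine ⟨s, monomial n p, h2, ?_⟩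
    rw [Polynomial.map_monomial, ← h1, C_mul_monomial]

/-- Laurent polynomials as rational functions. -/
noncomputable def KillPl_th : LaurentPolynomial ℚ →+* RatFunc ℚ :=
  LaurentPolynomial.eval₂ (algebraMap ℚ (RatFunc ℚ)) (Units.mk0 RatFunc.X RatFunc.X_ne_zero)

theorem KillPl_th_toLaurent (p : ℚ[X]) : KillPl_th (toLaurent p) = algebraMap ℚ[X] (RatFunc ℚ) p := by
  unfold KillPl_th
  rw [LaurentPolynomial.eval₂_toLaurent, Units.val_mk0]
  have h1 : algebraMap ℚ (RatFunc ℚ) = (algebraMap ℚ[X] (RatFunc ℚ)).comp Polynomial.C :=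
    Subsingleton.elim _ _
  rw [h1, ← RatFunc.algebraMap_X, ← Polynomial.hom_eval₂, Polynomial.eval₂_C_X]

theorem KillPl_th_T (n : ℤ) : KillPl_th (LaurentPolynomial.T n) = RatFunc.X ^ n := by
  unfold KillPl_th
  rw [LaurentPolynomial.eval₂_T, Units.val_zpow_eq_zpow_val, Units.val_mk0]

theorem KillPl_th_inj : Function.Injective KillPl_th := by
  rw [injective_iff_map_eq_zero]
  intro f hf
  obtain ⟨n, f', hf'⟩ := LaurentPolynomial.exists_T_pow f
  have h1 : algebraMap ℚ[X] (RatFunc ℚ) f' = 0 := by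
    rw [← KillPl_th_toLaurent, hf', map_mul, hf, zero_mul]
  have h2 : f' = 0 := by
    rw [← map_zero (algebraMap ℚ[X] (RatFunc ℚ))] at h1
    exact RatFunc.algebraMap_injective ℚ h1
  rw [h2, map_zero] at hf'
  have h3 : f * LaurentPolynomial.T n * LaurentPolynomial.T (-n) = 0 := by rw [← hf', zero_mul]
  rw [mul_assoc, ← LaurentPolynomial.T_add, add_neg_cancel, LaurentPolynomial.T_zero, mul_one] at h3
  exact h3

theorem KillPl_unitT (x : (LaurentPolynomial ℚ)ˣ) (hx : (x : LaurentPolynomial ℚ) = LaurentPolynomial.T 1)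
    (hx' : ((x⁻¹ : (LaurentPolynomial ℚ)ˣ) : LaurentPolynomial ℚ) = LaurentPolynomial.T (-1)) (n : ℤ) :
    ((x ^ n : (LaurentPolynomial ℚ)ˣ) : LaurentPolynomial ℚ) = LaurentPolynomial.T n := by
  induction n using Int.induction_on with
  | zero => rw [zpow_zero, Units.val_one, LaurentPolynomial.T_zero]
  | succ i ih => rw [zpow_add_one, Units.val_mul, ih, hx, ← LaurentPolynomial.T_add]
  | pred i ih =>
    rw [zpow_sub_one, Units.val_mul, ih, hx', ← LaurentPolynomial.T_add, ← sub_eq_add_neg]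

theorem KillPl_th_lab (z : ℤˣ × ℤ) :
    KillPl_th (mapQ (lab z)) = (((z.1 : ℤ) : RatFunc ℚ)) * RatFunc.X ^ z.2 := by
  unfold mapQ lab
  rw [LaurentPolynomial.eval₂_C_mul_T, KillPl_unitT _ rfl rfl, map_mul, KillPl_th_T]
  congr 1
  exact map_intCast KillPl_th _

/-! ### The identities for each component -/

section

variable {O : Type} [CommRing O] (tt MM : Oˣ) (ψ : O →+* GG) (η : ℤˣ)
  (ht : ψ (tt : O) = gm fun _ => t) (hM : ψ (MM : O) = gm fun n => ((η : ℤ) : FF) * t ^ (2 * n))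

include ht hM

theorem KillPl_mulgm (a b : ℤ) (hb : Even b) (f : ℕ → FF) :
    ψ ((tt ^ a * MM ^ b : Oˣ) : O) * gm f = gm fun n => t ^ (a + 2 * (n : ℤ) * b) * f n := by
  rw [KillPl_psi_even tt MM ψ η ht hM a b hb, KillPl_gm_mul]

theorem KillPl_one_sub (S c : ℕ) :
    ψ (1 - ((tt ^ (-(4 * (c : ℤ))) * MM ^ (-(2 * (S : ℤ))) : Oˣ) : O)) =
      gm fun n => 1 - t ^ (-(4 * ((S * n + c : ℕ) : ℤ))) := by
  rw [map_sub, map_one, KillPl_psi_even tt MM ψ η ht hM _ _ ((even_two_mul _).neg), KillPl_gm_one,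
    KillPl_gm_sub]
  congr 1
  funext n
  congr 2
  push_cast
  ring

theorem KillPl_idSum (K L : GK) (S c : ℕ) :
    ψ (1 - ((tt ^ (-(4 * (c : ℤ))) * MM ^ (-(2 * (S : ℤ))) : Oˣ) : O)) *
      gm (fun n => KillPl_J (.sum K L) (S * n + c)) =
      gm (fun n => KillPl_J K (S * n + c)) * gm (fun n => KillPl_J L (S * n + c)) := by
  rw [KillPl_one_sub tt MM ψ η ht hM, KillPl_gm_mul, KillPl_gm_mul]
  congr 1
  funext n
  unfold KillPl_J
  have e : (GK.sum K L).J (S * n + c) = K.J (S * n + c) * L.J (S * n + c) := by rw [GK.J]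
  rw [e]
  ring

theorem KillPl_idUnknot (S c : ℕ) :
    gm (fun n => KillPl_J .unknot (S * n + c)) =
      ψ (1 - ((tt ^ (-(4 * (c : ℤ))) * MM ^ (-(2 * (S : ℤ))) : Oˣ) : O)) := by
  rw [KillPl_one_sub tt MM ψ η ht hM]
  congr 1
  funext n
  unfold KillPl_J
  have e : GK.unknot.J (S * n + c) = 1 := by rw [GK.J]
  rw [e, mul_one]

theorem KillPl_idTwo (h4 : S_RecTwo) (r : ℤ) (s : ℕ) (K : GK) (S c : ℕ) (hs : 2 ≤ s)
    (hco : IsCoprime r (s : ℤ)) :
    gm (fun n => KillPl_J (.cable r s K) (S * n + (c + 2))) =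
      ψ ((tt ^ (-(4 * r * s * (c + 1)) - 4) * MM ^ (-(2 * r * s * S)) : Oˣ) : O) *
        gm (fun n => KillPl_J (.cable r s K) (S * n + c)) +
      ψ ((tt ^ (-(2 * (r - 1) * (s - 1) * (c + 1))) * MM ^ (-((r - 1) * (s - 1) * S)) : Oˣ) : O) *
        gm (fun n => KillPl_J K (s * S * n + (s * (c + 1) + 1))) -
      ψ ((tt ^ (-(2 * ((r - 1) * (s + 1) + 2) * (c + 1)) - 4) *
        MM ^ (-(((r - 1) * (s + 1) + 2) * S)) : Oˣ) : O) *
        gm (fun n => KillPl_J K (s * S * n + (s * (c + 1) - 1))) := by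
  have hpar : Odd r ∨ Odd (s : ℤ) := by
    by_contra hcon
    rw [not_or, Int.not_odd_iff_even, Int.not_odd_iff_even] at hcon
    have h2 : IsUnit (2 : ℤ) := hco.isUnit_of_dvd' hcon.1.two_dvd hcon.2.two_dvd
    rw [Int.isUnit_iff] at h2
    omega
  have ev1 : Even (-(2 * r * s * S) : ℤ) := by
    have : (-(2 * r * s * S) : ℤ) = 2 * (-(r * s * S)) := by ring
    rw [this]
    exact even_two_mul _
  have ev2 : Even (-((r - 1) * (s - 1) * S) : ℤ) := by
    rcases hpar with h | h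
    · obtain ⟨a, ha⟩ := h
      refine ⟨-(a * (s - 1) * S), ?_⟩
      rw [ha]
      ring
    · obtain ⟨a, ha⟩ := h
      refine ⟨-((r - 1) * a * S), ?_⟩
      rw [ha]
      ring
  have ev3 : Even (-(((r - 1) * (s + 1) + 2) * S) : ℤ) := by
    rcases hpar with h | h
    · obtain ⟨a, ha⟩ := h
      refine ⟨-((a * (s + 1) + 1) * S), ?_⟩
      rw [ha]
      ring
    · obtain ⟨a, ha⟩ := h
      refine ⟨-(((r - 1) * (a + 1) + 1) * S), ?_⟩
      rw [ha]
      ring
  rw [KillPl_mulgm tt MM ψ η ht hM _ _ ev1, KillPl_mulgm tt MM ψ η ht hM _ _ ev2,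
    KillPl_mulgm tt MM ψ η ht hM _ _ ev3, KillPl_gm_add, KillPl_gm_sub]
  congr 1
  funext n
  have i1 : s * S * n + (s * (c + 1) + 1) = s * (S * n + c + 1) + 1 := by ring
  have i2 : s * S * n + (s * (c + 1) - 1) = s * (S * n + c + 1) - 1 := by
    have h1 : 1 ≤ s * (c + 1) := Nat.mul_pos (by omega) (by omega)
    rw [← Nat.add_sub_assoc h1]
    congr 1
    ring
  have := KillPl_rec2 h4 r s K hs (S * n + c)
  rw [i1, i2, ← add_assoc, this]
  have e1 : -(4 * r * s * (((S * n + c : ℕ) : ℤ) + 1)) - 4 =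
      -(4 * r * s * (c + 1)) - 4 + 2 * (n : ℤ) * -(2 * r * s * S) := by
    push_cast
    ring
  have e2 : -(2 * (r - 1) * (s - 1) * (((S * n + c : ℕ) : ℤ) + 1)) =
      -(2 * (r - 1) * (s - 1) * (c + 1)) + 2 * (n : ℤ) * -((r - 1) * (s - 1) * S) := by
    push_cast
    ring
  have e3 : -(2 * ((r - 1) * (s + 1) + 2) * (((S * n + c : ℕ) : ℤ) + 1)) - 4 =
      -(2 * ((r - 1) * (s + 1) + 2) * (c + 1)) - 4 +
        2 * (n : ℤ) * -(((r - 1) * (s + 1) + 2) * S) := by
    push_cast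
    ring
  rw [e1, e2, e3]

theorem KillPl_idOne (h5 : S_RecOne) (r : ℤ) (K : GK) (S c : ℕ) (hco : IsCoprime r 2) :
    gm (fun n => KillPl_J (.cable r 2 K) (S * n + (c + 1))) =
      ψ (-((tt ^ (-(2 * (2 * c + 1) * r) - 2) * MM ^ (-(2 * r * S)) : Oˣ) : O)) *
        gm (fun n => KillPl_J (.cable r 2 K) (S * n + c)) +
      ψ ((tt ^ (-(2 * (r - 1) * c)) * MM ^ (-((r - 1) * S)) : Oˣ) : O) *
        gm (fun n => KillPl_J K (2 * S * n + (2 * c + 1))) := by
  have hpar : Odd r := by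
    by_contra hcon
    rw [Int.not_odd_iff_even] at hcon
    have h2 : IsUnit (2 : ℤ) := hco.isUnit_of_dvd' hcon.two_dvd (dvd_refl _)
    rw [Int.isUnit_iff] at h2
    omega
  have ev1 : Even (-(2 * r * S) : ℤ) := by
    have : (-(2 * r * S) : ℤ) = 2 * (-(r * S)) := by ring
    rw [this]
    exact even_two_mul _
  have ev2 : Even (-((r - 1) * S) : ℤ) := by
    obtain ⟨a, ha⟩ := hpar
    refine ⟨-(a * S), ?_⟩
    rw [ha]
    ring
  rw [map_neg, neg_mul, KillPl_mulgm tt MM ψ η ht hM _ _ ev1, KillPl_mulgm tt MM ψ η ht hM _ _ ev2,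
    KillPl_gm_neg, KillPl_gm_add]
  congr 1
  funext n
  have i1 : 2 * S * n + (2 * c + 1) = 2 * (S * n + c) + 1 := by ring
  have := KillPl_rec1 h5 r K (S * n + c)
  rw [i1, ← add_assoc, this]
  have e1 : -(2 * (2 * ((S * n + c : ℕ) : ℤ) + 1) * r) - 2 =
      -(2 * (2 * c + 1) * r) - 2 + 2 * (n : ℤ) * -(2 * r * S) := by
    push_cast
    ring
  have e2 : -(2 * (r - 1) * ((S * n + c : ℕ) : ℤ)) =
      -(2 * (r - 1) * c) + 2 * (n : ℤ) * -((r - 1) * S) := by
    push_cast
    ring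
  rw [e1, e2, neg_mul]

end

/-! ### The annihilating operator over `O` -/

theorem KillPl_ann (h2 : S_AR) (h3 : S_UBind) (h4 : S_RecTwo) (h5 : S_RecOne) (h6 : S_GermData)
    (O : Type) [CommRing O] [IsNoetherianRing O] (π : O) (σ : O →+* O) (tt MM : Oˣ)
    (ψ : ℤˣ → O →+* GG) (hσ : ∀ a, π ∣ σ a - a) (hσπ : σ π = π) (htt : π ∣ (tt : O) - 1)
    (hσt : σ tt = tt) (hσM : σ MM = tt ^ 2 * MM)
    (hun : ∀ S c : ℕ, 0 < S →
      IsUnit (1 - ((tt ^ (-(4 * (c : ℤ))) * MM ^ (-(2 * (S : ℤ))) : Oˣ) : O)))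
    (ht : ∀ η : ℤˣ, ψ η (tt : O) = gm fun _ => t)
    (hM : ∀ η : ℤˣ, ψ η (MM : O) = gm fun n => ((η : ℤ) : FF) * t ^ (2 * n))
    (hψσ : ∀ η a, ψ η (σ a) = EG (ψ η a)) (K : GK) (hK : K.Valid) :
    ∃ (k : ℕ) (q : Polynomial O) (l : List O),
      (∀ η : ℤˣ, ∑ j ∈ Finset.range (q.natDegree + 1), ψ η (q.coeff j) *
        gm (fun n => K.J (n + j)) = 0) ∧
      (∀ j, π ∣ (q - ((l.map fun z => (X - C z : Polynomial O)).prod) ^ k).coeff j) ∧
      ∀ z ∈ l, ∃ y ∈ K.Lab, π ∣ z - ((y.1 : ℤ) : O) * ((MM ^ y.2 : Oˣ) : O) := by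
  let alg : Algebra O (GG × GG) := ((ψ 1).prod (ψ (-1))).toAlgebra
  set E : GG × GG →+* GG × GG := RingHom.prodMap EG EG with hE
  have hsm : ∀ (a : O) (v : GG × GG), a • v = (ψ 1 a * v.1, ψ (-1) a * v.2) := by
    intro a v
    rw [Algebra.smul_def]
    rfl
  have hEs : ∀ (a : O) (v : GG × GG), E (a • v) = σ a • E v := by
    intro a v
    rw [hsm, hsm, hψσ, hψσ]
    exact Prod.ext (map_mul EG _ _) (map_mul EG _ _)
  let jj : GK → ℕ → ℕ → GG × GG := fun K S c =>
    (gm (fun n => KillPl_J K (S * n + c)), gm (fun n => KillPl_J K (S * n + c)))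
  have hshift : ∀ K S c, 0 < S → E (jj K S c) = jj K S (c + S) := by
    intro K S c _
    have e : EG (gm (fun n => KillPl_J K (S * n + c))) = gm (fun n => KillPl_J K (S * n + (c + S))) := by
      rw [h6.2.1]
      congr 1
      funext n
      congr 1
      ring
    exact Prod.ext e e
  obtain ⟨W, l, hWfg, hWE, hWj, hgood, hlab⟩ := h3 O π σ tt MM hσ hσπ htt hσt hσM hun (GG × GG) E hEs jj hshift
    (by
      intro S c _
      exact Prod.ext (KillPl_idUnknot tt MM (ψ 1) 1 (ht 1) (hM 1) S c)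
        (KillPl_idUnknot tt MM (ψ (-1)) (-1) (ht (-1)) (hM (-1)) S c))
    (by
      intro K L S c _
      rw [hsm]
      exact Prod.ext (KillPl_idSum tt MM (ψ 1) 1 (ht 1) (hM 1) K L S c)
        (KillPl_idSum tt MM (ψ (-1)) (-1) (ht (-1)) (hM (-1)) K L S c))
    (by
      intro r s K S c _ hs hco
      rw [hsm, hsm, hsm]
      exact Prod.ext (KillPl_idTwo tt MM (ψ 1) 1 (ht 1) (hM 1) h4 r s K S c hs hco)
        (KillPl_idTwo tt MM (ψ (-1)) (-1) (ht (-1)) (hM (-1)) h4 r s K S c hs hco))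
    (by
      intro r K S c _ hco
      rw [hsm, hsm]
      exact Prod.ext (KillPl_idOne tt MM (ψ 1) 1 (ht 1) (hM 1) h5 r K S c hco)
        (KillPl_idOne tt MM (ψ (-1)) (-1) (ht (-1)) (hM (-1)) h5 r K S c hco))
    K hK 1 one_pos
  set x : GG × GG := (gm (fun n => K.J n), gm (fun n => K.J n)) with hx
  have hxW : x ∈ W := by
    obtain ⟨u, hu⟩ := hun 1 0 one_pos
    have h7 : (u : O) • x = jj K 1 0 := by
      rw [hsm, hu]
      have e : ∀ η : ℤˣ, ψ η (1 - ((tt ^ (-(4 * ((0 : ℕ) : ℤ))) * MM ^ (-(2 * ((1 : ℕ) : ℤ))) : Oˣ) : O)) *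
          gm (fun n => K.J n) = gm (fun n => KillPl_J K (1 * n + 0)) := by
        intro η
        rw [KillPl_one_sub tt MM (ψ η) η (ht η) (hM η), KillPl_gm_mul]
        congr 1
        funext n
        unfold KillPl_J
        rw [one_mul, add_zero]
      exact Prod.ext (e 1) (e (-1))
    have h8 : ((u⁻¹ : Oˣ) : O) • ((u : O) • x) = x := by
      rw [smul_smul, Units.inv_mul, one_smul]
    rw [← h8, h7]
    exact W.smul_mem _ (hWj 0)
  obtain ⟨k, q, hq, hqred⟩ := h2 O π σ hσ hσπ (GG × GG) E.toAddMonoidHom hEs W hWfg hWE l hgood x hxW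
  have hiter : ∀ j : ℕ, (⇑E.toAddMonoidHom)^[j] x =
      (gm (fun n => K.J (n + j)), gm (fun n => K.J (n + j))) := by
    intro j
    induction j with
    | zero => rfl
    | succ j ih =>
      rw [Function.iterate_succ_apply', ih]
      have e : EG (gm (fun n => K.J (n + j))) = gm (fun n => K.J (n + (j + 1))) := by
        rw [h6.2.1]
        congr 1
        funext n
        congr 1
        ring
      exact Prod.ext e e
  have hq2 : ∑ j ∈ Finset.range (q.natDegree + 1), ((ψ 1 (q.coeff j) * gm (fun n => K.J (n + j)),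
      ψ (-1) (q.coeff j) * gm (fun n => K.J (n + j))) : GG × GG) = 0 := by
    rw [← hq]
    unfold opp
    refine Finset.sum_congr rfl fun j _ => ?_
    rw [hsm, hiter]
  refine ⟨k, q, l, ?_, hqred, ?_⟩
  · intro η
    rcases Int.units_eq_one_or η with h | h
    · rw [h]
      have := congrArg Prod.fst hq2
      rw [Prod.fst_sum] at this
      exact this
    · rw [h]
      have := congrArg Prod.snd hq2
      rw [Prod.snd_sum] at this
      exact this
  · intro z hz
    obtain ⟨y, hy, hdvd⟩ := hlab z hz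
    refine ⟨y, hy, ?_⟩
    simpa using hdvd

/-- repeated lists -/
theorem KillPl_rep {α M : Type} [CommMonoid M] (f : α → M) (l : List α) (k : ℕ) :
    ((List.replicate k l).flatten.map f).prod = (l.map f).prod ^ k := by
  induction k with
  | zero => simp
  | succ k ih => rw [List.replicate_succ, List.flatten_cons, List.map_append, List.prod_append, ih, pow_succ']

theorem KillPl_proof (h1 : S_OO) (h2 : S_AR) (h3 : S_UBind) (h4 : S_RecTwo) (h5 : S_RecOne)
    (h6 : S_GermData) : S_KillPl := by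
  intro K hK
  obtain ⟨O, _, _, _, π, σ, tt, MM, red, ι, ψ, -, -, -, hσ, hσπ, htt, hσt, hσM, hun, hredπ, hredt, hredM,
    hιinj, hιt, hιM, hden, hredι, hψι, hψσ⟩ := h1
  have ht : ∀ η : ℤˣ, ψ η (tt : O) = gm fun _ => t := by
    intro η
    rw [← hιt, hψι]
    congr 1
    funext n
    unfold evPl
    rw [coe_eval₂RingHom, eval₂_C, coe_eval₂RingHom, eval₂_X]
  have hM : ∀ η : ℤˣ, ψ η (MM : O) = gm fun n => ((η : ℤ) : FF) * t ^ (2 * n) := by
    intro η
    rw [← hιM, hψι]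
    congr 1
    funext n
    unfold evPl
    rw [coe_eval₂RingHom, eval₂_X]
  obtain ⟨k, q, l, hq, hqred, hlab⟩ := KillPl_ann h2 h3 h4 h5 h6 O π σ tt MM ψ hσ hσπ htt hσt hσM hun
    ht hM hψσ K hK
  obtain ⟨s, β, hs, hβ⟩ := KillPl_denom red ι hden q
  -- the labels
  have hl : ∃ l' : List (ℤˣ × ℤ), (∀ z ∈ l', z ∈ K.Lab) ∧
      l.map red = l'.map fun z => ((z.1 : ℤ) : RatFunc ℚ) * RatFunc.X ^ z.2 := by
    clear hqred
    induction l with
    | nil => exact ⟨[], by simp, rfl⟩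
    | cons z l ih =>
      obtain ⟨l', h7, h8⟩ := ih (fun w hw => hlab w (List.mem_cons_of_mem _ hw))
      obtain ⟨y, hy, hdvd⟩ := hlab z List.mem_cons_self
      refine ⟨y :: l', ?_, ?_⟩
      · intro w hw
        rcases List.mem_cons.1 hw with h | h
        · rw [h]
          exact hy
        · exact h7 w h
      · rw [List.map_cons, List.map_cons, h8]
        congr 1
        have h9 := (hredπ _).2 hdvd
        rw [map_sub, map_mul, map_intCast, sub_eq_zero] at h9
        rw [h9]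
        congr 1
        have h10 : Units.map red.toMonoidHom MM = Units.mk0 RatFunc.X RatFunc.X_ne_zero :=
          Units.ext hredM
        have h11 : ((Units.map red.toMonoidHom (MM ^ y.2) : (RatFunc ℚ)ˣ) : RatFunc ℚ) = RatFunc.X ^ y.2 := by
          rw [map_zpow, h10, Units.val_zpow_eq_zpow_val, Units.val_mk0]
        exact h11
  obtain ⟨l', hl'1, hl'2⟩ := hl
  have hthred : ∀ p : Pl, KillPl_th (redP p) = red (ι p) := by
    intro p
    rw [hredι]
    exact KillPl_th_toLaurent _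
  refine ⟨β, (List.replicate k l').flatten, redP s, ?_, ?_, ?_, ?_⟩
  · -- killing
    have hdeg : β.natDegree = q.natDegree := by
      have e1 : (β.map ι).natDegree = β.natDegree := natDegree_map_eq_of_injective hιinj β
      rw [← e1, hβ]
      have hs0 : ι s ≠ 0 := by
        intro h
        rw [h, map_zero] at hs
        exact hs rfl
      exact natDegree_C_mul hs0
    have hcoef : ∀ j, ι (β.coeff j) = ι s * q.coeff j := by
      intro j
      rw [← coeff_map, hβ, coeff_C_mul]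
    have hη : ∀ η : ℤˣ, ∃ n₀ : ℕ, ∀ n : ℕ, n₀ ≤ n →
        ∑ j ∈ Finset.range (β.natDegree + 1), evPl n η (β.coeff j) * K.J (n + j) = 0 := by
      intro η
      have e1 : gm (fun n => ∑ j ∈ Finset.range (β.natDegree + 1), evPl n η (β.coeff j) * K.J (n + j)) =
          0 := by
        have e2 : gm (fun n => ∑ j ∈ Finset.range (β.natDegree + 1),
            evPl n η (β.coeff j) * K.J (n + j)) = ∑ j ∈ Finset.range (β.natDegree + 1),
            ψ η (ι (β.coeff j)) * gm (fun n => K.J (n + j)) := by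
          have e3 : (fun n => ∑ j ∈ Finset.range (β.natDegree + 1), evPl n η (β.coeff j) * K.J (n + j)) =
              ∑ j ∈ Finset.range (β.natDegree + 1), fun n => evPl n η (β.coeff j) * K.J (n + j) := by
            funext n
            rw [Finset.sum_apply]
          rw [e3]
          have e4 : ∀ F : ℕ → ℕ → FF, gm (∑ j ∈ Finset.range (β.natDegree + 1), F j) =
              ∑ j ∈ Finset.range (β.natDegree + 1), gm (F j) := by
            intro F
            exact map_sum (Filter.Germ.coeRingHom (R := FF) (Filter.atTop : Filter ℕ)) F _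
          rw [e4]
          refine Finset.sum_congr rfl fun j _ => ?_
          rw [hψι, KillPl_gm_mul]
        rw [e2, hdeg]
        have e5 : ∑ j ∈ Finset.range (q.natDegree + 1), ψ η (ι (β.coeff j)) * gm (fun n => K.J (n + j)) =
            ψ η (ι s) * ∑ j ∈ Finset.range (q.natDegree + 1), ψ η (q.coeff j) *
              gm (fun n => K.J (n + j)) := by
          rw [Finset.mul_sum]
          refine Finset.sum_congr rfl fun j _ => ?_
          rw [hcoef, map_mul, mul_assoc]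
        rw [e5, hq, mul_zero]
      have e6 : (fun n => ∑ j ∈ Finset.range (β.natDegree + 1), evPl n η (β.coeff j) * K.J (n + j))
          =ᶠ[Filter.atTop] fun _ => 0 := Filter.Germ.coe_eq.1 e1
      exact Filter.eventually_atTop.1 e6
    obtain ⟨n₁, hn₁⟩ := hη 1
    obtain ⟨n₂, hn₂⟩ := hη (-1)
    refine ⟨max n₁ n₂, fun n hn η => ?_⟩
    rcases Int.units_eq_one_or η with h | h
    · rw [h]
      exact hn₁ n (le_of_max_le_left hn)
    · rw [h]
      exact hn₂ n (le_of_max_le_right hn)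
  · intro h
    apply hs
    rw [← hthred, h, map_zero]
  · intro z hz
    obtain ⟨l'', h7, h8⟩ := List.mem_flatten.1 hz
    rw [List.eq_of_mem_replicate h7] at h8
    exact hl'1 z h8
  · apply Polynomial.map_injective KillPl_th KillPl_th_inj
    rw [Polynomial.map_map, Polynomial.map_mul, Polynomial.map_C, hthred, KillPl_rep]
    have e1 : KillPl_th.comp redP = red.comp ι := RingHom.ext hthred
    rw [e1, ← Polynomial.map_map, hβ, Polynomial.map_mul, Polynomial.map_C]
    congr 1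
    rw [Polynomial.map_pow]
    have e2 : q.map red = (((l.map fun z => (X - C z : Polynomial O)).prod) ^ k).map red := by
      rw [← sub_eq_zero, ← Polynomial.map_sub]
      ext j
      rw [coeff_map, coeff_zero]
      exact (hredπ _).2 (hqred j)
    rw [e2, Polynomial.map_pow]
    congr 1
    rw [← Polynomial.coe_mapRingHom, map_list_prod, ← Polynomial.coe_mapRingHom, map_list_prod,
      List.map_map, List.map_map]
    have e3 : l.map (⇑(mapRingHom red) ∘ fun z => (X - C z : Polynomial O)) =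
        (l.map red).map fun w => (X - C w : Polynomial (RatFunc ℚ)) := by
      rw [List.map_map]
      refine List.map_congr_left fun z _ => ?_
      simp
    rw [e3, hl'2, List.map_map]
    congr 1
    refine List.map_congr_left fun z _ => ?_
    simp only [Function.comp_apply, coe_mapRingHom, Polynomial.map_sub, Polynomial.map_X,
      Polynomial.map_C, KillPl_th_lab]

end AJG

end

section

/-!
# MP_d3fa71_gt: item OO, the local ring at `t = 1`
-/

open Polynomial

namespace AJG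

/-- `t ↦ 1` -/
noncomputable def OO_rho : Pl →+* ℚ[X] := Polynomial.mapRingHom (Polynomial.evalRingHom (1 : ℚ))

/-- `M ↦ t² M` -/
noncomputable def OO_sP : Pl →+* Pl := Polynomial.eval₂RingHom Polynomial.C (C (X ^ 2) * X)

noncomputable def OO_M0 : Submonoid Pl := (nonZeroDivisors ℚ[X]).comap OO_rho

lemma OO_mem {p : Pl} : p ∈ OO_M0 ↔ OO_rho p ≠ 0 := by
  unfold OO_M0
  rw [Submonoid.mem_comap, mem_nonZeroDivisors_iff_ne_zero]

lemma OO_le : OO_M0 ≤ nonZeroDivisors Pl := by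
  intro p hp
  rw [OO_mem] at hp
  rw [mem_nonZeroDivisors_iff_ne_zero]
  rintro rfl
  exact hp (map_zero _)

lemma OO_rho_C (a : ℚ[X]) : OO_rho (C a) = C (a.eval 1) := by
  unfold OO_rho
  simp

lemma OO_rho_X : OO_rho X = X := by
  unfold OO_rho
  simp

lemma OO_sP_C (a : ℚ[X]) : OO_sP (C a) = C a := by
  unfold OO_sP
  simp

lemma OO_sP_X : OO_sP X = C (X ^ 2) * X := by
  unfold OO_sP
  simp

lemma OO_rho_sP (p : Pl) : OO_rho (OO_sP p) = OO_rho p := by
  have h : OO_rho.comp OO_sP = OO_rho := by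
    refine Polynomial.ringHom_ext ?_ ?_
    · intro a
      rw [RingHom.comp_apply, OO_sP_C]
    · rw [RingHom.comp_apply, OO_sP_X, map_mul, OO_rho_C, OO_rho_X]
      simp
  exact congrArg (fun f : Pl →+* ℚ[X] => f p) h

lemma OO_sP_inj : Function.Injective OO_sP := by
  rw [injective_iff_map_eq_zero]
  intro p hp
  ext1 n
  have h1 : (OO_sP p).coeff n = p.coeff n * (X ^ 2) ^ n := by
    have : OO_sP p = p.comp (C (X ^ 2) * X) := rfl
    rw [this, Polynomial.comp_C_mul_X_coeff]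
  rw [hp, coeff_zero] at h1
  rw [coeff_zero]
  rcases mul_eq_zero.mp h1.symm with h | h
  · exact h
  · exact absurd h (pow_ne_zero _ (pow_ne_zero _ X_ne_zero))

lemma OO_dvd {p : Pl} (h : OO_rho p = 0) : (C (X - 1) : Pl) ∣ p := by
  rw [Polynomial.C_dvd_iff_dvd_coeff]
  intro i
  have h1 : (OO_rho p).coeff i = (p.coeff i).eval 1 := by
    unfold OO_rho
    rw [Polynomial.coe_mapRingHom, Polynomial.coeff_map, Polynomial.coe_evalRingHom]
  rw [h, coeff_zero] at h1
  have h2 : (X - C (1 : ℚ)) ∣ p.coeff i := Polynomial.dvd_iff_isRoot.mpr h1.symm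
  rwa [C_1] at h2

/-- evaluation on germs -/
noncomputable def OO_gP (η : ℤˣ) : Pl →+* GG :=
  (Filter.Germ.coeRingHom (R := FF) (Filter.atTop : Filter ℕ)).comp
    (RingHom.pi fun n => evPl n η)

lemma OO_gP_apply (η : ℤˣ) (p : Pl) : OO_gP η p = gm fun n => evPl n η p := rfl

lemma OO_phi_inj : Function.Injective
    (Polynomial.eval₂RingHom (algebraMap ℚ FF) t : ℚ[X] →+* FF) := by
  have h : (Polynomial.eval₂RingHom (algebraMap ℚ FF) t : ℚ[X] →+* FF) =
      algebraMap ℚ[X] (RatFunc ℚ) := by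
    refine Polynomial.ringHom_ext ?_ ?_
    · intro a
      simp only [Polynomial.coe_eval₂RingHom, Polynomial.eval₂_C]
      rw [RatFunc.algebraMap_C]
      exact congrArg (fun f : ℚ →+* FF => f a) (Subsingleton.elim (algebraMap ℚ FF) RatFunc.C)
    · simp only [Polynomial.coe_eval₂RingHom, Polynomial.eval₂_X]
      unfold t
      rw [RatFunc.algebraMap_X]
  rw [h]
  exact RatFunc.algebraMap_injective ℚ

lemma OO_pow_inj (η : ℤˣ) : Function.Injective fun n : ℕ => ((η : ℤ) : FF) * t ^ (2 * n) := by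
  intro a b hab
  simp only at hab
  have hη : ((η : ℤ) : FF) ≠ 0 := by
    rcases Int.units_eq_one_or η with rfl | rfl <;> simp
  have h1 := mul_left_cancel₀ hη hab
  have h2 : (algebraMap ℚ[X] (RatFunc ℚ)) (X ^ (2 * a)) = algebraMap ℚ[X] (RatFunc ℚ) (X ^ (2 * b)) := by
    rw [map_pow, map_pow, RatFunc.algebraMap_X]
    exact h1
  have h3 := RatFunc.algebraMap_injective ℚ h2
  have h4 := congrArg Polynomial.natDegree h3
  rw [natDegree_X_pow, natDegree_X_pow] at h4
  omega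

lemma OO_ev_ne {p : Pl} (hp : p ≠ 0) (η : ℤˣ) : ∀ᶠ n in Filter.atTop, evPl n η p ≠ 0 := by
  classical
  set φ := (Polynomial.eval₂RingHom (algebraMap ℚ FF) t : ℚ[X] →+* FF) with hφ
  have h1 : p.map φ ≠ 0 := by
    intro h
    exact hp ((Polynomial.map_eq_zero_iff OO_phi_inj).mp h)
  have h2 : ∀ n, evPl n η p = (p.map φ).eval (((η : ℤ) : FF) * t ^ (2 * n)) := by
    intro n
    rw [Polynomial.eval_map]
    rfl
  have h3 : {x | (p.map φ).IsRoot x}.Finite := by
    have := (p.map φ).roots.toFinset.finite_toSet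
    refine this.subset ?_
    intro x hx
    simp only [Finset.mem_coe, Multiset.mem_toFinset]
    exact (Polynomial.mem_roots h1).mpr hx
  have h4 : {n : ℕ | evPl n η p = 0}.Finite := by
    refine Set.Finite.preimage (f := fun n : ℕ => ((η : ℤ) : FF) * t ^ (2 * n))
      ((OO_pow_inj η).injOn) h3 |>.subset ?_
    intro n hn
    rw [Set.mem_ofPred_eq, h2] at hn
    exact hn
  have h5 := h4.compl_mem_cofinite
  rw [Nat.cofinite_eq_atTop] at h5
  exact h5

lemma OO_gP_unit {p : Pl} (hp : p ≠ 0) (η : ℤˣ) : IsUnit (OO_gP η p) := by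
  rw [isUnit_iff_exists_inv]
  refine ⟨gm fun n => (evPl n η p)⁻¹, ?_⟩
  rw [OO_gP_apply]
  show ((fun n => evPl n η p * (evPl n η p)⁻¹ : ℕ → FF) : GG) = ((fun _ => 1 : ℕ → FF) : GG)
  refine Filter.Germ.coe_eq.2 ?_
  filter_upwards [OO_ev_ne hp η] with n hn
  exact mul_inv_cancel₀ hn

lemma OO_ev_sP (n : ℕ) (η : ℤˣ) (p : Pl) : evPl n η (OO_sP p) = evPl (n + 1) η p := by
  have h : (evPl n η).comp OO_sP = evPl (n + 1) η := by
    refine Polynomial.ringHom_ext ?_ ?_
    · intro a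
      rw [RingHom.comp_apply, OO_sP_C]
      unfold evPl
      simp only [Polynomial.coe_eval₂RingHom, Polynomial.eval₂_C]
    · rw [RingHom.comp_apply, OO_sP_X, map_mul]
      unfold evPl
      simp only [Polynomial.coe_eval₂RingHom, Polynomial.eval₂_C, Polynomial.eval₂_X,
        Polynomial.eval₂_pow]
      ring
  exact congrArg (fun f : Pl →+* FF => f p) h

/-- the properties of the localisation -/
theorem OO_gen (O : Type) [CommRing O] [IsDomain O] [IsNoetherianRing O] [Algebra Pl O]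
    [IsLocalization OO_M0 O] : ∃ (π : O) (σ : O →+* O) (tt MM : Oˣ) (red : O →+* RatFunc ℚ)
  (ι : Pl →+* O) (ψ : ℤˣ → O →+* GG),
  Function.Injective σ ∧ Prime π ∧ (∀ a : O, a ≠ 0 → ∃ (k : ℕ) (b : O), a = π ^ k * b ∧ ¬ π ∣ b) ∧
  (∀ a, π ∣ σ a - a) ∧ σ π = π ∧ π ∣ (tt : O) - 1 ∧ σ tt = tt ∧ σ MM = tt ^ 2 * MM ∧
  (∀ S c : ℕ, 0 < S → IsUnit (1 - ((tt ^ (-(4 * (c : ℤ))) * MM ^ (-(2 * (S : ℤ))) : Oˣ) : O))) ∧
  (∀ a, red a = 0 ↔ π ∣ a) ∧ red tt = 1 ∧ red MM = RatFunc.X ∧
  Function.Injective ι ∧ ι (C X) = tt ∧ ι X = MM ∧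
  (∀ a : O, ∃ p s : Pl, ι s * a = ι p ∧ red (ι s) ≠ 0) ∧
  (∀ p : Pl, red (ι p) = algebraMap ℚ[X] (RatFunc ℚ) (Polynomial.map (Polynomial.evalRingHom 1) p)) ∧
  (∀ η p, ψ η (ι p) = gm fun n => evPl n η p) ∧ ∀ η a, ψ η (σ a) = EG (ψ η a) := by
  let ι : Pl →+* O := algebraMap Pl O
  have hι : Function.Injective ι := IsLocalization.injective O OO_le
  have hιu : ∀ p : Pl, OO_rho p ≠ 0 → IsUnit (ι p) := fun p hp =>
    IsLocalization.map_units O (⟨p, OO_mem.mpr hp⟩ : OO_M0)
  have hCX : OO_rho (C X) ≠ 0 := by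
    rw [OO_rho_C]; simp
  have hX : OO_rho X ≠ 0 := by
    rw [OO_rho_X]; exact X_ne_zero
  let g : Pl →+* RatFunc ℚ := (algebraMap ℚ[X] (RatFunc ℚ)).comp OO_rho
  have hg : ∀ y : OO_M0, IsUnit (g y) := by
    intro y
    rw [isUnit_iff_ne_zero]
    intro h
    exact OO_mem.mp y.2 ((map_eq_zero_iff _ (RatFunc.algebraMap_injective ℚ)).mp h)
  let red : O →+* RatFunc ℚ := IsLocalization.lift hg
  have hred : ∀ p, red (ι p) = algebraMap ℚ[X] (RatFunc ℚ) (OO_rho p) := fun p =>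
    IsLocalization.lift_eq hg p
  have hσ0 : OO_M0 ≤ OO_M0.comap OO_sP := by
    intro p hp
    rw [Submonoid.mem_comap, OO_mem, OO_rho_sP]
    exact OO_mem.mp hp
  let σ : O →+* O :=
    IsLocalization.map (O) OO_sP hσ0
  have hσ : ∀ p, σ (ι p) = ι (OO_sP p) := fun p => IsLocalization.map_eq hσ0 p
  have hψ0 : ∀ η : ℤˣ, ∀ y : OO_M0, IsUnit (OO_gP η y) := by
    intro η y
    refine OO_gP_unit ?_ η
    exact mem_nonZeroDivisors_iff_ne_zero.mp (OO_le y.2)
  let ψ : ℤˣ → O →+* GG := fun η => IsLocalization.lift (hψ0 η)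
  have hψ : ∀ η p, ψ η (ι p) = gm fun n => evPl n η p := fun η p =>
    IsLocalization.lift_eq (hψ0 η) p
  let tt : Oˣ := (hιu (C X) hCX).unit
  let MM : Oˣ := (hιu X hX).unit
  have htt : (tt : O) = ι (C X) := IsUnit.unit_spec _
  have hMM : (MM : O) = ι X := IsUnit.unit_spec _
  let π : O := ι (C (X - 1))
  have hπtt : π = (tt : O) - 1 := by
    rw [htt]
    show ι (C (X - 1)) = ι (C X) - 1
    rw [C_sub, map_sub, C_1, map_one]
  have hredπ : red π = 0 := by
    show red (ι (C (X - 1))) = 0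
    rw [hred, OO_rho_C]
    simp
  have hsurj : ∀ a : O, ∃ p s : Pl, ι s * a = ι p ∧ OO_rho s ≠ 0 := by
    intro a
    obtain ⟨⟨p, s⟩, h⟩ := IsLocalization.surj OO_M0 a
    refine ⟨p, s, ?_, OO_mem.mp s.2⟩
    rw [mul_comm]
    exact h
  have hredne : ∀ s : Pl, OO_rho s ≠ 0 → red (ι s) ≠ 0 := by
    intro s hs h
    rw [hred] at h
    exact hs ((map_eq_zero_iff _ (RatFunc.algebraMap_injective ℚ)).mp h)
  have hker : ∀ a, red a = 0 ↔ π ∣ a := by
    intro a
    constructor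
    · intro h
      obtain ⟨p, s, hps, hs⟩ := hsurj a
      have h1 : red (ι p) = 0 := by rw [← hps, map_mul, h, mul_zero]
      rw [hred] at h1
      have h2 := OO_dvd ((map_eq_zero_iff _ (RatFunc.algebraMap_injective ℚ)).mp h1)
      have h3 : π ∣ ι s * a := by
        rw [hps]
        exact map_dvd ι h2
      exact ((hιu s hs).dvd_mul_left).mp h3
    · rintro ⟨b, rfl⟩
      rw [map_mul, hredπ, zero_mul]
  have hredσ : ∀ a, red (σ a) = red a := by
    have h : red.comp σ = red := by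
      refine IsLocalization.ringHom_ext OO_M0 ?_
      refine RingHom.ext fun p => ?_
      show red (σ (ι p)) = red (ι p)
      rw [hσ, hred, hred, OO_rho_sP]
    intro a
    exact congrArg (fun f : O →+* RatFunc ℚ => f a) h
  have hπ0 : π ≠ 0 := by
    intro h
    have h1 : ι (C (X - 1)) = ι 0 := by rw [map_zero]; exact h
    have h2 := hι h1
    rw [C_eq_zero] at h2
    exact X_sub_C_ne_zero (1 : ℚ) (by rw [C_1]; exact h2)
  have hprime : Prime π := by
    refine ⟨hπ0, ?_, ?_⟩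
    · intro h
      have := h.map red
      rw [hredπ] at this
      exact not_isUnit_zero this
    · intro a b hab
      rw [← hker, map_mul, mul_eq_zero] at hab
      rw [← hker, ← hker]
      exact hab
  refine ⟨π, σ, tt, MM, red, ι, ψ,
    ?_, hprime, ?_, ?_, ?_, ?_, ?_, ?_, ?_, hker, ?_, ?_, hι, htt.symm, hMM.symm, ?_, ?_, hψ, ?_⟩
  · -- injectivity of sigma
    rw [injective_iff_map_eq_zero]
    intro a ha
    obtain ⟨p, s, hps, hs⟩ := hsurj a
    have h1 : ι (OO_sP p) = 0 := by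
      rw [← hσ, ← hps, map_mul, ha, mul_zero]
    have h2 : p = 0 := by
      have h3 : ι (OO_sP p) = ι 0 := by rw [map_zero]; exact h1
      have h4 := hι h3
      exact OO_sP_inj (by rw [h4, map_zero])
    rw [h2, map_zero] at hps
    rcases mul_eq_zero.mp hps with h | h
    · exact absurd h (hιu s hs).ne_zero
    · exact h
  · intro a ha
    obtain ⟨n, b, hb, hab⟩ := WfDvdMonoid.max_power_factor ha hprime.irreducible
    exact ⟨n, b, hab, hb⟩
  · intro a
    rw [← hker, map_sub, hredσ, sub_self]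
  · show σ (ι (C (X - 1))) = ι (C (X - 1))
    rw [hσ, OO_sP_C]
  · rw [hπtt]
  · rw [htt, hσ, OO_sP_C]
  · rw [hMM, htt, hσ, OO_sP_X, map_mul, C_pow, map_pow]
  · intro S c hS
    set u : Oˣ := tt ^ (4 * c) * MM ^ (2 * S) with hu
    have h1 : (tt ^ (-(4 * (c : ℤ))) * MM ^ (-(2 * (S : ℤ))) : Oˣ) = u⁻¹ := by
      rw [hu, mul_inv, ← zpow_natCast tt, ← zpow_natCast MM, ← zpow_neg, ← zpow_neg]
      push_cast
      rfl
    rw [h1]
    have h2 : (1 : O) - ((u⁻¹ : Oˣ) : O) =
        ((u⁻¹ : Oˣ) : O) * ((u : O) - 1) := by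
      rw [mul_sub, Units.inv_mul, mul_one]
    rw [h2]
    refine (Units.isUnit _).mul ?_
    have h3 : (u : O) - 1 = ι (C X ^ (4 * c) * X ^ (2 * S) - 1) := by
      rw [hu, Units.val_mul, Units.val_pow_eq_pow_val, Units.val_pow_eq_pow_val, htt, hMM, map_sub,
        map_mul, map_pow, map_pow, map_one]
    rw [h3]
    refine hιu _ ?_
    rw [map_sub, map_mul, map_pow, map_pow, OO_rho_C, OO_rho_X, map_one]
    simp only [eval_X, map_one, one_pow, one_mul]
    intro h
    have h4 := congrArg Polynomial.natDegree (sub_eq_zero.mp h)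
    rw [natDegree_X_pow, natDegree_one] at h4
    omega
  · rw [htt, hred, OO_rho_C]
    simp
  · rw [hMM, hred, OO_rho_X, RatFunc.algebraMap_X]
  · intro a
    obtain ⟨p, s, hps, hs⟩ := hsurj a
    exact ⟨p, s, hps, hredne s hs⟩
  · intro p
    exact hred p
  · intro η a
    have h : (ψ η).comp σ = EG.comp (ψ η) := by
      refine IsLocalization.ringHom_ext OO_M0 ?_
      refine RingHom.ext fun p => ?_
      show ψ η (σ (ι p)) = EG (ψ η (ι p))
      rw [hσ, hψ, hψ]
      have h1 : (fun n => evPl n η (OO_sP p)) = fun n => evPl (n + 1) η p :=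
        funext fun n => OO_ev_sP n η p
      rw [h1]
      rfl
    exact congrArg (fun f : O →+* GG => f a) h

theorem OO_proof : S_OO := by
  have hdom : IsDomain (Localization OO_M0) :=
    IsLocalization.isDomain_of_le_nonZeroDivisors (S := Localization OO_M0) OO_le
  have hnoe : IsNoetherianRing (Localization OO_M0) :=
    IsLocalization.isNoetherianRing OO_M0 (Localization OO_M0) inferInstance
  exact ⟨Localization OO_M0, inferInstance, hdom, hnoe, OO_gen (Localization OO_M0)⟩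

end AJG

end

section

/-! # MP_d3fa71_gt: item Prod -/

open Polynomial

namespace AJG

section Alg

variable {O R : Type} [CommRing O] [Ring R] [Algebra O R]

/-- any two elements of the algebra generated by two commuting elements commute -/
theorem Prod_comm {A B : R} (hAB : Commute A B) {x y : R}
    (hx : x ∈ Algebra.adjoin O ({A, B} : Set R)) (hy : y ∈ Algebra.adjoin O ({A, B} : Set R)) :
    Commute x y := by
  have h1 : ∀ z ∈ ({A, B} : Set R), ∀ w ∈ ({A, B} : Set R), Commute z w := by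
    rintro z (rfl | rfl) w (rfl | rfl)
    · exact Commute.refl _
    · exact hAB
    · exact hAB.symm
    · exact Commute.refl _
  have h2 : ∀ z ∈ ({A, B} : Set R), Commute x z := by
    intro z hz
    refine Algebra.adjoin_induction (p := fun x _ => Commute x z) (fun w hw => h1 w hw z hz)
      (fun r => Algebra.commutes r z) (fun a b _ _ ha hb => ha.add_left hb)
      (fun a b _ _ ha hb => ha.mul_left hb) hx
  refine Algebra.adjoin_induction (p := fun y _ => Commute x y) (fun w hw => h2 w hw)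
      (fun r => (Algebra.commutes r x).symm) (fun a b _ _ ha hb => ha.add_right hb)
      (fun a b _ _ ha hb => ha.mul_right hb) hy

theorem Prod_memA (A B : R) : A ∈ Algebra.adjoin O ({A, B} : Set R) :=
  Algebra.subset_adjoin (by simp)

theorem Prod_memB (A B : R) : B ∈ Algebra.adjoin O ({A, B} : Set R) :=
  Algebra.subset_adjoin (by simp)

theorem Prod_memP (A B : R) {C : R} (hC : C ∈ Algebra.adjoin O ({A, B} : Set R)) (l : List O) :
    (l.map fun b => C - algebraMap O R b).prod ∈ Algebra.adjoin O ({A, B} : Set R) := by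
  induction l with
  | nil => simp
  | cons b l ih =>
    rw [List.map_cons, List.prod_cons]
    exact Subalgebra.mul_mem _ (Subalgebra.sub_mem _ hC (Subalgebra.algebraMap_mem _ b)) ih

theorem Prod_one {A B : R} (hAB : Commute A B) (a : O) (l : List O) :
    ∃ c ∈ Algebra.adjoin O ({A, B} : Set R),
      ((l.map fun b => a * b).map fun z => A * B - algebraMap O R z).prod =
        algebraMap O R (a ^ l.length) * (l.map fun b => B - algebraMap O R b).prod +
        (A - algebraMap O R a) * c := by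
  induction l with
  | nil => exact ⟨0, Subalgebra.zero_mem _, by simp⟩
  | cons b l ih =>
    obtain ⟨c, hc, h⟩ := ih
    set P := (l.map fun b => B - algebraMap O R b).prod with hP
    have hA := Prod_memA (O := O) A B
    have hB := Prod_memB (O := O) A B
    have hPm : P ∈ Algebra.adjoin O ({A, B} : Set R) := Prod_memP A B hB l
    refine ⟨algebraMap O R (a ^ l.length) * (B * P) + (A * B - algebraMap O R (a * b)) * c,
      Subalgebra.add_mem _ (Subalgebra.mul_mem _ (Subalgebra.algebraMap_mem _ _)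
        (Subalgebra.mul_mem _ hB hPm)) (Subalgebra.mul_mem _ (Subalgebra.sub_mem _
        (Subalgebra.mul_mem _ hA hB) (Subalgebra.algebraMap_mem _ _)) hc), ?_⟩
    rw [List.map_cons, List.map_cons, List.prod_cons, h, List.map_cons, List.prod_cons,
      List.length_cons, ← hP]
    set α := algebraMap O R a with hα
    set β := algebraMap O R b with hβ
    set γ := algebraMap O R (a ^ l.length) with hγ
    have e1 : algebraMap O R (a * b) = α * β := by rw [map_mul]
    have e2 : algebraMap O R (a ^ (l.length + 1)) = α * γ := by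
      rw [hα, hγ, ← map_mul, pow_succ, mul_comm]
    rw [e1, e2]
    have cα : ∀ x : R, α * x = x * α := fun x => Algebra.commutes a x
    have cγ : ∀ x : R, γ * x = x * γ := fun x => Algebra.commutes _ x
    have k1 : A * B - α * β = α * (B - β) + (A - α) * B := by
      rw [mul_sub, sub_mul]; abel
    have k2 : (A * B - α * β) * (A - α) = (A - α) * (A * B - α * β) := by
      have m1 : A - α ∈ Algebra.adjoin O ({A, B} : Set R) :=
        Subalgebra.sub_mem _ hA (Subalgebra.algebraMap_mem _ _)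
      have m2 : A * B - α * β ∈ Algebra.adjoin O ({A, B} : Set R) :=
        Subalgebra.sub_mem _ (Subalgebra.mul_mem _ hA hB) (Subalgebra.mul_mem _
          (Subalgebra.algebraMap_mem _ _) (Subalgebra.algebraMap_mem _ _))
      exact Prod_comm hAB m2 m1
    calc (A * B - α * β) * (γ * P + (A - α) * c)
        = (A * B - α * β) * (γ * P) + ((A * B - α * β) * (A - α)) * c := by
          rw [mul_add, mul_assoc]
      _ = (α * (B - β) + (A - α) * B) * (γ * P) + ((A - α) * (A * B - α * β)) * c := by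
          rw [k2, ← k1]
      _ = α * γ * ((B - β) * P) + (A - α) * (γ * (B * P) + (A * B - α * β) * c) := by
          have k3 : (B - β) * (γ * P) = γ * ((B - β) * P) := by
            rw [← mul_assoc, ← cγ, mul_assoc]
          have k4 : B * (γ * P) = γ * (B * P) := by rw [← mul_assoc, ← cγ, mul_assoc]
          rw [add_mul, mul_assoc α, k3, mul_assoc (A - α) B, k4, mul_add, mul_assoc (A - α),
            ← mul_assoc α γ]
          abel

end Alg

section Main

variable {O V : Type} [CommRing O]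

theorem Prod_oplcons [AddCommGroup V] [Module O V] (E : V →+ V) (z : O) (l : List O) (w : V) :
    opl E (z :: l) w = E (opl E l w) - z • opl E l w := rfl

/-- iterated differences of functions along a map `e` -/
theorem Prod_G [AddCommGroup V] [Module O V] (π : O) (σ : O →+* O) (hσ : ∀ a, π ∣ σ a - a)
    (E : V →+ V) (hE : ∀ (a : O) (v : V), E (a • v) = σ a • E v) (W : Submodule O V)
    (hW : ∀ w ∈ W, E w ∈ W) {I : Type} (e : I → I) (K : Set I) (hK : ∀ i ∈ K, e i ∈ K)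
    (T : I → V) (hT : ∀ i ∈ K, T i ∈ W) (hTE : ∀ i ∈ K, ∃ u ∈ W, E (T i) - T (e i) = π • u)
    (L : List O) :
    ∀ i ∈ K, (((L.map fun z => LinearMap.funLeft O V e -
        algebraMap O (Module.End O (I → V)) z).prod T) i ∈ W) ∧
      (∃ u ∈ W, E (((L.map fun z => LinearMap.funLeft O V e -
        algebraMap O (Module.End O (I → V)) z).prod T) i) - ((L.map fun z => LinearMap.funLeft O V e -
        algebraMap O (Module.End O (I → V)) z).prod T) (e i) = π • u) ∧
      ∃ u ∈ W, opl E L (T i) - ((L.map fun z => LinearMap.funLeft O V e -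
        algebraMap O (Module.End O (I → V)) z).prod T) i = π • u := by
  induction L with
  | nil =>
    intro i hi
    exact ⟨hT i hi, hTE i hi, 0, W.zero_mem, by simp [opl]⟩
  | cons z L ih =>
    intro i hi
    set G := (L.map fun z => LinearMap.funLeft O V e -
        algebraMap O (Module.End O (I → V)) z).prod T with hG
    have hrec : ∀ j, ((((z :: L).map fun z => LinearMap.funLeft O V e -
        algebraMap O (Module.End O (I → V)) z).prod T) j) = G (e j) - z • G j := by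
      intro j
      rw [List.map_cons, List.prod_cons, Module.End.mul_apply, LinearMap.sub_apply, ← hG]
      simp [LinearMap.funLeft_apply]
    obtain ⟨g1, ⟨u1, hu1, g2⟩, u2, hu2, g3⟩ := ih i hi
    obtain ⟨g1', ⟨u1', hu1', g2'⟩, -⟩ := ih (e i) (hK i hi)
    obtain ⟨cz, hcz⟩ := hσ z
    obtain ⟨cπ, hcπ⟩ := hσ π
    refine ⟨?_, ?_, ?_⟩
    · rw [hrec]; exact W.sub_mem g1' (W.smul_mem _ g1)
    · rw [hrec, hrec, map_sub, hE]
      refine ⟨u1' - z • u1 - cz • E (G i), W.sub_mem (W.sub_mem hu1' (W.smul_mem _ hu1))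
        (W.smul_mem _ (hW _ g1)), ?_⟩
      have h1 : σ z = z + π * cz := by rw [← hcz]; ring
      rw [h1, smul_sub, smul_sub, ← g2', smul_comm π z, ← g2, add_smul, smul_sub, mul_smul]
      abel
    · rw [hrec, Prod_oplcons]
      have h2 : opl E L (T i) = G i + π • u2 := by rw [← g3]; abel
      have h3 : σ π = π * (1 + cπ) := by rw [mul_add, ← hcπ]; ring
      refine ⟨u1 + (1 + cπ) • E u2 - z • u2, W.sub_mem (W.add_mem hu1 (W.smul_mem _ (hW _ hu2)))
        (W.smul_mem _ hu2), ?_⟩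
      rw [h2, map_add, hE, h3, smul_sub, smul_add π u1, ← g2, smul_add z, mul_smul, smul_comm π z]
      abel

theorem Prod_aux [CommRing V] [Algebra O V] (π : O) (σ : O →+* O) (hσ : ∀ a, π ∣ σ a - a)
    (E : V →+* V) (hE : ∀ (a : O) (v : V), E (a • v) = σ a • E v) (W₁ W₂ : Submodule O V)
    (hW₁ : ∀ w ∈ W₁, E w ∈ W₁) (hW₂ : ∀ w ∈ W₂, E w ∈ W₂) (l₁ l₂ : List O)
    (hg1 : Good π E.toAddMonoidHom W₁ l₁) (hg2 : Good π E.toAddMonoidHom W₂ l₂) :
    ∀ w₁ ∈ W₁, ∀ w₂ ∈ W₂, ∃ u ∈ W₁ * W₂,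
      opl E.toAddMonoidHom (l₁.flatMap fun a => l₂.map fun b => a * b) (w₁ * w₂) = π • u := by
  set W := W₁ * W₂ with hWdef
  have hW : ∀ w ∈ W, E w ∈ W := by
    intro w hw
    refine Submodule.mul_induction_on hw (fun m hm n hn => ?_) (fun x y hx hy => ?_)
    · rw [map_mul]; exact Submodule.mul_mem_mul (hW₁ m hm) (hW₂ n hn)
    · rw [map_add]; exact W.add_mem hx hy
  -- operators
  let eA : V × V → V × V := fun p => (E p.1, p.2)
  let eB : V × V → V × V := fun p => (p.1, E p.2)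
  let A : Module.End O (V × V → V) := LinearMap.funLeft O V eA
  let B : Module.End O (V × V → V) := LinearMap.funLeft O V eB
  have hAB : Commute A B := by
    refine LinearMap.ext fun T => funext fun p => ?_
    rfl
  have hABe : A * B = LinearMap.funLeft O V (fun p : V × V => (E p.1, E p.2)) := by
    refine LinearMap.ext fun T => funext fun p => ?_
    rfl
  let T₀ : V × V → V := fun p => p.1 * p.2
  let K : Set (V × V) := {p | p.1 ∈ W₁ ∧ p.2 ∈ W₂}
  -- the functions with values in `π W` on `K`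
  let N : Submodule O (V × V → V) :=
    { carrier := {T | ∀ p ∈ K, ∃ u ∈ W, T p = π • u}
      add_mem' := by
        intro S T hS hT p hp
        obtain ⟨u, hu, h⟩ := hS p hp
        obtain ⟨u', hu', h'⟩ := hT p hp
        exact ⟨u + u', W.add_mem hu hu', by rw [Pi.add_apply, h, h', smul_add]⟩
      zero_mem' := fun p _ => ⟨0, W.zero_mem, by simp⟩
      smul_mem' := by
        intro c T hT p hp
        obtain ⟨u, hu, h⟩ := hT p hp
        exact ⟨c • u, W.smul_mem _ hu, by rw [Pi.smul_apply, h, smul_comm]⟩ }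
  have hNA : ∀ T ∈ N, A T ∈ N := fun T hT p hp => hT (eA p) ⟨hW₁ _ hp.1, hp.2⟩
  have hNB : ∀ T ∈ N, B T ∈ N := fun T hT p hp => hT (eB p) ⟨hp.1, hW₂ _ hp.2⟩
  have hNS : ∀ D ∈ Algebra.adjoin O ({A, B} : Set (Module.End O (V × V → V))), ∀ T ∈ N,
      D T ∈ N := by
    intro D hD
    refine Algebra.adjoin_induction (p := fun D _ => ∀ T ∈ N, D T ∈ N) ?_ ?_ ?_ ?_ hD
    · rintro x (rfl | rfl)
      · exact hNA
      · exact hNB
    · intro r T hT
      rw [Module.algebraMap_end_apply]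
      exact N.smul_mem _ hT
    · intro x y _ _ hx hy T hT
      rw [LinearMap.add_apply]; exact N.add_mem (hx T hT) (hy T hT)
    · intro x y _ _ hx hy T hT
      rw [Module.End.mul_apply]; exact hx _ (hy T hT)
  have hAm := Prod_memA (O := O) A B
  have hBm := Prod_memB (O := O) A B
  -- `∏ (A - a) T₀` and `∏ (B - b) T₀` are in `N`
  have hPA : (l₁.map fun a => A - algebraMap O (Module.End O (V × V → V)) a).prod T₀ ∈ N := by
    have hG := Prod_G π σ hσ E.toAddMonoidHom hE W₁ hW₁ (fun w => E w) (W₁ : Set V)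
      (fun i hi => hW₁ i hi) id (fun i hi => hi)
      (fun i hi => ⟨0, W₁.zero_mem, by simp⟩) l₁
    have hform : ∀ (l : List O) (p : V × V),
        ((l.map fun a => A - algebraMap O (Module.End O (V × V → V)) a).prod T₀) p =
        (((l.map fun z => LinearMap.funLeft O V (fun w => E w) -
          algebraMap O (Module.End O (V → V)) z).prod id) p.1) * p.2 := by
      intro l
      induction l with
      | nil => intro p; simp [T₀]
      | cons z l ih =>
        intro p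
        rw [List.map_cons, List.prod_cons, Module.End.mul_apply, LinearMap.sub_apply,
          List.map_cons, List.prod_cons, Module.End.mul_apply, LinearMap.sub_apply]
        rw [Module.algebraMap_end_apply, Module.algebraMap_end_apply]
        rw [Pi.sub_apply, Pi.sub_apply, Pi.smul_apply, Pi.smul_apply]
        have h1 : ∀ F : V × V → V, (A F) p = F (E p.1, p.2) := fun F => rfl
        rw [h1, ih, ih, LinearMap.funLeft_apply, sub_mul, smul_mul_assoc]
    intro p hp
    obtain ⟨-, -, u, hu, h⟩ := hG p.1 hp.1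
    obtain ⟨u', hu', h'⟩ := hg1 p.1 hp.1
    rw [hform]
    refine ⟨(u' - u) * p.2, Submodule.mul_mem_mul (W₁.sub_mem hu' hu) hp.2, ?_⟩
    have h2 : ((l₁.map fun z => LinearMap.funLeft O V (fun w => E w) -
          algebraMap O (Module.End O (V → V)) z).prod id) p.1 = π • (u' - u) := by
      have h3 : opl E.toAddMonoidHom l₁ (id p.1) = π • u' := h'
      rw [h3] at h
      rw [smul_sub, ← h]
      abel
    rw [h2, smul_mul_assoc]
  have hPB : (l₂.map fun a => B - algebraMap O (Module.End O (V × V → V)) a).prod T₀ ∈ N := by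
    have hG := Prod_G π σ hσ E.toAddMonoidHom hE W₂ hW₂ (fun w => E w) (W₂ : Set V)
      (fun i hi => hW₂ i hi) id (fun i hi => hi)
      (fun i hi => ⟨0, W₂.zero_mem, by simp⟩) l₂
    have hform : ∀ (l : List O) (p : V × V),
        ((l.map fun a => B - algebraMap O (Module.End O (V × V → V)) a).prod T₀) p =
        p.1 * (((l.map fun z => LinearMap.funLeft O V (fun w => E w) -
          algebraMap O (Module.End O (V → V)) z).prod id) p.2) := by
      intro l
      induction l with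
      | nil => intro p; simp [T₀]
      | cons z l ih =>
        intro p
        rw [List.map_cons, List.prod_cons, Module.End.mul_apply, LinearMap.sub_apply,
          List.map_cons, List.prod_cons, Module.End.mul_apply, LinearMap.sub_apply]
        rw [Module.algebraMap_end_apply, Module.algebraMap_end_apply]
        rw [Pi.sub_apply, Pi.sub_apply, Pi.smul_apply, Pi.smul_apply]
        have h1 : ∀ F : V × V → V, (B F) p = F (p.1, E p.2) := fun F => rfl
        rw [h1, ih, ih, LinearMap.funLeft_apply, mul_sub, mul_smul_comm]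
    intro p hp
    obtain ⟨-, -, u, hu, h⟩ := hG p.2 hp.2
    obtain ⟨u', hu', h'⟩ := hg2 p.2 hp.2
    rw [hform]
    refine ⟨p.1 * (u' - u), Submodule.mul_mem_mul hp.1 (W₂.sub_mem hu' hu), ?_⟩
    have h2 : ((l₂.map fun z => LinearMap.funLeft O V (fun w => E w) -
          algebraMap O (Module.End O (V → V)) z).prod id) p.2 = π • (u' - u) := by
      have h3 : opl E.toAddMonoidHom l₂ (id p.2) = π • u' := h'
      rw [h3] at h
      rw [smul_sub, ← h]
      abel
    rw [h2, mul_smul_comm]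
  -- the double product
  have key : ∀ l : List O, ∃ c ∈ Algebra.adjoin O ({A, B} : Set (Module.End O (V × V → V))),
      (((l.flatMap fun a => l₂.map fun b => a * b).map fun z =>
        A * B - algebraMap O (Module.End O (V × V → V)) z).prod T₀) -
      ((l.map fun a => A - algebraMap O (Module.End O (V × V → V)) a).prod * c) T₀ ∈ N := by
    intro l
    induction l with
    | nil =>
      refine ⟨1, Subalgebra.one_mem _, ?_⟩
      simp
    | cons a l ih =>
      obtain ⟨c, hc, h⟩ := ih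
      obtain ⟨ca, hca, hone⟩ := Prod_one (O := O) hAB a l₂
      set PB := (l₂.map fun a => B - algebraMap O (Module.End O (V × V → V)) a).prod with hPBdef
      set PA := (l.map fun a => A - algebraMap O (Module.End O (V × V → V)) a).prod with hPAdef
      have hPAm : PA ∈ Algebra.adjoin O ({A, B} : Set (Module.End O (V × V → V))) :=
        Prod_memP A B hAm l
      have hPBm : PB ∈ Algebra.adjoin O ({A, B} : Set (Module.End O (V × V → V))) :=
        Prod_memP A B hBm l₂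
      refine ⟨ca * c, Subalgebra.mul_mem _ hca hc, ?_⟩
      rw [List.flatMap_cons, List.map_append, List.prod_append, List.map_cons, List.prod_cons,
        ← hPAdef]
      set Da := ((l₂.map fun b => a * b).map fun z =>
        A * B - algebraMap O (Module.End O (V × V → V)) z).prod with hDa
      set Dl := ((l.flatMap fun a => l₂.map fun b => a * b).map fun z =>
        A * B - algebraMap O (Module.End O (V × V → V)) z).prod with hDl
      have hDam : Da ∈ Algebra.adjoin O ({A, B} : Set (Module.End O (V × V → V))) :=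
        Prod_memP A B (Subalgebra.mul_mem _ hAm hBm) _
      have e1 : (Da * Dl) T₀ - (((A - algebraMap O (Module.End O (V × V → V)) a) * PA) * (ca * c)) T₀
          = Da (Dl T₀ - (PA * c) T₀) +
            (algebraMap O (Module.End O (V × V → V)) (a ^ l₂.length) * (PA * c)) (PB T₀) := by
        have e2 : ((A - algebraMap O (Module.End O (V × V → V)) a) * PA) * (ca * c) =
            (A - algebraMap O (Module.End O (V × V → V)) a) * ca * (PA * c) := by
          have : PA * ca = ca * PA := Prod_comm hAB hPAm hca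
          calc ((A - algebraMap O (Module.End O (V × V → V)) a) * PA) * (ca * c)
              = (A - algebraMap O (Module.End O (V × V → V)) a) * (PA * ca) * c := by
                simp only [mul_assoc]
            _ = (A - algebraMap O (Module.End O (V × V → V)) a) * ca * (PA * c) := by
                rw [this]; simp only [mul_assoc]
        have e3 : (algebraMap O (Module.End O (V × V → V)) (a ^ l₂.length) * (PA * c)) * PB =
            (algebraMap O (Module.End O (V × V → V)) (a ^ l₂.length) * PB) * (PA * c) := by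
          have : (PA * c) * PB = PB * (PA * c) :=
            Prod_comm hAB (Subalgebra.mul_mem _ hPAm hc) hPBm
          rw [mul_assoc, this, mul_assoc]
        have e4 : (algebraMap O (Module.End O (V × V → V)) (a ^ l₂.length) * (PA * c)) (PB T₀) =
            ((algebraMap O (Module.End O (V × V → V)) (a ^ l₂.length) * PB) * (PA * c)) T₀ := by
          rw [← e3]; rfl
        rw [e4, e2, map_sub]
        have e5 : Da ((PA * c) T₀) =
            ((algebraMap O (Module.End O (V × V → V)) (a ^ l₂.length) * PB) * (PA * c)) T₀ +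
            ((A - algebraMap O (Module.End O (V × V → V)) a) * ca * (PA * c)) T₀ := by
          rw [hone, LinearMap.add_apply]; rfl
        rw [e5, Module.End.mul_apply Da Dl]
        abel
      rw [e1]
      refine N.add_mem (hNS _ hDam _ h) (hNS _ ?_ _ hPB)
      exact Subalgebra.mul_mem _ (Subalgebra.algebraMap_mem _ _) (Subalgebra.mul_mem _ hPAm hc)
  intro w₁ hw₁ w₂ hw₂
  obtain ⟨c, hc, h⟩ := key l₁
  have hPAm : (l₁.map fun a => A - algebraMap O (Module.End O (V × V → V)) a).prod ∈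
      Algebra.adjoin O ({A, B} : Set (Module.End O (V × V → V))) := Prod_memP A B hAm l₁
  have h2 : ((l₁.map fun a => A - algebraMap O (Module.End O (V × V → V)) a).prod * c) T₀ ∈ N := by
    have : ((l₁.map fun a => A - algebraMap O (Module.End O (V × V → V)) a).prod * c) =
      c * (l₁.map fun a => A - algebraMap O (Module.End O (V × V → V)) a).prod :=
      Prod_comm hAB hPAm hc
    rw [this, Module.End.mul_apply]
    exact hNS c hc _ hPA
  have h3 := N.add_mem h h2
  rw [sub_add_cancel] at h3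
  obtain ⟨u, hu, h4⟩ := h3 (w₁, w₂) ⟨hw₁, hw₂⟩
  have hG := Prod_G π σ hσ E.toAddMonoidHom hE W hW (fun p : V × V => (E p.1, E p.2)) K
    (fun i hi => ⟨hW₁ _ hi.1, hW₂ _ hi.2⟩) T₀ (fun i hi => Submodule.mul_mem_mul hi.1 hi.2)
    (fun i hi => ⟨0, W.zero_mem, by simp [T₀]⟩) (l₁.flatMap fun a => l₂.map fun b => a * b)
  obtain ⟨-, -, u', hu', h5⟩ := hG (w₁, w₂) ⟨hw₁, hw₂⟩
  rw [hABe] at h4
  rw [h4] at h5
  refine ⟨u' + u, W.add_mem hu' hu, ?_⟩
  rw [smul_add, ← h5]
  simp [T₀]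

end Main

theorem Prod_proof : S_Prod := by
  intro O _ π σ hσ V _ _ E hE W₁ W₂ hW₁ hW₂ l₁ l₂ hg1 hg2 w hw
  refine Submodule.mul_induction_on hw (fun m hm n hn => ?_) (fun x y hx hy => ?_)
  · exact Prod_aux π σ hσ E hE W₁ W₂ hW₁ hW₂ l₁ l₂ hg1 hg2 m hm n hn
  · obtain ⟨u, hu, h⟩ := hx
    obtain ⟨u', hu', h'⟩ := hy
    refine ⟨u + u', (W₁ * W₂).add_mem hu hu', ?_⟩
    have hadd : ∀ (l : List O) (a b : V), opl E.toAddMonoidHom l (a + b) =
        opl E.toAddMonoidHom l a + opl E.toAddMonoidHom l b := by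
      intro l
      induction l with
      | nil => intro a b; rfl
      | cons z l ih =>
        intro a b
        rw [Prod_oplcons, Prod_oplcons, Prod_oplcons, ih, map_add, smul_add]
        abel
    rw [hadd, h, h', smul_add]

end AJG

end

section

/-!
# MP_d3fa71_gt, item R2Pl
-/

open Polynomial

namespace AJG

/-- the relation between a coefficient and its polynomial form -/
structure R2Pl_Q (a : R2) (N : ℕ) (p : Pl) : Prop where
  A : ∀ (n : ℕ) (η : ℤˣ), evPl n η p =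
    (t * (((η : ℤ) : FF) * t ^ (2 * n))) ^ (4 * N) * ev n a
  B : (Polynomial.map (Polynomial.evalRingHom (1 : ℚ)) p : ℚ[X]).toLaurent =
    LaurentPolynomial.T (4 * N) * mapQ (sp a)
  C : ∀ b c : ℤ, -(N : ℤ) ≤ b → -(N : ℤ) ≤ c →
    (p.coeff (4 * N + 2 * b).toNat).coeff (4 * N + 4 * c).toNat = (((a.coeff b).coeff c : ℤ) : ℚ)
  D : ∀ b c : ℤ, (a.coeff b).coeff c ≠ 0 → -(N : ℤ) ≤ b ∧ -(N : ℤ) ≤ c

theorem R2Pl_add {a a' : R2} {N : ℕ} {p p' : Pl} (h : R2Pl_Q a N p) (h' : R2Pl_Q a' N p') :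
    R2Pl_Q (a + a') N (p + p') where
  A n η := by rw [map_add, map_add, mul_add, h.A, h'.A]
  B := by rw [Polynomial.map_add, map_add, map_add, map_add, mul_add, h.B, h'.B]
  C b c hb hc := by
    rw [Polynomial.coeff_add, Polynomial.coeff_add, h.C b c hb hc, h'.C b c hb hc,
      AddMonoidAlgebra.coeff_add, Finsupp.add_apply, AddMonoidAlgebra.coeff_add, Finsupp.add_apply]
    push_cast
    rfl
  D b c hbc := by
    by_contra hne
    apply hbc
    rw [AddMonoidAlgebra.coeff_add, Finsupp.add_apply, AddMonoidAlgebra.coeff_add, Finsupp.add_apply]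
    have h1 : (a.coeff b).coeff c = 0 := by
      by_contra h2
      exact hne (h.D b c h2)
    have h2 : (a'.coeff b).coeff c = 0 := by
      by_contra h2
      exact hne (h'.D b c h2)
    rw [h1, h2, add_zero]

theorem R2Pl_t_ne : (t : FF) ≠ 0 := RatFunc.X_ne_zero

theorem R2Pl_T_zpow {R : Type} [CommRing R] (k m : ℤ) (U : (LaurentPolynomial R)ˣ)
    (hU : (U : LaurentPolynomial R) = LaurentPolynomial.T k) :
    ((U ^ m : (LaurentPolynomial R)ˣ) : LaurentPolynomial R) = LaurentPolynomial.T (k * m) := by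
  let f : Multiplicative ℤ →* LaurentPolynomial R :=
    { toFun := fun k => LaurentPolynomial.T k.toAdd
      map_one' := LaurentPolynomial.T_zero
      map_mul' := fun a b => by rw [toAdd_mul, LaurentPolynomial.T_add] }
  have h1 : U = f.toHomUnits (Multiplicative.ofAdd k) := Units.ext hU
  rw [h1, ← map_zpow, ← ofAdd_zsmul, MonoidHom.coe_toHomUnits, smul_eq_mul, mul_comm m k]
  rfl

theorem R2Pl_coeff {R : Type} [CommRing R] (z : R) (b b' : ℤ) :
    (LaurentPolynomial.C z * LaurentPolynomial.T b).coeff b' = if b = b' then z else 0 := by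
  rw [← LaurentPolynomial.single_eq_C_mul_T]
  exact Finsupp.single_apply

theorem R2Pl_mono (z b c : ℤ) (N : ℕ) (hb : -(N : ℤ) ≤ b) (hc : -(N : ℤ) ≤ c) :
    R2Pl_Q (LaurentPolynomial.C (LaurentPolynomial.C z * LaurentPolynomial.T c) *
      LaurentPolynomial.T b) N
      (Polynomial.C (Polynomial.C (z : ℚ) * X ^ (4 * (N : ℤ) + 4 * c).toNat) *
        X ^ (4 * (N : ℤ) + 2 * b).toNat) := by
  have ht := R2Pl_t_ne
  have hi : (((4 * (N : ℤ) + 4 * c).toNat : ℕ) : ℤ) = 4 * N + 4 * c := Int.toNat_of_nonneg (by omega)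
  have hj : (((4 * (N : ℤ) + 2 * b).toNat : ℕ) : ℤ) = 4 * N + 2 * b := Int.toNat_of_nonneg (by omega)
  refine ⟨fun n η => ?_, ?_, fun b' c' hb' hc' => ?_, fun b' c' h => ?_⟩
  · have h1 : ev n (LaurentPolynomial.C (LaurentPolynomial.C z * LaurentPolynomial.T c) *
        LaurentPolynomial.T b) = (z : FF) * (t ^ 4) ^ c * (t ^ (4 * n)) ^ b := by
      unfold ev
      rw [LaurentPolynomial.eval₂_C_mul_T]
      unfold evq
      rw [LaurentPolynomial.eval₂_C_mul_T]
      simp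
    have hη : (((η : ℤ) : FF)) ^ 2 = 1 := by
      rcases Int.units_eq_one_or η with h | h <;> rw [h] <;> norm_num
    set u : FF := ((η : ℤ) : FF) * t ^ (2 * n) with hu
    have hu2 : u ^ 2 = t ^ (4 * n) := by
      rw [hu, mul_pow, hη, one_mul, ← pow_mul]
      congr 1
      ring
    have hu0 : u ≠ 0 := by
      intro h0
      have : t ^ (4 * n) = 0 := by rw [← hu2, h0]; ring
      exact pow_ne_zero _ ht this
    have h2 : evPl n η (Polynomial.C (Polynomial.C (z : ℚ) * X ^ (4 * (N : ℤ) + 4 * c).toNat) *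
        X ^ (4 * (N : ℤ) + 2 * b).toNat) =
        (z : FF) * t ^ (4 * (N : ℤ) + 4 * c).toNat * u ^ (4 * (N : ℤ) + 2 * b).toNat := by
      unfold evPl
      rw [Polynomial.coe_eval₂RingHom, Polynomial.eval₂_mul, Polynomial.eval₂_C,
        Polynomial.eval₂_X_pow, Polynomial.coe_eval₂RingHom, Polynomial.eval₂_mul,
        Polynomial.eval₂_C, Polynomial.eval₂_X_pow, hu]
      simp
    have e1 : u ^ (2 * b) = (t ^ (4 * n)) ^ b := by
      rw [zpow_mul, ← hu2]
      rfl
    have e2 : t ^ (4 * c) = (t ^ 4) ^ c := by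
      rw [zpow_mul]
      rfl
    have e3 : (4 * (N : ℤ)) = ((4 * N : ℕ) : ℤ) := by push_cast; ring
    rw [h1, h2, ← zpow_natCast t, ← zpow_natCast u, hi, hj, zpow_add₀ ht, zpow_add₀ hu0,
      e1, e2, e3, zpow_natCast, zpow_natCast, mul_pow]
    ring
  · have h1 : sp (LaurentPolynomial.C (LaurentPolynomial.C z * LaurentPolynomial.T c) *
        LaurentPolynomial.T b) = LaurentPolynomial.C z * LaurentPolynomial.T (2 * b) := by
      unfold sp
      rw [LaurentPolynomial.eval₂_C_mul_T, LaurentPolynomial.eval₂_C_mul_T]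
      rw [one_zpow, Units.val_one, mul_one]
      congr 1
      exact R2Pl_T_zpow 2 b _ rfl
    have h2 : mapQ (LaurentPolynomial.C z * LaurentPolynomial.T (2 * b)) =
        LaurentPolynomial.C (z : ℚ) * LaurentPolynomial.T (2 * b) := by
      unfold mapQ
      rw [LaurentPolynomial.eval₂_C_mul_T, R2Pl_T_zpow 1 (2 * b) _ rfl, one_mul, eq_intCast,
        map_intCast]
    rw [h1, h2, Polynomial.map_mul, Polynomial.map_C, Polynomial.map_pow, Polynomial.map_X]
    have h3 : (Polynomial.evalRingHom (1 : ℚ)) (Polynomial.C (z : ℚ) *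
        X ^ (4 * (N : ℤ) + 4 * c).toNat) = (z : ℚ) := by simp
    rw [h3, Polynomial.toLaurent_C_mul_X_pow, hj, LaurentPolynomial.T_add]
    ring
  · have hj' : (((4 * (N : ℤ) + 2 * b').toNat : ℕ) : ℤ) = 4 * N + 2 * b' :=
      Int.toNat_of_nonneg (by omega)
    have hi' : (((4 * (N : ℤ) + 4 * c').toNat : ℕ) : ℤ) = 4 * N + 4 * c' :=
      Int.toNat_of_nonneg (by omega)
    rw [Polynomial.coeff_C_mul_X_pow, R2Pl_coeff]
    by_cases hbb : b' = b
    · subst hbb
      rw [if_pos rfl, if_pos rfl, Polynomial.coeff_C_mul_X_pow, R2Pl_coeff]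
      by_cases hcc : c' = c
      · subst hcc
        rw [if_pos rfl, if_pos rfl]
      · rw [if_neg (by omega), if_neg (by omega), Int.cast_zero]
    · rw [if_neg (by omega), if_neg (by omega), Polynomial.coeff_zero]
      simp
  · rw [R2Pl_coeff] at h
    by_cases hbb : b = b'
    · rw [if_pos hbb, R2Pl_coeff] at h
      by_cases hcc : c = c'
      · subst hbb hcc
        exact ⟨hb, hc⟩
      · rw [if_neg hcc] at h
        exact absurd rfl h
    · rw [if_neg hbb] at h
      exact absurd (by simp) h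

theorem R2Pl_ex (a : R2) : ∃ N₀ : ℕ, ∀ N : ℕ, N₀ ≤ N → ∃ p, R2Pl_Q a N p := by
  induction a using LaurentPolynomial.induction_on' with
  | add p q hp hq =>
    obtain ⟨N₁, h1⟩ := hp
    obtain ⟨N₂, h2⟩ := hq
    refine ⟨max N₁ N₂, fun N hN => ?_⟩
    obtain ⟨p1, hp1⟩ := h1 N (le_trans (le_max_left _ _) hN)
    obtain ⟨p2, hp2⟩ := h2 N (le_trans (le_max_right _ _) hN)
    exact ⟨_, R2Pl_add hp1 hp2⟩
  | C_mul_T b a =>
    induction a using LaurentPolynomial.induction_on' with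
    | add p q hp hq =>
      obtain ⟨N₁, h1⟩ := hp
      obtain ⟨N₂, h2⟩ := hq
      refine ⟨max N₁ N₂, fun N hN => ?_⟩
      obtain ⟨p1, hp1⟩ := h1 N (le_trans (le_max_left _ _) hN)
      obtain ⟨p2, hp2⟩ := h2 N (le_trans (le_max_right _ _) hN)
      rw [map_add, add_mul]
      exact ⟨_, R2Pl_add hp1 hp2⟩
    | C_mul_T c z =>
      refine ⟨b.natAbs + c.natAbs, fun N hN => ⟨_, R2Pl_mono z b c N ?_ ?_⟩⟩ <;> omega

theorem R2Pl_eq_zero {a : R2} {N : ℕ} (h : R2Pl_Q a N 0) : a = 0 := by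
  have h1 : ∀ b c : ℤ, (a.coeff b).coeff c = 0 := by
    intro b c
    by_contra hne
    obtain ⟨hb, hc⟩ := h.D b c hne
    have h2 := h.C b c hb hc
    rw [Polynomial.coeff_zero, Polynomial.coeff_zero] at h2
    exact hne (by exact_mod_cast h2.symm)
  ext b c
  exact h1 b c

theorem R2Pl_zero (N : ℕ) : R2Pl_Q 0 N 0 where
  A n η := by rw [map_zero, map_zero, mul_zero]
  B := by rw [Polynomial.map_zero, map_zero, map_zero, map_zero, mul_zero]
  C b c _ _ := by simp
  D b c h := absurd (by simp) h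

theorem R2Pl_proof : S_R2Pl := by
  intro α
  choose N₀ hN₀ using R2Pl_ex
  obtain ⟨N, hN⟩ : ∃ N : ℕ, ∀ j, j ≤ α.natDegree → N₀ (α.coeff j) ≤ N :=
    ⟨(Finset.range (α.natDegree + 1)).sup fun j => N₀ (α.coeff j), fun j hj =>
      Finset.le_sup (f := fun j => N₀ (α.coeff j)) (Finset.mem_range.2 (by omega))⟩
  have hex : ∀ j, ∃ p, R2Pl_Q (α.coeff j) N p := by
    intro j
    rcases le_or_gt j α.natDegree with h | h
    · exact hN₀ _ N (hN j h)
    · rw [Polynomial.coeff_eq_zero_of_natDegree_lt h]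
      exact ⟨0, R2Pl_zero N⟩
  choose p hp using hex
  let β : Polynomial Pl := ∑ j ∈ Finset.range (α.natDegree + 1), Polynomial.monomial j (p j)
  have hβ : ∀ j, β.coeff j = if j ≤ α.natDegree then p j else 0 := by
    intro j
    simp only [β, Polynomial.finsetSum_coeff, Polynomial.coeff_monomial]
    rw [Finset.sum_ite_eq' (Finset.range (α.natDegree + 1)) j p]
    simp only [Finset.mem_range, Nat.lt_succ_iff]
  have hQ : ∀ j, R2Pl_Q (α.coeff j) N (β.coeff j) := by
    intro j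
    rw [hβ]
    split_ifs with h
    · exact hp j
    · rw [Polynomial.coeff_eq_zero_of_natDegree_lt (not_le.1 h)]
      exact R2Pl_zero N
  refine ⟨N, β, ?_, fun j n η => (hQ j).A n η, fun j => (hQ j).B⟩
  apply le_antisymm
  · rw [Polynomial.natDegree_le_iff_coeff_eq_zero]
    intro j hj
    rw [hβ, if_neg (by omega)]
  · by_cases h0 : α = 0
    · rw [h0, Polynomial.natDegree_zero]
      exact Nat.zero_le _
    · apply Polynomial.le_natDegree_of_ne_zero
      intro h
      have h1 := hQ α.natDegree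
      rw [h] at h1
      have h2 := R2Pl_eq_zero h1
      rw [Polynomial.coeff_natDegree, Polynomial.leadingCoeff_eq_zero] at h2
      exact h0 h2

end AJG

end

section

/-!
# MP_d3fa71_gt: the upper bound
-/

open Polynomial

namespace AJG

lemma UB_unit_zpow (u : (LaurentPolynomial ℚ)ˣ) (h1 : (u : LaurentPolynomial ℚ) = LaurentPolynomial.T 1)
    (h2 : ((u⁻¹ : (LaurentPolynomial ℚ)ˣ) : LaurentPolynomial ℚ) = LaurentPolynomial.T (-1)) (n : ℤ) :
    ((u ^ n : (LaurentPolynomial ℚ)ˣ) : LaurentPolynomial ℚ) = LaurentPolynomial.T n := by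
  obtain ⟨k, rfl | rfl⟩ := n.eq_nat_or_neg
  · rw [zpow_natCast, Units.val_pow_eq_pow_val, h1, LaurentPolynomial.T_pow, mul_one]
  · rw [zpow_neg, zpow_natCast, ← inv_pow, Units.val_pow_eq_pow_val, h2, LaurentPolynomial.T_pow]
    congr 1
    ring

lemma UB_mapQ_CT (a : ℤ) (n : ℤ) :
    mapQ (LaurentPolynomial.C a * LaurentPolynomial.T n) =
      LaurentPolynomial.C (a : ℚ) * LaurentPolynomial.T n := by
  unfold mapQ
  rw [LaurentPolynomial.eval₂_C_mul_T, UB_unit_zpow _ rfl rfl]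
  simp

lemma UB_mapQ_coeff (b : LaurentPolynomial ℤ) (n : ℤ) : (mapQ b).coeff n = ((b.coeff n : ℤ) : ℚ) := by
  induction b using LaurentPolynomial.induction_on' with
  | add p q hp hq =>
    rw [map_add, AddMonoidAlgebra.coeff_add, AddMonoidAlgebra.coeff_add, Finsupp.add_apply,
      Finsupp.add_apply, hp, hq]
    push_cast; rfl
  | C_mul_T m a =>
    rw [UB_mapQ_CT, ← LaurentPolynomial.single_eq_C_mul_T, ← LaurentPolynomial.single_eq_C_mul_T]
    simp only [AddMonoidAlgebra.coeff_single, Finsupp.single_apply]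
    split_ifs <;> simp

lemma UB_mapQ_inj : Function.Injective mapQ := by
  intro a b hab
  apply LaurentPolynomial.ext
  intro n
  have h := congrArg (fun p => p.coeff n) hab
  simp only [UB_mapQ_coeff] at h
  exact_mod_cast h

/-- clearing denominators, coefficients -/
lemma UB_clear (a : LaurentPolynomial ℚ) : ∃ m : ℕ, m ≠ 0 ∧ ∃ b : LaurentPolynomial ℤ,
    mapQ b = (m : LaurentPolynomial ℚ) * a := by
  induction a using LaurentPolynomial.induction_on' with
  | add p q hp hq =>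
    obtain ⟨m, hm, b, hb⟩ := hp
    obtain ⟨m', hm', b', hb'⟩ := hq
    refine ⟨m * m', mul_ne_zero hm hm', (m' : LaurentPolynomial ℤ) * b + (m : LaurentPolynomial ℤ) * b', ?_⟩
    rw [map_add, map_mul, map_mul, map_natCast, map_natCast, hb, hb']
    push_cast
    ring
  | C_mul_T n a =>
    refine ⟨a.den, a.den_nz, LaurentPolynomial.C a.num * LaurentPolynomial.T n, ?_⟩
    rw [UB_mapQ_CT, ← mul_assoc]
    congr 1
    have h : (a.num : ℚ) = (a.den : ℚ) * a := by
      rw [mul_comm]; exact (Rat.mul_den_eq_num a).symm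
    rw [h, map_mul, map_natCast]

/-- clearing denominators, polynomials -/
lemma UB_clearP (G : Polynomial (LaurentPolynomial ℚ)) : ∃ m : ℕ, m ≠ 0 ∧
    ∃ g : Polynomial (LaurentPolynomial ℤ), g.map mapQ = (m : Polynomial (LaurentPolynomial ℚ)) * G := by
  induction G using Polynomial.induction_on' with
  | add p q hp hq =>
    obtain ⟨m, hm, b, hb⟩ := hp
    obtain ⟨m', hm', b', hb'⟩ := hq
    refine ⟨m * m', mul_ne_zero hm hm', (m' : Polynomial (LaurentPolynomial ℤ)) * b +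
      (m : Polynomial (LaurentPolynomial ℤ)) * b', ?_⟩
    rw [Polynomial.map_add, Polynomial.map_mul, Polynomial.map_mul, Polynomial.map_natCast,
      Polynomial.map_natCast, hb, hb']
    push_cast
    ring
  | monomial n a =>
    obtain ⟨m, hm, b, hb⟩ := UB_clear a
    refine ⟨m, hm, Polynomial.monomial n b, ?_⟩
    rw [Polynomial.map_monomial, hb, ← Polynomial.C_mul_monomial, map_natCast]

lemma UB_natCast_ne {R : Type} [CommRing R] [CharZero R] (m : ℕ) (hm : m ≠ 0) :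
    (m : LaurentPolynomial R) ≠ 0 := by
  intro h
  rw [← map_natCast (LaurentPolynomial.C (R := R))] at h
  have h1 := congrArg (fun p => p.coeff 0) h
  simp only [LaurentPolynomial.C_apply, if_true, AddMonoidAlgebra.coeff_zero, Finsupp.zero_apply] at h1
  exact hm (by exact_mod_cast h1)

theorem UB_proof (h1 : S_KillPl) (h2 : S_GaussPl) (h3 : S_Jq) : S_UB := by
  intro K hK α hα
  obtain ⟨β, l, c, hβ, hc, hl, hred⟩ := h1 K hK
  obtain ⟨c', hc', hdiv⟩ := h2 K.J (h3 K hK) α hα β hβ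
  obtain ⟨G, hG⟩ := hdiv
  obtain ⟨m, hm, g, hg⟩ := UB_clearP G
  obtain ⟨m', hm', b, hb⟩ := UB_clear (c' * c)
  have hb0 : b ≠ 0 := by
    intro h
    rw [h, map_zero] at hb
    have hm0 : (m' : LaurentPolynomial ℚ) ≠ 0 := UB_natCast_ne m' hm'
    exact mul_ne_zero hm0 (mul_ne_zero hc' hc) hb.symm
  refine ⟨l, (m : LaurentPolynomial ℤ) * b, mul_ne_zero (UB_natCast_ne m hm) hb0, hl, ?_⟩
  refine ⟨(m' : Polynomial (LaurentPolynomial ℤ)) * g, ?_⟩
  apply Polynomial.map_injective mapQ UB_mapQ_inj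
  have hprod : ((l.map fun z => (X - C (lab z) : Polynomial (LaurentPolynomial ℤ))).prod).map mapQ =
      (l.map fun z => (X - C (mapQ (lab z)) : Polynomial (LaurentPolynomial ℚ))).prod := by
    rw [Polynomial.map_list_prod, List.map_map]
    congr 1
    apply List.map_congr_left
    intro z _
    simp
  rw [Polynomial.map_mul, Polynomial.map_mul, Polynomial.map_mul, hprod, Polynomial.map_C,
    map_mul, hb, Polynomial.map_map, hg, Polynomial.map_natCast, map_natCast]
  rw [hred] at hG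
  simp only [Polynomial.C_mul, map_natCast] at hG ⊢
  linear_combination ((m : Polynomial (LaurentPolynomial ℚ)) * m') * hG

end AJG

end

section

/-!
# MP_d3fa71_gt: the induction for the upper bound
-/

open Polynomial

namespace AJG

section
variable {O V : Type} [CommRing O] [AddCommGroup V] [Module O V]

theorem UBind_opl_cons (E : V →+ V) (z : O) (l : List O) (w : V) :
    opl E (z :: l) w = E (opl E l w) - z • opl E l w := rfl

theorem UBind_opl_append (E : V →+ V) (l₁ l₂ : List O) (w : V) :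
    opl E (l₁ ++ l₂) w = opl E l₁ (opl E l₂ w) := by
  simp [opl, List.foldr_append]

theorem UBind_opl_add (E : V →+ V) (l : List O) (v w : V) :
    opl E l (v + w) = opl E l v + opl E l w := by
  induction l with
  | nil => rfl
  | cons z l ih =>
    rw [UBind_opl_cons, UBind_opl_cons, UBind_opl_cons, ih, map_add, smul_add]; abel

theorem UBind_opl_zero (E : V →+ V) (l : List O) : opl E l (0 : V) = 0 := by
  have h := UBind_opl_add E l 0 0
  rw [add_zero] at h
  exact left_eq_add.mp h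

theorem UBind_opl_mem (E : V →+ V) (W : Submodule O V) (hW : ∀ w ∈ W, E w ∈ W) (l : List O)
    (w : V) (hw : w ∈ W) : opl E l w ∈ W := by
  induction l with
  | nil => exact hw
  | cons z l ih =>
    rw [UBind_opl_cons]
    exact W.sub_mem (hW _ ih) (W.smul_mem _ ih)

theorem UBind_opl_pi (E : V →+ V) (π : O) (hE : ∀ v, E (π • v) = π • E v) (l : List O) (w : V) :
    opl E l (π • w) = π • opl E l w := by
  induction l with
  | nil => rfl
  | cons z l ih => rw [UBind_opl_cons, UBind_opl_cons, ih, hE, smul_sub, smul_comm z π]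

/-- The submodule `π W`. -/
def UBind_pi (π : O) (W : Submodule O V) : Submodule O V := W.map (LinearMap.lsmul O V π)

theorem UBind_mem_pi (π : O) (W : Submodule O V) (v : V) :
    v ∈ UBind_pi π W ↔ ∃ u ∈ W, v = π • u := by
  unfold UBind_pi
  rw [Submodule.mem_map]
  constructor
  · rintro ⟨u, hu, rfl⟩; exact ⟨u, hu, rfl⟩
  · rintro ⟨u, hu, rfl⟩; exact ⟨u, hu, rfl⟩

theorem UBind_smul_pi (π a : O) (W : Submodule O V) (h : π ∣ a) (v : V) (hv : v ∈ W) :
    a • v ∈ UBind_pi π W := by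
  obtain ⟨b, rfl⟩ := h
  rw [UBind_mem_pi]
  exact ⟨b • v, W.smul_mem _ hv, by rw [mul_smul]⟩

theorem UBind_opl_smul (E : V →+ V) (π : O) (σ : O →+* O) (hσ : ∀ a, π ∣ σ a - a)
    (hπ : σ π = π) (hE : ∀ (a : O) (v : V), E (a • v) = σ a • E v)
    (W : Submodule O V) (hW : ∀ w ∈ W, E w ∈ W) (l : List O) (a : O) (w : V) (hw : w ∈ W) :
    opl E l (a • w) - a • opl E l w ∈ UBind_pi π W := by
  induction l with
  | nil =>
    show a • w - a • w ∈ _
    rw [sub_self]; exact Submodule.zero_mem _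
  | cons z l ih =>
    rw [UBind_mem_pi] at ih ⊢
    obtain ⟨u, hu, hu'⟩ := ih
    obtain ⟨b, hb⟩ := hσ a
    have hx : opl E l w ∈ W := UBind_opl_mem E W hW l w hw
    set x := opl E l w with hxd
    have h1 : opl E l (a • w) = a • x + π • u := by rw [← hu']; abel
    refine ⟨b • E x + E u - z • u, W.sub_mem (W.add_mem (W.smul_mem _ (hW _ hx)) (hW _ hu))
      (W.smul_mem _ hu), ?_⟩
    rw [UBind_opl_cons, UBind_opl_cons, ← hxd, h1, map_add, hE, hE, hπ]
    have h2 : σ a = a + π * b := by rw [← hb]; ring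
    rw [h2]
    module

theorem UBind_claim (E : V →+ V) (π : O) (σ : O →+* O) (hσ : ∀ a, π ∣ σ a - a)
    (hπ : σ π = π) (hE : ∀ (a : O) (v : V), E (a • v) = σ a • E v)
    (W W' : Submodule O V) (G : Set V) (hWG : W = Submodule.span O G ⊔ W')
    (hW : ∀ w ∈ W, E w ∈ W) (hW' : ∀ w ∈ W', E w ∈ W') (l : List O)
    (hG : ∀ g ∈ G, opl E l g ∈ W' ⊔ UBind_pi π W) (w : V) (hw : w ∈ W) :
    opl E l w ∈ W' ⊔ UBind_pi π W := by
  have hle : Submodule.span O G ≤ W := by rw [hWG]; exact le_sup_left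
  rw [hWG] at hw
  obtain ⟨x, hx, y, hy, rfl⟩ := Submodule.mem_sup.1 hw
  rw [UBind_opl_add]
  refine Submodule.add_mem _ ?_ ?_
  · refine Submodule.span_induction (p := fun x _ => opl E l x ∈ W' ⊔ UBind_pi π W) ?_ ?_ ?_ ?_ hx
    · intro g hg; exact hG g hg
    · rw [UBind_opl_zero]; exact Submodule.zero_mem _
    · intro u v _ _ hu hv
      rw [UBind_opl_add]; exact Submodule.add_mem _ hu hv
    · intro a u hu hu'
      have h1 := UBind_opl_smul E π σ hσ hπ hE W hW l a u (hle hu)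
      have h2 : opl E l (a • u) = (opl E l (a • u) - a • opl E l u) + a • opl E l u := by abel
      rw [h2]
      exact Submodule.add_mem _ (Submodule.mem_sup_right h1) (Submodule.smul_mem _ _ hu')
  · exact Submodule.mem_sup_left (UBind_opl_mem E W' hW' l y hy)

theorem UBind_good (E : V →+ V) (π : O) (σ : O →+* O) (hσ : ∀ a, π ∣ σ a - a)
    (hπ : σ π = π) (hE : ∀ (a : O) (v : V), E (a • v) = σ a • E v)
    (W W' : Submodule O V) (G : Set V) (hWG : W = Submodule.span O G ⊔ W')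
    (hW : ∀ w ∈ W, E w ∈ W) (hW' : ∀ w ∈ W', E w ∈ W') (l' l : List O)
    (hG : ∀ g ∈ G, opl E l g ∈ W' ⊔ UBind_pi π W) (hl' : Good π E W' l') :
    Good π E W (l' ++ l) := by
  intro w hw
  rw [UBind_opl_append]
  have h1 := UBind_claim E π σ hσ hπ hE W W' G hWG hW hW' l hG w hw
  obtain ⟨x, hx, y, hy, hxy⟩ := Submodule.mem_sup.1 h1
  rw [UBind_mem_pi] at hy
  obtain ⟨u, hu, rfl⟩ := hy
  obtain ⟨v, hv, hv'⟩ := hl' x hx
  have hle : W' ≤ W := by rw [hWG]; exact le_sup_right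
  refine ⟨v + opl E l' u, W.add_mem (hle hv) (UBind_opl_mem E W hW l' u hu), ?_⟩
  rw [← hxy, UBind_opl_add, hv', UBind_opl_pi E π (fun v => by rw [hE, hπ]), smul_add]

end

/-- `tt ^ n` is `1` modulo `π`. -/
theorem UBind_tt {O : Type} [CommRing O] (π : O) (tt : Oˣ) (h : π ∣ (tt : O) - 1) (n : ℤ) :
    π ∣ ((tt ^ n : Oˣ) : O) - 1 := by
  have h1 : Units.map (Ideal.Quotient.mk (Ideal.span {π}) : O →+* _).toMonoidHom tt = 1 := by
    ext
    have : Ideal.Quotient.mk (Ideal.span {π}) ((tt : O) - 1) = 0 := by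
      rw [Ideal.Quotient.eq_zero_iff_mem]; exact Ideal.mem_span_singleton.2 h
    rw [map_sub, map_one, sub_eq_zero] at this
    simpa using this
  have h2 : Ideal.Quotient.mk (Ideal.span {π}) (((tt ^ n : Oˣ) : O) - 1) = 0 := by
    have h3 : Units.map (Ideal.Quotient.mk (Ideal.span {π}) : O →+* _).toMonoidHom (tt ^ n) = 1 := by
      rw [map_zpow, h1, one_zpow]
    have h4 := congrArg Units.val h3
    rw [Units.coe_map, Units.val_one] at h4
    rw [map_sub, map_one, sub_eq_zero]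
    exact h4
  rw [Ideal.Quotient.eq_zero_iff_mem] at h2
  exact Ideal.mem_span_singleton.1 h2

theorem UBind_dvd_mul {O : Type} [CommRing O] {π a b a' b' : O} (h1 : π ∣ a - a')
    (h2 : π ∣ b - b') : π ∣ a * b - a' * b' := by
  have : a * b - a' * b' = (a - a') * b + a' * (b - b') := by ring
  rw [this]
  exact dvd_add (dvd_mul_of_dvd_left h1 _) (dvd_mul_of_dvd_right h2 _)

theorem UBind_U_stable {O V : Type} [CommRing O] [AddCommGroup V] [Module O V] (E : V →+ V)
    (π : O) (hE : ∀ v, E (π • v) = π • E v) (W W' : Submodule O V)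
    (hW : ∀ w ∈ W, E w ∈ W) (hW' : ∀ w ∈ W', E w ∈ W') (u : V)
    (hu : u ∈ W' ⊔ UBind_pi π W) : E u ∈ W' ⊔ UBind_pi π W := by
  obtain ⟨x, hx, y, hy, rfl⟩ := Submodule.mem_sup.1 hu
  rw [UBind_mem_pi] at hy
  obtain ⟨v, hv, rfl⟩ := hy
  rw [map_add, hE]
  refine Submodule.add_mem _ (Submodule.mem_sup_left (hW' _ hx)) (Submodule.mem_sup_right ?_)
  rw [UBind_mem_pi]
  exact ⟨E v, hW _ hv, rfl⟩

theorem UBind_ttMM {O : Type} [CommRing O] (π : O) (tt MM : Oˣ) (h : π ∣ (tt : O) - 1) (n k : ℤ) :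
    π ∣ ((tt ^ n * MM ^ k : Oˣ) : O) - ((MM ^ k : Oˣ) : O) := by
  have h1 : ((tt ^ n * MM ^ k : Oˣ) : O) - ((MM ^ k : Oˣ) : O) =
      (((tt ^ n : Oˣ) : O) - 1) * ((MM ^ k : Oˣ) : O) := by
    rw [Units.val_mul]; ring
  rw [h1]
  exact dvd_mul_of_dvd_left (UBind_tt π tt h n) _

/-- The new part of the list for a cable. -/
theorem UBind_new {O V : Type} [CommRing O] [AddCommGroup V] [Module O V]
    (π : O) (σ : O →+* O) (hσ : ∀ a, π ∣ σ a - a) (hπ : σ π = π) (MM : Oˣ) (E : V →+ V)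
    (hE : ∀ (a : O) (v : V), E (a • v) = σ a • E v) (W W' : Submodule O V)
    (hW : ∀ w ∈ W, E w ∈ W) (hW' : ∀ w ∈ W', E w ∈ W') (f : ℕ → V) (S : ℕ) (n : ℤ)
    (hf : ∀ c, f c ∈ W) (hEf : ∀ c, E (f c) = f (c + S))
    (h2 : ∀ c, f (c + 2) - ((MM ^ (-(2 * n * S)) : Oˣ) : O) • f c ∈ W' ⊔ UBind_pi π W) (c : ℕ) :
    opl E [((MM ^ (-n * (S : ℤ) ^ 2) : Oˣ) : O),
      (-1) ^ S * ((MM ^ (-n * (S : ℤ) ^ 2) : Oˣ) : O)] (f c) ∈ W' ⊔ UBind_pi π W := by
  set m : O := ((MM ^ (-(2 * n * S)) : Oˣ) : O) with hm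
  set z : O := ((MM ^ (-n * (S : ℤ) ^ 2) : Oˣ) : O) with hz
  have hit : ∀ k c, f (c + 2 * k) - m ^ k • f c ∈ W' ⊔ UBind_pi π W := by
    intro k c
    induction k with
    | zero => simp
    | succ k ih =>
      have h3 := h2 (c + 2 * k)
      have h4 : f (c + 2 * (k + 1)) - m ^ (k + 1) • f c =
          (f (c + 2 * k + 2) - m • f (c + 2 * k)) + m • (f (c + 2 * k) - m ^ k • f c) := by
        rw [pow_succ, smul_sub, ← mul_smul, mul_comm m, mul_add, mul_one, ← add_assoc]
        abel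
      rw [h4]
      exact Submodule.add_mem _ h3 (Submodule.smul_mem _ _ ih)
  rw [UBind_opl_cons]
  show E (E (f c) - ((-1) ^ S * z) • f c) - z • (E (f c) - ((-1) ^ S * z) • f c) ∈ _
  rcases Nat.even_or_odd' S with ⟨k, hk | hk⟩
  · have hs1 : ((-1 : O)) ^ S = 1 := by rw [hk, pow_mul]; simp
    have hz1 : m ^ k = z := by
      rw [hm, hz, ← Units.val_pow_eq_pow_val, ← zpow_natCast, ← zpow_mul]
      congr 2
      have : (S : ℤ) = 2 * k := by exact_mod_cast hk
      rw [this]; ring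
    have h3 : E (f c) - ((-1) ^ S * z) • f c ∈ W' ⊔ UBind_pi π W := by
      rw [hEf, hs1, one_mul, ← hz1]
      have := hit k c
      rw [← hk] at this
      exact this
    exact Submodule.sub_mem _ (UBind_U_stable E π (fun v => by rw [hE, hπ]) W W' hW hW' _ h3)
      (Submodule.smul_mem _ _ h3)
  · have hs1 : ((-1 : O)) ^ S = -1 := by rw [hk, pow_succ, pow_mul]; simp
    have hz1 : z * z = m ^ S := by
      rw [hm, hz, ← Units.val_pow_eq_pow_val, ← zpow_natCast, ← zpow_mul, ← Units.val_mul,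
        ← zpow_add]
      congr 2
      ring
    have h3 := hit S c
    obtain ⟨b, hb⟩ := hσ z
    have h4 : σ z = z + π * b := by rw [← hb]; ring
    have h5 : E (E (f c) - ((-1) ^ S * z) • f c) - z • (E (f c) - ((-1) ^ S * z) • f c) =
        (f (c + 2 * S) - m ^ S • f c) + π • (b • f (c + S)) := by
      rw [hs1, map_sub, hE, map_mul, map_neg, map_one, h4, hEf, hEf, ← hz1]
      have : c + 2 * S = c + S + S := by ring
      rw [this]
      module
    rw [h5]
    refine Submodule.add_mem _ h3 (Submodule.mem_sup_right ?_)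
    rw [UBind_mem_pi]
    exact ⟨_, W.smul_mem _ (hf _), rfl⟩

theorem UBind_new2 {O V : Type} [CommRing O] [AddCommGroup V] [Module O V]
    (MM : Oˣ) (E : V →+ V) (U : Submodule O V) (f : ℕ → V) (S : ℕ) (r : ℤ)
    (hEf : ∀ c, E (f c) = f (c + S))
    (h2 : ∀ c, f (c + 1) - (-((MM ^ (-(2 * r * S)) : Oˣ) : O)) • f c ∈ U) (c : ℕ) :
    opl E [(-1) ^ S * ((MM ^ (-(r * 2) * (S : ℤ) ^ 2) : Oˣ) : O)] (f c) ∈ U := by
  have hit : ∀ k c, f (c + k) - (-((MM ^ (-(2 * r * S)) : Oˣ) : O)) ^ k • f c ∈ U := by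
    intro k c
    induction k with
    | zero => simp
    | succ k ih =>
      have h3 := h2 (c + k)
      set m : O := (-((MM ^ (-(2 * r * S)) : Oˣ) : O)) with hm
      have h4 : f (c + (k + 1)) - m ^ (k + 1) • f c =
          (f (c + k + 1) - m • f (c + k)) + m • (f (c + k) - m ^ k • f c) := by
        rw [pow_succ, smul_sub, ← mul_smul, mul_comm m, ← add_assoc]
        abel
      rw [h4]
      exact Submodule.add_mem _ h3 (Submodule.smul_mem _ _ ih)
  show E (f c) - ((-1) ^ S * ((MM ^ (-(r * 2) * (S : ℤ) ^ 2) : Oˣ) : O)) • f c ∈ U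
  rw [hEf]
  have h3 := hit S c
  have h4 : (-((MM ^ (-(2 * r * S)) : Oˣ) : O)) ^ S =
      (-1) ^ S * ((MM ^ (-(r * 2) * (S : ℤ) ^ 2) : Oˣ) : O) := by
    rw [neg_pow, ← Units.val_pow_eq_pow_val, ← zpow_natCast, ← zpow_mul]
    congr 3
    ring
  rw [h4] at h3
  exact h3

theorem UBind_proof (h1 : S_Prod) : S_UBind := by
  intro O _ _ π σ tt MM hσ hπ htt hσt hσM hunit V _ _ E hE jj hjE hju hjs hjc hjc2 K
  induction K with
  | unknot =>
    intro _ S hS
    refine ⟨Submodule.span O {1}, [1], Submodule.fg_span (Set.finite_singleton _), ?_, ?_, ?_, ?_⟩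
    · intro w hw
      obtain ⟨a, rfl⟩ := Submodule.mem_span_singleton.1 hw
      rw [hE, map_one]
      exact Submodule.smul_mem _ _ (Submodule.mem_span_singleton_self _)
    · intro c
      rw [hju S c hS, Algebra.algebraMap_eq_smul_one]
      exact Submodule.smul_mem _ _ (Submodule.mem_span_singleton_self _)
    · intro w hw
      obtain ⟨a, rfl⟩ := Submodule.mem_span_singleton.1 hw
      obtain ⟨b, hb⟩ := hσ a
      refine ⟨b • 1, Submodule.smul_mem _ _ (Submodule.mem_span_singleton_self _), ?_⟩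
      show E (a • (1 : V)) - (1 : O) • (a • (1 : V)) = _
      rw [hE, map_one, one_smul, ← sub_smul, hb, mul_smul]
    · intro z hz
      rw [List.mem_singleton] at hz
      subst hz
      refine ⟨(1, 0), by simp [GK.Lab], ?_⟩
      simp
  | cable r s K ih =>
    intro hV S hS
    obtain ⟨hKV, hs2, hco, _⟩ := hV
    have hsS : 0 < s * S := Nat.mul_pos (by omega) hS
    obtain ⟨W', l', hf', hst', hj', hg', hz'⟩ := ih hKV (s * S) hsS
    set f : ℕ → V := fun c => jj (.cable r s K) S c with hfd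
    set W : Submodule O V := Submodule.span O {f 0, f 1} ⊔ W' with hWd
    have hle' : W' ≤ W := le_sup_right
    have hle : Submodule.span O {f 0, f 1} ≤ W := le_sup_left
    have hrec := fun c => hjc r s K S c hS hs2 hco
    have hfW : ∀ c, f c ∈ W ∧ f (c + 1) ∈ W := by
      intro c
      induction c with
      | zero =>
        exact ⟨hle (Submodule.subset_span (by simp)), hle (Submodule.subset_span (by simp))⟩
      | succ c ihc =>
        refine ⟨ihc.2, ?_⟩
        show jj (.cable r s K) S (c + 2) ∈ W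
        rw [hrec c]
        exact Submodule.sub_mem _ (Submodule.add_mem _ (Submodule.smul_mem _ _ ihc.1)
          (Submodule.smul_mem _ _ (hle' (hj' _)))) (Submodule.smul_mem _ _ (hle' (hj' _)))
    have hfW' : ∀ c, f c ∈ W := fun c => (hfW c).1
    have hEf : ∀ c, E.toAddMonoidHom (f c) = f (c + S) := fun c => hjE _ S c hS
    have hE' : ∀ (a : O) (v : V), E.toAddMonoidHom (a • v) = σ a • E.toAddMonoidHom v := hE
    have hWst : ∀ w ∈ W, E.toAddMonoidHom w ∈ W := by
      intro w hw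
      obtain ⟨x, hx, y, hy, rfl⟩ := Submodule.mem_sup.1 hw
      obtain ⟨a, b, rfl⟩ := Submodule.mem_span_pair.1 hx
      rw [map_add, map_add, hE', hE', hEf, hEf]
      exact Submodule.add_mem _ (Submodule.add_mem _ (Submodule.smul_mem _ _ (hfW' _))
        (Submodule.smul_mem _ _ (hfW' _))) (hle' (hst' _ hy))
    have hst'' : ∀ w ∈ W', E.toAddMonoidHom w ∈ W' := hst'
    have hWFG : W.FG := (Submodule.fg_span ((Set.finite_singleton _).insert _)).sup hf'
    have hlab' : ∀ z ∈ l', ∃ y ∈ (GK.cable r s K).Lab,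
        π ∣ z - (((y.1 : ℤ) : O)) ^ S * ((MM ^ (y.2 * (S : ℤ) ^ 2) : Oˣ) : O) := by
      intro z hz
      obtain ⟨y, hy, hd⟩ := hz' z hz
      refine ⟨(y.1 ^ s, y.2 * (s : ℤ) ^ 2), ?_, ?_⟩
      · simp only [GK.Lab]
        exact Finset.mem_union_right _ (Finset.mem_image_of_mem
          (fun z : ℤˣ × ℤ => (z.1 ^ s, z.2 * (s : ℤ) ^ 2)) hy)
      · have h4 : ((((y.1 ^ s : ℤˣ) : ℤ) : O)) ^ S *
            ((MM ^ (y.2 * (s : ℤ) ^ 2 * (S : ℤ) ^ 2) : Oˣ) : O) =
            (((y.1 : ℤ) : O)) ^ (s * S) * ((MM ^ (y.2 * ((s * S : ℕ) : ℤ) ^ 2) : Oˣ) : O) := by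
          rw [pow_mul, Units.val_pow_eq_pow_val, Int.cast_pow]
          congr 3
          push_cast
          ring
        show π ∣ z - ((((y.1 ^ s : ℤˣ) : ℤ) : O)) ^ S *
            ((MM ^ (y.2 * (s : ℤ) ^ 2 * (S : ℤ) ^ 2) : Oˣ) : O)
        rw [h4]
        exact hd
    by_cases h2s : s = 2
    · subst h2s
      refine ⟨W, l' ++ [(-1) ^ S * ((MM ^ (-(r * 2) * (S : ℤ) ^ 2) : Oˣ) : O)], hWFG, hWst,
        hfW', ?_, ?_⟩
      · refine UBind_good E.toAddMonoidHom π σ hσ hπ hE' W W' _ hWd hWst hst'' l' _ ?_ hg'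
        have h3 := UBind_new2 MM E.toAddMonoidHom (W' ⊔ UBind_pi π W) f S r hEf (by
          intro c
          have h4 : f (c + 1) = _ := hjc2 r K S c hS hco
          rw [h4]
          have h5 : ∀ (A B : O) (v x : V), -A • v + x - (-B) • v = -((A - B) • v) + x := by
            intro A B v x; module
          rw [h5]
          refine Submodule.add_mem _ (Submodule.neg_mem _ (Submodule.mem_sup_right ?_))
            (Submodule.smul_mem _ _ (Submodule.mem_sup_left (hj' _)))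
          exact UBind_smul_pi π _ W (UBind_ttMM π tt MM htt _ _) _ (hfW' c))
        intro g hg
        rcases hg with rfl | hg
        · exact h3 0
        · rw [Set.mem_singleton_iff] at hg
          rw [hg]; exact h3 1
      · intro z hz
        rw [List.mem_append] at hz
        rcases hz with hz | hz
        · exact hlab' z hz
        · rw [List.mem_singleton] at hz
          subst hz
          refine ⟨(-1, -(r * 2)), ?_, ?_⟩
          · simp [GK.Lab]
          · simp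
    · refine ⟨W, l' ++ [((MM ^ (-(r * s) * (S : ℤ) ^ 2) : Oˣ) : O),
        (-1) ^ S * ((MM ^ (-(r * s) * (S : ℤ) ^ 2) : Oˣ) : O)], hWFG, hWst,
        hfW', ?_, ?_⟩
      · refine UBind_good E.toAddMonoidHom π σ hσ hπ hE' W W' _ hWd hWst hst'' l' _ ?_ hg'
        have h3 := UBind_new π σ hσ hπ MM E.toAddMonoidHom hE' W W' hWst hst'' f S (r * s)
          hfW' hEf (by
          intro c
          have h4 : f (c + 2) = _ := hrec c
          rw [h4]
          have h5 : ∀ (A B : O) (v x y : V), A • v + x - y - B • v = ((A - B) • v) + x - y := by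
            intro A B v x y; module
          rw [h5]
          have h6 : (-(2 * (r * s) * S) : ℤ) = -(2 * r * s * S) := by ring
          rw [h6]
          refine Submodule.sub_mem _ (Submodule.add_mem _ (Submodule.mem_sup_right ?_)
            (Submodule.smul_mem _ _ (Submodule.mem_sup_left (hj' _))))
            (Submodule.smul_mem _ _ (Submodule.mem_sup_left (hj' _)))
          exact UBind_smul_pi π _ W (UBind_ttMM π tt MM htt _ _) _ (hfW' c))
        intro g hg
        rcases hg with rfl | hg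
        · exact h3 0
        · rw [Set.mem_singleton_iff] at hg
          rw [hg]; exact h3 1
      · intro z hz
        rw [List.mem_append] at hz
        rcases hz with hz | hz
        · exact hlab' z hz
        · rw [List.mem_cons, List.mem_singleton] at hz
          rcases hz with rfl | rfl
          · refine ⟨(1, -(r * s)), ?_, ?_⟩
            · simp [GK.Lab, h2s]
            · simp
          · refine ⟨(-1, -(r * s)), ?_, ?_⟩
            · simp [GK.Lab, h2s]
            · simp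
  | sum K L ihK ihL =>
    intro hV S hS
    obtain ⟨W₁, l₁, hf1, hs1, hj1, hg1, hz1⟩ := ihK hV.1 S hS
    obtain ⟨W₂, l₂, hf2, hs2, hj2, hg2, hz2⟩ := ihL hV.2 S hS
    refine ⟨W₁ * W₂, l₁.flatMap fun a => l₂.map fun b => a * b, hf1.mul hf2, ?_, ?_, ?_, ?_⟩
    · intro w hw
      refine Submodule.mul_induction_on hw ?_ ?_
      · intro m hm n hn
        rw [map_mul]
        exact Submodule.mul_mem_mul (hs1 _ hm) (hs2 _ hn)
      · intro x y hx hy
        rw [map_add]; exact Submodule.add_mem _ hx hy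
    · intro c
      have h2 := hjs K L S c hS
      obtain ⟨u, hu⟩ := hunit S c hS
      rw [← hu] at h2
      have h3 : jj (.sum K L) S c = (↑u⁻¹ : O) • (jj K S c * jj L S c) := by
        rw [← h2, ← mul_smul, Units.inv_mul, one_smul]
      rw [h3]
      exact Submodule.smul_mem _ _ (Submodule.mul_mem_mul (hj1 c) (hj2 c))
    · exact h1 O π σ hσ V E hE W₁ W₂ hs1 hs2 l₁ l₂ hg1 hg2
    · intro z hz
      rw [List.mem_flatMap] at hz
      obtain ⟨a, ha, hz⟩ := hz
      rw [List.mem_map] at hz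
      obtain ⟨b, hb, rfl⟩ := hz
      obtain ⟨y1, hy1, hd1⟩ := hz1 a ha
      obtain ⟨y2, hy2, hd2⟩ := hz2 b hb
      refine ⟨(y1.1 * y2.1, y1.2 + y2.2), ?_, ?_⟩
      · simp only [GK.Lab]
        exact Finset.mem_image₂_of_mem hy1 hy2
      · have h3 := UBind_dvd_mul hd1 hd2
        have h4 : (((y1.1 : ℤ) : O)) ^ S * ((MM ^ (y1.2 * (S : ℤ) ^ 2) : Oˣ) : O) *
            ((((y2.1 : ℤ) : O)) ^ S * ((MM ^ (y2.2 * (S : ℤ) ^ 2) : Oˣ) : O)) =
            ((((y1.1 * y2.1 : ℤˣ) : ℤ) : O)) ^ S *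
              ((MM ^ ((y1.2 + y2.2) * (S : ℤ) ^ 2) : Oˣ) : O) := by
          rw [add_mul, zpow_add, Units.val_mul, Units.val_mul, Int.cast_mul, mul_pow]
          ring
        rw [h4] at h3
        exact h3

end AJG

end

section

/-!
# MP_d3fa71_gt, item Gauss: Gauss lemma for operators
-/

open Polynomial

namespace AJG

section

variable {O : Type} [CommRing O]

/-- the shift on polynomials: `u ↦ X σ(u)` -/
noncomputable def Gauss_S (σ : O →+* O) : Polynomial O →+ Polynomial O where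
  toFun u := X * u.map σ
  map_zero' := by simp
  map_add' u v := by rw [Polynomial.map_add, mul_add]

theorem Gauss_S_apply (σ : O →+* O) (u : Polynomial O) : Gauss_S σ u = X * u.map σ := rfl

theorem Gauss_S_smul (σ : O →+* O) (a : O) (u : Polynomial O) :
    Gauss_S σ (a • u) = σ a • Gauss_S σ u := by
  rw [Gauss_S_apply, Gauss_S_apply, Polynomial.smul_eq_C_mul, Polynomial.map_mul, Polynomial.map_C,
    Polynomial.smul_eq_C_mul]
  ring

theorem Gauss_coeff (σ : O →+* O) (α : Polynomial O) (m j : ℕ) :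
    ((⇑(Gauss_S σ))^[m] α).coeff (j + m) = (⇑σ)^[m] (α.coeff j) := by
  induction m with
  | zero => rfl
  | succ m ih =>
    rw [Function.iterate_succ_apply', Function.iterate_succ_apply', Gauss_S_apply, ← add_assoc,
      Polynomial.coeff_X_mul, Polynomial.coeff_map, ih]

theorem Gauss_mod (σ : O →+* O) (π : O) (hσ : ∀ a, π ∣ σ a - a) (α : Polynomial O) (m : ℕ) :
    ((⇑(Gauss_S σ))^[m] α).map (Ideal.Quotient.mk (Ideal.span {π})) =
      X ^ m * α.map (Ideal.Quotient.mk (Ideal.span {π})) := by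
  have hm : (Ideal.Quotient.mk (Ideal.span {π})).comp σ = Ideal.Quotient.mk (Ideal.span {π}) := by
    ext a
    rw [RingHom.comp_apply, Ideal.Quotient.eq, Ideal.mem_span_singleton]
    exact hσ a
  induction m with
  | zero => simp
  | succ m ih =>
    rw [Function.iterate_succ_apply', Gauss_S_apply, Polynomial.map_mul, Polynomial.map_map, hm, ih,
      Polynomial.map_X]
    ring

/-- modulo `π` the twisted product is the product -/
theorem Gauss_mul_mod (σ : O →+* O) (π : O) (hσ : ∀ a, π ∣ σ a - a) (α g : Polynomial O) :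
    (AR_ev (Gauss_S σ) α g).map (Ideal.Quotient.mk (Ideal.span {π})) =
      g.map (Ideal.Quotient.mk (Ideal.span {π})) * α.map (Ideal.Quotient.mk (Ideal.span {π})) := by
  induction g using Polynomial.induction_on' with
  | add p q hp hq => rw [map_add, Polynomial.map_add, Polynomial.map_add, hp, hq, add_mul]
  | monomial n a =>
    rw [AR_ev_monomial, Polynomial.map_monomial, Polynomial.smul_eq_C_mul, Polynomial.map_mul,
      Gauss_mod σ π hσ, Polynomial.map_C, ← Polynomial.C_mul_X_pow_eq_monomial]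
    ring

/-- the twisted product corresponds to the composition of operators -/
theorem Gauss_comp {V : Type} [AddCommGroup V] [Module O V] (E : V →+ V) (σ : O →+* O)
    (hE : ∀ (a : O) (v : V), E (a • v) = σ a • E v) (x : V) (α g : Polynomial O) :
    AR_ev E x (AR_ev (Gauss_S σ) α g) = AR_ev E (AR_ev E x α) g := by
  have h1 : ∀ m : ℕ, AR_ev E x ((⇑(Gauss_S σ))^[m] α) = (⇑E)^[m] (AR_ev E x α) := by
    intro m
    induction m with
    | zero => rfl
    | succ m ih =>
      rw [Function.iterate_succ_apply', Function.iterate_succ_apply', Gauss_S_apply,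
        AR_ev_twist E σ hE, ih]
  induction g using Polynomial.induction_on' with
  | add p q hp hq => rw [map_add, map_add, map_add, hp, hq]
  | monomial n a => rw [AR_ev_monomial, AR_ev_monomial, map_smul, h1]

/-- pseudo division -/
theorem Gauss_div [IsDomain O] {V : Type} [AddCommGroup V] [Module O V] (E : V →+ V) (σ : O →+* O)
    (hinj : Function.Injective σ) (hE : ∀ (a : O) (v : V), E (a • v) = σ a • E v) (x : V)
    (α : Polynomial O) (hα : α ≠ 0) (hαx : AR_ev E x α = 0)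
    (hmin : ∀ β : Polynomial O, β ≠ 0 → AR_ev E x β = 0 → α.natDegree ≤ β.natDegree) (n : ℕ) :
    ∀ q : Polynomial O, (∀ j, n ≤ j → q.coeff j = 0) → AR_ev E x q = 0 →
      ∃ (c : O) (g : Polynomial O), c ≠ 0 ∧ c • q = AR_ev (Gauss_S σ) α g := by
  induction n with
  | zero =>
    intro q hq _
    have h0 : q = 0 := by
      ext j
      rw [hq j (Nat.zero_le j), Polynomial.coeff_zero]
    exact ⟨1, 0, one_ne_zero, by rw [h0, smul_zero, map_zero]⟩
  | succ n ih =>
    intro q hq hqx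
    by_cases hn : q.coeff n = 0
    · refine ih q (fun j hj => ?_) hqx
      rcases hj.lt_or_eq with h | h
      · exact hq j h
      · rw [← h]; exact hn
    · have hq0 : q ≠ 0 := fun h => hn (by rw [h, Polynomial.coeff_zero])
      have hdeg : q.natDegree ≤ n := by
        rw [Polynomial.natDegree_le_iff_coeff_eq_zero]
        intro N hN
        exact hq N hN
      obtain ⟨m, hm⟩ := Nat.exists_eq_add_of_le ((hmin q hq0 hqx).trans hdeg)
      set a := (⇑σ)^[m] α.leadingCoeff with ha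
      have ha0 : a ≠ 0 := by
        have h1 : Function.Injective ((⇑σ)^[m]) := hinj.iterate m
        intro h
        have h2 : (⇑σ)^[m] α.leadingCoeff = (⇑σ)^[m] 0 := by
          rw [← ha, h]
          exact (Function.iterate_fixed (map_zero σ) m).symm
        exact hα (Polynomial.leadingCoeff_eq_zero.1 (h1 h2))
      obtain ⟨c, g, hc, hg⟩ := ih (a • q - q.coeff n • (⇑(Gauss_S σ))^[m] α) (by
        intro j hj
        obtain ⟨i, hi⟩ : ∃ i, j = i + m := ⟨j - m, by omega⟩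
        rw [Polynomial.coeff_sub, Polynomial.coeff_smul, Polynomial.coeff_smul, hi, Gauss_coeff,
          smul_eq_mul, smul_eq_mul]
        rcases hj.lt_or_eq with h | h
        · rw [hq (i + m) (by omega), mul_zero, Polynomial.coeff_eq_zero_of_natDegree_lt
            (show α.natDegree < i by omega)]
          rw [Function.iterate_fixed (map_zero σ) m, mul_zero, sub_zero]
        · have h3 : i = α.natDegree := by omega
          have h4 : i + m = n := by omega
          rw [h4, h3]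
          show a * q.coeff n - q.coeff n * a = 0
          ring) (by
        rw [map_sub, map_smul, hqx, smul_zero, map_smul]
        have h5 : (⇑(Gauss_S σ))^[m] α = AR_ev (Gauss_S σ) α (monomial m (1 : O)) := by
          rw [AR_ev_monomial, one_smul]
        rw [h5, Gauss_comp E σ hE, hαx, AR_ev_monomial,
          Function.iterate_fixed (map_zero E) m, smul_zero, smul_zero, sub_zero])
      refine ⟨c * a, g + monomial m (c * q.coeff n), mul_ne_zero hc ha0, ?_⟩
      rw [map_add, ← hg, AR_ev_monomial, smul_sub, smul_smul, smul_smul, sub_add_cancel]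

/-- removing the powers of `π` -/
theorem Gauss_rem [IsDomain O] (σ : O →+* O) (π : O) (hπ : Prime π) (hσ : ∀ a, π ∣ σ a - a)
    (α : Polynomial O) (hα : ∃ j, ¬ π ∣ α.coeff j) (q : Polynomial O) (k : ℕ) :
    ∀ (c : O) (g : Polynomial O), (π ^ k * c) • q = AR_ev (Gauss_S σ) α g →
      ∃ g' : Polynomial O, c • q = AR_ev (Gauss_S σ) α g' := by
  induction k with
  | zero =>
    intro c g h
    exact ⟨g, by rw [← h, pow_zero, one_mul]⟩
  | succ k ih =>
    intro c g h
    have hI : (Ideal.span {π} : Ideal O).IsPrime := (Ideal.span_singleton_prime hπ.ne_zero).2 hπ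
    have hdom : IsDomain (O ⧸ Ideal.span {π}) := Ideal.Quotient.isDomain _
    have hmk : Ideal.Quotient.mk (Ideal.span {π}) π = 0 :=
      Ideal.Quotient.eq_zero_iff_mem.2 (Ideal.mem_span_singleton_self π)
    have h1 : g.map (Ideal.Quotient.mk (Ideal.span {π})) *
        α.map (Ideal.Quotient.mk (Ideal.span {π})) = 0 := by
      rw [← Gauss_mul_mod σ π hσ, ← h, Polynomial.smul_eq_C_mul, Polynomial.map_mul,
        Polynomial.map_C, map_mul, map_pow, hmk]
      simp
    have h2 : α.map (Ideal.Quotient.mk (Ideal.span {π})) ≠ 0 := by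
      obtain ⟨j, hj⟩ := hα
      intro h3
      refine hj ?_
      rw [← Ideal.mem_span_singleton, ← Ideal.Quotient.eq_zero_iff_mem, ← Polynomial.coeff_map, h3,
        Polynomial.coeff_zero]
    have h3 := (mul_eq_zero.1 h1).resolve_right h2
    have h4 : C π ∣ g := by
      rw [Polynomial.C_dvd_iff_dvd_coeff]
      intro j
      rw [← Ideal.mem_span_singleton, ← Ideal.Quotient.eq_zero_iff_mem, ← Polynomial.coeff_map, h3,
        Polynomial.coeff_zero]
    obtain ⟨g1, hg1⟩ := h4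
    refine ih c g1 ?_
    have h5 : π • ((π ^ k * c) • q) = π • AR_ev (Gauss_S σ) α g1 := by
      rw [smul_smul, ← mul_assoc, ← pow_succ', h, hg1, ← Polynomial.smul_eq_C_mul, map_smul]
    exact smul_right_injective _ hπ.ne_zero h5

end

theorem Gauss_proof : S_Gauss := by
  intro O _ _ π σ hinj hπ hfac hσ _ V _ _ E hE x α q hα hαπ hmin hq
  rw [AR_opp] at hα hq
  have hα0 : α ≠ 0 := by
    obtain ⟨j, hj⟩ := hαπ
    rintro rfl
    exact hj (by rw [Polynomial.coeff_zero]; exact dvd_zero _)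
  obtain ⟨c, g, hc, hg⟩ := Gauss_div E σ hinj hE x α hα0 hα
    (fun β h1 h2 => hmin β h1 (by rw [AR_opp]; exact h2)) (q.natDegree + 1) q
    (fun j hj => Polynomial.coeff_eq_zero_of_natDegree_lt hj) hq
  obtain ⟨k, c', hc', hcπ⟩ := hfac c hc
  rw [hc'] at hg
  obtain ⟨g', hg'⟩ := Gauss_rem σ π hπ hσ α hαπ q k c' g hg
  refine ⟨c', g', hcπ, fun j => ?_⟩
  rw [← Ideal.mem_span_singleton, ← Ideal.Quotient.eq_zero_iff_mem, ← Polynomial.coeff_map,
    Polynomial.map_sub, ← Polynomial.smul_eq_C_mul, hg', Gauss_mul_mod σ π hσ, Polynomial.map_mul,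
    sub_self, Polynomial.coeff_zero]

end AJG

end
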