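import Pool.Agent.Work.MP_d3fa71_gt.StmtsA

/-! Bundle of small proof modules (one section per former module). -/

section

/-!
# MP_d3fa71_gt, item ADiv: irreducible factors of an A-polynomial with given curves
-/

open Polynomial

namespace AJG

/-! ### Evaluation of Laurent polynomials -/

/-- evaluation of a Laurent polynomial at a unit `m` of `ℂ` -/
noncomputable def ADiv_e (m : ℂˣ) : LaurentPolynomial ℤ →+* ℂ :=
  LaurentPolynomial.eval₂ (Int.castRingHom ℂ) m

theorem ADiv_e_comp (m : ℂˣ) :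
    (ADiv_e m).comp (Polynomial.toLaurent (R := ℤ)) =
      (evalRingHom (m : ℂ)).comp (Polynomial.mapRingHom (Int.castRingHom ℂ)) := by
  ext
  · simp [ADiv_e]
  · simp [ADiv_e]

theorem ADiv_e_lab (m : ℂˣ) (z : ℤˣ × ℤ) :
    ADiv_e m (lab z) = ((z.1 : ℤ) : ℂ) * (m : ℂ) ^ z.2 := by
  unfold ADiv_e lab
  rw [LaurentPolynomial.eval₂_C_mul_T]
  simp

/-- evaluation of `P(M, L)` on the curve of a label -/
theorem ADiv_eval (P : ℤ[X][X]) (m : ℂˣ) (z : ℤˣ × ℤ) :
    (P.map (Polynomial.mapRingHom (Int.castRingHom ℂ))).evalEval (m : ℂ)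
      (((z.1 : ℤ) : ℂ) * (m : ℂ) ^ z.2) = ADiv_e m ((toL P).eval (lab z)) := by
  rw [← map_evalRingHom_eval, Polynomial.map_map, ← ADiv_e_comp, toL, eval_map, eval_map,
    hom_eval₂, ADiv_e_lab]

theorem ADiv_zero_of_infinite (p : LaurentPolynomial ℤ)
    (h : {m : ℂ | ∃ u : ℂˣ, (u : ℂ) = m ∧ ADiv_e u p = 0}.Infinite) : p = 0 := by
  obtain ⟨n, p', hp'⟩ := LaurentPolynomial.exists_T_pow p
  have h1 : p'.map (Int.castRingHom ℂ) = 0 := by
    refine eq_zero_of_infinite_isRoot _ (h.mono ?_)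
    rintro m ⟨u, rfl, hu⟩
    have h2 : ADiv_e u (toLaurent p') = 0 := by
      rw [hp', map_mul, hu, zero_mul]
    unfold ADiv_e at h2
    rw [LaurentPolynomial.eval₂_toLaurent] at h2
    rw [Set.mem_ofPred_eq, IsRoot.def, eval_map]
    exact h2
  have h3 : p' = 0 := by
    rw [← Polynomial.map_zero (Int.castRingHom ℂ)] at h1
    exact map_injective _ (RingHom.injective_int _) h1
  rw [h3, map_zero] at hp'
  have h4 : p * LaurentPolynomial.T n * LaurentPolynomial.T (-n) = 0 := by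
    rw [← hp', zero_mul]
  rw [mul_assoc, ← LaurentPolynomial.T_add, add_neg_cancel, LaurentPolynomial.T_zero, mul_one] at h4
  exact h4

/-! ### Division -/

noncomputable def ADiv_iota : LaurentPolynomial ℤ →+* FractionRing ℤ[X] :=
  LaurentPolynomial.eval₂ (algebraMap ℤ (FractionRing ℤ[X]))
    (Units.mk0 (algebraMap ℤ[X] (FractionRing ℤ[X]) X)
      ((map_ne_zero_iff _ (IsFractionRing.injective ℤ[X] (FractionRing ℤ[X]))).2 X_ne_zero))

theorem ADiv_iota_comp :
    ADiv_iota.comp (Polynomial.toLaurent (R := ℤ)) = algebraMap ℤ[X] (FractionRing ℤ[X]) := by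
  ext
  · simp [ADiv_iota]
  · show ADiv_iota (toLaurent X) = _
    unfold ADiv_iota
    rw [LaurentPolynomial.eval₂_toLaurent, eval₂_X]
    rfl

theorem ADiv_root (P : ℤ[X][X]) (y : LaurentPolynomial ℤ) (h : (toL P).eval y = 0) :
    (P.map (algebraMap ℤ[X] (FractionRing ℤ[X]))).eval (ADiv_iota y) = 0 := by
  rw [← ADiv_iota_comp, eval_map, ← hom_eval₂, ← eval_map]
  show ADiv_iota (eval y (toL P)) = 0
  rw [h, map_zero]

theorem ADiv_dvd {F A : ℤ[X][X]} (hF : Irreducible F) (hdeg : 0 < F.natDegree)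
    (y : LaurentPolynomial ℤ) (h1 : (toL F).eval y = 0) (h2 : (toL A).eval y = 0) : F ∣ A := by
  have hp : F.IsPrimitive := hF.isPrimitive hdeg.ne'
  rw [hp.dvd_iff_fraction_map_dvd_fraction_map (FractionRing ℤ[X])]
  have hirr : Irreducible (F.map (algebraMap ℤ[X] (FractionRing ℤ[X]))) :=
    (hp.irreducible_iff_irreducible_map_fraction_map).1 hF
  have r1 := ADiv_root F y h1
  have r2 := ADiv_root A y h2
  have d1 := dvd_iff_isRoot.2 r1
  have d2 := dvd_iff_isRoot.2 r2
  have hass := (irreducible_X_sub_C (ADiv_iota y)).associated_of_dvd hirr d1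
  exact hass.symm.dvd.trans d2

/-! ### the main theorem -/

theorem ADiv_infinite_of_finite {s : Set ℂ} (hs : s.Finite) : ({m : ℂ | m ≠ 0 ∧ m ∉ s}).Infinite := by
  have h : ({m : ℂ | m ≠ 0 ∧ m ∉ s}) = (insert 0 s)ᶜ := by
    ext m
    simp [not_or]
  rw [h]
  exact (hs.insert 0).infinite_compl

theorem ADiv_proof : S_ADiv := by
  intro S A hA hXA ⟨T, hT, hST⟩ F hF hdeg
  constructor
  · rintro hFA
    have hc0 : F.coeff 0 ≠ 0 := by
      intro h
      exact hXA ((X_dvd_iff.2 h).trans hFA)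
    have hF0 : F ≠ 0 := hF.ne_zero
    -- the finite set of bad values
    have hfin : ∀ q : ℤ[X], q ≠ 0 → {m : ℂ | (q.map (Int.castRingHom ℂ)).eval m = 0}.Finite := by
      intro q hq
      have hq' : q.map (Int.castRingHom ℂ) ≠ 0 := by
        intro h
        apply hq
        rw [← Polynomial.map_zero (Int.castRingHom ℂ)] at h
        exact map_injective _ (RingHom.injective_int _) h
      exact (finite_setOfPred_isRoot hq')
    have hbad := (hfin _ hc0).union (hfin _ (leadingCoeff_ne_zero.2 hF0))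
    have hinf := ADiv_infinite_of_finite hbad
    -- the sets for the labels
    have hcover : ({m : ℂ | m ≠ 0 ∧ m ∉ ({m : ℂ | ((F.coeff 0).map (Int.castRingHom ℂ)).eval m = 0} ∪
        {m : ℂ | (F.leadingCoeff.map (Int.castRingHom ℂ)).eval m = 0})}) ⊆
        ⋃ z ∈ S, {m : ℂ | ∃ u : ℂˣ, (u : ℂ) = m ∧ ADiv_e u ((toL F).eval (lab z)) = 0} := by
      rintro m ⟨hm0, hm⟩
      simp only [Set.mem_union, Set.mem_ofPred_eq, not_or] at hm
      obtain ⟨hm1, hm2⟩ := hm
      set φ : ℤ[X] →+* ℂ := (evalRingHom m).comp (Polynomial.mapRingHom (Int.castRingHom ℂ)) with hφ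
      have hφ1 : φ (F.coeff 0) ≠ 0 := by
        simpa [hφ] using hm1
      have hφ2 : φ F.leadingCoeff ≠ 0 := by
        simpa [hφ] using hm2
      have hdeg' : (F.map φ).natDegree = F.natDegree := natDegree_map_of_leadingCoeff_ne_zero φ hφ2
      have hd0 : (F.map φ).degree ≠ 0 :=
        (natDegree_pos_iff_degree_pos.1 (by rw [hdeg']; exact hdeg)).ne'
      obtain ⟨l, hl⟩ := IsAlgClosed.exists_root (F.map φ) hd0
      have hl0 : l ≠ 0 := by
        rintro rfl
        rw [IsRoot.def, ← coeff_zero_eq_eval_zero, coeff_map] at hl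
        exact hφ1 hl
      have hFl : (F.map (Polynomial.mapRingHom (Int.castRingHom ℂ))).evalEval m l = 0 := by
        rw [← map_evalRingHom_eval, Polynomial.map_map]
        exact hl
      have hAl : (A.map (Polynomial.mapRingHom (Int.castRingHom ℂ))).evalEval m l = 0 := by
        obtain ⟨B, rfl⟩ := hFA
        rw [Polynomial.map_mul, evalEval_mul, hFl, zero_mul]
      have hmem : ((m, l) : ℂ × ℂ) ∈ Curves S := by
        rw [hST]
        exact Or.inl ⟨hm0, hl0, hAl⟩
      obtain ⟨-, z, hz, hzl⟩ := hmem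
      rw [Set.mem_iUnion₂]
      refine ⟨z, hz, Units.mk0 m hm0, rfl, ?_⟩
      rw [← ADiv_eval]
      simp only [Units.val_mk0]
      rw [← hzl]
      exact hFl
    by_contra hno
    push Not at hno
    have hfin2 : (⋃ z ∈ S, {m : ℂ | ∃ u : ℂˣ, (u : ℂ) = m ∧ ADiv_e u ((toL F).eval (lab z)) = 0}).Finite := by
      refine Set.Finite.biUnion S.finite_toSet ?_
      intro z hz
      by_contra hi
      exact hno z hz (ADiv_zero_of_infinite _ hi)
    exact hinf (hfin2.subset hcover)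
  · rintro ⟨z, hz, hFz⟩
    refine ADiv_dvd hF hdeg (lab z) hFz (ADiv_zero_of_infinite _ ?_)
    have hinf := ADiv_infinite_of_finite (hT.image Prod.fst)
    refine hinf.mono ?_
    rintro m ⟨hm0, hm⟩
    refine ⟨Units.mk0 m hm0, rfl, ?_⟩
    have hmem : ((m, ((z.1 : ℤ) : ℂ) * m ^ z.2) : ℂ × ℂ) ∈ Curves S := ⟨hm0, z, hz, rfl⟩
    rw [hST] at hmem
    rcases hmem with hmem | hmem
    · have := hmem.2.2
      rw [← ADiv_eval]
      exact this
    · exact absurd ⟨_, hmem, rfl⟩ hm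

end AJG

end

section

open Polynomial

namespace AJG

/-- the factor `M ^ b L - ε M ^ a`, `a - b = λ`. -/
noncomputable def AEx_F (z : ℤˣ × ℤ) : ℤ[X][X] :=
  C (X ^ (-z.2).toNat) * X - C (C (z.1 : ℤ) * X ^ z.2.toNat)

lemma AEx_coeff (z : ℤˣ × ℤ) : (AEx_F z).coeff 0 ≠ 0 := by
  have h : (AEx_F z).coeff 0 = -(C (z.1 : ℤ) * X ^ z.2.toNat) := by
    rw [AEx_F, coeff_sub, mul_coeff_zero, coeff_X_zero, mul_zero, coeff_C_zero, zero_sub]
  rw [h, neg_ne_zero]
  exact mul_ne_zero (by simp) (pow_ne_zero _ X_ne_zero)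

lemma AEx_eval (z : ℤˣ × ℤ) (m l : ℂ) :
    ((AEx_F z).map (Polynomial.mapRingHom (Int.castRingHom ℂ))).evalEval m l =
      m ^ (-z.2).toNat * l - ((z.1 : ℤ) : ℂ) * m ^ z.2.toNat := by
  simp [AEx_F, evalEval]
  ring

lemma AEx_zero (z : ℤˣ × ℤ) (m l : ℂ) (hm : m ≠ 0) :
    m ^ (-z.2).toNat * l - ((z.1 : ℤ) : ℂ) * m ^ z.2.toNat = 0 ↔
      l = ((z.1 : ℤ) : ℂ) * m ^ z.2 := by
  have hb : m ^ (-z.2).toNat ≠ 0 := pow_ne_zero _ hm
  have e : m ^ z.2.toNat = m ^ (-z.2).toNat * m ^ z.2 := by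
    rw [← zpow_natCast, ← zpow_natCast, ← zpow_add₀ hm]
    congr 1
    omega
  rw [e, sub_eq_zero]
  constructor
  · intro h
    apply mul_left_cancel₀ hb
    rw [h]
    ring
  · rintro rfl
    ring

theorem AEx_proof : S_AEx := by
  intro S
  refine ⟨∏ z ∈ S, AEx_F z, ?_, ?_, ∅, Set.finite_empty, ?_⟩
  · rw [Finset.prod_ne_zero_iff]
    intro z _ h
    apply AEx_coeff z
    rw [h, coeff_zero]
  · rw [Polynomial.prime_X.dvd_finsetProd_iff]
    rintro ⟨z, _, h⟩
    rw [X_dvd_iff] at h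
    exact AEx_coeff z h
  · rw [Set.union_empty]
    ext p
    obtain ⟨m, l⟩ := p
    have key : ((∏ z ∈ S, AEx_F z).map (Polynomial.mapRingHom (Int.castRingHom ℂ))).evalEval m l =
        ∏ z ∈ S, (m ^ (-z.2).toNat * l - ((z.1 : ℤ) : ℂ) * m ^ z.2.toNat) := by
      rw [Polynomial.map_prod, ← coe_evalEvalRingHom, map_prod]
      refine Finset.prod_congr rfl fun z _ => ?_
      rw [coe_evalEvalRingHom, AEx_eval]
    constructor
    · rintro ⟨hm, z, hz, hl⟩
      refine ⟨hm, ?_, ?_⟩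
      · show l ≠ 0
        change l = _ at hl
        rw [hl]
        exact mul_ne_zero (by simp) (zpow_ne_zero _ hm)
      · show ((∏ z ∈ S, AEx_F z).map (Polynomial.mapRingHom (Int.castRingHom ℂ))).evalEval m l = 0
        rw [key]
        exact Finset.prod_eq_zero hz ((AEx_zero z m l hm).2 hl)
    · rintro ⟨hm, _, h⟩
      change ((∏ z ∈ S, AEx_F z).map (Polynomial.mapRingHom (Int.castRingHom ℂ))).evalEval m l = 0 at h
      rw [key, Finset.prod_eq_zero_iff] at h
      obtain ⟨z, hz, h⟩ := h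
      exact ⟨hm, z, hz, (AEx_zero z m l hm).1 h⟩

end AJG

end

section

/-!
# MP_d3fa71_gt, item Abel: abelian representations
-/

open Polynomial

namespace AJG

theorem Abel_proof (h1 : S_CableHom) (h2 : S_SumHom) : S_Abel := by
  intro K
  induction K with
  | unknot =>
    intro _ A
    refine ⟨zpowersHom SL2 A, ?_, map_one _⟩
    show (zpowersHom SL2 A) (Multiplicative.ofAdd 1) = A
    simp
  | cable r s K ih =>
    intro hK A
    obtain ⟨hv, -, hco, -⟩ := hK
    obtain ⟨ρ, hm, hl⟩ := ih hv (A ^ s)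
    have hV : (A ^ r) ^ s = ρ K.group.mer ^ r * ρ K.group.lon ^ s := by
      rw [hm, hl, one_pow, mul_one, ← zpow_natCast (A ^ r) s, ← zpow_natCast A s, ← zpow_mul,
        ← zpow_mul, mul_comm]
    obtain ⟨ρ', hm', hl'⟩ := h1 r s K.group ρ (A ^ r) hV
    have hgcd : r * Int.gcdA r s + s * Int.gcdB r s = 1 := by
      rw [← Int.gcd_eq_gcd_ab, Int.isCoprime_iff_gcd_eq_one.1 hco]
      rfl
    have hmer : ρ' (cableGroup r s K.group).mer = A := by
      rw [hm', hm, hl, one_zpow, mul_one, ← zpow_natCast A s, ← zpow_mul, ← zpow_mul,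
        ← zpow_add, add_comm, hgcd, zpow_one]
    refine ⟨ρ', hmer, ?_⟩
    show ρ' (cableGroup r s K.group).lon = 1
    rw [hl', hmer, ← zpow_natCast (A ^ r) s, ← zpow_mul, ← zpow_add, add_neg_cancel, zpow_zero]
  | sum K L ihK ihL =>
    intro hK A
    obtain ⟨ρ₁, hm₁, hl₁⟩ := ihK hK.1 A
    obtain ⟨ρ₂, hm₂, hl₂⟩ := ihL hK.2 A
    obtain ⟨ρ', hm', hl'⟩ := h2 K.group L.group ρ₁ ρ₂ (by rw [hm₁, hm₂])
    exact ⟨ρ', by rw [← hm₁]; exact hm', by
      show ρ' (sumGroup K.group L.group).lon = 1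
      rw [hl', hl₁, hl₂, one_mul]⟩

end AJG

end

section

/-! Item CableHom: extension of a representation to the group of a cable. -/

set_option autoImplicit false

namespace AJG

theorem CableHom_proof : S_CableHom := by
  intro r s P ρ V hV
  let φ : FP P unknotGroup →* SL2 := Monoid.Coprod.lift ρ (zpowersHom SL2 V)
  have hi : ∀ y, φ (inc₁ P unknotGroup y) = ρ y := fun y =>
    Monoid.Coprod.lift_apply_inl ρ (zpowersHom SL2 V) y
  have hx : φ (coreX P) = V := by
    have h1 : φ (coreX P) = zpowersHom SL2 V (Multiplicative.ofAdd (1 : ℤ)) :=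
      Monoid.Coprod.lift_apply_inr ρ (zpowersHom SL2 V) _
    rw [h1, zpowersHom_apply, toAdd_ofAdd, zpow_one]
  have hN : Subgroup.normalClosure {cableRel r s P} ≤ φ.ker := by
    refine Subgroup.normalClosure_le_normal ?_
    rintro y hy
    rw [Set.mem_singleton_iff] at hy
    subst hy
    show φ (coreX P ^ s * (inc₁ P unknotGroup (P.mer ^ r * P.lon ^ s))⁻¹) = 1
    rw [map_mul, map_inv, map_pow, hi, hx, map_mul, map_zpow, map_pow, hV, mul_inv_cancel]
  let ρ' : (cableGroup r s P).G →* SL2 :=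
    QuotientGroup.lift (Subgroup.normalClosure {cableRel r s P}) φ hN
  have hm : φ (cableMer r s P) =
      ρ P.mer ^ (Int.gcdB r s) * ρ P.lon ^ (-Int.gcdA r s) * V ^ (Int.gcdA r s) := by
    unfold cableMer
    rw [map_mul, map_zpow, hi, hx, map_mul, map_zpow, map_zpow]
  refine ⟨ρ', hm, ?_⟩
  show φ (coreX P ^ s * cableMer r s P ^ (-(r * s))) = V ^ s * (φ (cableMer r s P)) ^ (-(r * s))
  rw [map_mul, map_pow, map_zpow, hx]

end AJG

end

section

/-! Item CableRes: restriction of a representation of the group of a cable. -/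

set_option autoImplicit false

namespace AJG

theorem CableRes_proof : S_CableRes := by
  intro r s P ρ'
  let π : FP P unknotGroup →* Quo P unknotGroup (cableRel r s P) :=
    toQuo P unknotGroup (cableRel r s P)
  let ρ : Quo P unknotGroup (cableRel r s P) →* SL2 := ρ'
  refine ⟨(ρ.comp π).comp (inc₁ P unknotGroup), ρ (π (coreX P)), ?_, ?_, ?_⟩
  · show ρ (π (coreX P)) ^ s = ρ (π (inc₁ P unknotGroup P.mer)) ^ r *
      ρ (π (inc₁ P unknotGroup P.lon)) ^ s
    have h : cableRel r s P ∈ Subgroup.normalClosure {cableRel r s P} :=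
      Subgroup.subset_normalClosure rfl
    have h1 : π (coreX P ^ s * (inc₁ P unknotGroup (P.mer ^ r * P.lon ^ s))⁻¹) = 1 :=
      (QuotientGroup.eq_one_iff (N := Subgroup.normalClosure {cableRel r s P}) _).2 h
    have h3 : π (coreX P ^ s) * (π (inc₁ P unknotGroup (P.mer ^ r * P.lon ^ s)))⁻¹ = 1 := by
      have e := map_mul π (coreX P ^ s) (inc₁ P unknotGroup (P.mer ^ r * P.lon ^ s))⁻¹
      rw [map_inv] at e
      exact e.symm.trans h1
    have h2 : π (coreX P) ^ s = π (inc₁ P unknotGroup P.mer) ^ r *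
        π (inc₁ P unknotGroup P.lon) ^ s := by
      have h5 := mul_inv_eq_one.1 h3
      rw [← map_pow, h5]
      simp only [map_mul, map_zpow, map_pow]
    have h4 := congrArg ρ h2
    rw [map_pow, map_mul, map_zpow, map_pow] at h4
    exact h4
  · show ρ (π (cableMer r s P)) = ρ (π (inc₁ P unknotGroup P.mer)) ^ (Int.gcdB r s) *
      ρ (π (inc₁ P unknotGroup P.lon)) ^ (-Int.gcdA r s) * ρ (π (coreX P)) ^ (Int.gcdA r s)
    unfold cableMer
    simp only [map_mul, map_zpow]
  · show ρ (π (coreX P ^ s * cableMer r s P ^ (-(r * s)))) = ρ (π (coreX P)) ^ s *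
      ρ (π (cableMer r s P)) ^ (-(r * s))
    rw [map_mul, map_mul, map_pow, map_pow, map_zpow, map_zpow]

end AJG

end

section

/-!
# MP_d3fa71_gt, item Central: a representation with central meridian kills the longitude
-/

open Polynomial

namespace AJG

theorem Central_grp {G : Type*} [Group G] (A L V c : G) (a b r s : ℤ) (hAL : Commute A L)
    (hcV : Commute c V) (h1 : A ^ a * L ^ b * V ^ (-b) = c) (h2 : V ^ s = A ^ r * L ^ s)
    (h3 : a * s - b * r = 1) : A = c ^ s := by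
  have h4 : A ^ a * L ^ b = c * V ^ b := by
    rw [← h1, mul_assoc, ← zpow_add, neg_add_cancel, zpow_zero, mul_one]
  have e1 : (A ^ a * L ^ b) ^ s = A ^ (a * s) * L ^ (b * s) := by
    rw [(hAL.zpow_zpow a b).mul_zpow, ← zpow_mul, ← zpow_mul]
  have e2 : (A ^ r * L ^ s) ^ (-b) = L ^ (s * -b) * A ^ (r * -b) := by
    rw [(hAL.zpow_zpow r s).mul_zpow, ← zpow_mul, ← zpow_mul]
    exact (hAL.zpow_zpow _ _).eq
  have e3 : (A ^ a * L ^ b) ^ s * (A ^ r * L ^ s) ^ (-b) = A := by
    rw [e1, e2, mul_assoc, ← mul_assoc (L ^ (b * s)), ← zpow_add]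
    have h5 : b * s + s * -b = 0 := by ring
    rw [h5, zpow_zero, one_mul, ← zpow_add]
    have h6 : a * s + r * -b = 1 := by rw [← h3]; ring
    rw [h6, zpow_one]
  have e4 : (A ^ a * L ^ b) ^ s * (A ^ r * L ^ s) ^ (-b) = c ^ s := by
    rw [h4, ← h2, (hcV.zpow_right b).mul_zpow, ← zpow_mul, ← zpow_mul, mul_assoc, ← zpow_add]
    have h5 : b * s + s * -b = 0 := by ring
    rw [h5, zpow_zero, mul_one]
  rw [← e3, e4]

theorem Central_comm {c : SL2} (hc : c = 1 ∨ c = -1) (V : SL2) : Commute c V := by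
  rcases hc with rfl | rfl
  · exact Commute.one_left V
  · apply Subtype.ext
    simp

theorem Central_pow {c : SL2} (hc : c = 1 ∨ c = -1) (s : ℕ) : c ^ s = 1 ∨ c ^ s = -1 := by
  rcases hc with rfl | rfl
  · left
    exact one_pow s
  · rcases Nat.even_or_odd s with h | h
    · left
      obtain ⟨k, rfl⟩ := h
      rw [← two_mul, pow_mul]
      have : (-1 : SL2) ^ 2 = 1 := by
        apply Subtype.ext
        simp
      rw [this, one_pow]
    · right
      obtain ⟨k, rfl⟩ := h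
      rw [pow_succ, pow_mul]
      have : (-1 : SL2) ^ 2 = 1 := by
        apply Subtype.ext
        simp
      rw [this, one_pow, one_mul]

theorem Central_proof (h1 : S_CableRes) (h2 : S_SumRes) (h3 : S_PerComm) : S_Central := by
  intro K
  induction K with
  | unknot =>
    intro _ ρ _
    show ρ 1 = 1
    exact map_one ρ
  | cable r s K ih =>
    intro hK
    obtain ⟨hv, -, hco, -⟩ := hK
    have key : ∀ ρ' : (cableGroup r s K.group).G →* SL2,
        (ρ' (cableGroup r s K.group).mer = 1 ∨ ρ' (cableGroup r s K.group).mer = -1) →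
        ρ' (cableGroup r s K.group).lon = 1 := by
      intro ρ' hc'
      obtain ⟨ρ, V, hV, hm, hl⟩ := h1 r s K.group ρ'
      have hgcd : r * Int.gcdA r s + s * Int.gcdB r s = 1 := by
        rw [← Int.gcd_eq_gcd_ab, Int.isCoprime_iff_gcd_eq_one.1 hco]
        rfl
      have hcomm : Commute (ρ K.group.mer) (ρ K.group.lon) := by
        show ρ K.group.mer * ρ K.group.lon = ρ K.group.lon * ρ K.group.mer
        rw [← map_mul, ← map_mul, h3 K]
      have hA : ρ K.group.mer = (ρ' (cableGroup r s K.group).mer) ^ (s : ℤ) := by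
        refine Central_grp (ρ K.group.mer) (ρ K.group.lon) V _ (Int.gcdB r s) (-Int.gcdA r s) r s
          hcomm (Central_comm hc' V) ?_ ?_ ?_
        · rw [neg_neg, hm]
        · rw [zpow_natCast, zpow_natCast]
          exact hV
        · linear_combination hgcd
      rw [zpow_natCast] at hA
      have hcen : ρ K.group.mer = 1 ∨ ρ K.group.mer = -1 := by
        rw [hA]
        exact Central_pow hc' s
      have hlon := ih hv ρ hcen
      rw [hl, hV, hlon, one_pow, mul_one, hA, ← zpow_natCast, ← zpow_mul, ← zpow_add]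
      have h5 : (s : ℤ) * r + -(r * s) = 0 := by ring
      rw [h5, zpow_zero]
    exact key
  | sum K L ihK ihL =>
    intro hK
    have key : ∀ ρ' : (sumGroup K.group L.group).G →* SL2,
        (ρ' (sumGroup K.group L.group).mer = 1 ∨ ρ' (sumGroup K.group L.group).mer = -1) →
        ρ' (sumGroup K.group L.group).lon = 1 := by
      intro ρ' hc'
      obtain ⟨ρ₁, ρ₂, he, hm, hl⟩ := h2 K.group L.group ρ'
      rw [hm] at hc'
      have e1 := ihK hK.1 ρ₁ hc'
      rw [he] at hc'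
      have e2 := ihL hK.2 ρ₂ hc'
      rw [hl, e1, e2, one_mul]
    exact key

end AJG

end

section

/-!
# MP_d3fa71_gt, item Closure: the Zariski closure of the eigenvalue pairs
-/

open Polynomial

namespace AJG

theorem Closure_nat (A : SL2) (w : Fin 2 → ℂ) (m : ℂ)
    (h : Matrix.mulVec A.1 w = m • w) (n : ℕ) : Matrix.mulVec (A ^ n).1 w = m ^ n • w := by
  induction n with
  | zero => simp
  | succ n ih =>
    rw [pow_succ, pow_succ]
    show Matrix.mulVec ((A ^ n).1 * A.1) w = _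
    rw [← Matrix.mulVec_mulVec, h, Matrix.mulVec_smul, ih, smul_smul, mul_comm]

theorem Closure_inv (A : SL2) (w : Fin 2 → ℂ) (m : ℂ) (hm : m ≠ 0)
    (h : Matrix.mulVec A.1 w = m • w) : Matrix.mulVec (A⁻¹).1 w = m⁻¹ • w := by
  have h1 : Matrix.mulVec (A⁻¹).1 (Matrix.mulVec A.1 w) = w := by
    rw [Matrix.mulVec_mulVec]
    have : (A⁻¹).1 * A.1 = 1 := by
      have := congrArg Subtype.val (inv_mul_cancel A)
      exact this
    rw [this, Matrix.one_mulVec]
  rw [h, Matrix.mulVec_smul] at h1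
  calc Matrix.mulVec (A⁻¹).1 w = m⁻¹ • (m • Matrix.mulVec (A⁻¹).1 w) := by
        rw [smul_smul, inv_mul_cancel₀ hm, one_smul]
    _ = m⁻¹ • w := by rw [h1]

theorem Closure_int (A : SL2) (w : Fin 2 → ℂ) (m : ℂ) (hm : m ≠ 0)
    (h : Matrix.mulVec A.1 w = m • w) (n : ℤ) : Matrix.mulVec (A ^ n).1 w = m ^ n • w := by
  rcases Int.eq_nat_or_neg n with ⟨k, rfl | rfl⟩
  · rw [zpow_natCast, zpow_natCast]
    exact Closure_nat A w m h k
  · rw [zpow_neg, zpow_neg, zpow_natCast, zpow_natCast]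
    exact Closure_inv _ w _ (pow_ne_zero _ hm) (Closure_nat A w m h k)

theorem Closure_sg (u : ℤˣ) (B : SL2) (w : Fin 2 → ℂ) :
    Matrix.mulVec (sg u * B).1 w = ((u : ℤ) : ℂ) • Matrix.mulVec B.1 w := by
  rcases Int.units_eq_one_or u with rfl | rfl
  · simp [sg]
  · have : (sg (-1) * B).1 = - B.1 := by
      have h1 : sg (-1) = -1 := by
        unfold sg
        rw [if_neg (by decide)]
      rw [h1]
      show ((-1 : SL2) : Matrix (Fin 2) (Fin 2) ℂ) * B.1 = _
      simp
    rw [this, Matrix.neg_mulVec]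
    simp

/-- the diagonal matrix. -/
noncomputable def Closure_D (m : ℂ) (hm : m ≠ 0) : SL2 :=
  ⟨!![m, 0; 0, m⁻¹], by rw [Matrix.det_fin_two_of]; simp [hm]⟩

theorem Closure_D_vec (m : ℂ) (hm : m ≠ 0) :
    Matrix.mulVec (Closure_D m hm).1 ![1, 0] = m • (![1, 0] : Fin 2 → ℂ) := by
  unfold Closure_D
  ext i
  fin_cases i <;> simp [Matrix.mulVec, dotProduct, Fin.sum_univ_two]

theorem Closure_D_hyp (m : ℂ) (hm : m ≠ 0) (h1 : 1 < ‖m‖) : Hyp (Closure_D m hm) := by
  refine ⟨m, h1, ?_⟩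
  unfold Closure_D
  simp [Matrix.trace_fin_two]

theorem Closure_toNat (l : ℤ) : ((-l).toNat : ℤ) + l = (l.toNat : ℤ) := by
  omega

/-- one curve. -/
theorem Closure_curve (m l : ℂ) (hm : m ≠ 0) (e : ℂ) (k : ℤ) :
    m ^ (-k).toNat * l - e * m ^ k.toNat = 0 ↔ l = e * m ^ k := by
  have h1 : m ^ k.toNat = m ^ (-k).toNat * m ^ k := by
    rw [← zpow_natCast m k.toNat, ← zpow_natCast m (-k).toNat, ← zpow_add₀ hm, Closure_toNat]
  have h2 : m ^ (-k).toNat ≠ 0 := pow_ne_zero _ hm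
  rw [h1]
  constructor
  · intro h
    have : m ^ (-k).toNat * l = m ^ (-k).toNat * (e * m ^ k) := by linear_combination h
    exact mul_left_cancel₀ h2 this
  · intro h
    rw [h]
    ring

theorem Closure_le (K : GK) (hUp : EigSet K.group ⊆ Curves K.Lab) :
    Zcl (EigSet K.group) ⊆ Curves K.Lab := by
  rintro ⟨m, l⟩ ⟨hm, hl, h⟩
  simp only at hm hl h
  refine ⟨hm, ?_⟩
  set G : ℂ[X][X] := ∏ z ∈ K.Lab,
    (C (X ^ (-z.2).toNat) * X - C (C ((z.1 : ℤ) : ℂ) * X ^ (z.2).toNat)) with hG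
  have hev : ∀ x y : ℂ, G.evalEval x y = ∏ z ∈ K.Lab,
      (x ^ (-z.2).toNat * y - ((z.1 : ℤ) : ℂ) * x ^ (z.2).toNat) := by
    intro x y
    rw [← coe_evalEvalRingHom, hG, map_prod]
    refine Finset.prod_congr rfl fun z _ => ?_
    rw [coe_evalEvalRingHom]
    simp [evalEval]
    ring
  have h1 := h G (by
    rintro ⟨x, y⟩ he
    obtain ⟨hx, z, hz, hy⟩ := hUp he
    simp only at hx hy
    rw [hev]
    refine Finset.prod_eq_zero hz ?_
    exact (Closure_curve x y hx _ _).2 hy)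
  rw [hev, Finset.prod_eq_zero_iff] at h1
  obtain ⟨z, hz, h2⟩ := h1
  exact ⟨z, hz, (Closure_curve m l hm _ _).1 h2⟩

theorem Closure_ge (K : GK) (hv : K.Valid) (h2 : S_Down) :
    Curves K.Lab ⊆ Zcl (EigSet K.group) := by
  rintro ⟨m₀, l₀⟩ ⟨hm₀, z, hz, hl₀⟩
  simp only at hm₀ hl₀
  have hε : ((z.1 : ℤ) : ℂ) ≠ 0 := by
    have : (z.1 : ℤ) ≠ 0 := z.1.ne_zero
    exact_mod_cast this
  refine ⟨hm₀, ?_, ?_⟩
  · show l₀ ≠ 0
    rw [hl₀]
    exact mul_ne_zero hε (zpow_ne_zero _ hm₀)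
  · intro G hG
    show G.evalEval m₀ l₀ = 0
    have hmem : ∀ m : ℂ, 1 < ‖m‖ → (m, ((z.1 : ℤ) : ℂ) * m ^ z.2) ∈ EigSet K.group := by
      intro m hm
      have hm0 : m ≠ 0 := by
        rintro rfl
        simp at hm
        linarith
      obtain ⟨ρ, hρ1, hρ2⟩ := h2 K hv z hz (Closure_D m hm0) (Closure_D_hyp m hm0 hm)
      refine ⟨ρ, ![1, 0], ?_, ?_, ?_⟩
      · intro h
        have := congrFun h 0
        simp at this
      · rw [IsEig, hρ1]
        exact Closure_D_vec m hm0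
      · rw [IsEig, hρ2, Closure_sg, Closure_int _ _ m hm0 (Closure_D_vec m hm0), smul_smul]
    set N := G.natDegree with hN
    set H : ℂ[X] := ∑ j ∈ Finset.range (N + 1), G.coeff j * C (((z.1 : ℤ) : ℂ) ^ j) *
      X ^ ((-z.2).toNat * (N - j) + z.2.toNat * j) with hH
    have key : ∀ m : ℂ, m ≠ 0 → H.eval m =
        m ^ ((-z.2).toNat * N) * G.evalEval m (((z.1 : ℤ) : ℂ) * m ^ z.2) := by
      intro m hm
      have h0 : eval (C (((z.1 : ℤ) : ℂ) * m ^ z.2)) G = ∑ j ∈ Finset.range (N + 1),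
          G.coeff j * C (((z.1 : ℤ) : ℂ) * m ^ z.2) ^ j := eval_eq_sum_range _
      rw [evalEval, h0, hH, eval_finsetSum, eval_finsetSum, Finset.mul_sum]
      refine Finset.sum_congr rfl fun j hj => ?_
      have hj' : j ≤ N := Nat.lt_succ_iff.1 (Finset.mem_range.1 hj)
      simp only [eval_mul, eval_C, eval_pow, eval_X]
      have h3 : m ^ ((-z.2).toNat * (N - j) + z.2.toNat * j) =
          m ^ ((-z.2).toNat * N) * (m ^ z.2) ^ j := by
        rw [← zpow_natCast m, ← zpow_natCast m, ← zpow_natCast (m ^ z.2) j, ← zpow_mul,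
          ← zpow_add₀ hm]
        congr 1
        push_cast [Nat.cast_sub hj']
        have := Closure_toNat z.2
        rw [← this]
        ring
      rw [h3, mul_pow]
      ring
    have hroot : ∀ m : ℂ, 1 < ‖m‖ → H.eval m = 0 := by
      intro m hm
      have hm0 : m ≠ 0 := by
        rintro rfl
        simp at hm
        linarith
      rw [key m hm0, hG _ (hmem m hm), mul_zero]
    have hH0 : H = 0 := by
      refine Polynomial.eq_zero_of_infinite_isRoot H ?_
      refine Set.Infinite.mono (s := Set.range fun n : ℕ => ((n : ℂ) + 2)) ?_ ?_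
      · rintro _ ⟨n, rfl⟩
        refine hroot _ ?_
        show 1 < ‖(n : ℂ) + 2‖
        have : ((n : ℂ) + 2) = (((n + 2 : ℕ)) : ℂ) := by push_cast; rfl
        rw [this, Complex.norm_natCast]
        have : (1 : ℕ) < n + 2 := by omega
        exact_mod_cast this
      · refine Set.infinite_range_of_injective ?_
        intro a b hab
        simpa using hab
    have h4 := key m₀ hm₀
    rw [hH0, eval_zero] at h4
    rw [hl₀]
    rcases mul_eq_zero.1 h4.symm with h5 | h5
    · exact absurd h5 (pow_ne_zero _ hm₀)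
    · exact h5

theorem Closure_proof (h1 : S_Up) (h2 : S_Down) : S_Closure := fun K hK =>
  Set.Subset.antisymm (Closure_le K (h1 K hK)) (Closure_ge K hK h2)

end AJG

end

section

/-!
# Item Conj: non central elements of SL(2, C) with the same trace are conjugate
-/

namespace AJG

/-- companion matrix of the trace `t` -/
def Conj_C (t : ℂ) : SL2 := ⟨!![0, -1; 1, t], by simp [Matrix.det_fin_two]⟩

theorem Conj_det (A : SL2) : A.1 0 0 * A.1 1 1 - A.1 0 1 * A.1 1 0 = 1 := by
  have h := A.2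
  rw [Matrix.det_fin_two] at h
  exact h

theorem Conj_exists_vec (A : SL2) (h1 : A ≠ 1) (h2 : A ≠ -1) : ∃ x y : ℂ,
    A.1 1 0 * x ^ 2 + (A.1 1 1 - A.1 0 0) * x * y - A.1 0 1 * y ^ 2 ≠ 0 := by
  by_contra hcon
  push Not at hcon
  have e1 := hcon 1 0
  have e2 := hcon 0 1
  have e3 := hcon 1 1
  have hc : A.1 1 0 = 0 := by linear_combination e1
  have hb : A.1 0 1 = 0 := by linear_combination -e2
  have hd : A.1 1 1 = A.1 0 0 := by linear_combination e3 - e1 - e2
  have hdet := Conj_det A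
  rw [hc, hb, hd] at hdet
  have hsq : (A.1 0 0 - 1) * (A.1 0 0 + 1) = 0 := by linear_combination hdet
  rcases mul_eq_zero.1 hsq with h | h
  · apply h1
    have ha : A.1 0 0 = 1 := by linear_combination h
    apply Subtype.ext
    ext i j
    fin_cases i <;> fin_cases j <;> simp [hc, hb, hd, ha]
  · apply h2
    have ha : A.1 0 0 = -1 := by linear_combination h
    apply Subtype.ext
    ext i j
    fin_cases i <;> fin_cases j <;> simp [hc, hb, hd, ha]

theorem Conj_comp (A : SL2) (h1 : A ≠ 1) (h2 : A ≠ -1) : ∃ P : SL2,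
    A * P = P * Conj_C A.1.trace := by
  obtain ⟨x, y, hxy⟩ := Conj_exists_vec A h1 h2
  set a := A.1 0 0 with ha
  set b := A.1 0 1 with hb
  set c := A.1 1 0 with hc
  set d := A.1 1 1 with hd
  have hdet : a * d - b * c = 1 := Conj_det A
  obtain ⟨k, hk⟩ := IsAlgClosed.exists_pow_nat_eq
    ((c * x ^ 2 + (d - a) * x * y - b * y ^ 2)⁻¹) (n := 2) (by norm_num)
  have hk2 : k ^ 2 * (c * x ^ 2 + (d - a) * x * y - b * y ^ 2) = 1 := by
    rw [hk]
    exact inv_mul_cancel₀ hxy
  refine ⟨⟨!![k * x, k * (a * x + b * y); k * y, k * (c * x + d * y)], ?_⟩, ?_⟩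
  · rw [Matrix.det_fin_two]
    simp only [Matrix.of_apply, Matrix.cons_val', Matrix.cons_val_zero, Matrix.cons_val_one,
      Matrix.cons_val_fin_one]
    linear_combination hk2
  · apply Subtype.ext
    have hA : A.1 = !![a, b; c, d] := by
      ext i j
      fin_cases i <;> fin_cases j <;> rfl
    rw [Matrix.SpecialLinearGroup.coe_mul, Matrix.SpecialLinearGroup.coe_mul]
    have ht : A.1.trace = a + d := by
      rw [Matrix.trace_fin_two]
    rw [ht, Conj_C, hA]
    simp only [Matrix.mul_fin_two]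
    ext i j
    fin_cases i <;> fin_cases j <;>
      simp only [Matrix.of_apply, Matrix.cons_val', Matrix.cons_val_zero, Matrix.cons_val_one,
        Matrix.cons_val_fin_one, Fin.zero_eta, Fin.mk_one, Fin.isValue]
    · ring
    · linear_combination (-(k * x)) * hdet
    · ring
    · linear_combination (-(k * y)) * hdet

theorem Conj_proof : S_Conj := by
  intro A B hA1 hA2 hB1 hB2 htr
  obtain ⟨P, hP⟩ := Conj_comp A hA1 hA2
  obtain ⟨Q, hQ⟩ := Conj_comp B hB1 hB2
  rw [← htr] at hQ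
  refine ⟨Q * P⁻¹, ?_⟩
  have e1 : A = P * Conj_C A.1.trace * P⁻¹ := by
    rw [← hP, mul_inv_cancel_right]
  have e2 : B = Q * Conj_C A.1.trace * Q⁻¹ := by
    rw [← hQ, mul_inv_cancel_right]
  generalize Conj_C A.1.trace = C at e1 e2
  rw [e1, e2]
  group

end AJG

end

section

/-!
# MP_d3fa71_gt, item DiagRoot
-/

namespace AJG

/-- the diagonal matrices -/
noncomputable def DiagRoot_m (z : ℂˣ) : SL2 := ⟨!![(z : ℂ), 0; 0, ((z⁻¹ : ℂˣ) : ℂ)], by
    rw [Matrix.det_fin_two_of]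
    simp⟩

theorem DiagRoot_m_val (z : ℂˣ) :
    (DiagRoot_m z : Matrix (Fin 2) (Fin 2) ℂ) = !![(z : ℂ), 0; 0, ((z⁻¹ : ℂˣ) : ℂ)] := rfl

noncomputable def DiagRoot_hom : ℂˣ →* SL2 where
  toFun := DiagRoot_m
  map_one' := by
    apply Subtype.ext
    rw [DiagRoot_m_val, Matrix.SpecialLinearGroup.coe_one, Matrix.one_fin_two]
    simp
  map_mul' a b := by
    apply Subtype.ext
    rw [Matrix.SpecialLinearGroup.coe_mul, DiagRoot_m_val, DiagRoot_m_val, DiagRoot_m_val,
      Matrix.mul_fin_two]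
    simp [mul_comm]

theorem DiagRoot_hom_val (z : ℂˣ) :
    (DiagRoot_hom z : Matrix (Fin 2) (Fin 2) ℂ) = !![(z : ℂ), 0; 0, ((z⁻¹ : ℂˣ) : ℂ)] := rfl

theorem DiagRoot_trace (z : ℂˣ) : (DiagRoot_hom z).1.trace = z + ((z⁻¹ : ℂˣ) : ℂ) := by
  rw [DiagRoot_hom_val, Matrix.trace_fin_two_of]

theorem DiagRoot_sg (u : ℤˣ) : ∃ w : ℂˣ, (w = 1 ∧ u = 1 ∨ w = -1 ∧ u = -1) ∧ DiagRoot_hom w = sg u := by
  rcases Int.units_eq_one_or u with rfl | rfl
  · exact ⟨1, Or.inl ⟨rfl, rfl⟩, by rw [map_one]; simp [sg]⟩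
  · refine ⟨-1, Or.inr ⟨rfl, rfl⟩, ?_⟩
    apply Subtype.ext
    have h : sg (-1) = (-1 : SL2) := by
      unfold sg
      rw [if_neg (by decide)]
    rw [h, DiagRoot_hom_val, Matrix.SpecialLinearGroup.coe_neg, Matrix.SpecialLinearGroup.coe_one,
      Matrix.one_fin_two]
    ext i j
    fin_cases i <;> fin_cases j <;> simp

theorem DiagRoot_root (n : ℕ) (hn : 3 ≤ n) (w : ℂˣ) (hw : w = 1 ∨ w = -1) :
    ∃ z : ℂˣ, z ^ n = w ∧ z ≠ 1 ∧ z ≠ -1 := by
  have hn0 : n ≠ 0 := by omega
  rcases hw with rfl | rfl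
  · have h := Complex.isPrimitiveRoot_exp n hn0
    have hu : IsUnit (Complex.exp (2 * Real.pi * Complex.I / n)) := by
      rw [isUnit_iff_ne_zero]
      exact Complex.exp_ne_zero _
    obtain ⟨z, hz⟩ := hu
    rw [← hz] at h
    have h' : IsPrimitiveRoot z n := (IsPrimitiveRoot.coe_units_iff (M := ℂ)).1 h
    refine ⟨z, h'.pow_eq_one, fun h1 => ?_, fun h1 => ?_⟩
    · rw [h1] at h'
      have := h'.dvd_of_pow_eq_one 1 (by simp)
      have := Nat.le_of_dvd (by norm_num) this
      omega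
    · rw [h1] at h'
      have := h'.dvd_of_pow_eq_one 2 (by simp)
      have := Nat.le_of_dvd (by norm_num) this
      omega
  · have h := Complex.isPrimitiveRoot_exp (2 * n) (by omega)
    have hu : IsUnit (Complex.exp (2 * Real.pi * Complex.I / (2 * n : ℕ))) := by
      rw [isUnit_iff_ne_zero]
      exact Complex.exp_ne_zero _
    obtain ⟨z, hz⟩ := hu
    rw [← hz] at h
    have h' : IsPrimitiveRoot z (2 * n) := (IsPrimitiveRoot.coe_units_iff (M := ℂ)).1 h
    refine ⟨z, ?_, fun h1 => ?_, fun h1 => ?_⟩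
    · have h2 : (z ^ n) ^ 2 = 1 := by rw [← pow_mul, mul_comm, h'.pow_eq_one]
      have h3 : z ^ n ≠ 1 := by
        intro h4
        have := Nat.le_of_dvd (by omega) (h'.dvd_of_pow_eq_one n h4)
        omega
      have h4 : ((z ^ n : ℂˣ) : ℂ) ^ 2 = 1 := by
        have := congrArg (Units.val) h2
        simpa using this
      have h5 : ((z ^ n : ℂˣ) : ℂ) ≠ 1 := fun h6 => h3 (Units.ext (by simpa using h6))
      have h7 : ((z ^ n : ℂˣ) : ℂ) = -1 := by
        have h8 : (((z ^ n : ℂˣ) : ℂ) - 1) * (((z ^ n : ℂˣ) : ℂ) + 1) = 0 := by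
          linear_combination h4
        rcases mul_eq_zero.1 h8 with h9 | h9
        · exact absurd (by linear_combination h9) h5
        · linear_combination h9
      exact Units.ext (by simpa using h7)
    · rw [h1] at h'
      have := Nat.le_of_dvd (by norm_num) (h'.dvd_of_pow_eq_one 1 (by simp))
      omega
    · rw [h1] at h'
      have := Nat.le_of_dvd (by norm_num) (h'.dvd_of_pow_eq_one 2 (by simp))
      omega

theorem DiagRoot_proof : S_DiagRoot := by
  intro k u hk
  obtain ⟨w, hw, hwu⟩ := DiagRoot_sg u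
  have hw' : w = 1 ∨ w = -1 := by
    rcases hw with h | h
    · exact Or.inl h.1
    · exact Or.inr h.1
  have hwi : w⁻¹ = w := by
    rcases hw' with rfl | rfl <;> simp
  obtain ⟨z, hz1, hz2, hz3⟩ := DiagRoot_root k.natAbs (by
    have : ((k.natAbs : ℕ) : ℤ) = |k| := Int.natCast_natAbs k
    omega) w hw'
  have hzk : z ^ k = w := by
    rcases Int.natAbs_eq k with h | h
    · rw [h, zpow_natCast, hz1]
    · rw [h, zpow_neg, zpow_natCast, hz1, hwi]
  have hne : (z : ℂ) ≠ 0 := z.ne_zero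
  have e1 : (z : ℂ) ≠ 1 := fun h => hz2 (Units.ext (by simpa using h))
  have e2 : (z : ℂ) ≠ -1 := fun h => hz3 (Units.ext (by simpa using h))
  refine ⟨DiagRoot_hom z, ?_, ?_, ?_⟩
  · rw [DiagRoot_trace, Units.val_inv_eq_inv_val]
    intro h
    field_simp at h
    have : ((z : ℂ) - 1) ^ 2 = 0 := by linear_combination h
    exact e1 (by linear_combination (pow_eq_zero_iff two_ne_zero).1 this)
  · rw [DiagRoot_trace, Units.val_inv_eq_inv_val]
    intro h
    field_simp at h
    have : ((z : ℂ) + 1) ^ 2 = 0 := by linear_combination h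
    exact e2 (by linear_combination (pow_eq_zero_iff two_ne_zero).1 this)
  · rw [← map_zpow, hzk, hwu]

end AJG

end

section

/-!
# Item Down: every label is realised over every hyperbolic meridian
-/

namespace AJG

theorem Down_sg_mul (u v : ℤˣ) : sg (u * v) = sg u * sg v := by
  rcases Int.units_eq_one_or u with rfl | rfl <;> rcases Int.units_eq_one_or v with rfl | rfl <;>
    simp [sg]

theorem Down_sg_one : sg 1 = 1 := by simp [sg]

theorem Down_sg_pow (u : ℤˣ) (n : ℕ) : sg (u ^ n) = sg u ^ n := by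
  induction n with
  | zero => simp [Down_sg_one]
  | succ n ih => rw [pow_succ, Down_sg_mul, ih, pow_succ]

theorem Down_comm (u : ℤˣ) (X : SL2) : Commute (sg u) X := by
  unfold sg
  split_ifs
  · exact Commute.one_left X
  · exact Commute.neg_one_left X

theorem Down_zpow (u : ℤˣ) (A : SL2) (k n : ℤ) :
    (sg u * A ^ k) ^ n = sg u ^ n * A ^ (k * n) := by
  rw [(Down_comm u (A ^ k)).mul_zpow, zpow_mul]

theorem Down_sq (A : SL2) : A.1 * A.1 = A.1.trace • A.1 - 1 := by
  have hdet : A.1 0 0 * A.1 1 1 - A.1 0 1 * A.1 1 0 = 1 := by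
    have h := A.2
    rw [Matrix.det_fin_two] at h
    exact h
  rw [Matrix.trace_fin_two]
  ext i j
  fin_cases i <;> fin_cases j <;>
    simp [Matrix.mul_apply, Fin.sum_univ_two]
  · linear_combination -hdet
  · ring
  · ring
  · linear_combination -hdet

theorem Down_trace (A : SL2) (m : ℂ) (hm : m ≠ 0) (h : A.1.trace = m + m⁻¹) : ∀ n : ℕ,
    (A.1 ^ n).trace = m ^ n + m⁻¹ ^ n ∧ (A.1 ^ (n + 1)).trace = m ^ (n + 1) + m⁻¹ ^ (n + 1)
  | 0 => by
    refine ⟨?_, by simpa using h⟩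
    simp [Matrix.trace_fin_two]
    norm_num
  | n + 1 => by
    obtain ⟨h1, h2⟩ := Down_trace A m hm h n
    refine ⟨h2, ?_⟩
    have e : A.1 ^ (n + 1 + 1) = A.1.trace • A.1 ^ (n + 1) - A.1 ^ n := by
      rw [pow_succ, pow_succ, mul_assoc, Down_sq, mul_sub, mul_one, mul_smul_comm]
    rw [e, Matrix.trace_sub, Matrix.trace_smul, h1, h2, h, smul_eq_mul]
    have hmm : m * m⁻¹ = 1 := mul_inv_cancel₀ hm
    linear_combination (m ^ n + m⁻¹ ^ n) * hmm

theorem Down_hyp_pow {A : SL2} (h : Hyp A) {n : ℕ} (hn : n ≠ 0) : Hyp (A ^ n) := by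
  obtain ⟨m, hm, htr⟩ := h
  have hm0 : m ≠ 0 := by
    rintro rfl
    simp at hm
    linarith
  refine ⟨m ^ n, ?_, ?_⟩
  · rw [norm_pow]
    exact one_lt_pow₀ hm hn
  · have := (Down_trace A m hm0 htr n).1
    rw [Matrix.SpecialLinearGroup.coe_pow, this, inv_pow]

theorem Down_trace_ne {A : SL2} (h : Hyp A) : A.1.trace ≠ 2 ∧ A.1.trace ≠ -2 := by
  obtain ⟨m, hm, htr⟩ := h
  have hm0 : m ≠ 0 := by
    rintro rfl
    simp at hm
    linarith
  have hmm : m * m⁻¹ = 1 := mul_inv_cancel₀ hm0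
  rw [htr]
  constructor
  · intro h
    have h1 : (m - 1) ^ 2 = 0 := by linear_combination m * h - hmm
    have h2 : m = 1 := by
      have := pow_eq_zero_iff (two_ne_zero) |>.1 h1
      linear_combination this
    rw [h2] at hm
    simp at hm
  · intro h
    have h1 : (m + 1) ^ 2 = 0 := by linear_combination m * h - hmm
    have h2 : m = -1 := by
      have := pow_eq_zero_iff (two_ne_zero) |>.1 h1
      linear_combination this
    rw [h2] at hm
    simp at hm

theorem Down_proof (h1 : S_NewAll) (h2 : S_CableHom) (h3 : S_SumHom) : S_Down := by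
  intro K
  induction K with
  | unknot =>
    intro _ z hz A _
    rw [GK.Lab, Finset.mem_singleton] at hz
    subst hz
    refine ⟨zpowersHom SL2 A, ?_, ?_⟩
    · show zpowersHom SL2 A (Multiplicative.ofAdd 1) = A
      simp
    · show zpowersHom SL2 A 1 = _
      rw [map_one, Down_sg_one, zpow_zero, one_mul]
  | cable r s K ih =>
    intro hK z hz A hA
    have hs : s ≠ 0 := by
      have := hK.2.1
      omega
    rw [GK.Lab, Finset.mem_union] at hz
    rcases hz with hz | hz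
    · have hz' : ∃ d : ℤˣ, z = (d, -(r * s)) ∧ (s = 2 → d = -1) := by
        split_ifs at hz with h
        · rw [Finset.mem_singleton] at hz
          exact ⟨-1, hz, fun _ => rfl⟩
        · rw [Finset.mem_insert, Finset.mem_singleton] at hz
          rcases hz with hz | hz
          · exact ⟨1, hz, fun h' => absurd h' h⟩
          · exact ⟨-1, hz, fun _ => rfl⟩
      obtain ⟨d, rfl, hd⟩ := hz'
      obtain ⟨t1, t2⟩ := Down_trace_ne hA
      exact h1 r s K d hK hd A t1 t2
    · obtain ⟨⟨e, l⟩, hw, rfl⟩ := Finset.mem_image.1 hz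
      obtain ⟨ρ, hρ1, hρ2⟩ := ih hK.1 (e, l) hw (A ^ s) (Down_hyp_pow hA hs)
      simp only at hρ2
      have hA1 : (A ^ s : SL2) = A ^ (s : ℤ) := (zpow_natCast A s).symm
      rw [hA1] at hρ1
      have hlon : ρ K.group.lon = sg e * A ^ ((s : ℤ) * l) := by
        rw [hρ2, hA1, ← zpow_mul]
      have hcop : (r : ℤ) * Int.gcdA r s + s * Int.gcdB r s = 1 := by
        rw [← Int.gcd_eq_gcd_ab]
        have := Int.isCoprime_iff_gcd_eq_one.1 hK.2.2.1
        rw [this]
        rfl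
      set a := Int.gcdA r s with ha
      set b := Int.gcdB r s with hb
      obtain ⟨ρ', hm, hl⟩ := h2 r s K.group ρ (sg e * A ^ (r + s * l)) (by
        rw [hρ1, hlon, ← zpow_natCast, ← zpow_natCast, Down_zpow, Down_zpow, ← zpow_mul,
          ← mul_assoc, ← (((Down_comm e (A ^ ((s : ℤ) * r))).zpow_left (s : ℤ)).eq), mul_assoc,
          ← zpow_add]
        congr 2
        ring)
      rw [← ha, ← hb] at hm
      have hmer : ρ' (cableGroup r s K.group).mer = A := by
        rw [hm, hρ1, hlon, Down_zpow, Down_zpow, ← zpow_mul]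
        have c1 := ((Down_comm e (A ^ ((s : ℤ) * l * -a))).zpow_left a).eq
        have c2 : sg e ^ (-a) * (sg e ^ a) = (1 : SL2) := by
          rw [← zpow_add, neg_add_cancel, zpow_zero]
        calc A ^ ((s : ℤ) * b) * (sg e ^ (-a) * A ^ ((s : ℤ) * l * -a)) *
              (sg e ^ a * A ^ ((r + s * l) * a))
            = A ^ ((s : ℤ) * b) * sg e ^ (-a) * (A ^ ((s : ℤ) * l * -a) * sg e ^ a) *
                A ^ ((r + s * l) * a) := by simp only [mul_assoc]
          _ = A ^ ((s : ℤ) * b) * (sg e ^ (-a) * sg e ^ a) * A ^ ((s : ℤ) * l * -a) *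
                A ^ ((r + s * l) * a) := by rw [← c1]; simp only [mul_assoc]
          _ = A ^ ((s : ℤ) * b + (s : ℤ) * l * -a + (r + s * l) * a) := by
                rw [c2, mul_one, ← zpow_add, ← zpow_add]
          _ = A := by
                have : (s : ℤ) * b + (s : ℤ) * l * -a + (r + s * l) * a = 1 := by
                  linear_combination hcop
                rw [this, zpow_one]
      refine ⟨ρ', hmer, ?_⟩
      show ρ' (cableGroup r s K.group).lon = sg (e ^ s) * A ^ (l * (s : ℤ) ^ 2)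
      rw [hl, hmer, ← zpow_natCast, Down_zpow, Down_sg_pow, mul_assoc, ← zpow_add, zpow_natCast]
      congr 2
      ring
  | sum K L ihK ihL =>
    intro hK z hz A hA
    obtain ⟨x, hx, y, hy, rfl⟩ := Finset.mem_image₂.1 hz
    obtain ⟨ρ₁, hm1, hl1⟩ := ihK hK.1 x hx A hA
    obtain ⟨ρ₂, hm2, hl2⟩ := ihL hK.2 y hy A hA
    obtain ⟨ρ', hm, hl⟩ := h3 K.group L.group ρ₁ ρ₂ (by rw [hm1, hm2])
    refine ⟨ρ', ?_, ?_⟩
    · show ρ' (sumGroup K.group L.group).mer = A
      rw [hm, hm1]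
    · show ρ' (sumGroup K.group L.group).lon = sg (x.1 * y.1) * A ^ (x.2 + y.2)
      rw [hl, hl1, hl2, Down_sg_mul, zpow_add]
      have c := (Down_comm y.1 (A ^ x.2)).eq
      calc sg x.1 * A ^ x.2 * (sg y.1 * A ^ y.2) = sg x.1 * (A ^ x.2 * sg y.1) * A ^ y.2 := by
            simp only [mul_assoc]
        _ = sg x.1 * sg y.1 * (A ^ x.2 * A ^ y.2) := by rw [← c]; simp only [mul_assoc]

end AJG

end

section

/-!
# Eigenvectors of commuting elements of SL(2, C)
-/

namespace AJG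

theorem EigComm_aux (H00 H01 H10 H11 a w0 w1 u0 u1 : ℂ) (hd : w0 * u1 - w1 * u0 ≠ 0)
    (hw0 : H00 * w0 + H01 * w1 = a * w0) (hw1 : H10 * w0 + H11 * w1 = a * w1)
    (hu0 : H00 * u0 + H01 * u1 = a * u0) (hu1 : H10 * u0 + H11 * u1 = a * u1) :
    H00 = a ∧ H01 = 0 ∧ H10 = 0 ∧ H11 = a := by
  refine ⟨?_, ?_, ?_, ?_⟩
  · have h : (w0 * u1 - w1 * u0) * (H00 - a) = 0 := by linear_combination u1 * hw0 - w1 * hu0
    exact sub_eq_zero.1 ((mul_eq_zero.1 h).resolve_left hd)
  · have h : (w0 * u1 - w1 * u0) * H01 = 0 := by linear_combination w0 * hu0 - u0 * hw0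
    exact (mul_eq_zero.1 h).resolve_left hd
  · have h : (w0 * u1 - w1 * u0) * H10 = 0 := by linear_combination u1 * hw1 - w1 * hu1
    exact (mul_eq_zero.1 h).resolve_left hd
  · have h : (w0 * u1 - w1 * u0) * (H11 - a) = 0 := by linear_combination w0 * hu1 - u0 * hw1
    exact sub_eq_zero.1 ((mul_eq_zero.1 h).resolve_left hd)

theorem EigComm_proof : S_EigComm := by
  intro H V w a hw h1 hm1 hc hH
  have hHV : H.1 * V.1 = V.1 * H.1 := by
    have := congrArg Subtype.val hc
    simpa using this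
  set u := Matrix.mulVec V.1 w with hu
  have hHu : Matrix.mulVec H.1 u = a • u := by
    rw [hu, Matrix.mulVec_mulVec, hHV, ← Matrix.mulVec_mulVec, hH, Matrix.mulVec_smul]
  have e0 := congrFun hH 0
  have e1 := congrFun hH 1
  have f0 := congrFun hHu 0
  have f1 := congrFun hHu 1
  simp only [Matrix.mulVec, dotProduct, Fin.sum_univ_two, Pi.smul_apply, smul_eq_mul] at e0 e1 f0 f1
  by_cases hd : w 0 * u 1 - w 1 * u 0 = 0
  · -- dependent
    by_cases hw0 : w 0 = 0
    · have hw1 : w 1 ≠ 0 := by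
        intro h
        apply hw
        ext i
        fin_cases i
        · exact hw0
        · exact h
      refine ⟨u 1 / w 1, ?_⟩
      ext i
      fin_cases i
      · show u 0 = u 1 / w 1 * w 0
        rw [hw0, mul_zero]
        rw [hw0, zero_mul, zero_sub, neg_eq_zero] at hd
        exact (mul_eq_zero.1 hd).resolve_left hw1
      · show u 1 = u 1 / w 1 * w 1
        field_simp
    · refine ⟨u 0 / w 0, ?_⟩
      ext i
      fin_cases i
      · show u 0 = u 0 / w 0 * w 0
        field_simp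
      · show u 1 = u 0 / w 0 * w 1
        field_simp
        linear_combination hd
  · exfalso
    obtain ⟨g0, g1, g2, g3⟩ := EigComm_aux _ _ _ _ _ _ _ _ _ hd e0 e1 f0 f1
    have hdet := H.2
    rw [Matrix.det_fin_two, g0, g1, g2, g3] at hdet
    have ha : (a - 1) * (a + 1) = 0 := by linear_combination hdet
    rcases mul_eq_zero.1 ha with h | h
    · apply h1
      have ha1 : a = 1 := by linear_combination h
      apply Subtype.ext
      ext i j
      fin_cases i <;> fin_cases j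
      · show H.1 0 0 = 1
        rw [g0, ha1]
      · show H.1 0 1 = 0
        rw [g1]
      · show H.1 1 0 = 0
        rw [g2]
      · show H.1 1 1 = 1
        rw [g3, ha1]
    · apply hm1
      have ha1 : a = -1 := by linear_combination h
      apply Subtype.ext
      ext i j
      fin_cases i <;> fin_cases j
      · show H.1 0 0 = -1
        rw [g0, ha1]
      · show H.1 0 1 = -0
        rw [g1, neg_zero]
      · show H.1 1 0 = -0
        rw [g2, neg_zero]
      · show H.1 1 1 = -1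
        rw [g3, ha1]

end AJG

end

section

/-! MP_d3fa71_gt, item EvNe: a non-zero coefficient vanishes at finitely many `n` only. -/

open Polynomial

namespace AJG

theorem EvNe_expand (f : ℤ[X]) : f.eval₂ (Int.castRingHom (RatFunc ℚ)) (t ^ 4) =
    algebraMap ℚ[X] (RatFunc ℚ) (expand ℚ 4 (f.map (Int.castRingHom ℚ))) := by
  rw [expand_eq_comp_X_pow, Polynomial.comp, Polynomial.hom_eval₂, Polynomial.eval₂_map, map_pow,
    RatFunc.algebraMap_X]
  congr 1
  exact RingHom.ext_int _ _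

theorem EvNe_evq_inj : Function.Injective evq := by
  rw [injective_iff_map_eq_zero]
  intro b hb
  obtain ⟨n, f', hf'⟩ := LaurentPolynomial.exists_T_pow b
  have h1 : evq (toLaurent f') = 0 := by rw [hf', map_mul, hb, zero_mul]
  unfold evq at h1
  rw [LaurentPolynomial.eval₂_toLaurent] at h1
  have h2 : f'.eval₂ (Int.castRingHom (RatFunc ℚ)) (t ^ 4) = 0 := h1
  rw [EvNe_expand, map_eq_zero_iff _ (RatFunc.algebraMap_injective ℚ), expand_eq_zero (by norm_num),
    Polynomial.map_eq_zero_iff (Int.cast_injective (α := ℚ))] at h2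
  rw [h2, map_zero] at hf'
  have h3 : b * LaurentPolynomial.T n * LaurentPolynomial.T (-n) = 0 := by
    rw [← hf', zero_mul]
  rw [mul_assoc, ← LaurentPolynomial.T_add, add_neg_cancel, LaurentPolynomial.T_zero, mul_one] at h3
  exact h3

theorem EvNe_pow_inj : Function.Injective (fun n : ℕ => (t ^ (4 * n) : RatFunc ℚ)) := by
  intro n m hnm
  have h1 : algebraMap ℚ[X] (RatFunc ℚ) (X ^ (4 * n)) = algebraMap ℚ[X] (RatFunc ℚ) (X ^ (4 * m)) := by
    rw [map_pow, map_pow, RatFunc.algebraMap_X]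
    exact hnm
  have h2 := congrArg natDegree (RatFunc.algebraMap_injective ℚ h1)
  rw [natDegree_X_pow, natDegree_X_pow] at h2
  omega

theorem EvNe_proof : S_EvNe := by
  intro a ha
  obtain ⟨k, f', hf'⟩ := LaurentPolynomial.exists_T_pow a
  have hf0 : f' ≠ 0 := by
    rintro rfl
    rw [map_zero] at hf'
    apply ha
    have h3 : a * LaurentPolynomial.T k * LaurentPolynomial.T (-k) = 0 := by
      rw [← hf', zero_mul]
    rw [mul_assoc, ← LaurentPolynomial.T_add, add_neg_cancel, LaurentPolynomial.T_zero, mul_one] at h3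
    exact h3
  have hg0 : f'.map evq ≠ 0 := by
    rw [Ne, Polynomial.map_eq_zero_iff EvNe_evq_inj]
    exact hf0
  have hfin : {n : ℕ | (f'.map evq).IsRoot (t ^ (4 * n))}.Finite := by
    have h1 : {x | (f'.map evq).IsRoot x}.Finite := Polynomial.finite_setOfPred_isRoot hg0
    exact h1.preimage (EvNe_pow_inj.injOn)
  obtain ⟨B, hB⟩ := hfin.bddAbove
  refine ⟨B + 1, fun n hn h0 => ?_⟩
  have h1 : ev n (toLaurent f') = 0 := by rw [hf', map_mul, h0, zero_mul]
  unfold ev at h1
  rw [LaurentPolynomial.eval₂_toLaurent] at h1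
  have h2 : (f'.map evq).IsRoot (t ^ (4 * n)) := by
    rw [IsRoot.def, eval_map]
    exact h1
  have := hB h2
  omega

end AJG

end

section

/-!
# MP_d3fa71_gt: the AJ conjecture for all graph knots (assembly)
-/

open Polynomial

namespace AJG

theorem Main_proof (h1 : S_Closure) (h2 : S_AEx) (h3 : S_ADiv) (h4 : S_NDiv) (h5 : S_SpNe)
    (h6 : S_NCAEv) (h7 : S_EX) (h8 : S_UB) (h9 : S_LB) : S_Main := by
  intro K hK
  refine ⟨?_, h7 K hK, ?_⟩
  · obtain ⟨A, hA, hX, T, hT, hE⟩ := h2 K.Lab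
    exact ⟨A, hA, hX, T, hT, by rw [h1 K hK]; exact hE⟩
  · intro A α hA hα F hF hd
    obtain ⟨hA0, hX, T, hT, hE⟩ := hA
    have e1 := h3 K.Lab A hA0 hX ⟨T, hT, by rw [← h1 K hK]; exact hE⟩ F hF hd
    have e2 := h4 K.Lab (α.map sp) (h5 α hα.prim) (h9 K hK α (h6 _ α hα)) (h8 K hK α hα) F hF hd
    exact e2.trans e1.symm

end AJG

end

section

/-! MP_d3fa71_gt, item NCAEv: a non-commutative A-polynomial kills the sequence for large `n`. -/

open Polynomial

namespace AJG

theorem NCAEv_proof (h1 : S_EvNe) : S_NCAEv := by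
  intro f α hα
  obtain ⟨a, ha, hk⟩ := hα.kills
  obtain ⟨n₀, hn₀⟩ := h1 a ha
  refine ⟨max n₀ 1, fun n hn => ?_⟩
  have h2 := hk n (le_trans (le_max_right _ _) hn)
  rw [natDegree_C_mul ha] at h2
  simp only [coeff_C_mul, map_mul, mul_assoc] at h2
  rw [← Finset.mul_sum] at h2
  exact (mul_eq_zero.1 h2).resolve_left (hn₀ n (le_trans (le_max_left _ _) hn))

end AJG

end

section

open Polynomial

namespace AJG

lemma NDiv_X_not_dvd (F : ℤ[X][X]) (hd : 0 < F.natDegree) (n : ℕ) :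
    ¬ F ∣ (C (X ^ n) : ℤ[X][X]) := by
  intro h
  have h0 : (C (X ^ n) : ℤ[X][X]) ≠ 0 := by
    rw [Ne, C_eq_zero]
    exact pow_ne_zero _ X_ne_zero
  have h1 := natDegree_le_of_dvd h h0
  rw [natDegree_C] at h1
  omega

lemma NDiv_prime (F : ℤ[X][X]) (hF : Irreducible F) (hd : 0 < F.natDegree) : Prime (toL F) := by
  have hp : Prime F := hF.prime
  let _ : Algebra ℤ[X][X] (LaurentPolynomial ℤ)[X] :=
    (mapRingHom (algebraMap ℤ[X] (LaurentPolynomial ℤ))).toAlgebra
  have hloc : IsLocalization ((Submonoid.powers (X : ℤ[X])).map (C : ℤ[X] →+* ℤ[X][X]))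
      (LaurentPolynomial ℤ)[X] := Polynomial.isLocalization _ _
  have hI : (Ideal.span {F}).IsPrime := (Ideal.span_singleton_prime hp.ne_zero).2 hp
  have hdis : Disjoint (((Submonoid.powers (X : ℤ[X])).map (C : ℤ[X] →+* ℤ[X][X]) : Submonoid _) :
      Set ℤ[X][X]) ↑(Ideal.span {F}) := by
    rw [Set.disjoint_left]
    rintro _ ⟨_, ⟨n, rfl⟩, rfl⟩ h
    rw [SetLike.mem_coe, Ideal.mem_span_singleton] at h
    exact NDiv_X_not_dvd F hd n h
  have h := IsLocalization.isPrime_of_isPrime_disjoint _ (LaurentPolynomial ℤ)[X] _ hI hdis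
  rw [Ideal.map_span, Set.image_singleton] at h
  have hne : toL F ≠ 0 := by
    intro h0
    apply hp.ne_zero
    apply Polynomial.map_injective _ (toLaurent_injective (R := ℤ))
    rw [Polynomial.map_zero]
    exact h0
  exact (Ideal.span_singleton_prime hne).1 h

lemma NDiv_assoc (F : ℤ[X][X]) (hF : Irreducible F) (hd : 0 < F.natDegree) (z : ℤˣ × ℤ)
    (h : (toL F).eval (lab z) = 0) : toL F ∣ X - C (lab z) := by
  have h1 : (X - C (lab z)) ∣ toL F := dvd_iff_isRoot.2 h
  have h2 : Prime (toL F) := NDiv_prime F hF hd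
  have h3 : ¬ IsUnit (X - C (lab z)) := by
    intro hu
    have := natDegree_eq_zero_of_isUnit hu
    rw [natDegree_X_sub_C] at this
    exact one_ne_zero this
  exact (((h2.irreducible.dvd_iff).1 h1).resolve_left h3).dvd

theorem NDiv_proof : S_NDiv := by
  intro S a ha hS hl F hF hd
  constructor
  · intro h
    obtain ⟨l, c, hc, hlS, hdvd⟩ := hl
    have hp := NDiv_prime F hF hd
    rcases hp.dvd_or_dvd (h.trans hdvd) with h1 | h1
    · exfalso
      have h0 : (C c : Polynomial (LaurentPolynomial ℤ)) ≠ 0 := by rwa [Ne, C_eq_zero]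
      have h2 := natDegree_le_of_dvd h1 h0
      rw [natDegree_C] at h2
      have h3 : (toL F).natDegree = F.natDegree :=
        natDegree_map_eq_of_injective (toLaurent_injective (R := ℤ)) F
      omega
    · rw [hp.dvd_prod_iff] at h1
      obtain ⟨g, hg, hgd⟩ := h1
      rw [List.mem_map] at hg
      obtain ⟨z, hz, rfl⟩ := hg
      refine ⟨z, hlS z hz, ?_⟩
      obtain ⟨g, hg⟩ := hgd
      have h3 : (toL F).natDegree = F.natDegree :=
        natDegree_map_eq_of_injective (toLaurent_injective (R := ℤ)) F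
      have hg0 : g ≠ 0 := by
        rintro rfl
        rw [mul_zero] at hg
        exact X_sub_C_ne_zero _ hg
      have hdeg := congrArg natDegree hg
      rw [natDegree_X_sub_C, natDegree_mul hp.ne_zero hg0, h3] at hdeg
      have hgd0 : g.natDegree = 0 := by omega
      rw [eq_C_of_natDegree_eq_zero hgd0] at hg hg0
      have he := congrArg (eval (lab z)) hg
      rw [eval_sub, eval_X, eval_C, sub_self, eval_mul, eval_C] at he
      rcases mul_eq_zero.1 he.symm with h4 | h4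
      · exact h4
      · exact absurd (by rw [h4, C_0]) hg0
  · rintro ⟨z, hz, h⟩
    exact (NDiv_assoc F hF hd z h).trans (dvd_iff_isRoot.2 (hS z hz))

end AJG

end

section

/-! Item New: the new component of a cable. -/

set_option autoImplicit false

namespace AJG

theorem New_sg_central (u : ℤˣ) (g : SL2) : g * sg u * g⁻¹ = sg u := by
  unfold sg
  split_ifs
  · group
  · rw [mul_neg, mul_one, neg_mul, mul_inv_cancel]

theorem New_sg_pm (u : ℤˣ) : sg u = 1 ∨ sg u = -1 := by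
  unfold sg
  split_ifs
  · exact Or.inl rfl
  · exact Or.inr rfl

theorem New_pm_mul {x y : SL2} (hx : x = 1 ∨ x = -1) (hy : y = 1 ∨ y = -1) :
    x * y = 1 ∨ x * y = -1 := by
  rcases hx with rfl | rfl <;> rcases hy with rfl | rfl <;> simp

theorem New_pm_inv {x : SL2} (hx : x = 1 ∨ x = -1) : x⁻¹ = 1 ∨ x⁻¹ = -1 := by
  rcases hx with rfl | rfl
  · simp
  · right
    rw [inv_eq_iff_mul_eq_one]; simp

theorem New_pm_pow {x : SL2} (hx : x = 1 ∨ x = -1) (n : ℕ) : x ^ n = 1 ∨ x ^ n = -1 := by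
  induction n with
  | zero => simp
  | succ n ih => rw [pow_succ]; exact New_pm_mul ih hx

theorem New_pm_zpow {x : SL2} (hx : x = 1 ∨ x = -1) (n : ℤ) : x ^ n = 1 ∨ x ^ n = -1 := by
  cases n with
  | ofNat n => simpa using New_pm_pow hx n
  | negSucc n => rw [zpow_negSucc]; exact New_pm_inv (New_pm_pow hx _)

theorem New_ne_of_trace {A : SL2} (h : A.1.trace ≠ 2) (h' : A.1.trace ≠ -2) : A ≠ 1 ∧ A ≠ -1 := by
  constructor
  · rintro rfl
    apply h
    simp
  · rintro rfl
    apply h'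
    simp

theorem New_proof (h1 : S_PerComm) (h2 : S_VRoot) (h3 : S_Trace) (h4 : S_Conj)
    (h5 : S_CableHom) : S_New := by
  intro r s K δ hs hrs hδ ⟨ρ, hm1, hm2, hAL⟩ A hA1 hA2
  have hcomm : Commute (ρ K.group.mer) (ρ K.group.lon) := by
    show _ * _ = _ * _
    rw [← map_mul, h1 K, map_mul]
  set A' := ρ K.group.mer with hA'
  set La := ρ K.group.lon with hLa
  have hgcd : r * Int.gcdA r s + s * Int.gcdB r s = 1 := by
    rw [← Int.gcd_eq_gcd_ab]
    exact_mod_cast Int.isCoprime_iff_gcd_eq_one.1 hrs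
  set a := Int.gcdB r s with ha
  set b := Int.gcdA r s with hb
  have hcop : IsCoprime b (s : ℤ) := ⟨r, a, by linarith⟩
  obtain ⟨V, hV, hVb⟩ := h2 s δ hs hδ
  obtain ⟨hVb1, hVb2⟩ := hVb b hcop
  -- the element W
  have hWA : (A' ^ a * La ^ (-b)) ^ (s : ℤ) * (A' ^ r * La ^ (s : ℤ)) ^ b = A' := by
    have c1 : Commute (A' ^ a) (La ^ (-b)) := (hcomm.zpow_left a).zpow_right (-b)
    have c2 : Commute (A' ^ r) (La ^ (s : ℤ)) := (hcomm.zpow_left r).zpow_right _
    rw [c1.mul_zpow, c2.mul_zpow, ← zpow_mul, ← zpow_mul, ← zpow_mul, ← zpow_mul]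
    have c3 : Commute (La ^ (-b * (s : ℤ))) (A' ^ (r * b)) :=
      ((hcomm.zpow_left (r * b)).zpow_right _).symm
    rw [mul_assoc, ← mul_assoc (La ^ (-b * (s : ℤ))), c3.eq, mul_assoc, ← zpow_add, ← mul_assoc,
      ← zpow_add]
    have e1 : a * (s : ℤ) + r * b = 1 := by linarith
    have e2 : -b * (s : ℤ) + (s : ℤ) * b = 0 := by ring
    rw [e1, e2, zpow_one, zpow_zero, mul_one]
  have hAL' : A' ^ r * La ^ (s : ℤ) = sg δ := by rw [zpow_natCast]; exact hAL
  have hW : ¬ (A' ^ a * La ^ (-b) = 1 ∨ A' ^ a * La ^ (-b) = -1) := by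
    intro hW
    have h := New_pm_mul (New_pm_zpow hW (s : ℤ)) (New_pm_zpow (New_sg_pm δ) b)
    rw [← hAL', hWA] at h
    rcases h with h | h
    · exact hm1 h
    · exact hm2 h
  obtain ⟨g, hg⟩ := h3 (A' ^ a * La ^ (-b)) (V ^ b) A.1.trace (fun h => hW (Or.inl h))
    (fun h => hW (Or.inr h)) hVb1 hVb2
  obtain ⟨hAn1, hAn2⟩ := New_ne_of_trace hA1 hA2
  obtain ⟨hBn1, hBn2⟩ := New_ne_of_trace (A := A' ^ a * La ^ (-b) * (g * V ^ b * g⁻¹))
    (by rw [hg]; exact hA1) (by rw [hg]; exact hA2)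
  obtain ⟨k, hk⟩ := h4 _ A hBn1 hBn2 hAn1 hAn2 hg
  let ρk : K.group.G →* SL2 := (MulAut.conj k).toMonoidHom.comp ρ
  have hρm : ρk K.group.mer = k * A' * k⁻¹ := rfl
  have hρl : ρk K.group.lon = k * La * k⁻¹ := rfl
  have hVs : (k * (g * V * g⁻¹) * k⁻¹) ^ s = sg δ := by
    rw [conj_pow, conj_pow, hV, New_sg_central, New_sg_central]
  obtain ⟨ρ', hmer, hlon⟩ := h5 r s K.group ρk (k * (g * V * g⁻¹) * k⁻¹) (by
    rw [hVs, hρm, hρl, conj_zpow, conj_pow]
    have : k * A' ^ r * k⁻¹ * (k * La ^ s * k⁻¹) = k * (A' ^ r * La ^ s) * k⁻¹ := by group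
    rw [this, hAL, New_sg_central])
  have hmer' : ρ' (cableGroup r s K.group).mer = A := by
    rw [hmer, hρm, hρl, ← ha, ← hb, conj_zpow, conj_zpow, conj_zpow, conj_zpow, ← hk]
    group
  refine ⟨ρ', hmer', ?_⟩
  show ρ' (cableGroup r s K.group).lon = _
  rw [hlon, hmer', hVs]

end AJG

end

section

/-!
# MP_d3fa71_gt, item NewAll: the new component of a cable, for every companion
-/

open Polynomial

namespace AJG

theorem NewAll_sg_one : sg 1 = 1 := by simp [sg]

theorem NewAll_sg_neg : sg (-1) = -1 := by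
  unfold sg
  rw [if_neg (by decide)]

theorem NewAll_sg_cases (u : ℤˣ) : sg u = 1 ∨ sg u = -1 := by
  rcases Int.units_eq_one_or u with h | h
  · left
    rw [h]
    exact NewAll_sg_one
  · right
    rw [h]
    exact NewAll_sg_neg

theorem NewAll_sg_comm (u : ℤˣ) (A : SL2) : Commute (sg u) A := by
  rcases NewAll_sg_cases u with h | h
  · rw [h]
    exact Commute.one_left A
  · rw [h]
    exact Commute.neg_one_left A

theorem NewAll_sg_mul (u v : ℤˣ) : sg (u * v) = sg u * sg v := by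
  rcases Int.units_eq_one_or u with h | h <;> rcases Int.units_eq_one_or v with h' | h' <;>
    rw [h, h'] <;> simp [NewAll_sg_one, NewAll_sg_neg]

theorem NewAll_sg_pow (u : ℤˣ) (n : ℕ) : (sg u) ^ n = sg (u ^ n) := by
  induction n with
  | zero => rw [pow_zero, pow_zero, NewAll_sg_one]
  | succ n ih => rw [pow_succ, pow_succ, NewAll_sg_mul, ih]

theorem NewAll_ne_one {A : SL2} (h : A.1.trace ≠ 2) : A ≠ 1 := by
  rintro rfl
  apply h
  show (1 : Matrix (Fin 2) (Fin 2) ℂ).trace = 2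
  simp [Matrix.trace_one]

theorem NewAll_ne_neg {A : SL2} (h : A.1.trace ≠ -2) : A ≠ -1 := by
  rintro rfl
  apply h
  show (-(1 : Matrix (Fin 2) (Fin 2) ℂ)).trace = -2
  simp [Matrix.trace_neg, Matrix.trace_one]

/-- all representations `mer ↦ A`, `lon ↦ e A ^ la` -/
def NewAll_NT (K : GK) : Prop := ∃ (e : ℤˣ) (la : ℤ), 2 ≤ |la| ∧ ∀ A : SL2, A.1.trace ≠ 2 →
  A.1.trace ≠ -2 → ∃ ρ : K.group.G →* SL2, ρ K.group.mer = A ∧ ρ K.group.lon = sg e * A ^ la

theorem NewAll_rep (h2 : S_Abel) (h3 : S_DiagRoot) (r : ℤ) (s : ℕ) (K : GK) (δ : ℤˣ)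
    (hv : (GK.cable r s K).Valid) (hNT : ¬ K.Triv → NewAll_NT K) :
    ∃ ρ : K.group.G →* SL2, ρ K.group.mer ≠ 1 ∧ ρ K.group.mer ≠ -1 ∧
      ρ K.group.mer ^ r * ρ K.group.lon ^ s = sg δ := by
  obtain ⟨hK, hs, hco, htr⟩ := hv
  by_cases hr3 : 3 ≤ |r|
  · obtain ⟨A, hA1, hA2, hA⟩ := h3 r δ hr3
    obtain ⟨ρ, hρ1, hρ2⟩ := h2 K hK A
    refine ⟨ρ, ?_, ?_, ?_⟩
    · rw [hρ1]
      exact NewAll_ne_one hA1
    · rw [hρ1]
      exact NewAll_ne_neg hA2
    · rw [hρ1, hρ2, one_pow, mul_one, hA]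
  · have hr3' : |r| ≤ 2 := by omega
    have hr0 : r ≠ 0 := by
      rintro rfl
      rw [isCoprime_zero_left, Int.isUnit_iff] at hco
      omega
    have hnt : ¬ K.Triv := by
      intro h
      have := htr h
      omega
    obtain ⟨e, la, hla, hrep⟩ := hNT hnt
    have hrb : -2 ≤ r ∧ r ≤ 2 := abs_le.1 hr3'
    have hk0 : 3 ≤ |r + la * s| := by
      have hs' : (2 : ℤ) ≤ s := by exact_mod_cast hs
      have h1 : 2 * (s : ℤ) ≤ |la * s| := by
        rw [abs_mul, abs_of_nonneg (by omega : (0 : ℤ) ≤ s)]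
        exact mul_le_mul_of_nonneg_right hla (by omega)
      have h3 : |la * s| ≤ |r + la * s| + |r| := by
        have h4 := abs_sub (r + la * s) r
        rwa [add_sub_cancel_left] at h4
      rcases lt_or_ge |r| 2 with h5 | h5
      · omega
      · have h6 : |r| = 2 := le_antisymm hr3' h5
        have h7 : (3 : ℤ) ≤ s := by
          by_contra hcon
          have hs2 : (s : ℤ) = 2 := by omega
          rw [hs2] at hco
          rcases abs_eq (by norm_num : (0 : ℤ) ≤ 2) |>.1 h6 with h8 | h8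
          · rw [h8] at hco
            have h9 := hco.isUnit_of_dvd' (dvd_refl 2) (dvd_refl 2)
            rw [Int.isUnit_iff] at h9
            omega
          · rw [h8] at hco
            have h9 := hco.isUnit_of_dvd' (show (2 : ℤ) ∣ -2 by norm_num) (dvd_refl 2)
            rw [Int.isUnit_iff] at h9
            omega
        omega
    obtain ⟨A, hA1, hA2, hA⟩ := h3 (r + la * s) (δ * e ^ s) hk0
    obtain ⟨ρ, hρ1, hρ2⟩ := hrep A hA1 hA2
    refine ⟨ρ, ?_, ?_, ?_⟩
    · rw [hρ1]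
      exact NewAll_ne_one hA1
    · rw [hρ1]
      exact NewAll_ne_neg hA2
    · rw [hρ1, hρ2, (NewAll_sg_comm e (A ^ la)).mul_pow, NewAll_sg_pow, ← zpow_natCast (A ^ la),
        ← zpow_mul, ← mul_assoc, ← (NewAll_sg_comm (e ^ s) (A ^ r)).eq, mul_assoc, ← zpow_add, hA,
        ← NewAll_sg_mul]
      congr 1
      rw [mul_comm δ, ← mul_assoc, ← mul_pow, Int.units_mul_self, one_pow, one_mul]

theorem NewAll_nt (h1 : S_New) (h2 : S_Abel) (h3 : S_DiagRoot) (h4 : S_SumHom) (K : GK) :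
    K.Valid → ¬ K.Triv → NewAll_NT K := by
  induction K with
  | unknot =>
    intro _ ht
    exact absurd trivial ht
  | cable r s K ih =>
    intro hv _
    have hrep := NewAll_rep h2 h3 r s K (-1) hv (ih hv.1)
    obtain ⟨hK, hs, hco, htr⟩ := hv
    have hs' : (2 : ℤ) ≤ s := by exact_mod_cast hs
    have hr0 : r ≠ 0 := by
      rintro rfl
      rw [isCoprime_zero_left, Int.isUnit_iff] at hco
      omega
    refine ⟨-1, -(r * s), ?_, ?_⟩
    · rw [abs_neg, abs_mul, abs_of_nonneg (by omega : (0 : ℤ) ≤ s)]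
      have h5 : 1 ≤ |r| := Int.one_le_abs hr0
      nlinarith
    · intro A hA1 hA2
      exact h1 r s K (-1) hs hco (fun _ => rfl) hrep A hA1 hA2
  | sum K L ihK ihL =>
    intro hv ht
    obtain ⟨hK, hL⟩ := hv
    by_cases hKt : K.Triv
    · have hLt : ¬ L.Triv := fun h => ht ⟨hKt, h⟩
      obtain ⟨e, la, hla, hrep⟩ := ihL hL hLt
      refine ⟨e, la, hla, fun A hA1 hA2 => ?_⟩
      obtain ⟨ρ₁, h11, h12⟩ := h2 K hK A
      obtain ⟨ρ₂, h21, h22⟩ := hrep A hA1 hA2
      obtain ⟨ρ', h31, h32⟩ := h4 K.group L.group ρ₁ ρ₂ (h11.trans h21.symm)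
      exact ⟨ρ', h31.trans h11, by rw [← h22, ← one_mul (ρ₂ L.group.lon), ← h12]; exact h32⟩
    · obtain ⟨e, la, hla, hrep⟩ := ihK hK hKt
      refine ⟨e, la, hla, fun A hA1 hA2 => ?_⟩
      obtain ⟨ρ₁, h11, h12⟩ := hrep A hA1 hA2
      obtain ⟨ρ₂, h21, h22⟩ := h2 L hL A
      obtain ⟨ρ', h31, h32⟩ := h4 K.group L.group ρ₁ ρ₂ (h11.trans h21.symm)
      exact ⟨ρ', h31.trans h11, by rw [← h12, ← mul_one (ρ₁ K.group.lon), ← h22]; exact h32⟩

theorem NewAll_proof (h1 : S_New) (h2 : S_Abel) (h3 : S_DiagRoot) (h4 : S_SumHom) :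
    S_NewAll := by
  intro r s K δ hv hδ A hA1 hA2
  exact h1 r s K δ hv.2.1 hv.2.2.1 hδ
    (NewAll_rep h2 h3 r s K δ hv (NewAll_nt h1 h2 h3 h4 K hv.1)) A hA1 hA2

end AJG

end

section

/-! Item PerComm: meridian and longitude commute. -/

set_option autoImplicit false

namespace AJG

theorem PerComm_cable {G : Type} [Group G] {μ l x : G} {r : ℤ} {s : ℕ} (h : Commute μ l)
    (hx : x ^ s = μ ^ r * l ^ s) (a b c : ℤ) :
    (μ ^ a * l ^ b * x ^ (-b)) * (x ^ s * (μ ^ a * l ^ b * x ^ (-b)) ^ c) =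
      (x ^ s * (μ ^ a * l ^ b * x ^ (-b)) ^ c) * (μ ^ a * l ^ b * x ^ (-b)) := by
  have h1 : Commute (μ ^ a * l ^ b) (x ^ s) := by
    rw [hx]
    have hm : Commute μ (μ ^ r * l ^ s) := ((Commute.refl μ).zpow_right r).mul_right (h.pow_right s)
    have hl : Commute l (μ ^ r * l ^ s) :=
      (h.symm.zpow_right r).mul_right ((Commute.refl l).pow_right s)
    exact (hm.zpow_left a).mul_left (hl.zpow_left b)
  have h2 : Commute (x ^ (-b)) (x ^ s) := ((Commute.refl x).zpow_left (-b)).pow_right s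
  have h3 : Commute (μ ^ a * l ^ b * x ^ (-b)) (x ^ s) := h1.mul_left h2
  exact (h3.mul_right ((Commute.refl _).zpow_right c)).eq

theorem PerComm_proof : S_PerComm := by
  intro K
  induction K with
  | unknot =>
    show (Multiplicative.ofAdd (1 : ℤ)) * 1 = 1 * (Multiplicative.ofAdd (1 : ℤ))
    rw [mul_one, one_mul]
  | cable r s K ih =>
    let P := K.group
    let φ := toQuo P unknotGroup (cableRel r s P)
    show φ (cableMer r s P) * φ (coreX P ^ s * cableMer r s P ^ (-(r * s))) =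
      φ (coreX P ^ s * cableMer r s P ^ (-(r * s))) * φ (cableMer r s P)
    have h0 : φ (coreX P ^ s * (inc₁ P unknotGroup (P.mer ^ r * P.lon ^ s))⁻¹) = 1 :=
      (QuotientGroup.eq_one_iff (N := Subgroup.normalClosure {cableRel r s P}) _).2
        (Subgroup.subset_normalClosure rfl)
    have hx : φ (coreX P) ^ s =
        φ (inc₁ P unknotGroup P.mer) ^ r * φ (inc₁ P unknotGroup P.lon) ^ s := by
      rw [map_mul, map_inv, map_pow, map_mul, map_mul, map_zpow, map_pow, map_zpow, map_pow] at h0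
      exact mul_inv_eq_one.1 h0
    have hc : Commute (φ (inc₁ P unknotGroup P.mer)) (φ (inc₁ P unknotGroup P.lon)) := by
      show φ (inc₁ P unknotGroup P.mer) * φ (inc₁ P unknotGroup P.lon) =
        φ (inc₁ P unknotGroup P.lon) * φ (inc₁ P unknotGroup P.mer)
      rw [← map_mul, ← map_mul, ← map_mul, ← map_mul]
      exact congrArg (fun z => φ (inc₁ P unknotGroup z)) ih
    have h1 := PerComm_cable hc hx (Int.gcdB r s) (-Int.gcdA r s) (-(r * s))
    have hm : φ (cableMer r s P) = φ (inc₁ P unknotGroup P.mer) ^ (Int.gcdB r s) *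
        φ (inc₁ P unknotGroup P.lon) ^ (-Int.gcdA r s) * φ (coreX P) ^ (-(-Int.gcdA r s)) := by
      unfold cableMer
      rw [neg_neg, map_mul, map_mul, map_mul, map_zpow, map_zpow, map_zpow, map_zpow, map_zpow]
    have hl : φ (coreX P ^ s * cableMer r s P ^ (-(r * s))) =
        φ (coreX P) ^ s * φ (cableMer r s P) ^ (-(r * s)) := by
      rw [map_mul, map_zpow, map_pow]
    rw [hl, hm]
    exact h1
  | sum K L ihK ihL =>
    let P := K.group
    let Q := L.group
    let i : P.G →* Monoid.Coprod P.G Q.G := Monoid.Coprod.inl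
    let j : Q.G →* Monoid.Coprod P.G Q.G := Monoid.Coprod.inr
    let N : Subgroup (Monoid.Coprod P.G Q.G) := Subgroup.normalClosure {i P.mer * (j Q.mer)⁻¹}
    let φ := QuotientGroup.mk' N
    show φ (i P.mer) * φ (i P.lon * j Q.lon) = φ (i P.lon * j Q.lon) * φ (i P.mer)
    have h0 : φ (i P.mer * (j Q.mer)⁻¹) = 1 :=
      (QuotientGroup.eq_one_iff (N := N) _).2 (Subgroup.subset_normalClosure rfl)
    have he : φ (i P.mer) = φ (j Q.mer) := by
      rw [map_mul, map_inv] at h0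
      exact mul_inv_eq_one.1 h0
    have hP : Commute (φ (i P.mer)) (φ (i P.lon)) := by
      show φ (i P.mer) * φ (i P.lon) = φ (i P.lon) * φ (i P.mer)
      rw [← map_mul, ← map_mul, ← map_mul, ← map_mul]
      exact congrArg (fun z => φ (i z)) ihK
    have hQ : Commute (φ (i P.mer)) (φ (j Q.lon)) := by
      rw [he]
      show φ (j Q.mer) * φ (j Q.lon) = φ (j Q.lon) * φ (j Q.mer)
      rw [← map_mul, ← map_mul, ← map_mul, ← map_mul]
      exact congrArg (fun z => φ (j z)) ihL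
    rw [map_mul]
    exact (hP.mul_right hQ).eq

end AJG

end

section

/-!
# MP_d3fa71_gt: a primitive operator does not vanish at `q = 1`
-/

set_option autoImplicit false

open Polynomial

namespace AJG

/-- the specialisation `q = 1` of the inner variable -/
noncomputable def SpNe_in : LaurentPolynomial ℤ →+* LaurentPolynomial ℤ :=
  LaurentPolynomial.eval₂ (Int.castRingHom (LaurentPolynomial ℤ)) 1

theorem SpNe_dvdT (n : ℤ) :
    (LaurentPolynomial.T 1 - 1 : LaurentPolynomial ℤ) ∣ LaurentPolynomial.T n - 1 := by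
  induction n using Int.induction_on with
  | zero => rw [LaurentPolynomial.T_zero, sub_self]; exact dvd_zero _
  | succ i ih =>
    have e : (LaurentPolynomial.T ((i : ℤ) + 1) - 1 : LaurentPolynomial ℤ) =
        (LaurentPolynomial.T 1 - 1) * LaurentPolynomial.T (i : ℤ) +
          (LaurentPolynomial.T (i : ℤ) - 1) := by
      rw [add_comm (i : ℤ) 1, LaurentPolynomial.T_add]; ring
    rw [e]
    exact dvd_add (dvd_mul_right _ _) ih
  | pred i ih =>
    have e0 : (LaurentPolynomial.T (-(i : ℤ)) : LaurentPolynomial ℤ) =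
        LaurentPolynomial.T 1 * LaurentPolynomial.T (-(i : ℤ) - 1) := by
      rw [← LaurentPolynomial.T_add]; congr 1; ring
    have e : (LaurentPolynomial.T (-(i : ℤ) - 1) - 1 : LaurentPolynomial ℤ) =
        (LaurentPolynomial.T (-(i : ℤ)) - 1) -
          (LaurentPolynomial.T 1 - 1) * LaurentPolynomial.T (-(i : ℤ) - 1) := by
      rw [e0]; ring
    rw [e]
    exact dvd_sub ih (dvd_mul_right _ _)

theorem SpNe_aug (f : LaurentPolynomial ℤ) : ∃ c : ℤ, SpNe_in f = LaurentPolynomial.C c ∧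
    (LaurentPolynomial.T 1 - 1 : LaurentPolynomial ℤ) ∣ f - LaurentPolynomial.C c := by
  induction f using LaurentPolynomial.induction_on' with
  | add f g hf hg =>
    obtain ⟨c, hc, hc'⟩ := hf
    obtain ⟨d, hd, hd'⟩ := hg
    refine ⟨c + d, by rw [map_add, hc, hd, map_add], ?_⟩
    have e : f + g - LaurentPolynomial.C (c + d) =
        (f - LaurentPolynomial.C c) + (g - LaurentPolynomial.C d) := by
      rw [map_add]; ring
    rw [e]
    exact dvd_add hc' hd'
  | C_mul_T n a =>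
    refine ⟨a, ?_, ?_⟩
    · unfold SpNe_in
      rw [LaurentPolynomial.eval₂_C_mul_T, one_zpow, Units.val_one, mul_one]
      exact (eq_intCast (LaurentPolynomial.C (R := ℤ)) a).symm
    · have e : (LaurentPolynomial.C a * LaurentPolynomial.T n - LaurentPolynomial.C a :
          LaurentPolynomial ℤ) = LaurentPolynomial.C a * (LaurentPolynomial.T n - 1) := by ring
      rw [e]
      exact (SpNe_dvdT n).mul_left _

theorem SpNe_upow (n : ℤ) :
    (((⟨LaurentPolynomial.T 2, LaurentPolynomial.T (-2),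
      by rw [← LaurentPolynomial.T_add]; norm_num, by rw [← LaurentPolynomial.T_add]; norm_num⟩ :
      (LaurentPolynomial ℤ)ˣ) ^ n : (LaurentPolynomial ℤ)ˣ) : LaurentPolynomial ℤ) =
      LaurentPolynomial.T (2 * n) := by
  induction n using Int.induction_on with
  | zero => simp
  | succ i ih =>
    rw [zpow_add_one, Units.val_mul, ih, ← LaurentPolynomial.T_add]
    congr 1
  | pred i ih =>
    rw [zpow_sub_one, Units.val_mul, ih]
    show LaurentPolynomial.T (2 * -(i : ℤ)) * LaurentPolynomial.T (-2) = _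
    rw [← LaurentPolynomial.T_add]
    congr 1
    ring

theorem SpNe_coeff (a : R2) (i : ℤ) : ∃ c : ℤ, (sp a).coeff (2 * i) = c ∧
    (LaurentPolynomial.T 1 - 1 : LaurentPolynomial ℤ) ∣ a.coeff i - LaurentPolynomial.C c := by
  induction a using LaurentPolynomial.induction_on' with
  | add f g hf hg =>
    obtain ⟨c, hc, hc'⟩ := hf
    obtain ⟨d, hd, hd'⟩ := hg
    refine ⟨c + d, ?_, ?_⟩
    · rw [map_add, AddMonoidAlgebra.coeff_add, Finsupp.add_apply, hc, hd]
    · have e : (f + g).coeff i - LaurentPolynomial.C (c + d) =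
          (f.coeff i - LaurentPolynomial.C c) + (g.coeff i - LaurentPolynomial.C d) := by
        rw [map_add, AddMonoidAlgebra.coeff_add, Finsupp.add_apply]; ring
      rw [e]
      exact dvd_add hc' hd'
  | C_mul_T n b =>
    obtain ⟨c, hc, hc'⟩ := SpNe_aug b
    have h1 : sp (LaurentPolynomial.C b * LaurentPolynomial.T n) =
        LaurentPolynomial.C c * LaurentPolynomial.T (2 * n) := by
      unfold sp
      rw [LaurentPolynomial.eval₂_C_mul_T, SpNe_upow]
      congr 1
    rw [h1]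
    by_cases hn : n = i
    · subst hn
      refine ⟨c, ?_, ?_⟩
      · rw [← LaurentPolynomial.single_eq_C_mul_T, AddMonoidAlgebra.coeff_single,
          Finsupp.single_eq_same]
      · rw [← LaurentPolynomial.single_eq_C_mul_T, AddMonoidAlgebra.coeff_single,
          Finsupp.single_eq_same]
        exact hc'
    · refine ⟨0, ?_, ?_⟩
      · rw [← LaurentPolynomial.single_eq_C_mul_T, AddMonoidAlgebra.coeff_single,
          Finsupp.single_eq_of_ne (by omega)]
      · rw [← LaurentPolynomial.single_eq_C_mul_T, AddMonoidAlgebra.coeff_single,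
          Finsupp.single_eq_of_ne (by omega), map_zero, sub_zero]
        exact dvd_zero _

theorem SpNe_dvd (d : LaurentPolynomial ℤ) (a : R2) (h : ∀ i, d ∣ a.coeff i) :
    LaurentPolynomial.C d ∣ a := by
  choose g hg using h
  have e : a = LaurentPolynomial.C d *
      ∑ i ∈ a.coeff.support, LaurentPolynomial.C (g i) * LaurentPolynomial.T i := by
    rw [Finset.mul_sum]
    have e1 : ∀ i, LaurentPolynomial.C d * (LaurentPolynomial.C (g i) * LaurentPolynomial.T i) =
        (AddMonoidAlgebra.single i (a.coeff i) : R2) := by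
      intro i
      rw [LaurentPolynomial.single_eq_C_mul_T, hg i, map_mul, mul_assoc]
    simp only [e1]
    apply LaurentPolynomial.ext
    intro j
    rw [AddMonoidAlgebra.coeff_sum, Finset.sum_apply']
    simp only [AddMonoidAlgebra.coeff_single]
    rw [Finset.sum_eq_single j]
    · rw [Finsupp.single_eq_same]
    · intro b _ hb
      rw [Finsupp.single_eq_of_ne' hb]
    · intro hj
      rw [Finsupp.single_eq_same]
      exact Finsupp.notMem_support_iff.1 hj
  exact ⟨_, e⟩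

theorem SpNe_proof : S_SpNe := by
  intro α hα h0
  have h1 : ∀ j, sp (α.coeff j) = 0 := by
    intro j
    rw [← Polynomial.coeff_map, h0, Polynomial.coeff_zero]
  have h2 : ∀ j, LaurentPolynomial.C (LaurentPolynomial.T 1 - 1 : LaurentPolynomial ℤ) ∣
      α.coeff j := by
    intro j
    apply SpNe_dvd
    intro i
    obtain ⟨c, hc, hc'⟩ := SpNe_coeff (α.coeff j) i
    rw [h1 j] at hc
    have hc0 : c = 0 := by
      rw [← hc]; rfl
    rw [hc0, map_zero, sub_zero] at hc'
    exact hc'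
  have h3 := (hα _ h2).map sp
  have h4 : sp (LaurentPolynomial.C (LaurentPolynomial.T 1 - 1 : LaurentPolynomial ℤ)) = 0 := by
    unfold sp
    rw [LaurentPolynomial.eval₂_C, map_sub, map_one, LaurentPolynomial.eval₂_T, one_zpow,
      Units.val_one, sub_self]
  rw [h4] at h3
  exact not_isUnit_zero h3

end AJG

end

section

/-!
# MP_d3fa71_gt, item SqOne: square roots of one in SL2
-/

open Polynomial

namespace AJG

theorem SqOne_proof : S_SqOne := by
  intro V hV
  have hinv : V = V⁻¹ := by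
    rw [eq_inv_iff_mul_eq_one, ← sq]
    exact hV
  have hmat : V.1 = (V⁻¹).1 := congrArg Subtype.val hinv
  have hadj : (V⁻¹).1 = V.1.adjugate := Matrix.SpecialLinearGroup.coe_inv V
  rw [hadj, Matrix.adjugate_fin_two] at hmat
  have h01 := congrFun (congrFun hmat 0) 1
  have h10 := congrFun (congrFun hmat 1) 0
  have h00 := congrFun (congrFun hmat 0) 0
  simp at h01 h10 h00
  have hb : V.1 0 1 = 0 := by
    linear_combination (1 / 2 : ℂ) * h01
  have hc : V.1 1 0 = 0 := by
    linear_combination (1 / 2 : ℂ) * h10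
  have hdet : V.1 0 0 * V.1 1 1 - V.1 0 1 * V.1 1 0 = 1 := by
    have := V.2
    rwa [Matrix.det_fin_two] at this
  rw [hb, ← h00] at hdet
  have hsq : (V.1 0 0 - 1) * (V.1 0 0 + 1) = 0 := by
    linear_combination hdet
  rcases mul_eq_zero.1 hsq with h | h
  · left
    have ha : V.1 0 0 = 1 := by linear_combination h
    apply Subtype.ext
    ext i j
    fin_cases i <;> fin_cases j
    · simpa using ha
    · simpa using hb
    · simpa using hc
    · have : V.1 1 1 = 1 := by rw [← h00]; exact ha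
      simpa using this
  · right
    have ha : V.1 0 0 = -1 := by linear_combination h
    apply Subtype.ext
    ext i j
    fin_cases i <;> fin_cases j
    · simpa using ha
    · simpa using hb
    · simpa using hc
    · have : V.1 1 1 = -1 := by rw [← h00]; exact ha
      simpa using this

end AJG

end

section

/-! Item SumHom: gluing two representations along the meridians. -/

set_option autoImplicit false

namespace AJG

theorem SumHom_proof : S_SumHom := by
  intro P Q ρ₁ ρ₂ h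
  let i : P.G →* Monoid.Coprod P.G Q.G := Monoid.Coprod.inl
  let j : Q.G →* Monoid.Coprod P.G Q.G := Monoid.Coprod.inr
  let N : Subgroup (Monoid.Coprod P.G Q.G) := Subgroup.normalClosure {i P.mer * (j Q.mer)⁻¹}
  let φ : Monoid.Coprod P.G Q.G →* SL2 := Monoid.Coprod.lift ρ₁ ρ₂
  have hi : ∀ x, φ (i x) = ρ₁ x := fun x => Monoid.Coprod.lift_apply_inl ρ₁ ρ₂ x
  have hj : ∀ x, φ (j x) = ρ₂ x := fun x => Monoid.Coprod.lift_apply_inr ρ₁ ρ₂ x
  have hN : N ≤ φ.ker := by
    refine Subgroup.normalClosure_le_normal ?_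
    rintro x hx
    rw [Set.mem_singleton_iff] at hx
    subst hx
    show φ (i P.mer * (j Q.mer)⁻¹) = 1
    rw [map_mul, map_inv, hi, hj, h, mul_inv_cancel]
  let ρ' : (Monoid.Coprod P.G Q.G ⧸ N) →* SL2 := QuotientGroup.lift N φ hN
  refine ⟨ρ', ?_, ?_⟩
  · show φ (i P.mer) = ρ₁ P.mer
    exact hi _
  · show φ (i P.lon * j Q.lon) = ρ₁ P.lon * ρ₂ Q.lon
    rw [map_mul, hi, hj]

end AJG

end

section

/-! Item SumRes: restriction of a representation of the group of a connected sum. -/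

set_option autoImplicit false

namespace AJG

theorem SumRes_proof : S_SumRes := by
  intro P Q ρ'
  let i : P.G →* Monoid.Coprod P.G Q.G := Monoid.Coprod.inl
  let j : Q.G →* Monoid.Coprod P.G Q.G := Monoid.Coprod.inr
  let N : Subgroup (Monoid.Coprod P.G Q.G) := Subgroup.normalClosure {i P.mer * (j Q.mer)⁻¹}
  let ρ : (Monoid.Coprod P.G Q.G ⧸ N) →* SL2 := ρ'
  refine ⟨(ρ.comp (QuotientGroup.mk' N)).comp i, (ρ.comp (QuotientGroup.mk' N)).comp j, ?_, ?_, ?_⟩
  · show ρ (QuotientGroup.mk' N (i P.mer)) = ρ (QuotientGroup.mk' N (j Q.mer))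
    congr 1
    have h : i P.mer * (j Q.mer)⁻¹ ∈ N := Subgroup.subset_normalClosure rfl
    have h1 : QuotientGroup.mk' N (i P.mer * (j Q.mer)⁻¹) = 1 :=
      (QuotientGroup.eq_one_iff (N := N) _).2 h
    rw [map_mul, map_inv] at h1
    exact mul_inv_eq_one.1 h1
  · rfl
  · show ρ (QuotientGroup.mk' N (i P.lon * j Q.lon)) =
      ρ (QuotientGroup.mk' N (i P.lon)) * ρ (QuotientGroup.mk' N (j Q.lon))
    rw [map_mul, map_mul]

end AJG

end

section

/-!
# Item Trace: the trace of `W (g U g⁻¹)` takes all values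
-/

namespace AJG

theorem Trace_conj (P X : SL2) : (P * X * P⁻¹).1.trace = X.1.trace := by
  have h : (P⁻¹ * (P * X)).1.trace = X.1.trace := by
    rw [inv_mul_cancel_left]
  rw [← h, Matrix.SpecialLinearGroup.coe_mul, Matrix.SpecialLinearGroup.coe_mul P⁻¹]
  exact Matrix.trace_mul_comm _ _

theorem Trace_quad (s : ℂ) : ∃ y : ℂ, y ≠ 0 ∧ y + y⁻¹ = s := by
  obtain ⟨k, hk⟩ := IsAlgClosed.exists_pow_nat_eq (s ^ 2 - 4) (n := 2) (by norm_num)
  have h1 : ((s + k) / 2) * ((s - k) / 2) = 1 := by linear_combination (-1 / 4 : ℂ) * hk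
  have h0 : (s + k) / 2 ≠ 0 := by
    intro h
    rw [h, zero_mul] at h1
    exact zero_ne_one h1
  refine ⟨(s + k) / 2, h0, ?_⟩
  have h2 : ((s + k) / 2)⁻¹ = (s - k) / 2 := inv_eq_of_mul_eq_one_right h1
  rw [h2]
  ring

theorem Trace_proof (h1 : S_Conj) : S_Trace := by
  intro W U τ hW1 hW2 hU1 hU2
  obtain ⟨y, hy0, hy⟩ := Trace_quad (τ - W.1.trace * U.1.trace)
  set C : SL2 := ⟨!![0, -1; 1, W.1.trace], by simp [Matrix.det_fin_two]⟩ with hC
  set V : SL2 := ⟨!![0, y; -y⁻¹, U.1.trace], by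
    rw [Matrix.det_fin_two]
    simp only [Matrix.of_apply, Matrix.cons_val', Matrix.cons_val_zero, Matrix.cons_val_one,
      Matrix.cons_val_fin_one]
    rw [zero_mul, mul_neg, mul_inv_cancel₀ hy0]
    ring⟩ with hV
  have hne : ∀ X : SL2, X.1 0 0 = 0 → X ≠ 1 ∧ X ≠ -1 := by
    intro X hX
    constructor
    · rintro rfl
      simp at hX
    · rintro rfl
      simp at hX
  obtain ⟨hC1, hC2⟩ := hne C (by simp [hC])
  obtain ⟨hV1, hV2⟩ := hne V (by simp [hV])
  obtain ⟨P, hP⟩ := h1 C W hC1 hC2 hW1 hW2 (by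
    rw [Matrix.trace_fin_two]
    simp [hC])
  obtain ⟨h, hh⟩ := h1 U V hU1 hU2 hV1 hV2 (by
    rw [Matrix.trace_fin_two V.1]
    simp [hV])
  refine ⟨P * h, ?_⟩
  have e : W * (P * h * U * (P * h)⁻¹) = P * (C * V) * P⁻¹ := by
    rw [← hP, ← hh]
    group
  rw [e, Trace_conj, Matrix.SpecialLinearGroup.coe_mul, Matrix.trace_fin_two]
  simp only [hC, hV, Matrix.mul_fin_two, Matrix.of_apply, Matrix.cons_val', Matrix.cons_val_zero,
    Matrix.cons_val_one, Matrix.cons_val_fin_one]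
  linear_combination hy

end AJG

end

section

/-!
# MP_d3fa71_gt: item Up: eigenvalue pairs lie on the curves
-/

open Polynomial

namespace AJG

/-- `w` is an eigenvector with eigenvalue `a` -/
def Up_Ev (w : Fin 2 → ℂ) (A : SL2) (a : ℂ) : Prop := Matrix.mulVec A.1 w = a • w

theorem Up_Ev_one (w : Fin 2 → ℂ) : Up_Ev w 1 1 := by
  unfold Up_Ev
  rw [one_smul]
  exact Matrix.one_mulVec w

theorem Up_Ev_neg (w : Fin 2 → ℂ) : Up_Ev w (-1) (-1) := by
  unfold Up_Ev
  have h : ((-1 : SL2)).1 = -(1 : Matrix (Fin 2) (Fin 2) ℂ) := rfl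
  rw [h, Matrix.neg_mulVec, Matrix.one_mulVec, neg_smul, one_smul]

theorem Up_Ev_mul {w : Fin 2 → ℂ} {A B : SL2} {a b : ℂ} (hA : Up_Ev w A a) (hB : Up_Ev w B b) :
    Up_Ev w (A * B) (a * b) := by
  unfold Up_Ev at *
  have h : (A * B).1 = A.1 * B.1 := rfl
  rw [h, ← Matrix.mulVec_mulVec, hB, Matrix.mulVec_smul, hA, smul_smul, mul_comm]

theorem Up_Ev_unique {w : Fin 2 → ℂ} (hw : w ≠ 0) {A : SL2} {a b : ℂ} (hA : Up_Ev w A a)
    (hB : Up_Ev w A b) : a = b := by
  unfold Up_Ev at *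
  rw [hA] at hB
  exact smul_left_injective ℂ hw hB

theorem Up_Ev_inv {w : Fin 2 → ℂ} (hw : w ≠ 0) {A : SL2} {a : ℂ} (hA : Up_Ev w A a) :
    a ≠ 0 ∧ Up_Ev w A⁻¹ a⁻¹ := by
  have h0 : A⁻¹.1.mulVec (A.1.mulVec w) = w := by
    rw [Matrix.mulVec_mulVec]
    have : A⁻¹.1 * A.1 = (A⁻¹ * A).1 := rfl
    rw [this, inv_mul_cancel]
    exact Matrix.one_mulVec w
  unfold Up_Ev at *
  rw [hA, Matrix.mulVec_smul] at h0
  have ha : a ≠ 0 := by
    rintro rfl
    rw [zero_smul] at h0
    exact hw h0.symm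
  refine ⟨ha, ?_⟩
  have h1 := congrArg (fun v => a⁻¹ • v) h0
  simp only [smul_smul, inv_mul_cancel₀ ha, one_smul] at h1
  exact h1

theorem Up_Ev_pow {w : Fin 2 → ℂ} {A : SL2} {a : ℂ} (hA : Up_Ev w A a) (n : ℕ) :
    Up_Ev w (A ^ n) (a ^ n) := by
  induction n with
  | zero => rw [pow_zero, pow_zero]; exact Up_Ev_one w
  | succ n ih => rw [pow_succ, pow_succ]; exact Up_Ev_mul ih hA

theorem Up_Ev_zpow {w : Fin 2 → ℂ} (hw : w ≠ 0) {A : SL2} {a : ℂ} (hA : Up_Ev w A a) (n : ℤ) :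
    Up_Ev w (A ^ n) (a ^ n) := by
  cases n with
  | ofNat n => rw [Int.ofNat_eq_natCast, zpow_natCast, zpow_natCast]; exact Up_Ev_pow hA n
  | negSucc n =>
    rw [zpow_negSucc, zpow_negSucc]
    exact (Up_Ev_inv hw (Up_Ev_pow hA (n + 1))).2

theorem Up_alg {G : Type} [CommGroup G] (a b r s : ℤ) (h : a * s - b * r = 1) (m' l' ξ m l : G)
    (hm : m = m' ^ a * l' ^ b * ξ ^ (-b)) (hξ : ξ ^ s = m' ^ r * l' ^ s)
    (hl : l = ξ ^ s * m ^ (-(r * s))) : m ^ s = m' ∧ l = l' ^ s := by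
  have h1 : m ^ s = m' := by
    have e1 : m ^ s = m' ^ (a * s) * l' ^ (b * s) * (ξ ^ s) ^ (-b) := by
      rw [hm, mul_zpow, mul_zpow, ← zpow_mul, ← zpow_mul, ← zpow_mul, ← zpow_mul, mul_comm (-b) s]
    rw [e1, hξ, mul_zpow, ← zpow_mul, ← zpow_mul]
    have e2 : m' ^ (a * s) * l' ^ (b * s) * (m' ^ (r * -b) * l' ^ (s * -b)) =
        m' ^ (a * s) * m' ^ (r * -b) * (l' ^ (b * s) * l' ^ (s * -b)) := by
      rw [mul_mul_mul_comm]
    rw [e2, ← zpow_add, ← zpow_add]
    have e3 : a * s + r * -b = 1 := by rw [← h]; ring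
    have e4 : b * s + s * -b = 0 := by ring
    rw [e3, e4, zpow_one, zpow_zero, mul_one]
  refine ⟨h1, ?_⟩
  have e1 : m ^ (-(r * s)) = (m ^ s) ^ (-r) := by rw [← zpow_mul]; congr 1; ring
  rw [hl, e1, h1, hξ, mul_right_comm, ← zpow_add, add_neg_cancel, zpow_zero, one_mul]

theorem Up_alg0 (a b r s : ℤ) (h : a * s - b * r = 1) (m' l' ξ m l : ℂ) (hm' : m' ≠ 0)
    (hl' : l' ≠ 0) (hξ0 : ξ ≠ 0) (hm : m = m' ^ a * l' ^ b * ξ ^ (-b))
    (hξ : ξ ^ s = m' ^ r * l' ^ s) (hl : l = ξ ^ s * m ^ (-(r * s))) : m ^ s = m' ∧ l = l' ^ s := by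
  have hm0 : m ≠ 0 := by
    rw [hm]; exact mul_ne_zero (mul_ne_zero (zpow_ne_zero _ hm') (zpow_ne_zero _ hl'))
      (zpow_ne_zero _ hξ0)
  have hl0 : l ≠ 0 := by
    rw [hl]; exact mul_ne_zero (zpow_ne_zero _ hξ0) (zpow_ne_zero _ hm0)
  have := Up_alg a b r s h (Units.mk0 m' hm') (Units.mk0 l' hl') (Units.mk0 ξ hξ0)
    (Units.mk0 m hm0) (Units.mk0 l hl0) (by ext; simpa using hm) (by ext; simpa using hξ)
    (by ext; simpa using hl)
  obtain ⟨h1, h2⟩ := this
  exact ⟨by simpa using congrArg Units.val h1, by simpa using congrArg Units.val h2⟩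

theorem Up_one_mem (K : GK) : ((1 : ℤˣ), (0 : ℤ)) ∈ K.Lab := by
  induction K with
  | unknot => exact Finset.mem_singleton_self _
  | cable r s K ih =>
    refine Finset.mem_union_right _ (Finset.mem_image.mpr ⟨_, ih, ?_⟩)
    simp
  | sum K L ihK ihL =>
    refine Finset.mem_image₂.mpr ⟨_, ihK, _, ihL, ?_⟩
    simp

/-- powers of commuting elements -/
theorem Up_comm_alg {G : Type} [Group G] {A L P Q : G} (hAL : A * L = L * A) (a b r s : ℤ)
    (h : a * s - b * r = 1) (hP : P = A ^ a * L ^ b) (hQ : Q = A ^ r * L ^ s) :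
    A = P ^ s * Q ^ (-b) ∧ L = P ^ (-r) * Q ^ a := by
  have hc : Commute A L := hAL
  have e1 : ∀ k : ℤ, P ^ k = A ^ (a * k) * L ^ (b * k) := fun k => by
    rw [hP, (hc.zpow_zpow a b).mul_zpow, ← zpow_mul, ← zpow_mul]
  have e2 : ∀ k : ℤ, Q ^ k = A ^ (r * k) * L ^ (s * k) := fun k => by
    rw [hQ, (hc.zpow_zpow r s).mul_zpow, ← zpow_mul, ← zpow_mul]
  have e3 : ∀ i j k l : ℤ, A ^ i * L ^ j * (A ^ k * L ^ l) = A ^ (i + k) * L ^ (j + l) := by
    intro i j k l
    rw [mul_assoc, ← mul_assoc (L ^ j), ← (hc.zpow_zpow k j).eq, mul_assoc, ← mul_assoc (A ^ i),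
      ← zpow_add, ← zpow_add]
  constructor
  · rw [e1, e2, e3]
    have h1 : a * s + r * -b = 1 := by rw [← h]; ring
    have h2 : b * s + s * -b = 0 := by ring
    rw [h1, h2, zpow_one, zpow_zero, mul_one]
  · rw [e1, e2, e3]
    have h1 : a * -r + r * a = 0 := by ring
    have h2 : b * -r + s * a = 1 := by rw [← h]; ring
    rw [h1, h2, zpow_one, zpow_zero, one_mul]

theorem Up_proof (h1 : S_EigComm) (h2 : S_SqOne) (h3 : S_CableRes) (h4 : S_SumRes)
    (h5 : S_PerComm) (h6 : S_Central) : S_Up := by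
  intro K
  induction K with
  | unknot =>
    rintro - ⟨m, l⟩ ⟨ρ, w, hw, hm, hl⟩
    refine ⟨(Up_Ev_inv hw (A := ρ GK.unknot.group.mer) hm).1, (1, 0), Up_one_mem _, ?_⟩
    have e1 : ρ GK.unknot.group.lon = 1 := map_one ρ
    have e2 : Up_Ev w (1 : SL2) l := by rw [← e1]; exact hl
    have e3 := Up_Ev_unique hw e2 (Up_Ev_one w)
    simp [e3]
  | cable r s K ih =>
    rintro ⟨hK, hs, hrs, -⟩ ⟨m, l⟩ ⟨ρ', w, hw, hm, hl⟩
    obtain ⟨ρ, V, hV, hmer, hlon⟩ := h3 r s K.group ρ'
    set A : SL2 := ρ K.group.mer with hA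
    set L : SL2 := ρ K.group.lon with hL
    have hAL : A * L = L * A := by
      rw [hA, hL, ← map_mul, ← map_mul, h5 K]
    set a : ℤ := Int.gcdB r s with ha
    set g : ℤ := Int.gcdA r s with hg
    obtain ⟨MM, LL, hm, hl, hmer, hlon⟩ : ∃ MM LL : SL2, Up_Ev w MM m ∧ Up_Ev w LL l ∧
        MM = A ^ a * L ^ (-g) * V ^ g ∧ LL = V ^ s * MM ^ (-(r * s : ℤ)) :=
      ⟨_, _, hm, hl, hmer, hlon⟩
    have hab : a * s - (-g) * r = 1 := by
      have e1 := Int.gcd_eq_gcd_ab r s
      have e2 : (Int.gcd r s : ℤ) = 1 := by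
        rw [Int.isCoprime_iff_gcd_eq_one.mp hrs]; rfl
      rw [e2, ← ha, ← hg] at e1
      linarith
    have hm0 : m ≠ 0 := (Up_Ev_inv hw hm).1
    have hH : Up_Ev w (V ^ s) (l * m ^ (r * s : ℤ)) := by
      have e1 : V ^ s = LL * MM ^ (r * s : ℤ) := by
        rw [hlon, mul_assoc, ← zpow_add, neg_add_cancel, zpow_zero, mul_one]
      rw [e1]
      exact Up_Ev_mul hl (Up_Ev_zpow hw hm _)
    have hlabel : ∀ z ∈ K.Lab, (z.1 ^ s, z.2 * (s : ℤ) ^ 2) ∈ (GK.cable r s K).Lab := fun z hz =>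
      Finset.mem_union_right _ (Finset.mem_image.mpr ⟨z, hz, rfl⟩)
    -- the common end of the cases (ii) and (iii)
    have key : ∀ (ξ m' l' : ℂ), Up_Ev w V ξ → Up_Ev w A m' → Up_Ev w L l' →
        ∃ z ∈ (GK.cable r s K).Lab, l = ((z.1 : ℤ) : ℂ) * m ^ z.2 := by
      intro ξ m' l' hξ hm' hl'
      have n1 := (Up_Ev_inv hw hξ).1
      have n2 := (Up_Ev_inv hw hm').1
      have n3 := (Up_Ev_inv hw hl').1
      have q1 : m = m' ^ a * l' ^ (-g) * ξ ^ (-(-g)) := by
        refine Up_Ev_unique hw hm ?_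
        rw [hmer, neg_neg]
        exact Up_Ev_mul (Up_Ev_mul (Up_Ev_zpow hw hm' _) (Up_Ev_zpow hw hl' _))
          (Up_Ev_zpow hw hξ _)
      have q2 : ξ ^ (s : ℤ) = m' ^ r * l' ^ (s : ℤ) := by
        refine Up_Ev_unique hw (Up_Ev_zpow hw hξ _) ?_
        rw [zpow_natCast, hV]
        rw [zpow_natCast]
        exact Up_Ev_mul (Up_Ev_zpow hw hm' _) (Up_Ev_pow hl' _)
      have q3 : l = ξ ^ (s : ℤ) * m ^ (-(r * s : ℤ)) := by
        refine Up_Ev_unique hw hl ?_
        rw [hlon, ← zpow_natCast V s]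
        exact Up_Ev_mul (Up_Ev_zpow hw hξ _) (Up_Ev_zpow hw hm _)
      obtain ⟨q4, q5⟩ := Up_alg0 a (-g) r s hab m' l' ξ m l n2 n3 n1 q1 q2 q3
      obtain ⟨-, z, hz, hz'⟩ := ih hK (show (m', l') ∈ EigSet K.group from ⟨ρ, w, hw, hm', hl'⟩)
      refine ⟨_, hlabel z hz, ?_⟩
      simp only at hz'
      rw [q5, hz', ← q4, mul_zpow, ← zpow_mul, ← zpow_mul]
      congr 1
      · push_cast
        rw [zpow_natCast]
      · congr 1; ring
    refine ⟨hm0, ?_⟩
    show ∃ z ∈ (GK.cable r s K).Lab, l = ((z.1 : ℤ) : ℂ) * m ^ z.2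
    by_cases hH1 : V ^ s = 1 ∨ V ^ s = -1
    · by_cases hV1 : V = 1 ∨ V = -1
      · -- case (iii)
        have hVw : ∃ ξ, Up_Ev w V ξ := by
          rcases hV1 with e | e
          · exact ⟨1, by rw [e]; exact Up_Ev_one w⟩
          · exact ⟨-1, by rw [e]; exact Up_Ev_neg w⟩
        obtain ⟨ξ, hξ⟩ := hVw
        set P : SL2 := A ^ a * L ^ (-g) with hP
        have hPw : Up_Ev w P (m * ξ ^ (-g)) := by
          have e1 : P = MM * V ^ (-g) := by
            rw [hmer, mul_assoc, ← zpow_add, add_neg_cancel, zpow_zero, mul_one]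
          rw [e1]
          exact Up_Ev_mul hm (Up_Ev_zpow hw hξ _)
        have hQw := hH
        have hQ : V ^ s = A ^ r * L ^ (s : ℤ) := by rw [hV, zpow_natCast]
        obtain ⟨c1, c2⟩ := Up_comm_alg hAL a (-g) r s hab hP hQ
        have w1 := Up_Ev_mul (Up_Ev_zpow hw hPw s) (Up_Ev_zpow hw hQw (-(-g)))
        have w2 := Up_Ev_mul (Up_Ev_zpow hw hPw (-r)) (Up_Ev_zpow hw hQw a)
        rw [← c1] at w1
        rw [← c2] at w2
        exact key _ _ _ hξ w1 w2
      · -- case (i)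
        have hδ : ∃ δ : ℤˣ, Up_Ev w (V ^ s) ((δ : ℤ) : ℂ) ∧
            (δ, -(r * s : ℤ)) ∈ (GK.cable r s K).Lab := by
          by_cases hs2 : s = 2
          · subst hs2
            have e1 : V ^ 2 = -1 := by
              rcases hH1 with e | e
              · exact absurd (h2 V e) hV1
              · exact e
            refine ⟨-1, ?_, ?_⟩
            · rw [e1]; simpa using Up_Ev_neg w
            · refine Finset.mem_union_left _ ?_
              simp
          · rcases hH1 with e | e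
            · refine ⟨1, ?_, ?_⟩
              · rw [e]; simpa using Up_Ev_one w
              · refine Finset.mem_union_left _ ?_
                simp [hs2]
            · refine ⟨-1, ?_, ?_⟩
              · rw [e]; simpa using Up_Ev_neg w
              · refine Finset.mem_union_left _ ?_
                simp [hs2]
        obtain ⟨δ, hδ1, hδ2⟩ := hδ
        refine ⟨_, hδ2, ?_⟩
        refine Up_Ev_unique hw hl ?_
        rw [hlon]
        exact Up_Ev_mul hδ1 (Up_Ev_zpow hw hm _)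
    · -- case (ii)
      rw [not_or] at hH1
      have hcA : V ^ s * A = A * V ^ s := by
        rw [hV]
        have hc : Commute A L := hAL
        have : Commute A (A ^ r * L ^ s) := (Commute.zpow_right (Commute.refl A) r).mul_right
          (hc.pow_right s)
        exact this.eq.symm
      have hcL : V ^ s * L = L * V ^ s := by
        rw [hV]
        have hc : Commute L A := hAL.symm
        have : Commute L (A ^ r * L ^ s) := (hc.zpow_right r).mul_right
          (Commute.pow_right (Commute.refl L) s)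
        exact this.eq.symm
      have hcV : V ^ s * V = V * V ^ s := (pow_mul_comm' V s)
      obtain ⟨ξ, hξ⟩ := h1 (V ^ s) V w _ hw hH1.1 hH1.2 hcV hH
      obtain ⟨m', hm'⟩ := h1 (V ^ s) A w _ hw hH1.1 hH1.2 hcA hH
      obtain ⟨l', hl'⟩ := h1 (V ^ s) L w _ hw hH1.1 hH1.2 hcL hH
      exact key ξ m' l' hξ hm' hl'
  | sum K L ihK ihL =>
    rintro ⟨hK, hL⟩ ⟨m, l⟩ ⟨ρ', w, hw, hm, hl⟩
    obtain ⟨ρ₁, ρ₂, h12, hmer, hlon⟩ := h4 K.group L.group ρ'
    obtain ⟨MM, LL, hm, hl, hmer, hlon⟩ : ∃ MM LL : SL2, Up_Ev w MM m ∧ Up_Ev w LL l ∧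
        MM = ρ₁ K.group.mer ∧ LL = ρ₁ K.group.lon * ρ₂ L.group.lon :=
      ⟨_, _, hm, hl, hmer, hlon⟩
    subst hmer hlon
    have hm0 : m ≠ 0 := (Up_Ev_inv hw hm).1
    refine ⟨hm0, ?_⟩
    show ∃ z ∈ (GK.sum K L).Lab, l = ((z.1 : ℤ) : ℂ) * m ^ z.2
    by_cases hA : ρ₁ K.group.mer = 1 ∨ ρ₁ K.group.mer = -1
    · have e1 := h6 K hK ρ₁ hA
      have e2 := h6 L hL ρ₂ (h12 ▸ hA)
      rw [e1, e2, one_mul] at hl
      refine ⟨(1, 0), Up_one_mem _, ?_⟩
      have e3 := Up_Ev_unique hw hl (Up_Ev_one w)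
      simp [e3]
    · rw [not_or] at hA
      have c1 : ρ₁ K.group.mer * ρ₁ K.group.lon = ρ₁ K.group.lon * ρ₁ K.group.mer := by
        rw [← map_mul, ← map_mul, h5 K]
      have c2 : ρ₁ K.group.mer * ρ₂ L.group.lon = ρ₂ L.group.lon * ρ₁ K.group.mer := by
        rw [h12, ← map_mul, ← map_mul, h5 L]
      obtain ⟨l1, hl1⟩ := h1 _ _ w _ hw hA.1 hA.2 c1 hm
      obtain ⟨l2, hl2⟩ := h1 _ _ w _ hw hA.1 hA.2 c2 hm
      have e1 : l = l1 * l2 := Up_Ev_unique hw hl (Up_Ev_mul hl1 hl2)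
      obtain ⟨-, z, hz, hz'⟩ := ihK hK (show (m, l1) ∈ EigSet K.group from ⟨ρ₁, w, hw, hm, hl1⟩)
      obtain ⟨-, y, hy, hy'⟩ := ihL hL (show (m, l2) ∈ EigSet L.group from
        ⟨ρ₂, w, hw, by rw [← h12]; exact hm, hl2⟩)
      refine ⟨(z.1 * y.1, z.2 + y.2), Finset.mem_image₂.mpr ⟨z, hz, y, hy, rfl⟩, ?_⟩
      simp only at hz' hy'
      rw [e1, hz', hy', zpow_add₀ hm0]
      push_cast
      ring

end AJG

end

section

/-!
# MP_d3fa71_gt, item VRoot: roots of central elements with non central powers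
-/

open Polynomial

namespace AJG

/-- The diagonal matrices. -/
noncomputable def VRoot_d : ℂˣ →* SL2 where
  toFun u := ⟨!![(u : ℂ), 0; 0, ((u⁻¹ : ℂˣ) : ℂ)], by
    rw [Matrix.det_fin_two_of]
    simp⟩
  map_one' := by
    apply Subtype.ext
    ext i j
    fin_cases i <;> fin_cases j <;> simp
  map_mul' u v := by
    apply Subtype.ext
    ext i j
    fin_cases i <;> fin_cases j <;> simp [Matrix.mul_apply, Fin.sum_univ_two, mul_comm]

theorem VRoot_d00 (u : ℂˣ) : (VRoot_d u).1 0 0 = (u : ℂ) := rfl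

theorem VRoot_d_one {u : ℂˣ} (h : VRoot_d u = 1) : u = 1 := by
  have h1 : (VRoot_d u).1 0 0 = (1 : SL2).1 0 0 := by rw [h]
  rw [VRoot_d00] at h1
  ext
  simpa using h1

theorem VRoot_d_neg : VRoot_d (-1) = -1 := by
  apply Subtype.ext
  ext i j
  fin_cases i <;> fin_cases j <;> simp [VRoot_d]

theorem VRoot_sq {V : SL2} (b : ℤ) (h : V ^ b = 1 ∨ V ^ b = -1) : V ^ (2 * b) = 1 := by
  rw [mul_comm, zpow_mul]
  rcases h with h | h
  · rw [h, one_zpow]
  · rw [h, zpow_ofNat]
    apply Subtype.ext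
    simp

theorem VRoot_proof : S_VRoot := by
  intro s δ hs hδ
  rcases Int.units_eq_one_or δ with rfl | rfl
  · -- `δ = 1`
    have hs3 : s ≠ 2 := fun h => by
      have := hδ h
      exact absurd this (by decide)
    have hs0 : s ≠ 0 := by omega
    have hp := Complex.isPrimitiveRoot_exp s hs0
    set u : ℂˣ := Units.mk0 (Complex.exp (2 * Real.pi * Complex.I / s)) (Complex.exp_ne_zero _)
      with hu
    have hpu : IsPrimitiveRoot u s := by
      rw [← IsPrimitiveRoot.coe_units_iff]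
      exact hp
    refine ⟨VRoot_d u, ?_, ?_⟩
    · rw [← map_pow, hpu.pow_eq_one, map_one]
      simp [sg]
    · intro b hb
      have key : ¬ ((VRoot_d u) ^ b = 1 ∨ (VRoot_d u) ^ b = -1) := by
        intro h
        have h1 := VRoot_sq b h
        rw [← map_zpow] at h1
        have h2 := VRoot_d_one h1
        rw [hpu.zpow_eq_one_iff_dvd] at h2
        have h3 : (s : ℤ) ∣ 2 := hb.symm.dvd_of_dvd_mul_right h2
        have h4 := Int.le_of_dvd (by norm_num) h3
        omega
      exact ⟨fun h => key (Or.inl h), fun h => key (Or.inr h)⟩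
  · -- `δ = -1`
    have hs0 : 2 * s ≠ 0 := by omega
    have hp := Complex.isPrimitiveRoot_exp (2 * s) hs0
    set u : ℂˣ := Units.mk0 (Complex.exp (2 * Real.pi * Complex.I / ((2 * s : ℕ) : ℂ)))
      (Complex.exp_ne_zero _) with hu
    have hpu : IsPrimitiveRoot u (2 * s) := by
      rw [← IsPrimitiveRoot.coe_units_iff]
      exact hp
    have hus : u ^ s = -1 := by
      have h1 : (u ^ s) ^ 2 = 1 := by
        rw [← pow_mul, mul_comm, hpu.pow_eq_one]
      have h2 : u ^ s ≠ 1 := by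
        intro h
        have h3 := (hpu.pow_eq_one_iff_dvd s).1 h
        have h4 := Nat.le_of_dvd (by omega) h3
        omega
      have h5 : ((u ^ s : ℂˣ) : ℂ) ^ 2 = 1 := by
        rw [← Units.val_pow_eq_pow_val, h1, Units.val_one]
      rcases sq_eq_one_iff.mp h5 with h | h
      · exact absurd (Units.ext h) h2
      · exact Units.ext h
    refine ⟨VRoot_d u, ?_, ?_⟩
    · rw [← map_pow, hus, VRoot_d_neg]
      have : (-1 : ℤˣ) ≠ 1 := by decide
      simp [sg, this]
    · intro b hb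
      have key : ¬ ((VRoot_d u) ^ b = 1 ∨ (VRoot_d u) ^ b = -1) := by
        intro h
        have h1 := VRoot_sq b h
        rw [← map_zpow] at h1
        have h2 := VRoot_d_one h1
        rw [hpu.zpow_eq_one_iff_dvd] at h2
        have h3 : (s : ℤ) ∣ b := by
          push_cast at h2
          exact Int.dvd_of_mul_dvd_mul_left (by norm_num) h2
        have h4 : IsUnit (s : ℤ) := hb.symm.isUnit_of_dvd' dvd_rfl h3
        rw [Int.isUnit_iff] at h4
        omega
      exact ⟨fun h => key (Or.inl h), fun h => key (Or.inr h)⟩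

end AJG

end
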