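import Pool.Agent.Work.MP_d3fa71_gt.Mut.Bd.B07
import Pool.Agent.Work.MP_d3fa71_gt.Mut.Bd.B08
import Pool.Agent.Work.MP_d3fa71_gt.Mut.Bd.B01

/-! Bundle of small proof modules (one section per former module). -/

section

/-! Bundle of small proof modules (one section per former module). -/

section

/-!
# MP_d3fa71_gt, project Mut, item CVg
-/

set_option autoImplicit false

namespace AJM

theorem prf_CVg (hCTws : CTws) (hCComp : CComp) (hCRot : CRot) : CVg := by
  intro j' j n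
  have h1 : CX (rot (tws (2 * (j' : ℤ) + 1))) := ((hCRot _).2.2 (hCTws j').2).1
  have h2 : C0 (tws (2 * (n : ℤ))) := (hCTws n).1
  have h3 : CX (rot (tws (2 * (j : ℤ) + 1))) := ((hCRot _).2.2 (hCTws j).2).1
  have h4 := (hCComp _ _).2.2.2.1 h1 h2
  have h5 := (hCComp _ _).2.2.2.2 h4 h3
  exact ((hCRot _).1 h5).1

end AJM

end

section

/-!
# MP_d3fa71_gt, project Mut, block Q: the cap is an intertwiner
-/

open Matrix
open scoped Kronecker

namespace AJM

theorem L_CapInt_sum (n : ℕ) (M : Matrix (Fin n × Fin n) (Fin n × Fin n) (RatFunc ℚ))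
    (q : Fin n × Fin n) :
    (capv n ᵥ* M) q = ∑ a : Fin n, (cc n a.rev)⁻¹ * M (a, a.rev) q := by
  simp only [Matrix.vecMul, dotProduct, Fintype.sum_prod_type, capv, ite_mul, zero_mul]
  refine Finset.sum_congr rfl fun a _ => ?_
  rw [Finset.sum_ite_eq']
  simp

theorem L_CapInt_cc (h0 : tq ≠ 0) (n : ℕ) (x y : Fin n) (h : (y : ℕ) = x + 1) :
    cc n y = -(cc n x * tq ^ (2 * wt n y)) := by
  unfold cc wt
  have e : 2 * (((y : ℕ) : ℕ) : ℤ) * ((n : ℤ) - 2 - ((y : ℕ) : ℤ)) =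
      2 * ((x : ℕ) : ℤ) * ((n : ℤ) - 2 - ((x : ℕ) : ℤ)) +
        2 * ((n : ℤ) - 1 - 2 * ((y : ℕ) : ℤ)) := by
    rw [h]
    push_cast
    ring
  rw [e, zpow_add₀ h0, h, pow_succ]
  ring

theorem L_CapInt_cc0 (h0 : tq ≠ 0) (n : ℕ) (x : Fin n) : cc n x ≠ 0 := by
  unfold cc
  exact mul_ne_zero (pow_ne_zero _ (by norm_num)) (zpow_ne_zero _ h0)

theorem L_CapInt_rev (n : ℕ) (x : Fin n) : ((x.rev : Fin n) : ℕ) = n - (x + 1) := Fin.val_rev x

theorem prf_CapInt (hQIne : QIne) : CapInt := by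
  obtain ⟨h0, -, -, -⟩ := hQIne
  intro n
  refine ⟨?_, ?_, ?_⟩
  · funext q
    obtain ⟨i, j⟩ := q
    rw [L_CapInt_sum]
    have e : ∀ a : Fin n, (cc n a.rev)⁻¹ * DE n (a, a.rev) (i, j) =
        (if a = i then (cc n i.rev)⁻¹ * Em n i.rev j else 0) +
        (if a = j.rev then (cc n j)⁻¹ * (Em n j.rev i * tq ^ (2 * wt n j)) else 0) := by
      intro a
      simp only [DE, Matrix.add_apply, Matrix.kroneckerMap_apply, Matrix.one_apply, Km,
        Matrix.diagonal_apply]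
      by_cases h1 : a = i
      · subst h1
        by_cases h2 : a = j.rev
        · subst h2
          simp [mul_add]
        · have h3 : a.rev ≠ j := fun h => h2 (by rw [← h, Fin.rev_rev])
          simp [h2, h3]
      · by_cases h2 : a = j.rev
        · subst h2
          simp [h1]
        · have h3 : a.rev ≠ j := fun h => h2 (by rw [← h, Fin.rev_rev])
          simp [h1, h2, h3]
    rw [Finset.sum_congr rfl fun a _ => e a, Finset.sum_add_distrib, Finset.sum_ite_eq',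
      Finset.sum_ite_eq']
    simp only [Finset.mem_univ, if_true, Em, Matrix.of_apply, L_CapInt_rev]
    have hi := i.isLt
    have hj := j.isLt
    by_cases hij : (i : ℕ) + j = n
    · have h1 : n - ((i : ℕ) + 1) + 1 = j := by omega
      have h2 : n - ((j : ℕ) + 1) + 1 = i := by omega
      rw [if_pos h1, if_pos h2]
      have h3 : n - (j : ℕ) = i := by omega
      have h4 : n - (i : ℕ) = j := by omega
      rw [h3, h4]
      have h5 := L_CapInt_cc h0 n i.rev j (by rw [L_CapInt_rev]; omega)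
      have h6 := L_CapInt_cc0 h0 n i.rev
      have h7 : tq ^ (2 * wt n j) ≠ 0 := zpow_ne_zero _ h0
      rw [h5, Pi.zero_apply]
      field_simp
      ring
    · have h1 : ¬ (n - ((i : ℕ) + 1) + 1 = j) := by omega
      have h2 : ¬ (n - ((j : ℕ) + 1) + 1 = i) := by omega
      rw [if_neg h1, if_neg h2]
      simp
  · funext q
    obtain ⟨i, j⟩ := q
    rw [L_CapInt_sum]
    have e : ∀ a : Fin n, (cc n a.rev)⁻¹ * DF n (a, a.rev) (i, j) =
        (if a = i then (cc n i.rev)⁻¹ * (tq ^ (-(2 * wt n i)) * Fm n i.rev j) else 0) +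
        (if a = j.rev then (cc n j)⁻¹ * Fm n j.rev i else 0) := by
      intro a
      simp only [DF, Matrix.add_apply, Matrix.kroneckerMap_apply, Matrix.one_apply, Ki,
        Matrix.diagonal_apply]
      by_cases h1 : a = i
      · subst h1
        by_cases h2 : a = j.rev
        · subst h2
          simp [mul_add]
        · have h3 : a.rev ≠ j := fun h => h2 (by rw [← h, Fin.rev_rev])
          simp [h2, h3]
      · by_cases h2 : a = j.rev
        · subst h2
          simp [h1]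
        · have h3 : a.rev ≠ j := fun h => h2 (by rw [← h, Fin.rev_rev])
          simp [h1, h2, h3]
    rw [Finset.sum_congr rfl fun a _ => e a, Finset.sum_add_distrib, Finset.sum_ite_eq',
      Finset.sum_ite_eq']
    simp only [Finset.mem_univ, if_true, Fm, Matrix.of_apply, L_CapInt_rev]
    have hi := i.isLt
    have hj := j.isLt
    by_cases hij : (i : ℕ) + j + 2 = n
    · have h1 : n - ((i : ℕ) + 1) = j + 1 := by omega
      have h2 : n - ((j : ℕ) + 1) = i + 1 := by omega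
      rw [if_pos h1, if_pos h2]
      have h5 := L_CapInt_cc h0 n j i.rev (by rw [L_CapInt_rev]; omega)
      have h6 := L_CapInt_cc0 h0 n j
      have h7 : tq ^ (2 * wt n i.rev) ≠ 0 := zpow_ne_zero _ h0
      have h8 : -(2 * wt n i) = 2 * wt n i.rev := by
        unfold wt
        rw [L_CapInt_rev]
        omega
      rw [h5, h8, Pi.zero_apply]
      field_simp
      ring
    · have h1 : ¬ (n - ((i : ℕ) + 1) = j + 1) := by omega
      have h2 : ¬ (n - ((j : ℕ) + 1) = i + 1) := by omega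
      rw [if_neg h1, if_neg h2]
      simp
  · funext q
    obtain ⟨i, j⟩ := q
    rw [L_CapInt_sum]
    have e : ∀ a : Fin n, (cc n a.rev)⁻¹ * DK n (a, a.rev) (i, j) =
        (if a = i then (if i.rev = j then
          (cc n i.rev)⁻¹ * (tq ^ (2 * wt n i) * tq ^ (2 * wt n i.rev)) else 0) else 0) := by
      intro a
      simp only [DK, Matrix.kroneckerMap_apply, Km, Matrix.diagonal_apply]
      by_cases h1 : a = i
      · subst h1
        by_cases h2 : a.rev = j
        · subst h2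
          simp
        · simp [h2]
      · simp [h1]
    rw [Finset.sum_congr rfl fun a _ => e a, Finset.sum_ite_eq']
    simp only [Finset.mem_univ, if_true, capv]
    by_cases h2 : i.rev = j
    · subst h2
      rw [if_pos rfl, if_pos rfl, ← zpow_add₀ h0]
      have h8 : 2 * wt n i + 2 * wt n i.rev = 0 := by
        have hi := i.isLt
        unfold wt
        rw [L_CapInt_rev]
        omega
      rw [h8, zpow_zero, mul_one]
    · rw [if_neg h2, if_neg (fun h => h2 h.symm)]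

end AJM

end

section

open Matrix
open scoped Kronecker

namespace AJM

lemma L_CapOp_single2 (n : ℕ) (a b : Fin n) (s : List (Fin n)) (r : RatFunc ℚ) :
    opm n (.cap, 0) (Finsupp.single (a :: b :: s) r) = Finsupp.single s (r * capv n (a, b)) := by
  unfold opm
  rw [Finsupp.linearCombination_single]
  have h : act n .cap 0 (a :: b :: s) =
      if b = a.rev then Finsupp.single s (cc n b)⁻¹ else 0 := rfl
  rw [h]
  unfold capv
  simp only
  split_ifs
  · rw [Finsupp.smul_single, smul_eq_mul]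
  · simp

lemma L_CapOp_nil (n : ℕ) (r : RatFunc ℚ) :
    opm n (.cap, 0) (Finsupp.single [] r) = 0 := by
  unfold opm
  rw [Finsupp.linearCombination_single]
  have h : act n .cap 0 [] = 0 := rfl
  rw [h, smul_zero]

lemma L_CapOp_one (n : ℕ) (x : Fin n) (r : RatFunc ℚ) :
    opm n (.cap, 0) (Finsupp.single [x] r) = 0 := by
  unfold opm
  rw [Finsupp.linearCombination_single]
  have h : act n .cap 0 [x] = 0 := rfl
  rw [h, smul_zero]

lemma L_CapOp_map (n : ℕ) (a b : Fin n) (f : TT n) :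
    opm n (.cap, 0) (Finsupp.mapDomain (fun z => a :: b :: z) f) = capv n (a, b) • f := by
  induction f using Finsupp.induction_linear with
  | zero => simp
  | add f g hf hg => rw [Finsupp.mapDomain_add, map_add, hf, hg, smul_add]
  | single s r =>
    rw [Finsupp.mapDomain_single, L_CapOp_single2, Finsupp.smul_single, smul_eq_mul, mul_comm]

lemma L_CapOp_sum (n : ℕ) (s : List (Fin n)) (g : Fin n × Fin n → RatFunc ℚ) :
    opm n (.cap, 0) (∑ p : Fin n × Fin n, Finsupp.single (p.1 :: p.2 :: s) (g p)) =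
      Finsupp.single s (∑ p, g p * capv n p) := by
  rw [map_sum, Finsupp.single_finsetSum]
  refine Finset.sum_congr rfl fun p _ => ?_
  rw [L_CapOp_single2]

lemma L_CapOp_wt (n : ℕ) (a : Fin n) : wt n a + wt n a.rev = 0 := by
  unfold wt
  rw [Fin.val_rev]
  have := a.2
  omega

lemma L_CapOp_capv (n : ℕ) (a b : Fin n) (e : ℤ) :
    tq ^ (e * (wt n a + wt n b)) * capv n (a, b) = capv n (a, b) := by
  unfold capv
  simp only
  split_ifs with h
  · rw [h, L_CapOp_wt]; simp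
  · simp

theorem prf_CapOp (_hQIne : QIne) (hEoTwo : EoTwo) (hCapInt : CapInt) : CapOp := by
  intro n
  obtain ⟨hE, hF, hK⟩ := hCapInt n
  refine ⟨?_, ?_, ?_⟩
  · refine Finsupp.lhom_ext' fun s => LinearMap.ext_ring ?_
    simp only [LinearMap.comp_apply, Finsupp.lsingle_apply]
    match s with
    | [] =>
      rw [L_CapOp_nil, map_zero]
      unfold Eo
      rw [Finsupp.linearCombination_single]
      simp [eL]
    | [x] =>
      rw [L_CapOp_one, map_zero]
      unfold Eo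
      rw [Finsupp.linearCombination_single]
      simp only [eL, Finsupp.mapDomain_zero, zero_add, one_smul, map_sum]
      exact Finset.sum_eq_zero fun y _ => L_CapOp_one _ _ _
    | a :: b :: s =>
      rw [L_CapOp_single2, one_mul]
      unfold Eo
      rw [Finsupp.linearCombination_single, Finsupp.linearCombination_single, one_smul,
        (hEoTwo n a b s).1, map_add, L_CapOp_map, L_CapOp_sum]
      have h : ∑ p : Fin n × Fin n, kk n s * DE n p (a, b) * capv n p = 0 := by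
        have := congrFun hE (a, b)
        simp only [Matrix.vecMul, dotProduct, Pi.zero_apply] at this
        rw [show (∑ p : Fin n × Fin n, kk n s * DE n p (a, b) * capv n p) =
          kk n s * ∑ p : Fin n × Fin n, capv n p * DE n p (a, b) by
            rw [Finset.mul_sum]; exact Finset.sum_congr rfl fun p _ => by ring, this, mul_zero]
      rw [h, Finsupp.single_zero, add_zero]
  · refine Finsupp.lhom_ext' fun s => LinearMap.ext_ring ?_
    simp only [LinearMap.comp_apply, Finsupp.lsingle_apply]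
    match s with
    | [] =>
      rw [L_CapOp_nil, map_zero]
      unfold Fo
      rw [Finsupp.linearCombination_single]
      simp [fL]
    | [x] =>
      rw [L_CapOp_one, map_zero]
      unfold Fo
      rw [Finsupp.linearCombination_single]
      simp only [fL, Finsupp.mapDomain_zero, smul_zero, zero_add, one_smul, map_sum]
      exact Finset.sum_eq_zero fun y _ => L_CapOp_one _ _ _
    | a :: b :: s =>
      rw [L_CapOp_single2, one_mul]
      unfold Fo
      rw [Finsupp.linearCombination_single, Finsupp.linearCombination_single, one_smul,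
        (hEoTwo n a b s).2.1, map_add, map_smul, L_CapOp_map, L_CapOp_sum]
      have h : ∑ p : Fin n × Fin n, DF n p (a, b) * capv n p = 0 := by
        have := congrFun hF (a, b)
        simp only [Matrix.vecMul, dotProduct, Pi.zero_apply] at this
        rw [← this]
        exact Finset.sum_congr rfl fun p _ => by ring
      rw [h, Finsupp.single_zero, add_zero, smul_smul]
      have h2 := L_CapOp_capv n a b (-2)
      rw [show (-2 : ℤ) * (wt n a + wt n b) = -(2 * (wt n a + wt n b)) by ring] at h2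
      rw [h2]
  · refine Finsupp.lhom_ext' fun s => LinearMap.ext_ring ?_
    simp only [LinearMap.comp_apply, Finsupp.lsingle_apply]
    match s with
    | [] =>
      rw [L_CapOp_nil, map_zero]
      unfold Ko
      rw [Finsupp.linearCombination_single, map_smul, L_CapOp_nil, smul_zero]
    | [x] =>
      rw [L_CapOp_one, map_zero]
      unfold Ko
      rw [Finsupp.linearCombination_single, map_smul, L_CapOp_one, smul_zero]
    | a :: b :: s =>
      rw [L_CapOp_single2, one_mul]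
      unfold Ko
      rw [Finsupp.linearCombination_single, Finsupp.linearCombination_single, one_smul,
        L_CapOp_single2, (hEoTwo n a b s).2.2, Finsupp.smul_single, smul_eq_mul]
      congr 1
      have h2 := L_CapOp_capv n a b 2
      calc tq ^ (2 * (wt n a + wt n b)) * kk n s * capv n (a, b)
          = kk n s * (tq ^ (2 * (wt n a + wt n b)) * capv n (a, b)) := by ring
        _ = capv n (a, b) * kk n s := by rw [h2]; ring

end AJM

end

section

open Matrix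
open scoped Kronecker

namespace AJM

theorem prf_CkRec (hQIne : QIne) : CkRec := by
  obtain ⟨ht, hs, hq, -⟩ := hQIne
  refine ⟨by simp [ck], fun k => ?_⟩
  have hP : (∏ i ∈ Finset.range k, qi (i + 1)) ≠ 0 :=
    Finset.prod_ne_zero_iff.mpr fun i _ => hq i
  have hk := hq k
  have e1 : (k + 1) * (k + 1 - 1) = k * (k - 1) + 2 * k := by
    rcases k with _ | k
    · rfl
    · simp only [Nat.add_sub_cancel]; ring
  have e2 : tq ^ (2 * (k : ℤ)) = tq ^ (2 * k) := by
    rw [← zpow_natCast]; push_cast; rfl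
  unfold ck
  rw [Finset.prod_range_succ, e1, e2, pow_add, ← sd]
  rw [div_mul_eq_mul_div, div_eq_iff (mul_ne_zero hP hk)]
  rw [div_mul_eq_mul_div, div_mul_eq_mul_div, div_mul_eq_mul_div, eq_div_iff hP]
  ring

end AJM

end

section

/-!
# MP_d3fa71_gt, project Mut: the coil
-/

namespace AJM

theorem Coil_fits_append : ∀ (w₁ w₂ : List Mv) (m m' m'' : ℕ), Fits w₁ m m' → Fits w₂ m' m'' →
    Fits (w₁ ++ w₂) m m'' := by
  intro w₁
  induction w₁ with
  | nil =>
    intro w₂ m m' m'' h1 h2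
    have : m = m' := h1
    subst this
    exact h2
  | cons a w ih =>
    intro w₂ m m' m'' h1 h2
    obtain ⟨kd, i⟩ := a
    cases kd with
    | cup => exact ⟨h1.1, ih w₂ _ _ _ h1.2 h2⟩
    | cap => exact ⟨h1.1, ih w₂ _ _ _ h1.2 h2⟩
    | pos => exact ⟨h1.1, ih w₂ _ _ _ h1.2 h2⟩
    | neg => exact ⟨h1.1, ih w₂ _ _ _ h1.2 h2⟩

section
variable {R : Type} [CommRing R]

theorem Coil_dg_mul (x y : Rˣ) : dg (x * y) = dg x * (dg y : G R) := by
  apply Subtype.ext
  show (dg (x * y) : G R).1 = (dg x : G R).1 * (dg y : G R).1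
  ext i j
  fin_cases i <;> fin_cases j <;>
    simp [dg, Matrix.mul_apply, Fin.sum_univ_two, mul_comm]

theorem Coil_dg_one : dg (1 : Rˣ) = (1 : G R) := by
  apply Subtype.ext
  ext i j
  fin_cases i <;> fin_cases j <;> simp [dg]

theorem Coil_dg_comm (x y : Rˣ) : dg x * dg y = dg y * (dg x : G R) := by
  rw [← Coil_dg_mul, mul_comm, Coil_dg_mul]

/-- the commutation of the power with `g` -/
theorem Coil_comm {M z : Rˣ} {ρ g : G R} {n : ℕ}
    (h : (mer M ρ * g) ^ n * ρ = ρ * dg z) : Commute ((mer M ρ * g) ^ n) g := by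
  have h1 : (mer M ρ * g) ^ n = ρ * dg z * ρ⁻¹ := by
    rw [← h, mul_assoc, mul_inv_cancel, mul_one]
  have h2 : Commute ((mer M ρ * g) ^ n) (mer M ρ) := by
    rw [h1]
    show ρ * dg z * ρ⁻¹ * (ρ * dg M * ρ⁻¹) = ρ * dg M * ρ⁻¹ * (ρ * dg z * ρ⁻¹)
    have e1 : ρ * dg z * ρ⁻¹ * (ρ * dg M * ρ⁻¹) = ρ * (dg z * dg M) * ρ⁻¹ := by group
    have e2 : ρ * dg M * ρ⁻¹ * (ρ * dg z * ρ⁻¹) = ρ * (dg M * dg z) * ρ⁻¹ := by group
    rw [e1, e2, Coil_dg_comm]
  have h3 : Commute ((mer M ρ * g) ^ n) (mer M ρ * g) := Commute.pow_left (Commute.refl _) n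
  have h4 := h2.inv_right.mul_right h3
  rwa [inv_mul_cancel_left] at h4

end

theorem prf_Coil (hNclInv : NclInvZ) (hFitsTw : FitsTw) (hPathAppend : PathAppend)
    (hPathRightInv : PathRightInv) (hPathProd : PathProd) (hFwInv : FwInv) : Coil := by
  intro F _ M k τ hpath
  have hK : Kw' k (fun _ => []) = Ncl (Tw ++ Fw k []) := rfl
  rw [hK] at hpath
  obtain ⟨ha, hb, α, β, τ', hp, hτ⟩ := hNclInv F M (Tw ++ Fw k []) τ
    (Coil_fits_append _ _ _ _ _ hFitsTw.1 (hFitsTw.2 k)) hpath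
  obtain ⟨s', τ₁, τ₂, hp1, hp2, hτ'⟩ := (hPathAppend F M Tw (Fw k []) _ _ τ').1 hp
  obtain ⟨s'', hs, hlen, -⟩ := hPathRightInv F M Tw [ha, hb] s' [] τ₁ 2 hFitsTw.1
    (by simpa using hp1)
  rw [List.append_nil] at hs
  subst hs
  obtain ⟨ha', hb', rfl⟩ := List.length_eq_two.1 hlen
  have hprod := hPathProd F M Tw _ _ τ₁ hp1
  simp only [List.map_cons, List.map_nil, List.prod_cons, List.prod_nil, mul_one] at hprod
  obtain ⟨ρ, z, hρ, hx, hy, hτ₂⟩ := hFwInv F M k ha' hb' _ _ τ₂ hp2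
  rw [← hprod] at hρ hx hy
  set g := mer M ha * mer M hb with hg
  have hc := Coil_comm hρ
  have hcg : Commute ((mer M ρ * g) ^ (2 * k)) g := hc
  refine ⟨ha, hb, ρ, z, hρ, ?_, ha', hb', τ₁, α * M ^ k, β * M ^ k, hp1, ?_, ?_, ?_⟩
  · have h1 : Commute (g ^ k) g := Commute.pow_left (Commute.refl g) k
    have h2 : Commute (g ^ (2 * k))⁻¹ g := (Commute.pow_left (Commute.refl g) (2 * k)).inv_left
    exact ((h1.mul_left hcg).mul_left h2).eq
  · have h3 : (M : Fˣ) ^ (-(k : ℤ)) * M ^ k = 1 := by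
      rw [zpow_neg, zpow_natCast, inv_mul_cancel]
    calc g ^ k * (mer M ρ * g) ^ (2 * k) * (g ^ (2 * k))⁻¹ * ha'
        = g ^ k * (mer M ρ * g) ^ (2 * k) * (g ^ (2 * k))⁻¹ * ha' *
            dg (M ^ (-(k : ℤ)) * M ^ k) := by rw [h3, Coil_dg_one, mul_one]
      _ = (g ^ k * (mer M ρ * g) ^ (2 * k) * (g ^ (2 * k))⁻¹ * ha' * dg (M ^ (-(k : ℤ)))) *
            dg (M ^ k) := by rw [Coil_dg_mul]; simp only [mul_assoc]
      _ = ha * dg (α * M ^ k) := by rw [← hx, Coil_dg_mul, mul_assoc]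
  · have h3 : (M : Fˣ) ^ (-(k : ℤ)) * M ^ k = 1 := by
      rw [zpow_neg, zpow_natCast, inv_mul_cancel]
    calc g ^ k * (mer M ρ * g) ^ (2 * k) * (g ^ (2 * k))⁻¹ * hb'
        = g ^ k * (mer M ρ * g) ^ (2 * k) * (g ^ (2 * k))⁻¹ * hb' *
            dg (M ^ (-(k : ℤ)) * M ^ k) := by rw [h3, Coil_dg_one, mul_one]
      _ = (g ^ k * (mer M ρ * g) ^ (2 * k) * (g ^ (2 * k))⁻¹ * hb' * dg (M ^ (-(k : ℤ)))) *
            dg (M ^ k) := by rw [Coil_dg_mul]; simp only [mul_assoc]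
      _ = hb * dg (β * M ^ k) := by rw [← hy, Coil_dg_mul, mul_assoc]
  · rw [hτ, hτ', hτ₂]
    have h4 : (M : Fˣ) ^ (-(2 * k : ℤ)) * M ^ (4 * k) = M ^ k * M ^ k := by
      rw [← zpow_natCast M (4 * k), ← zpow_add, ← zpow_natCast M k, ← zpow_add]
      congr 1
      push_cast
      ring
    calc τ₁ * (z * M ^ (-(2 * k : ℤ))) * α * β * M ^ (4 * k) * z⁻¹
        = τ₁ * α * β * (M ^ (-(2 * k : ℤ)) * M ^ (4 * k)) * (z * z⁻¹) := by
          simp only [mul_assoc, mul_comm, mul_left_comm]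
      _ = τ₁ * α * β * (M ^ k * M ^ k) := by rw [h4, mul_inv_cancel, mul_one]
      _ = τ₁ * (α * M ^ k) * (β * M ^ k) := by
          simp only [mul_assoc, mul_comm, mul_left_comm]

end AJM

end

section

/-!
# MP_d3fa71_gt, project Mut, block Z: the reversed column with gadget
-/

namespace AJM

theorem ColDown_mer {R : Type} [CommRing R] (M u : Rˣ) (g h : G R) :
    mer M (g * h * dg u) = g * mer M h * g⁻¹ := by
  rw [mer_dg, mer_mul]

theorem ColDown_frame {R : Type} [CommRing R] (M τ : Rˣ) (r : ℤ) (g h x : G R)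
    (e : g ^ (-r) * h * dg (M ^ r) = x * dg τ) :
    x = g ^ (-r) * (h * dg τ⁻¹) * dg (M ^ r) := by
  have e1 : x = g ^ (-r) * h * dg (M ^ r) * (dg τ)⁻¹ := by
    rw [e, mul_inv_cancel_right]
  rw [e1, ← dg_inv]
  simp only [mul_assoc]
  rw [dg_comm (M ^ r)]

theorem ColDown_back {R : Type} [CommRing R] (M : Rˣ) (r : ℤ) (g h : G R) :
    g ^ (-(-r)) * (g ^ (-r) * h * dg (M ^ r)) * dg (M ^ (-r)) = h := by
  rw [dg_zpow, dg_zpow]
  group

theorem ColDown_cap {R : Type} [CommRing R] (M : Rˣ) (x y k : G R) (s : List (G R)) :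
    Path M [(.cap, 2)] (x :: y :: k :: k * J :: s) (x :: y :: s) 1 := by
  have h1 : Step M (.cap, 0) (k :: k * J * dg 1 :: s) s 1 := Step.cap k 1 s
  rw [dg_one, mul_one] at h1
  have h2 := Path.cons (Step.sh x (Step.sh y h1)) (Path.nil (M := M) (x :: y :: s))
  rw [mul_one] at h2
  exact h2

theorem prf_ColDown (hPathAppend : PathAppend) (hPathShift : PathShift)
    (hTwsPath : TwsPath) : ColDown := by
  intro F _ M r v γ τ ha hb k s hv hne hE
  generalize hg : mer M hb * mer M k = g at hE ⊢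
  have e1 := ColDown_frame M τ r g hb (ha * J) hE
  have m1 : mer M (ha * J) * mer M (g ^ (-r) * k * dg (M ^ r)) = g := by
    rw [e1, ColDown_mer, ColDown_mer, mer_dg]
    calc g ^ (-r) * mer M hb * (g ^ (-r))⁻¹ * (g ^ (-r) * mer M k * (g ^ (-r))⁻¹)
        = g ^ (-r) * (mer M hb * mer M k) * (g ^ (-r))⁻¹ := by group
      _ = g := by rw [hg]; group
  have p1 := hTwsPath F M (-r) (ha * J) (g ^ (-r) * k * dg (M ^ r)) (k * J :: s)
  rw [m1, ColDown_back, show (2 * -r : ℤ) = -(2 * r) by ring] at p1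
  nth_rewrite 2 [e1] at p1
  rw [ColDown_back] at p1
  have p2 : Path M v (hb * dg τ⁻¹ :: k :: k * J :: s) (hb * dg τ⁻¹ :: k :: k * J :: s) γ := by
    apply hv
    rw [mer_dg]
    exact hne
  have p3 : Path M (tws (-(2 * r)) ++ v)
      (ha * J :: g ^ (-r) * k * dg (M ^ r) :: k * J :: s)
      (hb * dg τ⁻¹ :: k :: k * J :: s) γ :=
    (hPathAppend F M _ _ _ _ _).2 ⟨_, _, _, p1, p2, (one_mul γ).symm⟩
  have p4 : Path M (sh 1 (tws (-(2 * r)) ++ v))
      (ha :: ha * J :: g ^ (-r) * k * dg (M ^ r) :: k * J :: s)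
      (ha :: hb * dg τ⁻¹ :: k :: k * J :: s) γ :=
    (hPathShift F M _ [ha] _ _ _).2 ⟨_, rfl, p3⟩
  have p5 : Path M (sh 1 (tws (-(2 * r)) ++ v) ++ [(.cap, 2)])
      (ha :: ha * J :: g ^ (-r) * k * dg (M ^ r) :: k * J :: s)
      (ha :: hb * dg τ⁻¹ :: s) γ :=
    (hPathAppend F M _ _ _ _ _).2 ⟨_, _, _, p4, ColDown_cap M _ _ k s, (mul_one γ).symm⟩
  have p6 := Path.cons (Step.cup (M := M) ha (g ^ (-r) * k * dg (M ^ r) :: k * J :: s)) p5
  rw [one_mul] at p6
  exact p6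

end AJM

end

section

/-!
# MP_d3fa71_gt, project Mut, item ColRoot
-/

namespace AJM

theorem ColRoot_mer00 (M : ℂˣ) (x : ℂ) : (mer M (Tm x)).1 0 0 = M := by
  unfold mer
  simp only [G_mul00, G_mul01, G_mul10, G_mul11, G_inv00, G_inv01, G_inv10, G_inv11, dg00, dg01,
    dg10, dg11]
  simp [Tm]

theorem ColRoot_mer01 (M : ℂˣ) (x : ℂ) :
    (mer M (Tm x)).1 0 1 = x * (((M⁻¹ : ℂˣ) : ℂ) - M) := by
  unfold mer
  simp only [G_mul00, G_mul01, G_mul10, G_mul11, G_inv00, G_inv01, G_inv10, G_inv11, dg00, dg01,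
    dg10, dg11]
  simp [Tm]
  ring

theorem ColRoot_mer10 (M : ℂˣ) (x : ℂ) : (mer M (Tm x)).1 1 0 = 0 := by
  unfold mer
  simp only [G_mul00, G_mul01, G_mul10, G_mul11, G_inv00, G_inv01, G_inv10, G_inv11, dg00, dg01,
    dg10, dg11]
  simp [Tm]

theorem ColRoot_mer11 (M : ℂˣ) (x : ℂ) : (mer M (Tm x)).1 1 1 = ((M⁻¹ : ℂˣ) : ℂ) := by
  unfold mer
  simp only [G_mul00, G_mul01, G_mul10, G_mul11, G_inv00, G_inv01, G_inv10, G_inv11, dg00, dg01,
    dg10, dg11]
  simp [Tm]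

/-- The lower triangular frame. -/
def ColRoot_L (x : ℂ) : G ℂ := ⟨!![1, 0; x, 1], by simp [Matrix.det_fin_two_of]⟩

/-- The matrix `w`. -/
def ColRoot_w (M : ℂˣ) (Y ν β : ℂ) (h : ν * β = 2 - Y) : G ℂ :=
  ⟨!![Y - 1, -(ν * ((M⁻¹ : ℂˣ) : ℂ)); (M : ℂ) * β, 1], by
    rw [Matrix.det_fin_two_of]
    have e : (M : ℂ) * ((M⁻¹ : ℂˣ) : ℂ) = 1 := by simp
    linear_combination h + ν * β * e⟩

theorem ColRoot_core (hFrameUniq : FrameUniq) (M : ℂˣ) (r : ℤ) (hM : (M : ℂ) ^ 2 ≠ 1)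
    (Y ν β : ℂ) (hν : ν = ((M⁻¹ : ℂˣ) : ℂ) - M) (hν0 : ν ≠ 0) (hβ : ν * β = 2 - Y) (hY : Y ≠ 2)
    (hX : mer M (Tm (-((M : ℂ) ^ 2)⁻¹)) * (ColRoot_w M Y ν β hβ) ^ r =
      (ColRoot_w M Y ν β hβ) ^ r * (mer M (Tm 1))⁻¹) :
    ∃ (k : G ℂ) (τ : ℂˣ),
      mer M (Tm (-((M : ℂ) ^ 2)⁻¹)) * mer M k ≠ mer M k * mer M (Tm (-((M : ℂ) ^ 2)⁻¹)) ∧
      (mer M (Tm (-((M : ℂ) ^ 2)⁻¹)) * mer M k) ^ (-r) * Tm (-((M : ℂ) ^ 2)⁻¹) * dg (M ^ r) =
        Tm 1 * J * dg τ := by
  set w := ColRoot_w M Y ν β hβ with hw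
  set b := mer M (Tm (-((M : ℂ) ^ 2)⁻¹)) with hb
  have eM : (M : ℂ) * ((M⁻¹ : ℂˣ) : ℂ) = 1 := by simp
  have ht0 : (M : ℂ) ^ 2 ≠ 0 := pow_ne_zero _ (Units.ne_zero M)
  -- the meridian of `L`
  have hL : mer M (ColRoot_L (-(β / ν))) = mer M (Tm 1) * w := by
    unfold mer
    have hβν : β / ν * ν = β := div_mul_cancel₀ _ hν0
    ext
    · simp only [G_mul00, G_mul01, G_mul10, G_mul11, G_inv00, G_inv01, G_inv10, G_inv11, dg00,
        dg01, dg10, dg11]
      simp only [ColRoot_L, hw, ColRoot_w, Tm, Matrix.of_apply, Matrix.cons_val', Matrix.cons_val_zero,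
        Matrix.cons_val_one, Matrix.cons_val_fin_one]
      rw [hν] at hβ
      rw [hν]
      linear_combination (-(M : ℂ)) * hβ
    · simp only [G_mul00, G_mul01, G_mul10, G_mul11, G_inv00, G_inv01, G_inv10, G_inv11, dg00,
        dg01, dg10, dg11]
      simp only [ColRoot_L, hw, ColRoot_w, Tm, Matrix.of_apply, Matrix.cons_val', Matrix.cons_val_zero,
        Matrix.cons_val_one, Matrix.cons_val_fin_one]
      rw [hν]
      linear_combination (((M⁻¹ : ℂˣ) : ℂ) - M) * eM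
    · simp only [G_mul00, G_mul01, G_mul10, G_mul11, G_inv00, G_inv01, G_inv10, G_inv11, dg00,
        dg01, dg10, dg11]
      simp only [ColRoot_L, hw, ColRoot_w, Tm, Matrix.of_apply, Matrix.cons_val', Matrix.cons_val_zero,
        Matrix.cons_val_one, Matrix.cons_val_fin_one]
      have h1 : β / ν * (((M⁻¹ : ℂˣ) : ℂ) - M) = β := by rw [← hν]; exact hβν
      linear_combination h1 - β * eM
    · simp only [G_mul00, G_mul01, G_mul10, G_mul11, G_inv00, G_inv01, G_inv10, G_inv11, dg00,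
        dg01, dg10, dg11]
      simp only [ColRoot_L, hw, ColRoot_w, Tm, Matrix.of_apply, Matrix.cons_val', Matrix.cons_val_zero,
        Matrix.cons_val_one, Matrix.cons_val_fin_one]
      ring
  set k : G ℂ := w ^ r * ColRoot_L (-(β / ν)) with hk
  have hmk : mer M k = w ^ r * (mer M (Tm 1) * w) * (w ^ r)⁻¹ := by
    rw [hk, mer_mul, hL]
  have hbk : b * mer M k = w := by
    rw [hmk]
    calc b * (w ^ r * (mer M (Tm 1) * w) * (w ^ r)⁻¹)
        = (b * w ^ r) * (mer M (Tm 1) * w) * (w ^ r)⁻¹ := by group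
      _ = (w ^ r * (mer M (Tm 1))⁻¹) * (mer M (Tm 1) * w) * (w ^ r)⁻¹ := by rw [hX]
      _ = w := by group
  have hmh : mer M (w ^ (-r) * Tm (-((M : ℂ) ^ 2)⁻¹) * dg (M ^ r)) = mer M (Tm 1 * J) := by
    rw [mer_dg, mer_mul, ← hb, mer_J]
    calc w ^ (-r) * b * (w ^ (-r))⁻¹ = w ^ (-r) * (b * w ^ r) := by group
      _ = w ^ (-r) * (w ^ r * (mer M (Tm 1))⁻¹) := by rw [hX]
      _ = (mer M (Tm 1))⁻¹ := by group
  obtain ⟨τ, hτ⟩ := hFrameUniq ℂ M (Tm 1 * J) _ hM hmh.symm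
  refine ⟨k, τ, ?_, ?_⟩
  · intro hcomm
    have h1 : b * w = w * b := by
      calc b * w = b * (b * mer M k) := by rw [hbk]
        _ = (b * mer M k) * b := by rw [mul_assoc, ← hcomm]
        _ = w * b := by rw [hbk]
    have h2 := congrArg (fun z : G ℂ => z.1 0 0) h1
    simp only [G_mul00] at h2
    rw [hb, ColRoot_mer00, ColRoot_mer01, ColRoot_mer10] at h2
    simp only [hw, ColRoot_w, Matrix.of_apply, Matrix.cons_val', Matrix.cons_val_zero,
      Matrix.cons_val_one, Matrix.cons_val_fin_one] at h2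
    rw [← hν] at h2
    have h3 : ((M : ℂ) ^ 2)⁻¹ * (M : ℂ) * (2 - Y) = 0 := by
      linear_combination -h2 + (-(((M : ℂ) ^ 2)⁻¹ * (M : ℂ))) * hβ
    have h4 : ((M : ℂ) ^ 2)⁻¹ * (M : ℂ) ≠ 0 := mul_ne_zero (inv_ne_zero ht0) (Units.ne_zero M)
    have h5 : 2 - Y = 0 := (mul_eq_zero.1 h3).resolve_left h4
    exact hY (by linear_combination -h5)
  · rw [hbk]
    exact hτ

theorem prf_ColRoot (hFrameUniq : FrameUniq) : ColRoot := by
  intro M r hM4 hr
  have eM : (M : ℂ) * ((M⁻¹ : ℂˣ) : ℂ) = 1 := by simp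
  have hM0 : (M : ℂ) ≠ 0 := Units.ne_zero M
  have ht0 : (M : ℂ) ^ 2 ≠ 0 := pow_ne_zero _ hM0
  have hM : (M : ℂ) ^ 2 ≠ 1 := by
    intro h; apply hM4
    calc (M : ℂ) ^ 4 = ((M : ℂ) ^ 2) ^ 2 := by ring
      _ = 1 := by rw [h]; ring
  set ν : ℂ := ((M⁻¹ : ℂˣ) : ℂ) - M with hν
  have hν0 : ν ≠ 0 := by
    intro h
    apply hM
    have h1 : ((M⁻¹ : ℂˣ) : ℂ) = M := sub_eq_zero.1 h
    rw [h1] at eM
    rw [pow_two]; exact eM
  have hinv : ((M : ℂ) ^ 2)⁻¹ = ((M⁻¹ : ℂˣ) : ℂ) ^ 2 := by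
    rw [Units.val_inv_eq_inv_val, inv_pow]
  have et : (M : ℂ) ^ 2 * ((M⁻¹ : ℂˣ) : ℂ) ^ 2 = 1 := by
    rw [← mul_pow, eM, one_pow]
  -- entries of both sides, from `t X00 = X11`, `X10 = -X11`
  have key : ∀ X : G ℂ, (M : ℂ) ^ 2 * X.1 0 0 = X.1 1 1 → X.1 1 0 = - X.1 1 1 →
      mer M (Tm (-((M : ℂ) ^ 2)⁻¹)) * X = X * (mer M (Tm 1))⁻¹ := by
    intro X h00 h10
    ext
    · rw [G_mul00, G_mul00, G_inv00, G_inv10, ColRoot_mer00, ColRoot_mer01, ColRoot_mer10,
        ColRoot_mer11, hinv, ← hν]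
      rw [h10, ← h00, hν]
      linear_combination (X.1 0 0) * (((M⁻¹ : ℂˣ) : ℂ) - M) * et
    · rw [G_mul01, G_mul01, G_inv01, G_inv11, ColRoot_mer00, ColRoot_mer01, ColRoot_mer00,
        ColRoot_mer01, hinv, ← h00, ← hν]
      linear_combination (-(ν * X.1 0 0)) * et
    · rw [G_mul10, G_mul10, G_inv00, G_inv10, ColRoot_mer10, ColRoot_mer11, ColRoot_mer10,
        ColRoot_mer11]
      ring
    · rw [G_mul11, G_mul11, G_inv01, G_inv11, ColRoot_mer10, ColRoot_mer11, ColRoot_mer01,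
        ColRoot_mer00, h10]
      ring
  rcases hr with rfl | rfl
  · -- r = 1
    set Y : ℂ := 1 + ((M⁻¹ : ℂˣ) : ℂ) ^ 2 with hYd
    have hβ : ν * ((2 - Y) / ν) = 2 - Y := mul_div_cancel₀ _ hν0
    have hY : Y ≠ 2 := by
      intro h
      apply hM
      have h1 : ((M⁻¹ : ℂˣ) : ℂ) ^ 2 = 1 := by linear_combination h
      rw [h1, mul_one] at et; exact et
    refine ColRoot_core hFrameUniq M 1 hM Y ν ((2 - Y) / ν) hν hν0 hβ hY ?_
    rw [zpow_one]
    apply key
    · simp only [ColRoot_w, Matrix.of_apply, Matrix.cons_val', Matrix.cons_val_zero,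
        Matrix.cons_val_one, Matrix.cons_val_fin_one]
      linear_combination et
    · simp only [ColRoot_w, Matrix.of_apply, Matrix.cons_val', Matrix.cons_val_zero,
        Matrix.cons_val_one, Matrix.cons_val_fin_one]
      have h2 : (M : ℂ) * (2 - Y) = - ν := by
        rw [hYd, hν]; linear_combination (-((M⁻¹ : ℂˣ) : ℂ)) * eM
      rw [← mul_div_assoc, h2, neg_div, div_self hν0]
  · -- r = 2
    obtain ⟨Y, hYq⟩ : ∃ Y : ℂ, (M : ℂ) ^ 2 * (Y ^ 2 - Y - 1) = Y - 1 := by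
      -- t Y^2 - (t+1) Y + (1 - t) = 0
      obtain ⟨s, hs⟩ := IsAlgClosed.exists_pow_nat_eq
        (((M : ℂ) ^ 2 + 1) ^ 2 - 4 * (M : ℂ) ^ 2 * (1 - (M : ℂ) ^ 2)) (n := 2) (by norm_num)
      refine ⟨((M : ℂ) ^ 2 + 1 + s) / (2 * (M : ℂ) ^ 2), ?_⟩
      field_simp
      linear_combination hs
    have hβ : ν * ((2 - Y) / ν) = 2 - Y := mul_div_cancel₀ _ hν0
    have hY : Y ≠ 2 := by
      rintro rfl
      apply hM
      linear_combination hYq
    refine ColRoot_core hFrameUniq M 2 hM Y ν ((2 - Y) / ν) hν hν0 hβ hY ?_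
    have hMβ : (M : ℂ) * ((2 - Y) / ν) * ν = M * (2 - Y) := by
      rw [mul_assoc, div_mul_cancel₀ _ hν0]
    have e2 : ν * ((M⁻¹ : ℂˣ) : ℂ) * ((M : ℂ) * ((2 - Y) / ν)) = 2 - Y := by
      linear_combination hβ + ν * ((2 - Y) / ν) * eM
    have e3 : (ColRoot_w M Y ν ((2 - Y) / ν) hβ) ^ (2 : ℤ) =
        ColRoot_w M Y ν ((2 - Y) / ν) hβ * ColRoot_w M Y ν ((2 - Y) / ν) hβ := zpow_two _
    rw [e3]
    apply key
    · rw [G_mul00, G_mul11]
      simp only [ColRoot_w, Matrix.of_apply, Matrix.cons_val', Matrix.cons_val_zero,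
        Matrix.cons_val_one, Matrix.cons_val_fin_one]
      linear_combination hYq - (M : ℂ) ^ 2 * e2 + e2
    · rw [G_mul10, G_mul11]
      simp only [ColRoot_w, Matrix.of_apply, Matrix.cons_val', Matrix.cons_val_zero,
        Matrix.cons_val_one, Matrix.cons_val_fin_one]
      -- M β Y = -(Y - 1)
      have h3 : (M : ℂ) * (2 - Y) * Y = - (Y - 1) * ν := by
        have h4 : (M : ℂ) * ((M : ℂ) * (2 - Y) * Y + (Y - 1) * ν) = 0 := by
          rw [hν]
          linear_combination (-1 : ℂ) * hYq + (Y - 1) * eM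
        have h5 := (mul_eq_zero.1 h4).resolve_left hM0
        linear_combination h5
      have h6 : (M : ℂ) * ((2 - Y) / ν) * Y = - (Y - 1) := by
        have : (M : ℂ) * ((2 - Y) / ν) * Y = ((M : ℂ) * (2 - Y) * Y) / ν := by ring
        rw [this, h3, mul_div_assoc, div_self hν0, mul_one]
      linear_combination h6 - e2

end AJM

end

section

/-!
# MP_d3fa71_gt, project Mut: a column with gadget
-/

set_option autoImplicit false

namespace AJM

theorem prf_ColUp (hPathAppend : PathAppend) (hPathShift : PathShift) (hTwsPath : TwsPath) :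
    ColUp := by
  intro F _ M r v γ τ ha hb k s hv hnc he
  have h1 : Step M (.cup, 2) (ha :: hb :: s) (ha :: hb :: k :: k * J :: s) 1 :=
    Step.sh ha (Step.sh hb (Step.cup k s))
  have h2 : Path M (sh 1 (v ++ tws (2 * r))) (ha :: hb :: k :: k * J :: s)
      (ha :: (mer M hb * mer M k) ^ (-r) * hb * dg (M ^ r) ::
        (mer M hb * mer M k) ^ (-r) * k * dg (M ^ r) :: k * J :: s) γ :=
    (hPathShift F M (v ++ tws (2 * r)) [ha] (hb :: k :: k * J :: s) _ γ).2
      ⟨_, rfl, (hPathAppend F M v (tws (2 * r)) _ _ γ).2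
        ⟨_, γ, 1, hv hb k _ hnc, hTwsPath F M r hb k _, (mul_one γ).symm⟩⟩
  rw [he] at h2
  have h3 : Path M [(.cap, 0)] (ha :: ha * J * dg τ ::
      (mer M hb * mer M k) ^ (-r) * k * dg (M ^ r) :: k * J :: s)
      ((mer M hb * mer M k) ^ (-r) * k * dg (M ^ r) :: k * J :: s) (τ * 1) :=
    Path.cons (Step.cap ha τ _) (Path.nil _)
  have h4 := (hPathAppend F M (sh 1 (v ++ tws (2 * r))) [(.cap, 0)] _ _ (γ * (τ * 1))).2
    ⟨_, γ, τ * 1, h2, h3, rfl⟩
  have h5 := Path.cons h1 h4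
  rw [mul_one, one_mul] at h5
  exact h5

end AJM

end

section

/-!
# MP_d3fa71_gt, project Mut, item Comm2
-/

open Matrix
open scoped Kronecker

namespace AJM

theorem L_Comm2_aeval {n : ℕ} {A X : Matrix (Fin n × Fin n) (Fin n × Fin n) (RatFunc ℚ)}
    (h : Commute A X) (p : Polynomial (RatFunc ℚ)) : Commute A (Polynomial.aeval X p) := by
  induction p using Polynomial.induction_on' with
  | add p q hp hq =>
    rw [map_add]
    exact hp.add_right hq
  | monomial k a =>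
    rw [Polynomial.aeval_monomial]
    exact (Algebra.commute_algebraMap_right a A).mul_right (h.pow_right k)

theorem L_Comm2_P (hWtZero : WtZero) (hPolyV : PolyV) {n : ℕ} (hn : 1 ≤ n)
    {A : Matrix (Fin n × Fin n) (Fin n × Fin n) (RatFunc ℚ)} (hA : A * DK n = DK n * A) :
    ∃ p : Polynomial (RatFunc ℚ),
      A *ᵥ eb n 0 (n - 1) = (Polynomial.aeval (DF n * DE n) p) *ᵥ eb n 0 (n - 1) := by
  obtain ⟨c, hc⟩ := hWtZero n A hn hA
  have h : ∀ i : ℕ, ∃ p : Polynomial (RatFunc ℚ), i < n →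
      eb n i (n - 1 - i) = (Polynomial.aeval (DF n * DE n) p) *ᵥ eb n 0 (n - 1) := by
    intro i
    by_cases hi : i < n
    · obtain ⟨p, hp⟩ := hPolyV n i hi
      exact ⟨p, fun _ => hp⟩
    · exact ⟨0, fun h => absurd h hi⟩
  choose p hp using h
  refine ⟨∑ i ∈ Finset.range n, c i • p i, ?_⟩
  rw [hc, map_sum, Matrix.sum_mulVec]
  apply Finset.sum_congr rfl
  intro i hi
  rw [map_smul, Matrix.smul_mulVec, hp i (Finset.mem_range.1 hi)]

theorem prf_Comm2 (hGenTop : GenTop) (hWtZero : WtZero) (hPolyV : PolyV) : Comm2 := by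
  intro n A B hA hB
  rcases Nat.eq_zero_or_pos n with rfl | hn
  · ext i
    exact i.1.elim0
  obtain ⟨p, hp⟩ := L_Comm2_P hWtZero hPolyV hn hA.2.2
  obtain ⟨p', hp'⟩ := L_Comm2_P hWtZero hPolyV hn hB.2.2
  have hAX : Commute A (DF n * DE n) := by
    have h1 : Commute A (DF n) := hA.2.1
    have h2 : Commute A (DE n) := hA.1
    exact h1.mul_right h2
  have hBX : Commute B (DF n * DE n) := by
    have h1 : Commute B (DF n) := hB.2.1
    have h2 : Commute B (DE n) := hB.1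
    exact h1.mul_right h2
  have hAp := L_Comm2_aeval hAX p'
  have hBp := L_Comm2_aeval hBX p
  have hpp : Polynomial.aeval (DF n * DE n) p * Polynomial.aeval (DF n * DE n) p' =
      Polynomial.aeval (DF n * DE n) p' * Polynomial.aeval (DF n * DE n) p := by
    rw [← map_mul, ← map_mul, mul_comm]
  have hv : (A * B) *ᵥ eb n 0 (n - 1) = (B * A) *ᵥ eb n 0 (n - 1) := by
    rw [← Matrix.mulVec_mulVec, ← Matrix.mulVec_mulVec, hp', hp, Matrix.mulVec_mulVec,
      Matrix.mulVec_mulVec, hAp.eq, hBp.eq, ← Matrix.mulVec_mulVec, ← Matrix.mulVec_mulVec, hp,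
      hp', Matrix.mulVec_mulVec, Matrix.mulVec_mulVec, hpp]
  have hS := hGenTop n (LinearMap.ker (Matrix.toLin' (A * B - B * A))) hn (by
      rw [LinearMap.mem_ker, Matrix.toLin'_apply, Matrix.sub_mulVec, hv, sub_self]) (by
      intro v hv
      rw [LinearMap.mem_ker, Matrix.toLin'_apply] at hv ⊢
      have h1 : (A * B - B * A) * DE n = DE n * (A * B - B * A) := by
        rw [sub_mul, mul_sub, mul_assoc, hB.1, ← mul_assoc, hA.1, mul_assoc B, hA.1, ← mul_assoc B,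
          hB.1]
        simp only [mul_assoc]
      rw [Matrix.mulVec_mulVec, h1, ← Matrix.mulVec_mulVec, hv, Matrix.mulVec_zero]) (by
      intro v hv
      rw [LinearMap.mem_ker, Matrix.toLin'_apply] at hv ⊢
      have h1 : (A * B - B * A) * DF n = DF n * (A * B - B * A) := by
        rw [sub_mul, mul_sub, mul_assoc, hB.2.1, ← mul_assoc, hA.2.1, mul_assoc B, hA.2.1,
          ← mul_assoc B, hB.2.1]
        simp only [mul_assoc]
      rw [Matrix.mulVec_mulVec, h1, ← Matrix.mulVec_mulVec, hv, Matrix.mulVec_zero])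
  have h0 : Matrix.toLin' (A * B - B * A) = 0 := LinearMap.ker_eq_top.1 hS
  have h1 : A * B - B * A = 0 := by
    apply Matrix.toLin'.injective
    rw [h0, map_zero]
  exact sub_eq_zero.1 h1

end AJM

end

section

open Matrix
open scoped Kronecker

namespace AJM

theorem L_CrossOp_neg (n : ℕ) : opm n (.neg, 0) = mo n (Bm n) := by
  unfold opm mo
  congr 1
  funext s
  rcases s with _ | ⟨a, _ | ⟨b, s⟩⟩ <;> simp [act, mL]

theorem L_CrossOp_pos (n : ℕ) : opm n (.pos, 0) = mo n (Bm n)⁻¹ := by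
  unfold opm mo
  congr 1
  funext s
  rcases s with _ | ⟨a, _ | ⟨b, s⟩⟩ <;> simp [act, mL]

theorem prf_CrossOp (hMatInt : MatInt) (hBInt : BInt) (hBiInt : BiInt) : CrossOp := by
  intro n
  rw [L_CrossOp_pos, L_CrossOp_neg]
  exact ⟨hMatInt n _ (hBiInt n), hMatInt n _ (hBInt n)⟩

end AJM

end

section

set_option autoImplicit false

/-!
# MP_d3fa71_gt, project Mut: `ω + ω⁻¹` is constant iff `ω` is
-/

namespace AJM

theorem L_CstTr_split (c : ℂ) : ∃ p q : ℂ, p + q = c ∧ p * q = 1 := by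
  obtain ⟨z, hz⟩ := IsAlgClosed.exists_pow_nat_eq (c ^ 2 - 4) (n := 2) (by norm_num)
  refine ⟨(c + z) / 2, (c - z) / 2, by ring, ?_⟩
  linear_combination -(1 / 4 : ℂ) * hz

theorem prf_CstTr : CstTr := by
  intro F _ _ ω
  constructor
  · rintro ⟨c, hc⟩
    obtain ⟨p, q, h1, h2⟩ := L_CstTr_split c
    have hω : (ω : F) * ((ω⁻¹ : Fˣ) : F) = 1 := Units.mul_inv ω
    have e1 : algebraMap ℂ F p + algebraMap ℂ F q = algebraMap ℂ F c := by
      rw [← map_add, h1]
    have e2 : algebraMap ℂ F p * algebraMap ℂ F q = 1 := by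
      rw [← map_mul, h2, map_one]
    have h : ((ω : F) - algebraMap ℂ F p) * ((ω : F) - algebraMap ℂ F q) = 0 := by
      linear_combination e2 - (ω : F) * e1 + (ω : F) * hc - hω
    rcases mul_eq_zero.1 h with h | h
    · exact ⟨p, sub_eq_zero.1 h⟩
    · exact ⟨q, sub_eq_zero.1 h⟩
  · rintro ⟨c, hc⟩
    refine ⟨c + c⁻¹, ?_⟩
    rw [Units.val_inv_eq_inv_val, hc, map_add, map_inv₀]

end AJM

end

section

/-!
# MP_d3fa71_gt, project Mut, item CupInt
-/

set_option autoImplicit false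

open Matrix
open scoped Kronecker

namespace AJM

theorem L_CupInt_mul (n : ℕ) (A : Matrix (Fin n × Fin n) (Fin n × Fin n) (RatFunc ℚ))
    (a b : Fin n) : (A *ᵥ cupv n) (a, b) = ∑ i : Fin n, A (a, b) (i, i.rev) * cc n i := by
  simp only [Matrix.mulVec, dotProduct, Fintype.sum_prod_type, cupv]
  refine Finset.sum_congr rfl fun i _ => ?_
  rw [Finset.sum_eq_single i.rev]
  · rw [if_pos rfl]
  · intro j _ hj
    rw [if_neg hj, mul_zero]
  · intro h
    exact absurd (Finset.mem_univ _) h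

theorem L_CupInt_rev (n : ℕ) (a i : Fin n) : a = i.rev ↔ i = a.rev := by
  constructor
  · rintro rfl
    rw [Fin.rev_rev]
  · rintro rfl
    rw [Fin.rev_rev]

theorem L_CupInt_DE (n : ℕ) (a b : Fin n) : (DE n *ᵥ cupv n) (a, b) =
    Em n b a.rev * cc n a + Em n a b.rev * tq ^ (2 * wt n b) * cc n b.rev := by
  rw [L_CupInt_mul]
  have h : ∀ i : Fin n, DE n (a, b) (i, i.rev) * cc n i =
      (if i = a then Em n b i.rev * cc n i else 0) +
      (if i = b.rev then Em n a i * tq ^ (2 * wt n b) * cc n i else 0) := by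
    intro i
    unfold DE Km
    rw [Matrix.add_apply, Matrix.kroneckerMap_apply, Matrix.kroneckerMap_apply, Matrix.one_apply,
      Matrix.diagonal_apply, add_mul]
    congr 1
    · by_cases h : a = i
      · rw [if_pos h, if_pos h.symm, one_mul]
      · rw [if_neg h, if_neg (fun h' => h h'.symm), zero_mul, zero_mul]
    · by_cases h : b = i.rev
      · rw [if_pos h, if_pos ((L_CupInt_rev n b i).1 h)]
      · rw [if_neg h, if_neg (fun h' => h ((L_CupInt_rev n b i).2 h')), mul_zero, zero_mul]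
  simp only [h]
  rw [Finset.sum_add_distrib, Finset.sum_ite_eq' Finset.univ a, Finset.sum_ite_eq' Finset.univ b.rev,
    if_pos (Finset.mem_univ _), if_pos (Finset.mem_univ _)]

theorem L_CupInt_DF (n : ℕ) (a b : Fin n) : (DF n *ᵥ cupv n) (a, b) =
    tq ^ (-(2 * wt n a)) * Fm n b a.rev * cc n a + Fm n a b.rev * cc n b.rev := by
  rw [L_CupInt_mul]
  have h : ∀ i : Fin n, DF n (a, b) (i, i.rev) * cc n i =
      (if i = a then tq ^ (-(2 * wt n a)) * Fm n b i.rev * cc n i else 0) +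
      (if i = b.rev then Fm n a i * cc n i else 0) := by
    intro i
    unfold DF Ki
    rw [Matrix.add_apply, Matrix.kroneckerMap_apply, Matrix.kroneckerMap_apply, Matrix.one_apply,
      Matrix.diagonal_apply, add_mul]
    congr 1
    · by_cases h : a = i
      · rw [if_pos h, if_pos h.symm]
      · rw [if_neg h, if_neg (fun h' => h h'.symm), zero_mul, zero_mul]
    · by_cases h : b = i.rev
      · rw [if_pos h, if_pos ((L_CupInt_rev n b i).1 h), mul_one]
      · rw [if_neg h, if_neg (fun h' => h ((L_CupInt_rev n b i).2 h')), mul_zero, zero_mul]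
  simp only [h]
  rw [Finset.sum_add_distrib, Finset.sum_ite_eq' Finset.univ a, Finset.sum_ite_eq' Finset.univ b.rev,
    if_pos (Finset.mem_univ _), if_pos (Finset.mem_univ _)]

theorem L_CupInt_DK (n : ℕ) (a b : Fin n) : (DK n *ᵥ cupv n) (a, b) =
    if b = a.rev then tq ^ (2 * wt n a) * tq ^ (2 * wt n b) * cc n a else 0 := by
  rw [L_CupInt_mul]
  have h : ∀ i : Fin n, DK n (a, b) (i, i.rev) * cc n i =
      (if i = a then (if b = a.rev then tq ^ (2 * wt n a) * tq ^ (2 * wt n b) * cc n a else 0)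
        else 0) := by
    intro i
    unfold DK Km
    rw [Matrix.kroneckerMap_apply, Matrix.diagonal_apply, Matrix.diagonal_apply]
    by_cases h : a = i
    · subst h
      rw [if_pos rfl, if_pos rfl]
      by_cases h2 : b = a.rev
      · rw [if_pos h2, if_pos h2]
      · rw [if_neg h2, if_neg h2, mul_zero, zero_mul]
    · have h' : i ≠ a := fun h' => h h'.symm
      rw [if_neg h, if_neg h', zero_mul, zero_mul]
  simp only [h]
  rw [Finset.sum_ite_eq' Finset.univ a, if_pos (Finset.mem_univ _)]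

theorem prf_CupInt (hQIne : QIne) : CupInt := by
  intro n
  refine ⟨?_, ?_, ?_⟩
  · funext p
    obtain ⟨a, b⟩ := p
    rw [L_CupInt_DE]
    have ha := a.2
    have hb := b.2
    have hra : ((a.rev : Fin n) : ℕ) = n - (a + 1) := Fin.val_rev a
    have hrb : ((b.rev : Fin n) : ℕ) = n - (b + 1) := Fin.val_rev b
    unfold Em
    rw [Matrix.of_apply, Matrix.of_apply]
    by_cases h : (a : ℕ) + b + 2 = n
    · have h1 : ((a.rev : Fin n) : ℕ) = b + 1 := by omega
      have h2 : ((b.rev : Fin n) : ℕ) = a + 1 := by omega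
      rw [if_pos (by omega), if_pos (by omega), h1, h2]
      have h3 : n - ((b : ℕ) + 1) = a + 1 := by omega
      have h4 : n - ((a : ℕ) + 1) = b + 1 := by omega
      rw [h3, h4]
      unfold cc wt
      rw [h2]
      have e : tq ^ (2 * (a : ℕ) * ((n : ℤ) - 2 - ((a : ℕ) : ℤ)) : ℤ) =
          tq ^ (2 * ((n : ℤ) - 1 - 2 * ((b : ℕ) : ℤ))) *
          tq ^ (2 * (((a : ℕ) + 1 : ℕ) : ℤ) * ((n : ℤ) - 2 - (((a : ℕ) + 1 : ℕ) : ℤ))) := by
        rw [← zpow_add₀ hQIne.1]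
        congr 1
        have hn : (n : ℤ) = a + b + 2 := by exact_mod_cast h.symm
        rw [hn]
        push_cast
        ring
      rw [e, pow_succ]
      simp only [Pi.zero_apply]
      ring
    · rw [if_neg (by omega), if_neg (by omega)]
      simp
  · funext p
    obtain ⟨a, b⟩ := p
    rw [L_CupInt_DF]
    have ha := a.2
    have hb := b.2
    have hra : ((a.rev : Fin n) : ℕ) = n - (a + 1) := Fin.val_rev a
    have hrb : ((b.rev : Fin n) : ℕ) = n - (b + 1) := Fin.val_rev b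
    unfold Fm
    rw [Matrix.of_apply, Matrix.of_apply]
    by_cases h : (a : ℕ) + b = n
    · obtain ⟨c, hc⟩ : ∃ c, (a : ℕ) = c + 1 := ⟨a - 1, by omega⟩
      have h2 : ((b.rev : Fin n) : ℕ) = c := by omega
      rw [if_pos (by omega), if_pos (by omega)]
      unfold cc wt
      rw [h2, hc]
      have e : tq ^ (2 * (c : ℤ) * ((n : ℤ) - 2 - (c : ℤ))) =
          tq ^ (-(2 * ((n : ℤ) - 1 - 2 * (((c + 1 : ℕ)) : ℤ)))) *
          tq ^ (2 * ((c + 1 : ℕ) : ℤ) * ((n : ℤ) - 2 - ((c + 1 : ℕ) : ℤ))) := by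
        rw [← zpow_add₀ hQIne.1]
        congr 1
        push_cast
        ring
      rw [e, pow_succ]
      simp only [Pi.zero_apply]
      ring
    · rw [if_neg (by omega), if_neg (by omega)]
      simp
  · funext p
    obtain ⟨a, b⟩ := p
    rw [L_CupInt_DK]
    unfold cupv
    by_cases h : b = a.rev
    · simp only [if_pos h]
      have h1 : tq ^ (2 * wt n a) * tq ^ (2 * wt n b) = 1 := by
        rw [← zpow_add₀ hQIne.1]
        have h2 : 2 * wt n a + 2 * wt n b = 0 := by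
          unfold wt
          rw [h]
          have ha := a.2
          have hra : ((a.rev : Fin n) : ℕ) = n - (a + 1) := Fin.val_rev a
          omega
        rw [h2, zpow_zero]
      rw [h1, one_mul]
    · simp only [if_neg h]

end AJM

end

section

/-!
# MP_d3fa71_gt, project Mut: item CupOp
-/

open Matrix
open scoped Kronecker

namespace AJM

theorem L_CupOp_ext {n : ℕ} {f g : TT n →ₗ[RatFunc ℚ] TT n}
    (h : ∀ s, f (Finsupp.single s 1) = g (Finsupp.single s 1)) : f = g := by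
  apply Finsupp.lhom_ext
  intro s b
  have h1 : (Finsupp.single s b : TT n) = b • Finsupp.single s 1 := by
    rw [Finsupp.smul_single, smul_eq_mul, mul_one]
  rw [h1, map_smul, map_smul, h s]

theorem L_CupOp_single (n : ℕ) (s : List (Fin n)) :
    opm n (.cup, 0) (Finsupp.single s 1) =
      ∑ i : Fin n, Finsupp.single (i :: i.rev :: s) (cc n i) := by
  unfold opm
  rw [Finsupp.linearCombination_single, one_smul]
  simp only [act]

theorem L_CupOp_eq (n : ℕ) (f : TT n) : opm n (.cup, 0) f =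
    ∑ i : Fin n, cc n i • Finsupp.mapDomain (fun z => i :: i.rev :: z) f := by
  have h : opm n (.cup, 0) = ∑ i : Fin n, cc n i •
      Finsupp.lmapDomain (RatFunc ℚ) (RatFunc ℚ) (fun z : List (Fin n) => i :: i.rev :: z) := by
    apply L_CupOp_ext
    intro s
    rw [L_CupOp_single, LinearMap.sum_apply]
    apply Finset.sum_congr rfl
    intro i _
    rw [LinearMap.smul_apply, Finsupp.lmapDomain_apply, Finsupp.mapDomain_single,
      Finsupp.smul_single, smul_eq_mul, mul_one]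
  rw [h, LinearMap.sum_apply]
  rfl

theorem L_CupOp_comb {n : ℕ} (L : List (Fin n) → TT n) (s : List (Fin n)) :
    Finsupp.linearCombination (RatFunc ℚ) L
      (∑ i : Fin n, Finsupp.single (i :: i.rev :: s) (cc n i)) =
      ∑ i : Fin n, cc n i • L (i :: i.rev :: s) := by
  rw [map_sum]
  apply Finset.sum_congr rfl
  intro i _
  rw [Finsupp.linearCombination_single]

theorem L_CupOp_mul {n : ℕ} (A : Matrix (Fin n × Fin n) (Fin n × Fin n) (RatFunc ℚ))
    (p : Fin n × Fin n) : (A *ᵥ cupv n) p = ∑ i : Fin n, A p (i, i.rev) * cc n i := by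
  unfold Matrix.mulVec dotProduct cupv
  rw [Fintype.sum_prod_type]
  apply Finset.sum_congr rfl
  intro i _
  rw [Finset.sum_eq_single i.rev]
  · rw [if_pos rfl]
  · intro j _ hj
    rw [if_neg hj, mul_zero]
  · intro h
    exact absurd (Finset.mem_univ _) h

theorem L_CupOp_zero {n : ℕ} (A : Matrix (Fin n × Fin n) (Fin n × Fin n) (RatFunc ℚ))
    (hA : A *ᵥ cupv n = 0) (κ : RatFunc ℚ) (s : List (Fin n)) :
    ∑ i : Fin n, cc n i • ∑ p : Fin n × Fin n,
      (Finsupp.single (p.1 :: p.2 :: s) (κ * A p (i, i.rev)) : TT n) = 0 := by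
  have h1 : ∀ i : Fin n, cc n i • ∑ p : Fin n × Fin n,
      (Finsupp.single (p.1 :: p.2 :: s) (κ * A p (i, i.rev)) : TT n) =
      ∑ p : Fin n × Fin n, Finsupp.single (p.1 :: p.2 :: s) (κ * (A p (i, i.rev) * cc n i)) := by
    intro i
    rw [Finset.smul_sum]
    apply Finset.sum_congr rfl
    intro p _
    rw [Finsupp.smul_single, smul_eq_mul]
    congr 1
    ring
  rw [Finset.sum_congr rfl (fun i _ => h1 i), Finset.sum_comm]
  apply Finset.sum_eq_zero
  intro p _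
  rw [← Finsupp.single_finsetSum, ← Finset.mul_sum, ← L_CupOp_mul, hA, Pi.zero_apply, mul_zero,
    Finsupp.single_zero]

theorem L_CupOp_rev {n : ℕ} (i : Fin n) : wt n i + wt n i.rev = 0 := by
  unfold wt
  rw [Fin.val_rev]
  have := i.2
  omega

theorem prf_CupOp (hEoTwo : EoTwo) (hCupInt : CupInt) : CupOp := by
  intro n
  obtain ⟨hE, hF, -⟩ := hCupInt n
  refine ⟨?_, ?_, ?_⟩
  · apply L_CupOp_ext
    intro s
    rw [LinearMap.comp_apply, LinearMap.comp_apply, L_CupOp_single]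
    unfold Eo
    rw [Finsupp.linearCombination_single, one_smul, L_CupOp_eq, L_CupOp_comb]
    have h1 : ∀ i : Fin n, cc n i • eL n (i :: i.rev :: s) =
        cc n i • Finsupp.mapDomain (fun z => i :: i.rev :: z) (eL n s) +
        cc n i • ∑ p : Fin n × Fin n,
          Finsupp.single (p.1 :: p.2 :: s) (kk n s * DE n p (i, i.rev)) := by
      intro i
      rw [(hEoTwo n i i.rev s).1, smul_add]
    rw [Finset.sum_congr rfl (fun i _ => h1 i), Finset.sum_add_distrib, L_CupOp_zero _ hE,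
      add_zero]
  · apply L_CupOp_ext
    intro s
    rw [LinearMap.comp_apply, LinearMap.comp_apply, L_CupOp_single]
    unfold Fo
    rw [Finsupp.linearCombination_single, one_smul, L_CupOp_eq, L_CupOp_comb]
    have h1 : ∀ i : Fin n, cc n i • fL n (i :: i.rev :: s) =
        cc n i • Finsupp.mapDomain (fun z => i :: i.rev :: z) (fL n s) +
        cc n i • ∑ p : Fin n × Fin n,
          Finsupp.single (p.1 :: p.2 :: s) (1 * DF n p (i, i.rev)) := by
      intro i
      rw [(hEoTwo n i i.rev s).2.1, smul_add, L_CupOp_rev, mul_zero, neg_zero, zpow_zero,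
        one_smul]
      simp only [one_mul]
    rw [Finset.sum_congr rfl (fun i _ => h1 i), Finset.sum_add_distrib, L_CupOp_zero _ hF,
      add_zero]
  · apply L_CupOp_ext
    intro s
    rw [LinearMap.comp_apply, LinearMap.comp_apply, L_CupOp_single]
    unfold Ko
    rw [Finsupp.linearCombination_single, one_smul, L_CupOp_eq, L_CupOp_comb]
    apply Finset.sum_congr rfl
    intro i _
    rw [Finsupp.mapDomain_single, (hEoTwo n i i.rev s).2.2, L_CupOp_rev, mul_zero, zpow_zero,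
      one_mul]

end AJM

end

section

/-!
# MP_d3fa71_gt, project Mut: drilled paths with a suffix
-/

set_option autoImplicit false

namespace AJM

theorem L_DPathRight_step {R : Type} [CommRing R] (M : Rˣ) (x : List (G R)) :
    ∀ (m : DMv) (s s' : List (G R)) (τ : Rˣ) (Θ : List (Rˣ × Rˣ)),
      DStep M m s s' τ Θ → DStep M m (s ++ x) (s' ++ x) τ Θ := by
  intro m s s' τ Θ h
  induction h with
  | cup h s => exact DStep.cup h (s ++ x)
  | cap h τ s => exact DStep.cap h τ (s ++ x)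
  | pos h k s => exact DStep.pos h k (s ++ x)
  | neg h k s => exact DStep.neg h k (s ++ x)
  | tw E h k s ε ω v u hc hE hw hv => exact DStep.tw E h k (s ++ x) ε ω v u hc hE hw hv
  | sh y _ ih => exact DStep.sh y ih

theorem prf_DPathRight : DPathRight := by
  intro R _ M w s s' x τ Θ h
  induction h with
  | nil s => exact DPath.nil _
  | cons hs _ ih => exact DPath.cons (L_DPathRight_step M x _ _ _ _ _ hs) ih

end AJM

end

section

/-!
# MP_d3fa71_gt, project Mut: drilled paths with a prefix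
-/

namespace AJM

section
variable {R : Type} [CommRing R]

theorem L_DPathShift_step {M : Rˣ} (p : List (G R)) {m : DMv} {s s' : List (G R)} {τ : Rˣ}
    {Θ : List (Rˣ × Rˣ)} (h : DStep M m s s' τ Θ) :
    DStep M (m.1, m.2 + p.length) (p ++ s) (p ++ s') τ Θ := by
  induction p with
  | nil => exact h
  | cons x p ih => exact DStep.sh x ih

end

theorem prf_DPathShift : DPathShift := by
  intro R _ M w p s s' τ Θ h
  induction h with
  | nil s => exact DPath.nil _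
  | cons h1 h2 ih => exact DPath.cons (L_DPathShift_step p h1) ih

end AJM

end

section

/-!
# MP_d3fa71_gt, project Mut: item DRel
-/

open Matrix
open scoped Kronecker

namespace AJM

theorem L_DRel_wt (hQ : QIne) {n : ℕ} {X : Matrix (Fin n) (Fin n) (RatFunc ℚ)}
    (h : X * Km n = Km n * X) (i i' : Fin n) (hx : X i i' ≠ 0) : wt n i = wt n i' := by
  obtain ⟨h0, -, -, h1⟩ := hQ
  have h2 := congrFun (congrFun h i) i'
  unfold Km at h2
  rw [Matrix.mul_diagonal, Matrix.diagonal_mul, mul_comm] at h2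
  have h3 := mul_right_cancel₀ hx h2
  have h4 : tq ^ (2 * wt n i - 2 * wt n i') = 1 := by
    rw [zpow_sub₀ h0, h3, div_self (zpow_ne_zero _ h0)]
  have h5 := h1 _ h4
  omega

theorem L_DRel_E {n : ℕ} (j j' : Fin n) (h : Em n j j' ≠ 0) : wt n j = wt n j' + 2 * 1 := by
  unfold Em at h
  rw [Matrix.of_apply] at h
  have h1 : (j : ℕ) + 1 = j' := by
    by_contra hc
    rw [if_neg hc] at h
    exact h rfl
  unfold wt
  omega

theorem L_DRel_F {n : ℕ} (j j' : Fin n) (h : Fm n j j' ≠ 0) : wt n j = wt n j' + 2 * (-1) := by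
  unfold Fm at h
  rw [Matrix.of_apply] at h
  have h1 : (j : ℕ) = j' + 1 := by
    by_contra hc
    rw [if_neg hc] at h
    exact h rfl
  unfold wt
  omega

theorem L_DRel_ent (h0 : tq ≠ 0) (x e : RatFunc ℚ) (a a' b b' c : ℤ) (ha : x ≠ 0 → a = a')
    (hb : e ≠ 0 → b = b' + 2 * c) :
    tq ^ (a * b) * (x * e) = x * tq ^ (2 * c * a') * e * tq ^ (a' * b') := by
  by_cases hx : x = 0
  · rw [hx]
    ring
  by_cases he : e = 0
  · rw [he]
    ring
  rw [ha hx, hb he]
  have h1 : tq ^ (a' * (b' + 2 * c)) = tq ^ (2 * c * a') * tq ^ (a' * b') := by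
    rw [← zpow_add₀ h0]
    congr 1
    ring
  rw [h1]
  ring

theorem L_DRel_left (h0 : tq ≠ 0) {n : ℕ} (X E : Matrix (Fin n) (Fin n) (RatFunc ℚ)) (c : ℤ)
    (K : Matrix (Fin n) (Fin n) (RatFunc ℚ))
    (hK : K = Matrix.diagonal fun j => tq ^ (2 * c * wt n j))
    (hX : ∀ i i', X i i' ≠ 0 → wt n i = wt n i')
    (hE : ∀ j j', E j j' ≠ 0 → wt n j = wt n j' + 2 * c) :
    Dm n * (X ⊗ₖ E) = ((X * K) ⊗ₖ E) * Dm n := by
  ext ⟨i, j⟩ ⟨i', j'⟩
  unfold Dm
  rw [Matrix.diagonal_mul, Matrix.mul_diagonal, Matrix.kroneckerMap_apply,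
    Matrix.kroneckerMap_apply, hK, Matrix.mul_diagonal]
  exact L_DRel_ent h0 _ _ _ _ _ _ c (hX i i') (hE j j')

theorem L_DRel_right (h0 : tq ≠ 0) {n : ℕ} (X E : Matrix (Fin n) (Fin n) (RatFunc ℚ)) (c : ℤ)
    (K : Matrix (Fin n) (Fin n) (RatFunc ℚ))
    (hK : K = Matrix.diagonal fun j => tq ^ (2 * c * wt n j))
    (hX : ∀ i i', X i i' ≠ 0 → wt n i = wt n i')
    (hE : ∀ j j', E j j' ≠ 0 → wt n j = wt n j' + 2 * c) :
    Dm n * (E ⊗ₖ X) = (E ⊗ₖ (X * K)) * Dm n := by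
  ext ⟨i, j⟩ ⟨i', j'⟩
  unfold Dm
  rw [Matrix.diagonal_mul, Matrix.mul_diagonal, Matrix.kroneckerMap_apply,
    Matrix.kroneckerMap_apply, hK, Matrix.mul_diagonal]
  have h := L_DRel_ent h0 _ _ _ _ _ _ c (hX j j') (hE i i')
  dsimp only
  rw [mul_comm (wt n i) (wt n j), mul_comm (wt n i') (wt n j'), mul_comm (E i i') (X j j'), h]
  ring

theorem prf_DRel (hQIne : QIne) : DRel := by
  intro n X hX hX'
  have h0 := hQIne.1
  have hK : Km n = Matrix.diagonal fun j => tq ^ (2 * 1 * wt n j) := by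
    unfold Km
    congr 1
  have hK' : Ki n = Matrix.diagonal fun j => tq ^ (2 * (-1) * wt n j) := by
    unfold Ki
    congr 1
    funext j
    congr 1
    ring
  have hw := L_DRel_wt hQIne hX
  exact ⟨L_DRel_left h0 X _ 1 _ hK hw L_DRel_E, L_DRel_left h0 X _ (-1) _ hK' hw L_DRel_F,
    L_DRel_right h0 X _ 1 _ hK hw L_DRel_E, L_DRel_right h0 X _ (-1) _ hK' hw L_DRel_F⟩

end AJM

end

end

section

/-! Bundle of small proof modules (one section per former module). -/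

section

set_option autoImplicit false

open Matrix
open scoped Kronecker

namespace AJM

lemma L_EFeb_col (n i j : ℕ) (hi : i < n) (hj : j < n)
    (M : Matrix (Fin n × Fin n) (Fin n × Fin n) (RatFunc ℚ)) (p : Fin n × Fin n) :
    (M *ᵥ eb n i j) p = M p (⟨i, hi⟩, ⟨j, hj⟩) := by
  rw [Matrix.mulVec, dotProduct, Finset.sum_eq_single (⟨⟨i, hi⟩, ⟨j, hj⟩⟩ : Fin n × Fin n)]
  · simp [eb]
  · intro b _ hb
    have : eb n i j b = 0 := by
      unfold eb
      rw [if_neg]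
      rintro ⟨h1, h2⟩
      apply hb
      ext
      · exact h1
      · exact h2
    rw [this, mul_zero]
  · intro h
    exact absurd (Finset.mem_univ _) h

lemma L_EFeb_zero (n i j : ℕ) (h : ¬ (i < n ∧ j < n)) : eb n i j = 0 := by
  funext p
  unfold eb
  rw [if_neg]
  · rfl
  · rintro ⟨h1, h2⟩
    exact h ⟨h1 ▸ p.1.2, h2 ▸ p.2.2⟩

lemma L_EFeb_DE (n i j : ℕ) (hi : i < n) (hj : j < n) (a b : Fin n) :
    DE n (a, b) (⟨i, hi⟩, ⟨j, hj⟩) =
      (if (a : ℕ) = i ∧ (b : ℕ) + 1 = j then qi j * qi (n - j) else 0) +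
      (if (a : ℕ) + 1 = i ∧ (b : ℕ) = j then
        qi i * qi (n - i) * tq ^ (2 * ((n : ℤ) - 1 - 2 * (j : ℤ))) else 0) := by
  unfold DE
  rw [Matrix.add_apply, Matrix.kronecker_apply, Matrix.kronecker_apply]
  unfold Em Km
  simp only [Matrix.of_apply, Matrix.one_apply, Matrix.diagonal_apply, Fin.ext_iff, wt]
  congr 1
  · by_cases h1 : (a : ℕ) = i <;> by_cases h2 : (b : ℕ) + 1 = j <;> simp [h1, h2]
  · by_cases h1 : (a : ℕ) + 1 = i <;> by_cases h2 : (b : ℕ) = j <;> simp [h1, h2]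

lemma L_EFeb_DF (n i j : ℕ) (hi : i < n) (hj : j < n) (a b : Fin n) :
    DF n (a, b) (⟨i, hi⟩, ⟨j, hj⟩) =
      (if (a : ℕ) = i ∧ (b : ℕ) = j + 1 then tq ^ (-(2 * ((n : ℤ) - 1 - 2 * (i : ℤ)))) else 0) +
      (if (a : ℕ) = i + 1 ∧ (b : ℕ) = j then 1 else 0) := by
  unfold DF
  rw [Matrix.add_apply, Matrix.kronecker_apply, Matrix.kronecker_apply]
  unfold Fm Ki
  simp only [Matrix.of_apply, Matrix.one_apply, Matrix.diagonal_apply, Fin.ext_iff, wt]
  congr 1
  · by_cases h1 : (a : ℕ) = i <;> by_cases h2 : (b : ℕ) = j + 1 <;> simp [h1, h2]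
  · by_cases h1 : (a : ℕ) = i + 1 <;> by_cases h2 : (b : ℕ) = j <;> simp [h1, h2]

theorem prf_EFeb : EFeb := by
  intro n i j hi hj
  refine ⟨?_, ?_, ?_⟩
  · by_cases hj1 : j + 1 < n
    · funext ⟨a, b⟩
      rw [L_EFeb_col n i (j + 1) hi hj1, L_EFeb_DE]
      simp only [Pi.add_apply, Pi.smul_apply, eb, smul_eq_mul, hj1, if_true, true_and,
        Nat.add_right_cancel_iff]
      congr 1
      · by_cases h : (a : ℕ) = i ∧ (b : ℕ) = j
        · rw [if_pos h, if_pos h, mul_one]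
        · rw [if_neg h, if_neg h, mul_zero]
      · by_cases h0 : 0 < i
        · rw [if_pos h0]
          by_cases h : (a : ℕ) + 1 = i ∧ (b : ℕ) = j + 1
          · rw [if_pos h, if_pos ⟨by omega, h.2⟩, mul_one]
            push_cast
            rfl
          · rw [if_neg h, if_neg (by omega), mul_zero]
        · rw [if_neg h0, if_neg (by omega), zero_mul]
    · rw [L_EFeb_zero n i (j + 1) (by omega), Matrix.mulVec_zero, if_neg hj1,
        if_neg (by tauto), zero_smul, zero_smul, add_zero]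
  · have h0n : 0 < n := by omega
    funext ⟨a, b⟩
    rw [L_EFeb_col n i 0 hi h0n, L_EFeb_DE, if_neg (by omega), zero_add]
    simp only [Pi.smul_apply, eb, smul_eq_mul]
    by_cases h0 : 0 < i
    · rw [if_pos h0]
      by_cases h : (a : ℕ) + 1 = i ∧ (b : ℕ) = 0
      · rw [if_pos h, if_pos ⟨by omega, h.2⟩, mul_one]
        simp
      · rw [if_neg h, if_neg (by omega), mul_zero]
    · rw [if_neg h0, if_neg (by omega), zero_mul]
  · funext ⟨a, b⟩
    rw [L_EFeb_col n i j hi hj, L_EFeb_DF]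
    simp only [Pi.add_apply, Pi.smul_apply, eb, smul_eq_mul]
    congr 1
    by_cases h : (a : ℕ) = i ∧ (b : ℕ) = j + 1
    · rw [if_pos h, if_pos h, mul_one]
    · rw [if_neg h, if_neg h, mul_zero]

end AJM

end

section

/-!
# MP_d3fa71_gt, project Mut, block V: existence of eigenvectors
-/

namespace AJM

theorem L_EigEx_root {F : Type} [Field F] [IsAlgClosed F] (t : F) :
    ∃ w : F, w ^ 2 - t * w + 1 = 0 := by
  have hd : (Polynomial.X ^ 2 - Polynomial.C t * Polynomial.X + 1 : Polynomial F).degree = 2 := by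
    compute_degree!
  obtain ⟨w, hw⟩ := IsAlgClosed.exists_root
    (Polynomial.X ^ 2 - Polynomial.C t * Polynomial.X + 1 : Polynomial F)
    (by rw [hd]; norm_num)
  refine ⟨w, ?_⟩
  simpa [Polynomial.IsRoot] using hw

theorem prf_EigEx : EigEx := by
  intro F _ _ x
  obtain ⟨w, hw⟩ := L_EigEx_root (tr x)
  have h1 : w * (tr x - w) = 1 := by linear_combination -hw
  have h2 : (tr x - w) * w = 1 := by rw [mul_comm]; exact h1
  have hdet : (x.1 - w • (1 : Matrix (Fin 2) (Fin 2) F)).det = 0 := by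
    have hx := G_det x
    rw [Matrix.det_fin_two]
    simp only [Matrix.sub_apply, Matrix.smul_apply, Matrix.one_apply_eq, smul_eq_mul, mul_one,
      ne_eq, zero_ne_one, one_ne_zero, not_false_eq_true, Matrix.one_apply_ne, mul_zero, sub_zero]
    unfold tr at hw
    linear_combination hw + hx
  obtain ⟨v, hv0, hv⟩ := Matrix.exists_mulVec_eq_zero_iff.2 hdet
  have hv' : Matrix.mulVec x.1 v = w • v := by
    rw [Matrix.sub_mulVec, Matrix.smul_mulVec, Matrix.one_mulVec, sub_eq_zero] at hv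
    exact hv
  by_cases h0 : v 0 = 0
  · have h1' : v 1 ≠ 0 := by
      intro h3
      apply hv0
      ext i
      fin_cases i
      · exact h0
      · exact h3
    refine ⟨⟨w, tr x - w, h1, h2⟩, v, ![0, (v 1)⁻¹], hv', ?_, ?_⟩
    · simp [h1']
    · change tr x = w + (tr x - w)
      ring
  · refine ⟨⟨w, tr x - w, h1, h2⟩, v, ![(v 0)⁻¹, 0], hv', ?_, ?_⟩
    · simp [h0]
    · change tr x = w + (tr x - w)
      ring

end AJM

end

section

set_option autoImplicit false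

/-!
# MP_d3fa71_gt, project Mut: eigenvectors of powers
-/

namespace AJM

theorem L_EigPow_nat {F : Type} [Field F] (x : G F) (ω : Fˣ) (v : Fin 2 → F) (n : ℕ)
    (h : Matrix.mulVec x.1 v = (ω : F) • v) :
    Matrix.mulVec (x ^ n).1 v = ((ω ^ n : Fˣ) : F) • v := by
  induction n with
  | zero =>
    rw [pow_zero, pow_zero, Units.val_one, one_smul]
    exact Matrix.one_mulVec v
  | succ n ih =>
    have e : (x ^ (n + 1)).1 = (x ^ n).1 * x.1 := by rw [pow_succ]; rfl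
    rw [e, ← Matrix.mulVec_mulVec, h, Matrix.mulVec_smul, ih, smul_smul, pow_succ,
      Units.val_mul, mul_comm]

theorem L_EigPow_inv {F : Type} [Field F] (x : G F) (ω : Fˣ) (v : Fin 2 → F)
    (h : Matrix.mulVec x.1 v = (ω : F) • v) :
    Matrix.mulVec (x⁻¹ : G F).1 v = ((ω⁻¹ : Fˣ) : F) • v := by
  have e : (x⁻¹ : G F).1 * x.1 = 1 := by
    have := inv_mul_cancel x
    exact congrArg Subtype.val this
  have h1 : Matrix.mulVec (x⁻¹ : G F).1 (Matrix.mulVec x.1 v) = v := by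
    rw [Matrix.mulVec_mulVec, e, Matrix.one_mulVec]
  rw [h, Matrix.mulVec_smul] at h1
  have h2 : ((ω⁻¹ : Fˣ) : F) • ((ω : F) • Matrix.mulVec (x⁻¹ : G F).1 v) =
      ((ω⁻¹ : Fˣ) : F) • v := by rw [h1]
  rwa [smul_smul, Units.inv_mul, one_smul] at h2

theorem prf_EigPow : EigPow := by
  intro F _ x ω v n h
  obtain ⟨k, rfl | rfl⟩ := n.eq_nat_or_neg
  · rw [zpow_natCast, zpow_natCast]
    exact L_EigPow_nat x ω v k h
  · rw [zpow_neg, zpow_neg, zpow_natCast, zpow_natCast]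
    exact L_EigPow_inv (x ^ k) (ω ^ k) v (L_EigPow_nat x ω v k h)

end AJM

end

section

/-!
# MP_d3fa71_gt, project Mut, item EoTwo: the action of `E`, `F` on lists with two entries
-/

set_option autoImplicit false

open Matrix
open scoped Kronecker

namespace AJM

theorem L_EoTwo_one (n : ℕ) (x a : Fin n) :
    (1 : Matrix (Fin n) (Fin n) (RatFunc ℚ)) x a = if x = a then 1 else 0 := Matrix.one_apply

/-- A sum over pairs with a Kronecker delta in the first entry. -/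
theorem L_EoTwo_sum1 (n : ℕ) (a : Fin n) (s : List (Fin n)) (g : Fin n → RatFunc ℚ)
    (c : Fin n → RatFunc ℚ) :
    ∑ x : Fin n, ∑ y : Fin n,
      (Finsupp.single (x :: y :: s) ((if x = a then c x else 0) * g y) : TT n) =
    ∑ y : Fin n, Finsupp.single (a :: y :: s) (c a * g y) := by
  rw [Finset.sum_eq_single a]
  · apply Finset.sum_congr rfl
    intro y _
    rw [if_pos rfl]
  · intro x _ hx
    apply Finset.sum_eq_zero
    intro y _
    rw [if_neg hx, zero_mul, Finsupp.single_zero]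
  · intro h
    exact absurd (Finset.mem_univ a) h

theorem L_EoTwo_sum2 (n : ℕ) (b : Fin n) (s : List (Fin n)) (g : Fin n → RatFunc ℚ)
    (c : Fin n → RatFunc ℚ) :
    ∑ x : Fin n, ∑ y : Fin n,
      (Finsupp.single (x :: y :: s) (g x * (if y = b then c y else 0)) : TT n) =
    ∑ x : Fin n, Finsupp.single (x :: b :: s) (g x * c b) := by
  apply Finset.sum_congr rfl
  intro x _
  rw [Finset.sum_eq_single b]
  · rw [if_pos rfl]
  · intro y _ hy
    rw [if_neg hy, mul_zero, Finsupp.single_zero]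
  · intro h
    exact absurd (Finset.mem_univ b) h

theorem L_EoTwo_DE (n : ℕ) (a b : Fin n) (s : List (Fin n)) (k : RatFunc ℚ) :
    ∑ p : Fin n × Fin n, (Finsupp.single (p.1 :: p.2 :: s) (k * DE n p (a, b)) : TT n) =
    ∑ y : Fin n, Finsupp.single (a :: y :: s) (k * Em n y b) +
      ∑ x : Fin n, Finsupp.single (x :: b :: s) (k * Em n x a * tq ^ (2 * wt n b)) := by
  rw [Fintype.sum_prod_type]
  have h1 : ∀ x y : Fin n,
      (Finsupp.single (x :: y :: s) (k * DE n (x, y) (a, b)) : TT n) =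
      Finsupp.single (x :: y :: s) ((if x = a then (fun _ => k) x else 0) * Em n y b) +
      Finsupp.single (x :: y :: s)
        (k * Em n x a * (if y = b then (fun y => tq ^ (2 * wt n y)) y else 0)) := by
    intro x y
    rw [← Finsupp.single_add]
    congr 1
    unfold DE Km
    rw [Matrix.add_apply, Matrix.kroneckerMap_apply, Matrix.kroneckerMap_apply, L_EoTwo_one,
      Matrix.diagonal_apply]
    simp only []
    split_ifs <;> ring
  simp only [h1, Finset.sum_add_distrib]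
  rw [L_EoTwo_sum1 n a s (fun y => Em n y b) (fun _ => k),
    L_EoTwo_sum2 n b s (fun x => k * Em n x a) (fun y => tq ^ (2 * wt n y))]

theorem L_EoTwo_DF (n : ℕ) (a b : Fin n) (s : List (Fin n)) :
    ∑ p : Fin n × Fin n, (Finsupp.single (p.1 :: p.2 :: s) (DF n p (a, b)) : TT n) =
    ∑ y : Fin n, Finsupp.single (a :: y :: s) (tq ^ (-(2 * wt n a)) * Fm n y b) +
      ∑ x : Fin n, Finsupp.single (x :: b :: s) (Fm n x a) := by
  rw [Fintype.sum_prod_type]
  have h1 : ∀ x y : Fin n,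
      (Finsupp.single (x :: y :: s) (DF n (x, y) (a, b)) : TT n) =
      Finsupp.single (x :: y :: s)
        ((if x = a then (fun x => tq ^ (-(2 * wt n x))) x else 0) * Fm n y b) +
      Finsupp.single (x :: y :: s)
        (Fm n x a * (if y = b then (fun _ => (1 : RatFunc ℚ)) y else 0)) := by
    intro x y
    rw [← Finsupp.single_add]
    congr 1
  simp only [h1, Finset.sum_add_distrib]
  rw [L_EoTwo_sum1 n a s (fun y => Fm n y b) (fun x => tq ^ (-(2 * wt n x))),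
    L_EoTwo_sum2 n b s (fun x => Fm n x a) (fun _ => (1 : RatFunc ℚ))]
  simp only [mul_one]

theorem L_EoTwo_kk (n : ℕ) (b : Fin n) (s : List (Fin n)) :
    kk n (b :: s) = tq ^ (2 * wt n b) * kk n s := by
  unfold kk
  rw [List.map_cons, List.prod_cons]

theorem L_EoTwo_t : tq ≠ 0 := RatFunc.X_ne_zero

theorem prf_EoTwo : EoTwo := by
  intro n a b s
  refine ⟨?_, ?_, ?_⟩
  · rw [L_EoTwo_DE]
    show Finsupp.mapDomain (a :: ·) (Finsupp.mapDomain (b :: ·) (eL n s) +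
      ∑ y : Fin n, Finsupp.single (y :: s) (kk n s * Em n y b)) +
      ∑ y : Fin n, Finsupp.single (y :: b :: s) (kk n (b :: s) * Em n y a) = _
    rw [Finsupp.mapDomain_add, ← Finsupp.mapDomain_comp, Finsupp.mapDomain_finsetSum, add_assoc]
    congr 1
    congr 1
    · apply Finset.sum_congr rfl
      intro y _
      rw [Finsupp.mapDomain_single]
    · apply Finset.sum_congr rfl
      intro y _
      rw [L_EoTwo_kk]
      congr 1
      ring
  · rw [L_EoTwo_DF]
    show tq ^ (-(2 * wt n a)) • Finsupp.mapDomain (a :: ·)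
      (tq ^ (-(2 * wt n b)) • Finsupp.mapDomain (b :: ·) (fL n s) +
      ∑ y : Fin n, Finsupp.single (y :: s) (Fm n y b)) +
      ∑ y : Fin n, Finsupp.single (y :: b :: s) (Fm n y a) = _
    rw [Finsupp.mapDomain_add, Finsupp.mapDomain_smul, ← Finsupp.mapDomain_comp,
      Finsupp.mapDomain_finsetSum, smul_add, smul_smul, ← zpow_add₀ L_EoTwo_t, add_assoc,
      Finset.smul_sum]
    congr 1
    · congr 2
      ring
    · congr 1
      apply Finset.sum_congr rfl
      intro y _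
      rw [Finsupp.mapDomain_single, Finsupp.smul_single, smul_eq_mul]
  · rw [L_EoTwo_kk, L_EoTwo_kk, ← mul_assoc, ← zpow_add₀ L_EoTwo_t]
    congr 2
    ring

end AJM

end

section

set_option autoImplicit false

/-!
# MP_d3fa71_gt, project Mut: roots of the polynomials `E_n`
-/

namespace AJM

theorem EpRoot_formula (x : ℝ) (n : ℕ) :
    Ep n (2 * Real.cos x) * Real.cos (x / 2) = Real.cos ((2 * n + 1) * (x / 2)) ∧
    Ep (n + 1) (2 * Real.cos x) * Real.cos (x / 2) = Real.cos ((2 * n + 3) * (x / 2)) := by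
  induction n with
  | zero =>
    constructor
    · simp [Ep]
    · have h := Real.cos_add x (x / 2)
      have h' := Real.cos_sub x (x / 2)
      have e1 : (2 * ((0 : ℕ) : ℝ) + 3) * (x / 2) = x + x / 2 := by push_cast; ring
      have e2 : x - x / 2 = x / 2 := by ring
      rw [e1]
      rw [e2] at h'
      simp only [Ep]
      linarith
  | succ n ih =>
    refine ⟨?_, ?_⟩
    · have e : (2 * ((n + 1 : ℕ) : ℝ) + 1) * (x / 2) = (2 * (n : ℝ) + 3) * (x / 2) := by
        push_cast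
        ring
      rw [e]
      exact ih.2
    · have h := Real.cos_add ((2 * (n : ℝ) + 3) * (x / 2)) x
      have h' := Real.cos_sub ((2 * (n : ℝ) + 3) * (x / 2)) x
      have e1 : (2 * ((n + 1 : ℕ) : ℝ) + 3) * (x / 2) = (2 * (n : ℝ) + 3) * (x / 2) + x := by
        push_cast
        ring
      have e2 : (2 * (n : ℝ) + 3) * (x / 2) - x = (2 * (n : ℝ) + 1) * (x / 2) := by ring
      rw [e1]
      rw [e2] at h'
      have e3 : Ep (n + 1 + 1) (2 * Real.cos x) =
          2 * Real.cos x * Ep (n + 1) (2 * Real.cos x) - Ep n (2 * Real.cos x) := rfl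
      rw [e3, sub_mul, ih.1, mul_assoc, ih.2]
      linarith

theorem EpRoot_zero (j : ℕ) (hj : 1 ≤ j) :
    Ep j (2 * Real.cos (Real.pi / (2 * j + 1))) = 0 := by
  have hj' : (1 : ℝ) ≤ j := by exact_mod_cast hj
  have hp := Real.pi_pos
  have h := (EpRoot_formula (Real.pi / (2 * j + 1)) j).1
  have e : (2 * (j : ℝ) + 1) * (Real.pi / (2 * j + 1) / 2) = Real.pi / 2 := by
    have : (2 * (j : ℝ) + 1) ≠ 0 := by linarith
    field_simp
  rw [e, Real.cos_pi_div_two] at h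
  have hc : 0 < Real.cos (Real.pi / (2 * j + 1) / 2) := by
    apply Real.cos_pos_of_mem_Ioo
    have h1 : 0 < Real.pi / (2 * (j : ℝ) + 1) := by positivity
    have h2 : Real.pi / (2 * (j : ℝ) + 1) < Real.pi := by
      rw [div_lt_iff₀ (by linarith)]
      nlinarith
    constructor <;> linarith
  rcases mul_eq_zero.1 h with h' | h'
  · exact h'
  · exact absurd h' hc.ne'

theorem EpRoot_cast (n : ℕ) (y : ℝ) : Ep n ((y : ℝ) : ℂ) = ((Ep n y : ℝ) : ℂ) ∧
    Ep (n + 1) ((y : ℝ) : ℂ) = ((Ep (n + 1) y : ℝ) : ℂ) := by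
  induction n with
  | zero =>
    constructor
    · simp [Ep]
    · simp [Ep]
  | succ n ih =>
    refine ⟨ih.2, ?_⟩
    have e3 : Ep (n + 1 + 1) ((y : ℝ) : ℂ) =
          (y : ℂ) * Ep (n + 1) ((y : ℝ) : ℂ) - Ep n ((y : ℝ) : ℂ) := rfl
    have e4 : Ep (n + 1 + 1) y = y * Ep (n + 1) y - Ep n y := rfl
    rw [e3, e4, ih.1, ih.2]
    push_cast
    ring

theorem EpRoot_lt (j' j : ℕ) (h : 1 ≤ j') (h' : j' < j) :
    Real.cos (Real.pi / (2 * j' + 1)) < Real.cos (Real.pi / (2 * j + 1)) := by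
  have hp := Real.pi_pos
  have h1 : (1 : ℝ) ≤ j' := by exact_mod_cast h
  have h2 : (j' : ℝ) < j := by exact_mod_cast h'
  apply Real.cos_lt_cos_of_nonneg_of_le_pi
  · positivity
  · rw [div_le_iff₀ (by linarith)]
    nlinarith
  · apply div_lt_div_of_pos_left hp (by linarith) (by linarith)

theorem prf_EpRoot : EpRoot := by
  intro j' j h h'
  refine ⟨((2 * Real.cos (Real.pi / (2 * j' + 1)) : ℝ) : ℂ),
    ((2 * Real.cos (Real.pi / (2 * j + 1)) : ℝ) : ℂ), ?_, ?_, ?_⟩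
  · rw [(EpRoot_cast j' _).1, EpRoot_zero j' h, Complex.ofReal_zero]
  · rw [(EpRoot_cast j _).1, EpRoot_zero j (by omega), Complex.ofReal_zero]
  · intro he
    have h1 := Complex.ofReal_injective he
    have h2 := EpRoot_lt j' j h h'
    linarith

end AJM

end

section

/-!
# MP_d3fa71_gt, project Mut, block Q: exchange of two words on two strands
-/

set_option autoImplicit false

namespace AJM

theorem L_Exch_mo (n : ℕ) (B : Matrix (Fin n × Fin n) (Fin n × Fin n) (RatFunc ℚ))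
    (a b : Fin n) (s : List (Fin n)) :
    mo n B (Finsupp.single (a :: b :: s) 1) =
      ∑ p : Fin n × Fin n, B p (a, b) • Finsupp.single (p.1 :: p.2 :: s) (1 : RatFunc ℚ) := by
  rw [mo, Finsupp.linearCombination_single, one_smul, mL]
  refine Finset.sum_congr rfl fun p _ => ?_
  rw [Finsupp.smul_single, smul_eq_mul, mul_one]

theorem L_Exch_comp (n : ℕ) (w : List Mv)
    (A B : Matrix (Fin n × Fin n) (Fin n × Fin n) (RatFunc ℚ))
    (hA : ∀ (a b : Fin n) (s : List (Fin n)),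
      opw n w (Finsupp.single (a :: b :: s) 1) = mo n A (Finsupp.single (a :: b :: s) 1))
    (a b : Fin n) (s : List (Fin n)) :
    opw n w (mo n B (Finsupp.single (a :: b :: s) 1)) =
      mo n A (mo n B (Finsupp.single (a :: b :: s) 1)) := by
  rw [L_Exch_mo, map_sum, map_sum]
  refine Finset.sum_congr rfl fun p _ => ?_
  rw [map_smul, map_smul, hA]

theorem prf_Exch (hMat2 : Mat2) (hMoMul : MoMul) (hComm2 : Comm2) (hOpwAppend : OpwAppend) :
    Exch := by
  intro n w₁ w₂ h₁ h₂ a b s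
  obtain ⟨A₁, hc₁, hA₁⟩ := hMat2 n w₁ h₁
  obtain ⟨A₂, hc₂, hA₂⟩ := hMat2 n w₂ h₂
  have e1 : mo n A₂ (mo n A₁ (Finsupp.single (a :: b :: s) 1)) =
      mo n (A₂ * A₁) (Finsupp.single (a :: b :: s) 1) := by
    rw [← hMoMul]
    rfl
  have e2 : mo n A₁ (mo n A₂ (Finsupp.single (a :: b :: s) 1)) =
      mo n (A₁ * A₂) (Finsupp.single (a :: b :: s) 1) := by
    rw [← hMoMul]
    rfl
  rw [hOpwAppend, hOpwAppend, LinearMap.comp_apply, LinearMap.comp_apply, hA₁, hA₂,
    L_Exch_comp n w₂ A₂ A₁ hA₂, L_Exch_comp n w₁ A₁ A₂ hA₁, e1, e2, hComm2 n A₂ A₁ hc₂ hc₁]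

end AJM

end

section

set_option autoImplicit false

namespace AJM

theorem FitsTw_append (w1 w2 : List Mv) : ∀ (m m' m'' : ℕ), Fits w1 m m' → Fits w2 m' m'' →
    Fits (w1 ++ w2) m m'' := by
  induction w1 with
  | nil => intro m m' m'' h1 h2; have h : m = m' := h1; subst h; exact h2
  | cons a w ih =>
    obtain ⟨k, i⟩ := a
    intro m m' m'' h1 h2
    cases k
    · exact ⟨h1.1, ih _ _ _ h1.2 h2⟩
    · exact ⟨h1.1, ih _ _ _ h1.2 h2⟩
    · exact ⟨h1.1, ih _ _ _ h1.2 h2⟩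
    · exact ⟨h1.1, ih _ _ _ h1.2 h2⟩

theorem FitsTw_up (r : ℕ) (w : List Mv) : ∀ (m m' : ℕ), Fits w m m' → Fits w (m + r) (m' + r) := by
  induction w with
  | nil => intro m m' h; have h' : m = m' := h; subst h'; exact rfl
  | cons a w ih =>
    obtain ⟨k, i⟩ := a
    intro m m' h
    cases k
    · refine ⟨le_trans h.1 (Nat.le_add_right _ _), ?_⟩
      have h2 := ih _ _ h.2
      rwa [show m + r + 2 = m + 2 + r by omega]
    · have h1 : i + 2 ≤ m := h.1
      refine ⟨by omega, ?_⟩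
      have h2 := ih _ _ h.2
      rwa [show m + r - 2 = m - 2 + r by omega]
    · have h1 : i + 2 ≤ m := h.1
      exact ⟨by omega, ih _ _ h.2⟩
    · have h1 : i + 2 ≤ m := h.1
      exact ⟨by omega, ih _ _ h.2⟩

theorem FitsTw_sh (k : ℕ) (w : List Mv) : ∀ (m m' : ℕ), Fits w m m' →
    Fits (sh k w) (m + k) (m' + k) := by
  induction w with
  | nil => intro m m' h; have h' : m = m' := h; subst h'; exact rfl
  | cons a w ih =>
    obtain ⟨c, i⟩ := a
    intro m m' h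
    cases c
    · have h1 : i ≤ m := h.1
      refine ⟨by omega, ?_⟩
      have h2 := ih _ _ h.2
      rwa [show m + k + 2 = m + 2 + k by omega]
    · have h1 : i + 2 ≤ m := h.1
      refine ⟨by omega, ?_⟩
      have h2 := ih _ _ h.2
      rwa [show m + k - 2 = m - 2 + k by omega]
    · have h1 : i + 2 ≤ m := h.1
      exact ⟨by omega, ih _ _ h.2⟩
    · have h1 : i + 2 ≤ m := h.1
      exact ⟨by omega, ih _ _ h.2⟩

theorem FitsTw_repl (k : Kd) (hk : k = .pos ∨ k = .neg) (n m : ℕ) (hm : 2 ≤ m) :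
    Fits (List.replicate n (k, 0)) m m := by
  induction n with
  | zero => exact rfl
  | succ n ih =>
    rw [List.replicate_succ]
    rcases hk with rfl | rfl
    · exact ⟨by omega, ih⟩
    · exact ⟨by omega, ih⟩

theorem FitsTw_tws (n : ℤ) (m : ℕ) (hm : 2 ≤ m) : Fits (tws n) m m := by
  unfold tws
  split_ifs
  · exact FitsTw_repl _ (Or.inl rfl) _ _ hm
  · exact FitsTw_repl _ (Or.inr rfl) _ _ hm

theorem FitsTw_rot (w : List Mv) (h : Fits w 2 2) : Fits (rot w) 2 2 := by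
  have h1 : Fits (sh 1 w) 4 4 := FitsTw_sh 1 w 3 3 (FitsTw_up 1 w 2 2 h)
  have h2 : Fits ((.cup, 2) :: sh 1 w) 2 4 := ⟨le_refl _, h1⟩
  exact FitsTw_append _ _ _ _ _ h2 ⟨by omega, rfl⟩

theorem FitsTw_rep (w : List Mv) (m : ℕ) (h : Fits w m m) (n : ℕ) : Fits (rep n w) m m := by
  induction n with
  | zero => exact rfl
  | succ n ih =>
    have : rep (n + 1) w = w ++ rep n w := by
      unfold rep
      rw [List.replicate_succ, List.flatten_cons]
    rw [this]
    exact FitsTw_append _ _ _ _ _ h ih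

theorem FitsTw_two (w w' : List Mv) (h : Fits w 2 2) (h' : Fits w' 2 2) :
    Fits (w ++ w') 2 2 := FitsTw_append _ _ _ _ _ h h'

theorem FitsTw_t (n : ℤ) : Fits (tws n) 2 2 := FitsTw_tws n 2 le_rfl

/-- cup on top, a word below the first strand, a cap. -/
theorem FitsTw_cc (w : List Mv) (h : Fits w 3 3) (i : ℕ) (hi : i + 2 ≤ 4) :
    Fits ((.cup, 0) :: sh 1 w ++ [(.cap, i)]) 2 2 := by
  have h1 : Fits (sh 1 w) 4 4 := FitsTw_sh 1 w 3 3 h
  have h2 : Fits ((.cup, 0) :: sh 1 w) 2 4 := ⟨Nat.zero_le _, h1⟩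
  exact FitsTw_append _ _ _ _ _ h2 ⟨hi, rfl⟩

theorem prf_FitsTw : FitsTw := by
  have ht : ∀ n : ℤ, Fits (tws n) 3 3 := fun n => FitsTw_tws n 3 (by norm_num)
  constructor
  · unfold Tw Bw Pw Gw Pr Gr Col
    simp only [List.nil_append, List.append_nil]
    refine FitsTw_two _ _ (FitsTw_two _ _ (FitsTw_two _ _ (FitsTw_two _ _ (FitsTw_two _ _ ?_ ?_)
      ?_) ?_) ?_) ?_
    · exact FitsTw_rot _ (FitsTw_two _ _ (FitsTw_two _ _ (FitsTw_two _ _
        (FitsTw_rot _ (FitsTw_t _)) (FitsTw_rot _ (FitsTw_t _))) (FitsTw_rot _ (FitsTw_t _)))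
        (FitsTw_rot _ (FitsTw_t _)))
    · exact FitsTw_t _
    · exact FitsTw_rot _ (FitsTw_t _)
    · exact FitsTw_rot _ (FitsTw_t _)
    · exact FitsTw_cc _ (ht _) 2 le_rfl
    · exact FitsTw_cc _ (ht _) 2 le_rfl
  · intro k
    unfold Fw
    simp only [List.nil_append]
    refine FitsTw_two _ _ (FitsTw_cc _ (FitsTw_rep _ 3 ?_ _) 0 (by norm_num)) (FitsTw_t _)
    exact ⟨by norm_num, by norm_num, by norm_num, by norm_num, rfl⟩

end AJM

end

section

/-!
# MP_d3fa71_gt, project Mut: frames exist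
-/

namespace AJM

theorem L_FrameEx_of {R : Type} [CommRing R] (M : Rˣ) (x r : G R) (h : x * r = r * dg M) :
    mer M r = x := by
  unfold mer
  rw [← h, mul_inv_cancel_right]

theorem prf_FrameEx : FrameEx := by
  intro F _ M x hM hx
  have hMM : (M : F) * ((M⁻¹ : Fˣ) : F) = 1 := by simp
  set N : F := ((M⁻¹ : Fˣ) : F) with hN
  set m : F := (M : F) with hm
  have hMN : m - N ≠ 0 := by
    intro h0
    apply hM
    have h1 : m = N := sub_eq_zero.1 h0
    rw [pow_two]; nth_rewrite 2 [h1]; exact hMM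
  have hd := G_det x
  have ht : x.1 0 0 + x.1 1 1 = m + N := hx
  by_cases h10 : x.1 1 0 = 0
  · have hq : (x.1 0 0 - m) * (x.1 0 0 - N) = 0 := by
      rw [h10] at hd
      linear_combination (-1 : F) * hd + x.1 0 0 * ht + hMM
    rcases mul_eq_zero.1 hq with h | h
    · have h0 : x.1 0 0 = m := sub_eq_zero.1 h
      have h1 : x.1 1 1 = N := by linear_combination ht - h0
      let r : G F := ⟨!![1, x.1 0 1 / (N - m); 0, 1], by simp [Matrix.det_fin_two_of]⟩
      have hNm : N - m ≠ 0 := by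
        intro h; apply hMN; linear_combination -h
      refine ⟨r, L_FrameEx_of M x r ?_⟩
      have r00 : r.1 0 0 = 1 := rfl
      have r01 : r.1 0 1 = x.1 0 1 / (N - m) := rfl
      have r10 : r.1 1 0 = 0 := rfl
      have r11 : r.1 1 1 = 1 := rfl
      ext
      · rw [G_mul00, G_mul00, r00, r10, r01, h0, dg00, dg10]; ring
      · rw [G_mul01, G_mul01, r00, r01, r11, h0, dg01, dg11, ← hN]
        field_simp
        ring
      · rw [G_mul10, G_mul10, r00, r10, r11, h10, dg00, dg10]; ring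
      · rw [G_mul11, G_mul11, r01, r10, r11, h10, h1, dg01, dg11, ← hN]; ring
    · have h0 : x.1 0 0 = N := sub_eq_zero.1 h
      have h1 : x.1 1 1 = m := by linear_combination ht - h0
      let r : G F := ⟨!![x.1 0 1 / (m - N), -1; 1, 0], by simp [Matrix.det_fin_two_of]⟩
      refine ⟨r, L_FrameEx_of M x r ?_⟩
      have r00 : r.1 0 0 = x.1 0 1 / (m - N) := rfl
      have r01 : r.1 0 1 = -1 := rfl
      have r10 : r.1 1 0 = 1 := rfl
      have r11 : r.1 1 1 = 0 := rfl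
      ext
      · rw [G_mul00, G_mul00, r00, r10, r01, h0, dg00, dg10]
        field_simp
        ring
      · rw [G_mul01, G_mul01, r00, r01, r11, h0, dg01, dg11, ← hN]; ring
      · rw [G_mul10, G_mul10, r00, r10, r11, h10, h1, dg00, dg10]; ring
      · rw [G_mul11, G_mul11, r01, r10, r11, h10, dg01, dg11, ← hN]; ring
  · have hD : x.1 1 0 * (m - N) ≠ 0 := mul_ne_zero h10 hMN
    let r : G F := ⟨!![(x.1 0 0 - N) / (x.1 1 0 * (m - N)), x.1 0 0 - m;
        x.1 1 0 / (x.1 1 0 * (m - N)), x.1 1 0], by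
      rw [Matrix.det_fin_two_of]
      field_simp
      ring⟩
    refine ⟨r, L_FrameEx_of M x r ?_⟩
    have r00 : r.1 0 0 = (x.1 0 0 - N) / (x.1 1 0 * (m - N)) := rfl
    have r01 : r.1 0 1 = x.1 0 0 - m := rfl
    have r10 : r.1 1 0 = x.1 1 0 / (x.1 1 0 * (m - N)) := rfl
    have r11 : r.1 1 1 = x.1 1 0 := rfl
    ext
    · rw [G_mul00, G_mul00, r00, r10, r01, dg00, dg10]
      rw [← mul_div_assoc, ← mul_div_assoc, mul_zero, add_zero, ← add_div, div_mul_eq_mul_div]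
      congr 1
      linear_combination (-1 : F) * hd + x.1 0 0 * ht + hMM
    · rw [G_mul01, G_mul01, r00, r01, r11, dg01, dg11, ← hN]
      linear_combination (-1 : F) * hd + x.1 0 0 * ht + hMM
    · rw [G_mul10, G_mul10, r00, r10, r11, dg00, dg10]
      rw [← mul_div_assoc, ← mul_div_assoc, mul_zero, add_zero, ← add_div, div_mul_eq_mul_div]
      congr 1
      linear_combination x.1 1 0 * ht
    · rw [G_mul11, G_mul11, r01, r10, r11, dg01, dg11, ← hN]
      linear_combination x.1 1 0 * ht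

end AJM

end

section

/-!
# MP_d3fa71_gt, project Mut, item FrameUniq
-/

set_option autoImplicit false

namespace AJM

theorem FrameUniq_ne {F : Type} [Field F] (M : Fˣ) (hM : (M : F) ^ 2 ≠ 1) :
    (M : F) ≠ ((M⁻¹ : Fˣ) : F) := by
  intro h
  apply hM
  have h1 : (M : F) * ((M⁻¹ : Fˣ) : F) = 1 := Units.mul_inv M
  rw [sq]
  nth_rewrite 2 [h]
  exact h1

theorem prf_FrameUniq : FrameUniq := by
  intro F _ M h k hM hm
  have hne := FrameUniq_ne M hM
  set D : G F := h⁻¹ * k with hD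
  have hcomm : dg M * D = D * dg M := by
    have h1 : h⁻¹ * (mer M h) * k = dg M * D := by
      unfold mer
      rw [hD]
      group
    have h2 : h⁻¹ * (mer M k) * k = D * dg M := by
      unfold mer
      rw [hD]
      group
    rw [← h1, ← h2, hm]
  have hmat : (dg M).1 * D.1 = D.1 * (dg M).1 := by
    have := congrArg Subtype.val hcomm
    exact this
  have e01 := congrFun (congrFun hmat 0) 1
  have e10 := congrFun (congrFun hmat 1) 0
  simp only [dg, Matrix.mul_apply, Fin.sum_univ_two, Matrix.of_apply, Matrix.cons_val_zero,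
    Matrix.cons_val_one, Matrix.cons_val', Matrix.empty_val', Matrix.cons_val_fin_one] at e01 e10
  have d01 : D.1 0 1 = 0 := by
    have h3 : D.1 0 1 * ((M : F) - ((M⁻¹ : Fˣ) : F)) = 0 := by
      linear_combination e01
    exact (mul_eq_zero.1 h3).resolve_right (sub_ne_zero.2 hne)
  have d10 : D.1 1 0 = 0 := by
    have h3 : D.1 1 0 * ((M : F) - ((M⁻¹ : Fˣ) : F)) = 0 := by
      linear_combination -e10
    exact (mul_eq_zero.1 h3).resolve_right (sub_ne_zero.2 hne)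
  have hdet : D.1 0 0 * D.1 1 1 = 1 := by
    have h4 := D.2
    rw [Matrix.det_fin_two, d01, zero_mul, sub_zero] at h4
    exact h4
  refine ⟨⟨D.1 0 0, D.1 1 1, hdet, by rw [mul_comm]; exact hdet⟩, ?_⟩
  have hDd : D = dg ⟨D.1 0 0, D.1 1 1, hdet, by rw [mul_comm]; exact hdet⟩ := by
    apply Subtype.ext
    ext i j
    fin_cases i <;> fin_cases j
    · rfl
    · exact d01
    · exact d10
    · rfl
  rw [← hDd, hD]
  group

end AJM

end

section

namespace AJM

theorem FwInv_cup {R : Type} [CommRing R] {M : Rˣ} {s s' : List (G R)} {τ : Rˣ}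
    (h : Path M [(.cup, 0)] s s' τ) : ∃ p : G R, s' = p :: p * J :: s ∧ τ = 1 := by
  cases h with
  | cons h1 h2 =>
    cases h2
    cases h1
    exact ⟨_, rfl, by simp⟩

theorem FwInv_cap {R : Type} [CommRing R] {M : Rˣ} {a b : G R} {s s' : List (G R)} {τ : Rˣ}
    (h : Path M [(.cap, 0)] (a :: b :: s) s' τ) : s' = s ∧ b = a * J * dg τ := by
  cases h with
  | cons h1 h2 =>
    cases h2
    cases h1
    exact ⟨rfl, by simp⟩

theorem prf_FwInv (hPathAppend : PathAppend) (hPathShift : PathShift) (hPathDet : PathDet)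
    (hTwsPath : TwsPath) (hWindPath : WindPath) : FwInv := by
  intro R _ M k ha hb x y τ hP
  have e : Fw k [] = [(.cup, 0)] ++ (sh 1 (rep (2 * k) Wind) ++
      ([(.cap, 0)] ++ tws (2 * (-(k : ℤ))))) := by
    simp [Fw, sh, show (-2 * (k : ℤ)) = 2 * (-(k : ℤ)) by ring]
  rw [e] at hP
  obtain ⟨s1, t1, u1, p1, hP, et1⟩ := (hPathAppend R M _ _ _ _ _).1 hP
  obtain ⟨s2, t2, u2, p2, hP, et2⟩ := (hPathAppend R M _ _ _ _ _).1 hP
  obtain ⟨s3, t3, t4, p3, p4, et3⟩ := (hPathAppend R M _ _ _ _ _).1 hP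
  obtain ⟨p, rfl, rfl⟩ := FwInv_cup p1
  have hsh := (hPathShift R M (rep (2 * k) Wind) [p] [p * J, ha, hb] s2 t2).1 (by simpa using p2)
  obtain ⟨s2', hs2, p2'⟩ := hsh
  set r := p * J with hr
  set g := mer M ha * mer M hb with hg
  set H := mer M r * g with hH
  have hw := hWindPath R M (2 * k) r ha hb []
  have hbr : ∀ m ∈ rep (2 * k) Wind, m.1 = Kd.pos ∨ m.1 = Kd.neg := by
    intro m hm
    unfold rep at hm
    obtain ⟨l, hl, hm⟩ := List.mem_flatten.1 hm
    rw [List.eq_of_mem_replicate hl] at hm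
    unfold Wind at hm
    simp only [List.mem_cons, List.not_mem_nil, or_false] at hm
    rcases hm with rfl | rfl | rfl | rfl <;> exact Or.inr rfl
  obtain ⟨e2, et⟩ := hPathDet R M _ _ _ _ _ _ hbr p2' hw
  subst e2
  subst et
  subst hs2
  simp only [List.singleton_append] at p3
  obtain ⟨rfl, hcap⟩ := FwInv_cap p3
  -- the closing condition of the coil component
  have hz : H ^ (2 * k) * r = r * dg (t3 * M ^ (2 * k : ℤ)) := by
    have hcap' : H ^ (2 * k) * r * dg (M ^ (-((2 * k : ℕ) : ℤ))) = r * dg t3 := hcap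
    calc H ^ (2 * k) * r
        = H ^ (2 * k) * r * dg (M ^ (-((2 * k : ℕ) : ℤ))) * dg (M ^ (2 * k : ℤ)) := by
          rw [mul_assoc (H ^ (2 * k) * r), ← dg_mul, ← zpow_add]
          push_cast
          simp
      _ = r * dg (t3 * M ^ (2 * k : ℤ)) := by rw [hcap', dg_mul, mul_assoc]
  have hcX : H ^ (2 * k) * mer M r = mer M r * H ^ (2 * k) := by
    have : mer M (H ^ (2 * k) * r) = mer M r := by rw [hz, mer_dg]
    rw [mer_mul] at this
    calc H ^ (2 * k) * mer M r = (H ^ (2 * k) * mer M r * (H ^ (2 * k))⁻¹) * H ^ (2 * k) := by group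
      _ = _ := by rw [this]
  have hcH : H ^ (2 * k) * H = H * H ^ (2 * k) := (Commute.pow_self H (2 * k)).eq
  have hcg : H ^ (2 * k) * g = g * H ^ (2 * k) := by
    have e1 : g = (mer M r)⁻¹ * H := by rw [hH]; group
    have h1 : H ^ (2 * k) * (mer M r)⁻¹ = (mer M r)⁻¹ * H ^ (2 * k) := by
      have := hcX
      calc H ^ (2 * k) * (mer M r)⁻¹ = (mer M r)⁻¹ * (mer M r * H ^ (2 * k)) * (mer M r)⁻¹ := by group
        _ = _ := by rw [← this]; group
    rw [e1, ← mul_assoc, h1, mul_assoc, hcH, ← mul_assoc]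
  have hprod : mer M (H ^ (2 * k) * (g ^ (2 * k))⁻¹ * ha) * mer M (H ^ (2 * k) * (g ^ (2 * k))⁻¹ * hb)
      = g := by
    rw [mer_mul, mer_mul]
    have hgg : (g ^ (2 * k))⁻¹ * g = g * (g ^ (2 * k))⁻¹ := by
      have := (Commute.pow_self g (2 * k)).eq
      calc (g ^ (2 * k))⁻¹ * g = (g ^ (2 * k))⁻¹ * (g * g ^ (2 * k)) * (g ^ (2 * k))⁻¹ := by group
        _ = _ := by rw [← this]; group
    calc _ = H ^ (2 * k) * ((g ^ (2 * k))⁻¹ * g) * (H ^ (2 * k) * (g ^ (2 * k))⁻¹)⁻¹ := by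
          rw [hg]; group
      _ = (H ^ (2 * k) * g) * (H ^ (2 * k))⁻¹ := by rw [hgg]; group
      _ = g := by rw [hcg]; group
  have htw := hTwsPath R M (-(k : ℤ)) (H ^ (2 * k) * (g ^ (2 * k))⁻¹ * ha)
    (H ^ (2 * k) * (g ^ (2 * k))⁻¹ * hb) []
  rw [hprod] at htw
  have hbr2 : ∀ m ∈ tws (2 * (-(k : ℤ))), m.1 = Kd.pos ∨ m.1 = Kd.neg := by
    intro m hm
    unfold tws at hm
    split_ifs at hm
    · rw [List.eq_of_mem_replicate hm]; exact Or.inl rfl
    · rw [List.eq_of_mem_replicate hm]; exact Or.inr rfl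
  obtain ⟨e4, et4⟩ := hPathDet R M _ _ _ _ _ _ hbr2 p4 htw
  simp only [List.cons.injEq, and_true, neg_neg, zpow_natCast] at e4
  obtain ⟨ex, ey⟩ := e4
  refine ⟨r, t3 * M ^ (2 * k : ℤ), hz, ?_, ?_, ?_⟩
  · rw [ex]
    show _ = g ^ k * H ^ (2 * k) * (g ^ (2 * k))⁻¹ * ha * dg (M ^ (-(k : ℤ)))
    simp only [mul_assoc]
  · rw [ey]
    show _ = g ^ k * H ^ (2 * k) * (g ^ (2 * k))⁻¹ * hb * dg (M ^ (-(k : ℤ)))
    simp only [mul_assoc]
  · rw [et1, et2, et3, et4, mul_assoc, ← zpow_add]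
    simp

end AJM

end

section

/-!
# Submodules containing `e_0 ⊗ e_{n-1}` and stable under `E`, `F` are everything
-/

open Matrix

namespace AJM

lemma L_GenTop_zero_right (n i j : ℕ) (h : n ≤ j) : eb n i j = 0 := by
  funext p
  unfold eb
  rw [if_neg]
  · rfl
  · rintro ⟨-, h2⟩
    have := p.2.isLt
    omega

lemma L_GenTop_expand (n : ℕ) (v : Fin n × Fin n → RatFunc ℚ) :
    v = ∑ p : Fin n × Fin n, v p • eb n p.1 p.2 := by
  funext q
  rw [Finset.sum_apply, Finset.sum_eq_single q]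
  · simp [eb]
  · intro p _ hp
    have : ¬ ((q.1 : ℕ) = p.1 ∧ (q.2 : ℕ) = p.2) := by
      rintro ⟨h1, h2⟩
      exact hp (Prod.ext (Fin.ext h1.symm) (Fin.ext h2.symm))
    simp [eb, this]
  · intro h
    exact absurd (Finset.mem_univ q) h

lemma L_GenTop_F {n : ℕ} {S : Submodule (RatFunc ℚ) (Fin n × Fin n → RatFunc ℚ)}
    (hE : EFeb) (i j : ℕ) (hi : i < n) (hj : j < n) (h1 : DF n *ᵥ eb n i j ∈ S)
    (h2 : eb n i (j + 1) ∈ S) : eb n (i + 1) j ∈ S := by
  rw [(hE n i j hi hj).2.2] at h1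
  have h3 := S.sub_mem h1 (S.smul_mem (tq ^ (-(2 * ((n : ℤ) - 1 - 2 * (i : ℤ))))) h2)
  rwa [add_sub_cancel_left] at h3

lemma L_GenTop_E {n : ℕ} {S : Submodule (RatFunc ℚ) (Fin n × Fin n → RatFunc ℚ)}
    (hQ : QIne) (hE : EFeb) (i j : ℕ) (hi : i < n) (hj : j + 1 < n)
    (h1 : DE n *ᵥ eb n i (j + 1) ∈ S) (h2 : 0 < i → eb n (i - 1) (j + 1) ∈ S) :
    eb n i j ∈ S := by
  rw [(hE n i j hi (by omega)).1, if_pos hj] at h1
  have ha : qi (j + 1) * qi (n - (j + 1)) ≠ 0 := by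
    have h3 := hQ.2.2.1 j
    have h4 := hQ.2.2.1 (n - (j + 1) - 1)
    rw [show n - (j + 1) - 1 + 1 = n - (j + 1) by omega] at h4
    exact mul_ne_zero h3 h4
  rcases Nat.eq_zero_or_pos i with h0 | h0
  · rw [if_neg (by omega), zero_smul, add_zero] at h1
    exact (S.smul_mem_iff ha).1 h1
  · have h5 := S.sub_mem h1 (S.smul_mem (if j + 1 < n ∧ 0 < i then
          qi i * qi (n - i) * tq ^ (2 * ((n : ℤ) - 1 - 2 * ((j : ℤ) + 1))) else 0) (h2 h0))
    rw [add_sub_cancel_right] at h5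
    exact (S.smul_mem_iff ha).1 h5

lemma L_GenTop_diag {n : ℕ} {S : Submodule (RatFunc ℚ) (Fin n × Fin n → RatFunc ℚ)}
    (hQ : QIne) (hE : EFeb) (h0 : eb n 0 (n - 1) ∈ S) (hSE : ∀ v ∈ S, DE n *ᵥ v ∈ S)
    (hSF : ∀ v ∈ S, DF n *ᵥ v ∈ S) :
    ∀ i : ℕ, ∀ i' ≤ i, i' < n → eb n i' (n - 1 - i') ∈ S := by
  intro i
  induction i with
  | zero =>
    intro i' hi' _
    obtain rfl : i' = 0 := by omega
    exact h0
  | succ i ih =>
    intro i' hi' hlt
    rcases Nat.lt_or_ge i' (i + 1) with h | h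
    · exact ih i' (by omega) hlt
    obtain rfl : i' = i + 1 := by omega
    obtain ⟨j, hj⟩ : ∃ j, n - 1 - i = j + 1 := ⟨n - 1 - (i + 1), by omega⟩
    have hj' : n - 1 - (i + 1) = j := by omega
    rw [hj']
    have h1 : eb n i (j + 1) ∈ S := by
      have := ih i le_rfl (by omega)
      rwa [hj] at this
    refine L_GenTop_F hE i j (by omega) (by omega) ?_ h1
    have h2 := hSF _ (hSE _ h1)
    rw [(hE n i j (by omega) (by omega)).1, if_pos (by omega), Matrix.mulVec_add,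
      Matrix.mulVec_smul, Matrix.mulVec_smul] at h2
    have ha : qi (j + 1) * qi (n - (j + 1)) ≠ 0 := by
      have h3 := hQ.2.2.1 j
      have h4 := hQ.2.2.1 (n - (j + 1) - 1)
      rw [show n - (j + 1) - 1 + 1 = n - (j + 1) by omega] at h4
      exact mul_ne_zero h3 h4
    rcases Nat.eq_zero_or_pos i with hi0 | hi0
    · rw [if_neg (by omega), zero_smul, add_zero] at h2
      exact (S.smul_mem_iff ha).1 h2
    · have h5 : DF n *ᵥ eb n (i - 1) (j + 1) ∈ S := by
        rw [(hE n (i - 1) (j + 1) (by omega) (by omega)).2.2, show i - 1 + 1 = i by omega]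
        refine S.add_mem (S.smul_mem _ ?_) h1
        have := ih (i - 1) (by omega) (by omega)
        rwa [show n - 1 - (i - 1) = j + 1 + 1 by omega] at this
      have h6 := S.sub_mem h2 (S.smul_mem (if j + 1 < n ∧ 0 < i then
          qi i * qi (n - i) * tq ^ (2 * ((n : ℤ) - 1 - 2 * ((j : ℤ) + 1))) else 0) h5)
      rw [add_sub_cancel_right] at h6
      exact (S.smul_mem_iff ha).1 h6

lemma L_GenTop_up {n : ℕ} {S : Submodule (RatFunc ℚ) (Fin n × Fin n → RatFunc ℚ)}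
    (hE : EFeb) (hSF : ∀ v ∈ S, DF n *ᵥ v ∈ S)
    (hd : ∀ i, i < n → eb n i (n - 1 - i) ∈ S) :
    ∀ k i j : ℕ, i < n → j < n → i + j = n - 1 + k → eb n i j ∈ S := by
  intro k
  induction k with
  | zero =>
    intro i j hi hj h
    have := hd i hi
    rwa [show n - 1 - i = j by omega] at this
  | succ k ih =>
    intro i
    induction i with
    | zero => intro j hi hj h; omega
    | succ i ihi =>
      intro j hi hj h
      refine L_GenTop_F hE i j (by omega) hj (hSF _ (ih i j (by omega) hj (by omega))) ?_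
      rcases Nat.lt_or_ge (j + 1) n with h1 | h1
      · exact ihi (j + 1) (by omega) h1 (by omega)
      · rw [L_GenTop_zero_right n i (j + 1) h1]
        exact S.zero_mem

lemma L_GenTop_down {n : ℕ} {S : Submodule (RatFunc ℚ) (Fin n × Fin n → RatFunc ℚ)}
    (hQ : QIne) (hE : EFeb) (hSE : ∀ v ∈ S, DE n *ᵥ v ∈ S)
    (hd : ∀ i, i < n → eb n i (n - 1 - i) ∈ S) :
    ∀ k i j : ℕ, i < n → j < n → i + j + k = n - 1 → eb n i j ∈ S := by
  intro k
  induction k with
  | zero =>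
    intro i j hi hj h
    have := hd i hi
    rwa [show n - 1 - i = j by omega] at this
  | succ k ih =>
    intro i
    induction i with
    | zero =>
      intro j hi hj h
      exact L_GenTop_E hQ hE 0 j hi (by omega)
        (hSE _ (ih 0 (j + 1) hi (by omega) (by omega))) (fun h => absurd h (lt_irrefl 0))
    | succ i ihi =>
      intro j hi hj h
      refine L_GenTop_E hQ hE (i + 1) j hi (by omega)
        (hSE _ (ih (i + 1) (j + 1) hi (by omega) (by omega))) (fun _ => ?_)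
      exact ihi (j + 1) (by omega) (by omega) (by omega)

theorem prf_GenTop (hQIne : QIne) (hEFeb : EFeb) : GenTop := by
  intro n S hn h0 hSE hSF
  have hd : ∀ i, i < n → eb n i (n - 1 - i) ∈ S :=
    fun i hi => L_GenTop_diag hQIne hEFeb h0 hSE hSF i i le_rfl hi
  have hall : ∀ i j : ℕ, i < n → j < n → eb n i j ∈ S := by
    intro i j hi hj
    rcases Nat.le_total (i + j) (n - 1) with h | h
    · exact L_GenTop_down hQIne hEFeb hSE hd (n - 1 - (i + j)) i j hi hj (by omega)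
    · exact L_GenTop_up hEFeb hSF hd (i + j - (n - 1)) i j hi hj (by omega)
  rw [Submodule.eq_top_iff']
  intro v
  rw [L_GenTop_expand n v]
  exact S.sum_mem fun p _ => S.smul_mem _ (hall p.1 p.2 p.1.isLt p.2.isLt)

end AJM

end

section

/-!
# MP_d3fa71_gt, project Mut: item JUnknot
-/

namespace AJM

/-- the telescoping sum -/
theorem L_JUnknot_geo (h0 : tq ≠ 0) (n m : ℕ) :
    (∑ i ∈ Finset.range m, tq ^ (2 * ((n : ℤ) - 1 - 2 * (i : ℤ)))) * sd =
      tq ^ (2 * (n : ℤ)) - tq ^ (2 * (n : ℤ) - 4 * (m : ℤ)) := by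
  induction m with
  | zero => simp
  | succ m ih =>
    rw [Finset.sum_range_succ, add_mul, ih]
    unfold sd
    rw [mul_sub, ← zpow_add₀ h0, ← zpow_add₀ h0]
    have e1 : 2 * ((n : ℤ) - 1 - 2 * (m : ℤ)) + 2 = 2 * (n : ℤ) - 4 * (m : ℤ) := by ring
    have e2 : 2 * ((n : ℤ) - 1 - 2 * (m : ℤ)) + -2 = 2 * (n : ℤ) - 4 * ((m + 1 : ℕ) : ℤ) := by
      push_cast
      ring
    rw [e1, e2]
    ring

/-- one term -/
theorem L_JUnknot_term (h0 : tq ≠ 0) (n : ℕ) (i : Fin n) :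
    cc n i * (cc n i.rev)⁻¹ = (-1) ^ (n + 1) * tq ^ (2 * ((n : ℤ) - 1 - 2 * ((i : ℕ) : ℤ))) := by
  have hi := i.2
  obtain ⟨j, hj⟩ : ∃ j : ℕ, n = (i : ℕ) + j + 1 := ⟨n - (i : ℕ) - 1, by omega⟩
  have hr : ((i.rev : Fin n) : ℕ) = j := by
    rw [Fin.val_rev]
    omega
  unfold cc
  rw [hr, mul_inv, ← zpow_neg]
  have e1 : ((-1 : RatFunc ℚ) ^ j)⁻¹ = (-1) ^ j := by
    rw [← inv_pow, inv_neg, inv_one]
  rw [e1]
  have e2 : (-1 : RatFunc ℚ) ^ (n + 1) = (-1) ^ (i : ℕ) * (-1) ^ j := by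
    have e4 : n + 1 = (i : ℕ) + j + 2 := by omega
    rw [e4, ← pow_add, pow_add _ _ 2]
    norm_num
  rw [e2]
  have e3 : tq ^ (2 * ((n : ℤ) - 1 - 2 * ((i : ℕ) : ℤ))) =
      tq ^ (2 * ((i : ℕ) : ℤ) * ((n : ℤ) - 2 - ((i : ℕ) : ℤ))) *
        tq ^ (-(2 * (j : ℤ) * ((n : ℤ) - 2 - (j : ℤ)))) := by
    rw [← zpow_add₀ h0]
    congr 1
    have : (n : ℤ) = ((i : ℕ) : ℤ) + j + 1 := by exact_mod_cast hj
    rw [this]
    ring
  rw [e3]
  ring

/-- the state sum of the unknot -/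
theorem L_JUnknot_Zs (n : ℕ) :
    Zs n [(.cup, 0), (.cap, 0)] = ∑ i : Fin n, cc n i * (cc n i.rev)⁻¹ := by
  unfold Zs
  simp only [opw, opm, LinearMap.comp_apply, LinearMap.id_apply,
    Finsupp.linearCombination_single, one_smul, act, map_sum, if_true, Finsupp.smul_single,
    smul_eq_mul]
  rw [Finsupp.finset_sum_apply]
  simp only [Finsupp.single_eq_same]

theorem prf_JUnknot (hQIne : QIne) : JUnknot := by
  intro n hn
  obtain ⟨h0, hs, hq, -⟩ := hQIne
  obtain ⟨m, rfl⟩ : ∃ m, n = m + 1 := ⟨n - 1, by omega⟩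
  have hsum : ∑ i : Fin (m + 1), cc (m + 1) i * (cc (m + 1) i.rev)⁻¹ =
      (-1) ^ (m + 1 + 1) * qi (m + 1) := by
    have h1 : ∑ i : Fin (m + 1), cc (m + 1) i * (cc (m + 1) i.rev)⁻¹ =
        (-1) ^ (m + 1 + 1) * ∑ i ∈ Finset.range (m + 1),
          tq ^ (2 * (((m + 1 : ℕ) : ℤ) - 1 - 2 * (i : ℤ))) := by
      rw [Finset.mul_sum, ← Fin.sum_univ_eq_sum_range
        (fun i => (-1) ^ (m + 1 + 1) * tq ^ (2 * (((m + 1 : ℕ) : ℤ) - 1 - 2 * (i : ℤ))))]
      exact Finset.sum_congr rfl fun i _ => L_JUnknot_term h0 (m + 1) i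
    rw [h1]
    congr 1
    have h2 := L_JUnknot_geo h0 (m + 1) (m + 1)
    have e1 : 2 * ((m + 1 : ℕ) : ℤ) - 4 * ((m + 1 : ℕ) : ℤ) = -(2 * ((m + 1 : ℕ) : ℤ)) := by ring
    rw [e1] at h2
    unfold qi
    exact (eq_div_iff hs).2 h2
  unfold Jc
  rw [L_JUnknot_Zs, hsum, neg_zero, zpow_zero, one_mul]
  exact div_self (mul_ne_zero (pow_ne_zero _ (neg_ne_zero.2 one_ne_zero)) (hq m))

end AJM

end

section

/-!
# MP_d3fa71_gt, project Mut: the positive half for the knots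
-/

namespace AJM

open Polynomial in
/-- The polynomial whose roots are the exceptional values for one gadget. -/
noncomputable def KPos_P (y : ℂ) : ℂ[X] := (X ^ 2 + 1) ^ 2 - C y * X ^ 2

open Polynomial in
theorem KPos_P_ne_zero (y : ℂ) : KPos_P y ≠ 0 := by
  intro h
  have h0 := congrArg (Polynomial.eval 0) h
  simp [KPos_P] at h0

open Polynomial in
theorem KPos_mem_roots (y : ℂ) (M : ℂˣ)
    (h : ((M : ℂ) + ((M⁻¹ : ℂˣ) : ℂ)) ^ 2 = y) : (M : ℂ) ∈ (KPos_P y).roots := by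
  rw [mem_roots (KPos_P_ne_zero y), IsRoot.def]
  have hM : (M : ℂ) ≠ 0 := M.ne_zero
  have h1 : ((M : ℂ) ^ 2 + 1) ^ 2 = y * (M : ℂ) ^ 2 := by
    rw [← h, Units.val_inv_eq_inv_val]
    field_simp
  simp [KPos_P, h1]

theorem prf_KPos (hZPos : ZPos) (hVpos : Vpos) (hEpRoot : EpRoot) : KPos := by
  intro k j' j n h1 h2
  classical
  obtain ⟨B, hB⟩ := hZPos
  choose Y' Y'' hY1 hY2 hY3 using fun i : Fin 7 => hEpRoot (j' i) (j i) (h1 i) (h2 i)
  refine ⟨B ∪ ({1, -1} ∪ Finset.univ.biUnion fun i => (KPos_P (Y' i + Y'' i)).roots.toFinset),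
    fun M hM => ?_⟩
  rw [Finset.mem_union, Finset.mem_union, not_or, not_or] at hM
  obtain ⟨hMB, hM1, hM2⟩ := hM
  have hsq : (M : ℂ) ^ 2 ≠ 1 := by
    intro h
    apply hM1
    rw [Finset.mem_insert, Finset.mem_singleton]
    exact mul_self_eq_one_iff.mp (by rw [← sq]; exact h)
  have hne : ∀ i, ((M : ℂ) + ((M⁻¹ : ℂˣ) : ℂ)) ^ 2 ≠ Y' i + Y'' i := by
    intro i h
    apply hM2
    rw [Finset.mem_biUnion]
    exact ⟨i, Finset.mem_univ i, Multiset.mem_toFinset.mpr (KPos_mem_roots _ M h)⟩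
  have hv : ∀ i, Vok M (Vg (j' i) (j i) (n i)) (M ^ (2 * j' i + 2 * j i + 2 * n i + 2)) :=
    fun i => hVpos ℂ M (j' i) (j i) (n i) (Y' i) (Y'' i) hsq (hY1 i) (hY2 i) (hY3 i) (hne i)
  have h := hB M hMB k (fun i => Vg (j' i) (j i) (n i))
    (fun i => M ^ (2 * j' i + 2 * j i + 2 * n i + 2)) hv
  have hprod : (M ^ (-12 - 6 * (k : ℤ)) * ∏ i, M ^ (2 * j' i + 2 * j i + 2 * n i + 2)) =
      M ^ (-12 - 6 * (k : ℤ) + ∑ i, (2 * (j' i : ℤ) + 2 * j i + 2 * n i + 2)) := by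
    rw [zpow_add, Finset.prod_pow_eq_pow_sum, ← zpow_natCast]
    push_cast
    rfl
  rw [← hprod]
  exact h

end AJM

end

section

/-!
# MP_d3fa71_gt, project Mut, block Q, item Mat2
-/

set_option autoImplicit false

open Matrix
open scoped Kronecker

namespace AJM

/-- The embedding of `V_n ⊗ V_n` in the sum of the tensor powers. -/
noncomputable def L_Mat2_em (n : ℕ) (v : Fin n × Fin n → RatFunc ℚ) : TT n :=
  ∑ p : Fin n × Fin n, Finsupp.single [p.1, p.2] (v p)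

theorem L_Mat2_em_apply (n : ℕ) (v : Fin n × Fin n → RatFunc ℚ) (r : Fin n × Fin n) :
    L_Mat2_em n v [r.1, r.2] = v r := by
  unfold L_Mat2_em
  rw [Finsupp.finsetSum_apply, Finset.sum_eq_single r]
  · rw [Finsupp.single_eq_same]
  · intro p _ hp
    rw [Finsupp.single_apply, if_neg]
    intro h
    apply hp
    simp only [List.cons.injEq, and_true] at h
    exact Prod.ext h.1 h.2
  · intro h
    exact absurd (Finset.mem_univ r) h

theorem L_Mat2_em_inj (n : ℕ) {v v' : Fin n × Fin n → RatFunc ℚ}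
    (h : L_Mat2_em n v = L_Mat2_em n v') : v = v' := by
  funext r
  rw [← L_Mat2_em_apply n v r, h, L_Mat2_em_apply]

theorem L_Mat2_em_eq (n : ℕ) (v : Fin n × Fin n → RatFunc ℚ) :
    L_Mat2_em n v = ∑ p : Fin n × Fin n, v p • (Finsupp.single [p.1, p.2] 1 : TT n) := by
  unfold L_Mat2_em
  refine Finset.sum_congr rfl fun p _ => ?_
  rw [Finsupp.smul_single, smul_eq_mul, mul_one]

theorem L_Mat2_lin (n : ℕ) (f : TT n →ₗ[RatFunc ℚ] TT n)
    (B : Matrix (Fin n × Fin n) (Fin n × Fin n) (RatFunc ℚ))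
    (hf : ∀ a b : Fin n, f (Finsupp.single [a, b] 1) = L_Mat2_em n (fun p => B p (a, b)))
    (v : Fin n × Fin n → RatFunc ℚ) : f (L_Mat2_em n v) = L_Mat2_em n (B *ᵥ v) := by
  rw [L_Mat2_em_eq n v, map_sum]
  have h1 : ∀ p : Fin n × Fin n, f (v p • (Finsupp.single [p.1, p.2] 1 : TT n)) =
      ∑ r : Fin n × Fin n, Finsupp.single [r.1, r.2] (B r p * v p) := by
    intro p
    rw [map_smul, hf]
    unfold L_Mat2_em
    rw [Finset.smul_sum]
    refine Finset.sum_congr rfl fun r _ => ?_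
    rw [Finsupp.smul_single, smul_eq_mul, mul_comm]
  simp only [h1]
  rw [Finset.sum_comm]
  unfold L_Mat2_em
  refine Finset.sum_congr rfl fun r _ => ?_
  exact (map_sum (Finsupp.singleAddHom [r.1, r.2]) (fun x => B r x * v x) Finset.univ).symm

/-- A vector supported on lists of length two. -/
theorem L_Mat2_two (n : ℕ) (f : TT n) (hf : ∀ z ∈ f.support, z.length = 2) :
    f = L_Mat2_em n (fun p => f [p.1, p.2]) := by
  ext z
  by_cases hz : z.length = 2
  · obtain ⟨x, y, rfl⟩ := List.length_eq_two.1 hz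
    exact (L_Mat2_em_apply n (fun p => f [p.1, p.2]) (x, y)).symm
  · rw [Finsupp.notMem_support_iff.1 fun h => hz (hf z h)]
    unfold L_Mat2_em
    rw [Finsupp.finsetSum_apply]
    symm
    refine Finset.sum_eq_zero fun p _ => ?_
    rw [Finsupp.single_apply, if_neg]
    rintro rfl
    exact hz rfl

theorem L_Mat2_comm (n : ℕ) (f g : TT n →ₗ[RatFunc ℚ] TT n)
    (A B : Matrix (Fin n × Fin n) (Fin n × Fin n) (RatFunc ℚ))
    (hf : ∀ a b : Fin n, f (Finsupp.single [a, b] 1) = L_Mat2_em n (fun p => A p (a, b)))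
    (hg : ∀ a b : Fin n, g (Finsupp.single [a, b] 1) = L_Mat2_em n (fun p => B p (a, b)))
    (h : f ∘ₗ g = g ∘ₗ f) : A * B = B * A := by
  have h1 : ∀ v, A *ᵥ (B *ᵥ v) = B *ᵥ (A *ᵥ v) := by
    intro v
    apply L_Mat2_em_inj n
    rw [← L_Mat2_lin n f A hf, ← L_Mat2_lin n g B hg, ← L_Mat2_lin n g B hg,
      ← L_Mat2_lin n f A hf]
    exact LinearMap.congr_fun h (L_Mat2_em n v)
  apply Matrix.ext_of_mulVec_single
  intro i
  rw [← Matrix.mulVec_mulVec, ← Matrix.mulVec_mulVec]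
  exact h1 _

theorem L_Mat2_app (n : ℕ) (s : List (Fin n)) (v : Fin n × Fin n → RatFunc ℚ) :
    Finsupp.mapDomain (fun z => z ++ s) (L_Mat2_em n v) =
      ∑ p : Fin n × Fin n, Finsupp.single (p.1 :: p.2 :: s) (v p) := by
  unfold L_Mat2_em
  rw [Finsupp.mapDomain_finsetSum]
  refine Finset.sum_congr rfl fun p _ => ?_
  rw [Finsupp.mapDomain_single]
  rfl

theorem prf_Mat2 (hWordInt : WordInt) (hOpLoc : OpLoc) (hEoTwo : EoTwo) : Mat2 := by
  intro n w hw
  set A : Matrix (Fin n × Fin n) (Fin n × Fin n) (RatFunc ℚ) :=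
    Matrix.of fun p q => (opw n w (Finsupp.single [q.1, q.2] 1)) [p.1, p.2] with hA
  have hloc := fun a b : Fin n => hOpLoc n w 2 2 hw [a, b] rfl
  have hf : ∀ a b : Fin n, opw n w (Finsupp.single [a, b] 1) =
      L_Mat2_em n (fun p => A p (a, b)) := by
    intro a b
    exact L_Mat2_two n _ (hloc a b).2
  have kk0 : kk n [] = 1 := rfl
  have hE : ∀ a b : Fin n, Eo n (Finsupp.single [a, b] 1) =
      L_Mat2_em n (fun p => DE n p (a, b)) := by
    intro a b
    have h1 := (hEoTwo n a b []).1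
    unfold Eo
    rw [Finsupp.linearCombination_single, one_smul, h1, kk0]
    simp only [eL, Finsupp.mapDomain_zero, zero_add, one_mul]
    rfl
  have hF : ∀ a b : Fin n, Fo n (Finsupp.single [a, b] 1) =
      L_Mat2_em n (fun p => DF n p (a, b)) := by
    intro a b
    have h1 := (hEoTwo n a b []).2.1
    unfold Fo
    rw [Finsupp.linearCombination_single, one_smul, h1]
    simp only [fL, Finsupp.mapDomain_zero, smul_zero, zero_add]
    rfl
  have hK : ∀ a b : Fin n, Ko n (Finsupp.single [a, b] 1) =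
      L_Mat2_em n (fun p => DK n p (a, b)) := by
    intro a b
    have h1 := (hEoTwo n a b []).2.2
    rw [kk0, mul_one] at h1
    unfold Ko
    rw [Finsupp.linearCombination_single, one_smul]
    unfold L_Mat2_em
    rw [Finset.sum_eq_single (a, b)]
    · rw [h1]
      congr 1
      show _ = DK n (a, b) (a, b)
      unfold DK Km
      rw [Matrix.kroneckerMap_apply, Matrix.diagonal_apply_eq, Matrix.diagonal_apply_eq,
        ← zpow_add₀ (show tq ≠ 0 from RatFunc.X_ne_zero)]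
      congr 1
      ring
    · intro p _ hp
      have : DK n p (a, b) = 0 := by
        unfold DK Km
        rw [Matrix.kroneckerMap_apply]
        by_cases h2 : p.1 = a
        · have h3 : p.2 ≠ b := by
            intro h3
            exact hp (Prod.ext h2 h3)
          rw [Matrix.diagonal_apply_ne _ h3, mul_zero]
        · rw [Matrix.diagonal_apply_ne _ h2, zero_mul]
      show Finsupp.single [p.1, p.2] (DK n p (a, b)) = 0
      rw [this, Finsupp.single_zero]
    · intro h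
      exact absurd (Finset.mem_univ _) h
  obtain ⟨c1, c2, c3⟩ := hWordInt n w
  refine ⟨A, ⟨L_Mat2_comm n _ _ A _ hf hE c1, L_Mat2_comm n _ _ A _ hf hF c2,
    L_Mat2_comm n _ _ A _ hf hK c3⟩, fun a b s => ?_⟩
  have h1 := (hloc a b).1 s
  have h2 : opw n w (Finsupp.single (a :: b :: s) 1) =
      Finsupp.mapDomain (fun z => z ++ s) (opw n w (Finsupp.single [a, b] 1)) := h1
  rw [h2, hf, L_Mat2_app]
  unfold mo
  rw [Finsupp.linearCombination_single, one_smul]
  rfl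

end AJM

end

section

/-!
# MP_d3fa71_gt, project Mut, block Q: item MatInt
-/

open Matrix
open scoped Kronecker

namespace AJM

/-- The basis vector. -/
noncomputable def L_MatInt_e (n : ℕ) (s : List (Fin n)) (r : Fin n × Fin n) : TT n :=
  Finsupp.single (r.1 :: r.2 :: s) 1

theorem L_MatInt_single (n : ℕ) (s : List (Fin n)) (r : Fin n × Fin n) (c : RatFunc ℚ) :
    (Finsupp.single (r.1 :: r.2 :: s) c : TT n) = c • L_MatInt_e n s r := by
  simp [L_MatInt_e]

theorem L_MatInt_mL (n : ℕ) (A : Matrix (Fin n × Fin n) (Fin n × Fin n) (RatFunc ℚ))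
    (a b : Fin n) (s : List (Fin n)) :
    mL n A (a :: b :: s) = ∑ p : Fin n × Fin n, A p (a, b) • L_MatInt_e n s p := by
  rw [mL]
  exact Finset.sum_congr rfl fun p _ => L_MatInt_single n s p _

theorem L_MatInt_mo_single (n : ℕ) (A : Matrix (Fin n × Fin n) (Fin n × Fin n) (RatFunc ℚ))
    (s : List (Fin n)) (c : RatFunc ℚ) :
    mo n A (Finsupp.single s c) = c • mL n A s := by
  rw [mo, Finsupp.linearCombination_single]

theorem L_MatInt_mo_e (n : ℕ) (A : Matrix (Fin n × Fin n) (Fin n × Fin n) (RatFunc ℚ))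
    (s : List (Fin n)) (q : Fin n × Fin n) :
    mo n A (L_MatInt_e n s q) = ∑ p : Fin n × Fin n, A p q • L_MatInt_e n s p := by
  rw [L_MatInt_e, L_MatInt_mo_single, one_smul, L_MatInt_mL]

theorem L_MatInt_map (n : ℕ) (A : Matrix (Fin n × Fin n) (Fin n × Fin n) (RatFunc ℚ))
    (a b : Fin n) (v : TT n) :
    mo n A (Finsupp.mapDomain (fun z => a :: b :: z) v) =
      ∑ p : Fin n × Fin n, A p (a, b) • Finsupp.mapDomain (fun z => p.1 :: p.2 :: z) v := by
  induction v using Finsupp.induction_linear with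
  | zero => simp
  | add f g hf hg =>
    simp only [Finsupp.mapDomain_add, map_add, hf, hg, smul_add, Finset.sum_add_distrib]
  | single z c =>
    simp only [Finsupp.mapDomain_single]
    rw [L_MatInt_mo_single, L_MatInt_mL, Finset.smul_sum]
    refine Finset.sum_congr rfl fun p _ => ?_
    rw [L_MatInt_single, smul_smul, smul_smul, mul_comm]

theorem L_MatInt_comm (n : ℕ) (A D : Matrix (Fin n × Fin n) (Fin n × Fin n) (RatFunc ℚ))
    (h : A * D = D * A) (s : List (Fin n)) (k : RatFunc ℚ) (q : Fin n × Fin n) :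
    ∑ p : Fin n × Fin n, (k * D p q) • ∑ r : Fin n × Fin n, A r p • L_MatInt_e n s r =
      ∑ p : Fin n × Fin n, A p q • ∑ r : Fin n × Fin n, (k * D r p) • L_MatInt_e n s r := by
  simp only [Finset.smul_sum, smul_smul]
  rw [Finset.sum_comm]
  conv_rhs => rw [Finset.sum_comm]
  refine Finset.sum_congr rfl fun r _ => ?_
  rw [← Finset.sum_smul, ← Finset.sum_smul]
  congr 1
  have h1 := congrFun (congrFun h r) q
  rw [Matrix.mul_apply, Matrix.mul_apply] at h1
  calc ∑ p : Fin n × Fin n, k * D p q * A r p = k * ∑ p : Fin n × Fin n, A r p * D p q := by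
        rw [Finset.mul_sum]; exact Finset.sum_congr rfl fun p _ => by ring
    _ = k * ∑ p : Fin n × Fin n, D r p * A p q := by rw [h1]
    _ = ∑ p : Fin n × Fin n, A p q * (k * D r p) := by
        rw [Finset.mul_sum]; exact Finset.sum_congr rfl fun p _ => by ring

theorem L_MatInt_wt (n : ℕ) (A : Matrix (Fin n × Fin n) (Fin n × Fin n) (RatFunc ℚ))
    (h : A * DK n = DK n * A) (p : Fin n × Fin n) (a b : Fin n) :
    A p (a, b) * tq ^ (2 * (wt n a + wt n b)) =
      A p (a, b) * tq ^ (2 * (wt n p.1 + wt n p.2)) := by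
  have hD : DK n = Matrix.diagonal fun p : Fin n × Fin n => tq ^ (2 * (wt n p.1 + wt n p.2)) := by
    rw [DK, Km, Matrix.diagonal_kronecker_diagonal]
    congr 1
    funext p
    rw [mul_add, zpow_add₀ (show tq ≠ 0 from RatFunc.X_ne_zero)]
  have h1 := congrFun (congrFun h p) (a, b)
  rw [hD, Matrix.mul_diagonal, Matrix.diagonal_mul] at h1
  rw [h1, mul_comm]

theorem L_MatInt_wt' (n : ℕ) (A : Matrix (Fin n × Fin n) (Fin n × Fin n) (RatFunc ℚ))
    (h : A * DK n = DK n * A) (p : Fin n × Fin n) (a b : Fin n) :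
    A p (a, b) * tq ^ (-(2 * (wt n a + wt n b))) =
      A p (a, b) * tq ^ (-(2 * (wt n p.1 + wt n p.2))) := by
  have h1 := L_MatInt_wt n A h p a b
  by_cases h0 : A p (a, b) = 0
  · rw [h0, zero_mul, zero_mul]
  · have h2 := mul_left_cancel₀ h0 h1
    rw [_root_.zpow_neg, _root_.zpow_neg, h2]

theorem prf_MatInt (hEoTwo : EoTwo) : MatInt := by
  intro n A hA
  obtain ⟨hE, hF, hK⟩ := hA
  have hz0 : mL n A [] = 0 := rfl
  have hz1 : ∀ x, mL n A [x] = 0 := fun x => rfl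
  refine ⟨?_, ?_, ?_⟩
  · apply Finsupp.lhom_ext'
    intro s
    apply LinearMap.ext_ring
    simp only [LinearMap.comp_apply, Finsupp.lsingle_apply]
    have hEs : ∀ s c, Eo n (Finsupp.single s c) = c • eL n s := fun s c => by
      rw [Eo, Finsupp.linearCombination_single]
    rcases s with _ | ⟨a, _ | ⟨b, s⟩⟩
    · rw [hEs, L_MatInt_mo_single, hz0, eL]; simp
    · rw [hEs, L_MatInt_mo_single, hz1, eL, eL, one_smul, Finsupp.mapDomain_zero, zero_add, map_sum,
        smul_zero, map_zero]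
      exact Finset.sum_eq_zero fun y _ => by rw [L_MatInt_mo_single, hz1, smul_zero]
    · obtain ⟨h1, -, -⟩ := hEoTwo n a b s
      rw [hEs, one_smul, h1, map_add, L_MatInt_map, map_sum, L_MatInt_mo_single, one_smul,
        L_MatInt_mL, map_sum]
      have hR : ∀ p : Fin n × Fin n, Eo n (A p (a, b) • L_MatInt_e n s p) =
          A p (a, b) • Finsupp.mapDomain (fun z => p.1 :: p.2 :: z) (eL n s) +
          A p (a, b) • ∑ r : Fin n × Fin n, (kk n s * DE n r p) • L_MatInt_e n s r := by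
        intro p
        obtain ⟨h2, -, -⟩ := hEoTwo n p.1 p.2 s
        rw [map_smul, L_MatInt_e, hEs, one_smul, h2, smul_add]
        congr 2
        exact Finset.sum_congr rfl fun r _ => L_MatInt_single n s r _
      rw [Finset.sum_congr rfl fun p _ => hR p, Finset.sum_add_distrib]
      congr 1
      rw [← L_MatInt_comm n A (DE n) hE s (kk n s) (a, b)]
      refine Finset.sum_congr rfl fun p _ => ?_
      rw [L_MatInt_single, map_smul, L_MatInt_mo_e]
  · apply Finsupp.lhom_ext'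
    intro s
    apply LinearMap.ext_ring
    simp only [LinearMap.comp_apply, Finsupp.lsingle_apply]
    have hFs : ∀ s c, Fo n (Finsupp.single s c) = c • fL n s := fun s c => by
      rw [Fo, Finsupp.linearCombination_single]
    rcases s with _ | ⟨a, _ | ⟨b, s⟩⟩
    · rw [hFs, L_MatInt_mo_single, hz0, fL]; simp
    · rw [hFs, L_MatInt_mo_single, hz1, fL, fL, one_smul, Finsupp.mapDomain_zero, smul_zero,
        zero_add, map_sum, smul_zero, map_zero]
      exact Finset.sum_eq_zero fun y _ => by rw [L_MatInt_mo_single, hz1, smul_zero]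
    · obtain ⟨-, h1, -⟩ := hEoTwo n a b s
      rw [hFs, one_smul, h1, map_add, map_smul, L_MatInt_map, map_sum, L_MatInt_mo_single,
        one_smul, L_MatInt_mL, map_sum]
      have hR : ∀ p : Fin n × Fin n, Fo n (A p (a, b) • L_MatInt_e n s p) =
          tq ^ (-(2 * (wt n a + wt n b))) •
            (A p (a, b) • Finsupp.mapDomain (fun z => p.1 :: p.2 :: z) (fL n s)) +
          A p (a, b) • ∑ r : Fin n × Fin n, (1 * DF n r p) • L_MatInt_e n s r := by
        intro p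
        obtain ⟨-, h2, -⟩ := hEoTwo n p.1 p.2 s
        rw [map_smul, L_MatInt_e, hFs, one_smul, h2, smul_add]
        congr 1
        · rw [smul_smul, smul_smul, ← L_MatInt_wt' n A hK p a b, mul_comm]
        · congr 1
          exact Finset.sum_congr rfl fun r _ => by rw [one_mul]; exact L_MatInt_single n s r _
      rw [Finset.sum_congr rfl fun p _ => hR p, Finset.sum_add_distrib]
      congr 1
      · rw [Finset.smul_sum]
      · rw [← L_MatInt_comm n A (DF n) hF s 1 (a, b)]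
        refine Finset.sum_congr rfl fun p _ => ?_
        rw [L_MatInt_single, map_smul, L_MatInt_mo_e, one_mul]
  · apply Finsupp.lhom_ext'
    intro s
    apply LinearMap.ext_ring
    simp only [LinearMap.comp_apply, Finsupp.lsingle_apply]
    have hKs : ∀ s c, Ko n (Finsupp.single s c) = c • (Finsupp.single s (kk n s) : TT n) :=
      fun s c => by rw [Ko, Finsupp.linearCombination_single]
    rcases s with _ | ⟨a, _ | ⟨b, s⟩⟩
    · rw [hKs, one_smul, L_MatInt_mo_single, L_MatInt_mo_single, hz0]; simp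
    · rw [hKs, one_smul, L_MatInt_mo_single, L_MatInt_mo_single, hz1]; simp
    · obtain ⟨-, -, h1⟩ := hEoTwo n a b s
      rw [hKs, one_smul, L_MatInt_mo_single, L_MatInt_mo_single, one_smul,
        L_MatInt_mL, map_sum, Finset.smul_sum]
      refine Finset.sum_congr rfl fun p _ => ?_
      obtain ⟨-, -, h2⟩ := hEoTwo n p.1 p.2 s
      rw [map_smul]
      conv_rhs => rw [L_MatInt_e, hKs, one_smul, L_MatInt_single, smul_smul]
      rw [smul_smul, h1, h2]
      congr 1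
      have h3 := L_MatInt_wt n A hK p a b
      calc tq ^ (2 * (wt n a + wt n b)) * kk n s * A p (a, b)
          = (A p (a, b) * tq ^ (2 * (wt n a + wt n b))) * kk n s := by ring
        _ = _ := by rw [h3]; ring

end AJM

end

section

/-!
# MP_d3fa71_gt, project Mut: item MoMul
-/

namespace AJM

theorem L_MoMul_single (n : ℕ) (A : Matrix (Fin n × Fin n) (Fin n × Fin n) (RatFunc ℚ))
    (s : List (Fin n)) (c : RatFunc ℚ) : mo n A (Finsupp.single s c) = c • mL n A s := by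
  unfold mo
  rw [Finsupp.linearCombination_single]

theorem prf_MoMul : MoMul := by
  intro n A B
  refine Finsupp.lhom_ext fun s c => ?_
  rw [LinearMap.comp_apply, L_MoMul_single, L_MoMul_single, map_smul]
  congr 1
  match s with
  | [] =>
    simp [mL]
  | [x] =>
    simp [mL]
  | a :: b :: s' =>
    simp only [mL, map_sum, L_MoMul_single, Finset.smul_sum]
    rw [Finset.sum_comm]
    refine Finset.sum_congr rfl fun r _ => ?_
    simp only [Finsupp.smul_single, smul_eq_mul]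
    rw [← Finsupp.single_finsetSum]
    congr 1
    rw [Matrix.mul_apply]
    refine Finset.sum_congr rfl fun p _ => ?_
    rw [mul_comm]

end AJM

end

end

section

/-! Bundle of small proof modules (one section per former module). -/

section

/-!
# MP_d3fa71_gt, project Mut, block C: inversion for closures
-/

namespace AJM

section
variable {R : Type} [CommRing R]

theorem NclInvZ_cup0 {M : Rˣ} {s s' : List (G R)} {τ : Rˣ} (h : Step M (.cup, 0) s s' τ) :
    ∃ x : G R, s' = x :: x * J :: s ∧ τ = 1 := by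
  cases h with
  | cup x s => exact ⟨x, rfl, rfl⟩

theorem NclInvZ_cap0 {M : Rˣ} {s s' : List (G R)} {τ : Rˣ} (h : Step M (.cap, 0) s s' τ) :
    ∃ x : G R, s = x :: x * J * dg τ :: s' := by
  cases h with
  | cap x τ s => exact ⟨x, rfl⟩

theorem NclInvZ_cup1 {M : Rˣ} {s s' : List (G R)} {τ : Rˣ} (h : Step M (.cup, 1) s s' τ) :
    ∃ (z : G R) (t t' : List (G R)), s = z :: t ∧ s' = z :: t' ∧ Step M (.cup, 0) t t' τ := by
  cases h with
  | sh z h => exact ⟨z, _, _, rfl, rfl, h⟩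

theorem NclInvZ_cap1 {M : Rˣ} {s s' : List (G R)} {τ : Rˣ} (h : Step M (.cap, 1) s s' τ) :
    ∃ (z : G R) (t t' : List (G R)), s = z :: t ∧ s' = z :: t' ∧ Step M (.cap, 0) t t' τ := by
  cases h with
  | sh z h => exact ⟨z, _, _, rfl, rfl, h⟩

theorem NclInvZ_cons {M : Rˣ} {m : Mv} {w : List Mv} {s s'' : List (G R)} {τ : Rˣ}
    (h : Path M (m :: w) s s'' τ) :
    ∃ (s' : List (G R)) (τ₁ τ₂ : Rˣ), Step M m s s' τ₁ ∧ Path M w s' s'' τ₂ ∧ τ = τ₁ * τ₂ := by
  cases h with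
  | cons h1 h2 => exact ⟨_, _, _, h1, h2, rfl⟩

theorem NclInvZ_nil {M : Rˣ} {s s'' : List (G R)} {τ : Rˣ}
    (h : Path M [] s s'' τ) : s = s'' ∧ τ = 1 := by
  cases h with
  | nil s => exact ⟨rfl, rfl⟩

/-- If `y J = x J dg t` then `y = x dg t`⁻¹, that is `x = y dg t`. -/
theorem NclInvZ_solve {x y : G R} {t : Rˣ} (h : y * J = x * J * dg t) : x = y * dg t := by
  rw [mul_assoc, J_dg, ← mul_assoc] at h
  have h1 : y = x * dg t⁻¹ := mul_right_cancel h
  rw [h1, mul_assoc, ← dg_mul, inv_mul_cancel, dg_one, mul_one]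

end

theorem prf_NclInvZ (hPathAppend : PathAppend) (hPathRightInv : PathRightInv) : NclInvZ := by
  intro R _ M w τ hw g1
  have hN : Ncl w = (.cup, 0) :: (.cup, 1) :: (w ++ [(.cap, 1), (.cap, 0)]) := by
    simp [Ncl]
  rw [hN] at g1
  obtain ⟨s₁, a₁, b₁, h1, g2, q1⟩ := NclInvZ_cons g1
  obtain ⟨x, rfl, q2⟩ := NclInvZ_cup0 h1
  obtain ⟨s₂, a₂, b₂, h2, g3, q3⟩ := NclInvZ_cons g2
  obtain ⟨z, t, t', e1, rfl, h2b⟩ := NclInvZ_cup1 h2
  obtain ⟨y, rfl, q4⟩ := NclInvZ_cup0 h2b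
  obtain ⟨rfl, rfl⟩ := List.cons.inj e1
  obtain ⟨s₃, c₁, c₂, h3, g4, q5⟩ := (hPathAppend R M _ _ _ _ _).1 g3
  obtain ⟨s', rfl, hl, h4b⟩ := hPathRightInv R M w [x, y] s₃ [y * J, x * J] c₁ 2 hw h3
  obtain ⟨x', y', rfl⟩ := List.length_eq_two.1 hl
  obtain ⟨s₄, t₁, d₂, h5, g5, q6⟩ := NclInvZ_cons g4
  obtain ⟨z, t, t', e1, rfl, h5b⟩ := NclInvZ_cap1 h5
  obtain ⟨y₁, rfl⟩ := NclInvZ_cap0 h5b
  obtain ⟨s₅, t₂, d₃, h6, g6, q7⟩ := NclInvZ_cons g5
  obtain ⟨x₁, e2⟩ := NclInvZ_cap0 h6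
  obtain ⟨rfl, q8⟩ := NclInvZ_nil g6
  simp only [List.cons_append, List.nil_append, List.cons.injEq] at e1 e2
  obtain ⟨e3, e4, e5, e6⟩ := e1
  obtain ⟨e7, e8⟩ := e2
  subst e3; subst e4; subst e7
  rw [← e6] at e8
  simp only [List.cons.injEq, and_true] at e8
  refine ⟨x, y, t₂, t₁, c₁, ?_, ?_⟩
  · rw [← NclInvZ_solve e5, ← NclInvZ_solve e8]
    exact h4b
  · rw [q1, q2, q3, q4, q5, q6, q7, q8, one_mul, one_mul, mul_one, mul_comm t₁ t₂, mul_assoc]

end AJM

end

section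

/-!
# Closing a block which acts trivially up to scaling
-/

set_option autoImplicit false

namespace AJM

theorem NclPath_dg_one {R : Type} [CommRing R] : dg (1 : Rˣ) = 1 := by
  apply Subtype.ext
  simp [dg, Matrix.one_fin_two]

theorem NclPath_sh_zero (w : List Mv) : sh 0 w = w := by
  unfold sh
  simp

theorem prf_NclPath (hSPCalc : SPCalc) : NclPath := by
  intro R _ M w ha hb σ h
  obtain ⟨c1, c2, c3, -, -, c6⟩ := hSPCalc R M
  have p1 : Path M [(.cup, 0), (.cup, 1)] [] [ha, hb, hb * J, ha * J] 1 := by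
    have s1 : Step M (.cup, 0) [] [ha, ha * J] 1 := Step.cup ha []
    have s2 : Step M (.cup, 1) [ha, ha * J] [ha, hb, hb * J, ha * J] 1 :=
      Step.sh ha (Step.cup hb [ha * J])
    have := Path.cons s1 (Path.cons s2 (Path.nil _))
    simpa using this
  have p2 : Path M [(.cap, 1), (.cap, 0)] [ha, hb, hb * J, ha * J] [] 1 := by
    have s1 : Step M (.cap, 1) [ha, hb, hb * J, ha * J] [ha, ha * J] 1 := by
      have := Step.sh (M := M) ha (Step.cap hb 1 [ha * J])
      rwa [NclPath_dg_one, mul_one] at this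
    have s2 : Step M (.cap, 0) [ha, ha * J] [] 1 := by
      have := Step.cap (M := M) ha 1 []
      rwa [NclPath_dg_one, mul_one] at this
    have := Path.cons s1 (Path.cons s2 (Path.nil _))
    simpa using this
  have q := c6 w [] [ha, hb] [ha, hb] [hb * J, ha * J] σ h
  rw [List.length_nil, NclPath_sh_zero] at q
  have q1 := c3 _ _ _ _ _ _ _ (c3 _ _ _ _ _ _ _ (c1 _ _ _ _ p1) q) (c1 _ _ _ _ p2)
  have q2 := c2 _ _ _ q1
  rw [one_mul, mul_one] at q2
  exact q2

end AJM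

end

section

set_option autoImplicit false

/-!
# Orientation types of the blocks
-/

namespace AJM

theorem prf_OBlocks (hOTws : OTws) (hOComp : OComp) (hORot : ORot) : OBlocks := by
  intro v v' v'' hv hv' hv''
  have t6 : O0 (tws 6) := (hOTws 3).1
  have t4 : O0 (tws 4) := (hOTws 2).1
  have t2 : O0 (tws 2) := (hOTws 1).1
  have t8 : O0 (tws (-8)) := by
    have h := (hOTws (-4)).1
    have e : (2 * (-4) : ℤ) = -8 := by norm_num
    rwa [e] at h
  have t6' : O0 (tws (-6)) := by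
    have h := (hOTws (-3)).1
    have e : (2 * (-3) : ℤ) = -6 := by norm_num
    rwa [e] at h
  have t4' : O0 (tws (-4)) := by
    have h := (hOTws (-2)).1
    have e : (2 * (-2) : ℤ) = -4 := by norm_num
    rwa [e] at h
  have t2' : O0 (tws (-2)) := by
    have h := (hOTws (-1)).1
    have e : (2 * (-1) : ℤ) = -2 := by norm_num
    rwa [e] at h
  have c00 : ∀ {w w' : List Mv}, O0 w → O0 w' → O0 (w ++ w') := fun {w w'} => (hOComp w w').1
  have c0I : ∀ {w w' : List Mv}, O0 w → OI w' → OI (w ++ w') := fun {w w'} => (hOComp w w').2.1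
  have cI0 : ∀ {w w' : List Mv}, OI w → O0 w' → OI (w ++ w') :=
    fun {w w'} => (hOComp w w').2.2.1
  have r0 : ∀ {w : List Mv}, O0 w → OI (rot w) := fun {w} h => ((hORot w).1 h).1
  have rI : ∀ {w : List Mv}, OI w → O0 (rot w) := fun {w} h => ((hORot w).2.1 h).1
  have s0 : ∀ {w : List Mv}, O0 w → OI (rrt w) := fun {w} h => ((hORot w).1 h).2
  have sI : ∀ {w : List Mv}, OI w → O0 (rrt w) := fun {w} h => ((hORot w).2.1 h).2
  have hcol : OI (Col (-4)) := r0 (hOTws (-4)).1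
  refine ⟨?_, ?_, ?_, ?_, ?_⟩
  · exact c00 (rI (c0I (c00 (c00 (rI (cI0 hv t6)) (rI (cI0 hv' t4))) (rI (cI0 hv'' t8))) hcol)) t6'
  · exact rI (cI0 hv t4)
  · exact sI (w := tws (-4) ++ v) (c0I t4' hv)
  · exact rI (cI0 hv t2)
  · exact s0 (w := tws (-2)) t2'

end AJM

end

section

/-! # MP_d3fa71_gt, project Mut, block Q: composition of words and orientation types -/

namespace AJM

theorem prf_OComp (hOPathAppend : OPathAppend) : OComp := by
  intro w w'
  refine ⟨?_, ?_, ?_, ?_, ?_⟩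
  · rintro ⟨f, hf⟩ ⟨g, hg⟩
    refine ⟨fun a b => f a b + g a b, fun a b s s' e => ?_⟩
    rw [hOPathAppend]
    constructor
    · rintro ⟨s1, e1, e2, h1, h2, rfl⟩
      obtain ⟨rfl, rfl⟩ := (hf a b s s1 e1).1 h1
      obtain ⟨rfl, rfl⟩ := (hg a b s s' e2).1 h2
      exact ⟨rfl, rfl⟩
    · rintro ⟨rfl, rfl⟩
      exact ⟨_, _, _, (hf a b s _ _).2 ⟨rfl, rfl⟩, (hg a b s _ _).2 ⟨rfl, rfl⟩, rfl⟩
  · rintro ⟨f, hf⟩ ⟨g, hg⟩
    refine ⟨fun a c => f a (!a) + g a c, fun a b s s' e => ?_⟩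
    rw [hOPathAppend]
    constructor
    · rintro ⟨s1, e1, e2, h1, h2, rfl⟩
      obtain ⟨rfl, rfl⟩ := (hf a b s s1 e1).1 h1
      obtain ⟨rfl, c, rfl, rfl⟩ := (hg a b s s' e2).1 h2
      exact ⟨rfl, c, rfl, rfl⟩
    · rintro ⟨rfl, c, rfl, rfl⟩
      exact ⟨_, _, _, (hf a _ s _ _).2 ⟨rfl, rfl⟩, (hg a _ s _ _).2 ⟨rfl, c, rfl, rfl⟩, rfl⟩
  · rintro ⟨f, hf⟩ ⟨g, hg⟩
    refine ⟨fun a c => f a c + g c (!c), fun a b s s' e => ?_⟩
    rw [hOPathAppend]
    constructor
    · rintro ⟨s1, e1, e2, h1, h2, rfl⟩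
      obtain ⟨rfl, c, rfl, rfl⟩ := (hf a b s s1 e1).1 h1
      obtain ⟨rfl, rfl⟩ := (hg c _ s s' e2).1 h2
      exact ⟨rfl, c, rfl, rfl⟩
    · rintro ⟨rfl, c, rfl, rfl⟩
      exact ⟨_, _, _, (hf a _ s _ _).2 ⟨rfl, c, rfl, rfl⟩, (hg c _ s _ _).2 ⟨rfl, rfl⟩, rfl⟩
  · rintro ⟨f, hf⟩ ⟨g, hg⟩
    refine ⟨fun a b => f a b + g b a, fun a b s s' e => ?_⟩
    rw [hOPathAppend]
    constructor
    · rintro ⟨s1, e1, e2, h1, h2, rfl⟩
      obtain ⟨rfl, rfl⟩ := (hf a b s s1 e1).1 h1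
      obtain ⟨rfl, rfl⟩ := (hg b a s s' e2).1 h2
      exact ⟨rfl, rfl⟩
    · rintro ⟨rfl, rfl⟩
      exact ⟨_, _, _, (hf a b s _ _).2 ⟨rfl, rfl⟩, (hg b a s _ _).2 ⟨rfl, rfl⟩, rfl⟩
  · rintro ⟨f, hf⟩ ⟨g, hg⟩
    refine ⟨fun a b => f a b + g b a, fun a b s s' e => ?_⟩
    rw [hOPathAppend]
    constructor
    · rintro ⟨s1, e1, e2, h1, h2, rfl⟩
      obtain ⟨rfl, rfl⟩ := (hf a b s s1 e1).1 h1
      obtain ⟨rfl, rfl⟩ := (hg b a s s' e2).1 h2
      exact ⟨rfl, rfl⟩
    · rintro ⟨rfl, rfl⟩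
      exact ⟨_, _, _, (hf a b s _ _).2 ⟨rfl, rfl⟩, (hg b a s _ _).2 ⟨rfl, rfl⟩, rfl⟩

end AJM

end

section

/-!
# MP_d3fa71_gt, project Mut, item OFw
-/

namespace AJM

theorem L_OFw_nil (s s' : List Bool) (e : ℤ) : OPath [] s s' e ↔ s' = s ∧ e = 0 := by
  constructor
  · intro h
    cases h
    exact ⟨rfl, rfl⟩
  · rintro ⟨rfl, rfl⟩
    exact OPath.nil _

theorem L_OFw_cons (m : Mv) (w : List Mv) (s s'' : List Bool) (e : ℤ) :
    OPath (m :: w) s s'' e ↔
      ∃ (s' : List Bool) (e₁ e₂ : ℤ), OStep m s s' e₁ ∧ OPath w s' s'' e₂ ∧ e = e₁ + e₂ := by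
  constructor
  · intro h
    cases h with
    | cons h1 h2 => exact ⟨_, _, _, h1, h2, rfl⟩
  · rintro ⟨s', e₁, e₂, h1, h2, rfl⟩
    exact OPath.cons h1 h2

theorem L_OFw_cup (s s' : List Bool) (e : ℤ) :
    OStep (.cup, 0) s s' e ↔ ∃ c, s' = c :: (!c) :: s ∧ e = 0 := by
  constructor
  · intro h
    cases h
    exact ⟨_, rfl, rfl⟩
  · rintro ⟨c, rfl, rfl⟩
    exact OStep.cup _ _

theorem L_OFw_cap (a b : Bool) (s s' : List Bool) (e : ℤ) :
    OStep (.cap, 0) (a :: b :: s) s' e ↔ b = !a ∧ s' = s ∧ e = 0 := by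
  constructor
  · intro h
    cases h
    exact ⟨rfl, rfl, rfl⟩
  · rintro ⟨rfl, rfl, rfl⟩
    exact OStep.cap _ _

theorem L_OFw_neg (a b : Bool) (s s' : List Bool) (e : ℤ) :
    OStep (.neg, 0) (a :: b :: s) s' e ↔ s' = b :: a :: s ∧ e = if a = b then 1 else -1 := by
  constructor
  · intro h
    cases h
    exact ⟨rfl, rfl⟩
  · rintro ⟨rfl, rfl⟩
    exact OStep.neg _ _ _

theorem L_OFw_neg1 (x a b : Bool) (s s' : List Bool) (e : ℤ) :
    OStep (.neg, 1) (x :: a :: b :: s) s' e ↔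
      s' = x :: b :: a :: s ∧ e = if a = b then 1 else -1 := by
  constructor
  · intro h
    cases h with
    | sh _ h =>
      rw [L_OFw_neg] at h
      obtain ⟨rfl, rfl⟩ := h
      exact ⟨rfl, rfl⟩
  · rintro ⟨rfl, rfl⟩
    exact OStep.sh _ (OStep.neg _ _ _)

/-- The writhe of one winding. -/
def L_OFw_g (r x b : Bool) : ℤ := 2 * (if r = x then 1 else -1) + 2 * (if r = b then 1 else -1)

theorem L_OFw_wind (r x b : Bool) (s s' : List Bool) (e : ℤ) :
    OPath Wind (r :: x :: b :: s) s' e ↔ s' = r :: x :: b :: s ∧ e = L_OFw_g r x b := by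
  have key : (if r = x then (1 : ℤ) else -1) + ((if r = b then 1 else -1) +
      ((if b = r then 1 else -1) + ((if x = r then 1 else -1) + 0))) = L_OFw_g r x b := by
    unfold L_OFw_g
    cases r <;> cases x <;> cases b <;> rfl
  unfold Wind
  constructor
  · intro h
    rw [L_OFw_cons] at h
    obtain ⟨s1, e1, f1, h1, h, rfl⟩ := h
    rw [L_OFw_neg] at h1
    obtain ⟨rfl, rfl⟩ := h1
    rw [L_OFw_cons] at h
    obtain ⟨s1, e1, f1, h1, h, rfl⟩ := h
    rw [L_OFw_neg1] at h1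
    obtain ⟨rfl, rfl⟩ := h1
    rw [L_OFw_cons] at h
    obtain ⟨s1, e1, f1, h1, h, rfl⟩ := h
    rw [L_OFw_neg1] at h1
    obtain ⟨rfl, rfl⟩ := h1
    rw [L_OFw_cons] at h
    obtain ⟨s1, e1, f1, h1, h, rfl⟩ := h
    rw [L_OFw_neg] at h1
    obtain ⟨rfl, rfl⟩ := h1
    rw [L_OFw_nil] at h
    obtain ⟨rfl, rfl⟩ := h
    exact ⟨rfl, key⟩
  · rintro ⟨rfl, rfl⟩
    rw [← key]
    exact OPath.cons (OStep.neg _ _ _) (OPath.cons (OStep.sh _ (OStep.neg _ _ _))
      (OPath.cons (OStep.sh _ (OStep.neg _ _ _)) (OPath.cons (OStep.neg _ _ _) (OPath.nil _))))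

theorem L_OFw_rep (hA : OPathAppend) (r x b : Bool) (s : List Bool) (m : ℕ) :
    ∀ (s' : List Bool) (e : ℤ), OPath (rep m Wind) (r :: x :: b :: s) s' e ↔
      s' = r :: x :: b :: s ∧ e = m * L_OFw_g r x b := by
  induction m with
  | zero =>
    intro s' e
    have : rep 0 Wind = [] := rfl
    rw [this, L_OFw_nil]
    simp
  | succ m ih =>
    intro s' e
    have : rep (m + 1) Wind = Wind ++ rep m Wind := by
      unfold rep
      rw [List.replicate_succ, List.flatten_cons]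
    rw [this, hA]
    constructor
    · rintro ⟨s1, e1, e2, h1, h2, rfl⟩
      rw [L_OFw_wind] at h1
      obtain ⟨rfl, rfl⟩ := h1
      rw [ih] at h2
      obtain ⟨rfl, rfl⟩ := h2
      refine ⟨rfl, ?_⟩
      push_cast
      ring
    · rintro ⟨rfl, rfl⟩
      refine ⟨_, _, _, (L_OFw_wind r x b s _ _).2 ⟨rfl, rfl⟩, (ih _ _).2 ⟨rfl, rfl⟩, ?_⟩
      push_cast
      ring

theorem L_OFw_one (hA : OPathAppend) (hS : OPathSh) (m : ℕ) (v : List Mv) (hv : OI v) :
    O0 ((.cup, 0) :: sh 1 (v ++ rep m Wind) ++ [(.cap, 0)]) := by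
  obtain ⟨f, hf⟩ := hv
  refine ⟨fun a b => f (!a) (!a) + m * L_OFw_g (!a) a b, ?_⟩
  intro a b s s' e
  constructor
  · intro h
    rw [hA] at h
    obtain ⟨s1, e1, e2, h1, h2, rfl⟩ := h
    rw [L_OFw_cons] at h1
    obtain ⟨s2, e3, e4, h3, h4, rfl⟩ := h1
    rw [L_OFw_cup] at h3
    obtain ⟨c, rfl, rfl⟩ := h3
    have h5 := (hS (v ++ rep m Wind) [c] ((!c) :: a :: b :: s) s1 e4).1 h4
    obtain ⟨s3, rfl, h6⟩ := h5
    rw [hA] at h6
    obtain ⟨s4, e5, e6, h7, h8, rfl⟩ := h6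
    rw [hf] at h7
    obtain ⟨rfl, r, rfl, rfl⟩ := h7
    rw [L_OFw_rep hA] at h8
    obtain ⟨rfl, rfl⟩ := h8
    rw [L_OFw_cons] at h2
    obtain ⟨s5, e7, e8, h9, h10, rfl⟩ := h2
    have h9' : OStep (.cap, 0) (c :: r :: (!r) :: b :: s) s5 e7 := h9
    rw [L_OFw_cap] at h9'
    obtain ⟨rfl, rfl, rfl⟩ := h9'
    rw [L_OFw_nil] at h10
    obtain ⟨rfl, rfl⟩ := h10
    refine ⟨by simp, ?_⟩
    simp only [Bool.not_not]
    ring
  · rintro ⟨rfl, rfl⟩
    rw [hA]
    refine ⟨a :: (!a) :: a :: b :: s, f (!a) (!a) + m * L_OFw_g (!a) a b, 0, ?_, ?_, by ring⟩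
    · rw [L_OFw_cons]
      refine ⟨a :: (!a) :: a :: b :: s, 0, f (!a) (!a) + m * L_OFw_g (!a) a b,
        OStep.cup _ _, ?_, by ring⟩
      refine (hS (v ++ rep m Wind) [a] ((!a) :: a :: b :: s) _ _).2 ⟨(!a) :: a :: b :: s, rfl, ?_⟩
      rw [hA]
      refine ⟨(!a) :: a :: b :: s, f (!a) (!a), m * L_OFw_g (!a) a b, ?_, ?_, rfl⟩
      · rw [hf]
        refine ⟨by simp, !a, by simp, rfl⟩
      · rw [L_OFw_rep hA]
        exact ⟨rfl, rfl⟩
    · rw [L_OFw_cons]
      exact ⟨a :: b :: s, 0, 0, OStep.cap _ _, OPath.nil _, by ring⟩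

theorem prf_OFw (hOPathAppend : OPathAppend) (hOPathSh : OPathSh) (hOTws : OTws) (hOComp : OComp) :
    OFw := by
  intro k v hv
  have h1 := L_OFw_one hOPathAppend hOPathSh (2 * k) v hv
  have h2 : O0 (tws (-2 * k)) := by
    have := (hOTws (-(k : ℤ))).1
    rwa [show 2 * (-(k : ℤ)) = -2 * k by ring] at this
  exact (hOComp _ _).1 h1 h2

end AJM

end

section

/-!
# MP_d3fa71_gt, project Mut, block Q: the writhe of the closure of a two-strand word
-/

namespace AJM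

theorem L_ONcl_cups {s : List Bool} {e : ℤ} (h : OPath [(.cup, 0), (.cup, 1)] [] s e) :
    ∃ a y : Bool, s = [a, y, !y, !a] ∧ e = 0 := by
  cases h with
  | cons h₁ h₂ =>
    cases h₁ with
    | cup a =>
      cases h₂ with
      | cons h₃ h₄ =>
        cases h₄ with
        | nil =>
          cases h₃ with
          | sh _ h₅ =>
            cases h₅ with
            | cup y => exact ⟨a, y, rfl, rfl⟩

theorem L_ONcl_cups' (a y : Bool) :
    OPath [(.cup, 0), (.cup, 1)] [] [a, y, !y, !a] 0 :=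
  OPath.cons (OStep.cup a []) (OPath.cons (OStep.sh a (OStep.cup y [!a])) (OPath.nil _))

theorem L_ONcl_caps {c x y z : Bool} {e : ℤ}
    (h : OPath [(.cap, 1), (.cap, 0)] [c, x, y, z] [] e) : y = (!x) ∧ z = (!c) ∧ e = 0 := by
  cases h with
  | cons h₁ h₂ =>
    cases h₁ with
    | sh _ h₃ =>
      cases h₃ with
      | cap =>
        cases h₂ with
        | cons h₄ h₅ =>
          cases h₅ with
          | nil =>
            cases h₄ with
            | cap => exact ⟨rfl, rfl, rfl⟩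

theorem L_ONcl_caps' (c x : Bool) :
    OPath [(.cap, 1), (.cap, 0)] [c, x, !x, !c] [] 0 :=
  OPath.cons (OStep.sh c (OStep.cap x [!c])) (OPath.cons (OStep.cap c []) (OPath.nil _))

theorem prf_ONcl (hOPathAppend : OPathAppend) (hOPathNot : OPathNot) : ONcl := by
  intro w ⟨f, hf⟩
  have hff : f false false = f true true := by
    have h1 : OPath w [true, false] [true, false] (f true true) :=
      (hf true false [] _ _).2 ⟨rfl, true, rfl, rfl⟩
    have h2 := hOPathNot w _ _ _ h1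
    obtain ⟨-, c, hc, hc'⟩ := (hf false true [] _ _).1 h2
    have hc0 : c = false := by
      have := congrArg (fun l : List Bool => l.head?) hc
      simpa using this.symm
    rw [hc', hc0]
  refine ⟨f true true, fun e' => ⟨fun h => ?_, fun h => ?_⟩⟩
  · unfold Wr Ncl at h
    obtain ⟨s₁, e₁, e₂, h1, h2, rfl⟩ := (hOPathAppend _ _ _ _ _).1 h
    obtain ⟨s₂, e₃, e₄, h3, h4, rfl⟩ := (hOPathAppend _ _ _ _ _).1 h1
    obtain ⟨a, y, rfl, rfl⟩ := L_ONcl_cups h3
    obtain ⟨rfl, c, rfl, rfl⟩ := (hf a y _ _ _).1 h4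
    obtain ⟨h5, h6, rfl⟩ := L_ONcl_caps h2
    cases a <;> cases c <;> simp_all
  · subst h
    unfold Wr Ncl
    refine (hOPathAppend _ _ _ _ _).2 ⟨[true, false, true, false], f true true, 0, ?_,
      L_ONcl_caps' true false, (add_zero _).symm⟩
    refine (hOPathAppend _ _ _ _ _).2 ⟨[true, false, true, false], 0, f true true,
      L_ONcl_cups' true false, ?_, (zero_add _).symm⟩
    exact (hf true false [true, false] _ _).2 ⟨rfl, true, rfl, rfl⟩

end AJM

end

section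

/-!
# Concatenation of orientation paths
-/

namespace AJM

lemma L_OPathAppend_nil {s s' : List Bool} {e : ℤ} (h : OPath [] s s' e) : s' = s ∧ e = 0 := by
  cases h
  exact ⟨rfl, rfl⟩

lemma L_OPathAppend_cons {m : Mv} {w : List Mv} {s s'' : List Bool} {e : ℤ}
    (h : OPath (m :: w) s s'' e) :
    ∃ (s' : List Bool) (e₁ e₂ : ℤ), OStep m s s' e₁ ∧ OPath w s' s'' e₂ ∧ e = e₁ + e₂ := by
  cases h with
  | cons h1 h2 => exact ⟨_, _, _, h1, h2, rfl⟩

theorem prf_OPathAppend : OPathAppend := by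
  intro w₁
  induction w₁ with
  | nil =>
    intro w₂ s s'' e
    constructor
    · intro h
      exact ⟨s, 0, e, OPath.nil s, h, (zero_add e).symm⟩
    · rintro ⟨s', e₁, e₂, h1, h2, h3⟩
      obtain ⟨rfl, rfl⟩ := L_OPathAppend_nil h1
      rw [h3, zero_add]
      exact h2
  | cons m w₁ ih =>
    intro w₂ s s'' e
    constructor
    · intro h
      rw [List.cons_append] at h
      obtain ⟨s', e₁, e₂, h1, h2, h3⟩ := L_OPathAppend_cons h
      obtain ⟨t, e₃, e₄, h4, h5, h6⟩ := (ih w₂ s' s'' e₂).1 h2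
      exact ⟨t, e₁ + e₃, e₄, OPath.cons h1 h4, h5, by rw [h3, h6, add_assoc]⟩
    · rintro ⟨s', e₁, e₂, h1, h2, h3⟩
      obtain ⟨t, e₃, e₄, h4, h5, h6⟩ := L_OPathAppend_cons h1
      rw [List.cons_append, h3, h6, add_assoc]
      exact OPath.cons h4 ((ih w₂ t s'' (e₄ + e₂)).2 ⟨s', e₄, e₂, h5, h2, rfl⟩)

end AJM

end

section

set_option autoImplicit false

/-!
# MP_d3fa71_gt, project Mut, block Q: reversal of all orientations
-/

namespace AJM

theorem L_OPathNot_step {m : Mv} {s s' : List Bool} {e : ℤ} (h : OStep m s s' e) :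
    OStep m (s.map (!·)) (s'.map (!·)) e := by
  induction h with
  | cup b s => exact OStep.cup (!b) (s.map (!·))
  | cap b s => exact OStep.cap (!b) (s.map (!·))
  | pos a b s =>
    cases a <;> cases b
    · exact OStep.pos true true (s.map (!·))
    · exact OStep.pos true false (s.map (!·))
    · exact OStep.pos false true (s.map (!·))
    · exact OStep.pos false false (s.map (!·))
  | neg a b s =>
    cases a <;> cases b
    · exact OStep.neg true true (s.map (!·))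
    · exact OStep.neg true false (s.map (!·))
    · exact OStep.neg false true (s.map (!·))
    · exact OStep.neg false false (s.map (!·))
  | sh x _ ih => exact OStep.sh (!x) ih

theorem prf_OPathNot : OPathNot := by
  intro w s s' e h
  induction h with
  | nil s => exact OPath.nil _
  | cons hm _ ih => exact OPath.cons (L_OPathNot_step hm) ih

end AJM

end

section

/-! # MP_d3fa71_gt, project Mut, block Q: item OPathSh -/

namespace AJM

theorem L_OPathSh_step {k : Kd} {i : ℕ} {s s₁ : List Bool} {e : ℤ} (p : List Bool) :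
    OStep (k, i + p.length) (p ++ s) s₁ e ↔ ∃ s', s₁ = p ++ s' ∧ OStep (k, i) s s' e := by
  induction p generalizing s₁ with
  | nil => simp
  | cons x p ih =>
    constructor
    · intro h
      have h' : OStep (k, (i + p.length) + 1) (x :: (p ++ s)) s₁ e := h
      cases h' with
      | sh _ h1 =>
        obtain ⟨s', rfl, h2⟩ := ih.1 h1
        exact ⟨s', rfl, h2⟩
    · rintro ⟨s', rfl, h⟩
      exact OStep.sh x (ih.2 ⟨s', rfl, h⟩)

theorem prf_OPathSh : OPathSh := by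
  intro w
  induction w with
  | nil =>
    intro p s s₁ e
    constructor
    · intro h
      cases h
      exact ⟨s, rfl, OPath.nil s⟩
    · rintro ⟨s', rfl, h⟩
      cases h
      exact OPath.nil _
  | cons m w ih =>
    intro p s s₁ e
    obtain ⟨k, i⟩ := m
    constructor
    · intro h
      have h' : OPath ((k, i + p.length) :: sh p.length w) (p ++ s) s₁ e := h
      cases h' with
      | cons h1 h2 =>
        obtain ⟨t, rfl, h3⟩ := (L_OPathSh_step p).1 h1
        obtain ⟨t', rfl, h4⟩ := (ih p t _ _).1 h2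
        exact ⟨t', rfl, OPath.cons h3 h4⟩
    · rintro ⟨s', rfl, h⟩
      cases h with
      | cons h1 h2 =>
        exact OPath.cons ((L_OPathSh_step p).2 ⟨_, rfl, h1⟩) ((ih p _ _ _).2 ⟨_, rfl, h2⟩)

end AJM

end

section

/-!
# MP_d3fa71_gt, project Mut, block Q: orientations of rotated words
-/

set_option autoImplicit false

namespace AJM

theorem L_ORot_cup0 (s s' : List Bool) (e : ℤ) :
    OStep (.cup, 0) s s' e ↔ ∃ b, s' = b :: (!b) :: s ∧ e = 0 := by
  constructor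
  · intro h
    cases h
    exact ⟨_, rfl, rfl⟩
  · rintro ⟨b, rfl, rfl⟩
    exact OStep.cup b s

theorem L_ORot_cap0 (s s' : List Bool) (e : ℤ) :
    OStep (.cap, 0) s s' e ↔ ∃ b, s = b :: (!b) :: s' ∧ e = 0 := by
  constructor
  · intro h
    cases h
    exact ⟨_, rfl, rfl⟩
  · rintro ⟨b, rfl, rfl⟩
    exact OStep.cap b s'

theorem L_ORot_sh (k : Kd) (i : ℕ) (x : Bool) (s s' : List Bool) (e : ℤ) :
    OStep (k, i + 1) (x :: s) s' e ↔ ∃ s₁, s' = x :: s₁ ∧ OStep (k, i) s s₁ e := by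
  constructor
  · intro h
    cases h with
    | sh x h => exact ⟨_, rfl, h⟩
  · rintro ⟨s₁, rfl, h⟩
    exact OStep.sh x h

theorem L_ORot_cup2 (a b : Bool) (s s' : List Bool) (e : ℤ) :
    OStep (.cup, 2) (a :: b :: s) s' e ↔ ∃ c, s' = a :: b :: c :: (!c) :: s ∧ e = 0 := by
  rw [L_ORot_sh]
  constructor
  · rintro ⟨s₁, rfl, h⟩
    rw [L_ORot_sh] at h
    obtain ⟨s₂, rfl, h⟩ := h
    obtain ⟨c, rfl, rfl⟩ := (L_ORot_cup0 _ _ _).1 h
    exact ⟨c, rfl, rfl⟩
  · rintro ⟨c, rfl, rfl⟩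
    refine ⟨_, rfl, ?_⟩
    rw [L_ORot_sh]
    exact ⟨_, rfl, OStep.cup c s⟩

theorem L_ORot_cap2 (x y : Bool) (s s' : List Bool) (e : ℤ) :
    OStep (.cap, 2) (x :: y :: s) s' e ↔
      ∃ b s0, s = b :: (!b) :: s0 ∧ s' = x :: y :: s0 ∧ e = 0 := by
  rw [L_ORot_sh]
  constructor
  · rintro ⟨s₁, rfl, h⟩
    rw [L_ORot_sh] at h
    obtain ⟨s₂, rfl, h⟩ := h
    obtain ⟨c, rfl, rfl⟩ := (L_ORot_cap0 _ _ _).1 h
    exact ⟨c, s₂, rfl, rfl, rfl⟩
  · rintro ⟨c, s0, rfl, rfl, rfl⟩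
    refine ⟨_, rfl, ?_⟩
    rw [L_ORot_sh]
    exact ⟨_, rfl, OStep.cap c s0⟩

theorem L_ORot_cons (m : Mv) (w : List Mv) (s s'' : List Bool) (e : ℤ) :
    OPath (m :: w) s s'' e ↔
      ∃ s' e₁ e₂, OStep m s s' e₁ ∧ OPath w s' s'' e₂ ∧ e = e₁ + e₂ := by
  constructor
  · intro h
    cases h with
    | cons h1 h2 => exact ⟨_, _, _, h1, h2, rfl⟩
  · rintro ⟨s', e₁, e₂, h1, h2, rfl⟩
    exact OPath.cons h1 h2

theorem L_ORot_nil (s s' : List Bool) (e : ℤ) : OPath [] s s' e ↔ s' = s ∧ e = 0 := by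
  constructor
  · intro h
    cases h
    exact ⟨rfl, rfl⟩
  · rintro ⟨rfl, rfl⟩
    exact OPath.nil _

theorem L_ORot_one (m : Mv) (s s' : List Bool) (e : ℤ) :
    OPath [m] s s' e ↔ OStep m s s' e := by
  rw [L_ORot_cons]
  constructor
  · rintro ⟨s₁, e₁, e₂, h1, h2, rfl⟩
    obtain ⟨rfl, rfl⟩ := (L_ORot_nil _ _ _).1 h2
    rwa [add_zero]
  · intro h
    exact ⟨s', e, 0, h, OPath.nil _, (add_zero e).symm⟩

theorem L_ORot_sh1 (hOPathSh : OPathSh) (w : List Mv) (a : Bool) (s s₁ : List Bool) (e : ℤ) :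
    OPath (sh 1 w) (a :: s) s₁ e ↔ ∃ s', s₁ = a :: s' ∧ OPath w s s' e :=
  hOPathSh w [a] s s₁ e

/-- Orientations of a rotated word. -/
theorem L_ORot_rot (hOPathAppend : OPathAppend) (hOPathSh : OPathSh) (w : List Mv) (a b : Bool)
    (s s' : List Bool) (e : ℤ) :
    OPath (rot w) (a :: b :: s) s' e ↔
      ∃ c, OPath w (b :: c :: (!c) :: s) ((!a) :: s') e := by
  have hrot : rot w = (.cup, 2) :: (sh 1 w ++ [(.cap, 0)]) := rfl
  rw [hrot, L_ORot_cons]
  constructor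
  · rintro ⟨s₁, e₁, e₂, h1, h2, rfl⟩
    obtain ⟨c, rfl, rfl⟩ := (L_ORot_cup2 _ _ _ _ _).1 h1
    obtain ⟨s₂, e₃, e₄, h3, h4, rfl⟩ := (hOPathAppend _ _ _ _ _).1 h2
    obtain ⟨s₃, rfl, h5⟩ := (L_ORot_sh1 hOPathSh _ _ _ _ _).1 h3
    rw [L_ORot_one, L_ORot_cap0] at h4
    obtain ⟨d, h6, rfl⟩ := h4
    rw [List.cons.injEq] at h6
    obtain ⟨rfl, rfl⟩ := h6
    refine ⟨c, ?_⟩
    rw [zero_add, add_zero]
    exact h5
  · rintro ⟨c, h⟩
    refine ⟨_, 0, e, (L_ORot_cup2 _ _ _ _ _).2 ⟨c, rfl, rfl⟩, ?_, (zero_add e).symm⟩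
    refine (hOPathAppend _ _ _ _ _).2 ⟨_, e, 0,
      (L_ORot_sh1 hOPathSh _ _ _ _ _).2 ⟨_, rfl, h⟩, ?_, (add_zero e).symm⟩
    rw [L_ORot_one, L_ORot_cap0]
    exact ⟨a, rfl, rfl⟩

/-- Orientations of a reversely rotated word. -/
theorem L_ORot_rrt (hOPathAppend : OPathAppend) (hOPathSh : OPathSh) (w : List Mv) (a b : Bool)
    (s s' : List Bool) (e : ℤ) :
    OPath (rrt w) (a :: b :: s) s' e ↔
      ∃ c y d s0, OPath w ((!c) :: a :: b :: s) (y :: d :: (!d) :: s0) e ∧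
        s' = c :: y :: s0 := by
  have hrot : rrt w = (.cup, 0) :: (sh 1 w ++ [(.cap, 2)]) := rfl
  rw [hrot, L_ORot_cons]
  constructor
  · rintro ⟨s₁, e₁, e₂, h1, h2, rfl⟩
    obtain ⟨c, rfl, rfl⟩ := (L_ORot_cup0 _ _ _).1 h1
    obtain ⟨s₂, e₃, e₄, h3, h4, rfl⟩ := (hOPathAppend _ _ _ _ _).1 h2
    obtain ⟨s₃, rfl, h5⟩ := (L_ORot_sh1 hOPathSh _ _ _ _ _).1 h3
    rw [L_ORot_one] at h4
    rcases s₃ with _ | ⟨y, s₄⟩
    · cases h4 with
      | sh _ h => cases h
    · obtain ⟨d, s0, rfl, rfl, rfl⟩ := (L_ORot_cap2 _ _ _ _ _).1 h4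
      refine ⟨c, y, d, s0, ?_, rfl⟩
      rw [zero_add, add_zero]
      exact h5
  · rintro ⟨c, y, d, s0, h, rfl⟩
    refine ⟨_, 0, e, (L_ORot_cup0 _ _ _).2 ⟨c, rfl, rfl⟩, ?_, (zero_add e).symm⟩
    refine (hOPathAppend _ _ _ _ _).2 ⟨_, e, 0,
      (L_ORot_sh1 hOPathSh _ _ _ _ _).2 ⟨_, rfl, h⟩, ?_, (add_zero e).symm⟩
    rw [L_ORot_one, L_ORot_cap2]
    exact ⟨d, s0, rfl, rfl, rfl⟩

theorem prf_ORot (hOPathAppend : OPathAppend) (hOPathSh : OPathSh) : ORot := by
  intro w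
  refine ⟨?_, ?_, ?_⟩
  · rintro ⟨f, hf⟩
    constructor
    · refine ⟨fun a c => f (!a) c, fun a b s s' e => ?_⟩
      rw [L_ORot_rot hOPathAppend hOPathSh]
      simp only [hf, List.cons.injEq]
      constructor
      · rintro ⟨c, ⟨rfl, rfl⟩, rfl⟩
        exact ⟨rfl, c, rfl, rfl⟩
      · rintro ⟨rfl, c, rfl, rfl⟩
        exact ⟨c, ⟨rfl, rfl⟩, rfl⟩
    · refine ⟨fun a c => f (!c) a, fun a b s s' e => ?_⟩
      rw [L_ORot_rrt hOPathAppend hOPathSh]
      simp only [hf, List.cons.injEq]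
      constructor
      · rintro ⟨c, y, d, s0, ⟨⟨rfl, rfl, rfl, rfl⟩, rfl⟩, rfl⟩
        exact ⟨rfl, c, rfl, rfl⟩
      · rintro ⟨rfl, c, rfl, rfl⟩
        exact ⟨c, !c, a, s, ⟨⟨rfl, rfl, rfl, rfl⟩, rfl⟩, rfl⟩
  · rintro ⟨f, hf⟩
    constructor
    · refine ⟨fun a b => f b (!a), fun a b s s' e => ?_⟩
      rw [L_ORot_rot hOPathAppend hOPathSh]
      simp only [hf, List.cons.injEq]
      constructor
      · rintro ⟨c, rfl, r, ⟨rfl, rfl⟩, rfl⟩
        exact ⟨by rw [Bool.not_not, Bool.not_not], rfl⟩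
      · rintro ⟨rfl, rfl⟩
        exact ⟨!b, rfl, !a, ⟨rfl, by rw [Bool.not_not, Bool.not_not]⟩, rfl⟩
    · refine ⟨fun a b => f (!a) b, fun a b s s' e => ?_⟩
      rw [L_ORot_rrt hOPathAppend hOPathSh]
      simp only [hf, List.cons.injEq]
      constructor
      · rintro ⟨c, y, d, s0, ⟨rfl, r, ⟨rfl, rfl, rfl, rfl⟩, rfl⟩, rfl⟩
        exact ⟨by rw [Bool.not_not, Bool.not_not], by rw [Bool.not_not, Bool.not_not]⟩
      · rintro ⟨rfl, rfl⟩
        exact ⟨a, b, !b, s, ⟨(Bool.not_not a).symm, b, ⟨rfl, rfl, Bool.not_not b, rfl⟩, rfl⟩, rfl⟩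
  · rintro ⟨f, hf⟩
    constructor
    · refine ⟨fun a b => f b (!a), fun a b s s' e => ?_⟩
      rw [L_ORot_rot hOPathAppend hOPathSh]
      simp only [hf, List.cons.injEq]
      constructor
      · rintro ⟨c, ⟨rfl, rfl⟩, rfl⟩
        exact ⟨by rw [Bool.not_not], rfl⟩
      · rintro ⟨rfl, rfl⟩
        exact ⟨!a, ⟨rfl, by rw [Bool.not_not]⟩, rfl⟩
    · refine ⟨fun a b => f (!b) a, fun a b s s' e => ?_⟩
      rw [L_ORot_rrt hOPathAppend hOPathSh]
      simp only [hf, List.cons.injEq]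
      constructor
      · rintro ⟨c, y, d, s0, ⟨⟨rfl, rfl, rfl, rfl⟩, rfl⟩, rfl⟩
        exact ⟨by rw [Bool.not_not], by rw [Bool.not_not]⟩
      · rintro ⟨rfl, rfl⟩
        exact ⟨b, a, !b, s, ⟨⟨rfl, rfl, Bool.not_not b, rfl⟩, rfl⟩, rfl⟩

end AJM

end

section

/-!
# MP_d3fa71_gt, project Mut: item OTws
-/

set_option autoImplicit false

namespace AJM

/-- first move of an orientation. -/
theorem L_OTws_cons (m : Mv) (w : List Mv) (s s'' : List Bool) (e : ℤ) :
    OPath (m :: w) s s'' e ↔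
      ∃ (s' : List Bool) (e₁ e₂ : ℤ), OStep m s s' e₁ ∧ OPath w s' s'' e₂ ∧ e = e₁ + e₂ := by
  constructor
  · intro h
    cases h with
    | cons h1 h2 => exact ⟨_, _, _, h1, h2, rfl⟩
  · rintro ⟨s', e₁, e₂, h1, h2, rfl⟩
    exact OPath.cons h1 h2

theorem L_OTws_pos (a b : Bool) (s s' : List Bool) (e : ℤ) :
    OStep (.pos, 0) (a :: b :: s) s' e ↔ s' = b :: a :: s ∧ e = if a = b then -1 else 1 := by
  constructor
  · intro h
    cases h
    exact ⟨rfl, rfl⟩
  · rintro ⟨rfl, rfl⟩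
    exact OStep.pos a b s

theorem L_OTws_neg (a b : Bool) (s s' : List Bool) (e : ℤ) :
    OStep (.neg, 0) (a :: b :: s) s' e ↔ s' = b :: a :: s ∧ e = if a = b then 1 else -1 := by
  constructor
  · intro h
    cases h
    exact ⟨rfl, rfl⟩
  · rintro ⟨rfl, rfl⟩
    exact OStep.neg a b s

/-- powers of a crossing. -/
theorem L_OTws_rep (k : Kd) (c : Bool → Bool → ℤ) (hc : ∀ a b, c a b = c b a)
    (hk : ∀ (a b : Bool) (s s' : List Bool) (e : ℤ),
      OStep (k, 0) (a :: b :: s) s' e ↔ s' = b :: a :: s ∧ e = c a b) (m : ℕ) :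
    ∀ (a b : Bool) (s s' : List Bool) (e : ℤ),
      OPath (List.replicate m (k, 0)) (a :: b :: s) s' e ↔
        s' = (if m % 2 = 0 then a :: b :: s else b :: a :: s) ∧ e = m * c a b := by
  induction m with
  | zero =>
    intro a b s s' e
    rw [List.replicate_zero]
    constructor
    · intro h
      cases h
      exact ⟨rfl, by simp⟩
    · rintro ⟨h1, h2⟩
      simp only [Nat.zero_mod, if_true] at h1
      simp only [Nat.cast_zero, zero_mul] at h2
      subst h1 h2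
      exact OPath.nil _
  | succ m ih =>
    intro a b s s' e
    rw [List.replicate_succ, L_OTws_cons]
    have hs : (if m % 2 = 0 then b :: a :: s else a :: b :: s) =
        (if (m + 1) % 2 = 0 then a :: b :: s else b :: a :: s) := by
      rcases Nat.mod_two_eq_zero_or_one m with h | h
      · rw [if_pos h, if_neg (by omega)]
      · rw [if_neg (by omega), if_pos (by omega)]
    constructor
    · rintro ⟨t, e₁, e₂, h1, h2, rfl⟩
      obtain ⟨rfl, rfl⟩ := (hk a b s t e₁).1 h1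
      obtain ⟨rfl, rfl⟩ := (ih b a s s' e₂).1 h2
      refine ⟨hs, ?_⟩
      rw [hc b a]
      push_cast
      ring
    · rintro ⟨rfl, rfl⟩
      refine ⟨b :: a :: s, c a b, m * c b a, (hk a b s _ _).2 ⟨rfl, rfl⟩,
        (ih b a s _ _).2 ⟨hs.symm, rfl⟩, ?_⟩
      rw [hc b a]
      push_cast
      ring

theorem prf_OTws (hOPathAppend : OPathAppend) : OTws := by
  have _h := hOPathAppend
  have key : ∀ z : ℤ, ∃ f : Bool → Bool → ℤ, ∀ (a b : Bool) (s s' : List Bool) (e : ℤ),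
      OPath (tws z) (a :: b :: s) s' e ↔
        s' = (if z % 2 = 0 then a :: b :: s else b :: a :: s) ∧ e = f a b := by
    intro z
    unfold tws
    by_cases hz : 0 ≤ z
    · rw [if_pos hz]
      refine ⟨fun a b => (z.toNat : ℤ) * (if a = b then -1 else 1), fun a b s s' e => ?_⟩
      rw [L_OTws_rep .pos (fun a b => if a = b then -1 else 1) (fun a b => by
        cases a <;> cases b <;> rfl) L_OTws_pos]
      have h : (z.toNat % 2 = 0) = (z % 2 = 0) := by
        apply propext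
        omega
      simp only [h]
    · rw [if_neg hz]
      refine ⟨fun a b => ((-z).toNat : ℤ) * (if a = b then 1 else -1), fun a b s s' e => ?_⟩
      rw [L_OTws_rep .neg (fun a b => if a = b then 1 else -1) (fun a b => by
        cases a <;> cases b <;> rfl) L_OTws_neg]
      have h : ((-z).toNat % 2 = 0) = (z % 2 = 0) := by
        apply propext
        omega
      simp only [h]
  intro n
  constructor
  · obtain ⟨f, hf⟩ := key (2 * n)
    refine ⟨f, fun a b s s' e => ?_⟩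
    rw [hf, if_pos (by omega)]
  · obtain ⟨f, hf⟩ := key (2 * n + 1)
    refine ⟨f, fun a b s s' e => ?_⟩
    rw [hf, if_neg (by omega)]

end AJM

end

section

/-!
# MP_d3fa71_gt, project Mut, block Q: the orientation type of the gadget
-/

namespace AJM

theorem prf_OVg (hOTws : OTws) (hOComp : OComp) (hORot : ORot) : OVg := by
  intro j' j n
  unfold Vg
  have h1 : OX (rot (tws (2 * (j' : ℤ) + 1))) := (hORot _).2.2 ((hOTws j').2) |>.1
  have h2 : O0 (tws (2 * (n : ℤ))) := (hOTws n).1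
  have h3 : OX (rot (tws (2 * (j : ℤ) + 1))) := (hORot _).2.2 ((hOTws j).2) |>.1
  have h4 := (hOComp _ _).2.2.2.1 h1 h2
  have h5 := (hOComp _ _).2.2.2.2 h4 h3
  exact ((hORot _).1 h5).1

end AJM

end

section

/-!
# MP_d3fa71_gt, project Mut: half powers
-/

set_option autoImplicit false

namespace AJM

theorem prf_OddHalf (hPowTr : PowTr) (hSpId : SpId) : OddHalf := by
  intro R _ y z n hyz
  have hE := (hSpId R (tr (y * z)) n).1
  have hzy : tr (z * y) = tr (y * z) := tr_mul_comm z y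
  constructor
  · have h1 := (hPowTr R (y * z) z n).1
    have h2 : tr (y * z * z) = tr z * tr (y * z) - tr z := by
      have h3 := tr_mul_add z (z * y)
      have h4 : tr (y * z * z) = tr (z * (z * y)) := by
        rw [tr_mul_comm (y * z) z, ← mul_assoc, tr_mul_comm (z * y) z]
      have h5 : tr (z⁻¹ * (z * y)) = tr z := by
        rw [inv_mul_cancel_left, hyz]
      rw [h4, ← hzy]
      linear_combination h3 - h5
    rw [h1, h2, hE]
    ring
  · have h1 := (hPowTr R (y * z) y n).1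
    have h2 : tr (y * z * y) = tr z * tr (y * z) - tr z := by
      have h3 := tr_mul_add y (z * y)
      have h5 : tr (y⁻¹ * (z * y)) = tr z := by
        have := tr_conj y⁻¹ z
        rw [inv_inv, mul_assoc] at this
        exact this
      rw [mul_assoc y z y, ← hzy, ← hyz]
      rw [hyz] at h3 ⊢
      linear_combination h3 - h5
    rw [h1, h2, hE, hyz]
    ring

end AJM

end

section

/-!
# MP_d3fa71_gt, project Mut: item OddPow
-/

namespace AJM

theorem L_OddPow_pow {R : Type} [CommRing R] (x : G R) (n : ℕ) :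
    (x ^ (n + 1)).1 0 0 = Sp (n + 1) (tr x) * x.1 0 0 - Sp n (tr x) ∧
    (x ^ (n + 1)).1 0 1 = Sp (n + 1) (tr x) * x.1 0 1 ∧
    (x ^ (n + 1)).1 1 0 = Sp (n + 1) (tr x) * x.1 1 0 ∧
    (x ^ (n + 1)).1 1 1 = Sp (n + 1) (tr x) * x.1 1 1 - Sp n (tr x) := by
  induction n with
  | zero => simp [Sp]
  | succ n ih =>
    obtain ⟨h1, h2, h3, h4⟩ := ih
    have hd := G_det x
    have hS : Sp (n + 1 + 1) (tr x) = (x.1 0 0 + x.1 1 1) * Sp (n + 1) (tr x) - Sp n (tr x) := rfl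
    rw [pow_succ x (n + 1), G_mul00, G_mul01, G_mul10, G_mul11, h1, h2, h3, h4, hS]
    refine ⟨?_, ?_, ?_, ?_⟩
    · linear_combination (-Sp (n + 1) (tr x)) * hd
    · ring
    · ring
    · linear_combination (-Sp (n + 1) (tr x)) * hd

theorem prf_OddPow (hSpId : SpId) : OddPow := by
  intro R _ x n hE
  obtain ⟨s1, s2, s3, s4⟩ := hSpId R (tr x) n
  rw [hE] at s1
  have h1 : Sp (2 * n + 1) (tr x) = 0 := by
    rw [s3]
    linear_combination (-(Sp (n + 1) (tr x) + Sp n (tr x))) * s1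
  have h2 : Sp (2 * n) (tr x) = 1 := by
    rcases n with _ | m
    · simp only [Sp] at s1 ⊢
      linear_combination s1
    · obtain ⟨t1, t2, t3, t4⟩ := hSpId R (tr x) m
      rw [show 2 * (m + 1) = 2 * m + 2 by ring, t4]
      linear_combination t2 - (Sp (m + 1) (tr x) + Sp m (tr x)) * s1
  obtain ⟨p1, p2, p3, p4⟩ := L_OddPow_pow x (2 * n)
  rw [h1, h2] at p1 p4
  rw [h1] at p2 p3
  apply G_ext
  · rw [p1]; simp
  · rw [p2]; simp
  · rw [p3]; simp
  · rw [p4]; simp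

end AJM

end

section

/-!
# MP_d3fa71_gt, project Mut: item OddRel
-/

namespace AJM

theorem L_OddRel_sq {R : Type} [CommRing R] (x : G R) (h : tr x = 0) : x * x = dg (-1) := by
  have hd := G_det x
  unfold tr at h
  apply G_ext
  · rw [G_mul00]; simp; linear_combination (x.1 0 0) * h - hd
  · rw [G_mul01]; simp; linear_combination (x.1 0 1) * h
  · rw [G_mul10]; simp; linear_combination (x.1 1 0) * h
  · rw [G_mul11]; simp; linear_combination (x.1 1 1) * h - hd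

theorem prf_OddRel (hOddHalf : OddHalf) (hOddPow : OddPow) : OddRel := by
  intro R _ y z n hyz hE
  obtain ⟨h1, -⟩ := hOddHalf R y z n hyz
  have h3 := hOddPow R (y * z) n hE
  rw [hE, mul_zero] at h1
  generalize hW : y * z = W at h1 h3 ⊢
  have hy : W * z⁻¹ = y := by rw [← hW]; group
  obtain ⟨P, hP⟩ : ∃ P, P = (W ^ n)⁻¹ * z⁻¹ := ⟨_, rfl⟩
  have hPi : P⁻¹ = z * W ^ n := by rw [hP]; group
  have hPt : tr P = 0 := by
    rw [hP, ← mul_inv_rev, tr_inv, tr_mul_comm, h1]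
  have hPP : P * P = dg (-1) := L_OddRel_sq P hPt
  have he : (dg (-1 : Rˣ) : G R) * dg (-1) = 1 := by rw [← dg_mul]; simp
  have hPe : z * W ^ n = dg (-1) * P := by
    rw [← hPi, inv_eq_iff_mul_eq_one, ← mul_assoc, ← dg_neg_comm, mul_assoc, hPP, he]
  have h2 : (W ^ n)⁻¹ * z * W ^ n = y := by
    rw [mul_assoc, hPe, ← h3, hP, ← mul_assoc, ← mul_assoc, ← hy]
    congr 1
    rw [mul_inv_eq_iff_eq_mul, inv_mul_eq_iff_eq_mul, ← pow_succ', ← pow_add]
    congr 1
    ring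
  refine ⟨by rw [← hP]; exact hPP, h2, ?_⟩
  have e1 : (W ^ n)⁻¹ * z⁻¹ * y * z * W ^ n = P * y * P⁻¹ := by
    rw [hPi, hP]; group
  have e2 : y = (W ^ n)⁻¹ * P⁻¹ := by rw [hPi, ← h2]; group
  rw [e1, e2]
  have e3 : P⁻¹ = dg (-1) * P := by rw [hPi, hPe]
  calc P * ((W ^ n)⁻¹ * P⁻¹) * P⁻¹ = P * ((W ^ n)⁻¹ * (dg (-1) * P)) * P⁻¹ := by rw [← e3]
    _ = P * (W ^ n)⁻¹ * dg (-1) := by group
    _ = dg (-1) * P * (W ^ n)⁻¹ := by rw [← dg_neg_comm]; group
    _ = z * W ^ n * (W ^ n)⁻¹ := by rw [hPe]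
    _ = z := by group

end AJM

end

section

/-!
# MP_d3fa71_gt, project Mut: item OddTrace
-/

namespace AJM

theorem prf_OddTrace (hOddHalf : OddHalf) (hTrOdd : TrOdd) : OddTrace := by
  intro R _ y z n hyz
  obtain ⟨h1, h2⟩ := hOddHalf R y z n hyz
  have h3 := hTrOdd R (y * z) n
  generalize hW : y * z = W at h1 h2 h3 ⊢
  have hy : y = W * z⁻¹ := by rw [← hW]; group
  set A : G R := (W ^ n)⁻¹ * z⁻¹ with hA
  have e1 : (W ^ n)⁻¹ * z⁻¹ * W ^ (n + 1) * z⁻¹ = A * (W ^ (2 * n + 1) * A) := by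
    have : W ^ (n + 1) * z⁻¹ = W ^ (2 * n + 1) * ((W ^ n)⁻¹ * z⁻¹) := by
      rw [← mul_assoc]
      congr 1
      rw [eq_mul_inv_iff_mul_eq, ← pow_add]
      congr 1
      ring
    rw [hA, mul_assoc ((W ^ n)⁻¹ * z⁻¹), this]
  have e2 := tr_mul_add A (W ^ (2 * n + 1) * A)
  have e3 : tr (A⁻¹ * (W ^ (2 * n + 1) * A)) = tr (W ^ (2 * n + 1)) := by
    rw [tr_mul_comm, mul_assoc, mul_inv_cancel, mul_one]
  have e4 : tr A = tr z * Ep n (tr W) := by
    rw [hA, ← mul_inv_rev, tr_inv, tr_mul_comm, h1]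
  have e5 : tr (W ^ (2 * n + 1) * A) = tr z * Ep n (tr W) := by
    have : W ^ (2 * n + 1) * A = W ^ n * y := by
      rw [hA, ← mul_assoc, hy, ← mul_assoc]
      congr 1
      rw [mul_inv_eq_iff_eq_mul, ← pow_succ, ← pow_add]
      congr 1
      ring
    rw [this, h2]
  rw [e3, e4, e5] at e2
  rw [e1]
  linear_combination e2 - h3

end AJM

end

end

section

/-! Bundle of small proof modules (one section per former module). -/

section

/-!
# MP_d3fa71_gt, project Mut, block Q: locality of the operators of words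
-/

set_option autoImplicit false

open Matrix

namespace AJM

/-- The vectors supported on lists of length `l`. -/
noncomputable abbrev L_OpLoc_S (n l : ℕ) : Submodule (RatFunc ℚ) (TT n) :=
  Finsupp.supported (RatFunc ℚ) (RatFunc ℚ) {z : List (Fin n) | z.length = l}

/-- Locality of an operator. -/
def L_OpLoc_Loc (n : ℕ) (f : TT n →ₗ[RatFunc ℚ] TT n) (l l' : ℕ) : Prop :=
  ∀ v ∈ L_OpLoc_S n l, (∀ s : List (Fin n), f (Finsupp.mapDomain (fun z => z ++ s) v) =
    Finsupp.mapDomain (fun z => z ++ s) (f v)) ∧ f v ∈ L_OpLoc_S n l'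

theorem L_OpLoc_single {n l : ℕ} {z : List (Fin n)} (h : z.length = l) (c : RatFunc ℚ) :
    Finsupp.single z c ∈ L_OpLoc_S n l :=
  Finsupp.single_mem_supported _ _ h

theorem L_OpLoc_mapCons {n l : ℕ} (x : Fin n) {v : TT n} (hv : v ∈ L_OpLoc_S n l) :
    Finsupp.mapDomain (x :: ·) v ∈ L_OpLoc_S n (l + 1) := by
  classical
  rw [Finsupp.mem_supported] at hv ⊢
  intro z hz
  have h1 := Finsupp.mapDomain_support hz
  rw [Finset.mem_image] at h1
  obtain ⟨y, hy, rfl⟩ := h1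
  have h2 : y.length = l := hv hy
  change (x :: y).length = l + 1
  rw [List.length_cons, h2]

theorem L_OpLoc_two {n l : ℕ} {s : List (Fin n)} (hl : s.length = l) (h2 : 2 ≤ l) :
    ∃ a b s0, s = a :: b :: s0 := by
  match s, hl with
  | [], hl => simp at hl; omega
  | [a], hl => simp at hl; omega
  | a :: b :: s0, _ => exact ⟨a, b, s0, rfl⟩

theorem L_OpLoc_succ (n : ℕ) (k : Kd) (i : ℕ) (x : Fin n) (s : List (Fin n)) :
    act n k (i + 1) (x :: s) = Finsupp.mapDomain (x :: ·) (act n k i s) := by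
  cases k <;> simp [act]

theorem L_OpLoc_mvw {k : Kd} {i l l1 : ℕ} (h : mvw (k, i + 1) l = some l1) :
    ∃ l0 l2, l = l0 + 1 ∧ l1 = l2 + 1 ∧ mvw (k, i) l0 = some l2 := by
  cases k with
  | cup =>
    simp only [mvw] at h
    split_ifs at h with h1
    simp only [Option.some.injEq] at h
    exact ⟨l - 1, l - 1 + 2, by omega, by omega, by simp only [mvw]; rw [if_pos (by omega)]⟩
  | cap =>
    simp only [mvw] at h
    split_ifs at h with h1
    simp only [Option.some.injEq] at h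
    exact ⟨l - 1, l - 1 - 2, by omega, by omega, by simp only [mvw]; rw [if_pos (by omega)]⟩
  | pos =>
    simp only [mvw] at h
    split_ifs at h with h1
    simp only [Option.some.injEq] at h
    exact ⟨l - 1, l - 1, by omega, by omega, by simp only [mvw]; rw [if_pos (by omega)]⟩
  | neg =>
    simp only [mvw] at h
    split_ifs at h with h1
    simp only [Option.some.injEq] at h
    exact ⟨l - 1, l - 1, by omega, by omega, by simp only [mvw]; rw [if_pos (by omega)]⟩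

theorem L_OpLoc_act {n : ℕ} : ∀ (i : ℕ) (k : Kd) (l l1 : ℕ) (u : List (Fin n)),
    mvw (k, i) l = some l1 → u.length = l →
    (∀ s, act n k i (u ++ s) = Finsupp.mapDomain (fun z => z ++ s) (act n k i u)) ∧
      act n k i u ∈ L_OpLoc_S n l1 := by
  intro i
  induction i with
  | zero =>
    intro k l l1 u hm hl
    cases k with
    | cup =>
      have h1 : l1 = l + 2 := by
        simp only [mvw] at hm
        simpa using hm.symm
      have e : ∀ u : List (Fin n), act n .cup 0 u =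
          ∑ i : Fin n, Finsupp.single (i :: i.rev :: u) (cc n i) := fun u => by simp [act]
      constructor
      · intro s
        rw [e, e, Finsupp.mapDomain_finsetSum]
        refine Finset.sum_congr rfl fun i _ => ?_
        rw [Finsupp.mapDomain_single]
        rfl
      · rw [e]
        exact Submodule.sum_mem _ fun i _ => L_OpLoc_single (by simp [h1, hl]) _
    | cap =>
      simp only [mvw] at hm
      split_ifs at hm with h2
      simp only [Option.some.injEq] at hm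
      obtain ⟨a, b, u', rfl⟩ := L_OpLoc_two hl (by omega)
      have e : ∀ u' : List (Fin n), act n .cap 0 (a :: b :: u') =
          if b = a.rev then Finsupp.single u' (cc n b)⁻¹ else 0 := fun u' => by simp [act]
      simp only [List.length_cons] at hl
      constructor
      · intro s
        rw [List.cons_append, List.cons_append, e, e]
        split_ifs
        · rw [Finsupp.mapDomain_single]
        · rw [Finsupp.mapDomain_zero]
      · rw [e]
        split_ifs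
        · exact L_OpLoc_single (by omega) _
        · exact Submodule.zero_mem _
    | pos =>
      simp only [mvw] at hm
      split_ifs at hm with h2
      simp only [Option.some.injEq] at hm
      obtain ⟨a, b, u', rfl⟩ := L_OpLoc_two hl (by omega)
      have e : ∀ u' : List (Fin n), act n .pos 0 (a :: b :: u') =
          ∑ p : Fin n × Fin n, Finsupp.single (p.1 :: p.2 :: u') ((Bm n)⁻¹ p (a, b)) :=
        fun u' => by simp [act]
      simp only [List.length_cons] at hl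
      constructor
      · intro s
        rw [List.cons_append, List.cons_append, e, e, Finsupp.mapDomain_finsetSum]
        refine Finset.sum_congr rfl fun i _ => ?_
        rw [Finsupp.mapDomain_single]
        rfl
      · rw [e]
        exact Submodule.sum_mem _ fun i _ => L_OpLoc_single (by
          simp only [List.length_cons]; omega) _
    | neg =>
      simp only [mvw] at hm
      split_ifs at hm with h2
      simp only [Option.some.injEq] at hm
      obtain ⟨a, b, u', rfl⟩ := L_OpLoc_two hl (by omega)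
      have e : ∀ u' : List (Fin n), act n .neg 0 (a :: b :: u') =
          ∑ p : Fin n × Fin n, Finsupp.single (p.1 :: p.2 :: u') (Bm n p (a, b)) :=
        fun u' => by simp [act]
      simp only [List.length_cons] at hl
      constructor
      · intro s
        rw [List.cons_append, List.cons_append, e, e, Finsupp.mapDomain_finsetSum]
        refine Finset.sum_congr rfl fun i _ => ?_
        rw [Finsupp.mapDomain_single]
        rfl
      · rw [e]
        exact Submodule.sum_mem _ fun i _ => L_OpLoc_single (by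
          simp only [List.length_cons]; omega) _
  | succ i ih =>
    intro k l l1 u hm hl
    obtain ⟨l0, l2, rfl, rfl, hm'⟩ := L_OpLoc_mvw hm
    obtain ⟨x, u', rfl⟩ : ∃ x u', u = x :: u' := by
      cases u with
      | nil => simp at hl
      | cons x u' => exact ⟨x, u', rfl⟩
    have hl' : u'.length = l0 := by simpa using hl
    obtain ⟨h1, h2⟩ := ih k l0 l2 u' hm' hl'
    constructor
    · intro s
      rw [List.cons_append, L_OpLoc_succ, L_OpLoc_succ, h1 s, ← Finsupp.mapDomain_comp,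
        ← Finsupp.mapDomain_comp]
      rfl
    · rw [L_OpLoc_succ]
      exact L_OpLoc_mapCons x h2

theorem L_OpLoc_opm {n : ℕ} (m : Mv) {l l1 : ℕ} (hm : mvw m l = some l1) :
    L_OpLoc_Loc n (opm n m) l l1 := by
  intro v hv
  have hv' : ∀ u ∈ v.support, u.length = l := fun u hu => (Finsupp.mem_supported _ _).1 hv hu
  constructor
  · intro s
    unfold opm
    rw [Finsupp.linearCombination_mapDomain, Finsupp.linearCombination_apply,
      Finsupp.linearCombination_apply, Finsupp.sum, Finsupp.sum, Finsupp.mapDomain_finsetSum]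
    refine Finset.sum_congr rfl fun u hu => ?_
    rw [Finsupp.mapDomain_smul]
    congr 1
    exact (L_OpLoc_act m.2 m.1 l l1 u hm (hv' u hu)).1 s
  · unfold opm
    rw [Finsupp.linearCombination_apply, Finsupp.sum]
    exact Submodule.sum_mem _ fun u hu => Submodule.smul_mem _ _
      (L_OpLoc_act m.2 m.1 l l1 u hm (hv' u hu)).2

theorem L_OpLoc_opw {n : ℕ} : ∀ (w : List Mv) (l l' : ℕ), wid w l = some l' →
    L_OpLoc_Loc n (opw n w) l l' := by
  intro w
  induction w with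
  | nil =>
    intro l l' h v hv
    have hl : l = l' := by simpa [wid] using h
    subst hl
    exact ⟨fun s => rfl, hv⟩
  | cons m w ih =>
    intro l l' h v hv
    simp only [wid] at h
    obtain ⟨l1, h1, h2⟩ := Option.bind_eq_some_iff.1 h
    obtain ⟨h3, h4⟩ := L_OpLoc_opm (n := n) m h1 v hv
    obtain ⟨h5, h6⟩ := ih l1 l' h2 _ h4
    constructor
    · intro s
      change opw n w (opm n m _) = Finsupp.mapDomain _ (opw n w (opm n m v))
      rw [h3 s, h5 s]
    · exact h6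

theorem prf_OpLoc : OpLoc := by
  intro n w l l' h u hu
  obtain ⟨h1, h2⟩ := L_OpLoc_opw (n := n) w l l' h (Finsupp.single u 1) (L_OpLoc_single hu 1)
  constructor
  · intro s
    have := h1 s
    rw [Finsupp.mapDomain_single] at this
    exact this
  · intro z hz
    exact (Finsupp.mem_supported _ _).1 h2 hz

end AJM

end

section

set_option autoImplicit false

/-!
# MP_d3fa71_gt, project Mut, block Q: the action of a concatenation
-/

namespace AJM

theorem prf_OpwAppend : OpwAppend := by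
  intro n w₁ w₂
  induction w₁ with
  | nil => rfl
  | cons m w ih =>
    have h1 : opw n (m :: w ++ w₂) = opw n (w ++ w₂) ∘ₗ opm n m := rfl
    have h2 : opw n (m :: w) = opw n w ∘ₗ opm n m := rfl
    rw [h1, h2, ih, LinearMap.comp_assoc]

end AJM

end

section

/-!
# MP_d3fa71_gt, project Mut: the element `z` of the positive direction
-/

namespace AJM

open Polynomial in
theorem L_PExist_root {F : Type} [Field F] [IsAlgClosed F] (a b c : F) (ha : a ≠ 0) :
    ∃ x : F, a * x ^ 2 + b * x + c = 0 := by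
  have hdeg : (C a * X ^ 2 + C b * X + C c : F[X]).degree = 2 := degree_quadratic ha
  obtain ⟨x, hx⟩ := IsAlgClosed.exists_root (C a * X ^ 2 + C b * X + C c : F[X])
    (by rw [hdeg]; decide)
  refine ⟨x, ?_⟩
  have := hx
  simp only [IsRoot.def, eval_add, eval_mul, eval_C, eval_pow, eval_X] at this
  exact this

/-- Two numbers with a linear relation and a given product. -/
theorem L_PExist_two {F : Type} [Field F] [IsAlgClosed F] (b c e f : F)
    (h : b ≠ 0 ∨ c ≠ 0) (h' : b = 0 ∨ c = 0 → e ≠ 0) :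
    ∃ x y : F, b * y + c * x = e ∧ x * y = f := by
  by_cases hb : b = 0
  · have hc : c ≠ 0 := h.resolve_left (not_not.2 hb)
    have he : e ≠ 0 := h' (Or.inl hb)
    refine ⟨e / c, f / (e / c), ?_, ?_⟩
    · rw [hb]; field_simp; ring
    · field_simp
  · by_cases hc : c = 0
    · have he : e ≠ 0 := h' (Or.inr hc)
      refine ⟨f / (e / b), e / b, ?_, ?_⟩
      · rw [hc]; field_simp; ring
      · field_simp
    · obtain ⟨x, hx⟩ := L_PExist_root c (-e) (f * b) hc
      refine ⟨x, (e - c * x) / b, ?_, ?_⟩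
      · field_simp; ring
      · field_simp
        linear_combination (-1 : F) * hx

theorem L_PExist_dg {F : Type} [Field F] [IsAlgClosed F] (M : Fˣ) (b : G F) (Y' Y'' : F)
    (hM : (M : F) ^ 2 ≠ 1) (hb : tr b = (M : F) + ((M⁻¹ : Fˣ) : F))
    (hc : dg M * b ≠ b * dg M) (hY : Y' ≠ Y'')
    (hY2 : ((M : F) + ((M⁻¹ : Fˣ) : F)) ^ 2 ≠ Y' + Y'') :
    ∃ z : G F, tr z = (M : F) + ((M⁻¹ : Fˣ) : F) ∧ tr (dg M * z) = Y'' ∧ tr (b⁻¹ * z) = Y' := by
  have hMM : (M : F) * ((M⁻¹ : Fˣ) : F) = 1 := by simp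
  set N : F := ((M⁻¹ : Fˣ) : F) with hN
  set m : F := (M : F) with hm
  have hMN : m - N ≠ 0 := by
    intro h0
    apply hM
    have h1 : m = N := sub_eq_zero.1 h0
    rw [pow_two]; nth_rewrite 2 [h1]; exact hMM
  have hd := G_det b
  have ht : b.1 0 0 + b.1 1 1 = m + N := hb
  set p : F := (Y'' - N * (m + N)) / (m - N) with hp
  set q : F := (m + N) - p with hq
  have hpq : m * p + N * q = Y'' := by
    rw [hq]
    have : (m - N) * p = Y'' - N * (m + N) := by rw [hp]; field_simp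
    linear_combination this
  have hoff : b.1 0 1 ≠ 0 ∨ b.1 1 0 ≠ 0 := by
    by_contra hcon
    push Not at hcon
    apply hc
    ext
    · rw [G_mul00, G_mul00, dg00, dg01, dg10, hcon.1, hcon.2]; ring
    · rw [G_mul01, G_mul01, dg00, dg01, dg11, hcon.1]; ring
    · rw [G_mul10, G_mul10, dg00, dg11, dg10, hcon.2]; ring
    · rw [G_mul11, G_mul11, dg01, dg11, dg10, hcon.2, hcon.1]; ring
  have hbM : b.1 0 1 = 0 ∨ b.1 1 0 = 0 →
      (b.1 0 0 = m ∧ b.1 1 1 = N) ∨ (b.1 0 0 = N ∧ b.1 1 1 = m) := by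
    intro h
    have h0 : b.1 0 1 * b.1 1 0 = 0 := by
      rcases h with h | h <;> rw [h] <;> ring
    have hq : (b.1 0 0 - m) * (b.1 0 0 - N) = 0 := by
      linear_combination (-1 : F) * hd + b.1 0 0 * ht + hMM - h0
    rcases mul_eq_zero.1 hq with h | h
    · left
      exact ⟨sub_eq_zero.1 h, by linear_combination ht - h⟩
    · right
      exact ⟨sub_eq_zero.1 h, by linear_combination ht - h⟩
  obtain ⟨x, y, hxy, hf⟩ := L_PExist_two (b.1 0 1) (b.1 1 0)
    (b.1 1 1 * p + b.1 0 0 * q - Y') (p * q - 1) hoff (by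
      intro h
      rcases hbM h with ⟨e1, e2⟩ | ⟨e1, e2⟩
      · rw [e1, e2]
        intro h0
        apply hY2
        have : (m + N) * (p + q) = (m + N) ^ 2 := by rw [hq]; ring
        linear_combination h0 + hpq - this
      · rw [e1, e2]
        intro h0
        apply hY
        linear_combination hpq - h0)
  let z : G F := ⟨!![p, x; y, q], by rw [Matrix.det_fin_two_of, hf]; ring⟩
  have z00 : z.1 0 0 = p := rfl
  have z01 : z.1 0 1 = x := rfl
  have z10 : z.1 1 0 = y := rfl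
  have z11 : z.1 1 1 = q := rfl
  refine ⟨z, ?_, ?_, ?_⟩
  · unfold tr; rw [z00, z11, hq]; ring
  · unfold tr
    rw [G_mul00, G_mul11, z00, z10, z01, z11, dg00, dg01, dg10, dg11]
    linear_combination hpq
  · unfold tr
    rw [G_mul00, G_mul11, z00, z10, z01, z11, G_inv00, G_inv01, G_inv10, G_inv11]
    linear_combination (-1 : F) * hxy

theorem prf_PExist : PExist := by
  intro F _ _ M ha hb Y' Y'' hM hc hY hY2
  have hc' : dg M * (ha⁻¹ * mer M hb * ha) ≠ (ha⁻¹ * mer M hb * ha) * dg M := by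
    intro h
    apply hc
    have e : mer M ha = ha * dg M * ha⁻¹ := rfl
    rw [e]
    calc ha * dg M * ha⁻¹ * mer M hb
        = ha * (dg M * (ha⁻¹ * mer M hb * ha)) * ha⁻¹ := by group
      _ = ha * ((ha⁻¹ * mer M hb * ha) * dg M) * ha⁻¹ := by rw [h]
      _ = mer M hb * (ha * dg M * ha⁻¹) := by group
  have htb : tr (ha⁻¹ * mer M hb * ha) = (M : F) + ((M⁻¹ : Fˣ) : F) := by
    have := tr_conj ha⁻¹ (mer M hb)
    rw [inv_inv] at this
    rw [this, tr_mer]
  obtain ⟨z, h1, h2, h3⟩ := L_PExist_dg M (ha⁻¹ * mer M hb * ha) Y' Y'' hM htb hc' hY hY2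
  refine ⟨ha * z * ha⁻¹, ?_, ?_, ?_⟩
  · rw [tr_conj, h1]
  · have : mer M ha * (ha * z * ha⁻¹) = ha * (dg M * z) * ha⁻¹ := by
      unfold mer; group
    rw [this, tr_conj, h2]
  · have : (mer M hb)⁻¹ * (ha * z * ha⁻¹) = ha * ((ha⁻¹ * mer M hb * ha)⁻¹ * z) * ha⁻¹ := by
      generalize mer M hb = u
      group
    rw [this, tr_conj, h3]

end AJM

end

section

/-!
# MP_d3fa71_gt, project Mut: braid words are deterministic
-/

set_option autoImplicit false

namespace AJM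

theorem PathDet_step {R : Type} [CommRing R] (M : Rˣ) (k : Kd) (hk : k = Kd.pos ∨ k = Kd.neg) :
    ∀ (i : ℕ) (s s₁ s₂ : List (G R)) (τ₁ τ₂ : Rˣ),
      Step M (k, i) s s₁ τ₁ → Step M (k, i) s s₂ τ₂ → s₁ = s₂ ∧ τ₁ = τ₂ := by
  intro i
  induction i with
  | zero =>
    intro s s₁ s₂ τ₁ τ₂ h1 h2
    rcases hk with rfl | rfl
    · cases h1
      cases h2
      exact ⟨rfl, rfl⟩
    · cases h1
      cases h2
      exact ⟨rfl, rfl⟩
  | succ i ih =>
    intro s s₁ s₂ τ₁ τ₂ h1 h2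
    cases h1 with
    | sh x h1' =>
      cases h2 with
      | sh _ h2' =>
        obtain ⟨rfl, rfl⟩ := ih _ _ _ _ _ h1' h2'
        exact ⟨rfl, rfl⟩

theorem prf_PathDet : PathDet := by
  intro R _ M w
  induction w with
  | nil =>
    intro s s₁ s₂ τ₁ τ₂ _ h1 h2
    cases h1
    cases h2
    exact ⟨rfl, rfl⟩
  | cons m w ih =>
    intro s s₁ s₂ τ₁ τ₂ hm h1 h2
    cases h1 with
    | cons a1 b1 =>
      cases h2 with
      | cons a2 b2 =>
        obtain ⟨k, i⟩ := m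
        obtain ⟨rfl, rfl⟩ := PathDet_step M k (hm (k, i) (List.mem_cons_self ..)) i _ _ _ _ _ a1 a2
        obtain ⟨rfl, rfl⟩ := ih _ _ _ _ _ (fun m' hm' => hm m' (List.mem_cons_of_mem _ hm')) b1 b2
        exact ⟨rfl, rfl⟩

end AJM

end

section

set_option autoImplicit false

/-!
# Strands below are not touched (inversion)
-/

namespace AJM

section
variable {R : Type} [CommRing R]

theorem PathRightInv_cup {M : Rˣ} : ∀ (i : ℕ) (s r s₁ : List (G R)) (τ : Rˣ),
    i ≤ s.length → Step M (.cup, i) (s ++ r) s₁ τ →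
    ∃ s' : List (G R), s₁ = s' ++ r ∧ s'.length = s.length + 2 ∧ Step M (.cup, i) s s' τ := by
  intro i
  induction i with
  | zero =>
    intro s r s₁ τ _ h
    cases h with
    | cup h s => exact ⟨_ :: _ :: s, rfl, rfl, Step.cup h _⟩
  | succ i ih =>
    intro s r s₁ τ hi h
    rcases s with _ | ⟨x, s⟩
    · simp at hi
    · cases h with
      | sh x hs =>
        obtain ⟨s', h1, h2, h3⟩ := ih s r _ τ (by simpa using hi) hs
        exact ⟨x :: s', by rw [h1]; rfl, by simp [h2], Step.sh x h3⟩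

theorem PathRightInv_cap {M : Rˣ} : ∀ (i : ℕ) (s r s₁ : List (G R)) (τ : Rˣ),
    i + 2 ≤ s.length → Step M (.cap, i) (s ++ r) s₁ τ →
    ∃ s' : List (G R), s₁ = s' ++ r ∧ s'.length = s.length - 2 ∧ Step M (.cap, i) s s' τ := by
  intro i
  induction i with
  | zero =>
    intro s r s₁ τ hi h
    rcases s with _ | ⟨a, _ | ⟨b, s⟩⟩
    · simp at hi
    · simp at hi
    · cases h with
      | cap h τ s' => exact ⟨s, rfl, by simp, Step.cap _ _ _⟩
  | succ i ih =>
    intro s r s₁ τ hi h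
    rcases s with _ | ⟨x, s⟩
    · simp at hi
    · cases h with
      | sh x hs =>
        have hi' : i + 2 ≤ s.length := by
          simp only [List.length_cons] at hi
          omega
        obtain ⟨s', h1, h2, h3⟩ := ih s r _ τ hi' hs
        refine ⟨x :: s', by rw [h1]; rfl, ?_, Step.sh x h3⟩
        simp only [List.length_cons]
        omega

theorem PathRightInv_pos {M : Rˣ} : ∀ (i : ℕ) (s r s₁ : List (G R)) (τ : Rˣ),
    i + 2 ≤ s.length → Step M (.pos, i) (s ++ r) s₁ τ →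
    ∃ s' : List (G R), s₁ = s' ++ r ∧ s'.length = s.length ∧ Step M (.pos, i) s s' τ := by
  intro i
  induction i with
  | zero =>
    intro s r s₁ τ hi h
    rcases s with _ | ⟨a, _ | ⟨b, s⟩⟩
    · simp at hi
    · simp at hi
    · cases h with
      | pos h k s' => exact ⟨_ :: _ :: s, rfl, rfl, Step.pos _ _ _⟩
  | succ i ih =>
    intro s r s₁ τ hi h
    rcases s with _ | ⟨x, s⟩
    · simp at hi
    · cases h with
      | sh x hs =>
        have hi' : i + 2 ≤ s.length := by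
          simp only [List.length_cons] at hi
          omega
        obtain ⟨s', h1, h2, h3⟩ := ih s r _ τ hi' hs
        exact ⟨x :: s', by rw [h1]; rfl, by simp [h2], Step.sh x h3⟩

theorem PathRightInv_neg {M : Rˣ} : ∀ (i : ℕ) (s r s₁ : List (G R)) (τ : Rˣ),
    i + 2 ≤ s.length → Step M (.neg, i) (s ++ r) s₁ τ →
    ∃ s' : List (G R), s₁ = s' ++ r ∧ s'.length = s.length ∧ Step M (.neg, i) s s' τ := by
  intro i
  induction i with
  | zero =>
    intro s r s₁ τ hi h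
    rcases s with _ | ⟨a, _ | ⟨b, s⟩⟩
    · simp at hi
    · simp at hi
    · cases h with
      | neg h k s' => exact ⟨_ :: _ :: s, rfl, rfl, Step.neg _ _ _⟩
  | succ i ih =>
    intro s r s₁ τ hi h
    rcases s with _ | ⟨x, s⟩
    · simp at hi
    · cases h with
      | sh x hs =>
        have hi' : i + 2 ≤ s.length := by
          simp only [List.length_cons] at hi
          omega
        obtain ⟨s', h1, h2, h3⟩ := ih s r _ τ hi' hs
        exact ⟨x :: s', by rw [h1]; rfl, by simp [h2], Step.sh x h3⟩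

end

theorem prf_PathRightInv : PathRightInv := by
  intro R _ M w
  induction w with
  | nil =>
    intro s s₁ r τ m' hf h
    cases h with
    | nil s => exact ⟨s, rfl, hf, Path.nil s⟩
  | cons m w ih =>
    intro s s₁ r τ m' hf h
    obtain ⟨k, i⟩ := m
    cases h with
    | cons h1 h2 =>
      cases k with
      | cup =>
        obtain ⟨hf1, hf2⟩ := hf
        obtain ⟨t, e1, e2, e3⟩ := PathRightInv_cup i s r _ _ hf1 h1
        subst e1
        obtain ⟨t', e4, e5, e6⟩ := ih t s₁ r _ m' (by rw [e2]; exact hf2) h2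
        exact ⟨t', e4, e5, Path.cons e3 e6⟩
      | cap =>
        obtain ⟨hf1, hf2⟩ := hf
        obtain ⟨t, e1, e2, e3⟩ := PathRightInv_cap i s r _ _ hf1 h1
        subst e1
        obtain ⟨t', e4, e5, e6⟩ := ih t s₁ r _ m' (by rw [e2]; exact hf2) h2
        exact ⟨t', e4, e5, Path.cons e3 e6⟩
      | pos =>
        obtain ⟨hf1, hf2⟩ := hf
        obtain ⟨t, e1, e2, e3⟩ := PathRightInv_pos i s r _ _ hf1 h1
        subst e1
        obtain ⟨t', e4, e5, e6⟩ := ih t s₁ r _ m' (by rw [e2]; exact hf2) h2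
        exact ⟨t', e4, e5, Path.cons e3 e6⟩
      | neg =>
        obtain ⟨hf1, hf2⟩ := hf
        obtain ⟨t, e1, e2, e3⟩ := PathRightInv_neg i s r _ _ hf1 h1
        subst e1
        obtain ⟨t', e4, e5, e6⟩ := ih t s₁ r _ m' (by rw [e2]; exact hf2) h2
        exact ⟨t', e4, e5, Path.cons e3 e6⟩

end AJM

end

section

/-!
# MP_d3fa71_gt, project Mut, blocks C and Z: strands below are not touched
-/

set_option autoImplicit false

namespace AJM

theorem PathRightZ_step {R : Type} [CommRing R] {M : Rˣ} {m : Mv} {s s' : List (G R)} {τ : Rˣ}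
    (r : List (G R)) (h : Step M m s s' τ) : Step M m (s ++ r) (s' ++ r) τ := by
  induction h with
  | cup h s => exact Step.cup h (s ++ r)
  | cap h τ s => exact Step.cap h τ (s ++ r)
  | pos h k s => exact Step.pos h k (s ++ r)
  | neg h k s => exact Step.neg h k (s ++ r)
  | sh x _ ih => exact Step.sh x ih

theorem prf_PathRightZ : PathRightZ := by
  intro R _ M w s s' r τ h
  induction h with
  | nil s => exact Path.nil (s ++ r)
  | cons h1 _ ih => exact Path.cons (PathRightZ_step r h1) ih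

end AJM

end

section

/-!
# MP_d3fa71_gt, project Mut, block Q, item PolyV
-/

set_option autoImplicit false

open Matrix
open scoped Kronecker

namespace AJM

/-- the vectors which are polynomials in `F E` applied to `e_0 ⊗ e_{n-1}` -/
def L_PolyV_Q (n : ℕ) (v : Fin n × Fin n → RatFunc ℚ) : Prop :=
  ∃ p : Polynomial (RatFunc ℚ),
    v = (Polynomial.aeval (DF n * DE n) p) *ᵥ eb n 0 (n - 1)

theorem L_PolyV_add {n : ℕ} {v w : Fin n × Fin n → RatFunc ℚ} (hv : L_PolyV_Q n v)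
    (hw : L_PolyV_Q n w) : L_PolyV_Q n (v + w) := by
  obtain ⟨p, hp⟩ := hv
  obtain ⟨q, hq⟩ := hw
  exact ⟨p + q, by rw [map_add, Matrix.add_mulVec, ← hp, ← hq]⟩

theorem L_PolyV_smul {n : ℕ} (c : RatFunc ℚ) {v : Fin n × Fin n → RatFunc ℚ}
    (hv : L_PolyV_Q n v) : L_PolyV_Q n (c • v) := by
  obtain ⟨p, hp⟩ := hv
  exact ⟨c • p, by rw [map_smul, Matrix.smul_mulVec, ← hp]⟩

theorem L_PolyV_X {n : ℕ} {v : Fin n × Fin n → RatFunc ℚ}
    (hv : L_PolyV_Q n v) : L_PolyV_Q n (DF n *ᵥ (DE n *ᵥ v)) := by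
  obtain ⟨p, hp⟩ := hv
  refine ⟨Polynomial.X * p, ?_⟩
  rw [map_mul, Polynomial.aeval_X, ← Matrix.mulVec_mulVec, ← hp, Matrix.mulVec_mulVec]

theorem L_PolyV_step (hQIne : QIne) (hEFeb : EFeb) (n i j : ℕ) (hi : i + 1 < n)
    (hj : j + 1 = n - 1 - i) (h0 : L_PolyV_Q n (eb n i (j + 1)))
    (h1 : 0 < i → L_PolyV_Q n (eb n (i - 1) (j + 2))) : L_PolyV_Q n (eb n (i + 1) j) := by
  have hjn : j + 1 < n := by omega
  obtain ⟨e1, -, e3⟩ := hEFeb n i j (by omega) (by omega)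
  rw [if_pos hjn] at e1
  obtain ⟨a, ha⟩ : ∃ a : RatFunc ℚ, a = qi (j + 1) * qi (n - (j + 1)) := ⟨_, rfl⟩
  have ha0 : a ≠ 0 := by
    have h2 : n - (j + 1) = i + 1 := by omega
    rw [ha, h2]
    exact mul_ne_zero (hQIne.2.2.1 j) (hQIne.2.2.1 i)
  rw [← ha] at e1
  obtain ⟨x, hx⟩ : ∃ x : RatFunc ℚ, x = tq ^ (-(2 * ((n : ℤ) - 1 - 2 * (i : ℤ)))) := ⟨_, rfl⟩
  rw [← hx] at e3
  -- the second term
  obtain ⟨w, hw1, hw2⟩ : ∃ w, L_PolyV_Q n w ∧
      DF n *ᵥ (DE n *ᵥ eb n i (j + 1)) = a • (DF n *ᵥ eb n i j) + w := by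
    rcases Nat.eq_zero_or_pos i with hi0 | hi0
    · refine ⟨0, ⟨0, by rw [map_zero, Matrix.zero_mulVec]⟩, ?_⟩
      rw [e1, if_neg (by omega), zero_smul, add_zero, Matrix.mulVec_smul, add_zero]
    · obtain ⟨-, -, g3⟩ := hEFeb n (i - 1) (j + 1) (by omega) (by omega)
      have h2 : i - 1 + 1 = i := by omega
      rw [h2] at g3
      refine ⟨(qi i * qi (n - i) * tq ^ (2 * ((n : ℤ) - 1 - 2 * ((j : ℤ) + 1)))) •
        (DF n *ᵥ eb n (i - 1) (j + 1)), ?_, ?_⟩
      · refine L_PolyV_smul _ ?_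
        rw [g3]
        exact L_PolyV_add (L_PolyV_smul _ (h1 hi0)) h0
      · rw [e1, if_pos ⟨hjn, hi0⟩, Matrix.mulVec_add, Matrix.mulVec_smul, Matrix.mulVec_smul]
  have h3 : eb n (i + 1) j = a⁻¹ • (DF n *ᵥ (DE n *ᵥ eb n i (j + 1))) + (-a⁻¹) • w +
      (-x) • eb n i (j + 1) := by
    rw [hw2, e3, smul_add, smul_smul, inv_mul_cancel₀ ha0, one_smul, neg_smul, neg_smul]
    abel
  rw [h3]
  exact L_PolyV_add (L_PolyV_add (L_PolyV_smul _ (L_PolyV_X h0)) (L_PolyV_smul _ hw1))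
    (L_PolyV_smul _ h0)

theorem prf_PolyV (hQIne : QIne) (hEFeb : EFeb) : PolyV := by
  intro n i
  induction i using Nat.strong_induction_on with
  | _ i ih =>
    intro hi
    show L_PolyV_Q n _
    rcases Nat.eq_zero_or_pos i with hi0 | hi0
    · subst hi0
      exact ⟨1, by rw [map_one, Matrix.one_mulVec, Nat.sub_zero]⟩
    · obtain ⟨k, rfl⟩ : ∃ k, i = k + 1 := ⟨i - 1, by omega⟩
      have e1 : n - 1 - k = (n - 1 - (k + 1)) + 1 := by omega
      refine L_PolyV_step hQIne hEFeb n k (n - 1 - (k + 1)) hi e1.symm ?_ fun hk => ?_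
      · rw [← e1]
        exact ih k (by omega) (by omega)
      · have e2 : n - 1 - (k - 1) = (n - 1 - (k + 1)) + 2 := by omega
        rw [← e2]
        exact ih (k - 1) (by omega) (by omega)

end AJM

end

section

namespace AJM

/-- Two-step trace recursion from Cayley-Hamilton. -/
theorem L_PowTr_rec {R : Type} [CommRing R] (x y : G R) (n : ℕ) :
    tr (x ^ (n + 2) * y) = tr x * tr (x ^ (n + 1) * y) - tr (x ^ n * y) := by
  have h := tr_mul_add x (x ^ (n + 1) * y)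
  have e1 : x * (x ^ (n + 1) * y) = x ^ (n + 2) * y := by
    rw [← mul_assoc, ← pow_succ']
  have e2 : x⁻¹ * (x ^ (n + 1) * y) = x ^ n * y := by
    rw [pow_succ' x n, mul_assoc x, inv_mul_cancel_left]
  rw [e1, e2] at h
  rw [← h]; ring

/-- The second formula, by two-step induction. -/
theorem L_PowTr_snd {R : Type} [CommRing R] (x y : G R) : ∀ n : ℕ,
    tr (x ^ (n + 1) * y) = Sp (n + 1) (tr x) * tr (x * y) - Sp n (tr x) * tr y
  | 0 => by simp [Sp]
  | 1 => by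
      have h := L_PowTr_rec x y 0
      simp only [zero_add, pow_one, pow_zero, one_mul] at h
      simp only [Nat.reduceAdd]
      rw [h]; simp [Sp]
  | (n + 2) => by
      have h := L_PowTr_rec x y (n + 1)
      have h1 := L_PowTr_snd x y (n + 1)
      have h0 := L_PowTr_snd x y n
      have e : n + 2 + 1 = n + 1 + 2 := by ring
      have s2 : Sp (n + 2 + 1) (tr x) = tr x * Sp (n + 2) (tr x) - Sp (n + 1) (tr x) := rfl
      have s1 : Sp (n + 2) (tr x) = tr x * Sp (n + 1) (tr x) - Sp n (tr x) := rfl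
      rw [e, h, h1, h0, ← e, s2, s1]
      ring

theorem prf_PowTr : PowTr := by
  intro R _ x y n
  refine ⟨?_, L_PowTr_snd x y n⟩
  rcases n with _ | n
  · simp [Sp]
  · rw [L_PowTr_snd x y n]
    have s1 : Sp (n + 1 + 1) (tr x) = tr x * Sp (n + 1) (tr x) - Sp n (tr x) := rfl
    rw [s1]; ring

end AJM

end

section

/-!
# MP_d3fa71_gt, project Mut, block Q: `Q` and the coproduct of `E`
-/

open Matrix
open scoped Kronecker

namespace AJM

theorem L_QE_kiF (h0 : tq ≠ 0) (hK : RelK) (n m : ℕ) :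
    Ki n * Fm n ^ m = tq ^ (4 * (m : ℤ)) • (Fm n ^ m * Ki n) := by
  induction m with
  | zero => simp
  | succ m ih =>
    have h := (hK n).2.2.2.2.2
    rw [pow_succ, ← mul_assoc, ih, Matrix.smul_mul, mul_assoc, h, Matrix.mul_smul, smul_smul,
      ← zpow_add₀ h0, ← mul_assoc]
    congr 2

theorem L_QE_EF (hEFk : RelEFk) (n m : ℕ) :
    Em n * Fm n ^ (m + 1) = Fm n ^ (m + 1) * Em n +
      (qi (m + 1) / sd * tq ^ (-(2 * (m : ℤ)))) • (Fm n ^ m * Km n) +
      (-(qi (m + 1) / sd * tq ^ (2 * (m : ℤ)))) • (Fm n ^ m * Ki n) := by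
  have h := hEFk n m
  rw [sub_eq_iff_eq_add] at h
  rw [h, mul_sub, Matrix.mul_smul, Matrix.mul_smul, smul_sub, smul_smul, smul_smul, neg_smul]
  abel

theorem L_QE_key (hQ : QIne) (hK : RelK) (hEFk : RelEFk) (hck : CkRec) (n m : ℕ) :
    ck (m + 1) • ((Em n ^ (m + 1)) ⊗ₖ (Em n * Fm n ^ (m + 1))) +
        ck m • ((Em n ^ (m + 1)) ⊗ₖ (Ki n * Fm n ^ m)) =
      ck (m + 1) • ((Em n ^ (m + 1)) ⊗ₖ (Fm n ^ (m + 1) * Em n)) +
        ck m • ((Em n ^ (m + 1)) ⊗ₖ (Fm n ^ m * Km n)) := by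
  obtain ⟨h0, hsd, hqi, _⟩ := hQ
  have hc := hck.2 m
  rw [L_QE_EF hEFk, L_QE_kiF h0 hK]
  simp only [Matrix.kronecker_add, Matrix.kronecker_smul, smul_add, smul_smul]
  have e1 : ck (m + 1) * (qi (m + 1) / sd * tq ^ (-(2 * (m : ℤ)))) = ck m := by
    have h1 : ck (m + 1) * (qi (m + 1) / sd * tq ^ (-(2 * (m : ℤ)))) =
        (ck (m + 1) * qi (m + 1)) / sd * tq ^ (-(2 * (m : ℤ))) := by ring
    rw [h1, hc, _root_.zpow_neg]
    have h2 : tq ^ (2 * (m : ℤ)) ≠ 0 := zpow_ne_zero _ h0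
    field_simp
  have e2 : ck (m + 1) * -(qi (m + 1) / sd * tq ^ (2 * (m : ℤ))) =
      -(ck m * tq ^ (4 * (m : ℤ))) := by
    have h1 : ck (m + 1) * -(qi (m + 1) / sd * tq ^ (2 * (m : ℤ))) =
        -((ck (m + 1) * qi (m + 1)) / sd * tq ^ (2 * (m : ℤ))) := by ring
    have h2 : tq ^ (4 * (m : ℤ)) = tq ^ (2 * (m : ℤ)) * tq ^ (2 * (m : ℤ)) := by
      rw [← zpow_add₀ h0]
      congr 1
      ring
    rw [h1, hc, h2]
    field_simp
  rw [e1, e2, neg_smul]
  abel

theorem prf_QE (hQIne : QIne) (hRelK : RelK) (hRelEn : RelEn) (hRelEFk : RelEFk)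
    (hCkRec : CkRec) : QE := by
  intro n
  have hL : Qm n * DE n = ∑ k ∈ Finset.range n, (ck k • ((Em n ^ k) ⊗ₖ (Fm n ^ k * Em n)) +
      ck k • ((Em n ^ (k + 1)) ⊗ₖ (Fm n ^ k * Km n))) := by
    unfold Qm DE
    rw [Finset.sum_mul]
    refine Finset.sum_congr rfl fun k _ => ?_
    rw [mul_add, Matrix.smul_mul, Matrix.smul_mul, ← Matrix.mul_kronecker_mul,
      ← Matrix.mul_kronecker_mul, mul_one, ← pow_succ]
  have hR : ((1 : Matrix (Fin n) (Fin n) (RatFunc ℚ)) ⊗ₖ Em n + Em n ⊗ₖ Ki n) * Qm n =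
      ∑ k ∈ Finset.range n, (ck k • ((Em n ^ k) ⊗ₖ (Em n * Fm n ^ k)) +
      ck k • ((Em n ^ (k + 1)) ⊗ₖ (Ki n * Fm n ^ k))) := by
    unfold Qm
    rw [Finset.mul_sum]
    refine Finset.sum_congr rfl fun k _ => ?_
    rw [add_mul, Matrix.mul_smul, Matrix.mul_smul, ← Matrix.mul_kronecker_mul,
      ← Matrix.mul_kronecker_mul, one_mul, ← pow_succ']
  rw [hL, hR]
  cases n with
  | zero => simp
  | succ N =>
    have hE : Em (N + 1) ^ (N + 1) = 0 := (hRelEn (N + 1)).1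
    rw [Finset.sum_add_distrib, Finset.sum_add_distrib]
    rw [Finset.sum_range_succ' (fun k => ck k • ((Em (N + 1) ^ k) ⊗ₖ
      (Fm (N + 1) ^ k * Em (N + 1)))) N]
    rw [Finset.sum_range_succ' (fun k => ck k • ((Em (N + 1) ^ k) ⊗ₖ
      (Em (N + 1) * Fm (N + 1) ^ k))) N]
    rw [Finset.sum_range_succ (fun k => ck k • ((Em (N + 1) ^ (k + 1)) ⊗ₖ
      (Fm (N + 1) ^ k * Km (N + 1)))) N]
    rw [Finset.sum_range_succ (fun k => ck k • ((Em (N + 1) ^ (k + 1)) ⊗ₖ
      (Ki (N + 1) * Fm (N + 1) ^ k))) N]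
    rw [hE]
    simp only [Matrix.zero_kronecker, smul_zero, add_zero, pow_zero, one_mul, mul_one]
    have h1 : ∑ k ∈ Finset.range N, ck (k + 1) • ((Em (N + 1) ^ (k + 1)) ⊗ₖ
          (Em (N + 1) * Fm (N + 1) ^ (k + 1))) +
        ∑ k ∈ Finset.range N, ck k • ((Em (N + 1) ^ (k + 1)) ⊗ₖ
          (Ki (N + 1) * Fm (N + 1) ^ k)) =
        ∑ k ∈ Finset.range N, ck (k + 1) • ((Em (N + 1) ^ (k + 1)) ⊗ₖ
          (Fm (N + 1) ^ (k + 1) * Em (N + 1))) +
        ∑ k ∈ Finset.range N, ck k • ((Em (N + 1) ^ (k + 1)) ⊗ₖ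
          (Fm (N + 1) ^ k * Km (N + 1))) := by
      rw [← Finset.sum_add_distrib, ← Finset.sum_add_distrib]
      exact Finset.sum_congr rfl fun k _ => L_QE_key hQIne hRelK hRelEFk hCkRec (N + 1) k
    rw [add_right_comm, ← h1, add_right_comm]

end AJM

end

section

/-!
# MP_d3fa71_gt, project Mut, block Q: the unipotent part of the `R`-matrix and `F`
-/

open Matrix
open scoped Kronecker

namespace AJM

theorem L_QF_KE (hQIne : QIne) (hRelK : RelK) (n m : ℕ) :
    Km n * Em n ^ m = tq ^ (4 * (m : ℤ)) • (Em n ^ m * Km n) := by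
  have ht : tq ≠ 0 := hQIne.1
  induction m with
  | zero => simp
  | succ m ih =>
    have e := (hRelK n).2.2.1
    rw [pow_succ, ← mul_assoc, ih, Matrix.smul_mul, mul_assoc, e, Matrix.mul_smul, smul_smul,
      ← mul_assoc, ← zpow_add₀ ht]
    congr 2

theorem prf_QF (hQIne : QIne) (hRelK : RelK) (hRelEn : RelEn) (hRelEkF : RelEkF)
    (hCkRec : CkRec) : QF := by
  intro n
  have ht : tq ≠ 0 := hQIne.1
  have hsd : sd ≠ 0 := hQIne.2.1
  have key : ∑ k ∈ Finset.range n, ck k • ((Em n ^ k * Fm n - Fm n * Em n ^ k) ⊗ₖ (Fm n ^ k)) =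
      ∑ k ∈ Finset.range n,
        ck k • ((Km n * Em n ^ k - Em n ^ k * Ki n) ⊗ₖ (Fm n ^ (k + 1))) := by
    rcases n with _ | N
    · simp
    · rw [Finset.sum_range_succ', Finset.sum_range_succ, (hRelEn (N + 1)).2]
      simp only [pow_zero, one_mul, mul_one, sub_self, Matrix.zero_kronecker, smul_zero, add_zero,
        Matrix.kronecker_zero]
      refine Finset.sum_congr rfl fun m _ => ?_
      rw [hRelEkF, L_QF_KE hQIne hRelK, Matrix.smul_kronecker, smul_smul, ← mul_div_assoc,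
        hCkRec.2 m]
      have e1 : ck m * sd * tq ^ (2 * (m : ℤ)) / sd = ck m * tq ^ (2 * (m : ℤ)) := by
        field_simp
      rw [e1, mul_smul, ← Matrix.smul_kronecker]
      congr 2
      rw [mul_sub, smul_sub, Matrix.mul_smul, Matrix.mul_smul, smul_smul, smul_smul,
        ← zpow_add₀ ht, ← zpow_add₀ ht]
      have e2 : 2 * (m : ℤ) + 2 * (m : ℤ) = 4 * (m : ℤ) := by ring
      have e3 : 2 * (m : ℤ) + -(2 * (m : ℤ)) = 0 := by ring
      rw [e2, e3, zpow_zero, one_smul]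
  have a1 : ∀ k, (ck k • ((Em n ^ k) ⊗ₖ (Fm n ^ k))) * (Ki n ⊗ₖ Fm n) =
      ck k • ((Em n ^ k * Ki n) ⊗ₖ (Fm n ^ (k + 1))) := fun k => by
    rw [Matrix.smul_mul, ← Matrix.mul_kronecker_mul, ← pow_succ]
  have a2 : ∀ k, (ck k • ((Em n ^ k) ⊗ₖ (Fm n ^ k))) *
      (Fm n ⊗ₖ (1 : Matrix (Fin n) (Fin n) (RatFunc ℚ))) =
      ck k • ((Em n ^ k * Fm n) ⊗ₖ (Fm n ^ k)) := fun k => by
    rw [Matrix.smul_mul, ← Matrix.mul_kronecker_mul, mul_one]
  have a3 : ∀ k, (Fm n ⊗ₖ (1 : Matrix (Fin n) (Fin n) (RatFunc ℚ))) *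
      (ck k • ((Em n ^ k) ⊗ₖ (Fm n ^ k))) =
      ck k • ((Fm n * Em n ^ k) ⊗ₖ (Fm n ^ k)) := fun k => by
    rw [Matrix.mul_smul, ← Matrix.mul_kronecker_mul, one_mul]
  have a4 : ∀ k, (Km n ⊗ₖ Fm n) * (ck k • ((Em n ^ k) ⊗ₖ (Fm n ^ k))) =
      ck k • ((Km n * Em n ^ k) ⊗ₖ (Fm n ^ (k + 1))) := fun k => by
    rw [Matrix.mul_smul, ← Matrix.mul_kronecker_mul, ← pow_succ']
  unfold Qm DF
  rw [mul_add, add_mul, Finset.sum_mul, Finset.sum_mul, Finset.mul_sum, Finset.mul_sum]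
  simp only [a1, a2, a3, a4]
  have sub_kr : ∀ (A B C : Matrix (Fin n) (Fin n) (RatFunc ℚ)),
      (A - B) ⊗ₖ C = A ⊗ₖ C - B ⊗ₖ C := fun A B C => by
    ext i j
    simp [Matrix.kroneckerMap_apply, sub_mul]
  simp only [sub_kr, smul_sub, Finset.sum_sub_distrib] at key
  rw [sub_eq_sub_iff_add_eq_add] at key
  rw [add_comm, key]
  abel

end AJM

end

section

/-! # MP_d3fa71_gt, project Mut, block Q, item QFinal -/

namespace AJM

theorem prf_QFinal (hQMut : QMut) (hQWr : QWr) (hQOne : QOne) (hOVg : OVg) (hCVg : CVg)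
    (hWidTwo : WidTwo) : QFinal := by
  intro k j' j m
  obtain ⟨e, h1, h2⟩ := hQWr k (fun i => Vg (j' i) (j i) (m i)) fun i => hOVg _ _ _
  have h3 := hQOne k (fun i => Vg (j' i) (j i) (m i)) fun i => hCVg _ _ _
  refine ⟨e, h3.1, h3.2, h1, h2, ?_⟩
  funext n
  unfold Jc
  rw [hQMut n k (fun i => Vg (j' i) (j i) (m i)) fun i => hWidTwo.2.2.2.2 _ _ _]

end AJM

end

section

/-!
# MP_d3fa71_gt, project Mut: the variable is not a root of unity
-/

namespace AJM

theorem L_QIne_nat (m : ℕ) (h : tq ^ m = 1) : m = 0 := by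
  unfold tq at h
  rw [← RatFunc.algebraMap_X, ← map_pow] at h
  have h1 : (Polynomial.X : Polynomial ℚ) ^ m = 1 :=
    RatFunc.algebraMap_injective ℚ (h.trans (map_one _).symm)
  have h2 := congrArg Polynomial.natDegree h1
  rwa [Polynomial.natDegree_X_pow, Polynomial.natDegree_one] at h2

theorem L_QIne_zero : tq ≠ 0 := RatFunc.X_ne_zero

theorem L_QIne_int (e : ℤ) (h : tq ^ e = 1) : e = 0 := by
  obtain ⟨m, rfl | rfl⟩ := e.eq_nat_or_neg
  · rw [zpow_natCast] at h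
    rw [L_QIne_nat m h]
    rfl
  · rw [zpow_neg, zpow_natCast, inv_eq_one] at h
    rw [L_QIne_nat m h]
    rfl

theorem L_QIne_sub (a : ℤ) (ha : a ≠ 0) : tq ^ a - tq ^ (-a) ≠ 0 := by
  intro h
  have h1 : tq ^ (a + a) = 1 := by
    rw [zpow_add₀ L_QIne_zero]
    nth_rewrite 1 [sub_eq_zero.1 h]
    rw [← zpow_add₀ L_QIne_zero, neg_add_cancel, zpow_zero]
  have h2 := L_QIne_int _ h1
  omega

theorem prf_QIne : QIne := by
  refine ⟨L_QIne_zero, L_QIne_sub 2 (by norm_num), fun m => ?_, L_QIne_int⟩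
  unfold qi
  refine div_ne_zero ?_ (L_QIne_sub 2 (by norm_num))
  exact L_QIne_sub (2 * ((m + 1 : ℕ) : ℤ)) (by push_cast; omega)

end AJM

end

section

/-!
# MP_d3fa71_gt, project Mut: item QInv
-/

open Matrix Finset
open scoped Kronecker

namespace AJM

/-- the Cauchy product of truncated sums. -/
theorem L_QInv_cauchy {K A : Type} [Field K] [_root_.Ring A] [Algebra K A] (x : A) (n : ℕ)
    (hx : ∀ m, n ≤ m → x ^ m = 0) (c b : ℕ → K) :
    (∑ k ∈ range n, c k • x ^ k) * (∑ l ∈ range n, b l • x ^ l) =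
      ∑ m ∈ range n, (∑ i ∈ range (m + 1), c i * b (m - i)) • x ^ m := by
  have h1 : (∑ k ∈ range n, c k • x ^ k) * (∑ l ∈ range n, b l • x ^ l) =
      ∑ p ∈ range n ×ˢ range n, (c p.1 * b p.2) • x ^ (p.1 + p.2) := by
    rw [sum_mul_sum, sum_product]
    refine sum_congr rfl fun k _ => sum_congr rfl fun l _ => ?_
    rw [smul_mul_smul_comm, pow_add]
  have h2 : ∑ p ∈ (range n ×ˢ range n).filter (fun p => ¬ p.1 + p.2 < n),
      (c p.1 * b p.2) • x ^ (p.1 + p.2) = 0 := by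
    refine sum_eq_zero fun p hp => ?_
    rw [mem_filter, not_lt] at hp
    rw [hx _ hp.2, smul_zero]
  rw [h1, ← sum_filter_add_sum_filter_not (range n ×ˢ range n) (fun p => p.1 + p.2 < n), h2,
    add_zero]
  simp_rw [sum_smul]
  rw [sum_sigma']
  refine sum_nbij' (fun p => ⟨p.1 + p.2, p.1⟩) (fun s => (s.2, s.1 - s.2)) ?_ ?_ ?_ ?_ ?_
  · rintro ⟨k, l⟩ h
    simp only [mem_filter, mem_product, mem_range, mem_sigma] at h ⊢
    omega
  · rintro ⟨m, i⟩ h
    simp only [mem_filter, mem_product, mem_range, mem_sigma] at h ⊢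
    omega
  · rintro ⟨k, l⟩ _
    simp
  · rintro ⟨m, i⟩ h
    simp only [mem_range, mem_sigma] at h
    have h3 : i + (m - i) = m := by omega
    simp only [h3]
  · rintro ⟨k, l⟩ _
    simp

/-- powers of Kronecker products. -/
theorem L_QInv_kpow {n : ℕ} (A B : Matrix (Fin n) (Fin n) (RatFunc ℚ)) (k : ℕ) :
    (A ^ k) ⊗ₖ (B ^ k) = (A ⊗ₖ B) ^ k := by
  induction k with
  | zero => rw [pow_zero, pow_zero, pow_zero, Matrix.one_kronecker_one]
  | succ k ih => rw [pow_succ, pow_succ, pow_succ, Matrix.mul_kronecker_mul, ih]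

theorem prf_QInv (hRelEn : RelEn) (hAbSum : AbSum) (hCkRec : CkRec) : QInv := by
  intro n
  constructor
  · rcases Nat.eq_zero_or_pos n with rfl | hn
    · exact Subsingleton.elim _ _
    · obtain ⟨n, rfl⟩ : ∃ n', n = n' + 1 := ⟨n - 1, by omega⟩
      have hE : ∀ m, n + 1 ≤ m → (Em (n + 1) ⊗ₖ Fm (n + 1)) ^ m = 0 := by
        intro m hm
        obtain ⟨d, rfl⟩ := Nat.exists_eq_add_of_le hm
        rw [← L_QInv_kpow, pow_add, (hRelEn (n + 1)).1, zero_mul, Matrix.zero_kronecker]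
      unfold Qm Qi
      simp_rw [L_QInv_kpow]
      rw [L_QInv_cauchy _ (n + 1) hE, sum_range_succ']
      have h0 : ∀ m ∈ range n, (∑ i ∈ range (m + 1 + 1), ck i * bk (m + 1 - i)) •
          (Em (n + 1) ⊗ₖ Fm (n + 1)) ^ (m + 1) = 0 := by
        intro m _
        rw [hAbSum (m + 1) (by omega), zero_smul]
      have hb : bk 0 = 1 := by
        unfold bk
        simp
      rw [sum_eq_zero h0, zero_add, zero_add, sum_range_one, Nat.sub_zero, hCkRec.1, hb,
        one_mul, one_smul, pow_zero]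
  · unfold Dm Di
    rw [Matrix.diagonal_mul_diagonal, ← Matrix.diagonal_one]
    congr 1
    funext p
    have ht : tq ≠ 0 := RatFunc.X_ne_zero
    rw [← zpow_add₀ ht, add_neg_cancel, zpow_zero]

end AJM

end

section

/-!
# MP_d3fa71_gt, project Mut: the state sums of the two words agree
-/

namespace AJM

theorem prf_QMut (hZExch : ZExch) (hWidBlocks : WidBlocks) (hWidTwo : WidTwo) : QMut := by
  intro n k v hv
  have hB : wid (Bw (v 0) (v 1) (v 2)) 2 = some 2 :=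
    (hWidBlocks (v 0) (hv 0)).2.2.2 (v 1) (v 2) (hv 1) (hv 2)
  have hP : wid (Pw (v 3)) 2 = some 2 := (hWidBlocks (v 3) (hv 3)).1
  have hPr : wid (Pr (v 4)) 2 = some 2 := (hWidBlocks (v 4) (hv 4)).2.1
  have hG : wid (Gw (v 5)) 2 = some 2 := (hWidBlocks (v 5) (hv 5)).2.2.1
  have hBP : wid (Bw (v 0) (v 1) (v 2) ++ Pw (v 3)) 2 = some 2 := hWidTwo.2.2.1 _ _ hB hP
  have h := hZExch n (Bw (v 0) (v 1) (v 2) ++ Pw (v 3)) (Pr (v 4)) (Gw (v 5))
    (Gr ++ Fw k (v 6)) hBP hPr hG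
  rw [Kw, Kw']
  simpa only [List.append_assoc] using h

end AJM

end

section

/-! # MP_d3fa71_gt, project Mut, block Q, item QOne: `K` and `K'` have one component -/

namespace AJM

theorem prf_QOne (hCComp : CComp) (hCBlocks : CBlocks) (hCFw : CFw) (hCNcl : CNcl) : QOne := by
  intro k v hv
  obtain ⟨hB, -, -, -, hGr⟩ := hCBlocks (v 0) (v 1) (v 2) (hv 0) (hv 1) (hv 2)
  have hP := (hCBlocks (v 3) (v 3) (v 3) (hv 3) (hv 3) (hv 3)).2.1
  have hPr := (hCBlocks (v 4) (v 4) (v 4) (hv 4) (hv 4) (hv 4)).2.2.1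
  have hG := (hCBlocks (v 5) (v 5) (v 5) (hv 5) (hv 5) (hv 5)).2.2.2.1
  have hF := hCFw k (v 6) (hv 6)
  refine ⟨hCNcl _ ?_, hCNcl _ ?_⟩
  · exact (hCComp _ _).2.2.1 ((hCComp _ _).2.1 ((hCComp _ _).1 ((hCComp _ _).1
      ((hCComp _ _).1 hB hP) hPr) hG) hGr) hF
  · exact (hCComp _ _).2.2.1 ((hCComp _ _).2.1 ((hCComp _ _).1 ((hCComp _ _).1
      ((hCComp _ _).1 hB hP) hG) hPr) hGr) hF

end AJM

end

section

/-! # MP_d3fa71_gt, project Mut, block Q, item QWr: the writhes exist, are unique and agree -/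

namespace AJM

/-- Exchange of two words of type `0` after a word of type `0`. -/
theorem L_QWr_exch (hOPathAppend : OPathAppend) (x P G y : List Mv) (hx : O0 x) (hP : O0 P)
    (hG : O0 G) (a b : Bool) (s s' : List Bool) (e : ℤ)
    (h : OPath (x ++ P ++ G ++ y) (a :: b :: s) s' e) :
    OPath (x ++ G ++ P ++ y) (a :: b :: s) s' e := by
  obtain ⟨fx, hx⟩ := hx
  obtain ⟨fP, hP⟩ := hP
  obtain ⟨fG, hG⟩ := hG
  rw [hOPathAppend] at h
  obtain ⟨s1, e1, e2, h1, hy, rfl⟩ := h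
  rw [hOPathAppend] at h1
  obtain ⟨s2, e3, e4, h2, h3, rfl⟩ := h1
  rw [hOPathAppend] at h2
  obtain ⟨s4, e5, e6, h4, h5, rfl⟩ := h2
  obtain ⟨rfl, rfl⟩ := (hx a b s _ _).1 h4
  obtain ⟨rfl, rfl⟩ := (hP a b s _ _).1 h5
  obtain ⟨rfl, rfl⟩ := (hG a b s _ _).1 h3
  rw [hOPathAppend]
  refine ⟨a :: b :: s, fx a b + fG a b + fP a b, e2, ?_, hy, by ring⟩
  rw [hOPathAppend]
  refine ⟨a :: b :: s, fx a b + fG a b, fP a b, ?_, (hP a b s _ _).2 ⟨rfl, rfl⟩, rfl⟩
  rw [hOPathAppend]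
  exact ⟨a :: b :: s, fx a b, fG a b, (hx a b s _ _).2 ⟨rfl, rfl⟩, (hG a b s _ _).2 ⟨rfl, rfl⟩,
    rfl⟩

/-- The state after the two cups of a closure. -/
theorem L_QWr_cups (s' : List Bool) (e : ℤ) (h : OPath [(.cup, 0), (.cup, 1)] [] s' e) :
    ∃ a b s, s' = a :: b :: s := by
  cases h with
  | cons h1 h2 =>
    cases h1 with
    | cup b s =>
      cases h2 with
      | cons h3 h4 =>
        cases h4
        cases h3 with
        | sh x h5 =>
          cases h5 with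
          | cup c s => exact ⟨_, _, _, rfl⟩

theorem L_QWr_ncl (hOPathAppend : OPathAppend) (x P G y : List Mv) (hx : O0 x) (hP : O0 P)
    (hG : O0 G) (e : ℤ) (h : Wr (Ncl (x ++ P ++ G ++ y)) e) :
    Wr (Ncl (x ++ G ++ P ++ y)) e := by
  unfold Wr Ncl at h ⊢
  rw [hOPathAppend] at h
  obtain ⟨s1, e1, e2, h1, hy, rfl⟩ := h
  rw [hOPathAppend] at h1
  obtain ⟨s2, e3, e4, h2, h3, rfl⟩ := h1
  obtain ⟨a, b, s, rfl⟩ := L_QWr_cups s2 e3 h2
  rw [hOPathAppend]
  refine ⟨s1, e3 + e4, e2, ?_, hy, rfl⟩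
  rw [hOPathAppend]
  exact ⟨_, e3, e4, h2, L_QWr_exch hOPathAppend x P G y hx hP hG a b s s1 e4 h3, rfl⟩

theorem prf_QWr (hOComp : OComp) (hOBlocks : OBlocks) (hOFw : OFw) (hONcl : ONcl)
    (hOPathAppend : OPathAppend) : QWr := by
  intro k v hv
  obtain ⟨hB, -, -, -, hGr⟩ := hOBlocks (v 0) (v 1) (v 2) (hv 0) (hv 1) (hv 2)
  have hP := (hOBlocks (v 3) (v 3) (v 3) (hv 3) (hv 3) (hv 3)).2.1
  have hPr := (hOBlocks (v 4) (v 4) (v 4) (hv 4) (hv 4) (hv 4)).2.2.1
  have hG := (hOBlocks (v 5) (v 5) (v 5) (hv 5) (hv 5) (hv 5)).2.2.2.1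
  have hF := hOFw k (v 6) (hv 6)
  have hI : OI (Bw (v 0) (v 1) (v 2) ++ Pw (v 3) ++ Pr (v 4) ++ Gw (v 5) ++ Gr ++ Fw k (v 6)) :=
    (hOComp _ _).2.2.1 ((hOComp _ _).2.1 ((hOComp _ _).1 ((hOComp _ _).1
      ((hOComp _ _).1 hB hP) hPr) hG) hGr) hF
  have hBP := (hOComp _ _).1 hB hP
  obtain ⟨e, he⟩ := hONcl _ hI
  refine ⟨e, he, fun e' => ⟨fun h => ?_, fun h => ?_⟩⟩
  · refine (he e').1 ?_
    have := L_QWr_ncl hOPathAppend (Bw (v 0) (v 1) (v 2) ++ Pw (v 3)) (Gw (v 5)) (Pr (v 4))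
      (Gr ++ Fw k (v 6)) hBP hG hPr e' (by simpa only [Kw', List.append_assoc] using h)
    simpa only [List.append_assoc] using this
  · subst h
    have h1 := (he e').2 rfl
    have := L_QWr_ncl hOPathAppend (Bw (v 0) (v 1) (v 2) ++ Pw (v 3)) (Pr (v 4)) (Gw (v 5))
      (Gr ++ Fw k (v 6)) hBP hPr hG e' (by simpa only [List.append_assoc] using h1)
    simpa only [Kw', List.append_assoc] using this

end AJM

end

end

section

/-! Bundle of small proof modules (one section per former module). -/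

section

/-!
# MP_d3fa71_gt, project Mut, block Q, item RInt (helper48)
-/

open Matrix
open scoped Kronecker

namespace AJM

theorem L_RInt_tq : tq ≠ 0 := RatFunc.X_ne_zero

theorem L_RInt_Rm (n : ℕ) : Rm n = Dm n * Qm n := rfl

theorem L_RInt_DF1 (n : ℕ) :
    Dm n * (Fm n ⊗ₖ (1 : Matrix (Fin n) (Fin n) (RatFunc ℚ))) = (Fm n ⊗ₖ Ki n) * Dm n := by
  ext ⟨a, b⟩ ⟨c, d⟩
  rw [Dm, Matrix.diagonal_mul, Matrix.mul_diagonal, Matrix.kroneckerMap_apply,
    Matrix.kroneckerMap_apply]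
  simp only [Fm, Ki, Matrix.of_apply, Matrix.one_apply, Matrix.diagonal_apply]
  by_cases h1 : (a : ℕ) = c + 1
  · by_cases h2 : b = d
    · subst h2
      simp only [h1, if_true, one_mul, mul_one]
      rw [← zpow_add₀ L_RInt_tq]
      congr 1
      unfold wt
      rw [h1]
      push_cast
      ring
    · simp [h2]
  · simp [h1]

theorem L_RInt_pow {n : ℕ} {X Y : Matrix (Fin n) (Fin n) (RatFunc ℚ)} {z : RatFunc ℚ}
    (h : X * Y = z • (Y * X)) (k : ℕ) : X * Y ^ k = z ^ k • (Y ^ k * X) := by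
  induction k with
  | zero => simp
  | succ k ih =>
    rw [pow_succ, ← mul_assoc, ih, smul_mul_assoc, mul_assoc, h, mul_smul_comm, smul_smul,
      mul_assoc, ← pow_succ]

theorem prf_RInt (hRelK : RelK) (hDRel : DRel) (hQE : QE) (hQF : QF) : RInt := by
  intro n
  obtain ⟨hK1, hK2, hKE, -, hKF, -⟩ := hRelK n
  refine ⟨?_, ?_, ?_⟩
  · have h1 := (hDRel n 1 (by simp) (by simp)).1
    have h2 := (hDRel n (Ki n) (by rw [hK1, hK2]) rfl).2.2.1
    rw [one_mul] at h1
    rw [hK2] at h2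
    rw [L_RInt_Rm, mul_assoc, hQE n, ← mul_assoc, mul_add, h1, h2, ← add_mul, ← mul_assoc,
      add_comm]
  · have h1 := (hDRel n (Km n) rfl (by rw [hK1, hK2])).2.1
    rw [hK1] at h1
    rw [L_RInt_Rm, mul_assoc, hQF n, ← mul_assoc, mul_add, h1, L_RInt_DF1, ← add_mul,
      ← mul_assoc]
  · have hD : Dm n * DK n = DK n * Dm n := by
      have : DK n = Matrix.diagonal (fun p : Fin n × Fin n =>
          tq ^ (2 * wt n p.1) * tq ^ (2 * wt n p.2)) := by
        rw [DK, Km, Matrix.diagonal_kronecker_diagonal]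
      rw [this, Dm, Matrix.diagonal_mul_diagonal, Matrix.diagonal_mul_diagonal]
      congr 1
      funext p
      ring
    have hQ : Qm n * DK n = DK n * Qm n := by
      rw [Qm, Finset.sum_mul, Finset.mul_sum]
      refine Finset.sum_congr rfl fun k _ => ?_
      rw [smul_mul_assoc, mul_smul_comm, DK, ← Matrix.mul_kronecker_mul,
        ← Matrix.mul_kronecker_mul, L_RInt_pow hKE k, L_RInt_pow hKF k, Matrix.smul_kronecker,
        Matrix.kronecker_smul, smul_smul ((tq ^ (4 : ℤ)) ^ k), ← mul_pow,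
        ← zpow_add₀ L_RInt_tq, add_neg_cancel, zpow_zero, one_pow, one_smul]
    rw [L_RInt_Rm, mul_assoc, hQ, ← mul_assoc, hD, mul_assoc]

end AJM

end

section

/-!
# MP_d3fa71_gt, project Mut, block Q: item RelEF
-/

open Matrix
open scoped Kronecker

namespace AJM

lemma L_RelEF_qi0 : qi 0 = 0 := by
  simp [qi]

lemma L_RelEF_EF (n : ℕ) (i j : Fin n) :
    (Em n * Fm n) i j = if i = j then qi ((j : ℕ) + 1) * qi (n - ((j : ℕ) + 1)) else 0 := by
  rw [Matrix.mul_apply]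
  simp only [Em, Fm, Matrix.of_apply]
  by_cases hj : (j : ℕ) + 1 < n
  · rw [Finset.sum_eq_single (⟨(j : ℕ) + 1, hj⟩ : Fin n)]
    · by_cases hij : i = j
      · subst hij
        simp
      · have h1 : ¬ ((i : ℕ) + 1 = (j : ℕ) + 1) := fun h => hij (Fin.ext (by omega))
        rw [if_neg hij, if_neg h1, zero_mul]
    · intro k _ hk
      have h1 : ¬ ((k : ℕ) = (j : ℕ) + 1) := fun h => hk (Fin.ext h)
      rw [if_neg h1, mul_zero]
    · intro h
      exact absurd (Finset.mem_univ _) h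
  · have h0 : ∀ k : Fin n, ¬ ((k : ℕ) = (j : ℕ) + 1) := fun k h => hj (h ▸ k.2)
    rw [Finset.sum_eq_zero (fun k _ => by rw [if_neg (h0 k), mul_zero])]
    have h1 : n - ((j : ℕ) + 1) = 0 := by omega
    rw [h1, L_RelEF_qi0, mul_zero, ite_self]

lemma L_RelEF_FE (n : ℕ) (i j : Fin n) :
    (Fm n * Em n) i j = if i = j then qi (j : ℕ) * qi (n - (j : ℕ)) else 0 := by
  rw [Matrix.mul_apply]
  simp only [Em, Fm, Matrix.of_apply]
  by_cases hj : 0 < (j : ℕ)
  · have hlt : (j : ℕ) - 1 < n := by omega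
    rw [Finset.sum_eq_single (⟨(j : ℕ) - 1, hlt⟩ : Fin n)]
    · have h2 : (j : ℕ) - 1 + 1 = (j : ℕ) := by omega
      by_cases hij : i = j
      · subst hij
        simp only [h2, if_true, one_mul]
      · have h1 : ¬ ((i : ℕ) = (j : ℕ) - 1 + 1) := fun h => hij (Fin.ext (by omega))
        rw [if_neg hij, if_neg h1, zero_mul]
    · intro k _ hk
      have h1 : ¬ ((k : ℕ) + 1 = (j : ℕ)) := fun h => hk (Fin.ext (by simp only []; omega))
      rw [if_neg h1, mul_zero]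
    · intro h
      exact absurd (Finset.mem_univ _) h
  · have h0 : ∀ k : Fin n, ¬ ((k : ℕ) + 1 = (j : ℕ)) := fun k h => hj (by omega)
    rw [Finset.sum_eq_zero (fun k _ => by rw [if_neg (h0 k), mul_zero])]
    have h1 : (j : ℕ) = 0 := by omega
    rw [h1, L_RelEF_qi0, zero_mul, ite_self]

lemma L_RelEF_id {K : Type*} [Field K] {x y s : K} (hx : x ≠ 0) (hy : y ≠ 0) (hs : s ≠ 0) :
    ((x * s - (x * s)⁻¹) / (s - s⁻¹)) * ((y - y⁻¹) / (s - s⁻¹)) -
      ((x - x⁻¹) / (s - s⁻¹)) * ((y * s - (y * s)⁻¹) / (s - s⁻¹)) =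
      (s - s⁻¹)⁻¹ * (y * x⁻¹ - x * y⁻¹) := by
  have h : (x * s - (x * s)⁻¹) * (y - y⁻¹) - (x - x⁻¹) * (y * s - (y * s)⁻¹) =
      (s - s⁻¹) * (y * x⁻¹ - x * y⁻¹) := by
    field_simp
    ring
  rw [div_mul_div_comm, div_mul_div_comm, ← sub_div, h]
  field_simp

theorem prf_RelEF (hQIne : QIne) : RelEF := by
  intro n
  obtain ⟨ht, -, -, -⟩ := hQIne
  ext i j
  rw [Matrix.sub_apply, L_RelEF_EF, L_RelEF_FE]
  simp only [Km, Ki, Matrix.smul_apply, Matrix.sub_apply, Matrix.diagonal_apply, smul_eq_mul]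
  by_cases hij : i = j
  · subst hij
    rw [if_pos rfl, if_pos rfl, if_pos rfl, if_pos rfl]
    have hin := i.2
    have e1 : ∀ a : ℤ, tq ^ (-a) = (tq ^ a)⁻¹ := fun a => _root_.zpow_neg _ _
    have c1 : (((i : ℕ) + 1 : ℕ) : ℤ) = ((i : ℕ) : ℤ) + 1 := by push_cast; ring
    have c2 : ((n - ((i : ℕ) + 1) : ℕ) : ℤ) = (n : ℤ) - 1 - ((i : ℕ) : ℤ) := by omega
    have c3 : ((n - (i : ℕ) : ℕ) : ℤ) = ((n : ℤ) - 1 - ((i : ℕ) : ℤ)) + 1 := by omega
    have e2 : ∀ a : ℤ, tq ^ (2 * (a + 1)) = tq ^ (2 * a) * tq ^ (2 : ℤ) := fun a => by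
      rw [← zpow_add₀ ht]; congr 1; ring
    have e3 : tq ^ (2 * wt n i) = tq ^ (2 * ((n : ℤ) - 1 - ((i : ℕ) : ℤ))) *
        (tq ^ (2 * (((i : ℕ) : ℤ))))⁻¹ := by
      rw [← e1, ← zpow_add₀ ht]; congr 1; simp only [wt]; ring
    have e4 : (tq ^ (2 * wt n i))⁻¹ = tq ^ (2 * (((i : ℕ) : ℤ))) *
        (tq ^ (2 * ((n : ℤ) - 1 - ((i : ℕ) : ℤ))))⁻¹ := by
      rw [e3, mul_inv, inv_inv, mul_comm]
    simp only [qi, sd, c1, c2, c3, e1, e2, e4]
    rw [e3]
    exact L_RelEF_id (zpow_ne_zero _ ht) (zpow_ne_zero _ ht) (zpow_ne_zero _ ht)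
  · rw [if_neg hij, if_neg hij, if_neg hij, if_neg hij]
    simp

end AJM

end

section

/-!
# MP_d3fa71_gt, project Mut, block Q: commutator of `E` and `F ^ k`
-/

namespace AJM

theorem L_RelEFk_qi (hQIne : QIne) (k : ℕ) :
    qi (k + 1) * tq ^ (-(2 * (k : ℤ))) * tq ^ (-4 : ℤ) + 1 =
      qi (k + 2) * tq ^ (-(2 * ((k + 1 : ℕ) : ℤ))) ∧
    qi (k + 1) * tq ^ (2 * (k : ℤ)) * tq ^ (4 : ℤ) + 1 =
      qi (k + 2) * tq ^ (2 * ((k + 1 : ℕ) : ℤ)) := by
  obtain ⟨h0, h1, _⟩ := hQIne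
  have hs : tq ^ (2 : ℤ) - tq ^ (-2 : ℤ) ≠ 0 := h1
  unfold qi
  have e : ∀ a b c : ℤ, (tq ^ a - tq ^ (-a)) / (tq ^ (2 : ℤ) - tq ^ (-2 : ℤ)) * tq ^ b * tq ^ c + 1 =
      (tq ^ (a + b + c) - tq ^ (-a + b + c) + tq ^ (2 : ℤ) - tq ^ (-2 : ℤ)) /
        (tq ^ (2 : ℤ) - tq ^ (-2 : ℤ)) := by
    intro a b c
    rw [eq_div_iff hs, add_mul, one_mul, zpow_add₀ h0 (a + b), zpow_add₀ h0 a,
      zpow_add₀ h0 (-a + b), zpow_add₀ h0 (-a), mul_assoc, mul_assoc]
    have : (tq ^ a - tq ^ (-a)) / (tq ^ (2 : ℤ) - tq ^ (-2 : ℤ)) *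
        (tq ^ b * (tq ^ c * (tq ^ (2 : ℤ) - tq ^ (-2 : ℤ)))) =
        (tq ^ a - tq ^ (-a)) * (tq ^ b * tq ^ c) *
          ((tq ^ (2 : ℤ) - tq ^ (-2 : ℤ)) / (tq ^ (2 : ℤ) - tq ^ (-2 : ℤ))) := by ring
    rw [this, div_self hs]
    ring
  have e' : ∀ a b : ℤ, (tq ^ a - tq ^ (-a)) / (tq ^ (2 : ℤ) - tq ^ (-2 : ℤ)) * tq ^ b =
      (tq ^ (a + b) - tq ^ (-a + b)) / (tq ^ (2 : ℤ) - tq ^ (-2 : ℤ)) := by
    intro a b
    rw [zpow_add₀ h0 a, zpow_add₀ h0 (-a)]
    ring
  constructor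
  · rw [e, e']
    congr 1
    push_cast
    rw [show 2 * ((k : ℤ) + 1) + -(2 * k) + -4 = -2 by ring,
      show -(2 * ((k : ℤ) + 1)) + -(2 * k) + -4 = -(4 * k) - 6 by ring,
      show 2 * ((k : ℤ) + 2) + -(2 * (k + 1)) = 2 by ring,
      show -(2 * ((k : ℤ) + 2)) + -(2 * (k + 1)) = -(4 * k) - 6 by ring]
    ring
  · rw [e, e']
    congr 1
    push_cast
    rw [show 2 * ((k : ℤ) + 1) + 2 * k + 4 = 4 * k + 6 by ring,
      show -(2 * ((k : ℤ) + 1)) + 2 * k + 4 = 2 by ring,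
      show 2 * ((k : ℤ) + 2) + 2 * (k + 1) = 4 * k + 6 by ring,
      show -(2 * ((k : ℤ) + 2)) + 2 * (k + 1) = -2 by ring]
    ring

theorem prf_RelEFk (hQIne : QIne) (hRelK : RelK) (hRelEF : RelEF) : RelEFk := by
  intro n k
  obtain ⟨_, _, _, _, hKF, hKiF⟩ := hRelK n
  have hEF := hRelEF n
  have hs : sd ≠ 0 := hQIne.2.1
  induction k with
  | zero =>
    have h1 : qi (0 + 1) = 1 := by
      unfold qi
      rw [show ((0 + 1 : ℕ) : ℤ) = 1 by norm_num, mul_one]
      exact div_self hs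
    rw [h1, zero_add, pow_one, hEF, pow_zero, one_mul, Nat.cast_zero, mul_zero, neg_zero,
      zpow_zero, one_smul, one_smul, one_div]
  | succ k ih =>
    have e1 : Em n * Fm n ^ (k + 1 + 1) - Fm n ^ (k + 1 + 1) * Em n =
        (Em n * Fm n ^ (k + 1) - Fm n ^ (k + 1) * Em n) * Fm n +
          Fm n ^ (k + 1) * (Em n * Fm n - Fm n * Em n) := by
      rw [pow_succ (Fm n) (k + 1)]
      noncomm_ring
    have e2 : Fm n ^ k * (tq ^ (-(2 * (k : ℤ))) • Km n - tq ^ (2 * (k : ℤ)) • Ki n) * Fm n =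
        (tq ^ (-(2 * (k : ℤ))) * tq ^ (-4 : ℤ)) • (Fm n ^ (k + 1) * Km n) -
          (tq ^ (2 * (k : ℤ)) * tq ^ (4 : ℤ)) • (Fm n ^ (k + 1) * Ki n) := by
      rw [mul_assoc, sub_mul, Matrix.smul_mul, Matrix.smul_mul, hKF, hKiF, smul_smul, smul_smul,
        mul_sub, Matrix.mul_smul, Matrix.mul_smul, ← mul_assoc, ← mul_assoc, ← pow_succ]
    obtain ⟨q1, q2⟩ := L_RelEFk_qi hQIne k
    rw [e1, ih, hEF, Matrix.smul_mul, e2, Matrix.mul_smul, mul_sub, mul_sub, Matrix.mul_smul,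
      Matrix.mul_smul]
    set P := Fm n ^ (k + 1) * Km n
    set Q := Fm n ^ (k + 1) * Ki n
    rw [smul_sub, smul_sub, smul_sub, smul_smul, smul_smul, smul_smul, smul_smul]
    have c1 : qi (k + 1) / sd * (tq ^ (-(2 * (k : ℤ))) * tq ^ (-4 : ℤ)) + sd⁻¹ =
        qi (k + 1 + 1) / sd * tq ^ (-(2 * ((k + 1 : ℕ) : ℤ))) := by
      have : qi (k + 1 + 1) / sd * tq ^ (-(2 * ((k + 1 : ℕ) : ℤ))) =
          qi (k + 2) * tq ^ (-(2 * ((k + 1 : ℕ) : ℤ))) / sd := by ring
      rw [this, ← q1]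
      ring
    have c2 : qi (k + 1) / sd * (tq ^ (2 * (k : ℤ)) * tq ^ (4 : ℤ)) + sd⁻¹ =
        qi (k + 1 + 1) / sd * tq ^ (2 * ((k + 1 : ℕ) : ℤ)) := by
      have : qi (k + 1 + 1) / sd * tq ^ (2 * ((k + 1 : ℕ) : ℤ)) =
          qi (k + 2) * tq ^ (2 * ((k + 1 : ℕ) : ℤ)) / sd := by ring
      rw [this, ← q2]
      ring
    rw [← c1, ← c2, add_smul, add_smul]
    abel

end AJM

end

section

/-!
# MP_d3fa71_gt, project Mut, item RelEn: `E ^ n = F ^ n = 0` on `V_n`
-/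

set_option autoImplicit false

namespace AJM

theorem L_RelEn_E (n k : ℕ) (i j : Fin n) (h : (i : ℕ) + k ≠ j) : (Em n ^ k) i j = 0 := by
  induction k generalizing j with
  | zero =>
    rw [pow_zero]
    apply Matrix.one_apply_ne
    rintro rfl
    exact h rfl
  | succ k ih =>
    rw [pow_succ, Matrix.mul_apply]
    apply Finset.sum_eq_zero
    intro l _
    by_cases h1 : (i : ℕ) + k = l
    · have h2 : Em n l j = 0 := by
        unfold Em
        rw [Matrix.of_apply, if_neg (by omega)]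
      rw [h2, mul_zero]
    · rw [ih l h1, zero_mul]

theorem L_RelEn_F (n k : ℕ) (i j : Fin n) (h : (i : ℕ) ≠ j + k) : (Fm n ^ k) i j = 0 := by
  induction k generalizing j with
  | zero =>
    rw [pow_zero]
    apply Matrix.one_apply_ne
    rintro rfl
    exact h rfl
  | succ k ih =>
    rw [pow_succ, Matrix.mul_apply]
    apply Finset.sum_eq_zero
    intro l _
    by_cases h1 : (i : ℕ) = l + k
    · have h2 : Fm n l j = 0 := by
        unfold Fm
        rw [Matrix.of_apply, if_neg (by omega)]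
      rw [h2, mul_zero]
    · rw [ih l h1, zero_mul]

theorem prf_RelEn : RelEn := by
  intro n
  constructor
  · ext i j
    rw [Matrix.zero_apply]
    exact L_RelEn_E n n i j (by have := i.isLt; have := j.isLt; omega)
  · ext i j
    rw [Matrix.zero_apply]
    exact L_RelEn_F n n i j (by have := i.isLt; have := j.isLt; omega)

end AJM

end

section

/-!
# MP_d3fa71_gt, project Mut, block Q: relations with the Cartan element
-/

open Matrix
open scoped Kronecker

namespace AJM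

theorem L_RelK_aux (h0 : tq ≠ 0) {n : ℕ} (X : Matrix (Fin n) (Fin n) (RatFunc ℚ))
    (a : Fin n → ℤ) (c : ℤ) (h : ∀ i j, X i j ≠ 0 → a i = c + a j) :
    Matrix.diagonal (fun j => tq ^ (a j)) * X =
      tq ^ c • (X * Matrix.diagonal (fun j => tq ^ (a j))) := by
  ext i j
  rw [Matrix.diagonal_mul, Matrix.smul_apply, Matrix.mul_diagonal, smul_eq_mul]
  by_cases hX : X i j = 0
  · rw [hX, mul_zero, zero_mul, mul_zero]
  · rw [h i j hX, zpow_add₀ h0]
    ring

theorem L_RelK_E {n : ℕ} (i j : Fin n) (h : Em n i j ≠ 0) : wt n i = wt n j + 2 := by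
  have h1 : (i : ℕ) + 1 = j := by
    by_contra hne
    apply h
    show (if (i : ℕ) + 1 = j then qi j * qi (n - j) else 0) = 0
    rw [if_neg hne]
  unfold wt
  have h2 : ((j : ℕ) : ℤ) = (i : ℕ) + 1 := by exact_mod_cast h1.symm
  rw [h2]
  ring

theorem L_RelK_F {n : ℕ} (i j : Fin n) (h : Fm n i j ≠ 0) : wt n i = wt n j - 2 := by
  have h1 : (i : ℕ) = j + 1 := by
    by_contra hne
    apply h
    show (if (i : ℕ) = j + 1 then (1 : RatFunc ℚ) else 0) = 0
    rw [if_neg hne]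
  unfold wt
  have h2 : ((i : ℕ) : ℤ) = (j : ℕ) + 1 := by exact_mod_cast h1
  rw [h2]
  ring

theorem prf_RelK (hQIne : QIne) : RelK := by
  intro n
  have h0 := hQIne.1
  refine ⟨?_, ?_, ?_, ?_, ?_, ?_⟩
  · unfold Km Ki
    rw [Matrix.diagonal_mul_diagonal, ← Matrix.diagonal_one]
    congr 1
    funext j
    rw [← zpow_add₀ h0, add_neg_cancel, zpow_zero]
  · unfold Km Ki
    rw [Matrix.diagonal_mul_diagonal, ← Matrix.diagonal_one]
    congr 1
    funext j
    rw [← zpow_add₀ h0, neg_add_cancel, zpow_zero]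
  · exact L_RelK_aux h0 (Em n) (fun j => 2 * wt n j) 4 fun i j h => by
      have := L_RelK_E i j h
      show 2 * wt n i = 4 + 2 * wt n j
      rw [this]; ring
  · exact L_RelK_aux h0 (Em n) (fun j => -(2 * wt n j)) (-4) fun i j h => by
      have := L_RelK_E i j h
      show -(2 * wt n i) = -4 + -(2 * wt n j)
      rw [this]; ring
  · exact L_RelK_aux h0 (Fm n) (fun j => 2 * wt n j) (-4) fun i j h => by
      have := L_RelK_F i j h
      show 2 * wt n i = -4 + 2 * wt n j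
      rw [this]; ring
  · exact L_RelK_aux h0 (Fm n) (fun j => -(2 * wt n j)) 4 fun i j h => by
      have := L_RelK_F i j h
      show -(2 * wt n i) = 4 + -(2 * wt n j)
      rw [this]; ring

end AJM

end

section

/-!
# MP_d3fa71_gt, project Mut: conjugation of the ring
-/

set_option autoImplicit false

namespace AJM

theorem prf_RingConj (hPathConj : PathConj) : RingConj := by
  intro F _ M P ha hb E τ h
  obtain ⟨hc, ha', hb', τT, α, β, hp, h1, h2, h3⟩ := h
  refine ⟨?_, P * ha', P * hb', τT, α, β, ?_, ?_, ?_, h3⟩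
  · rw [mer_mul, mer_mul]
    have e1 : P * E * P⁻¹ * (P * mer M ha * P⁻¹ * (P * mer M hb * P⁻¹))
        = P * (E * (mer M ha * mer M hb)) * P⁻¹ := by group
    have e2 : P * mer M ha * P⁻¹ * (P * mer M hb * P⁻¹) * (P * E * P⁻¹)
        = P * (mer M ha * mer M hb * E) * P⁻¹ := by group
    rw [e1, e2, hc]
  · have h4 := hPathConj F M P Tw [ha, hb] [ha', hb'] τT hp
    exact h4
  · have e1 : P * E * P⁻¹ * (P * ha') = P * (E * ha') := by group
    rw [e1, h1, mul_assoc]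
  · have e1 : P * E * P⁻¹ * (P * hb') = P * (E * hb') := by group
    rw [e1, h2, mul_assoc]

end AJM

end

section

/-! MP_d3fa71_gt, project Mut, block C: the ring as a closed drilled word. -/

set_option autoImplicit false

namespace AJM

theorem RingD_dgJ {R : Type} [CommRing R] (u : Rˣ) : dg u * (J * dg u) = (J : G R) := by
  apply Subtype.ext
  ext i j
  fin_cases i <;> fin_cases j <;> simp [dg, J, Matrix.mul_apply, Fin.sum_univ_two]

theorem RingD_cap {R : Type} [CommRing R] (h : G R) (u : Rˣ) :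
    h * dg u * J * dg u = h * J := by
  rw [mul_assoc, mul_assoc, RingD_dgJ]

theorem RingD_uni {F : Type} [Field F] (v : Fin 2 → F) (hv : v ≠ 0) :
    ∃ u : Fin 2 → F, u 0 * v 0 + u 1 * v 1 = 1 := by
  by_cases h0 : v 0 = 0
  · have h1 : v 1 ≠ 0 := by
      intro h1
      apply hv
      funext i
      fin_cases i
      · exact h0
      · exact h1
    refine ⟨![0, (v 1)⁻¹], ?_⟩
    simp [h1]
  · refine ⟨![(v 0)⁻¹, 0], ?_⟩
    simp [h0]

theorem prf_RingD (hDPathAppend : DPathAppend) (hPathEmb : PathEmb) (hPathRight : PathRightZ)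
    (hPathProd : PathProd) : RingD := by
  intro F _ M ha hb E τ ε ω v hv hE hw hR
  obtain ⟨hc, ha', hb', τT, α, β, hP, e1, e2, hτ⟩ := hR
  obtain ⟨u, hu⟩ := RingD_uni v hv
  have hprod : mer M ha * mer M hb = mer M ha' * mer M hb' := by
    have h := hPathProd F M Tw [ha, hb] [ha', hb'] τT hP
    simpa using h
  -- first part
  have hP2 : Path M Tw ([ha, hb] ++ [hb * J, ha * J]) ([ha', hb'] ++ [hb * J, ha * J]) τT :=
    hPathRight F M Tw [ha, hb] [ha', hb'] [hb * J, ha * J] τT hP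
  have h1 : Path M ([(.cup, 0), (.cup, 1)] ++ Tw) [] [ha', hb', hb * J, ha * J]
      (1 * (1 * τT)) := by
    refine Path.cons (Step.cup ha []) ?_
    refine Path.cons (Step.sh ha (Step.cup hb [ha * J])) ?_
    exact hP2
  have h1' := (hPathEmb F M _ _ _ _).1 h1
  -- the drilled move
  have hst : DStep M (DKd.tw, 0) (ha' :: hb' :: [hb * J, ha * J])
      (E * ha' :: E * hb' :: [hb * J, ha * J]) 1 [(ε, ω)] := by
    refine DStep.tw E ha' hb' [hb * J, ha * J] ε ω v u ?_ hE ?_ hu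
    · rw [← hprod]
      exact hc
    · rw [← hprod]
      exact hw
  have h2 : DPath M (twd 0) [ha', hb', hb * J, ha * J]
      [ha * dg α, hb * dg β, hb * J, ha * J] (1 * 1) ([(ε, ω)] ++ []) := by
    refine DPath.cons hst ?_
    rw [e1, e2]
    exact DPath.nil _
  -- the caps
  have h3 : Path M [(.cap, 1), (.cap, 0)] [ha * dg α, hb * dg β, hb * J, ha * J] []
      (β * (α * 1)) := by
    have s1 : Step M (.cap, 1) (ha * dg α :: (hb * dg β) :: (hb * dg β * J * dg β) :: [ha * J])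
        (ha * dg α :: [ha * J]) β := Step.sh (ha * dg α) (Step.cap (hb * dg β) β [ha * J])
    rw [RingD_cap] at s1
    have s2 : Step M (.cap, 0) (ha * dg α :: (ha * dg α * J * dg α) :: []) [] α :=
      Step.cap (ha * dg α) α []
    rw [RingD_cap] at s2
    exact Path.cons s1 (Path.cons s2 (Path.nil _))
  have h3' := (hPathEmb F M _ _ _ _).1 h3
  rw [hDPathAppend]
  refine ⟨[ha * dg α, hb * dg β, hb * J, ha * J], 1 * (1 * τT) * (1 * 1), β * (α * 1),
    [] ++ ([(ε, ω)] ++ []), [], ?_, h3', ?_, ?_⟩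
  · rw [hDPathAppend]
    exact ⟨_, _, _, _, _, h1', h2, rfl, rfl⟩
  · rw [hτ]
    simp only [one_mul, mul_one]
    rw [mul_assoc, mul_comm α β]
  · simp

end AJM

end

section

/-!
# MP_d3fa71_gt, project Mut: basic calculus of SP
-/

set_option autoImplicit false

namespace AJM

section
variable {R : Type} [CommRing R]

theorem SPCalc_len (s : List (G R)) (d : List Rˣ) (h : d.length = s.length) :
    (scl s d).length = s.length := by
  simp [scl, h]

theorem SPCalc_dg_one : dg (1 : Rˣ) = 1 := by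
  apply Subtype.ext
  ext i j
  fin_cases i <;> fin_cases j <;> simp [dg]

theorem SPCalc_dg_mul (u v : Rˣ) : dg (u * v) = dg u * dg v := by
  apply Subtype.ext
  change !![((u * v : Rˣ) : R), 0; 0, (((u * v)⁻¹ : Rˣ) : R)] =
    !![(u : R), 0; 0, ((u⁻¹ : Rˣ) : R)] * !![(v : R), 0; 0, ((v⁻¹ : Rˣ) : R)]
  rw [Matrix.mul_fin_two]
  simp [mul_comm]

theorem SPCalc_scl_one (s : List (G R)) : scl s (List.replicate s.length 1) = s := by
  induction s with
  | nil => rfl
  | cons h s ih =>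
    simp only [scl, List.length_cons, List.replicate_succ, List.zipWith_cons_cons,
      SPCalc_dg_one, mul_one] at ih ⊢
    rw [ih]

theorem SPCalc_scl_scl (s : List (G R)) : ∀ (d e : List Rˣ),
    scl (scl s d) e = scl s (List.zipWith (· * ·) d e) := by
  induction s with
  | nil => intro d e; simp [scl]
  | cons h s ih =>
    intro d e
    cases d with
    | nil => simp [scl]
    | cons u d =>
      cases e with
      | nil => simp [scl]
      | cons v e =>
        have := ih d e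
        simp only [scl, List.zipWith_cons_cons, SPCalc_dg_mul] at this ⊢
        rw [this, mul_assoc]

theorem SPCalc_prod : ∀ (d e : List Rˣ), d.length = e.length →
    (List.zipWith (· * ·) d e).prod = d.prod * e.prod := by
  intro d
  induction d with
  | nil => intro e h; cases e with
    | nil => simp
    | cons v e => simp at h
  | cons u d ih =>
    intro e h
    cases e with
    | nil => simp at h
    | cons v e =>
      have h' : d.length = e.length := by simpa using h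
      simp only [List.zipWith_cons_cons, List.prod_cons, ih e h']
      exact mul_mul_mul_comm _ _ _ _

theorem SPCalc_scl_append (s r : List (G R)) (d e : List Rˣ) (h : d.length = s.length) :
    scl (s ++ r) (d ++ e) = scl s d ++ scl r e := by
  unfold scl
  exact List.zipWith_append h.symm

end

theorem prf_SPCalc (hPathAppend : PathAppend) (hPathScale : PathScale) (hPathShift : PathShift)
    (hPathRight : PathRightZ) : SPCalc := by
  intro R _ M
  refine ⟨?_, ?_, ?_, ?_, ?_, ?_⟩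
  · intro w s s' τ hP
    refine ⟨List.replicate s'.length 1, τ, by simp, ?_, by simp⟩
    rw [SPCalc_scl_one]
    exact hP
  · rintro w s τ ⟨d, τ', hd, hP, rfl⟩
    have hd0 : d = [] := List.eq_nil_of_length_eq_zero (by simpa using hd)
    subst hd0
    simpa [scl] using hP
  · rintro w₁ w₂ s s' s'' σ σ' ⟨d, τ, hd, hP, rfl⟩ ⟨d₂, τ₂, hd₂, hP₂, rfl⟩
    obtain ⟨d', τ', hd', hP', hτ'⟩ := hPathScale R M w₂ s' (scl s'' d₂) τ₂ d hP₂ hd
    rw [SPCalc_len s'' d₂ hd₂] at hd'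
    rw [SPCalc_scl_scl] at hP'
    refine ⟨List.zipWith (· * ·) d₂ d', τ * τ', by simp [hd₂, hd'], ?_, ?_⟩
    · exact (hPathAppend R M w₁ w₂ s _ _).2 ⟨_, τ, τ', hP, hP', rfl⟩
    · rw [SPCalc_prod _ _ (by rw [hd₂, hd'])]
      calc τ * τ' * (d₂.prod * d'.prod) = τ * (τ' * d'.prod) * d₂.prod := by
            simp only [mul_assoc, mul_comm, mul_left_comm]
        _ = τ * (τ₂ * d.prod) * d₂.prod := by rw [hτ']
        _ = τ * d.prod * (τ₂ * d₂.prod) := by
            simp only [mul_assoc, mul_comm, mul_left_comm]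
  · rintro w s s' d σ hd ⟨d₂, τ, hd₂, hP, rfl⟩
    rw [SPCalc_len s' d hd] at hd₂
    rw [SPCalc_scl_scl] at hP
    refine ⟨_, τ, by simp [hd, hd₂], hP, ?_⟩
    rw [SPCalc_prod _ _ (by rw [hd₂, hd]), mul_comm d.prod, mul_assoc]
  · rintro w s s' d σ hd ⟨d₁, τ₁, hd₁, hP, rfl⟩
    obtain ⟨d', τ', hd', hP', hτ'⟩ := hPathScale R M w s (scl s' d₁) τ₁ d hP hd
    rw [SPCalc_len s' d₁ hd₁] at hd'
    rw [SPCalc_scl_scl] at hP'
    refine ⟨_, τ', by simp [hd₁, hd'], hP', ?_⟩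
    rw [SPCalc_prod _ _ (by rw [hd₁, hd'])]
    calc τ' * (d₁.prod * d'.prod) = (τ' * d'.prod) * d₁.prod := by
          simp only [mul_assoc, mul_comm, mul_left_comm]
      _ = τ₁ * d₁.prod * d.prod := by
          rw [hτ']
          simp only [mul_assoc, mul_comm, mul_left_comm]
  · rintro w p s s' r σ ⟨d, τ, hd, hP, rfl⟩
    have h1 := hPathRight R M w s (scl s' d) r τ hP
    have h2 := (hPathShift R M w p (s ++ r) (p ++ (scl s' d ++ r)) τ).2 ⟨_, rfl, h1⟩
    refine ⟨List.replicate p.length 1 ++ (d ++ List.replicate r.length 1), τ, ?_, ?_, ?_⟩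
    · simp [hd]
    · rw [List.append_assoc p s r, List.append_assoc p s' r,
        SPCalc_scl_append p _ _ _ (by simp), SPCalc_scl_append s' r d _ hd,
        SPCalc_scl_one, SPCalc_scl_one]
      exact h2
    · simp

end AJM

end

section

/-!
# MP_d3fa71_gt, project Mut, block Q: shifted moves commute with the quantum group
-/

open Matrix
open scoped Kronecker

namespace AJM

/-- Adding a first tensor factor. -/
noncomputable def L_ShOp_cx (n : ℕ) (x : Fin n) : TT n →ₗ[RatFunc ℚ] TT n :=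
  Finsupp.lmapDomain (RatFunc ℚ) (RatFunc ℚ) (fun z : List (Fin n) => x :: z)

theorem L_ShOp_cx_apply (n : ℕ) (x : Fin n) (v : TT n) :
    L_ShOp_cx n x v = Finsupp.mapDomain (x :: ·) v := rfl

theorem L_ShOp_cx_single (n : ℕ) (x : Fin n) (s : List (Fin n)) :
    L_ShOp_cx n x (Finsupp.single s 1) = Finsupp.single (x :: s) 1 := by
  rw [L_ShOp_cx_apply, Finsupp.mapDomain_single]

/-- Two operators agree if they agree on the empty list and on the images of `L_ShOp_cx`. -/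
theorem L_ShOp_ext {n : ℕ} {f g : TT n →ₗ[RatFunc ℚ] TT n}
    (h0 : f (Finsupp.single [] 1) = g (Finsupp.single [] 1))
    (h1 : ∀ x v, f (L_ShOp_cx n x v) = g (L_ShOp_cx n x v)) : f = g := by
  refine Finsupp.lhom_ext' fun s => LinearMap.ext_ring ?_
  rw [LinearMap.comp_apply, LinearMap.comp_apply, Finsupp.lsingle_apply]
  rcases s with _ | ⟨x, s⟩
  · exact h0
  · rw [← L_ShOp_cx_single]
    exact h1 x _

/-- Two operators agree if they agree on the basis. -/
theorem L_ShOp_ext1 {n : ℕ} {f g : TT n →ₗ[RatFunc ℚ] TT n}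
    (h : ∀ s, f (Finsupp.single s 1) = g (Finsupp.single s 1)) : f = g := by
  refine Finsupp.lhom_ext' fun s => LinearMap.ext_ring ?_
  rw [LinearMap.comp_apply, LinearMap.comp_apply, Finsupp.lsingle_apply]
  exact h s

theorem L_ShOp_act_nil (n : ℕ) (k : Kd) (i : ℕ) : act n k (i + 1) [] = 0 := by
  cases k <;> rfl

theorem L_ShOp_act_cons (n : ℕ) (k : Kd) (i : ℕ) (x : Fin n) (s : List (Fin n)) :
    act n k (i + 1) (x :: s) = Finsupp.mapDomain (x :: ·) (act n k i s) := by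
  cases k <;> rfl

theorem L_ShOp_opm (n : ℕ) (k : Kd) (i : ℕ) (x : Fin n) (v : TT n) :
    opm n (k, i + 1) (L_ShOp_cx n x v) = L_ShOp_cx n x (opm n (k, i) v) := by
  have e : opm n (k, i + 1) ∘ₗ L_ShOp_cx n x = L_ShOp_cx n x ∘ₗ opm n (k, i) := by
    refine L_ShOp_ext1 fun s => ?_
    rw [LinearMap.comp_apply, LinearMap.comp_apply, L_ShOp_cx_single]
    unfold opm
    rw [Finsupp.linearCombination_single, Finsupp.linearCombination_single, one_smul, one_smul]
    exact L_ShOp_act_cons n k i x s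
  exact LinearMap.congr_fun e v

theorem L_ShOp_opm_nil (n : ℕ) (k : Kd) (i : ℕ) :
    opm n (k, i + 1) (Finsupp.single [] 1) = 0 := by
  unfold opm
  rw [Finsupp.linearCombination_single, one_smul]
  exact L_ShOp_act_nil n k i

theorem L_ShOp_Ko (n : ℕ) (x : Fin n) (v : TT n) :
    Ko n (L_ShOp_cx n x v) = tq ^ (2 * wt n x) • L_ShOp_cx n x (Ko n v) := by
  have e : Ko n ∘ₗ L_ShOp_cx n x = tq ^ (2 * wt n x) • (L_ShOp_cx n x ∘ₗ Ko n) := by
    refine L_ShOp_ext1 fun s => ?_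
    rw [LinearMap.comp_apply, LinearMap.smul_apply, LinearMap.comp_apply, L_ShOp_cx_single]
    unfold Ko
    rw [Finsupp.linearCombination_single, Finsupp.linearCombination_single, one_smul, one_smul,
      L_ShOp_cx_apply, Finsupp.mapDomain_single, Finsupp.smul_single, smul_eq_mul]
    simp [kk]
  exact LinearMap.congr_fun e v

theorem L_ShOp_Ko_nil (n : ℕ) : Ko n (Finsupp.single [] 1) = Finsupp.single [] 1 := by
  unfold Ko
  rw [Finsupp.linearCombination_single, one_smul]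
  simp [kk]

theorem L_ShOp_Eo (n : ℕ) (x : Fin n) (v : TT n) :
    Eo n (L_ShOp_cx n x v) = L_ShOp_cx n x (Eo n v) +
      ∑ y : Fin n, Em n y x • L_ShOp_cx n y (Ko n v) := by
  have e : Eo n ∘ₗ L_ShOp_cx n x = L_ShOp_cx n x ∘ₗ Eo n +
      ∑ y : Fin n, Em n y x • (L_ShOp_cx n y ∘ₗ Ko n) := by
    refine L_ShOp_ext1 fun s => ?_
    rw [LinearMap.comp_apply, LinearMap.add_apply, LinearMap.comp_apply, L_ShOp_cx_single,
      LinearMap.sum_apply]
    unfold Eo Ko
    rw [Finsupp.linearCombination_single, Finsupp.linearCombination_single, one_smul, one_smul,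
      L_ShOp_cx_apply, eL]
    congr 1
    refine Finset.sum_congr rfl fun y _ => ?_
    rw [LinearMap.smul_apply, LinearMap.comp_apply, Finsupp.linearCombination_single, one_smul,
      L_ShOp_cx_apply, Finsupp.mapDomain_single, Finsupp.smul_single, smul_eq_mul, mul_comm]
  have := LinearMap.congr_fun e v
  rw [LinearMap.comp_apply, LinearMap.add_apply, LinearMap.comp_apply,
    LinearMap.sum_apply] at this
  exact this

theorem L_ShOp_Eo_nil (n : ℕ) : Eo n (Finsupp.single [] 1) = 0 := by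
  unfold Eo
  rw [Finsupp.linearCombination_single, one_smul]
  rfl

theorem L_ShOp_Fo (n : ℕ) (x : Fin n) (v : TT n) :
    Fo n (L_ShOp_cx n x v) = tq ^ (-(2 * wt n x)) • L_ShOp_cx n x (Fo n v) +
      ∑ y : Fin n, Fm n y x • L_ShOp_cx n y v := by
  have e : Fo n ∘ₗ L_ShOp_cx n x = tq ^ (-(2 * wt n x)) • (L_ShOp_cx n x ∘ₗ Fo n) +
      ∑ y : Fin n, Fm n y x • L_ShOp_cx n y := by
    refine L_ShOp_ext1 fun s => ?_
    rw [LinearMap.comp_apply, LinearMap.add_apply, LinearMap.smul_apply, LinearMap.comp_apply,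
      L_ShOp_cx_single, LinearMap.sum_apply]
    unfold Fo
    rw [Finsupp.linearCombination_single, Finsupp.linearCombination_single, one_smul, one_smul,
      L_ShOp_cx_apply, fL]
    congr 1
    refine Finset.sum_congr rfl fun y _ => ?_
    rw [LinearMap.smul_apply, L_ShOp_cx_apply, Finsupp.mapDomain_single, Finsupp.smul_single,
      smul_eq_mul, mul_one]
  have := LinearMap.congr_fun e v
  rw [LinearMap.comp_apply, LinearMap.add_apply, LinearMap.smul_apply, LinearMap.comp_apply,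
    LinearMap.sum_apply] at this
  exact this

theorem L_ShOp_Fo_nil (n : ℕ) : Fo n (Finsupp.single [] 1) = 0 := by
  unfold Fo
  rw [Finsupp.linearCombination_single, one_smul]
  rfl

theorem prf_ShOp : ShOp := by
  intro n k i ⟨hE, hF, hK⟩
  have hE' := fun v => LinearMap.congr_fun hE v
  have hF' := fun v => LinearMap.congr_fun hF v
  have hK' := fun v => LinearMap.congr_fun hK v
  simp only [LinearMap.comp_apply] at hE' hF' hK'
  refine ⟨?_, ?_, ?_⟩
  · refine L_ShOp_ext ?_ fun x v => ?_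
    · rw [LinearMap.comp_apply, LinearMap.comp_apply, L_ShOp_Eo_nil, L_ShOp_opm_nil, map_zero,
        map_zero]
    · rw [LinearMap.comp_apply, LinearMap.comp_apply, L_ShOp_Eo, L_ShOp_opm, L_ShOp_Eo, map_add,
        L_ShOp_opm, hE', map_sum]
      congr 1
      refine Finset.sum_congr rfl fun y _ => ?_
      rw [map_smul, L_ShOp_opm, hK']
  · refine L_ShOp_ext ?_ fun x v => ?_
    · rw [LinearMap.comp_apply, LinearMap.comp_apply, L_ShOp_Fo_nil, L_ShOp_opm_nil, map_zero,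
        map_zero]
    · rw [LinearMap.comp_apply, LinearMap.comp_apply, L_ShOp_Fo, L_ShOp_opm, L_ShOp_Fo, map_add,
        map_smul, L_ShOp_opm, hF', map_sum]
      congr 1
      refine Finset.sum_congr rfl fun y _ => ?_
      rw [map_smul, L_ShOp_opm]
  · refine L_ShOp_ext ?_ fun x v => ?_
    · rw [LinearMap.comp_apply, LinearMap.comp_apply, L_ShOp_Ko_nil, L_ShOp_opm_nil, map_zero]
    · rw [LinearMap.comp_apply, LinearMap.comp_apply, L_ShOp_Ko, L_ShOp_opm, L_ShOp_Ko,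
        map_smul, L_ShOp_opm, hK']

end AJM

end

section

/-! MP_d3fa71_gt, project Mut, block V: elementary identities of the polynomials. -/

set_option autoImplicit false

namespace AJM

theorem L_SpId_ep {R : Type} [CommRing R] (Y : R) (n : ℕ) :
    Ep n Y = Sp (n + 1) Y - Sp n Y ∧ Ep (n + 1) Y = Sp (n + 2) Y - Sp (n + 1) Y := by
  induction n with
  | zero =>
    refine ⟨?_, ?_⟩
    · show (1 : R) = 1 - 0
      ring
    · show Y - 1 = (Y * 1 - 0) - 1
      ring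
  | succ n ih =>
    refine ⟨ih.2, ?_⟩
    have h1 : Ep (n + 2) Y = Y * Ep (n + 1) Y - Ep n Y := rfl
    have h2 : Sp (n + 3) Y = Y * Sp (n + 2) Y - Sp (n + 1) Y := rfl
    have h3 : Sp (n + 2) Y = Y * Sp (n + 1) Y - Sp n Y := rfl
    show Ep (n + 2) Y = Sp (n + 3) Y - Sp (n + 2) Y
    rw [h1, h2, ih.1, ih.2]
    linear_combination h3

theorem L_SpId_rest {R : Type} [CommRing R] (Y : R) (n : ℕ) :
    Sp (n + 1) Y ^ 2 - Sp n Y * Sp (n + 2) Y = 1 ∧
    Sp (2 * n + 1) Y = Sp (n + 1) Y ^ 2 - Sp n Y ^ 2 ∧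
    Sp (2 * n + 2) Y = Sp (n + 1) Y * (Sp (n + 2) Y - Sp n Y) := by
  induction n with
  | zero =>
    refine ⟨?_, ?_, ?_⟩
    · show (1 : R) ^ 2 - 0 * (Y * 1 - 0) = 1
      ring
    · show (1 : R) = 1 ^ 2 - 0 ^ 2
      ring
    · show (Y * 1 - 0) = (1 : R) * ((Y * 1 - 0) - 0)
      ring
  | succ n ih =>
    obtain ⟨hA, hB, hC⟩ := ih
    have h2 : Sp (n + 2) Y = Y * Sp (n + 1) Y - Sp n Y := rfl
    have h3 : Sp (n + 3) Y = Y * Sp (n + 2) Y - Sp (n + 1) Y := rfl
    have e3 : Sp (2 * n + 3) Y = Y * Sp (2 * n + 2) Y - Sp (2 * n + 1) Y := rfl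
    have e4 : Sp (2 * n + 4) Y = Y * Sp (2 * n + 3) Y - Sp (2 * n + 2) Y := rfl
    have hB' : Sp (2 * n + 3) Y = Sp (n + 2) Y ^ 2 - Sp (n + 1) Y ^ 2 := by
      rw [e3, hB, hC]
      linear_combination (-(Sp (n + 2) Y - Sp n Y)) * h2
    have hC' : Sp (2 * n + 4) Y = Sp (n + 2) Y * (Sp (n + 3) Y - Sp (n + 1) Y) := by
      rw [e4, hB', hC, h3]
      linear_combination (Sp (n + 1) Y) * h2
    refine ⟨?_, hB', hC'⟩
    show Sp (n + 2) Y ^ 2 - Sp (n + 1) Y * Sp (n + 3) Y = 1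
    rw [h3]
    linear_combination hA + (Sp (n + 2) Y) * h2

theorem prf_SpId : SpId := by
  intro R _ Y n
  have h := L_SpId_rest Y n
  exact ⟨(L_SpId_ep Y n).1, h.1, h.2.1, h.2.2⟩

end AJM

end

section

/-!
# MP_d3fa71_gt, project Mut, block V: traces of odd powers
-/

namespace AJM

theorem prf_TrOdd (hPowTr : PowTr) (hSpId : SpId) : TrOdd := by
  intro R _ x n
  have h1 := (hPowTr R x 1 (2 * n + 1)).1
  rw [mul_one, mul_one, tr_one] at h1
  obtain ⟨e1, e2, e3, e4⟩ := hSpId R (tr x) n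
  have e5 : Sp (n + 2) (tr x) = tr x * Sp (n + 1) (tr x) - Sp n (tr x) := rfl
  rw [show 2 * n + 1 + 1 = 2 * n + 2 by ring] at h1
  rw [h1, e1, e3, e4]
  rw [e5] at e2 ⊢
  linear_combination (-2 : R) * e2

end AJM

end

section

/-!
# MP_d3fa71_gt, project Mut: item TwsPath
-/

set_option autoImplicit false

namespace AJM

section

variable {R : Type} [CommRing R]

theorem TwsPath_dg_mul (u v : Rˣ) : (dg (u * v) : G R) = dg u * dg v := by
  apply Subtype.ext
  rw [Matrix.SpecialLinearGroup.coe_mul]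
  ext i j
  fin_cases i <;> fin_cases j <;> simp [dg, Matrix.mul_apply, Fin.sum_univ_two, mul_comm]

theorem TwsPath_dg_one : (dg (1 : Rˣ) : G R) = 1 := by
  apply Subtype.ext
  ext i j
  fin_cases i <;> fin_cases j <;> simp [dg]

theorem TwsPath_dg_inv (u : Rˣ) : (dg u⁻¹ : G R) = (dg u)⁻¹ := by
  rw [eq_inv_iff_mul_eq_one, ← TwsPath_dg_mul, inv_mul_cancel, TwsPath_dg_one]

theorem TwsPath_cons {M : Rˣ} {m : Mv} {w : List Mv} {s s' s'' : List (G R)}
    (h1 : Step M m s s' 1) (h2 : Path M w s' s'' 1) : Path M (m :: w) s s'' 1 := by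
  have h := Path.cons h1 h2
  rwa [one_mul] at h

theorem TwsPath_pos (M : Rˣ) (n : ℕ) : ∀ (h k : G R) (s : List (G R)),
    Path M (List.replicate (2 * n) (.pos, 0)) (h :: k :: s)
      (((mer M h * mer M k) ^ n)⁻¹ * h * dg (M ^ n) ::
        ((mer M h * mer M k) ^ n)⁻¹ * k * dg (M ^ n) :: s) 1 := by
  induction n with
  | zero =>
    intro h k s
    simp only [pow_zero, inv_one, one_mul, TwsPath_dg_one, mul_one, Nat.mul_zero,
      List.replicate_zero]
    exact Path.nil _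
  | succ n ih =>
    intro h k s
    have e : List.replicate (2 * (n + 1)) ((.pos, 0) : Mv) =
        (.pos, 0) :: (.pos, 0) :: List.replicate (2 * n) (.pos, 0) := by
      rw [show 2 * (n + 1) = 2 * n + 1 + 1 by ring, List.replicate_succ, List.replicate_succ]
    rw [e]
    refine TwsPath_cons (Step.pos h k s) (TwsPath_cons (Step.pos _ _ s) ?_)
    have e1 : (mer M k)⁻¹ * h = (mer M h * mer M k)⁻¹ * h * dg M := by
      unfold mer
      group
    have e2 : (mer M ((mer M k)⁻¹ * h))⁻¹ * k = (mer M h * mer M k)⁻¹ * k * dg M := by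
      unfold mer
      group
    rw [e2, e1]
    have e3 := ih ((mer M h * mer M k)⁻¹ * h * dg M) ((mer M h * mer M k)⁻¹ * k * dg M) s
    have e4 : mer M ((mer M h * mer M k)⁻¹ * h * dg M) *
        mer M ((mer M h * mer M k)⁻¹ * k * dg M) = mer M h * mer M k := by
      unfold mer
      group
    rw [e4] at e3
    generalize mer M h * mer M k = g at e3 ⊢
    have e5 : ∀ x : G R, (g ^ (n + 1))⁻¹ * x * dg (M ^ (n + 1)) =
        (g ^ n)⁻¹ * (g⁻¹ * x * dg M) * dg (M ^ n) := by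
      intro x
      rw [pow_succ' M n, TwsPath_dg_mul, pow_succ' g n, mul_inv_rev]
      simp only [mul_assoc]
    rw [e5, e5]
    exact e3

theorem TwsPath_neg (M : Rˣ) (n : ℕ) : ∀ (h k : G R) (s : List (G R)),
    Path M (List.replicate (2 * n) (.neg, 0)) (h :: k :: s)
      ((mer M h * mer M k) ^ n * h * (dg (M ^ n))⁻¹ ::
        (mer M h * mer M k) ^ n * k * (dg (M ^ n))⁻¹ :: s) 1 := by
  induction n with
  | zero =>
    intro h k s
    simp only [pow_zero, inv_one, one_mul, TwsPath_dg_one, mul_one, Nat.mul_zero,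
      List.replicate_zero]
    exact Path.nil _
  | succ n ih =>
    intro h k s
    have e : List.replicate (2 * (n + 1)) ((.neg, 0) : Mv) =
        (.neg, 0) :: (.neg, 0) :: List.replicate (2 * n) (.neg, 0) := by
      rw [show 2 * (n + 1) = 2 * n + 1 + 1 by ring, List.replicate_succ, List.replicate_succ]
    rw [e]
    refine TwsPath_cons (Step.neg h k s) (TwsPath_cons (Step.neg _ _ s) ?_)
    have e1 : mer M h * k = mer M h * mer M k * k * (dg M)⁻¹ := by
      unfold mer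
      group
    have e2 : mer M (mer M h * k) * h = mer M h * mer M k * h * (dg M)⁻¹ := by
      unfold mer
      group
    rw [e2, e1]
    have e3 := ih (mer M h * mer M k * h * (dg M)⁻¹) (mer M h * mer M k * k * (dg M)⁻¹) s
    have e4 : mer M (mer M h * mer M k * h * (dg M)⁻¹) *
        mer M (mer M h * mer M k * k * (dg M)⁻¹) = mer M h * mer M k := by
      unfold mer
      group
    rw [e4] at e3
    generalize mer M h * mer M k = g at e3 ⊢
    have e5 : ∀ x : G R, g ^ (n + 1) * x * (dg (M ^ (n + 1)))⁻¹ =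
        g ^ n * (g * x * (dg M)⁻¹) * (dg (M ^ n))⁻¹ := by
      intro x
      rw [pow_succ M n, TwsPath_dg_mul, pow_succ g n, mul_inv_rev]
      simp only [mul_assoc]
    rw [e5, e5]
    exact e3

end

theorem prf_TwsPath (_hPathAppend : PathAppend) : TwsPath := by
  intro R _ M n h k s
  rcases n.eq_nat_or_neg with ⟨m, rfl | rfl⟩
  · have e : tws (2 * (m : ℤ)) = List.replicate (2 * m) (.pos, 0) := by
      unfold tws
      rw [if_pos (by positivity)]
      congr 1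
    rw [e, zpow_neg, zpow_natCast, zpow_natCast]
    exact TwsPath_pos M m h k s
  · rcases Nat.eq_zero_or_pos m with h0 | h0
    · subst h0
      have e : tws (2 * (-((0 : ℕ) : ℤ))) = [] := by
        unfold tws
        simp
      rw [e]
      simp only [Nat.cast_zero, neg_zero, zpow_zero, one_mul, TwsPath_dg_one, mul_one]
      exact Path.nil _
    · have e : tws (2 * (-(m : ℤ))) = List.replicate (2 * m) (.neg, 0) := by
        unfold tws
        rw [if_neg (by push Not; have : (0 : ℤ) < m := by exact_mod_cast h0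
                       linarith)]
        congr 1
        omega
      rw [e, neg_neg, zpow_natCast, zpow_neg, zpow_natCast, TwsPath_dg_inv]
      exact TwsPath_neg M m h k s

end AJM

end

section

/-!
# MP_d3fa71_gt, project Mut, item VA
-/

set_option autoImplicit false

open Filter

namespace AJM

theorem prf_VA (hVSolDrill : VSolDrill) (hLoop : Loop) (hCstTr : CstTr) : VA := by
  intro F _ _ _ w₁ w₂ i N j' j
  by_contra hcon
  push Not at hcon
  have hfr : ∃ᶠ n in atTop, ∃ x y z, VSol F w₁ w₂ i N j' j n x y z ∧ ¬ Cst y := by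
    rw [frequently_atTop]
    intro a
    obtain ⟨n, hn, x, y, z, h1, h2⟩ := hcon a
    exact ⟨n, hn, x, y, z, h1, h2⟩
  obtain ⟨φ, hφ, hP⟩ := extraction_of_frequently_atTop hfr
  choose x y z hS hy using hP
  have hD := fun m => hVSolDrill F w₁ w₂ i N j' j (φ m) (x m) (y m) (z m) (hS m)
  choose M τ a b c hM hτ hx hyb hz hpath using hD
  have hL := hLoop F (emb w₁ ++ dsh i dV ++ emb w₂) M τ 3
    ![fun m => (a m ^ (-(j' : ℤ)), a m), fun m => (b m ^ (-(φ m : ℤ)), b m),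
      fun m => (c m ^ (-(j : ℤ)), c m)] 1 (fun m => -(φ m : ℤ)) (N + 2)
    (fun m m' h => hφ.injective (by simpa using h))
    (fun m => by simpa [List.ofFn_succ] using hpath m)
    (fun m => by
      rcases hτ m with h | h
      · exact ⟨1, by rw [h, map_one, one_mul]⟩
      · exact ⟨-1, by rw [h, map_neg, map_one, neg_one_mul]; rfl⟩)
    (fun l hl => by
      fin_cases l
      · exact Or.inl ⟨-(j' : ℤ), fun m => rfl⟩
      · exact absurd rfl hl
      · exact Or.inl ⟨-(j : ℤ), fun m => rfl⟩)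
    (fun m => rfl)
  obtain ⟨m, hm⟩ := hL.exists
  apply hy m
  rw [hyb m]
  exact (hCstTr F (b m)).2 hm

end AJM

end

section

/-!
# MP_d3fa71_gt, project Mut, block V: the frames when both polynomials vanish
-/

set_option autoImplicit false

namespace AJM

theorem L_VAlg_turn {R : Type} [CommRing R] {k h : G R} {x : Rˣ}
    (hk : dg (-1) * k = h * J * dg x) : k * J = h * dg x⁻¹ := by
  have hee : (dg (-1) * dg (-1) : G R) = 1 := by
    rw [← dg_mul]
    simp
  calc k * J = (dg (-1) * dg (-1)) * k * J := by rw [hee, one_mul]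
    _ = dg (-1) * (dg (-1) * k) * J := by simp only [mul_assoc]
    _ = dg (-1) * (h * J * dg x) * J := by rw [hk]
    _ = dg (-1) * (h * (J * dg x) * J) := by simp only [mul_assoc]
    _ = dg (-1) * (h * (dg x⁻¹ * J) * J) := by rw [J_dg]
    _ = dg (-1) * (h * dg x⁻¹ * (J * J)) := by simp only [mul_assoc]
    _ = dg (-1) * (h * dg x⁻¹ * dg (-1)) := by rw [J_J]
    _ = (dg (-1) * dg (-1)) * (h * dg x⁻¹) := by rw [← dg_neg_comm (h * dg x⁻¹), ← mul_assoc]
    _ = h * dg x⁻¹ := by rw [hee, one_mul]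

/-- moving a diagonal matrix to the other side. -/
theorem L_VAlg_mv {R : Type} [CommRing R] {a h : G R} {x y : Rˣ}
    (hk : a * dg y = h * dg x) : a = h * dg (x * y⁻¹) := by
  rw [dg_mul, dg_inv, ← mul_assoc, ← hk, mul_assoc, mul_inv_cancel, mul_one]

/-- the step with the inverse of the meridian. -/
theorem L_VAlg_self {R : Type} [CommRing R] {M : Rˣ} {A r : G R} (n : ℕ) :
    A * (mer M r)⁻¹ * r * dg (M ^ (n + 1)) = A * r * dg M ^ n := by
  have h : r * dg M = mer M r * r := (mer_self M r).symm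
  rw [pow_succ', dg_mul, dg_pow]
  calc A * (mer M r)⁻¹ * r * (dg M * dg M ^ n) = A * (mer M r)⁻¹ * (r * dg M) * dg M ^ n := by
        simp only [mul_assoc]
    _ = A * (mer M r)⁻¹ * (mer M r * r) * dg M ^ n := by rw [h]
    _ = A * r * dg M ^ n := by
        rw [← mul_assoc (A * (mer M r)⁻¹), mul_assoc A, inv_mul_cancel, mul_one]

theorem prf_VAlg (hOddRel : OddRel) : VAlg := by
  intro F _ M j' j n ha hb ha' hb' τ k r v t₁ t₂ t₃ hM hE h1 h2
  obtain ⟨e1, e2, e3, e4, e5, e6⟩ := hE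
  have htr : ∀ h : G F, tr (mer M h) = (M : F) + ((M⁻¹ : Fˣ) : F) := tr_mer M
  -- the first pair
  obtain ⟨a1, -, a3⟩ := hOddRel F (mer M k) (mer M r) j' (by rw [htr, htr]) h1
  rw [zpow_neg, zpow_natCast] at e1
  obtain ⟨P, hP⟩ : ∃ P : G F, P = ((mer M k * mer M r) ^ j')⁻¹ * (mer M r)⁻¹ := ⟨_, rfl⟩
  rw [← hP] at a1
  have hVhp : Vhp M j' k r = P * k * dg (M ^ j') := by
    rw [Vhp, zpow_neg, zpow_natCast, ← hP, dg_pow]
  have hmer : mer M (Vhp M j' k r) = mer M r := by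
    rw [hVhp, mer_dg, mer_mul, ← a3, hP]
    group
  obtain ⟨ρ, hρ⟩ := (mer_eq_iff hM r (Vhp M j' k r)).1 hmer.symm
  have hw : Vw M j' k r = 1 := by
    rw [Vw, hmer, mer_J, mul_inv_cancel]
  have hVhq : Vhq M j' n k r = r * dg ρ * dg (M ^ n) := by
    rw [Vhq, hw, one_zpow, one_mul, hρ, dg_pow]
  have hVr : Vr M j' n k r = r * J * dg (M ^ n) := by
    rw [Vr, hw, one_zpow, one_mul, dg_pow]
  have hPr : P * r = hb * J * dg (t₁ * (M ^ (j' + 1))⁻¹) := by
    apply L_VAlg_mv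
    rw [hP, L_VAlg_self, e1]
  have hPk : P * k = r * dg (ρ * (M ^ j')⁻¹) := by
    apply L_VAlg_mv
    rw [← hVhp, hρ]
  have hk : dg (-1) * k = hb * J * dg (t₁ * (M ^ (j' + 1))⁻¹ * (ρ * (M ^ j')⁻¹)) := by
    rw [← a1, mul_assoc P P k, hPk, ← mul_assoc P, hPr, mul_assoc (hb * J), ← dg_mul]
  have hkJ := L_VAlg_turn hk
  -- the second pair
  have htr2 : tr (mer M (Vr M j' n k r)) = tr (mer M v) := by rw [htr, htr]
  obtain ⟨b1, -, -⟩ := hOddRel F (mer M (Vr M j' n k r)) (mer M v) j htr2 h2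
  have hW : VW M j' n k r v = mer M (Vr M j' n k r) * mer M v := rfl
  rw [hW, zpow_neg, zpow_natCast] at e2 e3
  obtain ⟨Q, hQ⟩ : ∃ Q : G F, Q = ((mer M (Vr M j' n k r) * mer M v) ^ j)⁻¹ * (mer M v)⁻¹ :=
    ⟨_, rfl⟩
  rw [← hQ] at b1 e3
  have hQv : Q * v = r * J * dg (((ρ * M ^ n)⁻¹ * t₂) * (M ^ (j + 1))⁻¹) := by
    apply L_VAlg_mv
    rw [hQ, L_VAlg_self, e2, hVhq, dg_mul]
    have h3 : dg (ρ * M ^ n) * J = J * dg (ρ * M ^ n)⁻¹ := by
      rw [J_dg, inv_inv]
    rw [mul_assoc r, ← dg_mul, mul_assoc r, h3]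
    simp only [mul_assoc]
  have hQr : Q * (r * J) = ha * J * dg (t₃ * (M ^ (n + j))⁻¹) := by
    apply L_VAlg_mv
    rw [← e3, hVr, pow_add, dg_mul, dg_pow M j]
    simp only [mul_assoc]
  have hv : dg (-1) * v = ha * J * dg (t₃ * (M ^ (n + j))⁻¹ *
      (((ρ * M ^ n)⁻¹ * t₂) * (M ^ (j + 1))⁻¹)) := by
    rw [← b1, mul_assoc Q Q v, hQv, ← mul_assoc Q, hQr, mul_assoc (ha * J), ← dg_mul]
  have hvJ := L_VAlg_turn hv
  refine ⟨_, _, e4.trans hvJ, e5.trans hkJ, ?_⟩
  rw [e6]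
  simp only [mul_inv_rev, inv_inv]
  have h7 : (M ^ (2 * j' + 2 * j + 2 * n + 2) : Fˣ) =
      M ^ (j' + 1) * M ^ j' * M ^ (n + j) * M ^ (j + 1) * M ^ n := by
    rw [← pow_add, ← pow_add, ← pow_add, ← pow_add]
    congr 1
    omega
  rw [h7]
  have c1 : t₁ * t₁⁻¹ = 1 := mul_inv_cancel _
  have c2 : t₂ * t₂⁻¹ = 1 := mul_inv_cancel _
  have c3 : t₃ * t₃⁻¹ = 1 := mul_inv_cancel _
  have c4 : ρ * ρ⁻¹ = 1 := mul_inv_cancel _
  calc _ = (t₁ * t₁⁻¹) * (t₂ * t₂⁻¹) * (t₃ * t₃⁻¹) * (ρ * ρ⁻¹) *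
        (M ^ (j' + 1) * M ^ j' * M ^ (n + j) * M ^ (j + 1) * M ^ n) := by
        ac_rfl
    _ = _ := by rw [c1, c2, c3, c4]; simp

end AJM

end

section

/-!
# MP_d3fa71_gt, project Mut: item VB
-/

namespace AJM

open Filter

theorem L_VB_zpow {F : Type} [Field F] [Algebra ℂ F] (b : Fˣ) (n : ℤ)
    (h : ∃ c : ℂ, (b : F) = algebraMap ℂ F c) :
    ∃ c : ℂ, ((b ^ n : Fˣ) : F) = algebraMap ℂ F c := by
  obtain ⟨c, hc⟩ := h
  refine ⟨c ^ n, ?_⟩
  rw [Units.val_zpow_eq_zpow_val, hc, map_zpow₀]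

theorem L_VB_pm {F : Type} [Field F] [Algebra ℂ F] (M τ : Fˣ) (N : ℤ)
    (h : τ = M ^ N ∨ τ = -M ^ N) :
    ∃ c : ℂ, (τ : F) = algebraMap ℂ F c * ((M ^ N : Fˣ) : F) := by
  rcases h with h | h
  · exact ⟨1, by rw [h]; simp⟩
  · exact ⟨-1, by rw [h]; simp⟩

theorem prf_VB (hVSolDrill : VSolDrill) (hLoop : Loop) (hCstTr : CstTr) : VB := by
  intro F _ _ _ w₁ w₂ i N j'
  by_contra hcon
  have hfr : ∃ᶠ j : ℕ in atTop, ∃ n x y z, VSol F w₁ w₂ i N j' j n x y z ∧ Cst y ∧ ¬ Cst z := by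
    rw [frequently_atTop]
    intro b
    by_contra h
    apply hcon
    refine ⟨b, fun j hj n x y z hs hy => ?_⟩
    by_contra hz
    exact h ⟨j, hj, n, x, y, z, hs, hy, hz⟩
  obtain ⟨φ, hφ, hP⟩ := extraction_of_frequently_atTop hfr
  choose n x y z hs hy hz using hP
  have hd := fun k => hVSolDrill F w₁ w₂ i N j' (φ k) (n k) (x k) (y k) (z k) (hs k)
  choose M τ a b c hM hτ hx hy' hz' hpath using hd
  have hb : ∀ k, ∃ e : ℂ, (b k : F) = algebraMap ℂ F e := by
    intro k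
    apply (hCstTr F (b k)).1
    rw [← hy' k]
    exact hy k
  have hL := hLoop F (emb w₁ ++ dsh i dV ++ emb w₂) M τ 3
    ![fun k => (a k ^ (-(j' : ℤ)), a k), fun k => (b k ^ (-(n k : ℤ)), b k),
      fun k => (c k ^ (-(φ k : ℤ)), c k)] 2 (fun k => -(φ k : ℤ)) (N + 2)
    (by
      intro k l hkl
      have : (φ k : ℤ) = φ l := neg_injective hkl
      exact hφ.injective (by exact_mod_cast this))
    (by
      intro k
      have := hpath k
      simpa [List.ofFn_succ] using this)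
    (fun k => L_VB_pm (M k) (τ k) (N + 2) (hτ k))
    (by
      intro l hl
      fin_cases l
      · left
        exact ⟨-(j' : ℤ), fun k => rfl⟩
      · right
        intro k
        exact ⟨L_VB_zpow (b k) _ (hb k), hb k⟩
      · exact absurd rfl hl)
    (fun k => rfl)
  obtain ⟨k, hk⟩ := hL.exists
  apply hz k
  rw [hz' k]
  exact (hCstTr F (c k)).2 hk

end AJM

end

section

/-!
# MP_d3fa71_gt, project Mut: item VC
-/

open Filter

namespace AJM

/-- integral powers of constants are constants. -/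
theorem L_VC_zpow {F : Type} [Field F] [Algebra ℂ F] {ω : Fˣ} (n : ℤ) (h : Cst (ω : F)) :
    ∃ c : ℂ, ((ω ^ n : Fˣ) : F) = algebraMap ℂ F c := by
  obtain ⟨c, hc⟩ := h
  refine ⟨c ^ n, ?_⟩
  rw [Units.val_zpow_eq_zpow_val, hc, map_zpow₀]

/-- the sign. -/
theorem L_VC_sign {F : Type} [Field F] [Algebra ℂ F] {τ M : Fˣ} {N : ℤ}
    (h : τ = M ^ N ∨ τ = -M ^ N) :
    ∃ c : ℂ, (τ : F) = algebraMap ℂ F c * ((M ^ N : Fˣ) : F) := by
  rcases h with rfl | rfl
  · exact ⟨1, by rw [map_one, one_mul]⟩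
  · exact ⟨-1, by rw [map_neg, map_one, Units.val_neg, neg_one_mul]⟩

theorem prf_VC (hVSolDrill : VSolDrill) (hLoop : Loop) (hCstTr : CstTr) : VC := by
  intro F _ _ _ w₁ w₂ i N
  by_contra hcon
  simp only [not_exists, not_forall] at hcon
  have hfr : ∃ᶠ j' in (atTop : Filter ℕ), ∃ (j n : ℕ) (x y z : F),
      VSol F w₁ w₂ i N j' j n x y z ∧ Cst y ∧ Cst z ∧ ¬ Cst x := by
    rw [frequently_atTop]
    intro b
    obtain ⟨j', hj', j, n, x, y, z, h1, h2, h3, h4⟩ := hcon b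
    exact ⟨j', hj', j, n, x, y, z, h1, h2, h3, h4⟩
  obtain ⟨φ, hφ, hP⟩ := extraction_of_frequently_atTop hfr
  choose j n x y z hS hy hz hx using hP
  have hD := fun t => hVSolDrill F w₁ w₂ i N (φ t) (j t) (n t) (x t) (y t) (z t) (hS t)
  choose M τ a b c hM hτ hxa hyb hzc hDP using hD
  have hb : ∀ t, Cst (b t : F) := fun t => (hCstTr F (b t)).1 (by rw [← hyb t]; exact hy t)
  have hc : ∀ t, Cst (c t : F) := fun t => (hCstTr F (c t)).1 (by rw [← hzc t]; exact hz t)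
  have ha : ∀ t, ¬ Cst (a t : F) := fun t h => hx t (by
    rw [hxa t]
    exact (hCstTr F (a t)).2 h)
  have key := hLoop F (emb w₁ ++ dsh i dV ++ emb w₂) M τ 3
    ![fun t => ((a t) ^ (-(φ t : ℤ)), a t), fun t => ((b t) ^ (-(n t : ℤ)), b t),
      fun t => ((c t) ^ (-(j t : ℤ)), c t)] 0 (fun t => -(φ t : ℤ)) (N + 2) ?_ ?_ ?_ ?_ ?_
  · obtain ⟨t, d, hd⟩ := key.exists
    exact ha t ⟨d, hd⟩
  · intro s t hst
    have h1 : (φ s : ℤ) = φ t := neg_injective hst
    exact hφ.injective (by exact_mod_cast h1)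
  · intro t
    have h1 : (List.ofFn fun l : Fin 3 =>
        (![fun t => ((a t) ^ (-(φ t : ℤ)), a t), fun t => ((b t) ^ (-(n t : ℤ)), b t),
      fun t => ((c t) ^ (-(j t : ℤ)), c t)] : Fin 3 → ℕ → Fˣ × Fˣ) l t) =
        [((a t) ^ (-(φ t : ℤ)), a t), ((b t) ^ (-(n t : ℤ)), b t),
          ((c t) ^ (-(j t : ℤ)), c t)] := by
      simp [List.ofFn_succ]
    rw [h1]
    exact hDP t
  · intro t
    exact L_VC_sign (hτ t)
  · intro l hl
    right
    intro t
    fin_cases l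
    · exact absurd rfl hl
    · exact ⟨L_VC_zpow _ (hb t), hb t⟩
    · exact ⟨L_VC_zpow _ (hc t), hc t⟩
  · intro t
    rfl

end AJM

end

end

section

/-! Bundle of small proof modules (one section per former module). -/

section

/-!
# MP_d3fa71_gt, project Mut, item VConst: if the three traces are constants, the gadget acts
trivially
-/

namespace AJM

section
variable {F : Type} [Field F] [Algebra ℂ F]

theorem L_VConst_add {x y : F} (hx : Cst x) (hy : Cst y) : Cst (x + y) := by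
  obtain ⟨a, rfl⟩ := hx
  obtain ⟨b, rfl⟩ := hy
  exact ⟨a + b, by rw [map_add]⟩

theorem L_VConst_sub {x y : F} (hx : Cst x) (hy : Cst y) : Cst (x - y) := by
  obtain ⟨a, rfl⟩ := hx
  obtain ⟨b, rfl⟩ := hy
  exact ⟨a - b, by rw [map_sub]⟩

theorem L_VConst_mul {x y : F} (hx : Cst x) (hy : Cst y) : Cst (x * y) := by
  obtain ⟨a, rfl⟩ := hx
  obtain ⟨b, rfl⟩ := hy
  exact ⟨a * b, by rw [map_mul]⟩

theorem L_VConst_div {x y : F} (hx : Cst x) (hy : Cst y) : Cst (x / y) := by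
  obtain ⟨a, rfl⟩ := hx
  obtain ⟨b, rfl⟩ := hy
  exact ⟨a / b, by rw [map_div₀]⟩

theorem L_VConst_one : Cst (1 : F) := ⟨1, (map_one (algebraMap ℂ F)).symm⟩

theorem L_VConst_two : Cst (2 : F) := ⟨2, (map_ofNat (algebraMap ℂ F) 2).symm⟩

theorem L_VConst_Ep {Y : F} (hY : Cst Y) : ∀ n : ℕ, Cst (Ep n Y) ∧ Cst (Ep (n + 1) Y)
  | 0 => ⟨L_VConst_one, L_VConst_sub hY L_VConst_one⟩
  | (n + 1) => by
      obtain ⟨h1, h2⟩ := L_VConst_Ep hY n
      exact ⟨h2, L_VConst_sub (L_VConst_mul hY h2) h1⟩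

theorem L_VConst_trans {M : Fˣ} (hM : Transcendental ℂ (M : F))
    (h : Cst (((M : F) + ((M⁻¹ : Fˣ) : F)) ^ 2)) : False := by
  obtain ⟨c, hc⟩ := h
  apply hM
  have h1 : (M : F) * ((M⁻¹ : Fˣ) : F) = 1 := by simp
  have h2 : (M : F) ^ 4 + (2 - algebraMap ℂ F c) * (M : F) ^ 2 + 1 = 0 := by
    rw [← hc]
    set x := (M : F)
    set y := ((M⁻¹ : Fˣ) : F)
    linear_combination (-(2 * x ^ 2) - (x * y + 1)) * h1
  refine ⟨Polynomial.X ^ 4 + Polynomial.C (2 - c) * Polynomial.X ^ 2 + 1, ?_, ?_⟩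
  · intro h0
    have := congrArg (fun p : Polynomial ℂ => p.coeff 0) h0
    simp [Polynomial.coeff_X_pow, Polynomial.coeff_one] at this
  · simp only [map_add, map_mul, map_pow, Polynomial.aeval_X, Polynomial.aeval_C, map_one, map_sub]
    rw [← h2, map_ofNat]

theorem L_VConst_zero {M : Fˣ} (hM : Transcendental ℂ (M : F)) {y e Y : F} (hy : Cst y)
    (he : Cst e) (hY : Cst Y)
    (h : y = 2 + e ^ 2 * (((M : F) + ((M⁻¹ : Fˣ) : F)) ^ 2 - 2 - Y)) : e = 0 := by
  by_contra h0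
  apply L_VConst_trans hM
  have : ((M : F) + ((M⁻¹ : Fˣ) : F)) ^ 2 = (y - 2) / (e * e) + 2 + Y := by
    rw [h]
    field_simp
    ring
  rw [this]
  exact L_VConst_add (L_VConst_add (L_VConst_div (L_VConst_sub hy L_VConst_two)
    (L_VConst_mul he he)) L_VConst_two) hY

theorem L_VConst_sq {M : Fˣ} (hM : Transcendental ℂ (M : F)) : (M : F) ^ 2 ≠ 1 := by
  intro h
  apply hM
  refine ⟨Polynomial.X ^ 2 - 1, ?_, ?_⟩
  · intro h0
    have := congrArg (fun p : Polynomial ℂ => p.coeff 0) h0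
    simp [Polynomial.coeff_X_pow, Polynomial.coeff_one] at this
  · simp [h]

end

theorem prf_VConst (hVTrace : VTrace) (hVAlg : VAlg) : VConst := by
  intro F _ _ M j' j n ha hb ha' hb' τ k r v t₁ t₂ t₃ hM hE h1 h2 h3
  obtain ⟨e1, e2⟩ := hVTrace F M j' j n ha hb ha' hb' τ k r v t₁ t₂ t₃ hE
  exact hVAlg F M j' j n ha hb ha' hb' τ k r v t₁ t₂ t₃ (L_VConst_sq hM) hE
    (L_VConst_zero hM h2 (L_VConst_Ep h1 j').1 h1 e1)
    (L_VConst_zero hM h2 (L_VConst_Ep h3 j).1 h3 e2)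

end AJM

end

section

/-!
# MP_d3fa71_gt, project Mut, block V, item VDrill
-/

namespace AJM

theorem L_VDrill_cap {R : Type} [CommRing R] (M : Rˣ) (h g : G R) (τ : Rˣ) (s : List (G R))
    (e : g = h * J * dg τ) : DStep M (.mv .cap, 0) (h :: g :: s) s τ [] := by
  subst e
  exact DStep.cap h τ s

theorem L_VDrill_tw {F : Type} [Field F] (hEigPow : EigPow) (M : Fˣ) (h k W : G F)
    (s : List (G F)) (he : mer M h * mer M k = W) (n : ℤ) (ω : Fˣ) (v u : Fin 2 → F)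
    (hw : Matrix.mulVec W.1 v = (ω : F) • v) (hv : u 0 * v 0 + u 1 * v 1 = 1) :
    DStep M (.tw, 0) (h :: k :: s) (W ^ n * h :: W ^ n * k :: s) 1 [(ω ^ n, ω)] := by
  subst he
  refine DStep.tw _ h k s (ω ^ n) ω v u ?_ (hEigPow F _ ω v n hw) hw hv
  exact (Commute.refl _).zpow_left n

theorem L_VDrill_mer {R : Type} [CommRing R] (M : Rˣ) (r k : G R) :
    mer M r * mer M ((mer M r)⁻¹ * k) = mer M k * mer M r := by
  rw [mer_mul]; group

/-- Cancel a diagonal factor. -/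
theorem L_VDrill_diag {R : Type} [CommRing R] (x y : G R) (u : Rˣ) (h : x * dg u = y) :
    x = y * dg u⁻¹ := by
  rw [← h, mul_assoc, ← dg_mul, mul_inv_cancel, dg_one, mul_one]

theorem prf_VDrill (hEigEx : EigEx) (hEigPow : EigPow) : VDrill := by
  intro F _ _ M j' j n ha hb ha' hb' τ k r v t₁ t₂ t₃ hV
  obtain ⟨e1, e2, e3, rfl, rfl, rfl⟩ := hV
  obtain ⟨x, v1, u1, hx, hx1, hxt⟩ := hEigEx F (mer M k * mer M r)
  obtain ⟨y, v2, u2, hy, hy1, hyt⟩ := hEigEx F (Vw M j' k r)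
  obtain ⟨z, v3, u3, hz, hz1, hzt⟩ := hEigEx F (VW M j' n k r v)
  refine ⟨x, y, z, hxt, hyt, hzt, ?_⟩
  -- the frames
  rw [← dg_pow] at e1 e2 e3
  set W := mer M k * mer M r with hW
  have f1 : W ^ (-(j' : ℤ)) * r = hb * J * dg (t₁ * (M ^ j')⁻¹) := by
    rw [L_VDrill_diag _ _ _ e1, dg_mul]; group
  have f2 : W ^ (-(j' : ℤ)) * ((mer M r)⁻¹ * k) = Vhp M j' k r * dg (M ^ j')⁻¹ := by
    apply L_VDrill_diag
    unfold Vhp
    rw [← dg_pow, ← hW]; group
  have f3 : Vw M j' k r ^ (-(n : ℤ)) * (Vhp M j' k r * dg (M ^ j')⁻¹) =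
      Vhq M j' n k r * dg ((M ^ (n + j'))⁻¹) := by
    apply L_VDrill_diag
    unfold Vhq
    rw [← dg_pow, mul_assoc, mul_assoc, ← dg_mul, mul_assoc]
    congr 3
    rw [pow_add]; group
  have f4 : Vw M j' k r ^ (-(n : ℤ)) * (r * J) = Vr M j' n k r * dg ((M ^ n)⁻¹) := by
    apply L_VDrill_diag
    unfold Vr
    rw [← dg_pow]
  have f5 : VW M j' n k r v ^ (-(j : ℤ)) * v =
      (Vhq M j' n k r * dg ((M ^ (n + j'))⁻¹)) * J * dg (t₂ * (M ^ j)⁻¹ * (M ^ (n + j'))⁻¹) := by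
    rw [L_VDrill_diag _ _ _ e2, mul_assoc (Vhq M j' n k r) (dg ((M ^ (n + j'))⁻¹)) J,
      ← inv_inv (dg ((M ^ (n + j'))⁻¹) * J)]
    have hJ : dg ((M ^ (n + j'))⁻¹) * J = J * dg (M ^ (n + j')) := by
      rw [J_dg]
    rw [inv_inv, hJ, mul_assoc _ (J * _) (dg _), mul_assoc J, ← dg_mul, mul_assoc, mul_assoc,
      ← dg_mul]
    congr 3
    rw [mul_comm (M ^ (n + j')), mul_assoc (t₂ * (M ^ j)⁻¹), inv_mul_cancel, mul_one]
  have f6 : VW M j' n k r v ^ (-(j : ℤ)) * ((mer M v)⁻¹ * (Vr M j' n k r * dg ((M ^ n)⁻¹))) =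
      ha * J * dg (t₃ * (M ^ j)⁻¹ * (M ^ n)⁻¹) := by
    have := L_VDrill_diag _ _ _ e3
    rw [← mul_assoc, ← mul_assoc, this, mul_assoc (ha * J * dg t₃), ← dg_mul, mul_assoc (ha * J),
      ← dg_mul, mul_assoc t₃]
  -- the path
  have P : DPath M dV [ha, hb] [v * J, k * J]
      (1 * (1 * (1 * (1 * ((t₁ * (M ^ j')⁻¹) * (1 * (1 * (1 * (1 *
        ((t₂ * (M ^ j)⁻¹ * (M ^ (n + j'))⁻¹) * ((t₃ * (M ^ j)⁻¹ * (M ^ n)⁻¹) * 1)))))))))))
      [(x ^ (-(j' : ℤ)), x), (y ^ (-(n : ℤ)), y), (z ^ (-(j : ℤ)), z)] := by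
    refine DPath.cons (Θ := []) (DStep.sh ha (DStep.sh hb (DStep.cup k []))) ?_
    refine DPath.cons (Θ := []) (DStep.sh ha (DStep.sh hb (DStep.sh k (DStep.cup r [k * J])))) ?_
    refine DPath.cons (Θ := []) (DStep.sh ha (DStep.sh hb (DStep.pos k r [r * J, k * J]))) ?_
    refine DPath.cons (Θ := [(x ^ (-(j' : ℤ)), x)]) (DStep.sh ha (DStep.sh hb
      (L_VDrill_tw hEigPow M r ((mer M r)⁻¹ * k) W [r * J, k * J] (L_VDrill_mer M r k)
        (-(j' : ℤ)) x v1 u1 hx hx1))) ?_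
    refine DPath.cons (Θ := []) (DStep.sh ha (L_VDrill_cap M hb _ (t₁ * (M ^ j')⁻¹) _ f1)) ?_
    rw [f2]
    refine DPath.cons (Θ := [(y ^ (-(n : ℤ)), y)]) (DStep.sh ha
      (L_VDrill_tw hEigPow M (Vhp M j' k r * dg (M ^ j')⁻¹) (r * J) (Vw M j' k r) [k * J]
        (by rw [mer_dg]; rfl) (-(n : ℤ)) y v2 u2 hy hy1)) ?_
    rw [f3, f4]
    refine DPath.cons (Θ := []) (DStep.sh ha (DStep.sh _ (DStep.sh _ (DStep.cup v [k * J])))) ?_
    refine DPath.cons (Θ := []) (DStep.sh ha (DStep.sh _ (DStep.pos _ v [v * J, k * J]))) ?_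
    refine DPath.cons (Θ := [(z ^ (-(j : ℤ)), z)]) (DStep.sh ha (DStep.sh _
      (L_VDrill_tw hEigPow M v ((mer M v)⁻¹ * (Vr M j' n k r * dg ((M ^ n)⁻¹)))
        (VW M j' n k r v) [v * J, k * J] (by rw [L_VDrill_mer, mer_dg]; rfl)
        (-(j : ℤ)) z v3 u3 hz hz1))) ?_
    refine DPath.cons (Θ := []) (DStep.sh ha (L_VDrill_cap M _ _ _ _ f5)) ?_
    refine DPath.cons (Θ := []) (L_VDrill_cap M _ _ _ _ f6) ?_
    exact DPath.nil _
  have hτ : (1 * (1 * (1 * (1 * ((t₁ * (M ^ j')⁻¹) * (1 * (1 * (1 * (1 *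
        ((t₂ * (M ^ j)⁻¹ * (M ^ (n + j'))⁻¹) * ((t₃ * (M ^ j)⁻¹ * (M ^ n)⁻¹) * 1))))))))))) =
      t₁ * t₂ * t₃ * (M ^ (2 * j' + 2 * j + 2 * n))⁻¹ := by
    simp only [one_mul, mul_one, pow_add, two_mul, mul_inv_rev]
    simp only [mul_assoc, mul_comm, mul_left_comm]
  rw [← hτ]
  exact P

end AJM

end

section

/-! MP_d3fa71_gt, project Mut, block V, item VInv: inversion of the gadget. -/

namespace AJM

/-- The rotated odd twist. -/
theorem L_VInv_rot (hRotInv : RotInv) (hTwsOdd : TwsOdd) (hWidTwo : WidTwo)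
    (R : Type) [CommRing R] (M : Rˣ) (j : ℕ) (ha hb ha' hb' : G R) (τ : Rˣ) :
    Path M (rot (tws (2 * (j : ℤ) + 1))) [ha, hb] [ha', hb'] τ ↔ ∃ r : G R,
      ha * J * dg τ = (mer M hb * mer M r) ^ (-(j : ℤ)) * r * dg M ^ j ∧
      ha' = (mer M hb * mer M r) ^ (-(j : ℤ)) * (mer M r)⁻¹ * hb * dg M ^ j ∧ hb' = r * J := by
  rw [hRotInv R M _ ha hb ha' hb' τ (hWidTwo.1 _)]
  constructor
  · rintro ⟨r, τ', τ'', h1, h2, h3⟩
    rw [hTwsOdd] at h1
    obtain ⟨h4, h5⟩ := h1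
    rw [List.cons.injEq, List.cons.injEq] at h5
    rw [h4, one_mul] at h3
    rw [h3]
    exact ⟨r, h5.1, h5.2.1, h2⟩
  · rintro ⟨r, h1, h2, h3⟩
    refine ⟨r, 1, τ, ?_, h3, (one_mul τ).symm⟩
    rw [hTwsOdd]
    exact ⟨rfl, by rw [h1, h2]⟩

/-- The middle twist. -/
theorem L_VInv_mid (hTwsEven : TwsEven) (R : Type) [CommRing R] (M : Rˣ) (n : ℕ)
    (h k x y : G R) (τ : Rˣ) :
    Path M (tws (2 * (n : ℤ))) [h, k] [x, y] τ ↔ τ = 1 ∧
      x = (mer M h * mer M k) ^ (-(n : ℤ)) * h * dg M ^ n ∧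
      y = (mer M h * mer M k) ^ (-(n : ℤ)) * k * dg M ^ n := by
  rw [hTwsEven, List.cons.injEq, List.cons.injEq, zpow_natCast]
  simp only [and_true]

theorem prf_VInv (hRotInv : RotInv) (hTwoAppend : TwoAppend) (hTwsEven : TwsEven)
    (hTwsOdd : TwsOdd) (hWidTwo : WidTwo) : VInv := by
  intro R _ M j' j n ha hb ha' hb' τ
  obtain ⟨hw1, hw2, hw3, _, _⟩ := hWidTwo
  have hA : wid (rot (tws (2 * (j' : ℤ) + 1))) 2 = some 2 := (hw2 _ (hw1 _)).1
  have hB : wid (rot (tws (2 * (j : ℤ) + 1))) 2 = some 2 := (hw2 _ (hw1 _)).1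
  have hT : wid (tws (2 * (n : ℤ))) 2 = some 2 := hw1 _
  have hAT := hw3 _ _ hA hT
  have hATB := hw3 _ _ hAT hB
  have hWT : WidTwo := ⟨hw1, hw2, hw3, by assumption, by assumption⟩
  unfold Vg
  rw [hRotInv R M _ ha hb ha' hb' τ hATB]
  constructor
  · rintro ⟨k, τ', t₃, h1, h2, h3⟩
    rw [hTwoAppend R M _ _ _ _ _ _ _ hAT hB] at h1
    obtain ⟨x, y, τ₁, τ₂, h4, h5, h6⟩ := h1
    rw [hTwoAppend R M _ _ _ _ _ _ _ hA hT] at h4
    obtain ⟨x₁, y₁, σ₁, σ₂, h7, h8, h9⟩ := h4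
    rw [L_VInv_rot hRotInv hTwsOdd hWT] at h7 h5
    rw [L_VInv_mid hTwsEven] at h8
    obtain ⟨r, a1, a2, a3⟩ := h7
    obtain ⟨b1, b2, b3⟩ := h8
    obtain ⟨v, c1, c2, c3⟩ := h5
    have e1 : x₁ = Vhp M j' k r := a2
    have e2 : x = Vhq M j' n k r := by
      rw [b2, e1, a3]
      rfl
    have e3 : y = Vr M j' n k r := by
      rw [b3, e1, a3]
      rfl
    rw [e2, e3] at c1
    rw [e3] at c2
    refine ⟨k, r, v, σ₁, τ₂, t₃, a1.symm, c1.symm, c2.symm, c3, h2, ?_⟩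
    rw [h3, h6, h9, b1, mul_one]
  · rintro ⟨k, r, v, t₁, t₂, t₃, a1, a2, a3, a4, a5, a6⟩
    refine ⟨k, t₁ * t₂, t₃, ?_, a5, a6⟩
    rw [hTwoAppend R M _ _ _ _ _ _ _ hAT hB]
    refine ⟨Vhq M j' n k r, Vr M j' n k r, t₁, t₂, ?_, ?_, rfl⟩
    · rw [hTwoAppend R M _ _ _ _ _ _ _ hA hT]
      refine ⟨Vhp M j' k r, r * J, t₁, 1, ?_, ?_, (mul_one t₁).symm⟩
      · rw [L_VInv_rot hRotInv hTwsOdd hWT]
        exact ⟨r, a1.symm, rfl, rfl⟩
      · rw [L_VInv_mid hTwsEven]
        exact ⟨rfl, rfl, rfl⟩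
    · rw [L_VInv_rot hRotInv hTwsOdd hWT]
      exact ⟨v, a2.symm, a3.symm, a4⟩

end AJM

end

section

/-!
# MP_d3fa71_gt, project Mut, block V, item VSolConst
-/

set_option autoImplicit false

namespace AJM

theorem L_VSolConst_ones {R : Type} [CommRing R] (s : List (G R)) :
    scl s (List.replicate s.length 1) = s := by
  induction s with
  | nil => rfl
  | cons h s ih =>
    rw [List.length_cons, List.replicate_succ]
    show h * dg 1 :: scl s (List.replicate s.length 1) = h :: s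
    rw [ih, dg_one, mul_one]

theorem L_VSolConst_scl {R : Type} [CommRing R] (p s : List (G R)) (ha hb : G R) (α β : Rˣ) :
    scl (p ++ ha * dg α :: hb * dg β :: s)
      (List.replicate p.length 1 ++ α⁻¹ :: β⁻¹ :: List.replicate s.length 1) =
      p ++ ha :: hb :: s := by
  induction p with
  | nil =>
    show ha * dg α * dg α⁻¹ :: hb * dg β * dg β⁻¹ :: scl s (List.replicate s.length 1) =
      ha :: hb :: s
    rw [L_VSolConst_ones, mul_assoc ha, mul_assoc hb, ← dg_mul, ← dg_mul, mul_inv_cancel,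
      mul_inv_cancel, dg_one, mul_one, mul_one]
  | cons h p ih =>
    rw [List.length_cons, List.replicate_succ]
    show h * dg 1 :: scl (p ++ ha * dg α :: hb * dg β :: s)
      (List.replicate p.length 1 ++ α⁻¹ :: β⁻¹ :: List.replicate s.length 1) =
      h :: (p ++ ha :: hb :: s)
    rw [ih, dg_one, mul_one]

theorem L_VSolConst_aux {A : Type} [CommGroup A] (M τ₁ τ₂ τ τ' α β c : A) (N : ℤ) (Q : ℕ)
    (h1 : τ₁ * τ * τ₂ = c * M ^ (N + Q)) (h2 : τ * α * β = M ^ Q)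
    (h3 : τ' = τ₂ * (α⁻¹ * β⁻¹)) : τ₁ * τ' = c * M ^ N := by
  have h4 : τ = M ^ Q * (α⁻¹ * β⁻¹) := by
    rw [← h2, mul_comm α⁻¹, ← mul_assoc, mul_inv_cancel_right, mul_inv_cancel_right]
  rw [h3]
  rw [h4, zpow_add, zpow_natCast] at h1
  have h5 : τ₁ * (τ₂ * (α⁻¹ * β⁻¹)) * M ^ Q = c * M ^ N * M ^ Q := by
    rw [mul_assoc c, ← h1]
    simp only [mul_comm, mul_left_comm]
  exact mul_right_cancel h5

theorem prf_VSolConst (hVConst : VConst) (hPathScale : PathScale) (hPathAppend : PathAppend) :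
    VSolConst := by
  intro F _ _ w₁ w₂ i N j' j n x y z h hx hy hz
  obtain ⟨M, τ₁, τ₂, τ, t₁, t₂, t₃, p, s, ha, hb, ha', hb', k, r, v, hM, hτ, hp, h1, hV, h2,
    ex, ey, ez⟩ := h
  rw [ex] at hx
  rw [ey] at hy
  rw [ez] at hz
  obtain ⟨α, β, e1, e2, e3⟩ := hVConst F M j' j n ha hb ha' hb' τ k r v t₁ t₂ t₃ hM hV hx hy hz
  subst e1 e2
  obtain ⟨d', τ', hd', h4, h5⟩ := hPathScale F M w₂ _ _ τ₂
    (List.replicate p.length 1 ++ α⁻¹ :: β⁻¹ :: List.replicate s.length 1) h2 (by simp)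
  have hd0 : d' = [] := by
    rw [List.length_nil] at hd'
    exact List.length_eq_zero_iff.1 hd'
  subst hd0
  rw [L_VSolConst_scl] at h4
  have h6 : τ' = τ₂ * (α⁻¹ * β⁻¹) := by simpa using h5
  refine ⟨M, hM, τ₁ * τ', ?_, ?_⟩
  · have eN : (N + 2 * j' + 2 * j + 2 * n + 2 : ℤ) =
        N + ((2 * j' + 2 * j + 2 * n + 2 : ℕ) : ℤ) := by
      push_cast
      ring
    rw [eN] at hτ
    rcases hτ with hτ | hτ
    · left
      have := L_VSolConst_aux M τ₁ τ₂ τ τ' α β 1 N _ (by rw [hτ, one_mul]) e3 h6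
      rw [this, one_mul]
    · right
      have := L_VSolConst_aux M τ₁ τ₂ τ τ' α β (-1) N _ (by rw [hτ, neg_one_mul]) e3 h6
      rw [this, neg_one_mul]
  · exact (hPathAppend F M w₁ w₂ [] [] (τ₁ * τ')).2 ⟨_, τ₁, τ', h1, h4, rfl⟩

end AJM

end

section

/-!
# MP_d3fa71_gt, project Mut, item VSolDrill
-/

namespace AJM

theorem L_VSolDrill_pow {F : Type} [Field F] (M τ₁ τ τ₂ : Fˣ) (N : ℤ) (j' j n : ℕ)
    (h : τ₁ * τ * τ₂ = M ^ (N + 2 * j' + 2 * j + 2 * n + 2)) :
    τ₁ * (τ * (M ^ (2 * j' + 2 * j + 2 * n))⁻¹) * τ₂ = M ^ (N + 2) := by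
  have e : (M ^ (2 * j' + 2 * j + 2 * n) : Fˣ) = M ^ (2 * (j' : ℤ) + 2 * j + 2 * n) := by
    rw [← zpow_natCast]; push_cast; rfl
  have h2 : τ₁ * (τ * (M ^ (2 * j' + 2 * j + 2 * n))⁻¹) * τ₂ =
      τ₁ * τ * τ₂ * (M ^ (2 * j' + 2 * j + 2 * n))⁻¹ := by
    rw [← mul_assoc, mul_right_comm]
  rw [h2, h, e, ← zpow_neg, ← zpow_add]
  congr 1
  ring

theorem L_VSolDrill_pow' {F : Type} [Field F] (M τ₁ τ τ₂ : Fˣ) (N : ℤ) (j' j n : ℕ)
    (h : τ₁ * τ * τ₂ = -M ^ (N + 2 * j' + 2 * j + 2 * n + 2)) :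
    τ₁ * (τ * (M ^ (2 * j' + 2 * j + 2 * n))⁻¹) * τ₂ = -M ^ (N + 2) := by
  have h1 : (-τ₁) * τ * τ₂ = M ^ (N + 2 * j' + 2 * j + 2 * n + 2) := by
    rw [neg_mul, neg_mul, h, neg_neg]
  have h2 := L_VSolDrill_pow M (-τ₁) τ τ₂ N j' j n h1
  rw [neg_mul, neg_mul] at h2
  rw [← h2, neg_neg]

theorem prf_VSolDrill (hVDrill : VDrill) (hPathEmb : PathEmb) (hDPathAppend : DPathAppend)
    (hDPathShift : DPathShift) (hDPathRight : DPathRight) : VSolDrill := by
  intro F _ _ _ w₁ w₂ i N j' j n x y z h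
  obtain ⟨M, τ₁, τ₂, τ, t₁, t₂, t₃, p, s, ha, hb, ha', hb', k, r, v, hM, hτ, hp, h1, hV, h2,
    hx, hy, hz⟩ := h
  obtain ⟨a, b, c, ha1, hb1, hc1, hD⟩ := hVDrill F M j' j n ha hb ha' hb' τ k r v t₁ t₂ t₃ hV
  refine ⟨M, τ₁ * (τ * (M ^ (2 * j' + 2 * j + 2 * n))⁻¹) * τ₂, a, b, c, hM, ?_, hx.trans ha1,
    hy.trans hb1, hz.trans hc1, ?_⟩
  · rcases hτ with hτ | hτ
    · exact Or.inl (L_VSolDrill_pow M τ₁ τ τ₂ N j' j n hτ)
    · exact Or.inr (L_VSolDrill_pow' M τ₁ τ τ₂ N j' j n hτ)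
  · have e1 := (hPathEmb F M w₁ [] (p ++ ha :: hb :: s) τ₁).1 h1
    have e2 := (hPathEmb F M w₂ (p ++ ha' :: hb' :: s) [] τ₂).1 h2
    have e3 := hDPathRight F M dV [ha, hb] [ha', hb'] s _ _ hD
    have e4 := hDPathShift F M dV p _ _ _ _ e3
    rw [hp] at e4
    have e4' : DPath M (dsh i dV) (p ++ ha :: hb :: s) (p ++ ha' :: hb' :: s)
      (τ * (M ^ (2 * j' + 2 * j + 2 * n))⁻¹)
      [(a ^ (-(j' : ℤ)), a), (b ^ (-(n : ℤ)), b), (c ^ (-(j : ℤ)), c)] := e4
    refine (hDPathAppend F M (emb w₁ ++ dsh i dV) (emb w₂) [] [] _ _).2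
      ⟨p ++ ha' :: hb' :: s, τ₁ * (τ * (M ^ (2 * j' + 2 * j + 2 * n))⁻¹), τ₂,
        [(a ^ (-(j' : ℤ)), a), (b ^ (-(n : ℤ)), b), (c ^ (-(j : ℤ)), c)], [], ?_, e2, rfl, by simp⟩
    exact (hDPathAppend F M (emb w₁) (dsh i dV) [] _ _ _).2
      ⟨p ++ ha :: hb :: s, τ₁, τ * (M ^ (2 * j' + 2 * j + 2 * n))⁻¹, [],
        [(a ^ (-(j' : ℤ)), a), (b ^ (-(n : ℤ)), b), (c ^ (-(j : ℤ)), c)], e1, e4', rfl, by simp⟩

end AJM

end

section

/-!
# MP_d3fa71_gt, project Mut, item VSolOf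
-/

set_option autoImplicit false

namespace AJM

theorem L_VSolOf_ne (j' j n : ℕ) : Vg j' j n ≠ [] := by
  unfold Vg rot
  simp

theorem L_VSolOf_sh {R : Type} [CommRing R] {M : Rˣ} {m : Mv} {s s₁ : List (G R)} {τ : Rˣ}
    (h : Step M m s s₁ τ) : ∀ (kd : Kd) (i : ℕ), m = (kd, i + 1) →
    ∃ x s' s₁', s = x :: s' ∧ s₁ = x :: s₁' ∧ Step M (kd, i) s' s₁' τ := by
  cases h with
  | cup h s => intro kd i e; simp at e
  | cap h τ s => intro kd i e; simp at e
  | pos h k s => intro kd i e; simp at e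
  | neg h k s => intro kd i e; simp at e
  | sh x hs =>
    intro kd i e
    simp only [Prod.mk.injEq, Nat.add_right_cancel_iff] at e
    obtain ⟨rfl, rfl⟩ := e
    exact ⟨x, _, _, rfl, rfl, hs⟩

theorem L_VSolOf_two {R : Type} [CommRing R] {M : Rˣ} {w : List Mv} {s s₁ : List (G R)} {τ : Rˣ}
    (h : Path M (rot w) s s₁ τ) : ∃ a b t, s = a :: b :: t := by
  unfold rot at h
  cases h with
  | cons hs hw =>
    obtain ⟨a, s', t', rfl, _, h1⟩ := L_VSolOf_sh hs .cup 1 rfl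
    obtain ⟨b, s'', t'', rfl, _, _⟩ := L_VSolOf_sh h1 .cup 0 rfl
    exact ⟨a, b, s'', rfl⟩

theorem prf_VSolOf (hPathAppend : PathAppend) (hShiftSplit : ShiftSplit)
    (hPathRight : PathRight) (hWidTwo : WidTwo) (hVInv : VInv) : VSolOf := by
  intro F _ _ w₁ w₂ i N j' j n hSS
  obtain ⟨M, hM, τ, hτ, hP⟩ := hSS
  obtain ⟨s1, t12, t2, hP12, hP2, rfl⟩ := (hPathAppend F M _ _ _ _ _).1 hP
  obtain ⟨s0, t1, t, hP1, hPV, rfl⟩ := (hPathAppend F M _ _ _ _ _).1 hP12
  obtain ⟨p, s', s1', hp, rfl, rfl, hV⟩ :=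
    hShiftSplit F M (Vg j' j n) i s0 s1 t (L_VSolOf_ne j' j n) hPV
  obtain ⟨ha, hb, s, rfl⟩ := L_VSolOf_two hV
  obtain ⟨s'', hs'', rfl, hV'⟩ := (hPathRight F M (Vg j' j n) 2 2 [ha, hb] s s1' t
    (hWidTwo.2.2.2.2 j' j n) rfl).1 hV
  obtain ⟨ha', hb', rfl⟩ : ∃ a b, s'' = [a, b] := by
    match s'', hs'' with
    | [a, b], _ => exact ⟨a, b, rfl⟩
  obtain ⟨k, r, v, t₁, t₂, t₃, hEq⟩ := (hVInv F M j' j n ha hb ha' hb' t).1 hV'
  exact ⟨_, _, _, M, t1, t2, t, t₁, t₂, t₃, p, s, ha, hb, ha', hb', k, r, v, hM, hτ, hp, hP1,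
    hEq, hP2, rfl, rfl, rfl⟩

end AJM

end

section

/-!
# MP_d3fa71_gt, project Mut, block V: item VTrace (the two expressions for the trace)
-/

set_option autoImplicit false

namespace AJM

theorem L_VTrace_grp1 {H : Type} [Group H] (W z : H) (j : ℕ) :
    (W ^ (-(j : ℤ)) * z⁻¹) * (W * z⁻¹) * (W ^ (-(j : ℤ)) * z⁻¹)⁻¹ * z⁻¹ =
      (W ^ j)⁻¹ * z⁻¹ * W ^ (j + 1) * z⁻¹ := by
  rw [zpow_neg, zpow_natCast, pow_succ']
  group

theorem L_VTrace_grp2 {H : Type} [Group H] (W z : H) (j : ℕ) :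
    (W ^ (-(j : ℤ)) * z * (W ^ (-(j : ℤ)))⁻¹)⁻¹ * (W * z⁻¹) =
      (W ^ j)⁻¹ * z⁻¹ * W ^ (j + 1) * z⁻¹ := by
  rw [zpow_neg, zpow_natCast, pow_succ]
  group

section
variable {R : Type} [CommRing R]

theorem L_VTrace_Vw (M : Rˣ) (j' : ℕ) (k r : G R) : Vw M j' k r =
    ((mer M k * mer M r) ^ j')⁻¹ * (mer M r)⁻¹ * (mer M k * mer M r) ^ (j' + 1) *
      (mer M r)⁻¹ := by
  unfold Vw Vhp
  rw [← dg_pow, mer_dg, mer_mul, mer_J]
  generalize mer M k = y
  generalize mer M r = z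
  have h := L_VTrace_grp1 (y * z) z j'
  rw [mul_inv_cancel_right] at h
  exact h

theorem L_VTrace_prod (M : Rˣ) (j' n : ℕ) (k r : G R) :
    mer M (Vhq M j' n k r) * mer M (Vr M j' n k r) = Vw M j' k r := by
  have h : Vw M j' k r = mer M (Vhp M j' k r) * mer M (r * J) := rfl
  unfold Vhq Vr
  rw [← dg_pow, mer_dg, mer_dg, mer_mul, mer_mul]
  generalize Vw M j' k r = w at h ⊢
  generalize mer M (Vhp M j' k r) = a at h ⊢
  generalize mer M (r * J) = b at h ⊢
  have h2 : w ^ (-(n : ℤ)) * a * (w ^ (-(n : ℤ)))⁻¹ * (w ^ (-(n : ℤ)) * b * (w ^ (-(n : ℤ)))⁻¹)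
      = w ^ (-(n : ℤ)) * (a * b) * (w ^ (-(n : ℤ)))⁻¹ := by
    generalize w ^ (-(n : ℤ)) = c
    group
  rw [h2, ← h]
  group

end

theorem prf_VTrace (hOddTrace : OddTrace) : VTrace := by
  intro R _ M j' j n ha hb ha' hb' τ k r v t₁ t₂ t₃ hV
  obtain ⟨_, h2, _, _, _, _⟩ := hV
  constructor
  · rw [L_VTrace_Vw, hOddTrace R (mer M k) (mer M r) j' (by rw [tr_mer, tr_mer]), tr_mer]
  · have hq : mer M (Vhq M j' n k r) = ((VW M j' n k r v ^ (-(j : ℤ))) * mer M v *
        (VW M j' n k r v ^ (-(j : ℤ)))⁻¹)⁻¹ := by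
      have h3 := congrArg (mer M) h2
      rw [← dg_pow, mer_dg, mer_mul, mer_Jdg] at h3
      rw [h3, inv_inv]
    have hy : mer M (Vr M j' n k r) = VW M j' n k r v * (mer M v)⁻¹ := by
      unfold VW
      rw [mul_inv_cancel_right]
    have hw : Vw M j' k r = (VW M j' n k r v ^ j)⁻¹ * (mer M v)⁻¹ *
        VW M j' n k r v ^ (j + 1) * (mer M v)⁻¹ := by
      rw [← L_VTrace_prod M j' n k r, hq, hy]
      exact L_VTrace_grp2 _ _ _
    rw [hw]
    unfold VW
    rw [hOddTrace R (mer M (Vr M j' n k r)) (mer M v) j (by rw [tr_mer, tr_mer]), tr_mer]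

end AJM

end

section

/-!
# MP_d3fa71_gt, project Mut: the negative direction of the gadget
-/

namespace AJM

theorem prf_Vneg (hVSolOf : VSolOf) (hVA : VA) (hVB : VB) (hVC : VC) (hVSolConst : VSolConst) :
    Vneg := by
  intro F _ _ _ w₁ w₂ i N hN
  obtain ⟨b₁, hb₁⟩ := hVC F w₁ w₂ i N
  refine ⟨b₁, fun j' hj' => ?_⟩
  obtain ⟨b₂, hb₂⟩ := hVB F w₁ w₂ i N j'
  refine ⟨b₂, fun j hj => ?_⟩
  obtain ⟨b₃, hb₃⟩ := hVA F w₁ w₂ i N j' j
  refine ⟨b₃, fun n hn hS => ?_⟩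
  obtain ⟨x, y, z, hs⟩ := hVSolOf F w₁ w₂ i N j' j n hS
  have hy := hb₃ n hn x y z hs
  have hz := hb₂ j hj n x y z hs hy
  have hx := hb₁ j' hj' j n x y z hs hy hz
  exact hN (hVSolConst F w₁ w₂ i N j' j n x y z hs hx hy hz)

end AJM

end

section

/-!
# MP_d3fa71_gt, project Mut, block V: the positive direction of the gadget
-/

namespace AJM

section
variable {F : Type} [Field F]

theorem L_Vpos_mer (M : Fˣ) (X h : G F) (n : ℕ) :
    mer M (X * h * dg M ^ n) = X * mer M h * X⁻¹ := by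
  rw [← dg_pow, mer_dg, mer_mul]

theorem L_Vpos_unit {h : G F} {α : Fˣ} (e : h = h * dg α) : α = 1 := by
  have e1 : dg α = (1 : G F) := by
    have : h * 1 = h * dg α := by rw [mul_one]; exact e
    exact (mul_left_cancel this).symm
  have e2 := congrArg (fun z : G F => z.1 0 0) e1
  simp only [dg00, G_one, Matrix.one_apply_eq] at e2
  exact Units.ext (by simpa using e2)

theorem L_Vpos_zp (X : G F) (n : ℕ) : X ^ (-(n : ℤ)) = (X ^ n)⁻¹ := by
  rw [zpow_neg, zpow_natCast]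

end

theorem prf_Vpos (hVInv : VInv) (hVAlg : VAlg) (hOddRel : OddRel) (hPExist : PExist)
    (hFrameEx : FrameEx) (hPathRight : PathRight) (hWidTwo : WidTwo) : Vpos := by
  intro F _ _ _ M j' j n Y' Y'' hM hE' hE'' hY hmY ha hb s hne
  obtain ⟨z, tz, t1, t2⟩ := hPExist F M ha hb Y' Y'' hM hne hY hmY
  obtain ⟨r, hr⟩ := hFrameEx F M z hM tz
  obtain ⟨k, hk⟩ : ∃ k : G F, k * J = hb := ⟨hb * J⁻¹, by group⟩
  obtain ⟨v, hv⟩ : ∃ v : G F, v * J = ha := ⟨ha * J⁻¹, by group⟩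
  have mk : mer M k = (mer M hb)⁻¹ := by rw [← hk, mer_J, inv_inv]
  have mv : mer M v = (mer M ha)⁻¹ := by rw [← hv, mer_J, inv_inv]
  -- first relation
  have tb : tr (mer M hb)⁻¹ = tr z := by rw [tr_inv, tr_mer, tz]
  obtain ⟨-, o1, o2⟩ := hOddRel F (mer M hb)⁻¹ z j' tb (by rw [t2]; exact hE')
  have e1 : mer M ((mer M k * mer M r) ^ (-(j' : ℤ)) * r * dg M ^ j') = mer M (hb * J) := by
    rw [L_Vpos_mer, mer_J, mk, hr, L_Vpos_zp, inv_inv]
    exact o1
  obtain ⟨s₁, hs₁⟩ := (mer_eq_iff hM _ _).1 e1.symm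
  have e2 : mer M (Vhp M j' k r) = z := by
    unfold Vhp
    rw [L_Vpos_mer, mk, hr, L_Vpos_zp]
    calc (((mer M hb)⁻¹ * z) ^ j')⁻¹ * z⁻¹ * (mer M hb)⁻¹ *
          ((((mer M hb)⁻¹ * z) ^ j')⁻¹ * z⁻¹)⁻¹
        = (((mer M hb)⁻¹ * z) ^ j')⁻¹ * z⁻¹ * (mer M hb)⁻¹ * z * ((mer M hb)⁻¹ * z) ^ j' := by
          rw [mul_inv_rev, inv_inv, inv_inv]
          simp only [mul_assoc]
      _ = z := o2
  have e3 : Vw M j' k r = 1 := by
    unfold Vw
    rw [e2, mer_J, hr, mul_inv_cancel]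
  have e4 : Vhq M j' n k r = Vhp M j' k r * dg M ^ n := by
    unfold Vhq
    rw [e3, one_zpow, one_mul]
  have e5 : mer M (Vhq M j' n k r) = z := by
    rw [e4, ← dg_pow, mer_dg, e2]
  have e6 : Vr M j' n k r = r * J * dg M ^ n := by
    unfold Vr
    rw [e3, one_zpow, one_mul]
  have e7 : mer M (Vr M j' n k r) = z⁻¹ := by
    rw [e6, ← dg_pow, mer_dg, mer_J, hr]
  have e8 : VW M j' n k r v = z⁻¹ * (mer M ha)⁻¹ := by
    unfold VW
    rw [e7, mv]
  have e9 : tr (z⁻¹ * (mer M ha)⁻¹) = Y'' := by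
    rw [← mul_inv_rev, tr_inv, t1]
  -- second relation
  have ta : tr z⁻¹ = tr (mer M ha)⁻¹ := by rw [tr_inv, tr_inv, tr_mer, tz]
  obtain ⟨-, o3, o4⟩ := hOddRel F z⁻¹ (mer M ha)⁻¹ j ta (by rw [e9]; exact hE'')
  have e10 : mer M (VW M j' n k r v ^ (-(j : ℤ)) * v * dg M ^ j) =
      mer M (Vhq M j' n k r * J) := by
    rw [L_Vpos_mer, mer_J, e5, mv, e8, L_Vpos_zp, inv_inv]
    exact o3
  obtain ⟨s₂, hs₂⟩ := (mer_eq_iff hM _ _).1 e10.symm
  have e11 : mer M (VW M j' n k r v ^ (-(j : ℤ)) * (mer M v)⁻¹ * Vr M j' n k r * dg M ^ j) =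
      mer M (ha * J) := by
    rw [L_Vpos_mer, mer_J, e7, mv, e8, L_Vpos_zp]
    calc ((z⁻¹ * (mer M ha)⁻¹) ^ j)⁻¹ * ((mer M ha)⁻¹)⁻¹ * z⁻¹ *
          (((z⁻¹ * (mer M ha)⁻¹) ^ j)⁻¹ * ((mer M ha)⁻¹)⁻¹)⁻¹
        = ((z⁻¹ * (mer M ha)⁻¹) ^ j)⁻¹ * ((mer M ha)⁻¹)⁻¹ * z⁻¹ * (mer M ha)⁻¹ *
            (z⁻¹ * (mer M ha)⁻¹) ^ j := by
          rw [mul_inv_rev, inv_inv, inv_inv]
          simp only [mul_assoc]
      _ = (mer M ha)⁻¹ := o4
  obtain ⟨s₃, hs₃⟩ := (mer_eq_iff hM _ _).1 e11.symm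
  have hEq : VEq M j' j n ha hb ha hb (s₁ * s₂ * s₃) k r v s₁ s₂ s₃ :=
    ⟨hs₁, hs₂, hs₃, hv.symm, hk.symm, rfl⟩
  obtain ⟨α, β, hα, hβ, hτ⟩ := hVAlg F M j' j n ha hb ha hb _ k r v s₁ s₂ s₃ hM hEq
    (by rw [mk, hr, t2]; exact hE') (by rw [e8, e9]; exact hE'')
  rw [L_Vpos_unit hα, L_Vpos_unit hβ, mul_one, mul_one] at hτ
  have hP := (hVInv F M j' j n ha hb ha hb (s₁ * s₂ * s₃)).2 ⟨k, r, v, s₁, s₂, s₃, hEq⟩
  rw [hτ] at hP
  have hW : wid (Vg j' j n) 2 = some 2 := hWidTwo.2.2.2.2 j' j n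
  have := (hPathRight F M (Vg j' j n) 2 2 [ha, hb] s (ha :: hb :: s)
    (M ^ (2 * j' + 2 * j + 2 * n + 2)) hW rfl).2 ⟨[ha, hb], rfl, rfl, hP⟩
  exact this

end AJM

end

section

/-!
# MP_d3fa71_gt, project Mut: widths of the blocks
-/

namespace AJM

theorem prf_WidBlocks (hWidTwo : WidTwo) (_hWidAppend : WidAppend) : WidBlocks := by
  obtain ⟨ht, hr, ha, hc, -⟩ := hWidTwo
  intro v hv
  refine ⟨(hr _ (ha _ _ hv (ht 4))).1, (hr _ (ha _ _ (ht (-4)) hv)).2,
    (hr _ (ha _ _ hv (ht 2))).1, fun v' v'' hv' hv'' => ?_⟩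
  have h1 := (hr _ (ha _ _ hv (ht 6))).1
  have h2 := (hr _ (ha _ _ hv' (ht 4))).1
  have h3 := (hr _ (ha _ _ hv'' (ht (-8)))).1
  exact ha _ _ (hr _ (ha _ _ (ha _ _ (ha _ _ h1 h2) h3) (hc (-4)))).1 (ht (-6))

end AJM

end

section

/-!
# MP_d3fa71_gt, project Mut, item WindPath: windings of the top strand around the next two
-/

namespace AJM

section
variable {R : Type} [CommRing R]

theorem WindPath_coe_mul (x y : G R) : (x * y).1 = x.1 * y.1 := rfl

theorem WindPath_dg_mul (x y : Rˣ) : dg (x * y) = dg x * dg y := by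
  apply Subtype.ext
  ext i j
  rw [WindPath_coe_mul]
  fin_cases i <;> fin_cases j <;> simp [dg, mul_comm]

theorem WindPath_dg_one : dg (1 : Rˣ) = 1 := by
  apply Subtype.ext
  ext i j
  fin_cases i <;> fin_cases j <;> simp [dg]

theorem WindPath_dg_inv (x : Rˣ) : dg x⁻¹ = (dg x)⁻¹ := by
  rw [eq_comm, inv_eq_iff_mul_eq_one, ← WindPath_dg_mul, mul_inv_cancel, WindPath_dg_one]

theorem WindPath_mer_dg (M u : Rˣ) (h : G R) : mer M (h * dg u) = mer M h := by
  unfold mer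
  have hc : dg u * dg M = dg M * dg u := by
    rw [← WindPath_dg_mul, mul_comm, WindPath_dg_mul]
  calc h * dg u * dg M * (h * dg u)⁻¹ = h * (dg u * dg M) * (dg u)⁻¹ * h⁻¹ := by group
    _ = h * dg M * h⁻¹ := by rw [hc]; group

theorem WindPath_mer_mul (M : Rˣ) (P h : G R) : mer M (P * h) = P * mer M h * P⁻¹ := by
  unfold mer
  group

theorem WindPath_grp {A : Type} [Group A] (X g x : A) (n : ℕ) :
    (X * g) ^ n * (X * g ^ n * X⁻¹)⁻¹ * (X * x) =
      (X * g) ^ (n + 1) * (g ^ (n + 1))⁻¹ * x := by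
  rw [pow_succ (X * g) n, pow_succ g n]
  simp only [mul_inv_rev, inv_inv, mul_assoc, inv_mul_cancel_left, mul_inv_cancel_left]

theorem WindPath_one (M : Rˣ) (c a b : G R) (s : List (G R)) :
    Path M Wind (c :: a :: b :: s)
      ((mer M c * (mer M a * mer M b)) * c * dg M⁻¹ :: mer M c * a :: mer M c * b :: s) 1 := by
  have h4 : mer M (mer M c * a) * (mer M (mer M c * b) * c) =
      (mer M c * (mer M a * mer M b)) * c * dg M⁻¹ := by
    rw [WindPath_mer_mul, WindPath_mer_mul, WindPath_dg_inv]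
    unfold mer
    group
  have h1 : Step M (.neg, 0) (c :: a :: b :: s) (mer M c * a :: c :: b :: s) 1 :=
    Step.neg c a (b :: s)
  have h2 : Step M (.neg, 1) (mer M c * a :: c :: b :: s) (mer M c * a :: mer M c * b :: c :: s) 1 :=
    Step.sh _ (Step.neg c b s)
  have h3 : Step M (.neg, 1) (mer M c * a :: mer M c * b :: c :: s)
      (mer M c * a :: mer M (mer M c * b) * c :: mer M c * b :: s) 1 :=
    Step.sh _ (Step.neg (mer M c * b) c s)
  have h5 : Step M (.neg, 0) (mer M c * a :: mer M (mer M c * b) * c :: mer M c * b :: s)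
      (mer M (mer M c * a) * (mer M (mer M c * b) * c) :: mer M c * a :: mer M c * b :: s) 1 :=
    Step.neg _ _ _
  rw [h4] at h5
  have := Path.cons h1 (Path.cons h2 (Path.cons h3 (Path.cons h5 (Path.nil _))))
  simpa [Wind] using this

end

theorem prf_WindPath (hPathAppend : PathAppend) : WindPath := by
  intro R _ M n
  induction n with
  | zero =>
    intro c a b s
    have h : Path M (rep 0 Wind) (c :: a :: b :: s) (c :: a :: b :: s) 1 := Path.nil _
    simpa [WindPath_dg_one] using h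
  | succ n ih =>
    intro c a b s
    have hr : rep (n + 1) Wind = Wind ++ rep n Wind := by
      simp [rep, List.replicate_succ]
    rw [hr, hPathAppend]
    refine ⟨_, 1, 1, WindPath_one M c a b s, ?_, (mul_one _).symm⟩
    set X := mer M c with hX
    set g := mer M a * mer M b with hg
    have e1 : mer M (X * g * c * dg M⁻¹) = (X * g) * X * (X * g)⁻¹ := by
      rw [WindPath_mer_dg, WindPath_mer_mul]
    have e2 : mer M (X * a) * mer M (X * b) = X * g * X⁻¹ := by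
      rw [WindPath_mer_mul, WindPath_mer_mul, hg]
      group
    have e3 : mer M (X * g * c * dg M⁻¹) * (mer M (X * a) * mer M (X * b)) = X * g := by
      rw [e1, e2]
      group
    have e4 : (X * g * X⁻¹) ^ n = X * g ^ n * X⁻¹ := by
      rw [conj_pow]
    have hI := ih (X * g * c * dg M⁻¹) (X * a) (X * b) s
    rw [e3, e2, e4] at hI
    have f1 : (X * g) ^ n * (X * g * c * dg M⁻¹) * dg (M ^ (-(n : ℤ))) =
        (X * g) ^ (n + 1) * c * dg (M ^ (-((n + 1 : ℕ) : ℤ))) := by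
      have : M ^ (-((n + 1 : ℕ) : ℤ)) = M⁻¹ * M ^ (-(n : ℤ)) := by
        rw [← zpow_neg_one, ← zpow_add]
        congr 1
        push_cast
        ring
      rw [this, WindPath_dg_mul, pow_succ]
      group
    rw [f1, WindPath_grp, WindPath_grp] at hI
    exact hI

end AJM

end

section

/-!
# MP_d3fa71_gt, project Mut, item WordInt
-/

namespace AJM

theorem L_WordInt_comp {V : Type*} [AddCommMonoid V] [Module (RatFunc ℚ) V]
    {f g e : V →ₗ[RatFunc ℚ] V} (hf : f ∘ₗ e = e ∘ₗ f) (hg : g ∘ₗ e = e ∘ₗ g) :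
    (g ∘ₗ f) ∘ₗ e = e ∘ₗ (g ∘ₗ f) := by
  rw [LinearMap.comp_assoc, hf, ← LinearMap.comp_assoc, hg, LinearMap.comp_assoc]

theorem L_WordInt_mv (hCupOp : CupOp) (hCapOp : CapOp) (hCrossOp : CrossOp) (hShOp : ShOp)
    (n : ℕ) (k : Kd) (i : ℕ) : CmO n (opm n (k, i)) := by
  induction i with
  | zero =>
    cases k with
    | cup => exact hCupOp n
    | cap => exact hCapOp n
    | pos => exact (hCrossOp n).1
    | neg => exact (hCrossOp n).2
  | succ i ih => exact hShOp n k i ih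

theorem prf_WordInt (hCupOp : CupOp) (hCapOp : CapOp) (hCrossOp : CrossOp) (hShOp : ShOp) :
    WordInt := by
  intro n w
  induction w with
  | nil => exact ⟨rfl, rfl, rfl⟩
  | cons m w ih =>
    have hm := L_WordInt_mv hCupOp hCapOp hCrossOp hShOp n m.1 m.2
    exact ⟨L_WordInt_comp hm.1 ih.1, L_WordInt_comp hm.2.1 ih.2.1, L_WordInt_comp hm.2.2 ih.2.2⟩

end AJM

end

section

/-!
# MP_d3fa71_gt, project Mut, block Q: weight zero vectors
-/

open Matrix
open scoped Kronecker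

namespace AJM

theorem L_WtZero_DK (n : ℕ) :
    DK n = Matrix.diagonal fun p : Fin n × Fin n => tq ^ (2 * wt n p.1) * tq ^ (2 * wt n p.2) := by
  unfold DK Km
  rw [Matrix.diagonal_kronecker_diagonal]

theorem prf_WtZero (hQIne : QIne) : WtZero := by
  intro n A hn hA
  obtain ⟨ht, -, -, hz⟩ := hQIne
  set p : Fin n × Fin n := (⟨0, hn⟩, ⟨n - 1, by omega⟩) with hp
  have heb : eb n 0 (n - 1) = Pi.single p 1 := by
    funext q
    rw [Pi.single_apply]
    unfold eb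
    by_cases h : q = p
    · rw [if_pos h, if_pos]
      rw [h]
      exact ⟨rfl, rfl⟩
    · rw [if_neg h, if_neg]
      rintro ⟨h1, h2⟩
      apply h
      rw [hp]
      exact Prod.ext (Fin.ext h1) (Fin.ext h2)
  have hcol : A *ᵥ eb n 0 (n - 1) = fun q => A q p := by
    rw [heb, Matrix.mulVec_single_one]
    rfl
  have hdp : tq ^ (2 * wt n p.1) * tq ^ (2 * wt n p.2) = 1 := by
    rw [← zpow_add₀ ht]
    have : 2 * wt n p.1 + 2 * wt n p.2 = 0 := by
      have h1 : wt n p.1 = (n : ℤ) - 1 - 2 * ((0 : ℕ) : ℤ) := rfl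
      have h2 : wt n p.2 = (n : ℤ) - 1 - 2 * ((n - 1 : ℕ) : ℤ) := rfl
      rw [h1, h2]
      omega
    rw [this, zpow_zero]
  have hzero : ∀ q : Fin n × Fin n, A q p ≠ 0 → (q.2 : ℕ) = n - 1 - q.1 := by
    intro q hq
    have h1 := congrFun (congrFun hA q) p
    rw [L_WtZero_DK, Matrix.mul_diagonal, Matrix.diagonal_mul, hdp, mul_one] at h1
    have h2 : tq ^ (2 * wt n q.1) * tq ^ (2 * wt n q.2) = 1 := by
      have h3 : (tq ^ (2 * wt n q.1) * tq ^ (2 * wt n q.2) - 1) * A q p = 0 := by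
        rw [sub_mul, ← h1, one_mul, sub_self]
      exact sub_eq_zero.1 ((mul_eq_zero.1 h3).resolve_right hq)
    rw [← zpow_add₀ ht] at h2
    have h3 := hz _ h2
    unfold wt at h3
    have h4 := q.1.2
    have h5 := q.2.2
    omega
  refine ⟨fun i => if h : i < n then A (⟨i, h⟩, ⟨n - 1 - i, by omega⟩) p else 0, ?_⟩
  rw [hcol]
  funext q
  rw [Finset.sum_apply, Finset.sum_eq_single (q.1 : ℕ)]
  · rw [Pi.smul_apply]
    beta_reduce
    rw [dif_pos q.1.2]
    unfold eb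
    by_cases h : (q.2 : ℕ) = n - 1 - q.1
    · rw [if_pos ⟨rfl, h⟩, smul_eq_mul, mul_one]
      congr 1
      exact Prod.ext rfl (Fin.ext h)
    · rw [if_neg (fun h' => h h'.2), smul_zero]
      by_contra hne
      exact h (hzero q hne)
  · intro i _ hi
    rw [Pi.smul_apply]
    unfold eb
    rw [if_neg (fun h' => hi h'.1.symm), smul_zero]
  · intro h
    exact absurd (Finset.mem_range.2 q.1.2) h

end AJM

end

section

/-!
# MP_d3fa71_gt, project Mut, item ZB: the block B in the special representation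
-/

set_option autoImplicit false

namespace AJM

section
variable {R : Type} [CommRing R]

theorem ZB_T00 (x : R) : (Tm x).1 0 0 = 1 := rfl
theorem ZB_T01 (x : R) : (Tm x).1 0 1 = x := rfl
theorem ZB_T10 (x : R) : (Tm x).1 1 0 = 0 := rfl
theorem ZB_T11 (x : R) : (Tm x).1 1 1 = 1 := rfl

theorem ZB_Tadd (x y : R) : Tm x * Tm y = Tm (x + y) := by
  ext <;> simp only [G_mul00, G_mul01, G_mul10, G_mul11, ZB_T00, ZB_T01, ZB_T10, ZB_T11] <;> ring

theorem ZB_T0 : (Tm 0 : G R) = 1 := by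
  ext <;> simp [ZB_T00, ZB_T01, ZB_T10, ZB_T11]

theorem ZB_Tinv (x : R) : (Tm x)⁻¹ = Tm (-x) := by
  rw [inv_eq_iff_mul_eq_one, ZB_Tadd, add_neg_cancel, ZB_T0]

theorem ZB_dT (u : Rˣ) (x : R) : dg u * Tm x = Tm ((u : R) ^ 2 * x) * dg u := by
  ext
  · simp [G_mul00, ZB_T00, ZB_T01, ZB_T10]
  · simp only [G_mul01, ZB_T00, ZB_T01, ZB_T11, dg00, dg01, dg11]
    have h : (u : R) * ((u⁻¹ : Rˣ) : R) = 1 := by simp
    linear_combination (-(u : R) * x) * h
  · simp [G_mul10, ZB_T00, ZB_T10, ZB_T11]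
  · simp [G_mul11, ZB_T01, ZB_T10, ZB_T11]

/-- the product of two upper triangular meridians -/
theorem ZB_mm (M : Rˣ) (x y : R) (h : x + (M : R) ^ 2 * y = 0) :
    mer M (Tm x) * mer M (Tm y) = dg (M ^ 2) := by
  unfold mer
  rw [ZB_Tinv, ZB_Tinv]
  have e1 : Tm x * dg M * Tm (-x) * (Tm y * dg M * Tm (-y)) =
      Tm x * (dg M * (Tm (-x) * Tm y)) * dg M * Tm (-y) := by
    simp only [mul_assoc]
  rw [e1, ZB_Tadd, ZB_dT]
  have e2 : Tm x * (Tm ((M : R) ^ 2 * (-x + y)) * dg M) * dg M * Tm (-y) =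
      (Tm x * Tm ((M : R) ^ 2 * (-x + y))) * ((dg M * dg M) * Tm (-y)) := by
    simp only [mul_assoc]
  rw [e2, ← dg_mul, ZB_dT, ZB_Tadd, ← mul_assoc, ZB_Tadd]
  have e3 : x + (M : R) ^ 2 * (-x + y) + ((M * M : Rˣ) : R) ^ 2 * -y = 0 := by
    push_cast
    linear_combination (1 - (M : R) ^ 2) * h
  rw [e3, ZB_T0, one_mul, pow_two]

end

/-- one cup at the position 2 -/
theorem ZB_cup (M : ℂˣ) (a b k : G ℂ) : Path M [(.cup, 2)] [a, b] [a, b, k, k * J] 1 := by
  have h := Path.cons (Step.sh a (Step.sh b (Step.cup (M := M) k []))) (Path.nil (M := M) _)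
  rw [mul_one] at h
  exact h

/-- one cap at the top -/
theorem ZB_cap (M : ℂˣ) (a : G ℂ) (s : List (G ℂ)) : Path M [(.cap, 0)] (a :: a * J :: s) s 1 := by
  have h := Path.cons (Step.cap (M := M) a 1 s) (Path.nil (M := M) _)
  rw [mul_one, dg_one, mul_one] at h
  exact h

/-- the gadget may be empty -/
theorem ZB_nil (M : ℂˣ) : Vok M [] 1 := fun ha hb s _ => Path.nil (ha :: hb :: s)

theorem prf_ZB (hSPCalc : SPCalc) (hPathAppend : PathAppend) (hTwsPath : TwsPath)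
    (hZStay : ZStay) (hZFlip : ZFlip) : ZB := by
  have _ := hPathAppend
  intro M v₁ v₂ v₃ g₁ g₂ g₃ hM12 hv1 hv2 hv3
  obtain ⟨c1, -, c3, c4, -, c6⟩ := hSPCalc ℂ M
  have hM2 : (M : ℂ) ^ 2 ≠ 1 := by
    intro h
    apply hM12
    have : (M : ℂ) ^ 12 = ((M : ℂ) ^ 2) ^ 6 := by ring
    rw [this, h, one_pow]
  have hM0 : (M : ℂ) ≠ 0 := M.ne_zero
  have h1t : (1 : ℂ) - (M : ℂ) ^ 2 ≠ 0 := fun h => hM2 (sub_eq_zero.1 h).symm
  obtain ⟨y, hy⟩ : ∃ y : ℂ, y = ((M : ℂ) ^ 12)⁻¹ := ⟨_, rfl⟩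
  have hy1 : y ≠ 1 := by
    rw [hy]
    intro h
    exact hM12 (inv_eq_one.1 h)
  obtain ⟨D, hD⟩ : ∃ D : ℂ, D = (y - 1) / (1 - (M : ℂ) ^ 2) := ⟨_, rfl⟩
  have hD1 : D * (1 - (M : ℂ) ^ 2) = y - 1 := by
    rw [hD]
    exact div_mul_cancel₀ _ h1t
  have hD0 : D ≠ 0 := by
    intro h
    rw [h, zero_mul] at hD1
    exact hy1 (sub_eq_zero.1 hD1.symm)
  obtain ⟨k, hk⟩ : ∃ k : G ℂ, k = Tm (-((M : ℂ) ^ 14)⁻¹) * J := ⟨_, rfl⟩
  -- the four columns
  have sA := hZFlip M v₁ g₁ hM12 hv1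
  rw [← hk, ← hy] at sA
  have sB := hZStay M v₂ g₂ 2 1 y (1 - D / 2) (y - D / 2) hM2 hv2 (by
    intro h
    apply hD0
    linear_combination 2 * h) (by ring) (by
    push_cast
    linear_combination (-1) * hD1)
  have sC := hZStay M v₃ g₃ (-4) (1 - D / 2) (y - D / 2) (1 - D / 4) (y - D / 4) hM2 hv3 (by
    intro h
    apply hD0
    linear_combination (-4) * h) (by ring) (by
    push_cast
    linear_combination (-1) * hD1)
  have sD := hZStay M [] 1 (-4) (1 - D / 4) (y - D / 4) 1 y hM2 (ZB_nil M) (by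
    intro h
    apply hD0
    linear_combination (-4) * h) (by ring) (by
    push_cast
    linear_combination (-1) * hD1)
  have sW := c3 _ _ _ _ _ _ _ (c3 _ _ _ _ _ _ _ (c3 _ _ _ _ _ _ _ sA sB) sC) sD
  -- the outer rotation
  have sW' := c6 _ [Tm 1] _ _ [k * J] _ sW
  have s1 := c1 _ _ _ _ (ZB_cup M (Tm 1) (Tm (-((M : ℂ) ^ 2)⁻¹)) k)
  have s2 := c1 _ _ _ _ (ZB_cap M (Tm 1) [Tm y, k * J])
  have s3 := c3 _ _ _ _ _ _ _ (c3 _ _ _ _ _ _ _ s1 sW') s2
  have hkJ : ([Tm y, k * J] : List (G ℂ)) =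
      scl [Tm y, Tm (-((M : ℂ) ^ 14)⁻¹)] [1, -1] := by
    simp only [scl, List.zipWith_cons_cons, List.zipWith_nil_left, dg_one, mul_one]
    rw [hk, mul_assoc, J_J]
  rw [hkJ] at s3
  have s4 := c4 _ _ _ _ _ (by rfl) s3
  -- the final twists
  have hP := hTwsPath ℂ M (-3) (Tm y) (Tm (-((M : ℂ) ^ 14)⁻¹)) []
  have hmm : mer M (Tm y) * mer M (Tm (-((M : ℂ) ^ 14)⁻¹)) = dg (M ^ 2) := by
    apply ZB_mm
    rw [hy]
    field_simp
    ring
  have hdt : (dg (M ^ 2) : G ℂ) ^ (-(-3 : ℤ)) = dg (M ^ 6) := by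
    have e0 : (-(-3 : ℤ)) = ((3 : ℕ) : ℤ) := by norm_num
    rw [e0, zpow_natCast, ← dg_pow, ← pow_mul]
  have hM63 : M ^ 6 * M ^ (-3 : ℤ) = M ^ 3 := by
    have e0 : M ^ (-3 : ℤ) = (M ^ 3)⁻¹ := by
      rw [zpow_neg]
      rfl
    rw [e0, show M ^ 6 = M ^ 3 * M ^ 3 by rw [← pow_add], mul_assoc, mul_inv_cancel, mul_one]
  have hx1 : dg (M ^ 6) * Tm y * dg (M ^ (-3 : ℤ)) = Tm 1 * dg (M ^ 3) := by
    rw [ZB_dT, mul_assoc, ← dg_mul, hM63]
    congr 2
    rw [hy]
    push_cast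
    field_simp
  have hx2 : dg (M ^ 6) * Tm (-((M : ℂ) ^ 14)⁻¹) * dg (M ^ (-3 : ℤ)) =
      Tm (-((M : ℂ) ^ 2)⁻¹) * dg (M ^ 3) := by
    rw [ZB_dT, mul_assoc, ← dg_mul, hM63]
    congr 2
    push_cast
    field_simp
  rw [hmm, hdt, hx1, hx2] at hP
  have s5 := c1 _ _ _ _ hP
  have hsc : ([Tm 1 * dg (M ^ 3), Tm (-((M : ℂ) ^ 2)⁻¹) * dg (M ^ 3)] : List (G ℂ)) =
      scl [Tm 1, Tm (-((M : ℂ) ^ 2)⁻¹)] [M ^ 3, M ^ 3] := by
    simp only [scl, List.zipWith_cons_cons, List.zipWith_nil_left]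
  rw [hsc] at s5
  have s6 := c4 _ _ _ _ _ (by rfl) s5
  have s7 := c3 _ _ _ _ _ _ _ s4 s6
  have hw : 1 * (-(g₁ * M ^ (-6 : ℤ)) * (g₂ * M ^ (2 * 2 : ℤ)) * (g₃ * M ^ (2 * -4 : ℤ)) *
      (1 * M ^ (2 * -4 : ℤ))) * 1 * List.prod [1, -1] * (1 * List.prod [M ^ 3, M ^ 3]) =
      M ^ (-12 : ℤ) * g₁ * g₂ * g₃ := by
    have e1 : List.prod [M ^ 3, M ^ 3] = M ^ (6 : ℤ) := by
      simp only [List.prod_cons, List.prod_nil, mul_one]
      rw [← pow_add]
      rfl
    have e2 : List.prod [(1 : ℂˣ), -1] = -1 := by simp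
    rw [e1, e2]
    have e3 : M ^ (-12 : ℤ) = M ^ (-6 : ℤ) * M ^ (2 * 2 : ℤ) * M ^ (2 * -4 : ℤ) *
        M ^ (2 * -4 : ℤ) * M ^ (6 : ℤ) := by
      rw [← zpow_add, ← zpow_add, ← zpow_add, ← zpow_add]
      norm_num
    rw [e3]
    generalize M ^ (-6 : ℤ) = A
    generalize M ^ (2 * 2 : ℤ) = B
    generalize M ^ (2 * -4 : ℤ) = C
    generalize M ^ (6 : ℤ) = E
    simp only [one_mul, mul_one, neg_mul, mul_neg, neg_neg]
    simp only [mul_comm, mul_left_comm]
  rw [← hw]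
  exact s7

end AJM

end

section

/-!
# MP_d3fa71_gt, project Mut, block Q: exchange of two words inside a closure
-/

set_option autoImplicit false

namespace AJM

/-- The span of the lists with at least two entries. -/
noncomputable def L_ZExch_S (n : ℕ) : Submodule (RatFunc ℚ) (TT n) :=
  Submodule.span (RatFunc ℚ) (Set.range fun q : Fin n × Fin n × List (Fin n) =>
    (Finsupp.single (q.1 :: q.2.1 :: q.2.2) (1 : RatFunc ℚ) : TT n))

theorem L_ZExch_mem (n : ℕ) (c : RatFunc ℚ) (a b : Fin n) (s : List (Fin n)) :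
    (Finsupp.single (a :: b :: s) c : TT n) ∈ L_ZExch_S n := by
  have h : (Finsupp.single (a :: b :: s) c : TT n) =
      c • (Finsupp.single (a :: b :: s) (1 : RatFunc ℚ) : TT n) := by
    rw [Finsupp.smul_single, smul_eq_mul, mul_one]
  rw [h]
  exact Submodule.smul_mem _ _ (Submodule.subset_span ⟨(a, b, s), rfl⟩)

theorem L_ZExch_word (hMat2 : Mat2) (n : ℕ) (x : List Mv) (hx : wid x 2 = some 2) (v : TT n)
    (hv : v ∈ L_ZExch_S n) : opw n x v ∈ L_ZExch_S n := by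
  obtain ⟨A, -, hA⟩ := hMat2 n x hx
  have h : L_ZExch_S n ≤ (L_ZExch_S n).comap (opw n x) := by
    refine Submodule.span_le.2 ?_
    rintro _ ⟨⟨a, b, s⟩, rfl⟩
    rw [SetLike.mem_coe, Submodule.mem_comap]
    show opw n x (Finsupp.single (a :: b :: s) 1) ∈ L_ZExch_S n
    rw [hA, mo, Finsupp.linearCombination_single, one_smul, mL]
    exact Submodule.sum_mem _ fun p _ => L_ZExch_mem n _ _ _ _
  exact h hv

theorem L_ZExch_cups (n : ℕ) :
    opw n [(.cup, 0), (.cup, 1)] (Finsupp.single [] 1) ∈ L_ZExch_S n := by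
  have h : opw n [(.cup, 0), (.cup, 1)] (Finsupp.single [] 1) =
      opm n (.cup, 1) (opm n (.cup, 0) (Finsupp.single [] 1)) := rfl
  have h0 : opm n (.cup, 0) (Finsupp.single [] 1) =
      ∑ i : Fin n, Finsupp.single [i, i.rev] (cc n i) := by
    rw [opm, Finsupp.linearCombination_single, one_smul, act]
  rw [h, h0, map_sum]
  refine Submodule.sum_mem _ fun i _ => ?_
  have h1 : opm n (.cup, 1) (Finsupp.single [i, i.rev] (cc n i)) =
      cc n i • Finsupp.mapDomain (i :: ·) (act n .cup 0 [i.rev]) := by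
    rw [opm, Finsupp.linearCombination_single]
    rfl
  rw [h1]
  refine Submodule.smul_mem _ _ ?_
  rw [act, Finsupp.mapDomain_finsetSum]
  refine Submodule.sum_mem _ fun j _ => ?_
  rw [Finsupp.mapDomain_single]
  exact L_ZExch_mem n _ _ _ _

theorem prf_ZExch (hMat2 : Mat2) (hExch : Exch) (hOpwAppend : OpwAppend) : ZExch := by
  intro n x w₁ w₂ y hx h₁ h₂
  have key : ∀ v ∈ L_ZExch_S n, opw n (w₁ ++ w₂) v = opw n (w₂ ++ w₁) v := by
    intro v hv
    have h : Set.EqOn (opw n (w₁ ++ w₂)) (opw n (w₂ ++ w₁)) (L_ZExch_S n : Set (TT n)) := by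
      refine LinearMap.eqOn_span' ?_
      rintro _ ⟨⟨a, b, s⟩, rfl⟩
      exact hExch n w₁ w₂ h₁ h₂ a b s
    exact h hv
  have e : ∀ z₁ z₂ : List Mv, Ncl (x ++ z₁ ++ z₂ ++ y) =
      [(.cup, 0), (.cup, 1)] ++ (x ++ ((z₁ ++ z₂) ++ (y ++ [(.cap, 1), (.cap, 0)]))) := by
    intro z₁ z₂
    simp [Ncl, List.append_assoc]
  rw [e, e, Zs, Zs]
  have f : ∀ z : List Mv, opw n ([(.cup, 0), (.cup, 1)] ++ (x ++ (z ++
      (y ++ [(.cap, 1), (.cap, 0)])))) (Finsupp.single [] 1) =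
      opw n (y ++ [(.cap, 1), (.cap, 0)]) (opw n z (opw n x
        (opw n [(.cup, 0), (.cup, 1)] (Finsupp.single [] 1)))) := by
    intro z
    rw [hOpwAppend, hOpwAppend, hOpwAppend]
    rfl
  rw [f, f, key _ (L_ZExch_word hMat2 n x hx _ (L_ZExch_cups n))]

end AJM

end

section

/-!
# MP_d3fa71_gt, project Mut: the coil on the special representation
-/

namespace AJM

section
variable {R : Type} [CommRing R]

theorem ZF_merJ (M : Rˣ) : mer M (J : G R) = dg M⁻¹ := by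
  have h := mer_J M (1 : G R)
  rw [one_mul] at h
  rw [h]
  unfold mer
  rw [one_mul, inv_one, mul_one, dg_inv]

theorem ZF_Tm00 (x : R) : (Tm x : G R).1 0 0 = 1 := rfl
theorem ZF_Tm01 (x : R) : (Tm x : G R).1 0 1 = x := rfl
theorem ZF_Tm10 (x : R) : (Tm x : G R).1 1 0 = 0 := rfl
theorem ZF_Tm11 (x : R) : (Tm x : G R).1 1 1 = 1 := rfl

theorem ZF_mer00 (M : Rˣ) (x : R) : (mer M (Tm x)).1 0 0 = M := by
  unfold mer
  simp [G_mul00, G_mul01, G_inv00, G_inv10, ZF_Tm00, ZF_Tm01, ZF_Tm10, ZF_Tm11]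
theorem ZF_mer01 (M : Rˣ) (x : R) :
    (mer M (Tm x)).1 0 1 = x * (((M⁻¹ : Rˣ) : R) - M) := by
  unfold mer
  simp [G_mul00, G_mul01, G_inv01, G_inv11, ZF_Tm00, ZF_Tm01]
  ring
theorem ZF_mer10 (M : Rˣ) (x : R) : (mer M (Tm x)).1 1 0 = 0 := by
  unfold mer
  simp [G_mul10, G_mul11, G_inv00, G_inv10, ZF_Tm10, ZF_Tm11]
theorem ZF_mer11 (M : Rˣ) (x : R) : (mer M (Tm x)).1 1 1 = ((M⁻¹ : Rˣ) : R) := by
  unfold mer
  simp [G_mul10, G_mul11, G_inv01, G_inv11, ZF_Tm00, ZF_Tm10, ZF_Tm11]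

theorem ZF_two (M : Rˣ) (n : ℕ) (h : G R) :
    dg M ^ n * ((dg (M ^ 2)) ^ n)⁻¹ * h = dg (M ^ (-(n : ℤ))) * h := by
  rw [← dg_pow, ← dg_pow, ← dg_inv, ← dg_mul]
  congr 2
  rw [← pow_mul, mul_comm 2 n, pow_mul, zpow_neg, zpow_natCast]
  group

end

theorem ZF_prod (M : ℂˣ) : mer M (Tm 1) * mer M (Tm (-((M : ℂ) ^ 2)⁻¹)) = dg (M ^ 2) := by
  have hM : (M : ℂ) ≠ 0 := M.ne_zero
  ext
  · rw [G_mul00, ZF_mer00, ZF_mer00, ZF_mer10, dg00, mul_zero, add_zero, Units.val_pow_eq_pow_val,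
      sq]
  · rw [G_mul01, ZF_mer00, ZF_mer01, ZF_mer01, ZF_mer11, dg01, Units.val_inv_eq_inv_val]
    field_simp
    ring
  · rw [G_mul10, ZF_mer10, ZF_mer10, dg10, zero_mul, mul_zero, add_zero]
  · rw [G_mul11, ZF_mer11, ZF_mer11, ZF_mer10, dg11, zero_mul, zero_add, ← Units.val_mul, sq,
      mul_inv]

theorem ZF_ne (M : ℂˣ) (hM : (M : ℂ) ^ 4 ≠ 1) :
    mer M (J : G ℂ) * mer M (Tm 1) ≠ mer M (Tm 1) * mer M J := by
  intro h
  have h0 : (M : ℂ) ≠ 0 := M.ne_zero
  have h1 : (mer M (J : G ℂ) * mer M (Tm 1)).1 0 1 = (mer M (Tm 1) * mer M (J : G ℂ)).1 0 1 := by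
    rw [h]
  rw [ZF_merJ, G_mul01, G_mul01, dg00, dg01, dg11, ZF_mer01, ZF_mer00, inv_inv,
    Units.val_inv_eq_inv_val, zero_mul, mul_zero, add_zero, zero_add, one_mul] at h1
  apply hM
  have h2 : ((M : ℂ) ^ 2 - 1) ^ 2 = 0 := by
    field_simp at h1
    linear_combination h1
  have h3 : (M : ℂ) ^ 2 = 1 := by
    have := pow_eq_zero_iff (two_ne_zero) |>.1 h2
    linear_combination this
  calc (M : ℂ) ^ 4 = ((M : ℂ) ^ 2) ^ 2 := by ring
    _ = 1 := by rw [h3]; norm_num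

theorem prf_ZF (hSPCalc : SPCalc) (hPathAppend : PathAppend) (hPathShift : PathShift)
    (hTwsPath : TwsPath) (hWindPath : WindPath) : ZF := by
  intro M k v g hM hv
  set ha : G ℂ := Tm 1 with hha
  set hb : G ℂ := Tm (-((M : ℂ) ^ 2)⁻¹) with hhb
  have hg0 : mer M ha * mer M hb = dg (M ^ 2) := ZF_prod M
  have hJg : mer M (J : G ℂ) * (mer M ha * mer M hb) = dg M := by
    rw [hg0, ZF_merJ, ← dg_mul]
    congr 1
    group
  -- the winding
  have h1 := hWindPath ℂ M (2 * k) J ha hb []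
  rw [hJg, hg0, ZF_two, ZF_two] at h1
  have e1 : dg M ^ (2 * k) * J * dg (M ^ (-((2 * k : ℕ) : ℤ))) = J * dg (M ^ (-(4 * k : ℤ))) := by
    rw [← dg_pow, show M ^ (2 * k) = (M ^ (-((2 * k : ℕ) : ℤ)))⁻¹ by
      rw [zpow_neg, zpow_natCast, inv_inv], ← J_dg, mul_assoc, ← dg_mul, ← zpow_add]
    congr 3
    push_cast
    ring
  rw [e1] at h1
  have h2 : Path M (v ++ rep (2 * k) Wind) [J, ha, hb]
      [J * dg (M ^ (-(4 * k : ℤ))), dg (M ^ (-((2 * k : ℕ) : ℤ))) * ha,
        dg (M ^ (-((2 * k : ℕ) : ℤ))) * hb] g :=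
    (hPathAppend ℂ M v (rep (2 * k) Wind) _ _ _).2
      ⟨_, g, 1, hv J ha [hb] (ZF_ne M hM), h1, (mul_one g).symm⟩
  have h3 := (hPathShift ℂ M (v ++ rep (2 * k) Wind) [1] [J, ha, hb] _ g).2 ⟨_, rfl, h2⟩
  -- the twists
  have h4 := hTwsPath ℂ M (-(k : ℤ)) (dg (M ^ (-((2 * k : ℕ) : ℤ))) * ha)
    (dg (M ^ (-((2 * k : ℕ) : ℤ))) * hb) []
  have e2 : mer M (dg (M ^ (-((2 * k : ℕ) : ℤ))) * ha) *
      mer M (dg (M ^ (-((2 * k : ℕ) : ℤ))) * hb) = dg (M ^ 2) := by
    rw [mer_mul, mer_mul]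
    have : dg (M ^ (-((2 * k : ℕ) : ℤ))) * mer M ha * (dg (M ^ (-((2 * k : ℕ) : ℤ))))⁻¹ *
        (dg (M ^ (-((2 * k : ℕ) : ℤ))) * mer M hb * (dg (M ^ (-((2 * k : ℕ) : ℤ))))⁻¹) =
        dg (M ^ (-((2 * k : ℕ) : ℤ))) * (mer M ha * mer M hb) *
          (dg (M ^ (-((2 * k : ℕ) : ℤ))))⁻¹ := by group
    rw [this, hg0, dg_comm, mul_assoc, mul_inv_cancel, mul_one]
  have e3 : ∀ h : G ℂ, dg (M ^ 2) ^ (-(-(k : ℤ))) * (dg (M ^ (-((2 * k : ℕ) : ℤ))) * h) = h := by
    intro h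
    rw [← mul_assoc, ← dg_zpow, ← dg_mul]
    have : (M ^ 2) ^ (-(-(k : ℤ))) * M ^ (-((2 * k : ℕ) : ℤ)) = 1 := by
      rw [neg_neg, ← zpow_natCast, ← zpow_mul, ← zpow_add]
      push_cast
      rw [show (2 : ℤ) * k + -(2 * k) = 0 by ring, zpow_zero]
    rw [this, dg_one, one_mul]
  rw [e2, e3, e3] at h4
  -- assemble
  refine ⟨[M ^ (-(k : ℤ)), M ^ (-(k : ℤ))], 1 * (g * (M ^ (-(4 * k : ℤ)) * 1)) * 1, rfl, ?_, ?_⟩
  · have hF : Fw k v = ((.cup, 0) :: (sh 1 (v ++ rep (2 * k) Wind) ++ [(.cap, 0)])) ++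
        tws (2 * (-(k : ℤ))) := by
      unfold Fw
      rw [List.cons_append, show (-2 : ℤ) * k = 2 * (-(k : ℤ)) by ring]
    rw [hF]
    refine (hPathAppend ℂ M _ _ _ _ _).2 ⟨_, _, _, Path.cons (Step.cup (1 : G ℂ) _) ?_, h4, rfl⟩
    rw [one_mul]
    refine (hPathAppend ℂ M _ _ _ _ _).2 ⟨_, _, _, h3, Path.cons ?_ (Path.nil _), rfl⟩
    have h5 := Step.cap (M := M) (1 : G ℂ) (M ^ (-(4 * k : ℤ)))
      [dg (M ^ (-((2 * k : ℕ) : ℤ))) * ha, dg (M ^ (-((2 * k : ℕ) : ℤ))) * hb]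
    rw [one_mul] at h5
    exact h5
  · rw [one_mul, mul_one, mul_one, List.prod_cons, List.prod_cons, List.prod_nil, mul_one]
    have : M ^ (-(4 * k : ℤ)) * (M ^ (-(k : ℤ)) * M ^ (-(k : ℤ))) = M ^ (-(6 * k : ℤ)) := by
      rw [← zpow_add, ← zpow_add]
      congr 1
      ring
    rw [mul_assoc, this, mul_comm]

end AJM

end

end
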